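import Pool.Agent.H18N.StmA
import Pool.Agent.H14F.Top

/-!
# Project JN, part ADMW: the conditions at the primes over `W` and at the real places

After `H14F/Two.lean` of helper14. Author: helper93.
-/

set_option autoImplicit false
set_option linter.all false

open Polynomial IsDedekindDomain NumberField
open scoped Classical Pointwise

namespace Pool.Agent.H18N.ADMW

open Pool.Agent.N783.PF
open Pool.Agent.N783.PQ (LocIm)
open Pool.Agent.N874.JM (LocF)
open Pool.Agent.N692.PMTOW (im)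
open Pool.Agent.H14F
open Pool.Agent.H14U (res res_apply)

/-! ### Squares -/

/-- an integer which is `1` modulo an odd prime `p` is a square in `ℚ_p` -/
theorem sq_odd (p : ℕ) [hp : Fact p.Prime] (h2 : p ≠ 2) (D : ℕ) (hD : D ≡ 1 [MOD p]) :
    ∃ δ : ℚ_[p], δ ^ 2 = (D : ℚ_[p]) := by
  obtain ⟨F, hF⟩ : ∃ F : ℤ[X], F = X ^ 2 - C (D : ℤ) := ⟨_, rfl⟩
  have h1 : F.aeval (1 : ℤ_[p]) = ((1 - (D : ℤ) : ℤ) : ℤ_[p]) := by
    rw [hF, map_sub, map_pow, aeval_X, aeval_C]
    simp
  have h3 : F.derivative.aeval (1 : ℤ_[p]) = 2 := by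
    rw [hF]
    simp only [derivative_sub, derivative_X_pow, derivative_C, sub_zero, map_mul, aeval_C, map_pow,
      aeval_X, one_pow, mul_one]
    simp
  have hn2 : ‖(2 : ℤ_[p])‖ = 1 := by
    have h4 : IsUnit ((2 : ℕ) : ℤ_[p]) := by
      rw [PadicInt.isUnit_iff]
      by_contra hne
      have h5 : ‖((2 : ℕ) : ℤ_[p])‖ < 1 := lt_of_le_of_ne (PadicInt.norm_le_one _) hne
      have h6 : ‖(((2 : ℕ) : ℤ) : ℤ_[p])‖ < 1 := by
        rw [Int.cast_natCast]
        exact h5
      rw [PadicInt.norm_int_lt_one_iff_dvd] at h6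
      have h7 : p ∣ 2 := by exact_mod_cast h6
      exact h2 ((Nat.prime_dvd_prime_iff_eq hp.out Nat.prime_two).1 h7)
    have := PadicInt.isUnit_iff.1 h4
    push_cast at this
    exact this
  have h4 : ‖F.aeval (1 : ℤ_[p])‖ < ‖F.derivative.aeval (1 : ℤ_[p])‖ ^ 2 := by
    rw [h1, h3, hn2, one_pow, PadicInt.norm_int_lt_one_iff_dvd]
    have h5 := (Nat.modEq_iff_dvd).1 hD
    push_cast at h5
    exact h5
  obtain ⟨z, hz, -⟩ := hensels_lemma h4
  refine ⟨(z : ℚ_[p]), ?_⟩
  rw [hF, map_sub, map_pow, aeval_X, aeval_C, sub_eq_zero] at hz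
  have h5 := congrArg (fun x : ℤ_[p] => (x : ℚ_[p])) hz
  simpa using h5

/-- `D` is a square over the completions at the primes over `W`. -/
theorem sq_loc {M : Type} [Field M] [NumberField M] (w : HeightOneSpectrum (𝓞 M)) {W D : ℕ}
    (hW : (W : 𝓞 M) ∈ w.asIdeal) (h8 : D % 8 = 1) (hD : D ≡ 1 [MOD W]) :
    ∃ δ : w.adicCompletion M, δ ^ 2 = ((D : ℕ) : w.adicCompletion M) := by
  obtain ⟨p, hp, hpw⟩ := Pool.Agent.N891.PQ.exists_below w
  haveI : Fact p.Prime := ⟨hp⟩
  have hpW : p ∣ W := by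
    by_contra hn
    have hco : Nat.Coprime p W := (Nat.Prime.coprime_iff_not_dvd hp).2 hn
    obtain ⟨a, b, hab⟩ := Nat.isCoprime_iff_coprime.2 hco
    apply w.isPrime.ne_top
    rw [Ideal.eq_top_iff_one]
    have h3 : ((a : 𝓞 M) * (p : 𝓞 M) + (b : 𝓞 M) * (W : 𝓞 M)) = 1 := by
      exact_mod_cast congrArg (Int.cast : ℤ → 𝓞 M) hab
    rw [← h3]
    exact Ideal.add_mem _ (Ideal.mul_mem_left _ _ hpw) (Ideal.mul_mem_left _ _ hW)
  obtain ⟨ι, hι, -, -⟩ := Pool.Agent.N498.PQ.cpl M p w hpw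
  have key : ∃ δ : ℚ_[p], δ ^ 2 = (D : ℚ_[p]) := by
    by_cases h2 : p = 2
    · subst h2
      exact Pool.Agent.N891.PQ.sq_two D h8
    · exact sq_odd p h2 D (hD.of_dvd hpW)
  obtain ⟨δ, hδ⟩ := key
  exact ⟨ι δ, by rw [← map_pow, hδ, map_natCast]⟩

/-! ### The conditions -/

section two

variable {M Ω : Type} [Field M] [NumberField M] [Field Ω] [NumberField Ω] [Algebra M Ω]

/-- The conditions at the primes over `W` and at the real places. -/
def CW (W : ℕ) (f : M[X]) (θ x : Ω) : Prop := ∃ h : M[X], aeval θ h = x ∧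
  (∀ w : HeightOneSpectrum (𝓞 M), (W : 𝓞 M) ∈ w.asIdeal → LocF (w.adicCompletion M) f h) ∧
  ∀ ρ : M →+* ℝ, LocIm ℝ (f.map ρ) (h.map ρ)

variable {W : ℕ} {f : M[X]} {θ : Ω}

theorem cw_sq (hgen : ∀ x : Ω, ∃ h : M[X], aeval θ h = x) (x : Ω) : CW W f θ (x ^ 2) := by
  obtain ⟨s, hs⟩ := hgen x
  refine ⟨s ^ 2, by rw [map_pow, hs], fun w _ => ?_, fun ρ => ?_⟩
  · show LocIm _ _ _
    rw [Polynomial.map_pow]
    exact locIm_sq _ _
  · rw [Polynomial.map_pow]
    exact locIm_sq _ _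

theorem cw_mul {x y : Ω} (h : CW W f θ x) (h' : CW W f θ y) : CW W f θ (x * y) := by
  obtain ⟨a, ha, h1, h2⟩ := h
  obtain ⟨b, hb, h3, h4⟩ := h'
  refine ⟨a * b, by rw [map_mul, ha, hb], fun w hw => ?_, fun ρ => ?_⟩
  · have h5 : LocIm _ _ _ := Pool.Agent.N891.PQ.LocIm.mul (h1 w hw) (h3 w hw)
    rw [← Polynomial.map_mul] at h5
    exact h5
  · rw [Polynomial.map_mul]
    exact Pool.Agent.N891.PQ.LocIm.mul (h2 ρ) (h4 ρ)

end two

section sig

variable {F L M Ω : Type} [Field F] [NumberField F] [Field L] [NumberField L] [Field M]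
  [NumberField M] [Field Ω] [NumberField Ω] [Algebra F L] [Algebra F M] [Algebra L Ω]
  [Algebra M Ω] [Algebra F Ω] [IsScalarTower F L Ω] [IsScalarTower F M Ω] [Normal F M]

theorem cw_sig {W : ℕ} {f₀ : F[X]} {θ₀ : L} (σ : Ω ≃ₐ[L] Ω) {x : Ω}
    (h : CW W (f₀.map (algebraMap F M)) (algebraMap L Ω θ₀) x) :
    CW W (f₀.map (algebraMap F M)) (algebraMap L Ω θ₀) (σ x) := by
  obtain ⟨a, ha, h1, h2⟩ := h
  obtain ⟨τ, hτ⟩ : ∃ τ : M ≃ₐ[F] M, τ = res F M σ := ⟨_, rfl⟩
  have hτ' : ∀ y : M, algebraMap M Ω (τ y) = σ (algebraMap M Ω y) := fun y => by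
    rw [hτ, res_apply]
  let t : M →+* M := (τ : M →+* M)
  have ht : ∀ y, t y = τ y := fun y => rfl
  have hf : (f₀.map (algebraMap F M)).map t = f₀.map (algebraMap F M) := by
    rw [Polynomial.map_map]
    congr 1
    exact RingHom.ext fun y => τ.commutes y
  refine ⟨a.map t, ?_, fun w hw => ?_, fun ρ => ?_⟩
  · rw [← ha]
    have e1 : aeval (algebraMap L Ω θ₀) (a.map t) =
        eval₂ ((algebraMap M Ω).comp t) (algebraMap L Ω θ₀) a := by
      rw [aeval_def, eval₂_map]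
    have e2 : (algebraMap M Ω).comp t = ((σ : Ω →+* Ω)).comp (algebraMap M Ω) :=
      RingHom.ext fun y => hτ' y
    have e3 : (σ : Ω →+* Ω) (algebraMap L Ω θ₀) = algebraMap L Ω θ₀ := σ.commutes θ₀
    have e4 : σ (aeval (algebraMap L Ω θ₀) a) =
        (σ : Ω →+* Ω) (eval₂ (algebraMap M Ω) (algebraMap L Ω θ₀) a) := rfl
    rw [e1, e2, e4, hom_eval₂, e3]
  · obtain ⟨w', hv⟩ := Pool.Agent.H14F.sig (τ : M ≃+* M) w
    have hw' : (W : 𝓞 M) ∈ w'.asIdeal := by
      have e := nat_mem_iff_val w' W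
      have e' := nat_mem_iff_val w W
      rw [e, hv]
      have e2 : (τ : M ≃+* M) (W : M) = W := map_natCast _ W
      rw [e2, ← e']
      exact hw
    obtain ⟨j, hj, -, -⟩ := Pool.Agent.TH115.GD.exists_compl_map w' w t
      (fun y hy => by
        have := hv y
        rw [this] at hy
        exact hy)
      (fun y hy => by
        have := hv y
        rw [this] at hy
        exact hy)
    have h3 : LocIm _ _ _ := locIm_map j (h1 w' hw')
    have e5 : j.comp (algebraMap M (w'.adicCompletion M)) =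
        (algebraMap M (w.adicCompletion M)).comp t := RingHom.ext fun y => hj y
    have e6 : (a.map (algebraMap M (w'.adicCompletion M))).map j =
        (a.map t).map (algebraMap M (w.adicCompletion M)) := by
      rw [Polynomial.map_map, Polynomial.map_map, e5]
    have e7 : ((f₀.map (algebraMap F M)).map (algebraMap M (w'.adicCompletion M))).map j =
        (f₀.map (algebraMap F M)).map (algebraMap M (w.adicCompletion M)) := by
      rw [Polynomial.map_map, e5, ← Polynomial.map_map, hf]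
    rw [e6, e7] at h3
    exact h3
  · have h3 := h2 (ρ.comp t)
    rw [← Polynomial.map_map, ← Polynomial.map_map, hf] at h3
    exact h3

/-- The conditions for an element of `L`. -/
theorem cw_base {W : ℕ} {f₀ : F[X]} {θ₀ : L} (hirr : Irreducible (f₀.map (algebraMap F M)))
    (hroot : aeval (algebraMap L Ω θ₀) (f₀.map (algebraMap F M)) = 0)
    (hs : ∀ v : HeightOneSpectrum (𝓞 F), (W : 𝓞 F) ∈ v.asIdeal → ∃ w : HeightOneSpectrum (𝓞 M),
      (W : 𝓞 M) ∈ w.asIdeal ∧ (∀ x : F, w.valuation M (algebraMap F M x) = v.valuation F x) ∧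
      ∀ s : M, s ≠ 0 → ∃ s₀ : F, w.valuation M (s - algebraMap F M s₀) < w.valuation M s)
    (hr : ∀ σ : F →+* ℝ, ∃ ρ : M →+* ℝ, ρ.comp (algebraMap F M) = σ) {h₁ : F[X]}
    (h : CW W (f₀.map (algebraMap F M)) (algebraMap L Ω θ₀) (algebraMap L Ω (aeval θ₀ h₁))) :
    (∀ v : HeightOneSpectrum (𝓞 F), (W : 𝓞 F) ∈ v.asIdeal →
      LocF (v.adicCompletion F) f₀ h₁) ∧
    ∀ σ : F →+* ℝ, LocIm ℝ (f₀.map σ) (h₁.map σ) := by
  obtain ⟨a, ha, h1, h2⟩ := h
  have hd : f₀.map (algebraMap F M) ∣ a - h₁.map (algebraMap F M) := by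
    have h3 : aeval (algebraMap L Ω θ₀) (a - h₁.map (algebraMap F M)) = 0 := by
      rw [map_sub, ha, aeval_map_algebraMap, aeval_algebraMap_apply, sub_self]
    have h4 := minpoly.dvd M _ h3
    have h5 : Associated (f₀.map (algebraMap F M)) (minpoly M (algebraMap L Ω θ₀)) := by
      have h6 := minpoly.dvd M _ hroot
      have h7 : IsIntegral M (algebraMap L Ω θ₀) := by
        haveI : FiniteDimensional M Ω := Module.Finite.of_restrictScalars_finite ℚ M Ω
        exact Algebra.IsIntegral.isIntegral _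
      exact ((minpoly.irreducible h7).associated_of_dvd hirr h6).symm
    exact h5.dvd.trans h4
  refine ⟨fun v hv => ?_, fun σ => ?_⟩
  · obtain ⟨w, hw, hv1, hv2⟩ := hs v hv
    obtain ⟨e, he⟩ := compl_bij v w (algebraMap F M) hv1 hv2
    have h3 : LocIm _ _ _ := h1 w hw
    have h4 := locIm_congr (h' := (h₁.map (algebraMap F M)).map
      (algebraMap M (w.adicCompletion M))) (by
        rw [← Polynomial.map_sub]
        exact Polynomial.map_dvd _ hd) h3
    have h5 := locIm_map (e.symm : w.adicCompletion M →+* v.adicCompletion F) h4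
    have e5 : ((e.symm : w.adicCompletion M →+* v.adicCompletion F).comp
        (algebraMap M (w.adicCompletion M))).comp (algebraMap F M) =
        algebraMap F (v.adicCompletion F) := by
      refine RingHom.ext fun y => ?_
      show e.symm (algebraMap M (w.adicCompletion M) (algebraMap F M y)) = _
      rw [← he, RingEquiv.symm_apply_apply]
    rw [Polynomial.map_map, Polynomial.map_map, Polynomial.map_map, Polynomial.map_map,
      e5] at h5
    exact h5
  · obtain ⟨ρ, rfl⟩ := hr σ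
    have h3 := locIm_congr (h' := (h₁.map (algebraMap F M)).map ρ) (by
        rw [← Polynomial.map_sub]
        exact Polynomial.map_dvd _ hd) (h2 ρ)
    rw [Polynomial.map_map, Polynomial.map_map] at h3
    exact h3

end sig

/-- The conditions over the extension at the primes over `W` and at the real places. -/
theorem top_cw {M Ω : Type} [Field M] [NumberField M] [Field Ω] [NumberField Ω] [Algebra M Ω]
    {g W D : ℕ} {f : (𝓞 M)[X]} {t : Ω} (hD0 : D ≠ 0) (h8 : D % 8 = 1) (hDW : D ≡ 1 [MOD W])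
    (hG : IsGen g f t) {h : M[X]}
    (hloc : ∀ w : HeightOneSpectrum (𝓞 M),
      LocF (w.adicCompletion M) (fF (f.scaleRoots ((D : ℕ) : 𝓞 M))) h)
    (hreal : ∀ σ : M →+* ℝ,
      LocIm ℝ ((fF (f.scaleRoots ((D : ℕ) : 𝓞 M))).map σ) (h.map σ)) :
    CW W (fF f) t (aeval ((D : Ω) * t) h) := by
  refine ⟨h.comp (C ((D : ℕ) : M) * X), ?_, ?_, ?_⟩
  · rw [aeval_comp]
    congr 1
    rw [map_mul, aeval_C, aeval_X, map_natCast]
  · intro w hw
    obtain ⟨δ, hδ⟩ := sq_loc w hw h8 hDW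
    haveI : CharZero (w.adicCompletion M) :=
      charZero_of_injective_algebraMap (algebraMap M (w.adicCompletion M)).injective
    exact Pool.Agent.N78.PF.map_locF hG.mon hG.deg hD0 δ hδ h (hloc w)
  · intro σ
    letI : Algebra M ℝ := σ.toAlgebra
    exact Pool.Agent.N78.PF.map_locF (E := ℝ) hG.mon hG.deg hD0 (Real.sqrt (D : ℕ))
      (Real.sq_sqrt (Nat.cast_nonneg _)) h (hreal σ)

end Pool.Agent.H18N.ADMW
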