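import Pool.Agent.H18N.ADMWa
import Pool.Agent.H18N.ADMWb
import Pool.Agent.H68K.PR.Pre

/-!
# Project JN, part ADMW: the Selmer group over admissible extensions

After `H14F/Sel.lean` of helper14 and `H68K/PR/AdmK.lean` of helper68. Author: helper93.
-/

set_option autoImplicit false
set_option linter.all false

open Polynomial IsDedekindDomain NumberField
open scoped Classical Pointwise

namespace Pool.Agent.H18N.ADMW

open Pool.Agent.N783.PF
open Pool.Agent.N783.PQ (LocIm)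
open Pool.Agent.N874.JM (LocF)
open Pool.Agent.N874.PP (Ev Sq1 U0)
open Pool.Agent.N692.PMTOW (im sup_top normal_of_top)
open Pool.Agent.H14F
open Pool.Agent.H18G (SelLe SelE twf)
open Pool.Agent.H68K.PR (AtM towc ex_equiv)

/-! ### The explicit Selmer group and elements of the field -/

/-- A bound for the number of the classes in the field gives `SelLe`. -/
theorem selLe_of_atm {M Ω : Type} [Field M] [NumberField M] [Field Ω] [Algebra M Ω]
    {G : (𝓞 M)[X]} {Θ : Ω} (hm : (fF G).Monic) (hirr : Irreducible (fF G))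
    (hd : (fF G).natDegree = Module.finrank M Ω) (hroot : aeval Θ (fF G) = 0) {N : ℕ}
    (h : AtM (fun x : Ω => ∃ p : M[X], aeval Θ p = x ∧ SelE G p) N) : SelLe N G := by
  have hpos : 0 < Module.finrank M Ω := by
    rw [← hd]
    exact hirr.natDegree_pos
  haveI : FiniteDimensional M Ω := Module.finite_of_finrank_pos hpos
  obtain ⟨e, he⟩ := ex_equiv hirr hm hd hroot
  have hdvd : ∀ p : M[X], fF G ∣ p ↔ aeval Θ p = 0 := by
    intro p
    rw [← AdjoinRoot.mk_eq_zero, ← he, map_eq_zero_iff _ e.injective]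
  have hsq : ∀ p : M[X], IsSquare (aeval Θ p) → ∃ s : M[X], fF G ∣ p - s ^ 2 := by
    rintro p ⟨y, hy⟩
    obtain ⟨z, hz⟩ := e.surjective y
    obtain ⟨s, rfl⟩ := AdjoinRoot.mk_surjective z
    rw [he] at hz
    refine ⟨s, ?_⟩
    rw [hdvd, map_sub, map_pow, sub_eq_zero, hz, hy, pow_two]
  have hne : ∀ p : M[X], SelE G p → aeval Θ p ≠ 0 := by
    intro p hp h0
    obtain ⟨u, v, huv⟩ := hp.cop
    have := congrArg (aeval Θ) huv
    rw [map_add, map_mul, map_mul, hroot, h0, mul_zero, mul_zero, add_zero, map_one] at this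
    exact zero_ne_one this
  -- a maximal set
  let Q : ℕ → Prop := fun n => ∃ T : Finset Ω, T.card = n ∧
    (∀ x ∈ T, ∃ p : M[X], aeval Θ p = x ∧ SelE G p) ∧
    ∀ x ∈ T, ∀ y ∈ T, IsSquare (x * y) → x = y
  have hQ0 : Q 0 := ⟨∅, rfl, by simp, by simp⟩
  have hQN : ∀ n, Q n → n ≤ N := by
    rintro n ⟨T, rfl, h1, h2⟩
    refine h T (fun x hx => ⟨?_, h1 x hx⟩) h2
    obtain ⟨p, rfl, hp⟩ := h1 x hx
    exact hne p hp
  obtain ⟨n, hn⟩ : ∃ n, n = Nat.findGreatest Q N := ⟨_, rfl⟩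
  have hQn : Q n := by
    rw [hn]
    exact Nat.findGreatest_spec (Nat.zero_le N) hQ0
  have hmax : ∀ m, n < m → ¬ Q m := by
    intro m hm hQ
    exact Nat.findGreatest_is_greatest (hn ▸ hm) (hQN m hQ) hQ
  have hnN : n ≤ N := hQN n hQn
  obtain ⟨T, hT, h1, h2⟩ := hQn
  let ε : T ≃ Fin n := T.equivFinOfCardEq hT
  have h3 : ∀ x : T, ∃ p : M[X], aeval Θ p = x.1 ∧ SelE G p := fun x => h1 x.1 x.2
  choose r hr1 hr2 using h3
  refine ⟨fun i => if hi : (i : ℕ) < n then r (ε.symm ⟨i, hi⟩) else 1, ?_, ?_⟩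
  · intro i
    by_cases hi : (i : ℕ) < n
    · simp only [hi, dif_pos]
      exact (hr2 _).cop
    · simp only [hi, dif_neg, not_false_eq_true]
      exact isCoprime_one_left
  · intro p hp
    by_contra hcon
    push Not at hcon
    have h4 : ∀ y ∈ T, ¬ IsSquare (aeval Θ p * y) := by
      intro y hy hs
      obtain ⟨i, hi⟩ : ∃ i : Fin n, i = ε ⟨y, hy⟩ := ⟨_, rfl⟩
      have hiN : (i : ℕ) < N := lt_of_lt_of_le i.2 hnN
      have h5 : IsSquare (aeval Θ (p * r (ε.symm i))) := by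
        rw [map_mul, hr1, hi, Equiv.symm_apply_apply]
        exact hs
      obtain ⟨s, hs⟩ := hsq _ h5
      refine hcon ⟨i, hiN⟩ s ?_
      simp only [i.2, dif_pos]
      exact hs
    have h5 : aeval Θ p ∉ T := fun hx => h4 _ hx ⟨_, rfl⟩
    refine hmax (n + 1) (Nat.lt_succ_self n) ⟨insert (aeval Θ p) T, ?_, ?_, ?_⟩
    · rw [Finset.card_insert_of_notMem h5, hT]
    · intro x hx
      rcases Finset.mem_insert.1 hx with rfl | hx
      · exact ⟨p, rfl, hp⟩
      · exact h1 x hx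
    · intro x hx y hy hs
      rcases Finset.mem_insert.1 hx with rfl | hx
      · rcases Finset.mem_insert.1 hy with rfl | hy
        · rfl
        · exact absurd hs (h4 y hy)
      · rcases Finset.mem_insert.1 hy with rfl | hy
        · rw [mul_comm] at hs
          exact absurd hs (h4 x hx)
        · exact h2 x hx y hy hs

theorem atm_mono {Ω : Type} [Field Ω] {P Q : Ω → Prop} {N : ℕ} (h : AtM P N)
    (hPQ : ∀ x, x ≠ 0 → Q x → P x) : AtM Q N :=
  fun T hT hT2 => h T (fun x hx => ⟨(hT x hx).1, hPQ x (hT x hx).1 (hT x hx).2⟩) hT2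

/-! ### The Selmer group over the extension -/

theorem key {F L : Type} [Field F] [NumberField F] [Field L] [NumberField L] [Algebra F L]
    {g W : ℕ} {f : (𝓞 F)[X]} {θ : L} {S J : Finset ℕ} {𝔮 : ℕ → Ideal (𝓞 F)}
    {r P : ℕ → (𝓞 F)[X]} (D : Dt g W f θ S J 𝔮 r P) {N : ℕ}
    (hN : AtM (fun x : L => InR W J 𝔮 f θ x) N)
    (M : Type) [Field M] [NumberField M] [Algebra F M] [IsGalois F M] {n : ℕ}
    (hM : Module.finrank F M = 2 ^ n)
    (h2 : ∀ w : HeightOneSpectrum (𝓞 M), (W : 𝓞 M) ∈ w.asIdeal → Tot F w)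
    (hr : ∀ σ : F →+* ℝ, ∃ ρ : M →+* ℝ, ρ.comp (algebraMap F M) = σ)
    (hq : ∀ q ∈ J, ∀ w : HeightOneSpectrum (𝓞 M), Ov (𝔮 q) w → Tot F w)
    (hram : ∀ w : HeightOneSpectrum (𝓞 M), ¬ Unr F w →
      Irreducible (rd (w.under (𝓞 F)).asIdeal f))
    (hir : ∃ v : HeightOneSpectrum (𝓞 F), (W : 𝓞 F) ∈ v.asIdeal ∧ Irreducible (rd v.asIdeal f)) :
    SelLe (N ^ 2 ^ n) (twf J (up M f)) := by
  have hm := D.gen.mon
  -- irreducibility
  have hirrF : Irreducible (fF f) :=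
    Pool.Agent.N426.PF.irrK (Pool.Agent.N426.PF.toG D.gen)
  have hirrM : Irreducible (fF (up M f)) := by
    obtain ⟨v, hv, hv2⟩ := hir
    obtain ⟨w, hw⟩ := exists_above (Ω := M) v
    subst hw
    refine irr_of_mod (up_monic hm) (w := w) ?_
    refine irr_mod (tot_res (h2 w ?_)) hv2
    rw [← nat_mem_under (L := F)]
    exact hv
  obtain ⟨Ω, _, _, _, t, hG⟩ := Pool.Agent.N667.PF.gen M g (up M f) (up_monic hm)
    (by rw [up_deg hm, D.gen.deg]) hirrM
  letI : Algebra F Ω := ((algebraMap M Ω).comp (algebraMap F M)).toAlgebra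
  haveI : IsScalarTower F M Ω := IsScalarTower.of_algebraMap_eq fun x => rfl
  have ht : aeval t (fF f) = 0 := by
    have h3 := hG.root
    rw [fF_up, aeval_map_algebraMap] at h3
    exact h3
  obtain ⟨φ, hφ⟩ := exists_hom D.gen hirrF ht
  letI : Algebra L Ω := φ.toRingHom.toAlgebra
  haveI : IsScalarTower F L Ω := IsScalarTower.of_algebraMap_eq fun x => (φ.commutes x).symm
  have hφ' : algebraMap L Ω θ = t := hφ
  rw [← hφ'] at hG
  have hodd : Odd (Module.finrank F L) := by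
    rw [D.gen.rank]
    exact ⟨g, rfl⟩
  have hrk : Module.finrank M Ω = Module.finrank F L := by
    rw [D.gen.rank, hG.rank]
  have htop : im F M Ω ⊔ im F L Ω = ⊤ := Pool.Agent.N301.JM.sup_top hM hodd hrk
  haveI : Normal L Ω := normal_of_top (K := F) (L := L) (M := M) (Ω := Ω) htop
  -- generation
  have hgenΩ : ∀ x : Ω, ∃ h : M[X], aeval (algebraMap L Ω θ) h = x := by
    intro x
    obtain ⟨c, rfl⟩ := hG.gen x
    refine ⟨∑ i, C (c i) * X ^ (i : ℕ), ?_⟩
    rw [map_sum]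
    refine Finset.sum_congr rfl fun i _ => ?_
    rw [map_mul, map_pow, aeval_C, aeval_X]
  have hgenL : ∀ x : L, ∃ h : F[X], aeval θ h = x := by
    intro x
    obtain ⟨c, rfl⟩ := D.gen.gen x
    refine ⟨∑ i, C (c i) * X ^ (i : ℕ), ?_⟩
    rw [map_sum]
    refine Finset.sum_congr rfl fun i _ => ?_
    rw [map_mul, map_pow, aeval_C, aeval_X]
  have hqθ : ∀ q ∈ J, ∀ 𝔓 : HeightOneSpectrum (𝓞 Ω), Ov (𝔮 q) 𝔓 →
      𝔓.valuation Ω (algebraMap L Ω θ) = 1 → ¬ Ev 𝔓 ((q : Ω) * algebraMap L Ω θ) := by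
    intro q hqJ 𝔓 o1 v1
    have hqS := D.sub hqJ
    obtain ⟨o2, o3⟩ := ov_under (L := L) (M := M) o1
    have htot' := tot_comp htop (hq q hqJ _ o2)
    haveI : IsGalois L Ω := {}
    have hval := unr_val htot'.unr
    obtain ⟨𝔓₁, 𝔓₂, e1, e2, e3, e4, e5, e6, e7⟩ :=
      exqw g W F L f θ S 𝔮 r P D.hg D.gen D.sqw D.gs q hqS (D.cq q hqS)
    have vq : 𝔓.valuation Ω (q : Ω) = WithZero.exp (-1 : ℤ) := by
      rw [← map_natCast (algebraMap L Ω) q, hval]
      rcases e7 (𝔓.under (𝓞 L)) o3 with h | h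
      · rw [h]; exact e5
      · rw [h]; exact e6
    rintro ⟨z, hz⟩
    rw [map_mul, v1, mul_one, vq] at hz
    have hz0 : 𝔓.valuation Ω z ≠ 0 := by
      intro h0
      rw [h0] at hz
      simp at hz
    have h3 := congrArg WithZero.log hz
    rw [WithZero.log_exp, WithZero.log_pow] at h3
    simp only [nsmul_eq_mul, Nat.cast_ofNat] at h3
    omega
  have hs : ∀ v : HeightOneSpectrum (𝓞 F), (W : 𝓞 F) ∈ v.asIdeal →
      ∃ w : HeightOneSpectrum (𝓞 M), (W : 𝓞 M) ∈ w.asIdeal ∧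
      (∀ x : F, w.valuation M (algebraMap F M x) = v.valuation F x) ∧
      ∀ s : M, s ≠ 0 → ∃ s₀ : F, w.valuation M (s - algebraMap F M s₀) < w.valuation M s := by
    intro v hv
    obtain ⟨w, rfl⟩ := exists_above (Ω := M) v
    have hw : (W : 𝓞 M) ∈ w.asIdeal := by
      rw [← nat_mem_under (L := F)]
      exact hv
    exact ⟨w, hw, unr_val (h2 w hw).unr, tot_dens (h2 w hw)⟩
  -- the polynomial of the twist over the extension
  have hmU := up_monic (M := M) hm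
  have hdU : (up M f).natDegree = 2 * g + 1 := by rw [up_deg hm, D.gen.deg]
  have hD0M : ((Dp J : ℕ) : M) ≠ 0 := Nat.cast_ne_zero.2 D.dp_ne
  have hmD : ((up M f).scaleRoots ((Dp J : ℕ) : 𝓞 M)).Monic := (monic_scaleRoots_iff _).2 hmU
  have hirrD : Irreducible (fF ((up M f).scaleRoots ((Dp J : ℕ) : 𝓞 M))) := by
    rw [Pool.Agent.N170.PF.fF_scale hmU]
    exact Pool.Agent.N170.PF.irr_scale hD0M hirrM
  have hroot : aeval (((Dp J : ℕ) : Ω) * algebraMap L Ω θ)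
      (fF ((up M f).scaleRoots ((Dp J : ℕ) : 𝓞 M))) = 0 := by
    have e1 := scaleRoots_eval₂_mul (p := fF (up M f)) (algebraMap M Ω) (algebraMap L Ω θ)
      ((Dp J : ℕ) : M)
    have e2 : eval₂ (algebraMap M Ω) (algebraMap L Ω θ) (fF (up M f)) = 0 := by
      rw [← aeval_def]
      exact hG.root
    rw [e2, mul_zero, map_natCast] at e1
    rw [Pool.Agent.N170.PF.fF_scale hmU, aeval_def]
    exact e1
  have hdD : (fF ((up M f).scaleRoots ((Dp J : ℕ) : 𝓞 M))).natDegree = Module.finrank M Ω := by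
    rw [hmD.natDegree_map, natDegree_scaleRoots, hdU, hG.rank]
  refine selLe_of_atm (Θ := ((Dp J : ℕ) : Ω) * algebraMap L Ω θ) (hmD.map _) hirrD hdD hroot ?_
  -- the descent
  have hkey := towc n F L M Ω two_ne_zero hM hodd hrk
    (fun x => Cnd J 𝔮 (algebraMap L Ω θ) (algebraMap L Ω (aeval θ (derivative (fF f)))) x ∧
      CW W (fF (up M f)) (algebraMap L Ω θ) x) ?_ ?_ ?_ N ?_
  · refine atm_mono hkey ?_
    rintro x hx ⟨h, rfl, hh⟩
    refine ⟨⟨top_cnd D htop hq hG hx hh.fin,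
      top_cw D.dp_ne D.eight D.modW hG hh.fin hh.real⟩, ?_⟩
    have h1 := hh.nsq
    haveI : FiniteDimensional M Ω := Module.finite_of_finrank_pos (by rw [hG.rank]; omega)
    obtain ⟨e, he⟩ := ex_equiv hirrD (hmD.map _) hdD hroot
    rw [← he, Algebra.norm_eq_of_algEquiv]
    exact h1
  · intro x hx
    exact ⟨cnd_sq hx, cw_sq hgenΩ x⟩
  · intro x y hx hy h3 h4
    refine ⟨cnd_mul ?_ hqθ hx hy h3.1 h4.1, cw_mul h3.2 h4.2⟩
    intro q hqJ
    obtain ⟨a1, a2, a3, a4, a5, a6, a7, -⟩ := D.gs q (D.sub hqJ)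
    exact ⟨a1, by omega, a7⟩
  · intro σ x h3
    refine ⟨cnd_sig rfl rfl σ h3.1, ?_⟩
    have h4 := h3.2
    rw [fF_up] at h4 ⊢
    exact cw_sig σ h4
  · refine atm_mono hN ?_
    rintro x hx ⟨h3, hNm⟩
    obtain ⟨h₁, rfl⟩ := hgenL x
    have h4 := h3.2
    rw [fF_up] at h4
    obtain ⟨b1, b2⟩ := base D htop hq hram hx hNm h3.1
    obtain ⟨b3, b4⟩ := cw_base (by rw [← fF_up]; exact hirrM) (by rw [← fF_up]; exact hG.root)
      hs hr h4
    exact ⟨hx, hNm, b1, b2, h₁, rfl, b3, b4⟩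

/-- **ADMW.** -/
theorem t : Pool.Agent.H18N.S_ADMW := by
  intro g W F M _ _ _ _ _ f f₁ S J 𝔮 r P hg hW hone hsq hS hmod hcon hJ hadm n hrel
  obtain ⟨L, _, _, _, θ, hgen, hle⟩ := hrel
  have D : Dt g W f θ S J 𝔮 r P := ⟨hg, hgen, hsq, hS, hmod, hcon, hJ⟩
  haveI := hadm.galois
  obtain ⟨k, hk⟩ := hadm.deg
  have hN : AtM (fun x : L => InR W J 𝔮 f θ x) n := by
    intro T hT hT2
    exact hle T (fun x hx => (hT x hx).2) hT2
  have h2 : ∀ w : HeightOneSpectrum (𝓞 M), (W : 𝓞 M) ∈ w.asIdeal → Tot F w := by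
    intro w hw
    refine hadm.split w ?_
    rw [Nat.cast_mul]
    exact Ideal.mul_mem_right _ _ hw
  have hq : ∀ q ∈ J, ∀ w : HeightOneSpectrum (𝓞 M), Ov (𝔮 q) w → Tot F w := by
    intro q hq w hw
    obtain ⟨a1, a2, a3, a4, a5, a6, a7, -⟩ := D.gs q (D.sub hq)
    have h5 : (q : 𝓞 M) ∈ w.asIdeal := by
      have := hw _ a7
      rwa [map_natCast] at this
    refine hadm.split w ?_
    rw [Nat.cast_mul, Dp, Nat.cast_prod]
    refine Ideal.mul_mem_left _ _ ?_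
    exact Ideal.mem_of_dvd _ (Finset.dvd_prod_of_mem (fun q : ℕ => (q : 𝓞 M)) hq) h5
  have hir : ∃ v : HeightOneSpectrum (𝓞 F), (W : 𝓞 F) ∈ v.asIdeal ∧
      Irreducible (rd v.asIdeal f) := by
    obtain ⟨𝔭, hp, hWp, hirr⟩ := hW.irr
    have hp0 : 𝔭 ≠ ⊥ := by
      rintro rfl
      rw [Ideal.mem_bot] at hWp
      exact hsq.pos.ne' (by exact_mod_cast hWp)
    refine ⟨⟨𝔭, hp, hp0⟩, hWp, ?_⟩
    have e1 := Pool.Agent.N78.PF.rd_eq (Pool.Agent.N78.PF.sp_le hWp) hone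
    show Irreducible (rd 𝔭 f)
    rw [e1]
    exact hirr
  rw [hk]
  exact key D hN M hk h2 hadm.real hq hadm.ram hir

end Pool.Agent.H18N.ADMW
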