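import Pool.Agent.H18N.Stm
import Pool.Agent.H18G.BALG
import Pool.Agent.N667.PF.Sqf

/-!
# Project JN, part BALW (helper68): the law in balanced boxes, no condition at the primes over `W`

After `H18G/BALG.lean`.
-/

set_option autoImplicit false
set_option linter.all false

open Polynomial IsDedekindDomain NumberField
open scoped Classical

namespace Pool.Agent.H18N.BALW

open Pool.Agent.N783.PF
open Pool.Agent.H68K.PR (LJ pr2 pr2par S_LAW4 S_LIN2 S_BIN)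
open Pool.Agent.H93PR (TT6 TT6_card prod8 LR LC LJ_LR card_LR card_LJ_LR iso_LR Inj jS jS_val pigeon
  exN exN_ge num3 union3)
open Pool.Agent.H33PR (LBT CQNg mw prod_mw badt_g)
open Pool.Agent.H18G.BALG (bqg fewG)
open Pool.Agent.N352.PJ (dd)
open Pool.Agent.N874.PP (Ev Sq1 U0)

/-- The members of the residue class are irreducible. -/
theorem irrW {F : Type} [Field F] [NumberField F] {g W : ℕ} {f₁ f : (𝓞 F)[X]} (hG : GoodW g W f₁)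
    (hc : Cg (sp F W) f f₁) (hm : f.Monic) : Irreducible (fF f) := by
  obtain ⟨𝔭, hp, h2, h4⟩ := hG.irr
  have h3 : rd 𝔭 f = rd 𝔭 f₁ := Pool.Agent.N667.PF.rd_eq_of_cg
    (Pool.Agent.N667.PF.cg_mono (Pool.Agent.N667.PF.sp_le h2) hc)
  rw [← h3] at h4
  haveI := hp
  have h5 : Irreducible f := Monic.irreducible_of_irreducible_map (Ideal.Quotient.mk 𝔭) f hm h4
  exact (hm.irreducible_iff_irreducible_map_fraction_map (K := F)).1 h5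

/-- Congruence of the discriminants. -/
theorem dsc_cg {F : Type} [Field F] [NumberField F] {g : ℕ} {𝔞 : Ideal (𝓞 F)} {f f' : (𝓞 F)[X]}
    (h : Cg 𝔞 f f') : dsc g f - dsc g f' ∈ 𝔞 := by
  have h1 : f.map (Ideal.Quotient.mk 𝔞) = f'.map (Ideal.Quotient.mk 𝔞) :=
    Pool.Agent.N667.PF.rd_eq_of_cg h
  rw [← Ideal.Quotient.eq, dsc, dsc, ← resultant_map_map, ← resultant_map_map,
    ← derivative_map, ← derivative_map, h1]

/-- The discriminant of a member of the residue class. -/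
theorem sqW_of {F : Type} [Field F] [NumberField F] {g W : ℕ} {f₁ f : (𝓞 F)[X]}
    (hG : GoodW g W f₁) (hc : Cg (sp F W) f f₁)
    (ho : ∀ 𝔭 : Ideal (𝓞 F), 𝔭.IsPrime → 𝔭 ≠ ⊥ → (W : 𝓞 F) ∉ 𝔭 → dsc g f ∉ 𝔭 ^ 2) :
    SqW g W f := by
  refine ⟨hG.pos, hG.two, ho, fun 𝔭 hp h0 hW => ?_⟩
  obtain ⟨k, hk1, hk2⟩ := hG.inn 𝔭 hp h0 hW
  refine ⟨k, fun hd => hk1 ?_, hk2⟩
  have h1 := dsc_cg (g := g) hc
  have h2 : dsc g f - dsc g f₁ ∈ 𝔭 ^ k := Pool.Agent.N667.PF.sp_le hk2 h1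
  have h3 := (𝔭 ^ k).sub_mem hd h2
  rwa [sub_sub_cancel] at h3

/-- The law for the twists. -/
lemma lawW_of {F : Type} [Field F] [NumberField F] {g₀ W₀ : ℕ} {𝔮₀ : ℕ → Ideal (𝓞 F)}
    {S R : Finset ℕ} {m₀ m : ℕ} {ε : ℝ}
    (hSR : Disjoint S R)
    (Λ : AddSubgroup ((S ∪ R : Finset ℕ) → ZMod 2 × ZMod 2)) {p : (𝓞 F)[X]}
    (hG : ∀ J : Finset (S ∪ R : Finset ℕ),
      RelLe g₀ W₀ 𝔮₀ (Nat.card (LJ Λ J)) (J.map (Function.Embedding.subtype _)) p)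
    {d : Finset (S ∪ R : Finset ℕ) → ℕ} (hd : ∀ J, Nat.card (LJ Λ J) = 2 ^ d J)
    (hstep : ∀ J, ∀ q ∉ J, d (insert q J) = d J + 1 ∨ d (insert q J) + 1 = d J)
    (hinj : ∀ ρ : Finset (S ∪ R : Finset ℕ), ρ.card ≤ 1 → (∀ i : S, jS S R i ∉ ρ) →
      Inj (jS S R) Λ ρ)
    (hl : ∀ ρ : Finset (S ∪ R : Finset ℕ), ρ.card ≤ 1 → (∀ i : S, jS S R i ∉ ρ) →
      ∃ t : ℕ, Nat.card (LJ (LR (jS S R) Λ ρ) ∅) = 2 ^ t ∧ ∀ i, m₀ ≤ i → i ≤ m → ∀ k : ℕ,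
      |((Finset.univ.filter fun J : Finset S =>
          J.card = i ∧ Nat.card (LJ (LR (jS S R) Λ ρ) J) = 2 ^ k).card : ℝ) /
        ((Fintype.card S).choose i : ℝ) - pr2par (t + i) k| ≤ ε) : LawW g₀ W₀ 𝔮₀ S R m₀ m ε p := by
  -- the general form
  have key : ∀ ρ : Finset (S ∪ R : Finset ℕ), ρ.card ≤ 1 → (∀ i : S, jS S R i ∉ ρ) →
      ∀ g : Finset ℕ → Finset ℕ,
      (∀ J : Finset S, (g (J.map (Function.Embedding.subtype _))).subtype (· ∈ S ∪ R) =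
        J.map (jS S R) ∪ ρ) → ∀ i, m₀ ≤ i → i ≤ m → ∀ k : ℕ,
      |(((S.powersetCard i).filter fun J => d ((g J).subtype (· ∈ S ∪ R)) = k).card : ℝ) /
        (S.card.choose i : ℝ) - pr2par (d ρ + i) k| ≤ ε := by
    intro ρ hρ1 hρ g hg i hi1 hi2 k
    obtain ⟨t, ht, h1⟩ := hl ρ hρ1 hρ
    have h2 : d ρ = t := by
      have h3 := card_LJ_LR hρ (hinj ρ hρ1 hρ) ∅
      rw [Finset.map_empty, Finset.empty_union, ht, hd] at h3
      exact (Nat.pow_right_injective le_rfl h3).symm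
    have h3 := h1 i hi1 hi2 k
    rw [Fintype.card_coe] at h3
    rw [Pool.Agent.H93PR.cnt hρ (hinj ρ hρ1 hρ) hd g hg i k, h2]
    exact h3
  have he0 : ((∅ : Finset ℕ).subtype (· ∈ S ∪ R)) = (∅ : Finset (S ∪ R : Finset ℕ)) := by
    ext x
    simp
  refine ⟨fun J => d (J.subtype (· ∈ S ∪ R)), fun J hJ => ?_, fun i hi1 hi2 k => ⟨?_, ?_⟩⟩
  · have h1 := hG (J.subtype (· ∈ S ∪ R))
    rw [hd, Finset.subtype_map, Finset.filter_true_of_mem fun x hx => hJ hx] at h1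
    exact h1
  · have h1 := key ∅ (by simp) (fun i => Finset.notMem_empty _) (fun J => J) (fun J => by
      ext x
      rw [Finset.mem_subtype, Finset.union_empty, Finset.mem_map, Finset.mem_map]
      constructor
      · rintro ⟨y, hy, hyx⟩
        exact ⟨y, hy, Subtype.ext hyx⟩
      · rintro ⟨y, hy, rfl⟩
        exact ⟨y, hy, rfl⟩) i hi1 hi2 k
    simp only [he0]
    exact h1
  · intro r hr
    have hrT : r ∈ S ∪ R := Finset.mem_union_right _ hr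
    have hρ : ∀ i : S, jS S R i ∉ ({⟨r, hrT⟩} : Finset (S ∪ R : Finset ℕ)) := by
      intro i h
      rw [Finset.mem_singleton] at h
      have h1 : ((jS S R i : (S ∪ R : Finset ℕ)) : ℕ) = r := congrArg Subtype.val h
      rw [jS_val] at h1
      exact Finset.disjoint_left.1 hSR i.2 (h1 ▸ hr)
    have h1 := key {⟨r, hrT⟩} (by simp) hρ (fun J => insert r J) (fun J => by
      ext x
      rw [Finset.mem_subtype, Finset.mem_insert, Finset.mem_union, Finset.mem_map, Finset.mem_map,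
        Finset.mem_singleton]
      constructor
      · rintro (h | ⟨y, hy, hyx⟩)
        · exact Or.inr (Subtype.ext h)
        · exact Or.inl ⟨y, hy, Subtype.ext hyx⟩
      · rintro (⟨y, hy, rfl⟩ | h)
        · exact Or.inr ⟨y, hy, rfl⟩
        · exact Or.inl (congrArg Subtype.val h)) i hi1 hi2 k
    have h2 : pr2par (d {⟨r, hrT⟩} + i) k = pr2par (d ∅ + 1 + i) k := by
      have h3 := hstep ∅ ⟨r, hrT⟩ (Finset.notMem_empty _)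
      rw [insert_empty_eq] at h3
      unfold pr2par
      have h4 : Even (d {⟨r, hrT⟩} + i + k) ↔ Even (d ∅ + 1 + i + k) := by
        rw [Nat.even_iff, Nat.even_iff]
        omega
      simp only [h4]
    simp only [he0]
    rw [← h2]
    exact h1

/-- A member for which the law fails is in one of the bad sets. -/
lemma bad_ofW {F : Type} [Field F] [NumberField F] {g : ℕ} (hg : 1 ≤ g) {κ β W : ℕ}
    (hlb : ∀ (L : Type) [Field L] [NumberField L] [Algebra F L] (f : (𝓞 F)[X]) (θ : L) (B N l : ℕ)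
      (S Q Z U : Finset ℕ) (𝔮 : ℕ → Ideal (𝓞 F)) (h P : ℕ → (𝓞 F)[X]),
      GoodS g W S 𝔮 h P →
      IsGen g f θ → SqW g W f → Ht g B f → 2 ^ (κ + β * l) * B ≤ 4 ^ N →
      (∀ q ∈ S, Cg (sp F q) f (P q)) → Q ⊆ S → Z ⊆ S \ Q → U ⊆ S \ Q → ∏ q ∈ Q, q ≤ 2 ^ l →
      ∀ α : L, α ≠ 0 → IsSquare (Algebra.norm F α) → ¬ IsSquare α →
      (∀ 𝔓 : HeightOneSpectrum (𝓞 L), (W : 𝓞 L) ∉ 𝔓.asIdeal →
        (∀ q ∈ Q, Ov (𝔮 q) 𝔓 → 𝔓.valuation L θ ≠ 1) → Ev 𝔓 α) →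
      (∀ q ∈ Z, ∀ 𝔓 : HeightOneSpectrum (𝓞 L), Ov (𝔮 q) 𝔓 → Sq1 𝔓 α) →
      (∀ q ∈ U, ∃ 𝔓 : HeightOneSpectrum (𝓞 L), Ov (𝔮 q) 𝔓 ∧ ¬ Sq1 𝔓 α) →
      LBT g N (κ + β * l) (S \ Q) Z U 𝔮 P f)
    (hCore : S_COREW) (hLin : S_LIN2) (hgen : S_GEN)
    {ε η : ℝ} {D₁ m₀ m n₀ : ℕ} (hη : 0 < η) (hη1 : η ≤ 1) (hm1 : 1 ≤ m)
    (hlaw : ∀ (ι : Type) [Fintype ι] (Λ : AddSubgroup (ι → ZMod 2 × ZMod 2)), n₀ ≤ Fintype.card ι →
      (∀ l ∈ Λ, ∑ q, (l q).1 * (l q).2 = 0) → 2 ^ Fintype.card ι ≤ Nat.card Λ →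
      Nat.card (LJ Λ ∅) ≤ 2 ^ (D₁ + 1) →
      (∀ J : Finset ι, J.card < m → ∀ l ∈ LJ Λ J, l ≠ 0 →
        |((Finset.univ.filter fun q => l q ≠ 0).card : ℝ) - (Fintype.card ι : ℝ) / 2| ≤
          η * Fintype.card ι) →
      ∃ t : ℕ, Nat.card (LJ Λ ∅) = 2 ^ t ∧ ∀ i, m₀ ≤ i → i ≤ m → ∀ k : ℕ,
        |((Finset.univ.filter fun J : Finset ι => J.card = i ∧ Nat.card (LJ Λ J) = 2 ^ k).card : ℝ) /
          ((Fintype.card ι).choose i : ℝ) - pr2par (t + i) k| ≤ ε)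
    {B l : ℕ} {f₁ : (𝓞 F)[X]} {S R Z₀ : Finset ℕ} {𝔮 : ℕ → Ideal (𝓞 F)} {h P : ℕ → (𝓞 F)[X]}
    (hSR : Disjoint S R)
    (hf₁ : GoodW g W f₁) (hS : GoodS g W (S ∪ R) 𝔮 h P) (hZ₀ : Z₀ ⊆ S)
    (hZc : Z₀.card = D₁) (hn : n₀ ≤ S.card) (hbig : 2 * m / η ≤ S.card)
    (hprod : ∀ Q ⊆ S ∪ R, Q.card ≤ m → ∏ q ∈ Q, q ≤ 2 ^ l)
    {N₁ : ℕ} (hN₁ : 2 ^ (κ + β * 0) * B ≤ 4 ^ N₁)
    {N₂ : Finset ℕ × Finset ℕ → ℕ}
    (hN₂ : ∀ x ∈ TT6 S (S ∪ R) m η, 2 ^ (κ + β * l) * B ≤ 4 ^ N₂ x)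
    {f : (𝓞 F)[X]} (hht : Ht g B f) (hf : BaseW g W f₁ (S ∪ R) P f)
    (hb : ¬ LawW g W 𝔮 S R (max m₀ 1) m ε f) :
    LBT g N₁ (κ + β * 0) ((S ∪ R) \ ∅) Z₀ ∅ 𝔮 P f ∨ ∃ x ∈ TT6 S (S ∪ R) m η,
      LBT g (N₂ x) (κ + β * l) ((S ∪ R) \ x.1) ((S \ x.1) \ x.2) x.2 𝔮 P f := by
  have hirr0 : Irreducible (fF f) := irrW hf₁ hf.one hf.mon
  obtain ⟨L, _, _, _, θ, hθ⟩ := hgen F g f hf.mon hf.deg hirr0
  by_contra hcon
  push Not at hcon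
  obtain ⟨hc1, hc2⟩ := hcon
  have hZT : Z₀ ⊆ S ∪ R := hZ₀.trans Finset.subset_union_left
  obtain ⟨Λ, hiso, hcard, hGd, hcl⟩ := hCore g W F L f θ (S ∪ R) 𝔮 h P hg hθ hf.sqf hS
    hf.con (by
      intro α hα hαn hαe hαz
      by_contra hαs
      refine hc1 (hlb L f θ B N₁ 0 (S ∪ R) ∅ Z₀ ∅ 𝔮 h P hS hθ hf.sqf hht hN₁ hf.con
        (Finset.empty_subset _) (by rwa [Finset.sdiff_empty]) (Finset.empty_subset _) (by simp)
        α hα hαn hαs ?_ ?_ ?_)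
      · intro 𝔓 hW𝔓 _
        exact hαe 𝔓 hW𝔓
      · intro q hq 𝔓 h𝔓
        exact hαz q (hZT hq) 𝔓 h𝔓
      · intro q hq
        exact absurd hq (Finset.notMem_empty _))
  have hiso' : ∀ l ∈ Λ, ∑ q, (l q).1 * (l q).2 = 0 := fun l hl => by
    have := hiso l hl
    exact this
  have hcard' : 2 ^ Fintype.card (S ∪ R : Finset ℕ) ≤ Nat.card Λ := by rwa [Fintype.card_coe]
  obtain ⟨d, hd, hstep0, -, -⟩ := hLin (S ∪ R : Finset ℕ) Λ hiso' hcard'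
  have hstep : ∀ J, ∀ q ∉ J, d (insert q J) = d J + 1 ∨ d (insert q J) + 1 = d J := by
    intro J q hq
    have h0 := hstep0 J q hq
    have key : ∀ i j : DecidableEq (S ∪ R : Finset ℕ),
        @Insert.insert _ _ (@Finset.instInsert _ i) q J =
          @Insert.insert _ _ (@Finset.instInsert _ j) q J := fun i j => by
      rw [Subsingleton.elim i j]
    rcases h0 with h0 | h0
    · left
      rw [← h0]
      exact congrArg d (key _ _)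
    · right
      rw [← h0]
      exact congrArg (fun x => d x + 1) (key _ _)
  -- the weights
  have hP : ∀ J : Finset (S ∪ R : Finset ℕ), J.card ≤ m → ∀ v₀ ∈ LJ Λ J, v₀ ≠ 0 →
      |((Finset.univ.filter fun s : S => jS S R s ∉ J ∧ v₀ (jS S R s) ≠ 0).card : ℝ) -
        (S.card : ℝ) / 2| < η / 2 * S.card := by
    intro J hJ v₀ hl1 hl2
    by_contra hlt
    push Not at hlt
    obtain ⟨α, hα, hαn, hαs, hαe, hαz, hαu⟩ := hcl J v₀ hl1 hl2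
    obtain ⟨Q, hQ⟩ : ∃ Q : Finset ℕ, Q = (J.filter fun q => v₀ q ≠ 0).map
      (Function.Embedding.subtype _) := ⟨_, rfl⟩
    obtain ⟨U, hU⟩ : ∃ U : Finset ℕ, U =
      (Finset.univ.filter fun s : S => jS S R s ∉ J ∧ v₀ (jS S R s) ≠ 0).map
      (Function.Embedding.subtype _) := ⟨_, rfl⟩
    have hQm : ∀ q : (S ∪ R : Finset ℕ), (q : ℕ) ∈ Q ↔ q ∈ J ∧ v₀ q ≠ 0 := by
      intro q
      rw [hQ, Finset.mem_map]
      constructor
      · rintro ⟨x, hx, hxq⟩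
        have : x = q := Subtype.ext hxq
        subst this
        simpa using hx
      · rintro ⟨h1, h2⟩
        exact ⟨q, by simp [h1, h2], rfl⟩
    have hUm : ∀ q : S, (q : ℕ) ∈ U ↔ jS S R q ∉ J ∧ v₀ (jS S R q) ≠ 0 := by
      intro q
      rw [hU, Finset.mem_map]
      constructor
      · rintro ⟨x, hx, hxq⟩
        have : x = q := Subtype.ext hxq
        subst this
        simpa using hx
      · rintro ⟨h1, h2⟩
        exact ⟨q, by simp [h1, h2], rfl⟩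
    have hQT : Q ⊆ S ∪ R := by
      rw [hQ]
      intro x hx
      rw [Finset.mem_map] at hx
      obtain ⟨y, -, rfl⟩ := hx
      exact y.2
    have hUS : U ⊆ S := by
      rw [hU]
      intro x hx
      rw [Finset.mem_map] at hx
      obtain ⟨y, -, rfl⟩ := hx
      exact y.2
    have hUSQ : U ⊆ S \ Q := by
      intro q hq
      rw [Finset.mem_sdiff]
      refine ⟨hUS hq, fun hq' => ?_⟩
      exact ((hUm ⟨q, hUS hq⟩).1 hq).1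
        ((hQm ⟨q, Finset.mem_union_left _ (hUS hq)⟩).1 hq').1
    have hQc : Q.card ≤ m := by
      rw [hQ, Finset.card_map]
      exact (Finset.card_filter_le _ _).trans hJ
    have hUc : (Finset.univ.filter fun s : S => jS S R s ∉ J ∧ v₀ (jS S R s) ≠ 0).card =
        U.card := by
      rw [hU, Finset.card_map]
    rw [hUc] at hlt
    have hx : (Q, U) ∈ TT6 S (S ∪ R) m η := by
      rw [TT6, Finset.mem_filter, Finset.mem_product, Finset.mem_filter, Finset.mem_filter,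
        Finset.mem_powerset, Finset.mem_powerset]
      exact ⟨⟨⟨hQT, hQc⟩, hUS, hlt⟩, hUSQ⟩
    have hST : S \ Q ⊆ (S ∪ R) \ Q :=
      Finset.sdiff_subset_sdiff Finset.subset_union_left le_rfl
    refine hc2 (Q, U) hx (hlb L f θ B (N₂ (Q, U)) l (S ∪ R) Q ((S \ Q) \ U) U 𝔮 h P hS hθ
      hf.sqf hht (hN₂ _ hx) hf.con hQT (Finset.sdiff_subset.trans hST) (hUSQ.trans hST)
      (hprod Q hQT hQc) α hα hαn hαs ?_ ?_ ?_)
    · intro 𝔓 hW𝔓 h𝔓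
      refine hαe 𝔓 hW𝔓 fun q hq hq0 => h𝔓 q ((hQm q).2 ⟨hq, hq0⟩)
    · intro q hq 𝔓 h𝔓
      rw [Finset.mem_sdiff, Finset.mem_sdiff] at hq
      refine hαz ⟨q, Finset.mem_union_left _ hq.1.1⟩ ?_ 𝔓 h𝔓
      by_contra h0
      by_cases hqJ : (⟨q, Finset.mem_union_left _ hq.1.1⟩ : (S ∪ R : Finset ℕ)) ∈ J
      · exact hq.1.2 ((hQm ⟨q, Finset.mem_union_left _ hq.1.1⟩).2 ⟨hqJ, h0⟩)
      · exact hq.2 ((hUm ⟨q, hq.1.1⟩).2 ⟨hqJ, h0⟩)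
    · intro q hq
      have h1 := (hUm ⟨q, hUS hq⟩).1 hq
      exact hαu (jS S R ⟨q, hUS hq⟩) h1.1 h1.2
  have hinj : ∀ ρ : Finset (S ∪ R : Finset ℕ), ρ.card ≤ 1 → (∀ i : S, jS S R i ∉ ρ) →
      Inj (jS S R) Λ ρ := by
    intro ρ hρ1 hρ l hl hl0
    by_contra hne
    have h1 := hP ρ (hρ1.trans hm1) l hl hne
    have h2 : (Finset.univ.filter fun s : S => jS S R s ∉ ρ ∧ l (jS S R s) ≠ 0) = ∅ := by
      rw [Finset.filter_eq_empty_iff]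
      intro s _ h
      exact h.2 (hl0 s)
    rw [h2, Finset.card_empty, Nat.cast_zero, zero_sub, abs_neg,
      abs_of_nonneg (by positivity)] at h1
    have h3 : (0 : ℝ) ≤ S.card := Nat.cast_nonneg _
    nlinarith
  have hdD : d ∅ ≤ D₁ := by
    by_contra hlt
    push Not at hlt
    have hlt' : 2 ^ Z₀.card < Nat.card (LJ Λ ∅) := by
      rw [hZc, hd]
      exact Nat.pow_lt_pow_right (by norm_num) hlt
    obtain ⟨v₀, hl1, hl2, hl3⟩ := pigeon Λ hZT hlt'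
    obtain ⟨α, hα, hαn, hαs, hαe, hαz, -⟩ := hcl ∅ v₀ hl1 hl2
    refine hc1 (hlb L f θ B N₁ 0 (S ∪ R) ∅ Z₀ ∅ 𝔮 h P hS hθ hf.sqf hht hN₁ hf.con
      (Finset.empty_subset _) (by rwa [Finset.sdiff_empty]) (Finset.empty_subset _) (by simp)
      α hα hαn hαs ?_ ?_ ?_)
    · intro 𝔓 hW𝔓 _
      exact hαe 𝔓 hW𝔓 (fun q hq => absurd hq (Finset.notMem_empty _))
    · intro q hq 𝔓 h𝔓
      exact hαz ⟨q, hZT hq⟩ (hl3 ⟨q, hZT hq⟩ hq) 𝔓 h𝔓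
    · intro q hq
      exact absurd hq (Finset.notMem_empty _)
  apply hb
  refine lawW_of hSR Λ hGd hd hstep hinj ?_
  intro ρ hρ1 hρ
  suffices hsuf : ∃ t : ℕ, Nat.card (LJ (LR (jS S R) Λ ρ) ∅) = 2 ^ t ∧ ∀ i, m₀ ≤ i → i ≤ m →
      ∀ k : ℕ, |((Finset.univ.filter fun J : Finset S =>
          J.card = i ∧ Nat.card (LJ (LR (jS S R) Λ ρ) J) = 2 ^ k).card : ℝ) /
        ((Fintype.card S).choose i : ℝ) - pr2par (t + i) k| ≤ ε by
    obtain ⟨t, ht, hlw⟩ := hsuf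
    exact ⟨t, ht, fun i hi1 hi2 k => hlw i ((le_max_left _ _).trans hi1) hi2 k⟩
  refine hlaw S (LR (jS S R) Λ ρ) (by rwa [Fintype.card_coe]) (iso_LR hiso')
    (card_LR (hinj ρ hρ1 hρ) hcard') ?_ ?_
  · rw [card_LJ_LR hρ (hinj ρ hρ1 hρ) ∅, Finset.map_empty, Finset.empty_union, hd]
    refine Nat.pow_le_pow_right (by norm_num) ?_
    rcases Nat.le_one_iff_eq_zero_or_eq_one.1 hρ1 with h0 | h0
    · rw [Finset.card_eq_zero.1 h0]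
      omega
    · obtain ⟨r, rfl⟩ := Finset.card_eq_one.1 h0
      have h3 := hstep ∅ r (Finset.notMem_empty _)
      rw [insert_empty_eq] at h3
      omega
  · intro J hJ x hx hx0
    obtain ⟨v₀, hv, hvx⟩ := (LJ_LR hρ J).1 hx
    have hv0 : v₀ ≠ 0 := by
      rintro rfl
      exact hx0 (funext fun i => (hvx i).symm)
    have hJc : (J.map (jS S R) ∪ ρ).card ≤ m := by
      refine (Finset.card_union_le _ _).trans ?_
      rw [Finset.card_map]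
      omega
    have h1 := hP _ hJc v₀ hv hv0
    have hsub1 : (Finset.univ.filter fun s : S => jS S R s ∉ J.map (jS S R) ∪ ρ ∧
        v₀ (jS S R s) ≠ 0) ⊆ (Finset.univ.filter fun s : S => x s ≠ 0) := by
      intro s hs
      rw [Finset.mem_filter] at hs ⊢
      rw [← hvx]
      exact ⟨hs.1, hs.2.2⟩
    have hsub2 : (Finset.univ.filter fun s : S => x s ≠ 0) ⊆
        (Finset.univ.filter fun s : S => jS S R s ∉ J.map (jS S R) ∪ ρ ∧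
        v₀ (jS S R s) ≠ 0) ∪ J := by
      intro s hs
      rw [Finset.mem_filter, ← hvx] at hs
      rw [Finset.mem_union, Finset.mem_filter]
      by_cases hsJ : s ∈ J
      · exact Or.inr hsJ
      · refine Or.inl ⟨Finset.mem_univ _, ?_, hs.2⟩
        rw [Finset.mem_union, Finset.mem_map']
        push Not
        exact ⟨hsJ, hρ s⟩
    have hc3 := Finset.card_le_card hsub1
    have hc4 := (Finset.card_le_card hsub2).trans (Finset.card_union_le _ _)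
    have hc3' : ((Finset.univ.filter fun s : S => jS S R s ∉ J.map (jS S R) ∪ ρ ∧
        v₀ (jS S R s) ≠ 0).card : ℝ) ≤ ((Finset.univ.filter fun s : S => x s ≠ 0).card : ℝ) := by
      exact_mod_cast hc3
    have hc4' : ((Finset.univ.filter fun s : S => x s ≠ 0).card : ℝ) ≤
        ((Finset.univ.filter fun s : S => jS S R s ∉ J.map (jS S R) ∪ ρ ∧
        v₀ (jS S R s) ≠ 0).card : ℝ) + J.card := by
      exact_mod_cast hc4
    have h2 : 2 * (m : ℝ) ≤ η * S.card := by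
      rw [div_le_iff₀ hη] at hbig
      linarith
    have h3 : (J.card : ℝ) ≤ m := by exact_mod_cast hJ.le
    rw [Fintype.card_coe]
    rw [abs_lt] at h1
    rw [abs_le]
    constructor <;> nlinarith

/-- BALW -/
theorem t (hLaw : S_LAW4) (hLin : S_LIN2) (hBin : S_BIN) (hCore : S_COREW) (hL : S_LBTW)
    (h7 : ∀ g, 1 ≤ g → CQNg g) (hfam : S_FAMD) (hbad : S_BAD) (hsqf : S_SQFW)
    (hgen : S_GEN) (hpts : S_PTS) : S_BALW := by
  intro g F _ _ hg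
  obtain ⟨n, hn⟩ : ∃ n : ℕ, n = Module.finrank ℚ F := ⟨_, rfl⟩
  obtain ⟨E, hE⟩ : ∃ E : ℕ, E = dd g := ⟨_, rfl⟩
  obtain ⟨κ₀, β, hlb₀⟩ := hL g F hg
  obtain ⟨C, β', K, hbt0⟩ := badt_g F g hg (h7 g hg)
  have hbt : ∀ (c W : ℕ) (S Z U : Finset ℕ) (𝔮 : ℕ → Ideal (𝓞 F)) (h P : ℕ → (𝓞 F)[X]), K ≤ W →
      GoodS g W S 𝔮 h P → Z ⊆ S → U ⊆ S → Disjoint Z U → ∃ N₀ : ℕ, ∀ N ≥ N₀,
      {f : (𝓞 F)[X] | LBT g N c S Z U 𝔮 P f}.Finite ∧
      2 ^ (Z.card + U.card) * (∏ q ∈ S, q ^ (2 * g)) ^ n *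
          {f : (𝓞 F)[X] | LBT g N c S Z U 𝔮 P f}.ncard ≤
        2 ^ (C + β' * c) * 2 ^ (n * (2 * N * E)) := by
    intro c W S Z U 𝔮 h P hKW hS hZ hU hZU
    obtain ⟨N₀, hN₀⟩ := hbt0 c W S Z U 𝔮 h P hKW hS
    refine ⟨N₀, fun N hN => ?_⟩
    have h1 := hN₀ N hN
    rw [prod_mw hZ hU hZU, ← hn, ← hE] at h1
    exact h1
  obtain ⟨κ₂, hsq⟩ := hsqf g F hg
  obtain ⟨C₂, K₂, hbd⟩ := hbad F g κ₂ hg
  obtain ⟨K₃, hfam₃⟩ := hfam F g hg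
  refine ⟨max (max κ₀ K) (max κ₂ (max K₂ K₃)), fun W f₁ hKW hf₁ => ?_⟩
  have hW0 : 0 < W := hf₁.pos
  have hdv : ∀ x ≤ max (max κ₀ K) (max κ₂ (max K₂ K₃)), x.factorial ∣ W := fun x hx =>
    (Nat.factorial_dvd_factorial hx).trans hKW
  have hle : ∀ x ≤ max (max κ₀ K) (max κ₂ (max K₂ K₃)), x ≤ W := fun x hx =>
    (Nat.self_le_factorial x).trans (Nat.le_of_dvd hW0 (hdv x hx))
  have hW1 : κ₀ ≤ W := hle _ ((le_max_left _ _).trans (le_max_left _ _))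
  have hW2 : K ≤ W := hle _ ((le_max_right _ _).trans (le_max_left _ _))
  have hW3 : κ₂.factorial ∣ W := hdv _ ((le_max_left _ _).trans (le_max_right _ _))
  have hW4 : K₂ ≤ W := hle _ (((le_max_left _ _).trans (le_max_right _ _)).trans (le_max_right _ _))
  have hW5 : K₃.factorial ∣ W :=
    hdv _ (((le_max_right _ _).trans (le_max_right _ _)).trans (le_max_right _ _))
  obtain ⟨c, hc, hfam₄⟩ := hfam₃ W hW0 hW5
  have hfamc := hfam₄ f₁ hf₁.mon hf₁.deg hf₁.tr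
  obtain ⟨lW, hlW⟩ : ∃ lW : ℕ, W ^ 2 ≤ 2 ^ lW := ⟨W ^ 2, Nat.lt_two_pow_self.le⟩
  obtain ⟨κ, hκ⟩ : ∃ κ : ℕ, κ = κ₀ + β * lW := ⟨_, rfl⟩
  have hlb : ∀ (L : Type) [Field L] [NumberField L] [Algebra F L] (f : (𝓞 F)[X]) (θ : L)
      (B N l : ℕ) (S Q Z U : Finset ℕ) (𝔮 : ℕ → Ideal (𝓞 F)) (h P : ℕ → (𝓞 F)[X]),
      GoodS g W S 𝔮 h P →
      IsGen g f θ → SqW g W f → Ht g B f → 2 ^ (κ + β * l) * B ≤ 4 ^ N →
      (∀ q ∈ S, Cg (sp F q) f (P q)) → Q ⊆ S → Z ⊆ S \ Q → U ⊆ S \ Q → ∏ q ∈ Q, q ≤ 2 ^ l →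
      ∀ α : L, α ≠ 0 → IsSquare (Algebra.norm F α) → ¬ IsSquare α →
      (∀ 𝔓 : HeightOneSpectrum (𝓞 L), (W : 𝓞 L) ∉ 𝔓.asIdeal →
        (∀ q ∈ Q, Ov (𝔮 q) 𝔓 → 𝔓.valuation L θ ≠ 1) → Ev 𝔓 α) →
      (∀ q ∈ Z, ∀ 𝔓 : HeightOneSpectrum (𝓞 L), Ov (𝔮 q) 𝔓 → Sq1 𝔓 α) →
      (∀ q ∈ U, ∃ 𝔓 : HeightOneSpectrum (𝓞 L), Ov (𝔮 q) 𝔓 ∧ ¬ Sq1 𝔓 α) →
      LBT g N (κ + β * l) (S \ Q) Z U 𝔮 P f := by
    intro L _ _ _ f θ B N l S Q Z U 𝔮 h P hS hG hsq hht hN hcon hQ hZ hU hl α h1 h2 h3 h4 h5 h6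
    have e1 : κ + β * l = κ₀ + β * (lW + l) := by
      rw [hκ]
      ring
    rw [e1] at hN ⊢
    refine hlb₀ L f θ B N W (lW + l) S Q Z U 𝔮 h P hW1 hS hG hsq hht hN hcon hQ hZ hU ?_
      α h1 h2 h3 h4 h5 h6
    rw [pow_add]
    exact Nat.mul_le_mul hlW hl
  refine ⟨c / 2, by positivity, fun ε δ hε hδ => ?_⟩
  obtain ⟨A₀, hA₀⟩ : ∃ A₀ : ℕ, A₀ = C + β' * κ + (2 + κ) * (E * n) := ⟨_, rfl⟩
  obtain ⟨D₁, hD₁⟩ : ∃ D₁ : ℕ, 2 ^ A₀ / (δ * c / 4) < (2 : ℝ) ^ D₁ :=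
    pow_unbounded_of_one_lt _ (by norm_num)
  obtain ⟨m₀, hLaw⟩ := hLaw ε hε (D₁ + 1)
  refine ⟨max m₀ 1, fun m hm₀1 => ?_⟩
  have hm₀ : m₀ ≤ m := (le_max_left _ _).trans hm₀1
  have hm1 : 1 ≤ m := (le_max_right _ _).trans hm₀1
  obtain ⟨η₀, n₀, hη₀, hmn, hlaw₀⟩ := hLaw m hm₀
  obtain ⟨η, hηdef⟩ : ∃ η : ℝ, η = min η₀ 1 := ⟨_, rfl⟩
  have hη : 0 < η := by
    rw [hηdef]
    exact lt_min hη₀ one_pos
  have hη1 : η ≤ 1 := by
    rw [hηdef]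
    exact min_le_right _ _
  have hηη : η ≤ η₀ := by
    rw [hηdef]
    exact min_le_left _ _
  have hlaw : ∀ (ι : Type) [Fintype ι] (Λ : AddSubgroup (ι → ZMod 2 × ZMod 2)),
      n₀ ≤ Fintype.card ι → (∀ l ∈ Λ, ∑ q, (l q).1 * (l q).2 = 0) →
      2 ^ Fintype.card ι ≤ Nat.card Λ → Nat.card (LJ Λ ∅) ≤ 2 ^ (D₁ + 1) →
      (∀ J : Finset ι, J.card < m → ∀ l ∈ LJ Λ J, l ≠ 0 →
        |((Finset.univ.filter fun q => l q ≠ 0).card : ℝ) - (Fintype.card ι : ℝ) / 2| ≤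
          η * Fintype.card ι) →
      ∃ t : ℕ, Nat.card (LJ Λ ∅) = 2 ^ t ∧ ∀ i, m₀ ≤ i → i ≤ m → ∀ k : ℕ,
        |((Finset.univ.filter fun J : Finset ι => J.card = i ∧ Nat.card (LJ Λ J) = 2 ^ k).card : ℝ) /
          ((Fintype.card ι).choose i : ℝ) - pr2par (t + i) k| ≤ ε := by
    intro ι _ Λ h1 h2 h3 h4 h5
    exact hlaw₀ ι Λ h1 h2 h3 h4 fun J hJ l hl hl0 => (h5 J hJ l hl hl0).trans
      (mul_le_mul_of_nonneg_right hηη (Nat.cast_nonneg _))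
  obtain ⟨s₁, hks₁, hs₁⟩ := num3 (1 + A₀) (8 * m + 8 * m * (β' * β + 1 + 2 * g * n + E * n * β))
    (max n₀ D₁) (ρ := η ^ 2 / 2) (τ := δ * c / 4) (by positivity) (by positivity)
  obtain ⟨s₂, hs₂⟩ := exists_nat_ge (2 * m / η)
  obtain ⟨s₃, hs₃⟩ : ∃ s₃ : ℕ, 2 ^ (C₂ + (2 + κ₂) * (E * n)) / (c / 2) < (2 : ℝ) ^ s₃ :=
    pow_unbounded_of_one_lt _ (by norm_num)
  refine ⟨max s₁ (max s₂ s₃), fun S R 𝔮 h P hSR hS _ hcard hS3 => ?_⟩
  have hc1 : s₁ ≤ S.card := (le_max_left _ _).trans hcard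
  have hc2 : s₂ ≤ S.card := ((le_max_left _ _).trans (le_max_right _ _)).trans hcard
  have hc3 : s₃ ≤ S.card := ((le_max_right _ _).trans (le_max_right _ _)).trans hcard
  have hn0 : n₀ ≤ S.card := ((le_max_left _ _).trans hks₁).trans hc1
  have hD0 : D₁ ≤ S.card := ((le_max_right _ _).trans hks₁).trans hc1
  have hbig : 2 * m / η ≤ (S.card : ℝ) := hs₂.trans (by exact_mod_cast hc2)
  have hnum := hs₁ S.card hc1
  have hq1 : ∀ q ∈ S ∪ R, 1 ≤ q := fun q hq => (hS q hq).1.pos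
  have hSp : ∀ q ∈ S ∪ R, q.Prime := fun q hq => (hS q hq).1
  have hST : S ⊆ S ∪ R := Finset.subset_union_left
  obtain ⟨Z₀, hZ₀, hZc⟩ := Finset.exists_subset_card_eq hD0
  obtain ⟨l, hl⟩ : ∃ l : ℕ, l = 8 * m * (Nat.log 2 S.card + 1) := ⟨_, rfl⟩
  have hml : m ≤ l := by
    rw [hl, mul_assoc, mul_left_comm]
    exact Nat.le_mul_of_pos_right _ (by positivity)
  have hprod : ∀ Q ⊆ S ∪ R, Q.card ≤ m → ∏ q ∈ Q, q ≤ 2 ^ l := by
    intro Q hQS hQm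
    rw [hl]
    exact prod8 hQS hS3 hQm
  set Pn : ℕ := (∏ q ∈ S ∪ R, q ^ (2 * g)) ^ n with hPn
  have hPn0 : (0 : ℝ) < Pn := by
    have : 0 < Pn := pow_pos (Finset.prod_pos fun q hq => pow_pos (hq1 q hq) _) _
    exact_mod_cast this
  obtain ⟨N₂, hN₂⟩ := hbd W (S ∪ R) 𝔮 h P hW4 hS
  obtain ⟨B₁₀, hB₁₀⟩ := hfamc (S ∪ R) 𝔮 h P hS
  obtain ⟨B₁, hB₁⟩ := fewG (n := n) hbt hW2 hS (Finset.empty_subset _)
    (Z := Z₀) (U := ∅) (by rw [Finset.sdiff_empty]; exact hZ₀.trans hST) (Finset.empty_subset _)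
    (Finset.disjoint_empty_right _) (l := 0) (by simp) (by simp) (κ + β * 0)
  have hT2 : ∀ x : Finset ℕ × Finset ℕ, ∃ B₀ : ℕ, x ∈ TT6 S (S ∪ R) m η → ∀ B ≥ B₀, 1 ≤ B → ∃ N : ℕ,
      2 ^ (κ + β * l) * B ≤ 4 ^ N ∧
      {f : (𝓞 F)[X] | LBT g N (κ + β * l) ((S ∪ R) \ x.1) ((S \ x.1) \ x.2) x.2 𝔮 P f}.Finite ∧
      2 ^ S.card * Pn *
          {f : (𝓞 F)[X] | LBT g N (κ + β * l) ((S ∪ R) \ x.1) ((S \ x.1) \ x.2) x.2 𝔮 P f}.ncard ≤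
        2 ^ (A₀ + l * (β' * β + 1 + 2 * g * n + E * n * β)) * B ^ (E * n) := by
    intro x
    by_cases hx : x ∈ TT6 S (S ∪ R) m η
    · rw [TT6, Finset.mem_filter, Finset.mem_product, Finset.mem_filter, Finset.mem_filter,
        Finset.mem_powerset, Finset.mem_powerset] at hx
      obtain ⟨⟨⟨hx1, hx2⟩, -⟩, hx3⟩ := hx
      obtain ⟨B₀, hB₀⟩ := fewG (n := n) hbt hW2 hS hx1
        (Z := (S \ x.1) \ x.2) (U := x.2)
        (Finset.sdiff_subset.trans (Finset.sdiff_subset_sdiff hST le_rfl))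
        (hx3.trans (Finset.sdiff_subset_sdiff hST le_rfl))
        Finset.sdiff_disjoint (l := l) (hx2.trans hml) (hprod _ hx1 hx2) (κ + β * l)
      refine ⟨B₀, fun _ B hB hB1 => ?_⟩
      obtain ⟨N, h1, h2, h3⟩ := hB₀ B hB hB1
      refine ⟨N, h1, h2, ?_⟩
      have e1 : S.card ≤ ((S \ x.1) \ x.2).card + x.2.card + x.1.card := by
        rw [Finset.card_sdiff_add_card_eq_card hx3]
        have := Finset.le_card_sdiff x.1 S
        omega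
      have e2 : C + β' * (κ + β * l) + l + 2 * g * l * n + (2 + (κ + β * l)) * (E * n) =
          A₀ + l * (β' * β + 1 + 2 * g * n + E * n * β) := by
        rw [hA₀]
        ring
      rw [e2, ← hPn] at h3
      refine le_trans ?_ h3
      exact Nat.mul_le_mul_right _ (Nat.mul_le_mul_right _ (Nat.pow_le_pow_right (by norm_num) e1))
    · exact ⟨0, fun h => absurd h hx⟩
  choose B₂ hB₂ using hT2
  refine ⟨max (max B₁₀ (4 ^ N₂)) (max (max B₁ ((TT6 S (S ∪ R) m η).sup B₂)) 1), fun B hB => ?_⟩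
  have hb1 : 1 ≤ B := ((le_max_right _ _).trans (le_max_right _ _)).trans hB
  have hb2 : B₁₀ ≤ B := ((le_max_left _ _).trans (le_max_left _ _)).trans hB
  have hb3 : 4 ^ N₂ ≤ B := ((le_max_right _ _).trans (le_max_left _ _)).trans hB
  have hb4 : B₁ ≤ B := (((le_max_left _ _).trans (le_max_left _ _)).trans
    (le_max_right _ _)).trans hB
  have hb5 : (TT6 S (S ∪ R) m η).sup B₂ ≤ B := (((le_max_right _ _).trans (le_max_left _ _)).trans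
    (le_max_right _ _)).trans hB
  -- the sets
  obtain ⟨NZ, hNZ1, hNZ2⟩ := exN κ₂ B hb1
  obtain ⟨hbf2, hbc2⟩ := hN₂ NZ (exN_ge hNZ1 hb3)
  obtain ⟨N₁, hN₁, hT1f, hT1c⟩ := hB₁ B hb4 hb1
  have hT3 : ∀ x : Finset ℕ × Finset ℕ, ∃ N : ℕ, x ∈ TT6 S (S ∪ R) m η → 2 ^ (κ + β * l) * B ≤ 4 ^ N ∧
      {f : (𝓞 F)[X] | LBT g N (κ + β * l) ((S ∪ R) \ x.1) ((S \ x.1) \ x.2) x.2 𝔮 P f}.Finite ∧
      2 ^ S.card * Pn *
          {f : (𝓞 F)[X] | LBT g N (κ + β * l) ((S ∪ R) \ x.1) ((S \ x.1) \ x.2) x.2 𝔮 P f}.ncard ≤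
        2 ^ (A₀ + l * (β' * β + 1 + 2 * g * n + E * n * β)) * B ^ (E * n) := by
    intro x
    by_cases hx : x ∈ TT6 S (S ∪ R) m η
    · obtain ⟨N, hN⟩ := hB₂ x hx B ((Finset.le_sup hx).trans hb5) hb1
      exact ⟨N, fun _ => hN⟩
    · exact ⟨0, fun h => absurd h hx⟩
  choose N₃ hN₃ using hT3
  obtain ⟨ZZ, hZZ⟩ : ∃ ZZ : Set ((𝓞 F)[X]), ZZ = {f : (𝓞 F)[X] | LBad g NZ κ₂ (S ∪ R) 𝔮 P f} := ⟨_, rfl⟩
  obtain ⟨T1, hT1⟩ : ∃ T1 : Set ((𝓞 F)[X]), T1 =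
    {f : (𝓞 F)[X] | LBT g N₁ (κ + β * 0) ((S ∪ R) \ ∅) Z₀ ∅ 𝔮 P f} := ⟨_, rfl⟩
  obtain ⟨X2, hX2⟩ : ∃ X2 : Finset ℕ × Finset ℕ → Set ((𝓞 F)[X]), X2 = fun x =>
    {f : (𝓞 F)[X] | LBT g (N₃ x) (κ + β * l) ((S ∪ R) \ x.1) ((S \ x.1) \ x.2) x.2 𝔮 P f} := ⟨_, rfl⟩
  obtain ⟨T2, hT2⟩ : ∃ T2 : Set ((𝓞 F)[X]), T2 = ⋃ x ∈ TT6 S (S ∪ R) m η, X2 x := ⟨_, rfl⟩
  obtain ⟨M, hM⟩ : ∃ M : Set ((𝓞 F)[X]), M = {f | Ht g B f ∧ BaseW g W f₁ (S ∪ R) P f} := ⟨_, rfl⟩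
  obtain ⟨M', hM'⟩ : ∃ M' : Set ((𝓞 F)[X]), M' = {f | Ht g B f ∧ BaseW g W f₁ (S ∪ R) P f ∧
    ¬ LawW g W 𝔮 S R (max m₀ 1) m ε f} := ⟨_, rfl⟩
  have hHtf : {f : (𝓞 F)[X] | Ht g B f}.Finite := by
    obtain ⟨-, Cq, hCq, -, hpt⟩ := hpts F
    exact (Pool.Agent.N99.PF.ht_card hCq hpt g B hb1).1
  have hMf : M.Finite := hHtf.subset fun f hf => by
    rw [hM] at hf
    exact hf.1
  have hBp : (0 : ℝ) ≤ (B : ℝ) ^ (E * n) := by positivity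
  -- the number of the members
  have hZb : (Pn : ℝ) * ZZ.ncard ≤ c / 2 * (B : ℝ) ^ (E * n) := by
    rw [← hE, ← hn] at hbc2
    have h2 := bqg (E := E) (d := 2 * g) (t := (S ∪ R).card) (s := (S ∪ R).card) (u := 0) (l := 0) (P2 := 1) (R := C₂)
      (X := ZZ.ncard) (n := n) (N := NZ)
      (c' := κ₂) (B := B) (P1 := ∏ q ∈ S ∪ R, q ^ (2 * g)) rfl (Nat.zero_le _)
      (by simp) (by
        rw [hZZ]
        refine hbc2.trans (Nat.mul_le_mul_right _ ?_)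
        exact (Nat.lt_two_pow_self).le) hNZ2
    rw [mul_one] at h2
    have h3 : (2 : ℝ) ^ (S ∪ R).card * Pn * ZZ.ncard ≤
        2 ^ (C₂ + (2 + κ₂) * (E * n)) * (B : ℝ) ^ (E * n) := by
      have e : C₂ + 0 + 2 * g * 0 * n + (2 + κ₂) * (E * n) = C₂ + (2 + κ₂) * (E * n) := by ring
      rw [e] at h2
      exact_mod_cast h2
    have h4 : (2 : ℝ) ^ (C₂ + (2 + κ₂) * (E * n)) ≤ (c / 2) * 2 ^ (S ∪ R).card := by
      rw [div_lt_iff₀ (by positivity)] at hs₃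
      calc (2 : ℝ) ^ (C₂ + (2 + κ₂) * (E * n)) ≤ 2 ^ s₃ * (c / 2) := hs₃.le
        _ ≤ 2 ^ (S ∪ R).card * (c / 2) := by
            have := hc3.trans (Finset.card_le_card hST)
            gcongr
            norm_num
        _ = (c / 2) * 2 ^ (S ∪ R).card := by ring
    have h5 : (2 : ℝ) ^ (S ∪ R).card * (Pn * ZZ.ncard) ≤
        2 ^ (S ∪ R).card * (c / 2 * (B : ℝ) ^ (E * n)) := by
      calc (2 : ℝ) ^ (S ∪ R).card * (Pn * ZZ.ncard) = 2 ^ (S ∪ R).card * Pn * ZZ.ncard := by ring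
        _ ≤ 2 ^ (C₂ + (2 + κ₂) * (E * n)) * (B : ℝ) ^ (E * n) := h3
        _ ≤ ((c / 2) * 2 ^ (S ∪ R).card) * (B : ℝ) ^ (E * n) := mul_le_mul_of_nonneg_right h4 hBp
        _ = 2 ^ (S ∪ R).card * (c / 2 * (B : ℝ) ^ (E * n)) := by ring
    exact le_of_mul_le_mul_left h5 (by positivity)
  have hlow : c / 2 * (B : ℝ) ^ (E * n) ≤ Pn * (M.ncard : ℝ) := by
    have h1 := hB₁₀ B hb2
    rw [← hn, ← hE, mul_comm n E] at h1
    have h2 : {f : (𝓞 F)[X] | FamW g B W f₁ (S ∪ R) P f} \ ZZ ⊆ M := by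
      rintro f ⟨hf, hfZ⟩
      have hf' : FamW g B W f₁ (S ∪ R) P f := hf
      have hirr0 : Irreducible (fF f) := irrW hf₁ hf'.one hf'.ht.mon
      have hnZ : ¬ LBad g NZ κ₂ (S ∪ R) 𝔮 P f := fun h0 => hfZ (by rw [hZZ]; exact h0)
      have hsq0 : SqW g W f := sqW_of hf₁ hf'.one
        (hsq B NZ W f₁ (S ∪ R) 𝔮 h P f hW3 hW0 hS hf' hirr0 hNZ1 hb1 hnZ)
      rw [hM]
      exact ⟨hf'.ht, hf'.ht.mon, hf'.ht.deg, hf'.ht.tr, hf'.one, hf'.con, hsq0⟩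
    have h3 := Set.le_ncard_diff ZZ {f : (𝓞 F)[X] | FamW g B W f₁ (S ∪ R) P f}
      (by rw [hZZ]; exact hbf2)
    have h4 := Set.ncard_le_ncard h2 hMf
    have h5 : ({f : (𝓞 F)[X] | FamW g B W f₁ (S ∪ R) P f}.ncard : ℝ) ≤ ZZ.ncard + M.ncard := by
      have : {f : (𝓞 F)[X] | FamW g B W f₁ (S ∪ R) P f}.ncard ≤ ZZ.ncard + M.ncard := by omega
      exact_mod_cast this
    have h6 : c * (B : ℝ) ^ (E * n) ≤ Pn * (ZZ.ncard + M.ncard : ℝ) :=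
      h1.trans (mul_le_mul_of_nonneg_left h5 hPn0.le)
    linarith
  -- the exceptions
  have hsub : M' ⊆ T1 ∪ T2 := by
    intro f hf
    rw [hM'] at hf
    rcases bad_ofW hg hlb hCore hLin hgen hη hη1 hm1 hlaw hSR hf₁ hS hZ₀ hZc hn0 hbig hprod hN₁
      (N₂ := N₃) (fun x hx => (hN₃ x hx).1) hf.1 hf.2.1 hf.2.2 with h1 | ⟨x, hx, h1⟩
    · left
      rw [hT1]
      exact h1
    · right
      rw [hT2]
      refine Set.mem_biUnion (x := x) hx ?_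
      rw [hX2]
      exact h1
  have hT1b : (Pn : ℝ) * T1.ncard ≤ δ * c / 4 * (B : ℝ) ^ (E * n) := by
    have h2 : (2 : ℝ) ^ D₁ * Pn * T1.ncard ≤ 2 ^ A₀ * (B : ℝ) ^ (E * n) := by
      have e1 : Z₀.card + (∅ : Finset ℕ).card + (∅ : Finset ℕ).card = D₁ := by
        simp [hZc]
      have e2 : C + β' * (κ + β * 0) + 0 + 2 * g * 0 * n + (2 + (κ + β * 0)) * (E * n) = A₀ := by
        rw [hA₀]
        ring
      rw [e1, e2, ← hPn, ← hT1] at hT1c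
      exact_mod_cast hT1c
    have h4 : (2 : ℝ) ^ A₀ ≤ (δ * c / 4) * 2 ^ D₁ := by
      rw [div_lt_iff₀ (by positivity)] at hD₁
      linarith
    have h5 : (2 : ℝ) ^ D₁ * (Pn * T1.ncard) ≤ 2 ^ D₁ * (δ * c / 4 * (B : ℝ) ^ (E * n)) := by
      calc (2 : ℝ) ^ D₁ * (Pn * T1.ncard) = 2 ^ D₁ * Pn * T1.ncard := by ring
        _ ≤ 2 ^ A₀ * (B : ℝ) ^ (E * n) := h2
        _ ≤ ((δ * c / 4) * 2 ^ D₁) * (B : ℝ) ^ (E * n) := mul_le_mul_of_nonneg_right h4 hBp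
        _ = 2 ^ D₁ * (δ * c / 4 * (B : ℝ) ^ (E * n)) := by ring
    exact le_of_mul_le_mul_left h5 (by positivity)
  have hT2b : (Pn : ℝ) * T2.ncard ≤ δ * c / 4 * (B : ℝ) ^ (E * n) := by
    have h1 := union3 (TT6 S (S ∪ R) m η) X2 (2 ^ S.card * Pn)
      (2 ^ (A₀ + l * (β' * β + 1 + 2 * g * n + E * n * β)) * (B : ℝ) ^ (E * n)) _ (by positivity)
      (fun x hx => by
        have h2 := (hN₃ x hx).2.2
        rw [hX2]
        exact_mod_cast h2) (by positivity) (TT6_card hBin hS3 hq1 m hη)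
    rw [← hT2] at h1
    have h5 : (2 : ℝ) ^ S.card * (Pn * T2.ncard) ≤
        2 ^ S.card * (δ * c / 4 * (B : ℝ) ^ (E * n)) := by
      calc (2 : ℝ) ^ S.card * (Pn * T2.ncard) = 2 ^ S.card * Pn * T2.ncard := by ring
        _ ≤ _ := h1
        _ = 2 ^ S.card * ((2 : ℝ) ^ (1 + A₀ + (8 * m + 8 * m * (β' * β + 1 + 2 * g * n + E * n * β)) *
              (Nat.log 2 S.card + 1)) * Real.exp (-(η ^ 2 / 2 * S.card)) * (B : ℝ) ^ (E * n)) := by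
            have e : 1 + A₀ + (8 * m + 8 * m * (β' * β + 1 + 2 * g * n + E * n * β)) *
              (Nat.log 2 S.card + 1) = 8 * m * (Nat.log 2 S.card + 1) + 1 +
                (A₀ + l * (β' * β + 1 + 2 * g * n + E * n * β)) := by
              rw [hl]
              ring
            have e' : (2 : ℝ) ^ (1 + A₀ + (8 * m + 8 * m * (β' * β + 1 + 2 * g * n + E * n * β)) *
              (Nat.log 2 S.card + 1)) = 2 ^ (8 * m * (Nat.log 2 S.card + 1)) * 2 *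
                2 ^ (A₀ + l * (β' * β + 1 + 2 * g * n + E * n * β)) := by
              rw [e, pow_add, pow_succ]
            rw [e']
            ring
        _ ≤ 2 ^ S.card * (δ * c / 4 * (B : ℝ) ^ (E * n)) := by
            refine mul_le_mul_of_nonneg_left (mul_le_mul_of_nonneg_right hnum hBp) (by positivity)
    exact le_of_mul_le_mul_left h5 (by positivity)
  have hT1f' : T1.Finite := by rw [hT1]; exact hT1f
  have hT2f : T2.Finite := by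
    rw [hT2]
    refine Set.Finite.biUnion (Finset.finite_toSet _) fun x hx => ?_
    rw [hX2]
    exact (hN₃ x hx).2.1
  have hup : (Pn : ℝ) * M'.ncard ≤ δ * (c / 2 * (B : ℝ) ^ (E * n)) := by
    have h1 : M'.ncard ≤ T1.ncard + T2.ncard :=
      (Set.ncard_le_ncard hsub (hT1f'.union hT2f)).trans (Set.ncard_union_le _ _)
    have h2 : (M'.ncard : ℝ) ≤ T1.ncard + T2.ncard := by exact_mod_cast h1
    have h3 : (Pn : ℝ) * M'.ncard ≤ Pn * (T1.ncard + T2.ncard) :=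
      mul_le_mul_of_nonneg_left h2 hPn0.le
    linarith
  rw [hM] at hlow
  rw [hM'] at hup
  rw [← hn, ← hE, mul_comm n E]
  exact ⟨hlow, hup⟩

end Pool.Agent.H18N.BALW
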