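import Pool.Agent.H18N.Stm
import Pool.Agent.H68K.PR.Big

/-!
# Project JN, part BIGW: the orders of the groups

Adaptation of `H18G/BIGG.lean`.
-/

set_option autoImplicit false
set_option linter.all false

open Polynomial IsDedekindDomain Matrix NumberField WithZero
open scoped Classical

namespace Pool.Agent.H18N.BIGW

open Pool.Agent.N874.PP (Ev Sq1 U0)
open Pool.Agent.N783.PF
open Pool.Agent.H68K.PR (ex_pol dvd_of_aeval two_fac)
open Pool.Agent.H18G (LocS)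

/-- products of local squares -/
theorem loc_mul {M E : Type} [Field M] [Field E] (φ : M →+* E) {f p q h k : M[X]}
    (hp : ∃ s : E[X], f.map φ ∣ p.map φ - s ^ 2) (hq : ∃ s : E[X], f.map φ ∣ q.map φ - s ^ 2)
    (hk : f ∣ h - (p * q) * k ^ 2) : ∃ s : E[X], f.map φ ∣ h.map φ - s ^ 2 := by
  obtain ⟨s, hs⟩ := hp
  obtain ⟨u, hu⟩ := hq
  refine ⟨s * u * k.map φ, ?_⟩
  have h1 := Polynomial.map_dvd φ hk
  rw [Polynomial.map_sub, Polynomial.map_mul, Polynomial.map_mul, Polynomial.map_pow] at h1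
  have e : h.map φ - (s * u * k.map φ) ^ 2 = (h.map φ - p.map φ * q.map φ * (k.map φ) ^ 2) +
      (k.map φ) ^ 2 * (q.map φ * (p.map φ - s ^ 2) + s ^ 2 * (q.map φ - u ^ 2)) := by ring
  rw [e]
  exact dvd_add h1 ((dvd_add (hs.mul_left _) (hu.mul_left _)).mul_left _)

/-- the primes over `W` -/
theorem fin_W (K : Type) [Field K] [NumberField K] {W : ℕ} (hW : 0 < W) :
    {w : HeightOneSpectrum (𝓞 K) | (W : 𝓞 K) ∈ w.asIdeal}.Finite := by
  have h0 : (W : 𝓞 K) ≠ 0 := Nat.cast_ne_zero.2 hW.ne'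
  have hI : Ideal.span {(W : 𝓞 K)} ≠ ⊥ := by
    rw [Ne, Ideal.span_singleton_eq_bot]
    exact h0
  refine (Ideal.finite_factors hI).subset fun w hw => ?_
  rw [Set.mem_setOf_eq, Ideal.dvd_span_singleton]
  exact hw

theorem ov_unique {F L : Type} [Field F] [NumberField F] [Field L] [NumberField L] [Algebra F L]
    {w w' : HeightOneSpectrum (𝓞 F)} {𝔓 : HeightOneSpectrum (𝓞 L)} (h : Ov w.asIdeal 𝔓)
    (h' : Ov w'.asIdeal 𝔓) : w = w' := by
  set c : Ideal (𝓞 F) := 𝔓.asIdeal.comap (algebraMap (𝓞 F) (𝓞 L)) with hc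
  have hct : c ≠ ⊤ := Ideal.comap_ne_top _ 𝔓.isPrime.ne_top
  have h1 : w.asIdeal = c := w.isMaximal.eq_of_le hct fun a ha => h a ha
  have h2 : w'.asIdeal = c := w'.isMaximal.eq_of_le hct fun a ha => h' a ha
  exact HeightOneSpectrum.ext (h1.trans h2.symm)

theorem sum_le (F L : Type) [Field F] [NumberField F] [Field L] [NumberField L] [Algebra F L]
    {W : ℕ} (hW : 0 < W) (T : Finset (HeightOneSpectrum (𝓞 F)))
    (hT : ∀ w ∈ T, (W : 𝓞 F) ∈ w.asIdeal) :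
    ∑ w ∈ T, Nat.card {𝔓 : HeightOneSpectrum (𝓞 L) // Ov w.asIdeal 𝔓} ≤
      Nat.card {𝔓 : HeightOneSpectrum (𝓞 L) // (W : 𝓞 L) ∈ 𝔓.asIdeal} := by
  set P := (fin_W L hW).toFinset with hP
  have hmem : ∀ 𝔓, 𝔓 ∈ P ↔ (W : 𝓞 L) ∈ 𝔓.asIdeal := fun 𝔓 => by
    rw [hP, Set.Finite.mem_toFinset, Set.mem_setOf_eq]
  have e1 : Nat.card {𝔓 : HeightOneSpectrum (𝓞 L) // (W : 𝓞 L) ∈ 𝔓.asIdeal} = P.card :=
    Nat.subtype_card P hmem
  have e2 : ∀ w ∈ T, Nat.card {𝔓 : HeightOneSpectrum (𝓞 L) // Ov w.asIdeal 𝔓} =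
      (P.filter fun 𝔓 => Ov w.asIdeal 𝔓).card := by
    intro w hw
    refine Nat.subtype_card _ fun 𝔓 => ?_
    rw [Finset.mem_filter, hmem]
    refine ⟨fun h => h.2, fun h => ⟨?_, h⟩⟩
    have := h _ (hT w hw)
    rwa [map_natCast] at this
  rw [e1, Finset.sum_congr rfl e2, ← Finset.card_biUnion]
  · refine Finset.card_le_card fun 𝔓 h𝔓 => ?_
    obtain ⟨w, _, h⟩ := Finset.mem_biUnion.1 h𝔓
    exact (Finset.mem_filter.1 h).1
  · intro w _ w' _ hne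
    rw [Function.onFun, Finset.disjoint_left]
    intro 𝔓 h1 h2
    exact hne (ov_unique (Finset.mem_filter.1 h1).2 (Finset.mem_filter.1 h2).2)

theorem e_zero {F : Type} [Field F] [NumberField F] {w : HeightOneSpectrum (𝓞 F)} {e : ℕ}
    (h : w.valuation F (2 : F) = WithZero.exp (-(e : ℤ))) (h2 : (2 : 𝓞 F) ∉ w.asIdeal) : e = 0 := by
  by_contra he
  apply h2
  have h3 : w.valuation F (algebraMap (𝓞 F) F 2) < 1 := by
    rw [map_ofNat, h, ← WithZero.exp_zero, WithZero.exp_lt_exp]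
    omega
  exact (HeightOneSpectrum.valuation_lt_one_iff_mem w (2 : 𝓞 F)).1 h3

theorem t (hUNI : Pool.Agent.H18N.S_UNIW) (hRNQ : Pool.Agent.H18N.S_RNQW)
    (hLOC : Pool.Agent.H18N.S_LOCX) (hREAL : Pool.Agent.H18G.S_REALX) : Pool.Agent.H18N.S_BIGW := by
  intro g W F L _ _ _ _ _ f θ S 𝔮 r P hg hc hsq hS hcon 𝔔 h𝔔
  have hW0 : 0 < W := hsq.pos
  have hqp : ∀ q ∈ S, q.Prime := fun q hq => (hS q hq).1
  have hov : ∀ q ∈ S, (q : 𝓞 L) ∈ (𝔔 q).asIdeal := by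
    intro q hq
    have h1 := (h𝔔 q hq).1 _ (hS q hq).2.2.2.2.2.2.1
    rwa [map_natCast] at h1
  have hcop : ∀ (𝔓 : HeightOneSpectrum (𝓞 L)) (m n : ℕ), Nat.Coprime m n → (m : 𝓞 L) ∈ 𝔓.asIdeal →
      (n : 𝓞 L) ∈ 𝔓.asIdeal → False := by
    intro 𝔓 m n hco h1 h2
    have h3 : IsCoprime (m : ℤ) (n : ℤ) := Nat.isCoprime_iff_coprime.2 hco
    obtain ⟨a, b, hab⟩ := h3
    apply 𝔓.isPrime.ne_top
    rw [Ideal.eq_top_iff_one]
    have h4 : (1 : 𝓞 L) = (a : 𝓞 L) * (m : 𝓞 L) + (b : 𝓞 L) * (n : 𝓞 L) := by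
      have := congrArg (fun z : ℤ => (z : 𝓞 L)) hab
      push_cast at this
      exact this.symm
    rw [h4]
    exact Ideal.add_mem _ (Ideal.mul_mem_left _ _ h1) (Ideal.mul_mem_left _ _ h2)
  -- the primes are different
  have hinj : Set.InjOn 𝔔 S := by
    intro q hq q' hq' he
    by_contra hne
    have h1 : (q : 𝓞 L) ∈ (𝔔 q).asIdeal := hov q hq
    have h2 : (q' : 𝓞 L) ∈ (𝔔 q).asIdeal := by rw [he]; exact hov q' hq'
    exact hcop _ q q' ((Nat.coprime_primes (hqp q hq) (hqp q' hq')).2 hne) h1 h2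
  obtain ⟨A, hA1, hA2, hA3⟩ := hUNI F L (by rw [hc.rank]; exact ⟨g, rfl⟩) W hW0
    (S.image 𝔔) (by
    intro 𝔓 h𝔓
    obtain ⟨q, hq, rfl⟩ := Finset.mem_image.1 h𝔓
    refine ⟨fun hWq => ?_, hRNQ g W F L f θ S 𝔮 r P hg hc hsq hS q hq (hcon q hq) _ (h𝔔 q hq).1 (h𝔔 q hq).2⟩
    have hco : Nat.Coprime q W := ((hqp q hq).coprime_iff_not_dvd).2 fun hd => by
      have h1 := Nat.le_of_dvd hW0 hd
      have h2 := (hS q hq).2.1
      omega
    exact hcop _ q W hco (hov q hq) hWq)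
  rw [Finset.card_image_of_injOn hinj] at hA1
  -- the primes over `W`
  obtain ⟨T2, e, hT1, hT2, hT3⟩ := two_fac F
  set T := (fin_W F hW0).toFinset with hTdef
  have hTm : ∀ w, w ∈ T ↔ (W : 𝓞 F) ∈ w.asIdeal := fun w => by
    rw [hTdef, Set.Finite.mem_toFinset, Set.mem_setOf_eq]
  have hsubT : T2 ⊆ T := by
    intro w hw
    rw [hTm]
    have h2 := (hT1 w).1 hw
    obtain ⟨k, hk⟩ := hsq.two
    rw [hk, Nat.cast_mul]
    exact w.asIdeal.mul_mem_right _ (by exact_mod_cast h2)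
  have hT3' : ∏ w ∈ T, Ideal.absNorm w.asIdeal ^ e w = 2 ^ Module.finrank ℚ F := by
    rw [← hT3]
    symm
    refine Finset.prod_subset hsubT fun w _ hw => ?_
    rw [e_zero (hT2 w) (fun h => hw ((hT1 w).2 h)), pow_zero]
  set nL := Nat.card {𝔓 : HeightOneSpectrum (𝓞 L) // (W : 𝓞 L) ∈ 𝔓.asIdeal} with hnL
  set nF := Nat.card {w : HeightOneSpectrum (𝓞 F) // (W : 𝓞 F) ∈ w.asIdeal} with hnF
  have hnFc : nF = T.card := Nat.subtype_card T hTm
  have hsum : ∑ w ∈ T, Nat.card {𝔓 : HeightOneSpectrum (𝓞 L) // Ov w.asIdeal 𝔓} ≤ nL :=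
    sum_le F L hW0 T fun w hw => (hTm w).1 hw
  have hTW : ∀ w : HeightOneSpectrum (𝓞 F), ∃ C : Finset L, w ∈ T →
      4 * C.card ≤ 4 ^ Nat.card {𝔓 : HeightOneSpectrum (𝓞 L) // Ov w.asIdeal 𝔓} *
        Ideal.absNorm w.asIdeal ^ (2 * g * e w) ∧
      (∀ c ∈ C, c ≠ 0 ∧ IsSquare (Algebra.norm F c)) ∧
      ∀ α : L, α ≠ 0 → IsSquare (Algebra.norm F α) → ∃ c ∈ C, ∀ h : F[X], aeval θ h = α * c →
        LocS (w.adicCompletion F) (fF f) h := by
    intro w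
    obtain ⟨C, hC⟩ := hLOC g F L f θ hg hc w (e w) (hT2 w)
    exact ⟨C, fun _ => hC⟩
  choose Cw hCw using hTW
  obtain ⟨Cs, hCs1, hCs2⟩ := hREAL g F L f θ hc
  -- the choices
  have hchw : ∀ (w : HeightOneSpectrum (𝓞 F)) (α : L), ∃ c : L, w ∈ T → α ≠ 0 →
      IsSquare (Algebra.norm F α) → c ∈ Cw w ∧
      ∀ h : F[X], aeval θ h = α * c → LocS (w.adicCompletion F) (fF f) h := by
    intro w α
    by_cases hw : w ∈ T
    · by_cases hα : α ≠ 0 ∧ IsSquare (Algebra.norm F α)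
      · obtain ⟨c, hc1, hc2⟩ := (hCw w hw).2.2 α hα.1 hα.2
        exact ⟨c, fun _ _ _ => ⟨hc1, hc2⟩⟩
      · exact ⟨0, fun _ h h' => absurd ⟨h, h'⟩ hα⟩
    · exact ⟨0, fun h => absurd h hw⟩
  choose cw hcw using hchw
  have hchs : ∀ (σ : F →+* ℝ) (α : L), ∃ c : L, α ≠ 0 → IsSquare (Algebra.norm F α) → c ∈ Cs σ ∧
      ∀ h : F[X], aeval θ h = α * c → ∃ s : ℝ[X], (fF f).map σ ∣ h.map σ - s ^ 2 := by
    intro σ α
    by_cases hα : α ≠ 0 ∧ IsSquare (Algebra.norm F α)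
    · obtain ⟨c, hc1, hc2⟩ := (hCs2 σ).2 α hα.1 hα.2
      exact ⟨c, fun _ _ => ⟨hc1, hc2⟩⟩
    · exact ⟨0, fun h h' => absurd ⟨h, h'⟩ hα⟩
  choose cs hcs using hchs
  let Φ : L → (T → L) × ((F →+* ℝ) → L) := fun α => (fun w => cw w α, fun σ => cs σ α)
  let t : Finset ((T → L) × ((F →+* ℝ) → L)) :=
    (Fintype.piFinset fun w : T => Cw w) ×ˢ (Fintype.piFinset fun σ => Cs σ)
  have hmaps : ∀ α : L, α ≠ 0 → IsSquare (Algebra.norm F α) → Φ α ∈ t := by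
    intro α hα hα'
    rw [Finset.mem_product]
    constructor
    · rw [Fintype.mem_piFinset]
      exact fun w => (hcw w α w.2 hα hα').1
    · rw [Fintype.mem_piFinset]
      exact fun σ => (hcs σ α hα hα').1
  -- the orders
  set rL := Fintype.card (InfinitePlace L) with hrL
  set rF := Fintype.card (InfinitePlace F) with hrF
  set d := Module.finrank ℚ F with hd
  have hCprod : 4 ^ nF * ∏ w : T, (Cw w).card ≤ 4 ^ nL * 2 ^ (2 * g * d) := by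
    calc 4 ^ nF * ∏ w : T, (Cw w).card = ∏ w : T, (4 * (Cw w).card) := by
          rw [Finset.prod_mul_distrib, Finset.prod_const, Finset.card_univ, Fintype.card_coe, hnFc]
      _ ≤ ∏ w : T, (4 ^ Nat.card {𝔓 : HeightOneSpectrum (𝓞 L) // Ov w.1.asIdeal 𝔓} *
            (Ideal.absNorm w.1.asIdeal ^ e w) ^ (2 * g)) := by
          refine Finset.prod_le_prod (fun _ _ => Nat.zero_le _) fun w _ => ?_
          rw [← pow_mul, mul_comm (e w)]
          exact (hCw w w.2).1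
      _ = 4 ^ (∑ w ∈ T, Nat.card {𝔓 : HeightOneSpectrum (𝓞 L) // Ov w.asIdeal 𝔓}) *
            2 ^ (2 * g * d) := by
          rw [Finset.prod_mul_distrib, Finset.prod_pow,
            Finset.prod_coe_sort T (fun w => Ideal.absNorm w.asIdeal ^ e w),
            Finset.prod_coe_sort T (fun w =>
              4 ^ Nat.card {𝔓 : HeightOneSpectrum (𝓞 L) // Ov w.asIdeal 𝔓}),
            Finset.prod_pow_eq_pow_sum, hT3', ← pow_mul, mul_comm d]
      _ ≤ 4 ^ nL * 2 ^ (2 * g * d) :=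
          Nat.mul_le_mul_right _ (Nat.pow_le_pow_right (by norm_num) hsum)
  have htcard : t.card = (∏ w : T, (Cw w).card) * ∏ σ, (Cs σ).card := by
    rw [Finset.card_product, Fintype.card_piFinset, Fintype.card_piFinset]
  have h4 : ∀ m : ℕ, (4 : ℕ) ^ m = 2 ^ (2 * m) := fun m => by
    rw [pow_mul]
    norm_num
  have htc' : t.card * 2 ^ (2 * (nF + rF)) ≤ 2 ^ (2 * (nL + rL)) := by
    refine Nat.le_of_mul_le_mul_right ?_ (Nat.two_pow_pos (2 * g * d))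
    calc t.card * 2 ^ (2 * (nF + rF)) * 2 ^ (2 * g * d)
        = (4 ^ nF * ∏ w : T, (Cw w).card) * ((∏ σ, (Cs σ).card) * 2 ^ (2 * g * d + 2 * rF)) := by
          rw [htcard, h4, mul_add, pow_add, pow_add]
          ring
      _ ≤ (4 ^ nL * 2 ^ (2 * g * d)) * 2 ^ (2 * rL) := Nat.mul_le_mul hCprod hCs1
      _ = 2 ^ (2 * (nL + rL)) * 2 ^ (2 * g * d) := by
          rw [h4, mul_add, pow_add]
          ring
  have ht1 : 1 ≤ t.card := Finset.card_pos.2 ⟨Φ 1, hmaps 1 one_ne_zero (by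
    rw [map_one]
    exact IsSquare.one)⟩
  have hrr : nF + rF ≤ nL + rL := by
    have h2 : 2 ^ (2 * (nF + rF)) ≤ 2 ^ (2 * (nL + rL)) :=
      (Nat.le_mul_of_pos_left _ ht1).trans htc'
    have h3 := (Nat.pow_le_pow_iff_right (by norm_num)).1 h2
    omega
  set a : ℕ := (nL + rL) - (nF + rF) with ha
  have hr : nL + rL = a + (nF + rF) := by omega
  have hAc : 2 ^ (S.card + a) ≤ A.card := by
    refine Nat.le_of_mul_le_mul_right ?_ (Nat.two_pow_pos (rF + nF))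
    rw [← pow_add]
    have e1 : S.card + a + (rF + nF) = S.card + rL + nL := by omega
    rw [e1]
    exact hA1
  have htc : t.card ≤ 2 ^ (2 * a) := by
    refine Nat.le_of_mul_le_mul_right ?_ (Nat.two_pow_pos (2 * (nF + rF)))
    rw [← pow_add, ← mul_add, ← hr]
    exact htc'
  -- the representatives
  have hrep : ∀ y : (T → L) × ((F →+* ℝ) → L), ∃ β : L,
      (∃ α, InPW F W S 𝔔 α ∧ Φ α = y) → InPW F W S 𝔔 β ∧ Φ β = y := by
    intro y
    by_cases h : ∃ α, InPW F W S 𝔔 α ∧ Φ α = y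
    · obtain ⟨α, hα⟩ := h
      exact ⟨α, fun _ => hα⟩
    · exact ⟨0, fun h' => absurd h' h⟩
  choose rep hrep using hrep
  refine ⟨a, A, t.image rep, hAc, ?_, hA3, Finset.card_image_le.trans htc, ?_⟩
  · intro α hα
    refine ⟨(hA2 α hα).1, (hA2 α hα).2.1, fun 𝔓 hW𝔓 h𝔓 => (hA2 α hα).2.2 𝔓 ?_ hW𝔓⟩
    intro h
    obtain ⟨q, hq, he⟩ := Finset.mem_image.1 h
    exact h𝔓 q hq he.symm
  · intro α hα
    obtain ⟨hβ, hΦ⟩ := hrep (Φ α) ⟨α, hα, rfl⟩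
    set β : L := rep (Φ α) with hβd
    refine ⟨β, Finset.mem_image.2 ⟨Φ α, hmaps α hα.ne hα.nsq, rfl⟩, hβ, ?_⟩
    obtain ⟨h₀, hh₀⟩ := ex_pol hc (α * β)
    refine ⟨h₀, hh₀, ?_, ?_⟩
    · intro w hw
      have hwT := (hTm w).2 hw
      have hce : cw w β = cw w α := congrFun (congrArg Prod.fst hΦ) ⟨w, hwT⟩
      obtain ⟨c1, c2⟩ := hcw w α hwT hα.ne hα.nsq
      obtain ⟨c3, c4⟩ := hcw w β hwT hβ.ne hβ.nsq
      have hc0 : cw w α ≠ 0 := ((hCw w hwT).2.1 _ c1).1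
      obtain ⟨p₁, hp₁⟩ := ex_pol hc (α * cw w α)
      obtain ⟨p₂, hp₂⟩ := ex_pol hc (β * cw w β)
      obtain ⟨k, hk⟩ := ex_pol hc (cw w α)⁻¹
      refine loc_mul (algebraMap F (w.adicCompletion F)) (k := k) (c2 p₁ hp₁) (c4 p₂ hp₂)
        (dvd_of_aeval hc ?_)
      rw [map_sub, map_mul, map_mul, map_pow, hh₀, hp₁, hp₂, hk, hce]
      field_simp
      ring
    · intro σ
      have hce : cs σ β = cs σ α := congrFun (congrArg Prod.snd hΦ) σ
      obtain ⟨c1, c2⟩ := hcs σ α hα.ne hα.nsq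
      obtain ⟨c3, c4⟩ := hcs σ β hβ.ne hβ.nsq
      have hc0 : cs σ α ≠ 0 := ((hCs2 σ).1 _ c1).1
      obtain ⟨p₁, hp₁⟩ := ex_pol hc (α * cs σ α)
      obtain ⟨p₂, hp₂⟩ := ex_pol hc (β * cs σ β)
      obtain ⟨k, hk⟩ := ex_pol hc (cs σ α)⁻¹
      refine loc_mul σ (k := k) (c2 p₁ hp₁) (c4 p₂ hp₂) (dvd_of_aeval hc ?_)
      rw [map_sub, map_mul, map_mul, map_pow, hh₀, hp₁, hp₂, hk, hce]
      field_simp
      ring

end Pool.Agent.H18N.BIGW
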