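import Pool.Agent.H18N.Stm
import Pool.Agent.H68K.PR.Core

/-!
# Project JN, stub COREW (helper33): the maximal isotropic group between the relaxed Selmer group and
# `M⁺`, near every curve

After `Pool/Agent/H18G/COREG.lean`, `Pool/Agent/H42PR/Core3.lean` of helper42 and `Pool/Agent/H68K/PR/Core.lean` of helper68.
-/

set_option autoImplicit false
set_option linter.all false

open Polynomial IsDedekindDomain Matrix NumberField WithZero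
open scoped Classical

namespace Pool.Agent.H18N.COREW

open Pool.Agent.H68K.PR (LJ ex_equiv)
open Pool.Agent.H18G (LocS SelLe SelE twf cnt)
open Pool.Agent.N874.PP (Ev Sq1 U0)
open Pool.Agent.N783.PQ (LocIm)
open Pool.Agent.N874.JM (LocF)
open Pool.Agent.N783.PF
open Pool.Agent.N891.PQ (cl cl_add_aux not_ev_exp locIm_one)
open Pool.Agent.N771.PF (locF_one locF_mul rd_eq)

theorem strW_mul {F : Type} [Field F] [NumberField F] {W : ℕ} {f : (𝓞 F)[X]} {h k : F[X]}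
    (H : StrW W f h) (K : StrW W f k) : StrW W f (h * k) := by
  refine ⟨fun w hw => ?_, fun σ => ?_⟩
  · obtain ⟨s, hs⟩ := H.fin w hw
    obtain ⟨t, ht⟩ := K.fin w hw
    refine ⟨s * t, ?_⟩
    rw [Polynomial.map_mul]
    have e : h.map (algebraMap F (w.adicCompletion F)) * k.map (algebraMap F (w.adicCompletion F)) -
        (s * t) ^ 2 = (h.map (algebraMap F (w.adicCompletion F)) - s ^ 2) *
          k.map (algebraMap F (w.adicCompletion F)) +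
        s ^ 2 * (k.map (algebraMap F (w.adicCompletion F)) - t ^ 2) := by ring
    rw [e]
    exact dvd_add (hs.mul_right _) (ht.mul_left _)
  · obtain ⟨s, hs⟩ := H.real σ
    obtain ⟨t, ht⟩ := K.real σ
    refine ⟨s * t, ?_⟩
    rw [Polynomial.map_mul]
    have e : h.map σ * k.map σ - (s * t) ^ 2 = (h.map σ - s ^ 2) * k.map σ +
        s ^ 2 * (k.map σ - t ^ 2) := by ring
    rw [e]
    exact dvd_add (hs.mul_right _) (ht.mul_left _)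

theorem strW_one {F : Type} [Field F] [NumberField F] (W : ℕ) (f : (𝓞 F)[X]) :
    StrW W f (1 : F[X]) := by
  refine ⟨fun w hw => ⟨1, ?_⟩, fun σ => ⟨1, ?_⟩⟩
  · rw [Polynomial.map_one, one_pow, sub_self]
    exact dvd_zero _
  · rw [Polynomial.map_one, one_pow, sub_self]
    exact dvd_zero _

/-- The relaxed Selmer group. -/
structure InMW {F L : Type} [Field F] [NumberField F] [Field L] [NumberField L] [Algebra F L] (W : ℕ)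
    (f : (𝓞 F)[X]) (θ : L) (S : Finset ℕ) (𝔔 : ℕ → HeightOneSpectrum (𝓞 L)) (α : L) : Prop where
  ne : α ≠ 0
  nsq : IsSquare (Algebra.norm F α)
  ev : ∀ 𝔓 : HeightOneSpectrum (𝓞 L), (W : 𝓞 L) ∉ 𝔓.asIdeal → (∀ q ∈ S, 𝔓 ≠ 𝔔 q) → Ev 𝔓 α
  loc : ∃ h₀ : F[X], aeval θ h₀ = α ∧ (∀ w : HeightOneSpectrum (𝓞 F), (W : 𝓞 F) ∈ w.asIdeal →
      LocF (w.adicCompletion F) (fF f) h₀) ∧
    ∀ σ : F →+* ℝ, LocIm ℝ ((fF f).map σ) (h₀.map σ)

/-- **COREW.** -/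
theorem t (hLIN : Pool.Agent.H18G.S_LIN5) (hBIG : S_BIGW) (hREC2 : S_REC2W) (hEXQ : S_EXQW)
    (hNS : S_NSW) (hREC : S_RECW) : Pool.Agent.H18N.S_COREW := by
  have hCLS := Pool.Agent.N457.PQ.cls
  intro g W F L _ _ _ _ _ f θ S 𝔮 r P hg hc hsq hS hcon hnb
  have hqp : ∀ q ∈ S, q.Prime := fun q hq => (hS q hq).1
  have hq2 : ∀ q ∈ S, q ≠ 2 := by
    intro q hq h
    have := (hS q hq).2.2.2.1
    rw [h] at this
    omega
  have hcg : ∀ q ∈ S, Cg (𝔮 q) f (X * r q) := by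
    intro q hq j
    obtain ⟨-, -, -, -, -, -, hmem, -, -, -, -, -, -, hcg1, -⟩ := hS q hq
    have h1 := hcon q hq j
    have h2 : sp F q ≤ 𝔮 q := by
      rw [sp, Ideal.span_singleton_le_iff_mem]
      exact hmem
    have h3 := Ideal.add_mem _ (h2 h1) (hcg1 j)
    have e : f.coeff j - (X * r q).coeff j =
        f.coeff j - (P q).coeff j + ((P q).coeff j - (X * r q).coeff j) := by ring
    rw [e]
    exact h3
  have hov : ∀ q ∈ S, ∀ 𝔓 : HeightOneSpectrum (𝓞 L), Ov (𝔮 q) 𝔓 → Pool.Agent.N783.PQ.Ov q 𝔓 := by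
    intro q hq 𝔓 h
    have h1 := h _ (hS q hq).2.2.2.2.2.2.1
    rw [map_natCast] at h1
    exact h1
  have hone : ∀ q ∈ S, ∀ q' ∈ S, ∀ 𝔓 : HeightOneSpectrum (𝓞 L), (q : 𝓞 L) ∈ 𝔓.asIdeal →
      (q' : 𝓞 L) ∈ 𝔓.asIdeal → q = q' := by
    intro q hq q' hq' 𝔓 h1 h2
    by_contra hne
    have hco : Nat.Coprime q q' := (Nat.coprime_primes (hqp q hq) (hqp q' hq')).2 hne
    have h3 : IsCoprime (q : ℤ) (q' : ℤ) := Nat.isCoprime_iff_coprime.2 hco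
    obtain ⟨a, b, hab⟩ := h3
    apply 𝔓.isPrime.ne_top
    rw [Ideal.eq_top_iff_one]
    have h4 : (1 : 𝓞 L) = (a : 𝓞 L) * (q : 𝓞 L) + (b : 𝓞 L) * (q' : 𝓞 L) := by
      have := congrArg (fun z : ℤ => (z : 𝓞 L)) hab
      push_cast at this
      exact this.symm
    rw [h4]
    exact Ideal.add_mem _ (Ideal.mul_mem_left _ _ h1) (Ideal.mul_mem_left _ _ h2)
  have hWn : ∀ q ∈ S, ∀ 𝔓 : HeightOneSpectrum (𝓞 L), Ov (𝔮 q) 𝔓 → (W : 𝓞 L) ∉ 𝔓.asIdeal := by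
    intro q hq 𝔓 hO h1
    have h2 : (q : 𝓞 L) ∈ 𝔓.asIdeal := hov q hq 𝔓 hO
    have hco : Nat.Coprime q W := (hqp q hq).coprime_iff_not_dvd.2
      (Nat.not_dvd_of_pos_of_lt hsq.pos (hS q hq).2.1)
    have h3 : IsCoprime (q : ℤ) (W : ℤ) := Nat.isCoprime_iff_coprime.2 hco
    obtain ⟨a, b, hab⟩ := h3
    apply 𝔓.isPrime.ne_top
    rw [Ideal.eq_top_iff_one]
    have h4 : (1 : 𝓞 L) = (a : 𝓞 L) * (q : 𝓞 L) + (b : 𝓞 L) * (W : 𝓞 L) := by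
      have := congrArg (fun z : ℤ => (z : 𝓞 L)) hab
      push_cast at this
      exact this.symm
    rw [h4]
    exact Ideal.add_mem _ (Ideal.mul_mem_left _ _ h2) (Ideal.mul_mem_left _ _ h1)
  have huniq : ∀ q ∈ S, ∀ q' ∈ S, ∀ 𝔓 : HeightOneSpectrum (𝓞 L), Ov (𝔮 q) 𝔓 → Ov (𝔮 q') 𝔓 →
      q = q' := fun q hq q' hq' 𝔓 h h' => hone q hq q' hq' 𝔓 (hov q hq 𝔓 h) (hov q' hq' 𝔓 h')
  have hex : ∀ q ∈ S, ∃ 𝔓₁ 𝔔 : HeightOneSpectrum (𝓞 L), Ov (𝔮 q) 𝔓₁ ∧ Ov (𝔮 q) 𝔔 ∧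
      𝔓₁.valuation L θ < 1 ∧ 𝔔.valuation L θ = 1 ∧ ¬ Ev 𝔔 ((q : L) * θ) ∧
      ∀ 𝔓 : HeightOneSpectrum (𝓞 L), Ov (𝔮 q) 𝔓 → 𝔓 = 𝔓₁ ∨ 𝔓 = 𝔔 := by
    intro q hq
    obtain ⟨𝔓₁, 𝔔, a1, a2, a3, a4, a5, a6, a7⟩ :=
      hEXQ g W F L f θ S 𝔮 r P hg hc hsq hS q hq (hcg q hq)
    refine ⟨𝔓₁, 𝔔, a1, a2, a3, a4, not_ev_exp ?_, a7⟩
    rw [map_mul, a6, a4, mul_one]
  haveI hne : Nonempty (HeightOneSpectrum (𝓞 L)) := by
    obtain ⟨m, hm⟩ := Ideal.exists_maximal (𝓞 L)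
    exact ⟨⟨m, hm.isPrime, Ring.ne_bot_of_isMaximal_of_not_isField hm
      (NumberField.RingOfIntegers.not_isField L)⟩⟩
  obtain ⟨𝔭, h𝔭⟩ : ∃ 𝔭 : ℕ → HeightOneSpectrum (𝓞 L), 𝔭 = fun q =>
    if hq : q ∈ S then (hex q hq).choose else Classical.arbitrary _ := ⟨_, rfl⟩
  obtain ⟨𝔔, h𝔔⟩ : ∃ 𝔔 : ℕ → HeightOneSpectrum (𝓞 L), 𝔔 = fun q =>
    if hq : q ∈ S then (hex q hq).choose_spec.choose else Classical.arbitrary _ := ⟨_, rfl⟩
  have hpq : ∀ q ∈ S, Ov (𝔮 q) (𝔭 q) ∧ Ov (𝔮 q) (𝔔 q) ∧ (𝔭 q).valuation L θ < 1 ∧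
      (𝔔 q).valuation L θ = 1 ∧ ¬ Ev (𝔔 q) ((q : L) * θ) ∧
      ∀ 𝔓 : HeightOneSpectrum (𝓞 L), Ov (𝔮 q) 𝔓 → 𝔓 = 𝔭 q ∨ 𝔓 = 𝔔 q := by
    intro q hq
    have h := (hex q hq).choose_spec.choose_spec
    rw [h𝔭, h𝔔]
    simp only [dif_pos hq]
    exact h
  have h𝔔' : ∀ q ∈ S, Ov (𝔮 q) (𝔔 q) ∧ (𝔔 q).valuation L θ = 1 :=
    fun q hq => ⟨(hpq q hq).2.1, (hpq q hq).2.2.2.1⟩
  -- the map `ψ`
  obtain ⟨ψ, hψd⟩ : ∃ ψ : L → (S → ZMod 2 × ZMod 2), ψ = fun (α : L) (q : S) =>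
    cl (𝔔 (q : ℕ)) (((q : ℕ) : L) * θ) α := ⟨_, rfl⟩
  have hϖ : ∀ q ∈ S, (q : L) * θ ≠ 0 := by
    intro q hq h0
    exact (hpq q hq).2.2.2.2.1 (by rw [h0]; exact ⟨0, by simp⟩)
  have hψ : ∀ α β : L, α ≠ 0 → β ≠ 0 → ψ (α * β) = ψ α + ψ β := by
    intro α β hα hβ
    rw [hψd]
    funext q
    have h := hCLS L q (𝔔 q) ((q : L) * θ) (hqp q q.2) (hq2 q q.2)
      (hov q q.2 _ (hpq q q.2).2.1) (hϖ q q.2) (hpq q q.2).2.2.2.2.1 α β hα hβ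
    exact Prod.ext (cl_add_aux h.1) (cl_add_aux h.2)
  have hself : ∀ l : S → ZMod 2 × ZMod 2, l + l = 0 := by
    intro l
    funext q
    exact Prod.ext (CharTwo.add_self_eq_zero _) (CharTwo.add_self_eq_zero _)
  have hψs : ∀ α : L, α ≠ 0 → IsSquare α → ψ α = 0 := by
    rintro α hα ⟨s, rfl⟩
    have hs : s ≠ 0 := fun h => hα (by rw [h, mul_zero])
    rw [hψ s s hs hs]
    exact hself _
  have hψ1 : ψ 1 = 0 := hψs 1 one_ne_zero IsSquare.one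
  have hfst : ∀ (α : L) (q : S), (ψ α q).1 = 0 ↔ Ev (𝔔 (q : ℕ)) α := by
    intro α q
    rw [hψd]
    show (if Ev (𝔔 (q : ℕ)) α then (0 : ZMod 2) else 1) = 0 ↔ _
    by_cases h : Ev (𝔔 (q : ℕ)) α
    · rw [if_pos h]
      exact ⟨fun _ => h, fun _ => rfl⟩
    · rw [if_neg h]
      exact ⟨fun h1 => absurd h1 one_ne_zero, fun h1 => absurd h1 h⟩
  have hsnd : ∀ (α : L) (q : S), (ψ α q).2 = 0 ↔ U0 (𝔔 (q : ℕ)) (((q : ℕ) : L) * θ) α := by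
    intro α q
    rw [hψd]
    show (if U0 (𝔔 (q : ℕ)) (((q : ℕ) : L) * θ) α then (0 : ZMod 2) else 1) = 0 ↔ _
    by_cases h : U0 (𝔔 (q : ℕ)) (((q : ℕ) : L) * θ) α
    · rw [if_pos h]
      exact ⟨fun _ => h, fun _ => rfl⟩
    · rw [if_neg h]
      exact ⟨fun h1 => absurd h1 one_ne_zero, fun h1 => absurd h1 h⟩
  have hEvmul : ∀ (𝔓 : HeightOneSpectrum (𝓞 L)) (x y : L), Ev 𝔓 x → Ev 𝔓 y → Ev 𝔓 (x * y) := by
    rintro 𝔓 x y ⟨u, hu⟩ ⟨v, hv⟩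
    exact ⟨u * v, by rw [map_mul, map_mul, hu, hv, mul_pow]⟩
  -- the group `M⁺`
  have hPmul : ∀ α β, InPW F W S 𝔔 α → InPW F W S 𝔔 β → InPW F W S 𝔔 (α * β) := by
    intro α β hα hβ
    refine ⟨mul_ne_zero hα.ne hβ.ne, ?_, fun 𝔓 hw h𝔓 =>
      hEvmul 𝔓 _ _ (hα.ev 𝔓 hw h𝔓) (hβ.ev 𝔓 hw h𝔓)⟩
    rw [map_mul]
    exact hα.nsq.mul hβ.nsq
  have hP1 : InPW F W S 𝔔 (1 : L) := by
    refine ⟨one_ne_zero, by rw [map_one]; exact IsSquare.one,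
      fun 𝔓 _ _ => ⟨1, by rw [map_one, one_pow]⟩⟩
  -- the relaxed Selmer group
  have hMP : ∀ α, InMW W f θ S 𝔔 α → InPW F W S 𝔔 α := fun α h => ⟨h.ne, h.nsq, h.ev⟩
  have hMmul : ∀ α β, InMW W f θ S 𝔔 α → InMW W f θ S 𝔔 β → InMW W f θ S 𝔔 (α * β) := by
    intro α β hα hβ
    obtain ⟨h1, h2, h3, a, h4, h5, h6⟩ := hα
    obtain ⟨h1', h2', h3', b, h4', h5', h6'⟩ := hβ
    refine ⟨mul_ne_zero h1 h1', ?_, fun 𝔓 hw h𝔓 => hEvmul 𝔓 _ _ (h3 𝔓 hw h𝔓) (h3' 𝔓 hw h𝔓),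
      a * b, ?_, ?_, ?_⟩
    · rw [map_mul]
      exact h2.mul h2'
    · rw [map_mul, h4, h4']
    · intro w hw
      exact locF_mul (h5 w hw) (h5' w hw)
    · intro σ
      rw [Polynomial.map_mul]
      exact Pool.Agent.N891.PQ.LocIm.mul (h6 σ) (h6' σ)
  have hM1 : InMW W f θ S 𝔔 (1 : L) := by
    refine ⟨one_ne_zero, by rw [map_one]; exact IsSquare.one,
      fun 𝔓 _ _ => ⟨1, by rw [map_one, one_pow]⟩, 1, by rw [map_one], ?_, ?_⟩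
    · intro w _
      exact locF_one _ _
    · intro σ
      rw [Polynomial.map_one]
      exact locIm_one _ _
  -- the polynomials
  have hpol : ∀ α : L, ∃ h : F[X], aeval θ h = α := by
    intro α
    obtain ⟨c, hc'⟩ := hc.gen α
    refine ⟨∑ i, C (c i) * X ^ (i : ℕ), ?_⟩
    rw [map_sum, hc']
    refine Finset.sum_congr rfl fun i _ => ?_
    rw [map_mul, aeval_C, map_pow, aeval_X]
  -- the three groups
  let M : AddSubgroup (S → ZMod 2 × ZMod 2) :=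
    { carrier := {l | ∃ α, InPW F W S 𝔔 α ∧ ψ α = l}
      add_mem' := by
        rintro _ _ ⟨α, hα, rfl⟩ ⟨β, hβ, rfl⟩
        exact ⟨α * β, hPmul α β hα hβ, hψ α β hα.ne hβ.ne⟩
      zero_mem' := ⟨1, hP1, hψ1⟩
      neg_mem' := by
        rintro _ ⟨α, hα, rfl⟩
        refine ⟨α, hα, ?_⟩
        rw [eq_neg_iff_add_eq_zero]
        exact hself _ }
  let K : AddSubgroup (S → ZMod 2 × ZMod 2) :=
    { carrier := {l | ∃ k : F[X], InPW F W S 𝔔 (aeval θ k) ∧ StrW W f k ∧ ψ (aeval θ k) = l}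
      add_mem' := by
        rintro _ _ ⟨α, hα, hα', rfl⟩ ⟨β, hβ, hβ', rfl⟩
        refine ⟨α * β, ?_, strW_mul hα' hβ', ?_⟩
        · rw [map_mul]
          exact hPmul _ _ hα hβ
        · rw [map_mul]
          exact hψ _ _ hα.ne hβ.ne
      zero_mem' := ⟨1, by rw [map_one]; exact hP1, strW_one W f, by rw [map_one]; exact hψ1⟩
      neg_mem' := by
        rintro _ ⟨α, hα, hα', rfl⟩
        refine ⟨α, hα, hα', ?_⟩
        rw [eq_neg_iff_add_eq_zero]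
        exact hself _ }
  let I : AddSubgroup (S → ZMod 2 × ZMod 2) :=
    { carrier := {l | ∃ α, InMW W f θ S 𝔔 α ∧ ψ α = l}
      add_mem' := by
        rintro _ _ ⟨α, hα, rfl⟩ ⟨β, hβ, rfl⟩
        exact ⟨α * β, hMmul α β hα hβ, hψ α β hα.ne hβ.ne⟩
      zero_mem' := ⟨1, hM1, hψ1⟩
      neg_mem' := by
        rintro _ ⟨α, hα, rfl⟩
        refine ⟨α, hα, ?_⟩
        rw [eq_neg_iff_add_eq_zero]
        exact hself _ }
  have hKM : K ≤ M := by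
    rintro _ ⟨k, h1, h2, rfl⟩
    exact ⟨_, h1, rfl⟩
  have hIM : I ≤ M := by
    rintro _ ⟨α, h1, rfl⟩
    exact ⟨_, hMP α h1, rfl⟩
  -- the quadratic form
  have hqf : ∀ α : L, ∑ q : S, (ψ α q).1 * (ψ α q).2 = ((cnt (F := F) S 𝔔 θ α : ℕ) : ZMod 2) := by
    intro α
    have e1 : ∑ q : S, (ψ α q).1 * (ψ α q).2 = ∑ q ∈ S,
        (if ¬ Ev (𝔔 q) α ∧ ¬ Sq1 (𝔔 q) (α * ((q : L) * θ)) then (1 : ZMod 2) else 0) := by
      rw [← Finset.sum_coe_sort S]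
      refine Finset.sum_congr rfl fun q _ => ?_
      simp only [hψd, cl]
      by_cases he : Ev (𝔔 q) α
      · rw [if_pos he, zero_mul, if_neg (fun h => h.1 he)]
      · by_cases hs : Sq1 (𝔔 q) (α * (((q : ℕ) : L) * θ))
        · have hu : U0 (𝔔 q) (((q : ℕ) : L) * θ) α := ⟨fun h => absurd h he, fun _ => hs⟩
          rw [if_neg he, if_pos hu, mul_zero, if_neg (fun h => h.2 hs)]
        · have hu : ¬ U0 (𝔔 q) (((q : ℕ) : L) * θ) α := fun h => hs (h.2 he)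
          rw [if_neg he, if_neg hu, mul_one, if_pos ⟨he, hs⟩]
    rw [e1, Finset.sum_ite, Finset.sum_const_zero, add_zero, Finset.sum_const, nsmul_eq_mul,
      mul_one]
    rfl
  have hqf0 : ∀ α : L, ∑ q : S, (ψ α q).1 * (ψ α q).2 = 0 ↔ Even (cnt (F := F) S 𝔔 θ α) := by
    intro α
    rw [hqf]
    exact ZMod.natCast_eq_zero_iff_even
  have hqfe : ∀ α β : L, (Even (cnt (F := F) S 𝔔 θ α) ↔ Even (cnt (F := F) S 𝔔 θ β)) →
      ∑ q : S, (ψ α q).1 * (ψ α q).2 = ∑ q : S, (ψ β q).1 * (ψ β q).2 := by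
    intro α β h
    have h2 : ∀ x y : ZMod 2, (x = 0 ↔ y = 0) → x = y := by decide
    exact h2 _ _ (by rw [hqf0, hqf0]; exact h)
  have hcnt1 : Even (cnt (F := F) S 𝔔 θ (1 : L)) := by
    rw [← hqf0, hψ1]
    exact Finset.sum_eq_zero fun q _ => by simp
  have hREC2' := hREC2 g W F L f θ S 𝔮 r P hg hc hsq hS hcon 𝔔 h𝔔'
  have hKq : ∀ k ∈ K, ∑ q : S, (k q).1 * (k q).2 = 0 := by
    rintro _ ⟨k, h1, h2, rfl⟩
    rw [hqf0]
    have h3 := hREC2' 1 k (by rw [map_one]; exact hP1) h1 h2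
    rw [one_mul, map_one] at h3
    exact h3.2 hcnt1
  have hIq : ∀ l ∈ I, ∑ q : S, (l q).1 * (l q).2 = 0 := by
    rintro _ ⟨α, hα, rfl⟩
    obtain ⟨b1, b2, b3, h₀, b4, b5, b6⟩ := hα
    have h := hREC g W F L f θ S 𝔮 r P hg hc hsq hS hcon 𝔔 h𝔔' h₀
      (by rw [b4]; exact ⟨b1, b2, b3⟩) b5 b6
    rw [b4] at h
    rw [hqf0]
    exact h
  have hKMq : ∀ k ∈ K, ∀ l ∈ M, ∑ q : S, ((k q).1 * (l q).2 + (k q).2 * (l q).1) = 0 := by
    intro k hk l hl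
    have hk0 := hKq k hk
    obtain ⟨k, h1, h2, rfl⟩ := hk
    obtain ⟨α, h3, rfl⟩ := hl
    obtain ⟨h, rfl⟩ := hpol α
    have h4 := hqfe _ _ (hREC2' h k h3 h1 h2)
    rw [map_mul, hψ _ _ h3.ne h1.ne] at h4
    have h5 : ∑ q : S, ((ψ (aeval θ h) + ψ (aeval θ k)) q).1 * ((ψ (aeval θ h) + ψ (aeval θ k)) q).2 =
        ∑ q : S, (ψ (aeval θ h) q).1 * (ψ (aeval θ h) q).2 +
        ∑ q : S, (ψ (aeval θ k) q).1 * (ψ (aeval θ k) q).2 +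
        ∑ q : S, ((ψ (aeval θ k) q).1 * (ψ (aeval θ h) q).2 +
          (ψ (aeval θ k) q).2 * (ψ (aeval θ h) q).1) := by
      rw [← Finset.sum_add_distrib, ← Finset.sum_add_distrib]
      refine Finset.sum_congr rfl fun q _ => ?_
      rw [Pi.add_apply, Prod.fst_add, Prod.snd_add]
      ring
    rw [h5, hk0, add_zero] at h4
    exact left_eq_add.1 h4.symm
  -- local triviality at one prime of `S`
  have hsq1 : ∀ α, InPW F W S 𝔔 α → ∀ q (hq : q ∈ S), ψ α ⟨q, hq⟩ = 0 →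
      ∀ 𝔓 : HeightOneSpectrum (𝓞 L), Ov (𝔮 q) 𝔓 → Sq1 𝔓 α := by
    intro α hα q hqS hz
    obtain ⟨b1, b2, b3⟩ := hα
    have hz1 : Ev (𝔔 q) α ∧ U0 (𝔔 q) ((q : L) * θ) α :=
      ⟨(hfst α ⟨q, hqS⟩).1 (by rw [hz]; rfl), (hsnd α ⟨q, hqS⟩).1 (by rw [hz]; rfl)⟩
    refine hNS g W F L f θ S 𝔮 r P hg hc hsq hS q hqS (hcg q hqS) α b1 b2
      (fun 𝔓 hO𝔓 hv => ?_) (fun 𝔓 h𝔓 hv => ?_)
    · refine b3 𝔓 (hWn q hqS 𝔓 (by assumption)) fun q' hq' he => ?_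
      rw [he, (hpq q' hq').2.2.2.1] at hv
      exact lt_irrefl _ hv
    · rcases (hpq q hqS).2.2.2.2.2 𝔓 h𝔓 with rfl | rfl
      · exact absurd hv (hpq q hqS).2.2.1.ne
      · exact hz1.2.1 hz1.1
  have hinj : ∀ α, InPW F W S 𝔔 α → ψ α = 0 → IsSquare α := by
    intro α hα h0
    refine hnb α hα.ne hα.nsq ?_ ?_
    · intro 𝔓 hw
      by_cases h : ∀ q ∈ S, 𝔓 ≠ 𝔔 q
      · exact hα.ev 𝔓 hw h
      · push Not at h
        obtain ⟨q, hq, rfl⟩ := h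
        exact (hfst α ⟨q, hq⟩).1 (by rw [h0]; rfl)
    · intro q hq
      exact hsq1 α hα q hq (by rw [h0]; rfl)
  have hinj2 : ∀ α β, InPW F W S 𝔔 α → InPW F W S 𝔔 β → ψ α = ψ β → IsSquare (α * β) := by
    intro α β hα hβ he
    refine hinj _ (hPmul α β hα hβ) ?_
    rw [hψ α β hα.ne hβ.ne, he]
    exact hself _
  -- the orders
  obtain ⟨a, A, D₀, hA1, hA2, hA3, hC1, hC2⟩ :=
    hBIG g W F L f θ S 𝔮 r P hg hc hsq hS hcon 𝔔 h𝔔'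
  have hMcard : 2 ^ (Fintype.card S + a) ≤ Nat.card M := by
    rw [Fintype.card_coe]
    refine hA1.trans ?_
    have h1 : A.card = Nat.card A := by
      rw [Nat.card_eq_fintype_card, Fintype.card_coe]
    rw [h1]
    refine Nat.card_le_card_of_injective
      (fun α : A => (⟨ψ α, α, hA2 α α.2, rfl⟩ : M)) ?_
    intro α β he
    have h2 : ψ α = ψ β := congrArg (fun x : M => (x : S → ZMod 2 × ZMod 2)) he
    exact Subtype.ext (hA3 α α.2 β β.2 (hinj2 α β (hA2 α α.2) (hA2 β β.2) h2))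
  have hKcard : Nat.card M ≤ 2 ^ (2 * a) * Nat.card K := by
    refine le_trans ?_ (Nat.mul_le_mul_right _ hC1)
    have h1 : D₀.card = Nat.card D₀ := by
      rw [Nat.card_eq_fintype_card, Fintype.card_coe]
    rw [h1, ← Nat.card_prod]
    have h2 : ∀ m : M, ∃ x : D₀ × K, (x.2 : S → ZMod 2 × ZMod 2) = (m : S → ZMod 2 × ZMod 2) +
        ψ (x.1 : L) := by
      rintro ⟨_, α, hα, rfl⟩
      obtain ⟨β, hβ, hβ1, k, hk, hk1⟩ := hC2 α hα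
      refine ⟨(⟨β, hβ⟩, ⟨ψ (α * β), k, ?_, hk1, ?_⟩), ?_⟩
      · rw [hk]
        exact hPmul _ _ hα hβ1
      · rw [hk]
      · exact hψ α β hα.ne hβ1.ne
    choose φ hφ using h2
    refine Nat.card_le_card_of_injective φ ?_
    intro m m' he
    have h3 := hφ m
    have h4 := hφ m'
    rw [he] at h3
    rw [h3] at h4
    exact Subtype.ext (add_right_cancel h4)
  obtain ⟨Λ, hIΛ, hΛM, hiso, hΛcard⟩ := hLIN S a M K I hKM hIM hKq hIq hKMq hMcard hKcard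
  rw [Fintype.card_coe] at hΛcard
  refine ⟨Λ, hiso, hΛcard, fun J => ?_, fun J l hl hl0 => ?_⟩
  swap
  · obtain ⟨hlΛ, hlJ, hlJ'⟩ := hl
    obtain ⟨α, hα, rfl⟩ := hΛM hlΛ
    refine ⟨α, hα.ne, hα.nsq, fun h => hl0 (hψs α hα.ne h), ?_, ?_, ?_⟩
    · intro 𝔓 hw h𝔓
      by_cases h : ∀ q ∈ S, 𝔓 ≠ 𝔔 q
      · exact hα.ev 𝔓 hw h
      · push Not at h
        obtain ⟨q, hq, rfl⟩ := h
        refine (hfst α ⟨q, hq⟩).1 ?_
        by_cases hqJ : (⟨q, hq⟩ : S) ∈ J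
        · by_cases hq0 : ψ α ⟨q, hq⟩ = 0
          · rw [hq0]; rfl
          · exact absurd (hpq q hq).2.2.2.1 (h𝔓 ⟨q, hq⟩ hqJ hq0 (hpq q hq).2.1)
        · exact hlJ' _ hqJ
    · intro q hq 𝔓 h𝔓
      exact hsq1 α hα q q.2 hq 𝔓 h𝔓
    · intro q hqJ hq0
      refine ⟨𝔔 q, (hpq q q.2).2.1, fun hs => hq0 ?_⟩
      have h1 : (ψ α q).1 = 0 := hlJ' q hqJ
      have he : Ev (𝔔 (q : ℕ)) α := (hfst α q).1 h1
      exact Prod.ext h1 ((hsnd α q).2 ⟨fun _ => hs, fun h => absurd he h⟩)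
  obtain ⟨J', hJ'd⟩ : ∃ J' : Finset ℕ, J' = J.map (Function.Embedding.subtype _) := ⟨_, rfl⟩
  have hJ'S : J' ⊆ S := by
    intro q hq
    rw [hJ'd, Finset.mem_map] at hq
    obtain ⟨q', -, rfl⟩ := hq
    exact q'.2
  have hJJ : ∀ q : S, (q : ℕ) ∈ J' ↔ q ∈ J := by
    intro q
    rw [hJ'd, Finset.mem_map]
    constructor
    · rintro ⟨q', hq', he⟩
      have : q' = q := Subtype.ext he
      rwa [this] at hq'
    · intro hq
      exact ⟨q, hq, rfl⟩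
  rw [← hJ'd]
  -- the relaxed Selmer group of the twist
  have hconv : ∀ α : L, InR W J' 𝔮 f θ α → InMW W f θ S 𝔔 α ∧
      (∀ q ∈ J, (ψ α q).2 = 0) ∧ ∀ q ∉ J, (ψ α q).1 = 0 := by
    rintro α ⟨hne, hnorm, k1, k2, h, hh, k3, k4⟩
    refine ⟨?_, ?_, ?_⟩
    · refine ⟨hne, hnorm, fun 𝔓 hw h𝔓 => ?_, h, hh, k3, k4⟩
      refine k1 𝔓 hw fun q hq hO => ?_
      rcases (hpq q (hJ'S hq)).2.2.2.2.2 𝔓 hO with rfl | rfl
      · exact (hpq q (hJ'S hq)).2.2.1.ne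
      · exact absurd rfl (h𝔓 q (hJ'S hq))
    · intro q hq
      rw [hsnd]
      exact k2 q ((hJJ q).2 hq) _ (hpq q q.2).2.1 (hpq q q.2).2.2.2.1
    · intro q hq
      rw [hfst]
      refine k1 (𝔔 q) (hWn q q.2 _ (hpq q q.2).2.1) fun q' hq' hO => ?_
      have : q' = (q : ℕ) := huniq q' (hJ'S hq') q q.2 _ hO (hpq q q.2).2.1
      rw [this] at hq'
      exact absurd ((hJJ q).1 hq') hq
  -- the conclusion
  refine ⟨L, inferInstance, inferInstance, inferInstance, θ, hc, fun T hT hTi => ?_⟩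
  have hmem : ∀ x ∈ T, ψ x ∈ LJ Λ J := fun x hx =>
    ⟨hIΛ ⟨_, (hconv x (hT x hx)).1, rfl⟩, (hconv x (hT x hx)).2.1, (hconv x (hT x hx)).2.2⟩
  have h1 : T.card = Nat.card T := by
    rw [Nat.card_eq_fintype_card, Fintype.card_coe]
  rw [h1]
  refine Nat.card_le_card_of_injective
    (fun x : T => (⟨ψ x, hmem x x.2⟩ : {l // l ∈ LJ Λ J})) ?_
  intro x y he
  have h2 : ψ x = ψ y := congrArg (fun z : {l // l ∈ LJ Λ J} => (z : S → ZMod 2 × ZMod 2)) he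
  exact Subtype.ext (hTi x x.2 y y.2 (hinj2 x y (hMP _ (hconv x (hT x x.2)).1)
    (hMP _ (hconv y (hT y y.2)).1) h2))

end Pool.Agent.H18N.COREW
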