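import Pool.Agent.H59W.Base

/-!
# The big prime over `𝔮 q` (project JN)

By helper59, after `N73/PF/Exq.lean` of helper73.
-/

set_option autoImplicit false
set_option linter.all false

open Polynomial IsDedekindDomain WithZero NumberField
open scoped Classical

namespace Pool.Agent.H18N.CSQW

open Pool.Agent.N783.PF
open Pool.Agent.N874.PP (Ev Sq1 U0)
open Pool.Agent.N765.PJ (sq_even val_one)
open Pool.Agent.N73.PF
open Pool.Agent.H59W

/-- **CSQ.** -/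
theorem t (hI : S_INTW) : S_CSQW := by
  intro g W F L _ _ _ _ _ f θ S 𝔮 h P hg hG hsq hS q hqS hcg 𝔓 hov hv
  obtain ⟨hq, hWq, -, h8, -, hprime, hmem𝔮, hm, hdeg, hirr, -⟩ := hS q hqS
  obtain ⟨𝔭, h𝔭⟩ : ∃ 𝔭 : Ideal (𝓞 F), 𝔭 = 𝔮 q := ⟨_, rfl⟩
  rw [← h𝔭] at hprime hmem𝔮 hirr hcg hov ⊢
  have hq0 : (q : 𝓞 F) ≠ 0 := by exact_mod_cast hq.ne_zero
  have hne : 𝔭 ≠ ⊥ := fun h0 => hq0 (by rwa [h0, Ideal.mem_bot] at hmem𝔮)
  have hmax : 𝔭.IsMaximal := hprime.isMaximal hne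
  have hW := W_notMem hprime hq hsq.pos hWq hmem𝔮
  obtain ⟨hbd, hbX⟩ := hbar hmax hg hm hdeg
  obtain ⟨t, ht⟩ := theta_ex hG
  have hfb : rd 𝔭 f = X * rd 𝔭 (h q) := by
    rw [map_eq_of_cg hcg, rd, Polynomial.map_mul, Polynomial.map_X]
  obtain ⟨ψ, hψ⟩ := ex_psiW hI hG hsq ht hmax hW (rd 𝔭 (h q))
    (by rw [hfb]; exact ⟨X, X_mul⟩)
  have htn : t ∉ 𝔓.asIdeal := by
    rw [← ht] at hv
    exact 𝔓.valuation_eq_one_iff_notMem.mp hv
  have hker : 𝔓.asIdeal = RingHom.ker ψ :=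
    eq_kerW hI hG hsq ht hmax hW hirr hψ hov ((mem_or hG ht hcg hov).resolve_left htn)
  obtain ⟨c1, c4⟩ := card_adj hmax hne hirr
  have f3 : Finite (𝓞 F ⧸ 𝔭) := fin_quot hne
  have hκ0 : ((q : ℕ) : 𝓞 F ⧸ 𝔭) = 0 := by
    rw [← map_natCast (Ideal.Quotient.mk 𝔭)]
    exact Ideal.Quotient.eq_zero_iff_mem.2 hmem𝔮
  let iκ : Field (𝓞 F ⧸ 𝔭) := Ideal.Quotient.field _
  obtain ⟨k1, k2, e, ke⟩ := kappa_facts (κ := 𝓞 F ⧸ 𝔭) hq h8 hκ0
  obtain ⟨a1, a2⟩ := adj_facts hg k1 k2 hirr (hm.map _) hbd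
  have hX0 : AdjoinRoot.mk (rd 𝔭 (h q)) X ≠ 0 := by
    rw [Ne, AdjoinRoot.mk_eq_zero]
    exact hbX
  have hder : AdjoinRoot.mk (rd 𝔭 (h q)) (rd 𝔭 (derivative f)) =
      AdjoinRoot.mk (rd 𝔭 (h q)) X * AdjoinRoot.mk (rd 𝔭 (h q)) (derivative (rd 𝔭 (h q))) := by
    have e1 : rd 𝔭 (derivative f) = derivative (rd 𝔭 f) := (derivative_map _ _).symm
    rw [e1, hfb, derivative_mul, derivative_X, one_mul, map_add, map_mul,
      AdjoinRoot.mk_self, zero_add]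
  have hdn : ev t (derivative f) ∉ 𝔓.asIdeal := by
    rw [hker, RingHom.mem_ker, hψ, hder]
    exact fun h0 => hX0 (a1 _ h0)
  have hdL : aeval θ (derivative (fF f)) = algebraMap (𝓞 L) L (ev t (derivative f)) := by
    rw [ev_L ht, fF, fF, derivative_map]
  have hd1 : 𝔓.valuation L (aeval θ (derivative (fF f))) = 1 := by
    rw [hdL]
    exact 𝔓.valuation_eq_one_iff_notMem.mpr hdn
  refine ⟨?_, ?_, hd1, ?_⟩
  · intro c hc
    have hc0 : Ideal.Quotient.mk 𝔭 c ≠ 0 := fun h0 => hc (Ideal.Quotient.eq_zero_iff_mem.1 h0)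
    have i2 : Fact (Irreducible (rd 𝔭 (h q))) := ⟨hirr⟩
    have hsq' : IsSquare (AdjoinRoot.of (rd 𝔭 (h q)) (Ideal.Quotient.mk 𝔭 c)) :=
      sq_even (AdjoinRoot.of (rd 𝔭 (h q))) (g := g) (by rw [c1, hbd]) _ hc0
    obtain ⟨a, ha⟩ := hsq'
    obtain ⟨z, rfl⟩ := psi_surj hψ a
    have h1 : ψ (algebraMap (𝓞 F) (𝓞 L) c - z ^ 2) = 0 := by
      rw [map_sub, map_pow, ← ev_C t c, hψ, rd_C, AdjoinRoot.mk_C, ha]
      ring
    have h2 : algebraMap (𝓞 F) (𝓞 L) c - z ^ 2 ∈ 𝔓.asIdeal := by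
      rw [hker]; exact h1
    have h3 : algebraMap (𝓞 F) (𝓞 L) c ∉ 𝔓.asIdeal := fun h4 => hc ((ov_iff hmax hov c).1 h4)
    refine ⟨algebraMap (𝓞 L) L z, ?_⟩
    rw [← algMap_coe, ← map_pow, ← map_sub, 𝔓.valuation_eq_one_iff_notMem.mpr h3]
    exact (𝔓.valuation_lt_one_iff_mem _).mpr h2
  · refine ⟨e * g, ?_⟩
    rw [hker, Nat.card_congr (RingHom.quotientKerEquivOfSurjective (psi_surj hψ)).toEquiv, c1, hbd,
      ke, ← pow_mul]
    congr 1
    ring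
  · rintro ⟨s, hs⟩
    have hx1 : 𝔓.valuation L (θ * aeval θ (derivative (fF f))) = 1 := by
      rw [map_mul, hv, hd1, one_mul]
    rw [hx1] at hs
    have hxs : s ^ 2 + (θ * aeval θ (derivative (fF f)) - s ^ 2) =
        θ * aeval θ (derivative (fF f)) := by ring
    have hs1 : 𝔓.valuation L s ≤ 1 := by
      by_contra hn
      push Not at hn
      have h1 : 1 < 𝔓.valuation L (s ^ 2) := by
        rw [map_pow]
        exact one_lt_pow₀ hn two_ne_zero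
      have h2 := Valuation.map_add_eq_of_lt_left (𝔓.valuation L) (hs.trans h1)
      rw [hxs, hx1] at h2
      exact h1.ne h2
    obtain ⟨z, hz⟩ := 𝔓.exists_valuation_sub_lt_of_integer hs1 1
    rw [Units.val_one] at hz
    have hz1 : 𝔓.valuation L (algebraMap (𝓞 L) L z) ≤ 1 := 𝔓.valuation_le_one z
    have h3 : 𝔓.valuation L (θ * aeval θ (derivative (fF f)) - algebraMap (𝓞 L) L z ^ 2) < 1 := by
      have e1 : θ * aeval θ (derivative (fF f)) - algebraMap (𝓞 L) L z ^ 2 =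
          (θ * aeval θ (derivative (fF f)) - s ^ 2) -
            (algebraMap (𝓞 L) L z - s) * (algebraMap (𝓞 L) L z + s) := by ring
      rw [e1]
      refine Valuation.map_sub_lt _ hs ?_
      rw [map_mul]
      have h4 : 𝔓.valuation L (algebraMap (𝓞 L) L z + s) ≤ 1 :=
        Valuation.map_add_le _ hz1 hs1
      calc _ ≤ 𝔓.valuation L (algebraMap (𝓞 L) L z - s) * 1 := mul_le_mul_right h4 _
        _ < 1 := by rw [mul_one]; exact hz
    have h5 : t * ev t (derivative f) - z ^ 2 ∈ 𝔓.asIdeal := by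
      have h4 : 𝔓.valuation L (algebraMap (𝓞 L) L (t * ev t (derivative f) - z ^ 2)) < 1 := by
        rw [map_sub, map_mul, map_pow, ht, ← hdL]
        exact h3
      exact (𝔓.valuation_lt_one_iff_mem _).mp h4
    rw [hker, RingHom.mem_ker, map_sub, map_mul, map_pow, hψ, hder, sub_eq_zero] at h5
    have h6 : ψ t = AdjoinRoot.mk (rd 𝔭 (h q)) X := by
      rw [← ev_X (F := F) t, hψ, rd_X]
    rw [h6, ← mul_assoc, ← sq] at h5
    exact hX0 (a2 _ _ h5)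

end Pool.Agent.H18N.CSQW
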