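import Pool.Agent.H59W.Base

/-!
# The two primes over `𝔮 q` (project JN)

By helper59, after `N73/PF/Exq.lean` of helper73.
-/

set_option autoImplicit false
set_option linter.all false

open Polynomial IsDedekindDomain WithZero NumberField
open scoped Classical

namespace Pool.Agent.H18N.EXQW

open Pool.Agent.N783.PF
open Pool.Agent.N874.PP (Ev Sq1 U0)
open Pool.Agent.N765.PJ (sq_even val_one)
open Pool.Agent.N73.PF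
open Pool.Agent.H59W

/-- **EXQ.** -/
theorem t (hI : S_INTW) : S_EXQW := by
  intro g W F L _ _ _ _ _ f θ S 𝔮 h P hg hG hsq hS q hqS hcg
  obtain ⟨hq, hWq, -, -, hur, hprime, hmem𝔮, hm, hdeg, hirr, -⟩ := hS q hqS
  obtain ⟨𝔭, h𝔭⟩ : ∃ 𝔭 : Ideal (𝓞 F), 𝔭 = 𝔮 q := ⟨_, rfl⟩
  rw [← h𝔭] at hprime hmem𝔮 hirr hcg ⊢
  have hq0 : (q : 𝓞 F) ≠ 0 := by exact_mod_cast hq.ne_zero
  have hne : 𝔭 ≠ ⊥ := fun h0 => hq0 (by rwa [h0, Ideal.mem_bot] at hmem𝔮)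
  have hmax : 𝔭.IsMaximal := hprime.isMaximal hne
  have hq2 : (q : 𝓞 F) ∉ 𝔭 ^ 2 := hur 𝔭 hprime
  have hW := W_notMem hprime hq hsq.pos hWq hmem𝔮
  obtain ⟨hbd, hbX⟩ := hbar hmax hg hm hdeg
  obtain ⟨t, ht⟩ := theta_ex hG
  have hfb : rd 𝔭 f = X * rd 𝔭 (h q) := by
    rw [map_eq_of_cg hcg, rd, Polynomial.map_mul, Polynomial.map_X]
  have hQ0 : (q : 𝓞 L) ≠ 0 := by exact_mod_cast hq.ne_zero
  obtain ⟨ψ₁, hψ₁⟩ := ex_psiW hI hG hsq ht hmax hW (rd 𝔭 (X : (𝓞 F)[X]))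
    (by rw [hfb, rd, Polynomial.map_X]; exact Dvd.intro _ rfl)
  obtain ⟨ψ₂, hψ₂⟩ := ex_psiW hI hG hsq ht hmax hW (rd 𝔭 (h q))
    (by rw [hfb]; exact ⟨X, X_mul⟩)
  have hirX := irrX hmax
  have hm1 := ker_max hmax hirX hψ₁
  have hm2 := ker_max hmax hirr hψ₂
  have hrdQ : ∀ a ∈ 𝔭, rd 𝔭 (C a) = 0 := by
    intro a ha
    rw [rd_C, Ideal.Quotient.eq_zero_iff_mem.2 ha, C_0]
  have q1 : ∀ a ∈ 𝔭, algebraMap (𝓞 F) (𝓞 L) a ∈ RingHom.ker ψ₁ := by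
    intro a ha
    rw [RingHom.mem_ker, ← ev_C t, hψ₁, hrdQ a ha, map_zero]
  have q2 : ∀ a ∈ 𝔭, algebraMap (𝓞 F) (𝓞 L) a ∈ RingHom.ker ψ₂ := by
    intro a ha
    rw [RingHom.mem_ker, ← ev_C t, hψ₂, hrdQ a ha, map_zero]
  have hqq : algebraMap (𝓞 F) (𝓞 L) (q : 𝓞 F) = (q : 𝓞 L) := map_natCast _ q
  have hb1 : RingHom.ker ψ₁ ≠ ⊥ := fun h0 => hQ0 (by
    have := q1 _ hmem𝔮
    rwa [h0, Ideal.mem_bot, hqq] at this)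
  have hb2 : RingHom.ker ψ₂ ≠ ⊥ := fun h0 => hQ0 (by
    have := q2 _ hmem𝔮
    rwa [h0, Ideal.mem_bot, hqq] at this)
  let 𝔓₁ : HeightOneSpectrum (𝓞 L) := ⟨RingHom.ker ψ₁, hm1.isPrime, hb1⟩
  let 𝔓₂ : HeightOneSpectrum (𝓞 L) := ⟨RingHom.ker ψ₂, hm2.isPrime, hb2⟩
  have ov1 : Ov 𝔭 𝔓₁ := q1
  have ov2 : Ov 𝔭 𝔓₂ := q2
  have ht1 : t ∈ 𝔓₁.asIdeal := by
    show t ∈ RingHom.ker ψ₁
    rw [RingHom.mem_ker, ← ev_X (F := F) t, hψ₁]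
    exact AdjoinRoot.mk_eq_zero.2 dvd_rfl
  have ht2 : t ∉ 𝔓₂.asIdeal := by
    show t ∉ RingHom.ker ψ₂
    rw [RingHom.mem_ker, ← ev_X (F := F) t, hψ₂, AdjoinRoot.mk_eq_zero, rd_X]
    exact hbX
  have hprod : ∀ I : Ideal (𝓞 L), (∀ a ∈ 𝔭, algebraMap (𝓞 F) (𝓞 L) a ∈ I) →
      𝔓₁.asIdeal * 𝔓₂.asIdeal ≤ I := by
    intro I hI'
    rw [Ideal.mul_le]
    intro x hx y hy
    obtain ⟨p, hp⟩ := ev_surjW hI hG hsq ht x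
    obtain ⟨p', hp'⟩ := ev_surjW hI hG hsq ht y
    have hx : ev t p ∈ RingHom.ker ψ₁ := by
      rw [hp]
      exact Ideal.mul_mem_left _ _ hx
    have hy : ev t p' ∈ RingHom.ker ψ₂ := by
      rw [hp']
      exact Ideal.mul_mem_left _ _ hy
    rw [RingHom.mem_ker, hψ₁, AdjoinRoot.mk_eq_zero, rd_X] at hx
    rw [RingHom.mem_ker, hψ₂, AdjoinRoot.mk_eq_zero] at hy
    have hWW : (W : 𝓞 L) * (W : 𝓞 L) * (x * y) ∈ I := by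
      have e1 : (W : 𝓞 L) * (W : 𝓞 L) * (x * y) = ev t (p * p') := by
        rw [map_mul, hp, hp']
        ring
      rw [e1]
      refine mem_of_dvd (m := f) hI' ?_ ?_
      · rw [ev_f hG ht]
        exact Ideal.zero_mem _
      · rw [hfb, rd_mul]
        exact mul_dvd_mul hx hy
    obtain ⟨c, hc⟩ := inv_W hmax hW
    have hc' : algebraMap (𝓞 F) (𝓞 L) c * (W : 𝓞 L) - 1 ∈ I := by
      have := hI' _ hc
      rwa [map_sub, map_mul, map_one, map_natCast] at this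
    have e2 : x * y = algebraMap (𝓞 F) (𝓞 L) c ^ 2 * ((W : 𝓞 L) * (W : 𝓞 L) * (x * y)) -
        (algebraMap (𝓞 F) (𝓞 L) c * (W : 𝓞 L) - 1) *
          ((algebraMap (𝓞 F) (𝓞 L) c * (W : 𝓞 L) + 1) * (x * y)) := by ring
    rw [e2]
    exact I.sub_mem (I.mul_mem_left _ hWW) (I.mul_mem_right _ hc')
  have hvt : 𝔓₂.valuation L θ = 1 := by
    rw [← ht]
    exact 𝔓₂.valuation_eq_one_iff_notMem.mpr ht2
  have hqL : (q : L) = algebraMap (𝓞 L) L (q : 𝓞 L) := by rw [map_natCast]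
  refine ⟨𝔓₁, 𝔓₂, ov1, ov2, ?_, hvt, ?_, ?_, ?_⟩
  · rw [← ht]
    exact (𝔓₁.valuation_lt_one_iff_mem _).mpr ht1
  · rw [hqL]
    refine val_one hQ0 (by rw [← hqq]; exact ov1 _ hmem𝔮) fun hmem => ?_
    rw [← hqq] at hmem
    have h1 : 𝔓₁.asIdeal * 𝔓₂.asIdeal ≤ 𝔓₁.asIdeal ^ 2 :=
      hprod _ (sq_mem hmax hmem𝔮 hq2 ov1 hmem)
    rw [← Ideal.dvd_iff_le, sq] at h1
    have h2 : 𝔓₁.asIdeal ∣ 𝔓₂.asIdeal := (mul_dvd_mul_iff_left (a := 𝔓₁.asIdeal) hb1).mp h1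
    rw [Ideal.dvd_iff_le] at h2
    have h3 := hm2.eq_of_le 𝔓₁.isPrime.ne_top h2
    apply ht2
    show t ∈ RingHom.ker ψ₂
    rw [h3]
    exact ht1
  · rw [hqL]
    refine val_one hQ0 (by rw [← hqq]; exact ov2 _ hmem𝔮) fun hmem => ?_
    rw [← hqq] at hmem
    have h1 : 𝔓₁.asIdeal * 𝔓₂.asIdeal ≤ 𝔓₂.asIdeal ^ 2 :=
      hprod _ (sq_mem hmax hmem𝔮 hq2 ov2 hmem)
    rw [← Ideal.dvd_iff_le, sq] at h1
    have h2 : 𝔓₂.asIdeal ∣ 𝔓₁.asIdeal := (mul_dvd_mul_iff_right (a := 𝔓₂.asIdeal) hb2).mp h1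
    rw [Ideal.dvd_iff_le] at h2
    exact ht2 (h2 ht1)
  · intro 𝔓 hov
    rcases mem_or hG ht hcg hov with hmm | hmm
    · left
      apply HeightOneSpectrum.ext
      exact eq_kerW hI hG hsq ht hmax hW hirX hψ₁ hov (by rw [ev_X]; exact hmm)
    · right
      apply HeightOneSpectrum.ext
      exact eq_kerW hI hG hsq ht hmax hW hirr hψ₂ hov hmm

end Pool.Agent.H18N.EXQW
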