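import Pool.Agent.H18N.Stm
import Pool.Agent.H18PR.Exv

/-!
# Project JN, part EXVW: many primes `1` modulo `8 W` of size `Q` and of size `Q ^ 2`
-/

set_option autoImplicit false
set_option linter.all false

open scoped Classical

namespace Pool.Agent.H18N.EXVW

section num

open Finset Filter Topology
open Pool.Agent.H131DG (cls cls_le_primes)

/-- The primes larger than `M` which are `1` modulo `P`. -/
def TQ (P M n : ℕ) : Prop := n.Prime ∧ M < n ∧ n ≡ 1 [MOD P]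

/-- the primes in the interval -/
noncomputable def NV (P M : ℕ) (η : ℝ) (Q : ℕ) : Finset ℕ :=
  (Icc Q ⌊(1 + η) * Q⌋₊).filter (TQ P M)

theorem cls_tendsto (P : ℕ) (hP : 0 < P) :
    Tendsto (fun x : ℝ => cls P ⌊x⌋₊ / x) atTop (𝓝 ((P.totient : ℝ)⁻¹)) := by
  have : NeZero P := ⟨hP.ne'⟩
  exact Pool.Agent.Helper923.H403.PNT602.pnt_residueClass (q := P) (a := 1) isUnit_one

theorem card_lower (P : ℕ) (hP : 0 < P) (M : ℕ) {η : ℝ} (h0 : 0 < η) (h1 : η ≤ 1) :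
    ∃ X₀ : ℕ, ∀ Q : ℕ, X₀ ≤ Q → Real.sqrt Q ≤ ((NV P M η Q).card : ℝ) := by
  obtain ⟨C, hC⟩ := Chebyshev.psi_sub_theta_le_mul_sqrt
  have hη1 : (0 : ℝ) < 1 + η := by linarith
  have hφ : (0 : ℝ) < (P.totient : ℝ) := by exact_mod_cast Nat.totient_pos.2 hP
  obtain ⟨c, hc⟩ : ∃ c : ℝ, c = (P.totient : ℝ)⁻¹ := ⟨_, rfl⟩
  have hc0 : 0 < c := by rw [hc]; positivity
  have hcls := cls_tendsto P hP
  rw [← hc] at hcls
  obtain ⟨κ, hκ⟩ : ∃ κ : ℝ, κ = η * c / 4 := ⟨_, rfl⟩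
  have hκ0 : 0 < κ := by rw [hκ]; positivity
  -- the first limit
  have a1 : Tendsto (fun x : ℝ => cls P ⌊(1 + η) * x⌋₊ / x) atTop (𝓝 ((1 + η) * c)) := by
    have h2 : Tendsto (fun x : ℝ => (1 + η) * x) atTop atTop := tendsto_id.const_mul_atTop hη1
    have h3 := (hcls.comp h2).const_mul (1 + η)
    refine h3.congr' ?_
    filter_upwards [eventually_gt_atTop (0 : ℝ)] with x hx
    simp only [Function.comp]
    field_simp
  have a2 : Tendsto (fun x : ℝ => (cls P ⌊(1 + η) * x⌋₊ - cls P ⌊x⌋₊) / x) atTop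
      (𝓝 (η * c)) := by
    have h3 := a1.sub hcls
    have h4 : (1 + η) * c - c = η * c := by ring
    rw [h4] at h3
    refine h3.congr fun x => ?_
    rw [sub_div]
  have a3 : Tendsto (fun x : ℝ => (2 * |C|) * (Real.sqrt x)⁻¹) atTop (𝓝 0) := by
    have := (tendsto_inv_atTop_zero.comp Real.tendsto_sqrt_atTop).const_mul (2 * |C|)
    simpa [Function.comp_def] using this
  have a4 : Tendsto (fun x : ℝ => (Real.log (2 * x)) * (Real.sqrt x)⁻¹) atTop (𝓝 0) := by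
    have h3 : Tendsto (fun x : ℝ => Real.log x / x ^ (1 / 2 : ℝ)) atTop (𝓝 0) :=
      (isLittleO_log_rpow_atTop (by norm_num)).tendsto_div_nhds_zero
    have h4 : Tendsto (fun x : ℝ => Real.log 2 * (Real.sqrt x)⁻¹) atTop (𝓝 0) := by
      have := (tendsto_inv_atTop_zero.comp Real.tendsto_sqrt_atTop).const_mul (Real.log 2)
      simpa [Function.comp_def] using this
    have h5 := h4.add h3
    rw [add_zero] at h5
    refine h5.congr' ?_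
    filter_upwards [eventually_gt_atTop (0 : ℝ)] with x hx
    rw [Real.log_mul (by norm_num) hx.ne', ← Real.sqrt_eq_rpow]
    ring
  have b1 := a2.eventually (lt_mem_nhds (show 2 * κ < η * c by rw [hκ]; nlinarith [mul_pos h0 hc0]))
  have b2 := a3.eventually (gt_mem_nhds hκ0)
  have b3 := a4.eventually (gt_mem_nhds hκ0)
  obtain ⟨x₀, hx₀⟩ := eventually_atTop.1 (b1.and (b2.and (b3.and (eventually_ge_atTop (1 : ℝ)))))
  obtain ⟨n₀, hn₀⟩ := exists_nat_ge x₀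
  refine ⟨max n₀ M, fun Q hQ => ?_⟩
  have hQn : n₀ ≤ Q := (le_max_left _ _).trans hQ
  have hQM : M ≤ Q := (le_max_right _ _).trans hQ
  obtain ⟨c1, c2, c3, c4⟩ := hx₀ Q (hn₀.trans (by exact_mod_cast hQn))
  have hQ0 : (0 : ℝ) < Q := by linarith
  have hs : 0 < Real.sqrt Q := Real.sqrt_pos.2 hQ0
  have hss : Real.sqrt Q * Real.sqrt Q = Q := Real.mul_self_sqrt hQ0.le
  rw [lt_div_iff₀ hQ0, Nat.floor_natCast] at c1
  have hN1 : (⌊(1 + η) * (Q : ℝ)⌋₊ : ℝ) ≤ (1 + η) * Q := Nat.floor_le (by positivity)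
  have hN2 : (⌊(1 + η) * (Q : ℝ)⌋₊ : ℝ) ≤ 2 * Q := hN1.trans (by nlinarith)
  have hN0 : Q ≤ ⌊(1 + η) * (Q : ℝ)⌋₊ := Nat.le_floor (by nlinarith)
  have hN0' : (Q : ℝ) ≤ ⌊(1 + η) * (Q : ℝ)⌋₊ := by exact_mod_cast hN0
  obtain ⟨N, hN⟩ : ∃ N : ℕ, N = ⌊(1 + η) * (Q : ℝ)⌋₊ := ⟨_, rfl⟩
  rw [← hN] at hN1 hN2 hN0 hN0' c1
  have d1 := cls_le_primes P N Q
  have d2 : Chebyshev.psi N - Chebyshev.theta N ≤ κ * Q := by
    have e1 : Real.sqrt N ≤ 2 * Real.sqrt Q := by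
      have e2 : Real.sqrt N ≤ Real.sqrt (4 * Q) := Real.sqrt_le_sqrt (by linarith)
      have e3 : Real.sqrt (4 * Q) = 2 * Real.sqrt Q := by
        rw [Real.sqrt_mul (by norm_num)]
        congr 1
        rw [show (4 : ℝ) = 2 ^ 2 by norm_num, Real.sqrt_sq (by norm_num)]
      rw [e3] at e2
      exact e2
    calc Chebyshev.psi N - Chebyshev.theta N ≤ C * Real.sqrt N := hC N
      _ ≤ |C| * (2 * Real.sqrt Q) := by
          have := le_abs_self C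
          have := abs_nonneg C
          have := Real.sqrt_nonneg (N : ℝ)
          gcongr
      _ = ((2 * |C|) * (Real.sqrt Q)⁻¹) * (Real.sqrt Q * Real.sqrt Q) := by field_simp
      _ ≤ κ * Q := by
          rw [hss]
          exact mul_le_mul_of_nonneg_right c2.le hQ0.le
  have d3 : ((Icc 1 N).filter (fun q => q.Prime ∧ Q < q ∧ q ≡ 1 [MOD P])).card ≤
      (NV P M η Q).card := by
    apply card_le_card
    intro q hq
    rw [mem_filter, mem_Icc] at hq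
    rw [NV, mem_filter, mem_Icc, ← hN]
    obtain ⟨⟨e1, e2⟩, e3, e4, e5⟩ := hq
    refine ⟨⟨e4.le, e2⟩, e3, hQM.trans_lt e4, e5⟩
  have d3' : (((Icc 1 N).filter (fun q => q.Prime ∧ Q < q ∧ q ≡ 1 [MOD P])).card : ℝ) ≤
      (NV P M η Q).card := by exact_mod_cast d3
  have d4 : Real.log N ≤ Real.log (2 * Q) := Real.log_le_log (by linarith) hN2
  have d5 : 0 ≤ Real.log N := Real.log_natCast_nonneg N
  have d6 : κ * Q ≤ ((NV P M η Q).card : ℝ) * Real.log (2 * Q) := by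
    have e1 : (((Icc 1 N).filter (fun q => q.Prime ∧ Q < q ∧ q ≡ 1 [MOD P])).card : ℝ) *
        Real.log N ≤ ((NV P M η Q).card : ℝ) * Real.log (2 * Q) :=
      mul_le_mul d3' d4 d5 (Nat.cast_nonneg _)
    linarith
  have d7 : Real.log (2 * Q) ≤ κ * Real.sqrt Q := by
    have e1 : Real.log (2 * Q) = (Real.log (2 * Q) * (Real.sqrt Q)⁻¹) * Real.sqrt Q := by
      field_simp
    rw [e1]
    exact mul_le_mul_of_nonneg_right c3.le hs.le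
  have d8 : κ * (Real.sqrt Q * Real.sqrt Q) ≤
      ((NV P M η Q).card : ℝ) * (κ * Real.sqrt Q) := by
    rw [hss]
    exact d6.trans (mul_le_mul_of_nonneg_left d7 (Nat.cast_nonneg _))
  have d9 : (0 : ℝ) < κ * Real.sqrt Q := by positivity
  refine le_of_mul_le_mul_right ?_ d9
  calc Real.sqrt Q * (κ * Real.sqrt Q) = κ * (Real.sqrt Q * Real.sqrt Q) := by ring
    _ ≤ _ := d8

/-- the parameters -/
theorem exists_SRV (P : ℕ) (hP : 0 < P) (M i m : ℕ) {η : ℝ} (h0 : 0 < η) : ∃ (S R : Finset ℕ) (Q : ℕ),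
    Disjoint S R ∧ (∀ q ∈ S ∪ R, TQ P M q) ∧ m ≤ S.card ∧ (∀ q ∈ S ∪ R, q ≤ S.card ^ 8) ∧ 0 < Q ∧
    (∀ q ∈ S, Q ≤ q ∧ (q : ℝ) ≤ (1 + η) * Q) ∧
    (∀ q ∈ R, Q ^ 2 ≤ q ∧ (q : ℝ) ≤ (1 + η) * Q ^ 2) ∧
    S.card.choose (i + 2) = R.card * S.card.choose i := by
  obtain ⟨η', hη', hη'0, hη'1⟩ : ∃ η' : ℝ, η' ≤ η ∧ 0 < η' ∧ η' ≤ 1 :=
    ⟨min η 1, min_le_left _ _, lt_min h0 one_pos, min_le_right _ _⟩
  obtain ⟨X₀, hX₀⟩ := card_lower P hP M hη'0 hη'1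
  obtain ⟨s, hs⟩ : ∃ s : ℕ, s = X₀ + m + 2 := ⟨_, rfl⟩
  obtain ⟨n, hn⟩ : ∃ n : ℕ, n = i + (i + 1) * (i + 2) * s := ⟨_, rfl⟩
  have hsn : 2 * s ≤ n := by
    have h1 : 2 ≤ (i + 1) * (i + 2) := by nlinarith
    have h2 := Nat.mul_le_mul_right s h1
    rw [hn]
    omega
  have hn2 : 4 ≤ n := by omega
  have hnn : n ≤ n ^ 2 := by nlinarith
  have hn4 : n ^ 2 ≤ (n ^ 2) ^ 2 := by nlinarith
  have hNV : ∀ Q : ℕ, ∀ q ∈ NV P M η' Q, TQ P M q ∧ Q ≤ q ∧ (q : ℝ) ≤ (1 + η') * Q := by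
    intro Q q hq
    rw [NV, mem_filter, mem_Icc, Nat.le_floor_iff (by positivity)] at hq
    exact ⟨hq.2, hq.1.1, hq.1.2⟩
  have c1 : n ≤ (NV P M η' (n ^ 2)).card := by
    have h1 := hX₀ (n ^ 2) (by omega)
    rw [Nat.cast_pow, Real.sqrt_sq (Nat.cast_nonneg _)] at h1
    exact_mod_cast h1
  have c2 : n ^ 2 ≤ (NV P M η' ((n ^ 2) ^ 2)).card := by
    have h1 := hX₀ ((n ^ 2) ^ 2) (by omega)
    rw [Nat.cast_pow, Real.sqrt_sq (Nat.cast_nonneg _)] at h1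
    exact_mod_cast h1
  have c3 : s * ((i + 1) * (i + 2) * s - 1) ≤ n ^ 2 := by
    have h1 : (i + 1) * (i + 2) * s - 1 ≤ n := by rw [hn]; omega
    have h2 : s ≤ n := by omega
    calc s * ((i + 1) * (i + 2) * s - 1) ≤ n * n := Nat.mul_le_mul h2 h1
      _ = n ^ 2 := by ring
  obtain ⟨S, hS, hSc⟩ := Finset.exists_subset_card_eq c1
  obtain ⟨R, hR, hRc⟩ := Finset.exists_subset_card_eq (c3.trans c2)
  have hS2 : ∀ q ∈ S, TQ P M q ∧ n ^ 2 ≤ q ∧ q ≤ 2 * n ^ 2 := by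
    intro q hq
    obtain ⟨h1, h2, h3⟩ := hNV _ q (hS hq)
    refine ⟨h1, h2, ?_⟩
    have h4 : (q : ℝ) ≤ 2 * (n ^ 2 : ℕ) := h3.trans (by gcongr; linarith)
    exact_mod_cast h4
  have hR2 : ∀ q ∈ R, TQ P M q ∧ (n ^ 2) ^ 2 ≤ q ∧ q ≤ 2 * (n ^ 2) ^ 2 := by
    intro q hq
    obtain ⟨h1, h2, h3⟩ := hNV _ q (hR hq)
    refine ⟨h1, h2, ?_⟩
    have h4 : (q : ℝ) ≤ 2 * ((n ^ 2) ^ 2 : ℕ) := h3.trans (by gcongr; linarith)
    exact_mod_cast h4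
  have e1 : 16 ≤ n ^ 2 := by nlinarith
  have e2 : 2 * n ^ 2 < (n ^ 2) ^ 2 := by nlinarith
  have e3 : 2 * (n ^ 2) ^ 2 ≤ n ^ 8 := by
    have h1 : n ^ 8 = (n ^ 2) ^ 2 * (n ^ 2) ^ 2 := by ring
    rw [h1]
    have h2 : 2 ≤ (n ^ 2) ^ 2 := by omega
    exact Nat.mul_le_mul_right _ h2
  refine ⟨S, R, n ^ 2, ?_, ?_, ?_, ?_, by positivity, ?_, ?_, ?_⟩
  · rw [Finset.disjoint_left]
    intro q hq hq'
    have := (hS2 q hq).2.2
    have := (hR2 q hq').2.1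
    omega
  · intro q hq
    rcases Finset.mem_union.1 hq with h | h
    · exact (hS2 q h).1
    · exact (hR2 q h).1
  · rw [hSc]; omega
  · intro q hq
    rw [hSc]
    rcases Finset.mem_union.1 hq with h | h
    · have := (hS2 q h).2.2
      omega
    · have := (hR2 q h).2.2
      omega
  · intro q hq
    obtain ⟨h1, h2, h3⟩ := hNV _ q (hS hq)
    exact ⟨h2, h3.trans (by gcongr)⟩
  · intro q hq
    obtain ⟨h1, h2, h3⟩ := hNV _ q (hR hq)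
    refine ⟨h2, h3.trans ?_⟩
    push_cast
    gcongr
  · rw [hSc, hRc, hn]
    exact Pool.Agent.H18PR.choose_id i s (by omega)

end num

open Polynomial NumberField
open Pool.Agent.N783.PF

/-- EXVW -/
theorem t : Pool.Agent.H18N.S_EXVW := by
  intro g F _ _ hg W i m η hW hη
  obtain ⟨S, R, Q, hdis, hS1, hm, h3, hQ, h4, h5, h6⟩ :=
    exists_SRV (8 * W) (by omega) (W + (2 * g + 1) + (discr F).natAbs) i m hη
  have hS2 : ∀ q ∈ S ∪ R, q.Prime ∧ W + (2 * g + 1) + (discr F).natAbs < q ∧ q % 8 = 1 := by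
    intro q hq
    obtain ⟨h1, h2, h3⟩ := hS1 q hq
    refine ⟨h1, h2, ?_⟩
    have h4 : q ≡ 1 [MOD 8] := h3.of_dvd (Dvd.intro _ rfl)
    unfold Nat.ModEq at h4
    omega
  have hS3 : ∀ q ∈ S ∪ R, q ≡ 1 [MOD W] := by
    intro q hq
    exact (hS1 q hq).2.2.of_dvd (Dvd.intro_left _ rfl)
  have hdata : ∀ q : ℕ, ∃ (𝔮 : Ideal (𝓞 F)) (h A : (𝓞 F)[X]), q ∈ S ∪ R →
    (∀ 𝔭 : Ideal (𝓞 F), 𝔭.IsPrime → (q : 𝓞 F) ∉ 𝔭 ^ 2) ∧
    𝔮.IsPrime ∧ (q : 𝓞 F) ∈ 𝔮 ∧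
    h.Monic ∧ h.natDegree = 2 * g ∧ Irreducible (rd 𝔮 h) ∧
    A.Monic ∧ A.natDegree = 2 * g + 1 ∧ A.coeff (2 * g) = 0 ∧
    Cg 𝔮 A (X * h) ∧
    ∀ 𝔭 : Ideal (𝓞 F), 𝔭.IsPrime → (q : 𝓞 F) ∈ 𝔭 → 𝔭 ≠ 𝔮 → Irreducible (rd 𝔭 A) := by
    intro q
    by_cases hq : q ∈ S ∪ R
    · obtain ⟨h1, h2, h3⟩ := hS2 q hq
      obtain ⟨𝔮, h, A, hh⟩ := Pool.Agent.N710.PF.exists_data F g q hg h1 (by omega) (by omega)
      exact ⟨𝔮, h, A, fun _ => hh⟩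
    · exact ⟨⊥, 0, 0, fun h => absurd h hq⟩
  choose 𝔮 h A hh using hdata
  refine ⟨S, R, 𝔮, h, A, Q, hdis, fun q hq => ?_, hS3, hm, h3, hQ, h4, h5, h6⟩
  obtain ⟨h1, h2, h3⟩ := hS2 q hq
  exact ⟨h1, by omega, by omega, h3, hh q hq⟩

end Pool.Agent.H18N.EXVW
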