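import Pool.Agent.H59W.Base
import Pool.Agent.N849.PF.Hq

/-!
# Project JN, stub HQW (adaptation of `N849/PF/Hq.lean`): the invariant at `q` in `S`
-/

set_option autoImplicit false
set_option linter.all false

open Polynomial IsDedekindDomain Matrix NumberField
open scoped Classical

namespace Pool.Agent.H18N.HQW

open Pool.Agent.N783.PF
open Pool.Agent.N874.PP (Ev Sq1 U0)
open Pool.Agent.N783.PQ (tp Gm)
open Pool.Agent.N849.PF

section gen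

variable {F L : Type} [Field F] [NumberField F] [Field L] [NumberField L] [Algebra F L]
  {g W : ℕ} {f : (𝓞 F)[X]} {θ : L}

theorem surjW (hI : S_INTW) (hG : IsGen g f θ) (hsq : SqW g W f) {θ' : 𝓞 L}
    (hθ' : algebraMap (𝓞 L) L θ' = θ) (x : 𝓞 L) :
    ∃ P : (𝓞 F)[X], P.degree < ((2 * g + 1 : ℕ) : WithBot ℕ) ∧ aeval θ' P = (W : 𝓞 L) * x := by
  obtain ⟨v, hv⟩ := hI g W F L f θ hG hsq (x : L) x.2
  refine ⟨∑ i : Fin (2 * g + 1), C (v i) * X ^ (i : ℕ), degree_sum_fin_lt _, ?_⟩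
  apply RingOfIntegers.coe_injective
  have e : algebraMap (𝓞 L) L (aeval θ' (∑ i : Fin (2 * g + 1), C (v i) * X ^ (i : ℕ))) =
      aeval θ (∑ i : Fin (2 * g + 1), C (v i) * X ^ (i : ℕ)) := by
    rw [← hθ', aeval_algebraMap_apply]
  have hv' : algebraMap (𝓞 L) L ((W : 𝓞 L) * x) = ∑ i, algebraMap F L (v i : F) * θ ^ (i : ℕ) := by
    rw [map_mul, map_natCast]
    exact hv
  rw [e, hv', map_sum]
  refine Finset.sum_congr rfl fun i _ => ?_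
  rw [map_mul, aeval_C, map_pow, aeval_X]
  rfl

/-- `W z` for `z` in the ideal generated by `𝔞` -/
theorem memW (hI : S_INTW) (hG : IsGen g f θ) (hsq : SqW g W f) {θ' : 𝓞 L}
    (hθ' : algebraMap (𝓞 L) L θ' = θ) {𝔞 : Ideal (𝓞 F)} {z : 𝓞 L}
    (hz : z ∈ 𝔞.map (algebraMap (𝓞 F) (𝓞 L))) :
    ∀ r : 𝓞 L, ∃ P : (𝓞 F)[X], (∀ n, P.coeff n ∈ 𝔞) ∧ aeval θ' P = (W : 𝓞 L) * (r * z) := by
  rw [Ideal.map] at hz
  induction hz using Submodule.span_induction with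
  | mem x hx =>
    obtain ⟨b, hb, rfl⟩ := hx
    intro r
    obtain ⟨P, -, hP⟩ := surjW hI hG hsq hθ' r
    refine ⟨P * C b, fun n => ?_, ?_⟩
    · rw [coeff_mul_C]
      exact 𝔞.mul_mem_left _ hb
    · rw [map_mul, hP, aeval_C]
      ring
  | zero =>
    intro r
    exact ⟨0, fun n => by rw [coeff_zero]; exact 𝔞.zero_mem, by rw [map_zero, mul_zero, mul_zero]⟩
  | add x y _ _ hx hy =>
    intro r
    obtain ⟨P, hP1, hP2⟩ := hx r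
    obtain ⟨Q, hQ1, hQ2⟩ := hy r
    refine ⟨P + Q, fun n => by rw [coeff_add]; exact 𝔞.add_mem (hP1 n) (hQ1 n), ?_⟩
    rw [map_add, hP2, hQ2]
    ring
  | smul a x _ hx =>
    intro r
    obtain ⟨P, hP1, hP2⟩ := hx (r * a)
    refine ⟨P, hP1, ?_⟩
    rw [hP2, smul_eq_mul]
    ring

theorem unramW (hI : S_INTW) (hG : IsGen g f θ) (hsq : SqW g W f) {𝔭 : Ideal (𝓞 F)} (h𝔭 : 𝔭.IsPrime)
    (h𝔭0 : 𝔭 ≠ ⊥) (hW : (W : 𝓞 F) ∉ 𝔭) (hirr : Irreducible (rd 𝔭 f)) {𝔓 : HeightOneSpectrum (𝓞 L)}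
    (hO : Ov 𝔭 𝔓) {a : 𝓞 F} (ha : a ∉ 𝔭 ^ 2) : algebraMap (𝓞 F) (𝓞 L) a ∉ 𝔓.asIdeal ^ 2 := by
  haveI := fin hG
  haveI h𝔭m : 𝔭.IsMaximal := h𝔭.isMaximal h𝔭0
  obtain ⟨c, hc⟩ := Pool.Agent.H59W.inv_W h𝔭m hW
  obtain ⟨θ', hθ'⟩ : ∃ θ' : 𝓞 L, algebraMap (𝓞 L) L θ' = θ :=
    ⟨⟨θ, Pool.Agent.N459.PF.theta_int hG⟩, rfl⟩
  intro hmem
  apply ha
  have h1 : 𝔓.asIdeal ≤ 𝔭.map (algebraMap (𝓞 F) (𝓞 L)) := by
    intro x hx
    obtain ⟨P, hP1, hP2⟩ := surjW hI hG hsq hθ' x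
    have hx' : aeval θ' P ∈ 𝔓.asIdeal := by
      rw [hP2]
      exact 𝔓.asIdeal.mul_mem_left _ hx
    have h2 := inert hG hθ' h𝔭 h𝔭0 hirr hO hP1 hx'
    have h3 : (W : 𝓞 L) * x ∈ 𝔭.map (algebraMap (𝓞 F) (𝓞 L)) := by
      rw [← hP2, aeval_eq_sum_range]
      refine Ideal.sum_mem _ fun i _ => ?_
      rw [Algebra.smul_def]
      exact Ideal.mul_mem_right _ _ (Ideal.mem_map_of_mem _ (h2 i))
    have h4 : algebraMap (𝓞 F) (𝓞 L) (c * W - 1) ∈ 𝔭.map (algebraMap (𝓞 F) (𝓞 L)) :=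
      Ideal.mem_map_of_mem _ hc
    have h5 : x = algebraMap (𝓞 F) (𝓞 L) c * ((W : 𝓞 L) * x) -
        x * algebraMap (𝓞 F) (𝓞 L) (c * W - 1) := by
      rw [map_sub, map_mul, map_natCast, map_one]
      ring
    rw [h5]
    exact Ideal.sub_mem _ (Ideal.mul_mem_left _ _ h3) (Ideal.mul_mem_left _ _ h4)
  have h2 : algebraMap (𝓞 F) (𝓞 L) a ∈ (𝔭 ^ 2).map (algebraMap (𝓞 F) (𝓞 L)) := by
    rw [Ideal.map_pow]
    exact Ideal.pow_right_mono h1 2 hmem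
  obtain ⟨P, hP1, hP2⟩ := memW hI hG hsq hθ' h2 1
  have hP3 : aeval θ' P = algebraMap (𝓞 F) (𝓞 L) (W * a) := by
    rw [hP2, map_mul, map_natCast, one_mul]
  set R := P %ₘ f with hR
  have hR1 : R.map (Ideal.Quotient.mk (𝔭 ^ 2)) = 0 := by
    rw [hR, map_modByMonic _ hG.mon]
    have h4 : P.map (Ideal.Quotient.mk (𝔭 ^ 2)) = 0 := by
      ext n
      rw [coeff_map, coeff_zero]
      exact (Ideal.Quotient.eq_zero_iff_mem).2 (hP1 n)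
    rw [h4, zero_modByMonic]
  have hR2 : aeval θ' R = algebraMap (𝓞 F) (𝓞 L) (W * a) := by
    rw [hR, aeval_modByMonic_eq_self_of_root (root' hG hθ'), hP3]
  have hR3 : (R - C (W * a)).degree < ((2 * g + 1 : ℕ) : WithBot ℕ) := by
    refine lt_of_le_of_lt (degree_sub_le _ _) (max_lt ?_ ?_)
    · have := degree_modByMonic_lt P hG.mon
      rwa [degree_eq_natDegree hG.mon.ne_zero, hG.deg] at this
    · refine lt_of_le_of_lt degree_C_le ?_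
      exact_mod_cast (by omega : 0 < 2 * g + 1)
  have hR4 := inj hG hθ' hR3 (by rw [map_sub, hR2, aeval_C, sub_self])
  have hR5 : R = C (W * a) := sub_eq_zero.1 hR4
  have hR6 : (R.map (Ideal.Quotient.mk (𝔭 ^ 2))).coeff 0 = 0 := by rw [hR1, coeff_zero]
  rw [hR5, coeff_map, coeff_C_zero] at hR6
  have hR7 : (W : 𝓞 F) * a ∈ 𝔭 ^ 2 := (Ideal.Quotient.eq_zero_iff_mem).1 hR6
  have hR8 : (c * W - 1) ^ 2 ∈ 𝔭 ^ 2 := Ideal.pow_mem_pow hc 2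
  have hR9 : a = (2 * c - c ^ 2 * W) * ((W : 𝓞 F) * a) + a * (c * W - 1) ^ 2 := by ring
  rw [hR9]
  exact Ideal.add_mem _ (Ideal.mul_mem_left _ _ hR7) (Ideal.mul_mem_left _ _ hR8)

end gen

/-- **HQ**: the invariant at `q` in `S`. -/
theorem t (h1 : S_TFQ) (h3 : S_INTW) (h4 : S_EXQW) (h5 : S_CSQW) : S_HQW := by
  intro g W F L _ _ _ _ _ f θ S 𝔮 r P hg hG hsq hS q hq _ hc 𝔔 hO𝔔 hv𝔔 h hα hEv
  have hgood := hS q hq
  obtain ⟨hqp, hWq, hgq, hq8, hnr, hqpr, hqm, hrm, hrd, hri, hAm, hAd, hAt, hAc, hAi⟩ := hgood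
  haveI := fin hG
  have hq0F : (q : 𝓞 F) ≠ 0 := by exact_mod_cast hqp.ne_zero
  have hq0L : (q : L) ≠ 0 := by exact_mod_cast hqp.ne_zero
  have hcq : Cg (𝔮 q) f (X * r q) := by
    intro j
    have e1 : f.coeff j - (P q).coeff j ∈ 𝔮 q :=
      (Ideal.span_singleton_le_iff_mem _).2 hqm (hc j)
    have e2 := (𝔮 q).add_mem e1 (hAc j)
    rwa [sub_add_sub_cancel] at e2
  obtain ⟨𝔓₁, 𝔓₂, x1, x2, x3, x4, x5, x6, x7⟩ := h4 g W F L f θ S 𝔮 r P hg hG hsq hS q hq hcq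
  obtain ⟨y1, y2, y3, y4⟩ := h5 g W F L f θ S 𝔮 r P hg hG hsq hS q hq hcq 𝔔 hO𝔔 hv𝔔
  -- the prime below a prime over `q`
  have hbel : ∀ 𝔓 : HeightOneSpectrum (𝓞 L), (q : 𝓞 L) ∈ 𝔓.asIdeal → ∃ 𝔭 : Ideal (𝓞 F),
      𝔭.IsPrime ∧ 𝔭 ≠ ⊥ ∧ (q : 𝓞 F) ∈ 𝔭 ∧ Ov 𝔭 𝔓 := by
    intro 𝔓 hqP
    have hmem : (q : 𝓞 F) ∈ 𝔓.asIdeal.comap (algebraMap (𝓞 F) (𝓞 L)) := by
      rw [Ideal.mem_comap, map_natCast]
      exact hqP
    refine ⟨𝔓.asIdeal.comap (algebraMap (𝓞 F) (𝓞 L)), ?_, ?_, hmem, fun a ha => ha⟩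
    · haveI := 𝔓.isPrime
      exact Ideal.comap_isPrime _ _
    · intro h0
      rw [h0] at hmem
      exact hq0F ((Submodule.mem_bot _).1 hmem)
  have hvD : ∀ 𝔓 : HeightOneSpectrum (𝓞 L), (q : 𝓞 L) ∈ 𝔓.asIdeal →
      𝔓.valuation L (aeval θ (derivative (fF f))) = 1 := by
    intro 𝔓 hqP
    obtain ⟨𝔭, z1, z2, z3, z4⟩ := hbel 𝔓 hqP
    exact unit hG z4 (sep_q hS hq hg hc z1 z2 z3).1
  have hun : ∀ 𝔓 : HeightOneSpectrum (𝓞 L), (q : 𝓞 L) ∉ 𝔓.asIdeal ^ 2 := by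
    intro 𝔓 hmem
    have hqP : (q : 𝓞 L) ∈ 𝔓.asIdeal := Ideal.pow_le_self two_ne_zero hmem
    obtain ⟨𝔭, z1, z2, z3, z4⟩ := hbel 𝔓 hqP
    by_cases hz : 𝔭 = 𝔮 q
    · subst hz
      have hv : 𝔓.valuation L (q : L) = WithZero.exp (-1 : ℤ) := by
        rcases x7 𝔓 z4 with rfl | rfl
        · exact x5
        · exact x6
      have h6 : 𝔓.intValuation (q : 𝓞 L) ≤ WithZero.exp (-((2 : ℕ) : ℤ)) :=
        (𝔓.intValuation_le_pow_iff_mem _ 2).2 hmem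
      have h7 : 𝔓.valuation L (algebraMap (𝓞 L) L (q : 𝓞 L)) = 𝔓.intValuation (q : 𝓞 L) :=
        HeightOneSpectrum.valuation_of_algebraMap _ _
      rw [map_natCast, hv] at h7
      rw [← h7, WithZero.exp_le_exp] at h6
      exact absurd h6 (by norm_num)
    · have hWp : (W : 𝓞 F) ∉ 𝔭 := Pool.Agent.H59W.W_notMem z1 hqp hsq.pos hWq z3
      have h6 := unramW h3 hG hsq z1 z2 hWp ((sep_q hS hq hg hc z1 z2 z3).2 hz) z4 (hnr 𝔭 z1)
      rw [map_natCast] at h6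
      exact h6 hmem
  -- the element `c`
  set D : L := aeval θ (derivative (fF f)) with hD
  set α : L := aeval θ h with hαdef
  have hq𝔔 : (q : 𝓞 L) ∈ 𝔔.asIdeal := by
    have := hO𝔔 _ hqm
    rwa [map_natCast] at this
  have hD0 : D ≠ 0 := by
    intro h0
    rw [h0, map_zero] at y3
    exact zero_ne_one y3
  have hθ0 : θ ≠ 0 := by
    intro h0
    rw [h0, map_zero] at hv𝔔
    exact zero_ne_one hv𝔔
  have hEvc : ∀ 𝔓 : HeightOneSpectrum (𝓞 L), (q : 𝓞 L) ∈ 𝔓.asIdeal →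
      (Ev 𝔓 (α / D) ↔ Ev 𝔓 α) := by
    intro 𝔓 hqP
    unfold Ev
    rw [map_div₀, hvD 𝔓 hqP, div_one]
  have hmain := h1 L q (by omega) hun (Fin (2 * g + 1) × Fin (Module.finrank ℚ F))
    ((Module.finBasis ℚ F).smulTower' hG.basis) (α / D) (div_ne_zero hα hD0) 𝔔 hq𝔔 y2
    (fun 𝔓 z1 z2 => (hEvc 𝔓 z1).2 (hEv 𝔓 z1 z2))
  -- the matrix
  have hmat : (Matrix.of fun i j => Algebra.trace ℚ L
      (((Module.finBasis ℚ F).smulTower' hG.basis) i * ((Module.finBasis ℚ F).smulTower' hG.basis) j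
        * (α / D))) = Tf (Gm g (fF f) h) := by
    ext i j
    rw [Tf, Matrix.of_apply, Matrix.of_apply, Gm, Matrix.of_apply, tp_top hG, top_tr hG,
      ← Algebra.trace_trace (S := F), Module.Basis.smulTower'_apply,
      Module.Basis.smulTower'_apply, hG.basis_apply, hG.basis_apply]
    congr 1
    rw [← smul_eq_mul (Module.finBasis ℚ F i.2 * Module.finBasis ℚ F j.2), ← map_smul]
    congr 1
    rw [map_mul, map_pow, aeval_X, Algebra.smul_def, Algebra.smul_def, Algebra.smul_def, map_mul,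
      pow_add, ← hαdef, ← hD]
    ring
  rw [hmat] at hmain
  -- the condition
  have hcond : (¬ Ev 𝔔 (α / D) ∧ Sq1 𝔔 ((q : L) * (α / D))) ↔
      (¬ Ev 𝔔 α ∧ ¬ Sq1 𝔔 (α * (q * θ))) := by
    rw [hEvc 𝔔 hq𝔔]
    refine and_congr_right fun hne => ?_
    have hvq : 𝔔.valuation L (q : L) = WithZero.exp (-1 : ℤ) := by
      rcases x7 𝔔 hO𝔔 with e | e
      · rw [e]
        exact x5
      · rw [e]
        exact x6
    have hneq := not_ev_q hvq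
    have hcls := Pool.Agent.N457.PQ.cls L q 𝔔 (q : L) hqp (by
      rintro rfl
      omega) hq𝔔 hq0L hneq
    have hc0 : α / D ≠ 0 := div_ne_zero hα hD0
    have hx0 : (q : L) * (α / D) ≠ 0 := mul_ne_zero hq0L hc0
    have hu0 : θ * D ≠ 0 := mul_ne_zero hθ0 hD0
    have hcE : ¬ Ev 𝔔 (α / D) := fun hh => hne ((hEvc 𝔔 hq𝔔).1 hh)
    have hxE : Ev 𝔔 ((q : L) * (α / D)) :=
      ((hcls _ _ hq0L hc0).1).2 ⟨fun hh => absurd hh hneq, fun hh => absurd hh hcE⟩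
    have huE : Ev 𝔔 (θ * D) := ⟨1, by rw [map_mul, hv𝔔, y3, map_one, one_pow, mul_one]⟩
    have hxu := (hcls _ _ hx0 hu0)
    have hxuE : Ev 𝔔 ((q : L) * (α / D) * (θ * D)) := hxu.1.2 ⟨fun _ => huE, fun _ => hxE⟩
    have hU : ∀ z : L, Ev 𝔔 z → (U0 𝔔 (q : L) z ↔ Sq1 𝔔 z) := by
      intro z hz
      unfold U0
      exact ⟨fun hh => hh.1 hz, fun hh => ⟨fun _ => hh, fun hh' => absurd hz hh'⟩⟩
    have h6 := hxu.2
    rw [hU _ hxuE, hU _ hxE, hU _ huE] at h6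
    have h7 : (q : L) * (α / D) * (θ * D) = α * (q * θ) := by
      field_simp
    rw [h7] at h6
    rw [h6]
    constructor
    · intro h8 h9
      exact y4 (h9.1 h8)
    · intro h8
      by_contra h9
      exact h8 ⟨fun hh => absurd hh h9, fun hh => absurd hh y4⟩
  simp only [hcond] at hmain
  exact hmain


end Pool.Agent.H18N.HQW
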