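import Pool.Agent.H18N.Stm
import Pool.Agent.N31.PF.Int

/-!
# `W x` is in `𝓞 F [θ]` (part INTW of project JN)

Port of `Pool/Agent/N31/PF/Int.lean` (helper833, helper769, helper31) to `SqW` (helper41).
-/

set_option autoImplicit false
set_option linter.all false

open Polynomial IsDedekindDomain Matrix NumberField
open scoped Classical

namespace Pool.Agent.H18N.INTW

open Pool.Agent.N783.PF
open Pool.Agent.N31.PF (fin dis theta_int)

theorem sqw_int {F : Type} [Field F] [NumberField F] {D : 𝓞 F} {W : ℕ}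
    (hout : ∀ 𝔭 : Ideal (𝓞 F), 𝔭.IsPrime → 𝔭 ≠ ⊥ → (W : 𝓞 F) ∉ 𝔭 → D ∉ 𝔭 ^ 2)
    (hinn : ∀ 𝔭 : Ideal (𝓞 F), 𝔭.IsPrime → 𝔭 ≠ ⊥ → (W : 𝓞 F) ∈ 𝔭 →
      ∃ k : ℕ, D ∉ 𝔭 ^ k ∧ (W : 𝓞 F) ∈ 𝔭 ^ k) {t : F}
    (h : IsIntegral ℤ (t ^ 2 * (D : F))) : ∃ c : 𝓞 F, (c : F) = (W : F) * t := by
  have hv : ∀ v : HeightOneSpectrum (𝓞 F), v.valuation F ((W : F) * t) ≤ 1 := by
    intro v
    have h1 : v.valuation F (t ^ 2 * (D : F)) ≤ 1 :=
      v.valuation_le_one (K := F) (⟨t ^ 2 * (D : F), h⟩ : 𝓞 F)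
    have hWF : ((W : 𝓞 F) : F) = (W : F) := by simp
    obtain ⟨k, hk1, hk2⟩ : ∃ k : ℕ, D ∉ v.asIdeal ^ k ∧
        (W : 𝓞 F) ∈ v.asIdeal ^ ((k - 1) / 2) := by
      by_cases hw : (W : 𝓞 F) ∈ v.asIdeal
      · obtain ⟨k, hk1, hk2⟩ := hinn v.asIdeal v.isPrime v.ne_bot hw
        exact ⟨k, hk1, Ideal.pow_le_pow_right (by omega) hk2⟩
      · exact ⟨2, hout v.asIdeal v.isPrime v.ne_bot hw, by simp⟩
    by_cases ht : t = 0
    · rw [ht]; simp
    have hW0 : v.valuation F (W : F) ≤ WithZero.exp (-(((k - 1) / 2 : ℕ) : ℤ)) := by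
      rw [← hWF, HeightOneSpectrum.valuation_of_algebraMap]
      exact (v.intValuation_le_pow_iff_mem _ _).mpr hk2
    have h2 : ¬ v.valuation F (D : F) ≤ WithZero.exp (-(k : ℕ) : ℤ) := by
      intro h3
      apply hk1
      have h4 : v.intValuation D ≤ WithZero.exp (-(k : ℕ) : ℤ) := by
        rwa [HeightOneSpectrum.valuation_of_algebraMap] at h3
      exact (v.intValuation_le_pow_iff_mem D k).mp h4
    have hD0 : v.valuation F (D : F) ≠ 0 := by
      intro h0
      rw [h0] at h2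
      exact h2 zero_le'
    have ht0 : v.valuation F t ≠ 0 := by
      rw [Ne, map_eq_zero]; exact ht
    rw [map_mul, map_pow] at h1
    obtain ⟨a, ha⟩ : ∃ a : ℤ, v.valuation F t = WithZero.exp a :=
      ⟨WithZero.log (v.valuation F t), (WithZero.exp_log ht0).symm⟩
    obtain ⟨b, hb⟩ : ∃ b : ℤ, v.valuation F (D : F) = WithZero.exp b :=
      ⟨WithZero.log (v.valuation F (D : F)), (WithZero.exp_log hD0).symm⟩
    rw [ha, hb, ← WithZero.exp_nsmul, ← WithZero.exp_add, ← WithZero.exp_zero,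
      WithZero.exp_le_exp] at h1
    rw [hb, WithZero.exp_le_exp] at h2
    simp only [nsmul_eq_mul] at h1
    push_cast at h1 h2
    rw [map_mul, ha]
    calc v.valuation F (W : F) * WithZero.exp a
        ≤ WithZero.exp (-(((k - 1) / 2 : ℕ) : ℤ)) * WithZero.exp a := by gcongr
      _ = WithZero.exp (-(((k - 1) / 2 : ℕ) : ℤ) + a) := by rw [WithZero.exp_add]
      _ ≤ 1 := by
        rw [← WithZero.exp_zero, WithZero.exp_le_exp]
        omega
  obtain ⟨c, hc⟩ := HeightOneSpectrum.mem_integers_of_valuation_le_one F _ hv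
  exact ⟨c, hc⟩

theorem dsc_ne {g W : ℕ} {F : Type} [Field F] [NumberField F] {f : (𝓞 F)[X]} (h : SqW g W f) :
    dsc g f ≠ 0 := by
  intro h0
  obtain ⟨M, hM⟩ := Ideal.exists_maximal (𝓞 F)
  have hM0 : M ≠ ⊥ := Ring.ne_bot_of_isMaximal_of_not_isField hM (RingOfIntegers.not_isField F)
  by_cases hw : (W : 𝓞 F) ∈ M
  · obtain ⟨k, hk, _⟩ := h.inn M hM.isPrime hM0 hw
    exact hk (by rw [h0]; exact Ideal.zero_mem _)
  · exact h.out M hM.isPrime hM0 hw (by rw [h0]; exact Ideal.zero_mem _)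

/-- **INTW**. -/
theorem t : Pool.Agent.H18N.S_INTW := by
  intro g W F L _ _ _ _ _ f θ h hsq x hx
  haveI := fin h
  have hθ := theta_int h
  obtain ⟨c, hc⟩ := h.gen x
  have key : ∀ i₀, ∃ d : 𝓞 F, (d : F) = (W : F) * c i₀ := by
    intro i₀
    obtain ⟨m, hm⟩ := dis h (dsc_ne hsq)
    set P : Matrix (Fin (2 * g + 1)) (Fin (2 * g + 1)) F := (1 : Matrix _ _ F).updateCol i₀ c
      with hP
    have hdet : P.det = c i₀ := by
      rw [hP, ← cramer_apply, cramer_one]
      rfl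
    have h1 : IsIntegral ℤ (Algebra.discr F
        ((fun i : Fin (2 * g + 1) => θ ^ (i : ℕ)) ᵥ* P.map (algebraMap F L))) := by
      apply Algebra.discr_isIntegral
      intro j
      have e : ((fun i : Fin (2 * g + 1) => θ ^ (i : ℕ)) ᵥ* P.map (algebraMap F L)) j =
          if j = i₀ then x else θ ^ (j : ℕ) := by
        rw [Matrix.vecMul, dotProduct]
        simp only [Matrix.map_apply]
        split_ifs with hj
        · subst hj
          rw [hc]
          refine Finset.sum_congr rfl fun i _ => ?_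
          rw [hP, updateCol_self, mul_comm]
        · rw [Finset.sum_eq_single j]
          · rw [hP, updateCol_ne hj, one_apply_eq, map_one, mul_one]
          · intro i _ hij
            rw [hP, updateCol_ne hj, one_apply_ne hij, map_zero, mul_zero]
          · intro h0
            exact absurd (Finset.mem_univ _) h0
      rw [e]
      split_ifs
      · exact hx
      · exact hθ.pow _
    rw [Algebra.discr_of_matrix_vecMul, hdet, hm] at h1
    apply sqw_int hsq.out hsq.inn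
    have h2 : IsIntegral ℤ ((-1 : F) ^ m) := (isIntegral_one.neg).pow m
    have h3 := h2.mul h1
    have e2 : (-1 : F) ^ m * (-1 : F) ^ m = 1 := by
      rw [← mul_pow, neg_one_mul, neg_neg, one_pow]
    have e : (-1 : F) ^ m * (c i₀ ^ 2 * ((-1) ^ m * algebraMap (𝓞 F) F (dsc g f))) =
        c i₀ ^ 2 * ((dsc g f : 𝓞 F) : F) := by
      linear_combination (c i₀ ^ 2 * ((dsc g f : 𝓞 F) : F)) * e2
    rwa [e] at h3
  choose v hv using key
  refine ⟨v, ?_⟩
  rw [hc, Finset.mul_sum]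
  refine Finset.sum_congr rfl fun i _ => ?_
  rw [hv i, map_mul, map_natCast, mul_assoc]

end Pool.Agent.H18N.INTW
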