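import Pool.Agent.H18N.Stm
import Pool.Agent.N591.PF.Iso1

/-!
# Project JN, part ISO3 (helper67): multiplication by the local square root is an isometry
(after `H18G/REC2.lean`)
-/

set_option autoImplicit false
set_option linter.all false

open Polynomial IsDedekindDomain Matrix NumberField WithZero
open scoped Classical

namespace Pool.Agent.H18N.ISO3

open Pool.Agent.N352.PJ (Mt Typ dd)
open Pool.Agent.N783.PQ (LocIm tp Gm sg)
open Pool.Agent.N874.JM (LocF)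
open Pool.Agent.N783.PF
open Pool.Agent.N271.PQ (gram tp_congr vc)
open Pool.Agent.H18G (LocS)

/-- Multiplication by `s` is an isometry. -/
theorem iso_sq {E : Type} [Field E] {g : ℕ} {f h k s : E[X]} (hf : f.Monic)
    (hd : f.natDegree = 2 * g + 1) (hs : f ∣ k - s ^ 2) :
    ∃ T : Mt g E, T * Gm g f h * Tᵀ = Gm g f (h * k) := by
  obtain ⟨w, hw⟩ := hs
  let T : Mt g E := fun i => vc g f (s * X ^ (i : ℕ))
  refine ⟨T, ?_⟩
  ext i j
  have h1 : (T * Gm g f h * Tᵀ) i j =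
     vc g f (s * X ^ (i : ℕ)) ⬝ᵥ (Gm g f h *ᵥ vc g f (s * X ^ (j : ℕ))) := by
    rw [Matrix.mul_assoc]
    rfl
  rw [h1, gram hf hd]
  unfold Gm
  rw [Matrix.of_apply]
  apply tp_congr hf
  refine ⟨-(h * X ^ (i : ℕ) * X ^ (j : ℕ) * w), ?_⟩
  rw [pow_add]
  linear_combination (-h * X ^ (i : ℕ) * X ^ (j : ℕ)) * hw

theorem iso_sq_map {K E : Type} [Field K] [Field E] (φ : K →+* E) {g : ℕ} {f h k : K[X]}
    (hf : f.Monic) (hd : f.natDegree = 2 * g + 1)
    (hs : ∃ s : E[X], f.map φ ∣ k.map φ - s ^ 2) :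
    ∃ T : Mt g E, T * (Gm g f h).map φ * Tᵀ = (Gm g f (h * k)).map φ := by
  obtain ⟨s, hs⟩ := hs
  obtain ⟨T, hT⟩ := iso_sq (h := h.map φ) (hf.map φ) (by rw [hf.natDegree_map, hd]) hs
  refine ⟨T, ?_⟩
  rw [← Pool.Agent.N591.PF.Gm_map φ g hf h, ← Pool.Agent.N591.PF.Gm_map φ g hf (h * k),
    Polynomial.map_mul, hT]

/-- **ISO3.** -/
theorem t : Pool.Agent.H18N.S_ISO3 := by
  intro g F _ _ f hm hd h k hh hk
  have hm' : (fF f).Monic := hm.map _
  have hd' : (fF f).natDegree = 2 * g + 1 := by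
    rw [← hd]
    exact hm.natDegree_map _
  refine ⟨fun w hw => ?_, fun σ hσ => iso_sq_map σ hm' hd' hσ⟩
  obtain ⟨T', hT'⟩ := iso_sq_map (h := h) (k := k) (algebraMap F (w.adicCompletion F)) hm' hd' hw
  exact Pool.Agent.N591.PF.apx w _ _ T' hT'

end Pool.Agent.H18N.ISO3
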