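import Pool.Agent.H18N.Stm
import Pool.Agent.H68K.PR.DistD
import Pool.Agent.N438.PF.LB
import Pool.Agent.N771.PF.Core

/-!
# Project JN (helper18, helper68), part LBTW: from a class to a pair of symmetric matrices; no
# condition at the primes over `W`

As `H18G/LBTG.lean`. The lattice is `Λ = {x | x ^ 2 / (W α) is integral}`, with the form `x y / α`, and
`D₁ = W ^ 2 * ∏ q ∈ Q, q`.
-/

set_option autoImplicit false
set_option linter.all false

open Polynomial IsDedekindDomain Matrix NumberField WithZero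
open scoped Classical

namespace Pool.Agent.H18N.LBTW

open Pool.Agent.N783.PF
open Pool.Agent.H68K.PR (typD chiD distD ex_x0 LatD)
open Pool.Agent.N352.PJ (Mt Typ dd)
open Pool.Agent.N783.PQ (chp form Dist Gap Mid Deep eA eB eU uu)
open Pool.Agent.N874.PP (Ev Sq1 U0)
open Pool.Agent.N438.PF (norm_le norm_pos Bd_nonneg zero_of_Bd zero_of_z irrF one_le_B HH_nonneg
  four_zpow prod_zpow2 sum_typ det_le')
open Pool.Agent.N862.PF (int_iff theta_int theta_ex sum_eq top_pow dvd_of_sqf ev ev_L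
  ev_f ev_X ev_C small_zero deg_f ev_ker prod_int mul_mem_lat stepA stepB fin_ov)

section gen

variable {F L : Type} [Field F] [NumberField F] [Field L] [NumberField L] [Algebra F L]
  {g W : ℕ} {f : (𝓞 F)[X]} {θ : L}

theorem top_sum (h : IsGen g f θ) (v : ℕ → 𝓞 F) :
    h.top (∑ i ∈ Finset.range (2 * g + 1), algebraMap (𝓞 F) L (v i) * θ ^ i) ∈
      integralClosure ℤ F := by
  rw [map_sum]
  refine sum_mem fun i hi => ?_
  rw [Finset.mem_range] at hi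
  rw [IsScalarTower.algebraMap_apply (𝓞 F) F L, ← Algebra.smul_def, map_smul, smul_eq_mul,
    top_pow h i (by omega)]
  refine mul_mem (v i).2 ?_
  split_ifs
  · exact one_mem _
  · exact zero_mem _

theorem top_aeval (h : IsGen g f θ) (p : (𝓞 F)[X]) :
    h.top (aeval θ p) ∈ integralClosure ℤ F := by
  have hf : aeval θ f = 0 := by
    have h2 := h.root
    rw [fF, aeval_def, eval₂_map, ← IsScalarTower.algebraMap_eq] at h2
    exact h2
  have h1 : aeval θ p = aeval θ (p %ₘ f) := by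
    conv_lhs => rw [← modByMonic_add_div p f]
    rw [map_add, map_mul, hf, zero_mul, add_zero]
  have h3 : (p %ₘ f).natDegree < 2 * g + 1 := by
    rw [← h.deg]
    refine natDegree_modByMonic_lt _ h.mon fun h0 => ?_
    have := h.deg
    rw [h0, natDegree_one] at this
    omega
  rw [h1, aeval_def, eval₂_eq_sum_range' (algebraMap (𝓞 F) L) h3]
  exact top_sum h _

theorem top_powi (h : IsGen g f θ) (n : ℕ) : h.top (θ ^ n) ∈ integralClosure ℤ F := by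
  have h1 := top_aeval h (X ^ n)
  rwa [map_pow, aeval_X] at h1

/-- integers times `W` as values of polynomials -/
theorem ex_polyW (hI : S_INTW) (h : IsGen g f θ) (hsq : SqW g W f) {t : 𝓞 L}
    (ht : algebraMap (𝓞 L) L t = θ) (z : 𝓞 L) : ∃ p : (𝓞 F)[X],
      p.degree < ((2 * g + 1 : ℕ) : WithBot ℕ) ∧ ev F t p = (W : 𝓞 L) * z := by
  obtain ⟨v, hv⟩ := hI g W F L f θ h hsq _ ((int_iff _).2 ⟨z, rfl⟩)
  refine ⟨∑ i : Fin (2 * g + 1), C (v i) * X ^ (i : ℕ), degree_sum_fin_lt _, ?_⟩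
  apply IsFractionRing.injective (𝓞 L) L
  rw [ev_L ht, map_mul, map_natCast, hv, map_sum]
  refine Finset.sum_congr rfl fun i _ => ?_
  rw [map_mul, map_pow, aeval_X, aeval_C, IsScalarTower.algebraMap_apply (𝓞 F) F L]

theorem top_intW (hI : S_INTW) (h : IsGen g f θ) (hsq : SqW g W f) {x : L}
    (hx : IsIntegral ℤ x) : h.top ((W : L) * x) ∈ integralClosure ℤ F := by
  obtain ⟨t, ht⟩ := theta_ex h
  obtain ⟨z, hz⟩ := (int_iff _).1 hx
  obtain ⟨p, -, hp⟩ := ex_polyW hI h hsq ht z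
  have h1 : (W : L) * x = aeval θ p := by
    rw [← ev_L ht, hp, map_mul, map_natCast, hz]
  rw [h1]
  exact top_aeval h p

/-- an element with integral moments is integral -/
theorem int_of_topW (h : IsGen g f θ) {z : L}
    (hz : ∀ m ≤ 2 * g, h.top (z * θ ^ m) ∈ integralClosure ℤ F) : IsIntegral ℤ z := by
  have key : ∀ m : ℕ, ∀ i : Fin (2 * g + 1), (i : ℕ) + m = 2 * g →
      h.basis.repr z i ∈ integralClosure ℤ F := by
    intro m
    induction m using Nat.strong_induction_on with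
    | _ m ih =>
      intro i him
      have h1 : z * θ ^ m = ∑ l : Fin (2 * g + 1), h.basis.repr z l • θ ^ ((l : ℕ) + m) := by
        conv_lhs => rw [sum_eq h z, Finset.sum_mul]
        refine Finset.sum_congr rfl fun l _ => ?_
        rw [pow_add, Algebra.smul_def, Algebra.smul_def]
        ring
      have h2 := hz m (by omega)
      rw [h1, map_sum, ← Finset.add_sum_erase _ _ (Finset.mem_univ i), map_smul, smul_eq_mul,
        top_pow h _ (by omega), if_pos him, mul_one] at h2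
      have h3 : ∑ l ∈ Finset.univ.erase i, h.top (h.basis.repr z l • θ ^ ((l : ℕ) + m)) ∈
          integralClosure ℤ F := by
        refine sum_mem fun l hl => ?_
        have hli : l ≠ i := (Finset.mem_erase.mp hl).1
        have hli' : (l : ℕ) ≠ i := fun hh => hli (Fin.ext hh)
        rw [map_smul, smul_eq_mul]
        rcases lt_or_gt_of_ne hli' with hlt | hgt
        · rw [top_pow h _ (by omega), if_neg (by omega), mul_zero]
          exact zero_mem _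
        · refine mul_mem (ih (2 * g - l) (by omega) l (by omega)) ?_
          exact top_powi h _
      have h4 := sub_mem h2 h3
      rwa [add_sub_cancel_right] at h4
  rw [sum_eq h z]
  refine IsIntegral.sum _ fun i _ => ?_
  rw [Algebra.smul_def]
  have hk : IsIntegral ℤ (h.basis.repr z i) := key (2 * g - i) i (by omega)
  exact (hk.map (algebraMap F L).toIntAlgHom).mul ((theta_int h).pow _)

/-- the prime of a factor of `f` modulo `𝔮` -/
theorem ex_primeW (h : IsGen g f θ) {t : 𝓞 L}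
    (ht : algebraMap (𝓞 L) L t = θ) {𝔮 : Ideal (𝓞 F)} (hq0 : 𝔮 ≠ ⊥) {κ : Type} [Field κ]
    (φ : 𝓞 F →+* κ) (hφ : ∀ a ∈ 𝔮, φ a = 0) (m : κ[X])
    (hmi : Irreducible m) (hm : m ∣ f.map φ) : ∃ 𝔓 : HeightOneSpectrum (𝓞 L), Ov 𝔮 𝔓 ∧
      ∀ p : (𝓞 F)[X], ev F t p ∈ 𝔓.asIdeal ↔ m ∣ p.map φ := by
  haveI i2 : Fact (Irreducible m) := ⟨hmi⟩
  obtain ⟨P₀, hP₀⟩ : ∃ P₀ : Ideal (𝓞 F)[X],
      P₀ = RingHom.ker ((AdjoinRoot.mk m).comp (mapRingHom φ)) := ⟨_, rfl⟩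
  haveI hpr : P₀.IsPrime := by
    rw [hP₀]
    exact RingHom.ker_isPrime _
  have hmem : ∀ p : (𝓞 F)[X], p ∈ P₀ ↔ m ∣ p.map φ := by
    intro p
    rw [hP₀, RingHom.mem_ker, RingHom.comp_apply, coe_mapRingHom, AdjoinRoot.mk_eq_zero]
  have hk : RingHom.ker (ev F t) ≤ P₀ := by
    intro p hp
    rw [RingHom.mem_ker] at hp
    rw [hmem]
    obtain ⟨c, rfl⟩ := ev_ker h ht hp
    rw [Polynomial.map_mul]
    exact hm.mul_right _
  letI alg : Algebra (𝓞 F)[X] (𝓞 L) := (ev F t).toAlgebra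
  have halg : ∀ p : (𝓞 F)[X], algebraMap (𝓞 F)[X] (𝓞 L) p = ev F t p := fun p => rfl
  haveI hint : Algebra.IsIntegral (𝓞 F)[X] (𝓞 L) := by
    have h1 : ((ev F t).comp (C : 𝓞 F →+* (𝓞 F)[X])).IsIntegral := by
      have h2 : (ev F t).comp (C : 𝓞 F →+* (𝓞 F)[X]) = algebraMap (𝓞 F) (𝓞 L) := by
        ext c
        rw [RingHom.comp_apply, ev_C]
      rw [h2]
      exact fun z => Algebra.IsIntegral.isIntegral z
    have h3 : (ev F t).IsIntegral := RingHom.IsIntegral.tower_top _ _ h1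
    exact ⟨fun z => h3 z⟩
  obtain ⟨Q, -, hQ, hQc⟩ := Ideal.exists_ideal_over_prime_of_isIntegral P₀ (⊥ : Ideal (𝓞 L))
    (by
      intro p hp
      rw [Ideal.mem_comap, Ideal.mem_bot, halg] at hp
      exact hk ((RingHom.mem_ker).2 hp))
  have hQm : ∀ p : (𝓞 F)[X], ev F t p ∈ Q ↔ m ∣ p.map φ := by
    intro p
    rw [← hmem, ← hQc, Ideal.mem_comap, halg]
  have hq1 : ∀ a ∈ 𝔮, algebraMap (𝓞 F) (𝓞 L) a ∈ Q := by
    intro a ha
    rw [← ev_C t a, hQm, Polynomial.map_C, hφ a ha, map_zero]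
    exact dvd_zero _
  refine ⟨⟨Q, hQ, fun h0 => ?_⟩, hq1, hQm⟩
  obtain ⟨a, ha, ha0⟩ := Submodule.exists_mem_ne_zero_of_ne_bot hq0
  have h1 := hq1 a ha
  rw [h0, Ideal.mem_bot] at h1
  exact ha0 ((map_eq_zero_iff _ (FaithfulSMul.algebraMap_injective (𝓞 F) (𝓞 L))).1 h1)

/-- an element of all primes over `𝔮` -/
theorem keyW (h : IsGen g f θ) {t : 𝓞 L}
    (ht : algebraMap (𝓞 L) L t = θ) {𝔮 : Ideal (𝓞 F)} (hq0 : 𝔮 ≠ ⊥) {κ : Type} [Field κ]
    (φ : 𝓞 F →+* κ) (hφ : ∀ a ∈ 𝔮, φ a = 0) (hsep : (f.map φ).Separable) (p : (𝓞 F)[X])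
    (hp : p.degree < ((2 * g + 1 : ℕ) : WithBot ℕ))
    (hP : ∀ 𝔓 : HeightOneSpectrum (𝓞 L), Ov 𝔮 𝔓 → ev F t p ∈ 𝔓.asIdeal) : p.map φ = 0 := by
  have hmon : (f.map φ).Monic := h.mon.map φ
  have h1 : f.map φ ∣ p.map φ := by
    refine dvd_of_sqf hmon.ne_zero hsep.squarefree fun m hm hmf => ?_
    obtain ⟨𝔓, ov, hk⟩ := ex_primeW h ht hq0 φ hφ m hm hmf
    exact (hk p).1 (hP 𝔓 ov)
  by_contra hne
  have h2 := degree_le_of_dvd h1 hne
  rw [degree_eq_natDegree hmon.ne_zero, h.mon.natDegree_map, h.deg] at h2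
  exact absurd (h2.trans degree_map_le) (not_le.2 hp)

end gen

/-- **TV.** -/
theorem tvW (hI : S_INTW) (g W : ℕ) (F L : Type) [Field F] [NumberField F] [Field L] [NumberField L]
  [Algebra F L] (f : (𝓞 F)[X]) (θ : L) (hG : IsGen g f θ) (hsq : SqW g W f) (α : L)
  (Λ₁ Λ : Submodule (𝓞 F) L) (hα : α ≠ 0) (hΛ₁ : SDn ((W : L) * α) Λ₁) (hSD : SDn α Λ)
  (𝔮 : Ideal (𝓞 F)) (hprime : 𝔮.IsPrime) (hq0 : 𝔮 ≠ ⊥) (hWq : (W : 𝓞 F) ∉ 𝔮)
  (hsep : (rd 𝔮 f).Separable)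
  (hSq : ∀ 𝔓 : HeightOneSpectrum (𝓞 L), Ov 𝔮 𝔓 → Sq1 𝔓 α) : DVec hG α Λ₁ 𝔮 := by
  obtain ⟨t, ht⟩ := theta_ex hG
  have hfin := fin_ov (L := L) hq0
  set T : Finset (HeightOneSpectrum (𝓞 L)) := hfin.toFinset with hT
  have hTm : ∀ 𝔓 : HeightOneSpectrum (𝓞 L), 𝔓 ∈ T ↔ Ov 𝔮 𝔓 := fun 𝔓 => by
    rw [hT, Set.Finite.mem_toFinset]; rfl
  have hB : ∀ 𝔓 : HeightOneSpectrum (𝓞 L), ∃ (x : L) (u : 𝓞 L), 𝔓 ∈ T → (x ∈ Λ ∧
      algebraMap (𝓞 L) L u = x * x / α ∧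
      u - 1 ∈ 𝔓.asIdeal ∧ ∀ 𝔓' ∈ T, 𝔓' ≠ 𝔓 → u ∈ 𝔓'.asIdeal) := by
    intro 𝔓
    by_cases h : 𝔓 ∈ T
    · obtain ⟨x, u, h1⟩ := stepB hα hSD (hSq 𝔓 ((hTm _).1 h)) T
      exact ⟨x, u, fun _ => h1⟩
    · exact ⟨0, 0, fun h' => absurd h' h⟩
  choose x u hxu using hB
  obtain ⟨y, hydef⟩ : ∃ y : L, y = ∑ 𝔓 ∈ T, x 𝔓 := ⟨_, rfl⟩
  have hyΛ : y ∈ Λ := by
    rw [hydef]
    exact Submodule.sum_mem _ fun 𝔓 h => (hxu 𝔓 h).1
  -- the products
  have hW : ∀ 𝔓 𝔓' : HeightOneSpectrum (𝓞 L), ∃ w : 𝓞 L, 𝔓 ∈ T → 𝔓' ∈ T →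
      algebraMap (𝓞 L) L w = x 𝔓 * x 𝔓' / α := by
    intro 𝔓 𝔓'
    by_cases h : 𝔓 ∈ T
    · by_cases h' : 𝔓' ∈ T
      · obtain ⟨w, hw⟩ := (int_iff _).1 (prod_int hSD (hxu 𝔓 h).1 (hxu 𝔓' h').1)
        exact ⟨w, fun _ _ => hw⟩
      · exact ⟨0, fun _ h2 => absurd h2 h'⟩
    · exact ⟨0, fun h1 => absurd h1 h⟩
  choose w hw using hW
  have hinj : Function.Injective (algebraMap (𝓞 L) L) := IsFractionRing.injective (𝓞 L) L
  have hwsq : ∀ 𝔓 ∈ T, ∀ 𝔓' ∈ T, w 𝔓 𝔓' ^ 2 = u 𝔓 * u 𝔓' := by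
    intro 𝔓 h 𝔓' h'
    apply hinj
    rw [map_pow, map_mul, hw 𝔓 𝔓' h h', (hxu 𝔓 h).2.1, (hxu 𝔓' h').2.1]
    ring
  have hwd : ∀ 𝔓 ∈ T, w 𝔓 𝔓 = u 𝔓 := by
    intro 𝔓 h
    apply hinj
    rw [hw 𝔓 𝔓 h h, (hxu 𝔓 h).2.1]
  obtain ⟨z, hz⟩ : ∃ z : 𝓞 L, z = ∑ 𝔓 ∈ T, ∑ 𝔓' ∈ T, w 𝔓 𝔓' := ⟨_, rfl⟩
  have hzL : algebraMap (𝓞 L) L z = y ^ 2 / α := by
    rw [hz, map_sum, hydef, sq, Finset.sum_mul, Finset.sum_div]
    refine Finset.sum_congr rfl fun 𝔓 h => ?_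
    rw [map_sum, Finset.mul_sum, Finset.sum_div]
    exact Finset.sum_congr rfl fun 𝔓' h' => hw 𝔓 𝔓' h h'
  have hmemw : ∀ 𝔓₀ ∈ T, ∀ 𝔓 ∈ T, ∀ 𝔓' ∈ T, (𝔓 ≠ 𝔓₀ ∨ 𝔓' ≠ 𝔓₀) → w 𝔓 𝔓' ∈ 𝔓₀.asIdeal := by
    intro 𝔓₀ h0 𝔓 h 𝔓' h' hor
    apply 𝔓₀.isPrime.mem_of_pow_mem 2
    rw [hwsq 𝔓 h 𝔓' h']
    rcases hor with h1 | h1
    · exact 𝔓₀.asIdeal.mul_mem_right _ ((hxu 𝔓 h).2.2.2 𝔓₀ h0 h1.symm)
    · exact 𝔓₀.asIdeal.mul_mem_left _ ((hxu 𝔓' h').2.2.2 𝔓₀ h0 h1.symm)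
  have hz1 : ∀ 𝔓 : HeightOneSpectrum (𝓞 L), Ov 𝔮 𝔓 → z - 1 ∈ 𝔓.asIdeal := by
    intro 𝔓₀ hov
    have h0 : 𝔓₀ ∈ T := (hTm _).2 hov
    have e1 : z - 1 = (u 𝔓₀ - 1) + (∑ 𝔓' ∈ T.erase 𝔓₀, w 𝔓₀ 𝔓' +
        ∑ 𝔓 ∈ T.erase 𝔓₀, ∑ 𝔓' ∈ T, w 𝔓 𝔓') := by
      rw [hz, ← Finset.add_sum_erase _ _ h0, ← Finset.add_sum_erase _ (fun 𝔓' => w 𝔓₀ 𝔓') h0,
        hwd 𝔓₀ h0]
      ring
    rw [e1]
    refine 𝔓₀.asIdeal.add_mem (hxu 𝔓₀ h0).2.2.1 (𝔓₀.asIdeal.add_mem ?_ ?_)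
    · refine Ideal.sum_mem _ fun 𝔓' h' => ?_
      exact hmemw 𝔓₀ h0 𝔓₀ h0 𝔓' (Finset.mem_of_mem_erase h') (Or.inr (Finset.ne_of_mem_erase h'))
    · refine Ideal.sum_mem _ fun 𝔓 h => ?_
      refine Ideal.sum_mem _ fun 𝔓' h' => ?_
      exact hmemw 𝔓₀ h0 𝔓 (Finset.mem_of_mem_erase h) 𝔓' h' (Or.inl (Finset.ne_of_mem_erase h))
  obtain ⟨p, hp1, hp2⟩ := ex_polyW hI hG hsq ht (z - 1)
  haveI : 𝔮.IsPrime := hprime
  haveI hmax : 𝔮.IsMaximal := hprime.isMaximal hq0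
  letI : Field (𝓞 F ⧸ 𝔮) := Ideal.Quotient.field 𝔮
  have hzero : p.map (Ideal.Quotient.mk 𝔮) = 0 := by
    refine keyW hG ht hq0 (Ideal.Quotient.mk 𝔮)
      (fun a ha => Ideal.Quotient.eq_zero_iff_mem.2 ha) hsep p hp1 fun 𝔓 hov => ?_
    rw [hp2]
    exact 𝔓.asIdeal.mul_mem_left _ (hz1 𝔓 hov)
  have hcoef : ∀ i, p.coeff i ∈ 𝔮 := by
    intro i
    have h1 := congrArg (fun r => coeff r i) hzero
    simp only [coeff_map, coeff_zero] at h1
    exact Ideal.Quotient.eq_zero_iff_mem.1 h1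
  have hWy : (W : L) * y ∈ Λ₁ := by
    rw [hΛ₁]
    by_cases hW0 : (W : L) = 0
    · rw [hW0, zero_mul, zero_mul, div_zero]
      exact isIntegral_zero
    · have h1 : ((W : L) * y) ^ 2 / ((W : L) * α) = (W : L) * (y ^ 2 / α) := by
        field_simp
      rw [h1]
      exact ((int_iff _).2 ⟨(W : 𝓞 L), map_natCast _ _⟩).mul ((hSD y).1 hyΛ)
  refine ⟨(W : L) * y, hWy, (W : 𝓞 F), hWq, fun m hm => ?_⟩
  -- the coefficients
  have hV : ∀ i : ℕ, ∃ b : 𝓞 F, (b : F) = hG.top (θ ^ (i + m)) := by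
    intro i
    exact ⟨⟨_, top_powi hG (i + m)⟩, rfl⟩
  choose b hb using hV
  refine ⟨(W : 𝓞 F) * ∑ i ∈ Finset.range (2 * g + 1), p.coeff i * b i,
    𝔮.mul_mem_left _ (Ideal.sum_mem _ fun i _ => 𝔮.mul_mem_right _ (hcoef i)), ?_⟩
  have h3 : θ ^ m * ((W : L) * y) ^ 2 / α = ((W : F) ^ 2) • θ ^ m +
      (W : F) • ∑ i ∈ Finset.range (2 * g + 1), ((p.coeff i : 𝓞 F) : F) • θ ^ (i + m) := by
    have h4 : θ ^ m * ((W : L) * y) ^ 2 / α = θ ^ m * (W : L) ^ 2 * algebraMap (𝓞 L) L z := by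
      rw [hzL]; ring
    have h5 : (W : L) * algebraMap (𝓞 L) L z = (W : L) + algebraMap (𝓞 L) L (ev F t p) := by
      rw [hp2, map_mul, map_natCast, map_sub, map_one]
      ring
    have h6 : θ ^ m * (W : L) ^ 2 * algebraMap (𝓞 L) L z =
        (W : L) ^ 2 * θ ^ m + (W : L) * (θ ^ m * algebraMap (𝓞 L) L (ev F t p)) := by
      calc θ ^ m * (W : L) ^ 2 * algebraMap (𝓞 L) L z
          = θ ^ m * (W : L) * ((W : L) * algebraMap (𝓞 L) L z) := by ring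
        _ = _ := by rw [h5]; ring
    rw [h4, h6, ev_L ht, Algebra.smul_def, Algebra.smul_def, map_pow, map_natCast]
    congr 2
    rw [aeval_def, eval₂_eq_sum_range' (algebraMap (𝓞 F) L) (n := 2 * g + 1), Finset.mul_sum]
    · refine Finset.sum_congr rfl fun i _ => ?_
      rw [Algebra.smul_def, IsScalarTower.algebraMap_apply (𝓞 F) F L, pow_add]
      ring
    · by_cases hr0 : p = 0
      · rw [hr0]; simp
      · exact (natDegree_lt_iff_degree_lt hr0).2 hp1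
  rw [h3, map_add, map_smul, map_smul, map_sum, top_pow hG m hm]
  have h6 : (((W : 𝓞 F) * ∑ i ∈ Finset.range (2 * g + 1), p.coeff i * b i : 𝓞 F) : F) =
      (W : F) * ∑ i ∈ Finset.range (2 * g + 1), hG.top (((p.coeff i : 𝓞 F) : F) • θ ^ (i + m)) := by
    have h7 : (((W : 𝓞 F) * ∑ i ∈ Finset.range (2 * g + 1), p.coeff i * b i : 𝓞 F) : F) =
        algebraMap (𝓞 F) F ((W : 𝓞 F) * ∑ i ∈ Finset.range (2 * g + 1), p.coeff i * b i) := rfl
    rw [h7, map_mul, map_natCast, map_sum]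
    congr 1
    refine Finset.sum_congr rfl fun i _ => ?_
    rw [map_mul, map_smul, smul_eq_mul, ← hb i]
  rw [h6]
  have h8 : (((W : ℕ) : 𝓞 F) : F) = (W : F) := map_natCast (algebraMap (𝓞 F) F) W
  rw [h8]
  simp only [smul_eq_mul]
  split_ifs <;> ring

/-- The lattice of the `x` with `x ^ 2 / (W α)` integral. -/
theorem sdW (hI : S_INTW) (g W : ℕ) (F L : Type) [Field F] [NumberField F] [Field L] [NumberField L]
    [Algebra F L] (f : (𝓞 F)[X]) (θ : L) (hc : IsGen g f θ) (hs : SqW g W f) (α : L) (hα : α ≠ 0)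
    (D₂ : ℕ) (hev : ∀ 𝔓 : HeightOneSpectrum (𝓞 L), Ev 𝔓 ((W : L) * α) ∨
      ((W * D₂ : ℕ) : 𝓞 L) ∈ 𝔓.asIdeal) :
    ∃ Λ : Submodule (𝓞 F) L, SDn ((W : L) * α) Λ ∧ LatD hc (W ^ 2 * D₂) α Λ := by
  obtain ⟨t, ht⟩ := theta_ex hc
  have hW0 : (W : L) ≠ 0 := Nat.cast_ne_zero.2 hs.pos.ne'
  obtain ⟨β, hβ⟩ : ∃ β : L, β = (W : L) * α := ⟨_, rfl⟩
  have hβ0 : β ≠ 0 := by
    rw [hβ]
    exact mul_ne_zero hW0 hα
  rw [← hβ]
  simp only [← hβ] at hev
  -- products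
  have hprod : ∀ x : L, IsIntegral ℤ (x ^ 2 / β) → ∀ y : L, IsIntegral ℤ (y ^ 2 / β) →
      IsIntegral ℤ (x * y / β) := by
    intro x hx y hy
    have h1 : IsIntegral ℤ ((x * y / β) ^ 2) := by
      have h2 : (x * y / β) ^ 2 = (x ^ 2 / β) * (y ^ 2 / β) := by ring
      rw [h2]
      exact hx.mul hy
    exact IsIntegral.of_pow two_pos h1
  have hsmul : ∀ (c : 𝓞 L) (x : L), IsIntegral ℤ (x ^ 2 / β) →
      IsIntegral ℤ ((algebraMap (𝓞 L) L c * x) ^ 2 / β) := by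
    intro c x hx
    have h2 : (algebraMap (𝓞 L) L c * x) ^ 2 / β = (algebraMap (𝓞 L) L (c ^ 2)) * (x ^ 2 / β) := by
      rw [map_pow]
      ring
    rw [h2]
    exact ((int_iff _).2 ⟨_, rfl⟩).mul hx
  let Λ : Submodule (𝓞 F) L :=
    { carrier := {x | IsIntegral ℤ (x ^ 2 / β)}
      zero_mem' := by
        show IsIntegral ℤ ((0 : L) ^ 2 / β)
        rw [zero_pow two_ne_zero, zero_div]
        exact isIntegral_zero
      add_mem' := by
        intro x y hx hy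
        show IsIntegral ℤ ((x + y) ^ 2 / β)
        have h2 : (x + y) ^ 2 / β = x ^ 2 / β + (x * y / β + x * y / β) + y ^ 2 / β := by ring
        rw [h2]
        exact (IsIntegral.add hx ((hprod x hx y hy).add (hprod x hx y hy))).add hy
      smul_mem' := by
        intro c x hx
        show IsIntegral ℤ ((c • x) ^ 2 / β)
        have h2 := hsmul (algebraMap (𝓞 F) (𝓞 L) c) x hx
        rwa [← IsScalarTower.algebraMap_apply, ← Algebra.smul_def] at h2 }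
  have hΛ : ∀ x : L, x ∈ Λ ↔ IsIntegral ℤ (x ^ 2 / β) := fun x => Iff.rfl
  -- good elements
  have hgood : ∀ 𝔓 : HeightOneSpectrum (𝓞 L), ∃ x ∈ Λ, x ≠ 0 ∧
      (Ev 𝔓 β → 𝔓.valuation L (x ^ 2) = 𝔓.valuation L β) ∧
      𝔓.valuation L β * WithZero.exp (-1 : ℤ) ≤ 𝔓.valuation L (x ^ 2) := by
    intro 𝔓
    obtain ⟨x₀, hx0, hx1, hx2, hx3⟩ := ex_x0 𝔓 hβ0
    have h1 : 𝔓.valuation L (x₀ ^ 2 / β) ≤ 1 := by
      rw [map_div₀]
      exact div_le_one_of_le₀ hx1 zero_le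
    obtain ⟨n, d, hnd⟩ := 𝔓.exists_primeCompl_mul_eq_of_integer (x₀ ^ 2 / β) h1
    have hd : (d : 𝓞 L) ∉ 𝔓.asIdeal := d.2
    have hvd : 𝔓.valuation L (algebraMap (𝓞 L) L (d : 𝓞 L)) = 1 := by
      rcases lt_or_eq_of_le (𝔓.valuation_le_one (K := L) (d : 𝓞 L)) with h | h
      · exact absurd ((𝔓.valuation_lt_one_iff_mem (K := L) _).1 h) hd
      · exact h
    have hd0 : algebraMap (𝓞 L) L (d : 𝓞 L) ≠ 0 := by
      intro h0
      rw [h0, map_zero] at hvd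
      exact zero_ne_one hvd
    have hv : 𝔓.valuation L ((x₀ * algebraMap (𝓞 L) L (d : 𝓞 L)) ^ 2) =
        𝔓.valuation L (x₀ ^ 2) := by
      rw [mul_pow, map_mul, map_pow _ (algebraMap (𝓞 L) L (d : 𝓞 L)), hvd, one_pow, mul_one]
    refine ⟨x₀ * algebraMap (𝓞 L) L d, ?_, mul_ne_zero hx0 hd0, ?_, ?_⟩
    · rw [hΛ]
      have h1 : (x₀ * algebraMap (𝓞 L) L d) ^ 2 / β = algebraMap (𝓞 L) L (d * n) := by
        rw [map_mul, ← hnd]
        ring
      rw [h1]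
      exact (int_iff _).2 ⟨_, rfl⟩
    · intro h
      rw [hv]
      exact hx3 h
    · rw [hv]
      exact hx2
  have h0 : ∃ x₀ ∈ Λ, x₀ ≠ 0 := by
    by_cases hne : Nonempty (HeightOneSpectrum (𝓞 L))
    · obtain ⟨𝔓⟩ := hne
      obtain ⟨x, hx, hx0, -⟩ := hgood 𝔓
      exact ⟨x, hx, hx0⟩
    · obtain ⟨x, hx, hx0, -⟩ : ∃ x ∈ Λ, x ≠ 0 ∧ True := by
        have halg : IsAlgebraic ℤ (1 / β) :=
          (IsFractionRing.isAlgebraic_iff ℤ ℚ L).2 (Algebra.IsAlgebraic.isAlgebraic (1 / β))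
        obtain ⟨b, hb0, hb⟩ := halg.exists_integral_multiple
        refine ⟨(b : L), ?_, by exact_mod_cast hb0, trivial⟩
        rw [hΛ]
        have h2 : (b : L) ^ 2 / β = (b : ℤ) • (b • (1 / β)) := by
          rw [zsmul_eq_mul, zsmul_eq_mul]
          ring
        rw [h2]
        exact hb.smul b
      exact ⟨x, hx, hx0⟩
  obtain ⟨x₀, hx₀, hx₀0⟩ := h0
  have hWβ : ∀ x y : L, x * y / α = (W : L) * (x * y / β) := by
    intro x y
    rw [hβ]
    field_simp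
  refine ⟨Λ, hΛ, ⟨?_, ?_, ?_, ?_, ?_⟩⟩
  · -- finitely generated
    let e : 𝓞 L →ₗ[𝓞 F] L :=
      (LinearMap.mulLeft (𝓞 F) (β / x₀)).comp (IsScalarTower.toAlgHom (𝓞 F) (𝓞 L) L).toLinearMap
    have hfin : Module.Finite (𝓞 F) (𝓞 L) := inferInstance
    have h1 : (LinearMap.range e).FG := by
      rw [LinearMap.range_eq_map]
      exact Submodule.FG.map e Module.Finite.fg_top
    have h2 : Λ ≤ LinearMap.range e := by
      intro x hx
      obtain ⟨z, hz⟩ := (int_iff _).1 (hprod x hx x₀ hx₀)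
      refine ⟨z, ?_⟩
      show (β / x₀) * algebraMap (𝓞 L) L z = x
      rw [hz]
      field_simp
    haveI : IsNoetherian (𝓞 F) (LinearMap.range e) := isNoetherian_of_fg_of_noetherian _ h1
    have h3 : (Λ.comap (LinearMap.range e).subtype).FG := IsNoetherian.noetherian _
    have h4 : (Λ.comap (LinearMap.range e).subtype).map (LinearMap.range e).subtype = Λ := by
      rw [Submodule.map_comap_subtype]
      exact inf_eq_right.2 h2
    rw [← h4]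
    exact Submodule.FG.map _ h3
  · intro x
    have halg : IsAlgebraic ℤ (x / x₀) :=
      (IsFractionRing.isAlgebraic_iff ℤ ℚ L).2 (Algebra.IsAlgebraic.isAlgebraic (x / x₀))
    obtain ⟨b, hb0, hb⟩ := halg.exists_integral_multiple
    refine ⟨(b : 𝓞 F), by exact_mod_cast hb0, ?_⟩
    rw [hΛ]
    obtain ⟨z, hz⟩ := (int_iff _).1 hb
    have h4 : (b : 𝓞 F) • x = algebraMap (𝓞 L) L z * x₀ := by
      rw [Algebra.smul_def, hz]
      rw [zsmul_eq_mul, map_intCast]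
      field_simp
    rw [h4]
    exact hsmul z x₀ hx₀
  · intro x hx
    rw [hΛ] at hx ⊢
    rw [← ht]
    exact hsmul t x hx
  · intro x hx y hy
    rw [hWβ]
    exact top_intW hI hc hs (hprod x hx y hy)
  · intro y hy
    have hy2 : ∀ x ∈ Λ, IsIntegral ℤ (x * y / α) := by
      intro x hx
      apply int_of_topW hc
      intro m _
      have h5 : x * y / α * θ ^ m = (algebraMap (𝓞 L) L (t ^ m) * x) * y / α := by
        rw [map_pow, ht]
        ring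
      rw [h5]
      exact hy _ (hsmul (t ^ m) x hx)
    rw [hΛ]
    obtain ⟨D', hD'⟩ : ∃ D' : ℕ, D' = W * D₂ := ⟨_, rfl⟩
    rw [← hD'] at hev
    have key : ∀ 𝔓 : HeightOneSpectrum (𝓞 L),
        𝔓.valuation L ((((W ^ 2 * D₂ : ℕ) : L) * y) ^ 2 / β) ≤ 1 := by
      intro 𝔓
      obtain ⟨x, hx, hx0, hxe, hxl⟩ := hgood 𝔓
      have hvx : 𝔓.valuation L (x ^ 2) ≠ 0 := (Valuation.ne_zero_iff _).2 (pow_ne_zero 2 hx0)
      have hvβ : 𝔓.valuation L β ≠ 0 := (Valuation.ne_zero_iff _).2 hβ0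
      have h1 : 𝔓.valuation L (x * y / α) ≤ 1 := by
        obtain ⟨z, hz⟩ := (int_iff _).1 (hy2 x hx)
        rw [← hz]
        exact 𝔓.valuation_le_one z
      have h2 : (((W ^ 2 * D₂ : ℕ) : L) * y) ^ 2 / β =
          (D' : L) ^ 2 * (β / x ^ 2) * (x * y / α) ^ 2 := by
        rw [hD', hβ]
        push_cast
        field_simp
      rw [h2, map_mul, map_mul, map_pow _ (x * y / α), map_pow, map_div₀]
      have h3 : 𝔓.valuation L (x * y / α) ^ 2 ≤ 1 := pow_le_one₀ zero_le h1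
      have hDi : (D' : L) = algebraMap (𝓞 L) L (D' : 𝓞 L) := by rw [map_natCast]
      have h4 : 𝔓.valuation L (D' : L) ^ 2 * (𝔓.valuation L β / 𝔓.valuation L (x ^ 2)) ≤ 1 := by
        rcases hev 𝔓 with h | h
        · rw [hxe h, div_self hvβ, mul_one]
          refine pow_le_one₀ zero_le ?_
          rw [hDi]
          exact 𝔓.valuation_le_one _
        · have h5 : 𝔓.valuation L (D' : L) ≤ WithZero.exp (-1 : ℤ) := by
            rw [hDi]
            rw [𝔓.valuation_of_algebraMap]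
            have h6 := (𝔓.intValuation_le_pow_iff_mem (D' : 𝓞 L) 1)
            rw [pow_one] at h6
            exact h6.2 h
          have h7 : 𝔓.valuation L β / 𝔓.valuation L (x ^ 2) ≤ WithZero.exp (1 : ℤ) := by
            rw [div_le_iff₀ (zero_lt_iff.2 hvx)]
            calc 𝔓.valuation L β = WithZero.exp (1 : ℤ) * (𝔓.valuation L β * WithZero.exp (-1 : ℤ)) := by
                  rw [mul_comm (𝔓.valuation L β), ← mul_assoc, ← WithZero.exp_add, add_neg_cancel,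
                    WithZero.exp_zero, one_mul]
              _ ≤ _ := mul_le_mul_right hxl _
          calc 𝔓.valuation L (D' : L) ^ 2 * (𝔓.valuation L β / 𝔓.valuation L (x ^ 2))
              ≤ WithZero.exp (-1 : ℤ) ^ 2 * WithZero.exp (1 : ℤ) :=
                mul_le_mul' (pow_le_pow_left₀ zero_le h5 2) h7
            _ = WithZero.exp (-1 : ℤ) := by
              rw [sq, ← WithZero.exp_add, ← WithZero.exp_add]
              norm_num
            _ ≤ 1 := by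
              rw [← WithZero.exp_zero, WithZero.exp_le_exp]
              norm_num
      exact mul_le_one' h4 h3
    obtain ⟨z, hz⟩ := HeightOneSpectrum.mem_integers_of_valuation_le_one L _ key
    exact (int_iff _).2 ⟨z, hz⟩

/-- A distinguished vector gives local squares. -/
theorem sq1W (hI : S_INTW) (g W : ℕ) (F L : Type) [Field F] [NumberField F] [Field L] [NumberField L]
  [Algebra F L] (f : (𝓞 F)[X]) (θ : L) (hG : IsGen g f θ) (hsq : SqW g W f) (α : L)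
  (Λ : Submodule (𝓞 F) L) (hα : α ≠ 0) (hSD : SDn ((W : L) * α) Λ)
  (𝔮 : Ideal (𝓞 F)) (hprime : 𝔮.IsPrime) (hq0 : 𝔮 ≠ ⊥) (hDV : DVec hG α Λ 𝔮)
  (𝔓 : HeightOneSpectrum (𝓞 L)) (hov : Ov 𝔮 𝔓) : Sq1 𝔓 α := by
  obtain ⟨t, ht⟩ := theta_ex hG
  obtain ⟨x, hx, s, hs, hm⟩ := hDV
  have hW0 : (W : L) ≠ 0 := Nat.cast_ne_zero.2 hsq.pos.ne'
  obtain ⟨u₀, hu₀⟩ := (int_iff _).1 ((hSD x).1 hx)
  obtain ⟨u, hudef⟩ : ∃ u : 𝓞 L, u = (W : 𝓞 L) * u₀ := ⟨_, rfl⟩
  have hu : algebraMap (𝓞 L) L u = x ^ 2 / α := by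
    rw [hudef, map_mul, map_natCast, hu₀]
    field_simp
  obtain ⟨p, hp1, hp2⟩ : ∃ p : (𝓞 F)[X], p.degree < ((2 * g + 1 : ℕ) : WithBot ℕ) ∧
      ev F t p = u - algebraMap (𝓞 F) (𝓞 L) (s ^ 2) := by
    obtain ⟨p₀, hp1, hp2⟩ := ex_polyW hI hG hsq ht u₀
    refine ⟨p₀ - C (s ^ 2), (degree_sub_le _ _).trans_lt (max_lt hp1 ?_), ?_⟩
    · exact degree_C_le.trans_lt (by exact_mod_cast Nat.succ_pos _)
    · rw [map_sub, ev_C, hp2, hudef]
  -- the values of the functional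
  have htop : ∀ m ≤ 2 * g, ∃ a ∈ 𝔮, (a : F) = hG.top (θ ^ m * algebraMap (𝓞 L) L (ev F t p)) := by
    intro m hm2
    obtain ⟨a, ha, hae⟩ := hm m hm2
    refine ⟨a, ha, ?_⟩
    have e1 : θ ^ m * algebraMap (𝓞 L) L (ev F t p) =
        θ ^ m * x ^ 2 / α - (s : F) ^ 2 • θ ^ m := by
      rw [hp2, map_sub, hu, ← IsScalarTower.algebraMap_apply (𝓞 F) (𝓞 L) L,
        IsScalarTower.algebraMap_apply (𝓞 F) F L, Algebra.smul_def, map_pow]
      ring
    rw [e1, map_sub, map_smul, top_pow hG m hm2, hae]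
    split_ifs <;> simp
  have hV : ∀ i : ℕ, ∃ b : 𝓞 F, (b : F) = hG.top (θ ^ i) := by
    intro i
    exact ⟨⟨_, top_powi hG i⟩, rfl⟩
  choose b hb using hV
  have hb0 : ∀ i < 2 * g, b i = 0 := by
    intro i hi
    apply RingOfIntegers.coe_injective
    change ((b i : 𝓞 F) : F) = algebraMap (𝓞 F) F 0
    rw [hb, top_pow hG i hi.le, if_neg hi.ne, map_zero]
  have hb1 : b (2 * g) = 1 := by
    apply RingOfIntegers.coe_injective
    change ((b (2 * g) : 𝓞 F) : F) = algebraMap (𝓞 F) F 1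
    rw [hb, top_pow hG _ le_rfl, if_pos rfl, map_one]
  have hsum : ∀ m, hG.top (θ ^ m * algebraMap (𝓞 L) L (ev F t p)) =
      ((∑ i ∈ Finset.range (2 * g + 1), p.coeff i * b (i + m) : 𝓞 F) : F) := by
    intro m
    have h3 : θ ^ m * algebraMap (𝓞 L) L (ev F t p) = ∑ i ∈ Finset.range (2 * g + 1),
        ((p.coeff i : 𝓞 F) : F) • θ ^ (i + m) := by
      rw [ev_L ht, aeval_def, eval₂_eq_sum_range' (algebraMap (𝓞 F) L) (n := 2 * g + 1),
        Finset.mul_sum]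
      · refine Finset.sum_congr rfl fun i _ => ?_
        rw [Algebra.smul_def, IsScalarTower.algebraMap_apply (𝓞 F) F L, pow_add]
        ring
      · by_cases hr0 : p = 0
        · rw [hr0]; simp
        · exact (natDegree_lt_iff_degree_lt hr0).2 hp1
    have h7 : ((∑ i ∈ Finset.range (2 * g + 1), p.coeff i * b (i + m) : 𝓞 F) : F) =
        algebraMap (𝓞 F) F (∑ i ∈ Finset.range (2 * g + 1), p.coeff i * b (i + m)) := rfl
    rw [h3, h7, map_sum, map_sum]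
    refine Finset.sum_congr rfl fun i _ => ?_
    rw [map_smul, smul_eq_mul, ← hb (i + m), map_mul]
  have hcoef : ∀ n, ∀ j ≤ 2 * g, 2 * g < n + j + 1 → p.coeff j ∈ 𝔮 := by
    intro n
    induction n with
    | zero =>
      intro j hj hnj
      have hj' : j = 2 * g := by omega
      obtain ⟨a, ha, hae⟩ := htop 0 (Nat.zero_le _)
      rw [hsum] at hae
      have h1 : a = ∑ i ∈ Finset.range (2 * g + 1), p.coeff i * b (i + 0) :=
        RingOfIntegers.coe_injective hae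
      rw [Finset.sum_eq_single (2 * g) (fun i hi hne => by
        rw [add_zero, hb0 i (by rw [Finset.mem_range] at hi; omega), mul_zero]) (fun h => by
        exact absurd (Finset.mem_range.2 (by omega)) h), add_zero, hb1, mul_one] at h1
      rw [hj', ← h1]
      exact ha
    | succ n ih =>
      intro j hj hnj
      rcases Nat.lt_or_ge (2 * g) (n + j + 1) with h0 | h0
      · exact ih j hj h0
      · have hjn : j + n + 1 = 2 * g := by omega
        obtain ⟨a, ha, hae⟩ := htop (n + 1) (by omega)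
        rw [hsum] at hae
        have h1 : a = ∑ i ∈ Finset.range (2 * g + 1), p.coeff i * b (i + (n + 1)) :=
          RingOfIntegers.coe_injective hae
        rw [← Finset.add_sum_erase _ _ (Finset.mem_range.2 (by omega : j < 2 * g + 1)),
          show j + (n + 1) = 2 * g by omega, hb1, mul_one] at h1
        have h2 : ∑ i ∈ (Finset.range (2 * g + 1)).erase j, p.coeff i * b (i + (n + 1)) ∈ 𝔮 := by
          refine Ideal.sum_mem _ fun i hi => ?_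
          rw [Finset.mem_erase, Finset.mem_range] at hi
          rcases Nat.lt_or_ge i j with h3 | h3
          · rw [hb0 _ (by omega), mul_zero]
            exact 𝔮.zero_mem
          · exact 𝔮.mul_mem_right _ (ih i (by omega) (by omega))
        have h3 : p.coeff j = a - ∑ i ∈ (Finset.range (2 * g + 1)).erase j,
            p.coeff i * b (i + (n + 1)) := by rw [h1]; ring
        rw [h3]
        exact 𝔮.sub_mem ha h2
  have hmem : u - algebraMap (𝓞 F) (𝓞 L) (s ^ 2) ∈ 𝔓.asIdeal := by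
    rw [← hp2, ev, coe_eval₂RingHom, eval₂_eq_sum_range' (algebraMap (𝓞 F) (𝓞 L)) (n := 2 * g + 1)]
    · refine Ideal.sum_mem _ fun i hi => ?_
      rw [Finset.mem_range] at hi
      exact 𝔓.asIdeal.mul_mem_right _ (hov _ (hcoef (2 * g) i (by omega) (by omega)))
    · by_cases hr0 : p = 0
      · rw [hr0]; simp
      · exact (natDegree_lt_iff_degree_lt hr0).2 hp1
  have hsP : algebraMap (𝓞 F) (𝓞 L) s ∉ 𝔓.asIdeal := by
    intro hsm
    have hmax : 𝔮.IsMaximal := hprime.isMaximal hq0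
    obtain ⟨y, z, hz, hyz⟩ := hmax.exists_inv hs
    have h1 := 𝔓.asIdeal.add_mem (𝔓.asIdeal.mul_mem_left (algebraMap (𝓞 F) (𝓞 L) y) hsm) (hov z hz)
    rw [← map_mul, ← map_add, hyz, map_one] at h1
    exact 𝔓.isPrime.ne_top ((Ideal.eq_top_iff_one _).2 h1)
  have hs1 : 𝔓.valuation L (algebraMap (𝓞 L) L (algebraMap (𝓞 F) (𝓞 L) s)) = 1 := by
    rw [HeightOneSpectrum.valuation_of_algebraMap]
    exact HeightOneSpectrum.intValuation_eq_one_iff.2 hsP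
  obtain ⟨σ, hσ⟩ : ∃ σ : L, σ = algebraMap (𝓞 L) L (algebraMap (𝓞 F) (𝓞 L) s) := ⟨_, rfl⟩
  rw [← hσ] at hs1
  have hσ0 : σ ≠ 0 := by
    rintro rfl
    rw [map_zero] at hs1
    exact zero_ne_one hs1
  have hv : 𝔓.valuation L (x ^ 2 / α - σ ^ 2) < 1 := by
    have e1 : x ^ 2 / α - σ ^ 2 =
        algebraMap (𝓞 L) L (u - algebraMap (𝓞 F) (𝓞 L) (s ^ 2)) := by
      rw [map_sub, hu, map_pow, map_pow, hσ]
    rw [e1]
    exact (𝔓.valuation_lt_one_iff_mem _).2 hmem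
  refine ⟨x / σ, ?_⟩
  have e2 : α - (x / σ) ^ 2 = -(α / σ ^ 2 * (x ^ 2 / α - σ ^ 2)) := by
    field_simp
    ring
  rw [e2, Valuation.map_neg, map_mul, map_div₀, map_pow, hs1, one_pow, div_one]
  have h0 : 𝔓.valuation L α ≠ 0 := (Valuation.ne_zero_iff _).2 hα
  calc 𝔓.valuation L α * 𝔓.valuation L (x ^ 2 / α - σ ^ 2) < 𝔓.valuation L α * 1 := by
        exact mul_lt_mul_of_pos_left hv (zero_lt_iff.2 h0)
    _ = 𝔓.valuation L α := mul_one _

/-- The submodule of the `x` with `x ^ 2 / α` integral. -/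
theorem sdn_ex (F : Type) {L : Type} [Field F] [NumberField F] [Field L] [NumberField L] [Algebra F L]
    (α : L) : ∃ Λ : Submodule (𝓞 F) L, SDn α Λ := by
  have hprod : ∀ x : L, IsIntegral ℤ (x ^ 2 / α) → ∀ y : L, IsIntegral ℤ (y ^ 2 / α) →
      IsIntegral ℤ (x * y / α) := by
    intro x hx y hy
    have h1 : IsIntegral ℤ ((x * y / α) ^ 2) := by
      have h2 : (x * y / α) ^ 2 = (x ^ 2 / α) * (y ^ 2 / α) := by ring
      rw [h2]
      exact hx.mul hy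
    exact IsIntegral.of_pow two_pos h1
  refine ⟨{ carrier := {x | IsIntegral ℤ (x ^ 2 / α)}
            zero_mem' := ?_, add_mem' := ?_, smul_mem' := ?_ }, fun x => Iff.rfl⟩
  · intro x y hx hy
    show IsIntegral ℤ ((x + y) ^ 2 / α)
    have h2 : (x + y) ^ 2 / α = x ^ 2 / α + (x * y / α + x * y / α) + y ^ 2 / α := by ring
    rw [h2]
    exact (IsIntegral.add hx ((hprod x hx y hy).add (hprod x hx y hy))).add hy
  · show IsIntegral ℤ ((0 : L) ^ 2 / α)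
    rw [zero_pow two_ne_zero, zero_div]
    exact isIntegral_zero
  · intro c x hx
    show IsIntegral ℤ ((c • x) ^ 2 / α)
    have h2 : (c • x) ^ 2 / α = (algebraMap (𝓞 L) L (algebraMap (𝓞 F) (𝓞 L) c ^ 2)) *
        (x ^ 2 / α) := by
      rw [map_pow, ← IsScalarTower.algebraMap_apply, Algebra.smul_def]
      ring
    rw [h2]
    exact ((int_iff _).2 ⟨_, rfl⟩).mul hx

/-- `W` is prime to `𝔮 q`. -/
theorem w_notMem {F : Type} [Field F] [NumberField F] {g W : ℕ} {S : Finset ℕ}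
    {𝔮 : ℕ → Ideal (𝓞 F)} {h P : ℕ → (𝓞 F)[X]} (hW : 0 < W) (hS : GoodS g W S 𝔮 h P) {q : ℕ}
    (hq : q ∈ S) : (W : 𝓞 F) ∉ 𝔮 q := by
  obtain ⟨hqp, hlt, -, -, -, hp, hqm, -⟩ := hS q hq
  intro hWm
  have hc : Nat.Coprime W q := by
    rw [Nat.coprime_comm, hqp.coprime_iff_not_dvd]
    exact fun hd => absurd (Nat.le_of_dvd hW hd) (not_le.2 hlt)
  have h1 : IsCoprime (W : ℤ) (q : ℤ) := Nat.isCoprime_iff_coprime.2 hc
  obtain ⟨a, b, hab⟩ := h1
  have h2 : (a : 𝓞 F) * (W : 𝓞 F) + (b : 𝓞 F) * (q : 𝓞 F) = 1 := by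
    have := congrArg (fun z : ℤ => (z : 𝓞 F)) hab
    simpa using this
  apply hp.ne_top
  rw [Ideal.eq_top_iff_one, ← h2]
  exact (𝔮 q).add_mem ((𝔮 q).mul_mem_left _ hWm) ((𝔮 q).mul_mem_left _ hqm)

theorem t (h2 : S_MAJ) (h4 : S_SQ) (hI : S_INTW) : S_LBTW := by
  intro g F _ _ hg
  obtain ⟨C₀, β₀, hC⟩ := typD h2 g F
  obtain ⟨d, hd⟩ : ∃ d : ℕ, d = Module.finrank ℚ F := ⟨_, rfl⟩
  obtain ⟨f₀, hf₀⟩ : ∃ f₀ : ℕ, f₀ = (2 * g + 1).factorial := ⟨_, rfl⟩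
  refine ⟨2 * C₀ + 2 * g + 2 + d * (f₀ + 2 * C₀ * (2 * g + 1)),
    2 * β₀ + d * (2 * β₀ * (2 * g + 1)), ?_⟩
  intro L _ _ _ f θ B N W l S Q Z U 𝔮 h P hκW hS hG hsqf hHt hBN hcg hQS hZS hUS hQl α hα hnorm hns hev hsq1 hnsq
  obtain ⟨C, hCd⟩ : ∃ C : ℕ, C = C₀ + β₀ * l := ⟨_, rfl⟩
  obtain ⟨K0, hK0⟩ : ∃ K0 : ℕ, K0 =
    ((2 * g + 1).factorial * 2 ^ (2 * C * (2 * g + 1))) ^ Module.finrank ℚ F := ⟨_, rfl⟩
  obtain ⟨κ, hκ⟩ : ∃ κ, κ = 2 * C₀ + 2 * g + 2 + d * (f₀ + 2 * C₀ * (2 * g + 1)) +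
    (2 * β₀ + d * (2 * β₀ * (2 * g + 1))) * l := ⟨_, rfl⟩
  have hκ2 : κ = 2 * C + 2 * g + 2 + d * (f₀ + 2 * C * (2 * g + 1)) := by
    rw [hκ, hCd]
    ring
  have hK0κ : K0 ≤ 2 ^ κ := by
    have t1 : K0 ≤ (2 ^ f₀ * 2 ^ (2 * C * (2 * g + 1))) ^ d := by
      rw [hK0, ← hd, ← hf₀]
      exact Nat.pow_le_pow_left (Nat.mul_le_mul_right _ Nat.lt_two_pow_self.le) _
    refine t1.trans ?_
    rw [← pow_add, ← pow_mul]
    refine Nat.pow_le_pow_right (by norm_num) ?_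
    rw [hκ2, mul_comm (f₀ + _) d]
    omega
  rw [← hκ] at hBN ⊢
  -- the lattice
  obtain ⟨D₂, hD₂⟩ : ∃ D₂ : ℕ, D₂ = ∏ q ∈ Q, q := ⟨_, rfl⟩
  have hD20 : D₂ ≠ 0 := by
    rw [hD₂]
    exact Finset.prod_ne_zero_iff.2 fun q hq => (hS q (hQS hq)).1.ne_zero
  rw [← hD₂] at hQl
  have hWp : W ≠ 0 := hsqf.pos.ne'
  have hW0 : (W : L) ≠ 0 := Nat.cast_ne_zero.2 hWp
  obtain ⟨D₁, hD₁⟩ : ∃ D₁ : ℕ, D₁ = W ^ 2 * D₂ := ⟨_, rfl⟩
  have hD0 : D₁ ≠ 0 := by
    rw [hD₁]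
    exact mul_ne_zero (pow_ne_zero 2 hWp) hD20
  rw [← hD₁] at hQl
  have hev' : ∀ 𝔓 : HeightOneSpectrum (𝓞 L), Ev 𝔓 ((W : L) * α) ∨
      ((W * D₂ : ℕ) : 𝓞 L) ∈ 𝔓.asIdeal := by
    intro 𝔓
    by_cases hWP : (W : 𝓞 L) ∈ 𝔓.asIdeal
    · right
      rw [Nat.cast_mul]
      exact 𝔓.asIdeal.mul_mem_right _ hWP
    · by_cases h' : ∀ q ∈ Q, Ov (𝔮 q) 𝔓 → 𝔓.valuation L θ ≠ 1
      · left
        obtain ⟨y, hy⟩ := hev 𝔓 hWP h'
        refine ⟨y, ?_⟩
        have h1 : 𝔓.valuation L (W : L) = 1 := by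
          have h2 : (W : L) = algebraMap (𝓞 L) L (W : 𝓞 L) := by rw [map_natCast]
          rw [h2]
          rcases lt_or_eq_of_le (𝔓.valuation_le_one (K := L) (W : 𝓞 L)) with h | h
          · exact absurd ((𝔓.valuation_lt_one_iff_mem (K := L) _).1 h) hWP
          · exact h
        rw [map_mul, h1, one_mul]
        exact hy
      · right
        push Not at h'
        obtain ⟨q, hq, hov, -⟩ := h'
        have h1 := hov _ (hS q (hQS hq)).2.2.2.2.2.2.1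
        rw [map_natCast] at h1
        rw [hD₂, ← Finset.mul_prod_erase Q (fun q => q) hq, Nat.cast_mul, Nat.cast_mul]
        exact 𝔓.asIdeal.mul_mem_left _ (𝔓.asIdeal.mul_mem_right _ h1)
  obtain ⟨Λ, hSDn, hLat⟩ := sdW hI g W F L f θ hG hsqf α hα D₂ hev'
  rw [← hD₁] at hLat
  have hcg' : ∀ q ∈ S, Cg (𝔮 q) f (X * h q) := by
    intro q hq j
    obtain ⟨-, -, -, -, -, -, hmem, -, -, -, -, -, -, hcg1, -⟩ := hS q hq
    have h1 := hcg q hq j
    have h2 : sp F q ≤ 𝔮 q := by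
      rw [sp, Ideal.span_singleton_le_iff_mem]
      exact hmem
    have h3 := Ideal.add_mem _ (h2 h1) (hcg1 j)
    have e : f.coeff j - (X * h q).coeff j =
        f.coeff j - (P q).coeff j + ((P q).coeff j - (X * h q).coeff j) := by ring
    rw [e]
    exact h3
  obtain ⟨Λ₀, hΛ₀⟩ := sdn_ex F α
  have hdist : ∀ q ∈ Z, DVec hG α Λ (𝔮 q) := by
    intro q hq
    have hqS : q ∈ S := (Finset.mem_sdiff.1 (hZS hq)).1
    obtain ⟨hb, hs⟩ := Pool.Agent.N771.PF.sep_q hg hS hqS (hcg' q hqS)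
    exact tvW hI g W F L f θ hG hsqf α Λ Λ₀ hα hSDn hΛ₀ (𝔮 q) (hS q hqS).2.2.2.2.2.1 hb
      (w_notMem hsqf.pos hS hqS) hs (hsq1 q hq)
  have hB1 : 1 ≤ B := one_le_B hg hG hHt
  have hκN : κ ≤ 2 * N := by
    have t1 : 2 ^ κ ≤ 4 ^ N := le_trans (Nat.le_mul_of_pos_right _ hB1) hBN
    rw [show (4 : ℕ) = 2 ^ 2 by norm_num, ← pow_mul] at t1
    exact (Nat.pow_le_pow_iff_right (by norm_num)).1 t1
  have hBN1 : (B : ℝ) ≤ 4 ^ N := by
    have t1 : B ≤ 4 ^ N := le_trans (Nat.le_mul_of_pos_left _ (by positivity)) hBN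
    exact_mod_cast t1
  have hB0 : (1 : ℝ) ≤ B := by exact_mod_cast hB1
  obtain ⟨e, w, heΛ, hli, hTyp, hew⟩ := hC hg B L f θ hG D₁ l α Λ hD0 hQl hHt hα hLat
  rw [← hCd] at hew
  obtain ⟨A, A', hGr, sA, sA', hdet0, hchp, htr, hdet, hmod⟩ :=
    chiD g F L f θ hG D₁ α Λ e hHt.tr hα hLat heΛ hli
  obtain ⟨hmaj, hmaj2⟩ := h2 g B F L f θ hg hG hHt
  obtain ⟨x, hx0, hxd⟩ := hdet hnorm
  -- bounds
  have bA' : ∀ i j, Bd (A i j : F) ((2 : ℝ) ^ (2 * (C : ℤ) + w i + w j)) := by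
    intro i j σ
    have t1 := hmaj α hα σ 0 (e i) (e j)
    rw [pow_zero, one_mul, mul_zero, pow_zero, one_mul, ← hGr.gA] at t1
    have t2 : HH f θ α (e i) * HH f θ α (e j) ≤ ((2 : ℝ) ^ (2 * (C : ℤ) + w i + w j)) ^ 2 := by
      refine (mul_le_mul (hew i) (hew j) (HH_nonneg _ _) (by positivity)).trans (le_of_eq ?_)
      rw [← zpow_add₀ (by norm_num), ← four_zpow]
      congr 1
      ring
    exact (sq_le_sq₀ (norm_nonneg _) (by positivity)).1 (t1.trans t2)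
  have bA : ∀ i j, Bd (A i j : F) ((2 : ℝ) ^ ((κ : ℤ) + w i + w j)) := by
    intro i j σ
    refine (bA' i j σ).trans (zpow_le_zpow_right₀ (by norm_num) ?_)
    rw [hκ2]
    push_cast
    have : (0 : ℤ) ≤ g := by positivity
    have : (0 : ℤ) ≤ d * (f₀ + 2 * C * (2 * g + 1)) := by positivity
    linarith
  have bB : ∀ i j, Bd (A' i j : F) ((2 : ℝ) ^ (2 * (N : ℤ) + w i + w j)) := by
    intro i j σ
    have t1 := hmaj α hα σ 1 (e i) (e j)
    rw [pow_one, mul_one, ← hGr.gB] at t1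
    have t2 : (2 * B : ℝ) ^ 2 * (HH f θ α (e i) * HH f θ α (e j)) ≤
        ((2 * (B : ℝ)) * (2 : ℝ) ^ (2 * (C : ℤ) + w i + w j)) ^ 2 := by
      rw [mul_pow (2 * (B : ℝ)) _]
      refine mul_le_mul_of_nonneg_left ?_ (sq_nonneg _)
      refine (mul_le_mul (hew i) (hew j) (HH_nonneg _ _) (by positivity)).trans (le_of_eq ?_)
      rw [← zpow_add₀ (by norm_num), ← four_zpow]
      congr 1
      ring
    have t3 := (sq_le_sq₀ (norm_nonneg _) (by positivity)).1 (t1.trans t2)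
    refine t3.trans ?_
    have t4 : (2 * (B : ℝ)) * (2 : ℝ) ^ (2 * (C : ℤ)) ≤ (2 : ℝ) ^ (2 * (N : ℤ)) := by
      have t5 : 2 * B * 2 ^ (2 * C) ≤ 2 ^ (2 * N) := by
        calc 2 * B * 2 ^ (2 * C) = 2 ^ (2 * C + 1) * B := by ring
          _ ≤ 2 ^ κ * B := Nat.mul_le_mul_right _ (Nat.pow_le_pow_right (by norm_num) (by rw [hκ2]; omega))
          _ ≤ 4 ^ N := hBN
          _ = 2 ^ (2 * N) := by rw [show (4 : ℕ) = 2 ^ 2 by norm_num, ← pow_mul]
      exact_mod_cast t5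
    calc 2 * (B : ℝ) * (2 : ℝ) ^ (2 * (C : ℤ) + w i + w j)
        = (2 * (B : ℝ)) * (2 : ℝ) ^ (2 * (C : ℤ)) * (2 : ℝ) ^ (w i + w j) := by
          rw [add_assoc, zpow_add₀ (by norm_num)]
          ring
      _ ≤ (2 : ℝ) ^ (2 * (N : ℤ)) * (2 : ℝ) ^ (w i + w j) :=
          mul_le_mul_of_nonneg_right t4 (by positivity)
      _ = (2 : ℝ) ^ (2 * (N : ℤ) + w i + w j) := by
          rw [add_assoc, ← zpow_add₀ (by norm_num)]
  -- the size of x
  have hxn : Ideal.absNorm (Ideal.span {x}) ≤ K0 := by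
    have t1 : Bd ((x ^ 2 : 𝓞 F) : F) (((2 * g + 1).factorial * 2 ^ (2 * C * (2 * g + 1)) : ℕ) : ℝ) := by
      intro σ
      have t2 := det_le' hTyp bA' σ
      rw [hxd] at t2
      have t3 : ‖σ (((-1) ^ g * x ^ 2 : 𝓞 F) : F)‖ = ‖σ ((x ^ 2 : 𝓞 F) : F)‖ := by
        rcases neg_one_pow_eq_or (𝓞 F) g with t4 | t4
        · rw [t4, one_mul]
        · rw [t4, neg_one_mul]
          simp
      rwa [t3] at t2
    have t2 := norm_le _ t1
    have t3 : Ideal.absNorm (Ideal.span {x ^ 2}) ≤ K0 := by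
      rw [hK0]
      exact_mod_cast t2
    refine le_trans ?_ t3
    have t4 : Ideal.span {x ^ 2} = Ideal.span {x} * Ideal.span {x} := by
      rw [Ideal.span_singleton_mul_span_singleton, sq]
    rw [t4, map_mul]
    exact Nat.le_mul_of_pos_left _ (norm_pos hx0)
  have hnb : ∀ q ∈ S, ∀ 𝔭 : Ideal (𝓞 F), (q : 𝓞 F) ∈ 𝔭 → 𝔭 ≠ ⊥ := by
    intro q hq 𝔭 hqp hb
    rw [hb, Ideal.mem_bot] at hqp
    have : (q : 𝓞 F) ≠ 0 := Nat.cast_ne_zero.2 (hS q hq).1.ne_zero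
    exact this hqp
  -- the type
  refine ⟨irrF hG, w, hTyp, ?_, ?_, A, A', ⟨⟨sA, sA', ⟨x, hx0, hxd, ?_⟩, htr, bA, bB⟩, ?_, ?_, ?_⟩,
    hchp⟩
  · -- gaps
    intro i j hij
    by_contra hcon'
    push Not at hcon'
    have hi : (i : ℕ) + 1 < 2 * g + 1 := by
      rw [← hij]
      exact j.2
    obtain ⟨a, ha, b, hb, hab⟩ := Pool.Agent.N530.PQ.gap g F (mF A) (mF A')
      (by
        have := congrArg (fun M : Mt g (𝓞 F) => M.map (algebraMap (𝓞 F) F)) sA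
        simpa [Matrix.IsSymm, Matrix.transpose_map] using this)
      (by
        have := congrArg (fun M : Mt g (𝓞 F) => M.map (algebraMap (𝓞 F) F)) sA'
        simpa [Matrix.IsSymm, Matrix.transpose_map] using this)
      (by
        have t : (mF A).det = algebraMap (𝓞 F) F A.det := (RingHom.map_det _ _).symm
        rw [t]
        intro t0
        apply hdet0
        exact (map_eq_zero_iff _ (FaithfulSMul.algebraMap_injective (𝓞 F) F)).1 t0)
      (by rw [hchp]; exact irrF hG)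
      i ⟨2 * g - 1 - i, by omega⟩ (by simp only; omega)
    have t2 := hTyp.mono ha
    have t3 := hTyp.mono hb
    have t4 : (⟨2 * g - 1 - i, by omega⟩ : Fin (2 * g + 1)) = Fin.rev j := by
      apply Fin.ext
      rw [Fin.val_rev]
      simp only
      omega
    rw [t4, hTyp.anti] at t3
    have z1 : A a b = 0 := zero_of_z (bA a b) (by
      have : (κ : ℤ) ≤ 2 * N := by exact_mod_cast hκN
      linarith)
    have z2 : A' a b = 0 := zero_of_z (bB a b) (by linarith)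
    rcases hab with hab | hab
    · apply hab
      change algebraMap (𝓞 F) F (A a b) = 0
      rw [z1, map_zero]
    · apply hab
      change algebraMap (𝓞 F) F (A' a b) = 0
      rw [z2, map_zero]
  · -- the middle gap or the depth
    · intro i hi
      by_contra hcon'
      push Not at hcon'
      apply hns
      have hz : ∀ a b : Fin (2 * g + 1), (a : ℕ) < g → (b : ℕ) < g → A a b = 0 ∧ A' a b = 0 := by
        intro a b ha hb
        have t2 := hTyp.mono (show a ≤ i from Fin.le_def.2 (by omega))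
        have t3 := hTyp.mono (show b ≤ i from Fin.le_def.2 (by omega))
        constructor
        · exact zero_of_z (bA a b) (by
            have : (κ : ℤ) ≤ 2 * N := by exact_mod_cast hκN
            linarith)
        · exact zero_of_z (bB a b) (by linarith)
      refine h4 g F L f θ hg hG α e hα hli ?_ ?_ hnorm
      · intro a b ha hb
        rw [← hGr.gA, (hz a b ha hb).1]
        exact map_zero (algebraMap (𝓞 F) F)
      · intro a b ha hb
        rw [← hGr.gB, (hz a b ha hb).2]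
        exact map_zero (algebraMap (𝓞 F) F)
  · -- the norm of x
    exact hxn.trans hK0κ
  · -- congruences
    intro q hq hnp 𝔭 hp hqp
    have hq := (Finset.mem_sdiff.1 hq).1
    rw [(hmod 𝔭 hp (hnb q hq 𝔭 hqp) (hnp 𝔭 hp hqp)).1]
    ext1
    rename_i j
    rw [rd, rd, coeff_map, coeff_map, Ideal.Quotient.mk_eq_mk_iff_sub_mem]
    exact (Ideal.span_singleton_le_iff_mem 𝔭).2 hqp (hcg q hq j)
  · -- distinguished
    intro q _ hq' hnp
    have hq := (Finset.mem_sdiff.1 (hZS hq')).1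
    obtain ⟨-, -, -, -, -, hp, hqp, -⟩ := hS q hq
    exact (hmod (𝔮 q) hp (hnb q hq _ hqp) (hnp _ hp hqp)).2 (hdist q hq')
  · -- not distinguished
    intro q _ hq' hnp hD
    have hq := (Finset.mem_sdiff.1 (hUS hq')).1
    obtain ⟨-, -, -, -, -, hp, hqp, -⟩ := hS q hq
    have hb0 := hnb q hq _ hqp
    have h5 := distD g F L f θ hG D₁ α Λ e hα hLat heΛ hli A A' hGr (𝔮 q) hp hb0
      (hnp _ hp hqp) hD
    obtain ⟨𝔓, hov, hnq⟩ := hnsq q hq'
    exact hnq (sq1W hI g W F L f θ hG hsqf α Λ hα hSDn (𝔮 q) hp hb0 h5 𝔓 hov)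

end Pool.Agent.H18N.LBTW
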