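import Pool.Agent.H18N.Stm
import Pool.Agent.H48L.B

/-!
Project JN (helper18), part LCT: the number of the classes of local squares (helper48).
-/

set_option autoImplicit false
set_option linter.all false

open IsDedekindDomain WithZero NumberField Pool.Agent.N783.PF Pool.Agent.H48L

namespace Pool.Agent.H18N.LCT

theorem log_data {K : Type} [Field K] [NumberField K] (v : HeightOneSpectrum (𝓞 K)) :
    ∃ E : ℕ, v.valuation K (2 : K) = exp (-(E : ℤ)) := by
  have h0 : v.valuation K (2 : K) ≠ 0 := (Valuation.ne_zero_iff _).2 two_ne_zero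
  have h1 : v.valuation K (2 : K) ≤ 1 := by
    have e2 : (algebraMap (𝓞 K) K 2) = 2 := map_ofNat _ 2
    rw [← e2]
    exact HeightOneSpectrum.valuation_le_one (K := K) v (2 : 𝓞 K)
  refine ⟨(-(log (v.valuation K (2 : K)))).toNat, ?_⟩
  rw [← exp_log h0, ← exp_zero, exp_le_exp] at h1
  have : -((-(log (v.valuation K (2 : K)))).toNat : ℤ) = log (v.valuation K (2 : K)) := by omega
  rw [this, exp_log h0]

theorem mem_data {K : Type} [Field K] [NumberField K] (v : HeightOneSpectrum (𝓞 K)) {E : ℕ}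
    (h : v.valuation K (2 : K) = exp (-(E : ℤ))) :
    (2 : 𝓞 K) ∈ v.asIdeal ^ E ∧ (2 : 𝓞 K) ∉ v.asIdeal ^ (E + 1) := by
  have e2 : (algebraMap (𝓞 K) K 2) = 2 := map_ofNat _ 2
  constructor
  · rw [← mem_pow_iff K, e2, h]
  · rw [← mem_pow_iff K, e2, h, exp_le_exp]
    push_cast
    omega

section ideals

variable {F L : Type} [Field F] [NumberField F] [Field L] [NumberField L] [Algebra F L]

theorem ov_iff (w : HeightOneSpectrum (𝓞 F)) (v : HeightOneSpectrum (𝓞 L)) :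
    Ov w.asIdeal v ↔ w.asIdeal.map (algebraMap (𝓞 F) (𝓞 L)) ≤ v.asIdeal := by
  rw [Ideal.map_le_iff_le_comap]
  rfl

theorem map_ne (w : HeightOneSpectrum (𝓞 F)) : w.asIdeal.map (algebraMap (𝓞 F) (𝓞 L)) ≠ ⊥ := by
  intro h
  rw [Ideal.map_eq_bot_iff_of_injective (FaithfulSMul.algebraMap_injective (𝓞 F) (𝓞 L))] at h
  exact w.ne_bot h

/-- the primes over `w` -/
theorem exists_T (w : HeightOneSpectrum (𝓞 F)) :
    ∃ T : Finset (HeightOneSpectrum (𝓞 L)), ∀ v, v ∈ T ↔ Ov w.asIdeal v := by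
  have h := Ideal.finite_factors (map_ne (L := L) w)
  refine ⟨h.toFinset, fun v => ?_⟩
  rw [Set.Finite.mem_toFinset, Set.mem_setOf_eq, ov_iff, Ideal.dvd_iff_le]

theorem prod_eq (w : HeightOneSpectrum (𝓞 F)) (e : ℕ)
    (he : w.valuation F (2 : F) = exp (-(e : ℤ))) (T : Finset (HeightOneSpectrum (𝓞 L)))
    (hT : ∀ v, v ∈ T ↔ Ov w.asIdeal v) (E : HeightOneSpectrum (𝓞 L) → ℕ)
    (hE : ∀ v, v.valuation L (2 : L) = exp (-(E v : ℤ))) :
    (w.asIdeal ^ e).map (algebraMap (𝓞 F) (𝓞 L)) = ∏ v ∈ T, v.asIdeal ^ E v := by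
  classical
  set φ := algebraMap (𝓞 F) (𝓞 L) with hφ
  set J := (w.asIdeal ^ e).map φ with hJ
  obtain ⟨m1, m2⟩ := mem_data w he
  have hd : w.asIdeal ^ e ∣ Ideal.span {(2 : 𝓞 F)} := by
    rw [Ideal.dvd_span_singleton]; exact m1
  obtain ⟨𝔟, hb⟩ := hd
  have hwb : ¬ 𝔟 ≤ w.asIdeal := by
    intro h
    apply m2
    rw [← Ideal.dvd_span_singleton, hb, pow_succ]
    exact mul_dvd_mul_left _ (Ideal.dvd_iff_le.2 h)
  have hs : Ideal.span {(2 : 𝓞 L)} = J * 𝔟.map φ := by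
    rw [hJ, ← Ideal.map_mul, ← hb, Ideal.map_span, Set.image_singleton, map_ofNat]
  have hvT : ∀ v ∈ T, v.asIdeal ^ E v ∣ Ideal.span {(2 : 𝓞 L)} := by
    intro v _
    rw [Ideal.dvd_span_singleton]
    exact (mem_data v (hE v)).1
  have hcomap : ∀ v ∈ T, v.asIdeal.comap φ = w.asIdeal := by
    intro v hv
    have h1 : w.asIdeal ≤ v.asIdeal.comap φ := by
      rw [← Ideal.map_le_iff_le_comap, ← ov_iff]
      exact (hT v).1 hv
    have := v.isPrime
    have h3 : (v.asIdeal.comap φ) ≠ ⊤ := Ideal.comap_ne_top _ v.isPrime.ne_top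
    exact (w.isMaximal.eq_of_le h3 h1).symm
  have hcop : ∀ v ∈ T, ∀ u ∈ T, v ≠ u → IsCoprime (v.asIdeal ^ E v) (u.asIdeal ^ E u) := by
    intro v _ u _ h
    refine IsCoprime.pow ?_
    rw [Ideal.isCoprime_iff_sup_eq]
    exact v.isMaximal.coprime_of_ne u.isMaximal (fun h' => h (HeightOneSpectrum.ext h'))
  -- one divisibility
  have d1 : (∏ v ∈ T, v.asIdeal ^ E v) ∣ J := by
    refine Finset.prod_dvd_of_coprime (fun v hv u hu h => hcop v hv u hu h) fun v hv => ?_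
    have h1 := hvT v hv
    rw [hs] at h1
    refine IsCoprime.dvd_of_dvd_mul_right ?_ h1
    refine IsCoprime.pow_left ?_
    rw [Ideal.isCoprime_iff_sup_eq]
    by_contra hne
    have hle := v.isMaximal.eq_of_le hne (le_sup_left : v.asIdeal ≤ v.asIdeal ⊔ 𝔟.map φ)
    have h2 : 𝔟.map φ ≤ v.asIdeal := by
      rw [hle]; exact le_sup_right
    rw [Ideal.map_le_iff_le_comap, hcomap v hv] at h2
    exact hwb h2
  obtain ⟨Q, hQ⟩ : (∏ v ∈ T, v.asIdeal ^ E v) ∣ Ideal.span {(2 : 𝓞 L)} :=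
    d1.trans (hs ▸ dvd_mul_right _ _)
  have d2 : J ∣ ∏ v ∈ T, v.asIdeal ^ E v := by
    have h1 : J ∣ (∏ v ∈ T, v.asIdeal ^ E v) * Q := by
      rw [← hQ, hs]; exact dvd_mul_right _ _
    refine IsCoprime.dvd_of_dvd_mul_right ?_ h1
    rw [Ideal.isCoprime_iff_sup_eq]
    by_contra hne
    obtain ⟨m, hm, hle⟩ := Ideal.exists_le_maximal _ hne
    have hJm : J ≤ m := le_sup_left.trans hle
    have hQm : Q ≤ m := le_sup_right.trans hle
    have hm0 : m ≠ ⊥ := by
      intro h0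
      rw [h0, le_bot_iff, hJ, Ideal.map_eq_bot_iff_of_injective
        (FaithfulSMul.algebraMap_injective (𝓞 F) (𝓞 L))] at hJm
      exact pow_ne_zero e w.ne_bot hJm
    let v : HeightOneSpectrum (𝓞 L) := ⟨m, hm.isPrime, hm0⟩
    have hv : v ∈ T := by
      rw [hT, ov_iff]
      have h3 : (w.asIdeal.map φ) ^ e ≤ m := by
        rw [← Ideal.map_pow]; exact hJm
      exact hm.isPrime.le_of_pow_le h3
    apply (mem_data v (hE v)).2
    rw [← Ideal.dvd_span_singleton, hQ, pow_succ]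
    exact mul_dvd_mul (Finset.dvd_prod_of_mem (fun v => v.asIdeal ^ E v) hv)
      (Ideal.dvd_iff_le.2 hQm)
  exact le_antisymm (Ideal.dvd_iff_le.1 d1) (Ideal.dvd_iff_le.1 d2)

theorem norm_eq (w : HeightOneSpectrum (𝓞 F)) (e : ℕ)
    (he : w.valuation F (2 : F) = exp (-(e : ℤ))) (T : Finset (HeightOneSpectrum (𝓞 L)))
    (hT : ∀ v, v ∈ T ↔ Ov w.asIdeal v) (E : HeightOneSpectrum (𝓞 L) → ℕ)
    (hE : ∀ v, v.valuation L (2 : L) = exp (-(E v : ℤ))) :
    ∏ v ∈ T, Ideal.absNorm v.asIdeal ^ E v =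
      Ideal.absNorm w.asIdeal ^ (Module.finrank F L * e) := by
  have h1 := congrArg Ideal.absNorm (prod_eq w e he T hT E hE)
  rw [Ideal.absNorm_algebraMap, map_prod, map_pow,
    ← IsFractionRing.finrank_eq (𝓞 F) F (𝓞 L) L] at h1
  simp only [map_pow] at h1
  rw [← h1, ← pow_mul, mul_comm]

end ideals

theorem t : S_LCT := by
  classical
  intro F L _ _ _ _ _ w e he
  obtain ⟨T, hT⟩ := exists_T (L := L) w
  have hE0 : ∀ v : HeightOneSpectrum (𝓞 L), ∃ E : ℕ, v.valuation L (2 : L) = exp (-(E : ℤ)) :=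
    fun v => log_data v
  choose E hE using hE0
  have hidx := index_eq L T E (fun v _ => (mem_data v (hE v)).1) (fun v _ => (mem_data v (hE v)).2)
  rw [norm_eq w e he T hT E hE] at hidx
  have h4 : ∀ v : HeightOneSpectrum (𝓞 L), v.valuation L (4 : L) = exp (-((2 * E v : ℕ) : ℤ)) := by
    intro v
    have e4 : (4 : L) = 2 ^ 2 := by norm_num
    rw [e4, map_pow, hE, ← exp_nsmul]
    congr 1
    simp
  set M : Subgroup Lˣ := Sqs Lˣ ⊔ Hs L T E with hM
  have hN0 : 0 < Ideal.absNorm w.asIdeal := by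
    rw [Nat.pos_iff_ne_zero, Ne, Ideal.absNorm_eq_zero_iff]
    exact w.ne_bot
  have hpos : 0 < M.index := by
    rw [hidx]; positivity
  haveI : Finite (Lˣ ⧸ M) := Nat.finite_of_card_ne_zero hpos.ne'
  letI := Fintype.ofFinite (Lˣ ⧸ M)
  have hsq : ∀ a : Lˣ, a ^ 2 ∈ M := fun a =>
    (le_sup_left : Sqs Lˣ ≤ M) (mem_Sqs.2 ⟨a, rfl⟩)
  have hcl : ∀ a b : Lˣ, (QuotientGroup.mk a : Lˣ ⧸ M) = QuotientGroup.mk b ↔ a * b ∈ M := by
    intro a b
    rw [QuotientGroup.eq]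
    constructor
    · intro h
      have : a * b = a ^ 2 * (a⁻¹ * b) := by
        rw [pow_two, mul_assoc, mul_inv_cancel_left]
      rw [this]
      exact M.mul_mem (hsq a) h
    · intro h
      have : a⁻¹ * b = (a⁻¹) ^ 2 * (a * b) := by
        rw [pow_two, mul_assoc, inv_mul_cancel_left]
      rw [this]
      exact M.mul_mem (hsq _) h
  refine ⟨(Finset.univ : Finset (Lˣ ⧸ M)).image fun q => ((q.out : Lˣ) : L), ?_, ?_, ?_, ?_⟩
  · rw [Finset.card_image_of_injective, Finset.card_univ, ← Nat.card_eq_fintype_card]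
    · change M.index = _
      rw [hidx, Nat.subtype_card T hT]
    · intro q q' h
      have := Units.ext h
      rw [← QuotientGroup.out_eq' q, ← QuotientGroup.out_eq' q', this]
  · intro c hc
    rw [Finset.mem_image] at hc
    obtain ⟨q, _, rfl⟩ := hc
    exact Units.ne_zero _
  · intro α hα
    set a : Lˣ := Units.mk0 α hα with ha
    set q : Lˣ ⧸ M := QuotientGroup.mk a with hq
    refine ⟨_, Finset.mem_image_of_mem _ (Finset.mem_univ q), ?_⟩
    have h1 : a * q.out ∈ M := by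
      rw [← hcl]
      exact (QuotientGroup.out_eq' q).symm
    obtain ⟨y, ⟨s, rfl⟩, h, hh, hy⟩ := Subgroup.mem_sup.1
      (show a * q.out ∈ Sqs Lˣ ⊔ Hs L T E from h1)
    refine ⟨((s⁻¹ : Lˣ) : L), Units.ne_zero _, fun v hv => ?_⟩
    have h2 := hh v ((hT v).2 hv)
    rw [h4]
    have h3 : α * (q.out : L) * ((s⁻¹ : Lˣ) : L) ^ 2 = (h : L) := by
      have h5 : h = a * q.out * s⁻¹ ^ 2 := by
        rw [← hy, powMonoidHom_apply, inv_pow, mul_comm (s ^ 2) h, mul_inv_cancel_right]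
      rw [h5]
      rfl
    rw [h3]
    exact h2
  · intro c hc d hd
    rw [Finset.mem_image] at hc hd
    obtain ⟨q, _, rfl⟩ := hc
    obtain ⟨q', _, rfl⟩ := hd
    rintro ⟨y, hy0, hy⟩
    have h1 : (q'.out : Lˣ) * q.out * (Units.mk0 y hy0) ^ 2 ∈ Hs L T E := by
      intro v hv
      rw [← h4]
      exact hy v ((hT v).1 hv)
    have h2 : (q.out : Lˣ) * q'.out ∈ M := by
      have h3 : (q'.out : Lˣ) * q.out * (Units.mk0 y hy0) ^ 2 ∈ M :=
        (le_sup_right : Hs L T E ≤ M) h1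
      have h4 := M.mul_mem h3 (M.inv_mem (hsq (Units.mk0 y hy0)))
      rw [mul_inv_cancel_right, mul_comm] at h4
      exact h4
    rw [← hcl, QuotientGroup.out_eq', QuotientGroup.out_eq'] at h2
    rw [h2]

end Pool.Agent.H18N.LCT
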