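import Pool.Agent.H18N.Stm
import Pool.Agent.N78.PF.Loc
import Pool.Agent.N426.PF.Par

/-!
# Project JN (helper18), part LOCW (helper36): consequences of the local conditions for the twist, nothing
# on the valuations over `W`
-/

set_option autoImplicit false
set_option linter.all false

open Polynomial IsDedekindDomain Matrix NumberField WithZero UniqueFactorizationMonoid
open scoped Classical

namespace Pool.Agent.H18N.LOCW

open Pool.Agent.N874.PP (Ev Sq1 U0)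
open Pool.Agent.N783.PQ (LocIm)
open Pool.Agent.N874.JM (LocF)
open Pool.Agent.N874.PM (Lies)
open Pool.Agent.N783.PF
open Pool.Agent.N862.PP (cn cn_sum)
open Pool.Agent.N426.PF (toG exists_t fd tf_O map_ne mem_nf cn_irr parity perf)
open Pool.Agent.N78.PF (LOC1 LOC2 fF_scale eq_of_ov val_one two_cast val_theta val_der rd_eq sp_le
  map_locF ev_unit)

section pin

variable {F L : Type} [Field F] [NumberField F] [Field L] [NumberField L] [Algebra F L] {g : ℕ}
  {f : (𝓞 F)[X]} {θ : L}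

theorem cn_tot (h0 : IsGen g f θ) [Module.Finite (𝓞 F) (𝓞 L)] [Module.IsTorsionFree (𝓞 F) (𝓞 L)]
    {𝔭 : Ideal (𝓞 F)} (hpp : 𝔭.IsPrime) (hpb : 𝔭 ≠ ⊥) :
    cn (𝓞 F) 𝔭 (𝔭.map (algebraMap (𝓞 F) (𝓞 L))) = 2 * g + 1 := by
  have hirr : Irreducible 𝔭 := (Ideal.prime_of_isPrime hpb hpp).irreducible
  have hr : Module.finrank (𝓞 F) (𝓞 L) = 2 * g + 1 := by
    rw [← IsFractionRing.finrank_eq (𝓞 F) F (𝓞 L) L]
    exact h0.rank
  unfold cn
  rw [Ideal.relNorm_algebraMap, hr,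
    normalizedFactors_pow, Multiset.count_nsmul,
    normalizedFactors_irreducible hirr, normalize_eq, Multiset.count_singleton_self, mul_one]

/-- The parity at a prime modulo which `f` is irreducible. -/
theorem pin (h0 : IsGen g f θ) {𝔭 : Ideal (𝓞 F)} (hp : 𝔭.IsPrime) (hp0 : 𝔭 ≠ ⊥)
    (hf : Irreducible (rd 𝔭 f)) {x : L} (hx : x ≠ 0) (hnx : IsSquare (Algebra.norm F x))
    (𝔓 : HeightOneSpectrum (𝓞 L)) (hov : Ov 𝔭 𝔓) : Ev 𝔓 x := by
  have h := toG h0
  obtain ⟨t, ht⟩ := exists_t (O := 𝓞 L) h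
  have hfin : Module.Finite (𝓞 F) (𝓞 L) := Module.Finite.of_restrictScalars_finite ℤ (𝓞 F) (𝓞 L)
  have htf : Module.IsTorsionFree (𝓞 F) (𝓞 L) := tf_O (K := F) (L := L)
  have hfd := fd h
  have hpf := perf (F := F)
  have hI := map_ne (L := L) hp0
  have hsum := cn_tot h0 hp hp0
  rw [cn_sum _ hI] at hsum
  have hterm : ∀ 𝔔 : HeightOneSpectrum (𝓞 L), Ov 𝔭 𝔔 →
      𝔔.asIdeal ∈ (normalizedFactors (𝔭.map (algebraMap (𝓞 F) (𝓞 L)))).toFinset ∧
      cn (𝓞 F) 𝔭 𝔔.asIdeal ≤ (normalizedFactors (𝔭.map (algebraMap (𝓞 F) (𝓞 L)))).count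
        𝔔.asIdeal * cn (𝓞 F) 𝔭 𝔔.asIdeal := by
    intro 𝔔 h𝔔
    have h1 := (mem_nf hI 𝔔).2 h𝔔
    refine ⟨Multiset.mem_toFinset.2 h1, ?_⟩
    exact Nat.le_mul_of_pos_left _ (Multiset.count_pos.2 h1)
  have hle : ∀ 𝔔 : HeightOneSpectrum (𝓞 L), Ov 𝔭 𝔔 → cn (𝓞 F) 𝔭 𝔔.asIdeal = 2 * g + 1 := by
    intro 𝔔 h𝔔
    obtain ⟨h1, h2⟩ := hterm 𝔔 h𝔔
    have h3 := Finset.single_le_sum (f := fun J => (normalizedFactors (𝔭.map
      (algebraMap (𝓞 F) (𝓞 L)))).count J * cn (𝓞 F) 𝔭 J) (fun i _ => Nat.zero_le _) h1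
    rw [hsum] at h3
    have h4 := cn_irr h0 ht hp hp0 hf h𝔔
    omega
  refine parity hp hp0 𝔓 (by rw [hle 𝔓 hov]; exact ⟨g, rfl⟩) hx hnx fun 𝔔 ho hne => ?_
  exfalso
  obtain ⟨h1, h2⟩ := hterm 𝔓 hov
  obtain ⟨h3, h4⟩ := hterm 𝔔 ho
  have hne' : 𝔔.asIdeal ≠ 𝔓.asIdeal := fun h' => hne (HeightOneSpectrum.ext h')
  have h5 : ∑ J ∈ {𝔔.asIdeal, 𝔓.asIdeal}, (normalizedFactors (𝔭.map
      (algebraMap (𝓞 F) (𝓞 L)))).count J * cn (𝓞 F) 𝔭 J ≤
      ∑ J ∈ (normalizedFactors (𝔭.map (algebraMap (𝓞 F) (𝓞 L)))).toFinset, (normalizedFactors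
        (𝔭.map (algebraMap (𝓞 F) (𝓞 L)))).count J * cn (𝓞 F) 𝔭 J := by
    refine Finset.sum_le_sum_of_subset ?_
    intro J hJ
    rw [Finset.mem_insert, Finset.mem_singleton] at hJ
    rcases hJ with rfl | rfl
    · exact h3
    · exact h1
  rw [Finset.sum_pair hne', hsum] at h5
  rw [hle 𝔓 hov] at h2 h5
  rw [hle 𝔔 ho] at h4 h5
  omega

end pin

/-! ### Squares -/

/-- an integer which is `1` modulo the odd prime `p` is a square in `ℚ_p` -/
theorem sq_odd (p : ℕ) [hp : Fact p.Prime] (hp2 : p ≠ 2) (D : ℕ) (hD : D ≡ 1 [MOD p]) :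
    ∃ δ : ℚ_[p], δ ^ 2 = (D : ℚ_[p]) := by
  obtain ⟨F, hF⟩ : ∃ F : ℤ[X], F = X ^ 2 - C (D : ℤ) := ⟨_, rfl⟩
  have h1 : F.aeval (1 : ℤ_[p]) = ((1 - (D : ℤ) : ℤ) : ℤ_[p]) := by
    rw [hF, map_sub, map_pow, aeval_X, aeval_C]
    simp
  have h2 : F.derivative.aeval (1 : ℤ_[p]) = 2 := by
    rw [hF]
    simp only [derivative_sub, derivative_X_pow, derivative_C, sub_zero, map_mul, aeval_C, map_pow,
      aeval_X, one_pow, mul_one]
    simp
  have hn2 : ‖(2 : ℤ_[p])‖ = 1 := by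
    have h3 : ‖((2 : ℤ) : ℤ_[p])‖ = 1 := by
      refine le_antisymm (PadicInt.norm_le_one _) (not_lt.1 fun h => ?_)
      rw [PadicInt.norm_int_lt_one_iff_dvd] at h
      have h4 : p ∣ 2 := by exact_mod_cast h
      exact hp2 ((Nat.prime_dvd_prime_iff_eq hp.out Nat.prime_two).1 h4)
    simpa using h3
  have h3 : ‖F.aeval (1 : ℤ_[p])‖ < ‖F.derivative.aeval (1 : ℤ_[p])‖ ^ 2 := by
    rw [h1, h2, hn2, one_pow, PadicInt.norm_int_lt_one_iff_dvd]
    have h4 := (Nat.modEq_iff_dvd.1 hD)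
    exact_mod_cast h4
  obtain ⟨z, hz, -⟩ := hensels_lemma h3
  refine ⟨(z : ℚ_[p]), ?_⟩
  rw [hF, map_sub, map_pow, aeval_X, aeval_C, sub_eq_zero] at hz
  have h5 := congrArg (fun x : ℤ_[p] => (x : ℚ_[p])) hz
  simpa using h5

/-- a prime ideal which contains a positive integer `W` contains a prime factor of `W` -/
theorem ex_prime {R : Type} [CommRing R] {I : Ideal R} (hI : I.IsPrime) :
    ∀ W : ℕ, 0 < W → (W : R) ∈ I → ∃ p : ℕ, p.Prime ∧ p ∣ W ∧ (p : R) ∈ I := by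
  intro W
  induction W using Nat.strong_induction_on with
  | _ W ih =>
    intro hW hmem
    by_cases h1 : W = 1
    · exfalso
      rw [h1, Nat.cast_one] at hmem
      exact hI.ne_top ((Ideal.eq_top_iff_one _).2 hmem)
    · obtain ⟨p, hp, k, hk⟩ := Nat.exists_prime_and_dvd h1
      have hk0 : 0 < k := by
        rcases Nat.eq_zero_or_pos k with h0 | h0
        · rw [h0, mul_zero] at hk
          omega
        · exact h0
      rw [hk, Nat.cast_mul] at hmem
      rcases hI.mem_or_mem hmem with h2 | h2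
      · exact ⟨p, hp, ⟨k, hk⟩, h2⟩
      · have hlt : k < W := by
          rw [hk]
          exact (Nat.lt_mul_iff_one_lt_left hk0).2 hp.one_lt
        obtain ⟨q, a1, a2, a3⟩ := ih k hlt hk0 h2
        exact ⟨q, a1, a2.trans ⟨p, by rw [hk, mul_comm]⟩, a3⟩

section main

/-- **LOCW.** -/
theorem t (h3 : S_PARW) (h4 : S_PARQW) (h5 : S_RAMW) (h6 : S_CSQW)
    (h7 : S_EXQW) (h8 : S_LIE) : S_LOCW := by
  intro g W F L _ _ _ _ _ f θ S J 𝔮 r P hg hG hsq hS hS1 hcq hJS h hne hN hloc hreal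
  have hqp : ∀ q ∈ S, q.Prime := fun q hq => (hS q hq).1
  -- congruences modulo `𝔮 q`
  have hcQ : ∀ q ∈ S, Cg (𝔮 q) f (X * r q) := by
    intro q hq j
    obtain ⟨-, -, -, -, -, -, a2, -, -, -, -, -, -, a3, -⟩ := hS q hq
    have b1 := sp_le (F := F) a2 (hcq q hq j)
    have b2 := a3 j
    have := Ideal.add_mem _ b1 b2
    simpa using this
  have hqne : ∀ q ∈ S, 𝔮 q ≠ ⊥ := by
    intro q hq h0
    obtain ⟨a1, -, -, -, -, -, a2, -⟩ := hS q hq
    rw [h0, Ideal.mem_bot] at a2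
    exact a1.ne_zero (by exact_mod_cast a2)
  have hqpr : ∀ q ∈ S, (𝔮 q).IsPrime := by
    intro q hq
    obtain ⟨-, -, -, -, -, a1, -⟩ := hS q hq
    exact a1
  obtain ⟨D, hD⟩ : ∃ D : ℕ, D = Dp J := ⟨_, rfl⟩
  rw [← hD] at hne hN hloc hreal ⊢
  have hD0 : D ≠ 0 := by
    rw [hD, Dp, Finset.prod_ne_zero_iff]
    exact fun q hq => (hqp q (hJS hq)).ne_zero
  have hD8 : D % 8 = 1 := by
    rw [hD]
    have : ∀ T : Finset ℕ, T ⊆ S → (∏ q ∈ T, q) % 8 = 1 := by
      intro T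
      induction T using Finset.induction_on with
      | empty => intro _; rfl
      | insert a T ha ih =>
        intro hT
        rw [Finset.prod_insert ha, Nat.mul_mod, ih fun x hx => hT (Finset.mem_insert_of_mem hx),
          (hS a (hT (Finset.mem_insert_self _ _))).2.2.2.1]
    exact this J hJS
  have hDW : D ≡ 1 [MOD W] := by
    rw [hD]
    have : ∀ T : Finset ℕ, T ⊆ S → (∏ q ∈ T, q) ≡ 1 [MOD W] := by
      intro T
      induction T using Finset.induction_on with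
      | empty => intro _; rfl
      | insert a T ha ih =>
        intro hT
        rw [Finset.prod_insert ha]
        exact (hS1 a (hT (Finset.mem_insert_self _ _))).mul (ih fun x hx => hT (Finset.mem_insert_of_mem hx))
    exact this J hJS
  refine ⟨?_, ?_, ?_, ?_⟩
  · -- even valuations
    intro 𝔓 hWP h𝔓
    obtain ⟨w, w1, w2, w3⟩ := h8 F L 𝔓
    have hL : Lies (M := F) (Ω := L) w 𝔓 := ⟨fun x => (w3 x).1, fun x => (w3 x).2⟩
    have hWw : (W : 𝓞 F) ∉ w.asIdeal := by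
      intro hm
      have := (w2 _).1 hm
      rw [map_natCast] at this
      exact hWP this
    have c2 : (2 : 𝓞 F) ∉ w.asIdeal := by
      intro c2
      obtain ⟨k, hk⟩ := hsq.two
      apply hWw
      rw [hk]
      push_cast
      exact Ideal.mul_mem_right _ _ c2
    · by_cases cq : ∃ q ∈ J, (q : 𝓞 F) ∈ w.asIdeal
      · obtain ⟨q, hq, hqw⟩ := cq
        have hqS := hJS hq
        by_cases cw : w.asIdeal = 𝔮 q
        · have o1 : Ov (𝔮 q) 𝔓 := by
            rw [← cw]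
            exact w1
          have v1 : 𝔓.valuation L θ < 1 := lt_of_le_of_ne (val_theta hG 𝔓) (h𝔓 q hq o1)
          exact h4 g W F L f θ S 𝔮 r P hg hG hsq hS q hqS (hcQ q hqS) _ hne hN 𝔓 o1 v1
        · have e1 := rd_eq (sp_le hqw) (hcq q hqS)
          obtain ⟨-, -, -, -, -, -, -, -, -, -, -, -, -, -, a1⟩ := hS q hqS
          exact pin hG w.isPrime w.ne_bot
            (by rw [e1]; exact a1 _ w.isPrime hqw cw) hne hN 𝔓 w1
      · -- primes not dividing `2 D`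
        have hDw : (D : 𝓞 F) ∉ w.asIdeal := by
          intro hd
          rw [hD, Dp, Nat.cast_prod] at hd
          haveI := w.isPrime
          obtain ⟨q, hq, hqw⟩ := (Ideal.IsPrime.prod_mem_iff).1 hd
          exact cq ⟨q, hq, hqw⟩
        by_cases cu : 𝔓.valuation L (aeval θ (derivative (fF f))) = 1
        · exact ev_unit hG hL c2 hDw h cu (hloc w) hne
        · have v1 : 𝔓.valuation L (aeval θ (derivative (fF f))) < 1 :=
            lt_of_le_of_ne (val_der hG 𝔓) cu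
          obtain ⟨⟨c, hc⟩, hother⟩ := h5 g W F L f θ hG hsq w.asIdeal w.isPrime w.ne_bot hWw 𝔓 w1 v1
          refine h3 g W F L f θ hG hsq w.asIdeal w.isPrime w.ne_bot hWw 𝔓 c w1 hc _ hne hN ?_
          intro 𝔓' o' n'
          obtain ⟨w', u1, u2, u3⟩ := h8 F L 𝔓'
          have ew : w = w' := by
            ext1
            exact eq_of_ov w.isPrime w.ne_bot o' u2
          have hL' : Lies (M := F) (Ω := L) w 𝔓' := by
            rw [ew]
            exact ⟨fun x => (u3 x).1, fun x => (u3 x).2⟩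
          exact ev_unit hG hL' c2 hDw h (hother 𝔓' o' n') (hloc w) hne
  · -- the primes in `J`
    intro q hq 𝔓 o1 v1
    have hqS := hJS hq
    obtain ⟨w, w1, w2, w3⟩ := h8 F L 𝔓
    have hL : Lies (M := F) (Ω := L) w 𝔓 := ⟨fun x => (w3 x).1, fun x => (w3 x).2⟩
    have ew : 𝔮 q = w.asIdeal := eq_of_ov (hqpr q hqS) (hqne q hqS) o1 w2
    obtain ⟨a1, a2, a3, a4, a5, a6, a7, a8, a9, a10, a11, a12, a13, a14, a15⟩ := hS q hqS
    haveI : Finite (𝓞 F ⧸ w.asIdeal) := Ideal.finiteQuotientOfFreeOfNeBot _ w.ne_bot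
    haveI : Finite (𝓞 L ⧸ 𝔓.asIdeal) := Ideal.finiteQuotientOfFreeOfNeBot _ 𝔓.ne_bot
    have h2w : (2 : 𝓞 F) ∉ 𝔮 q := by
      intro hm
      have h9 : ((q : 𝓞 F)) - 2 * ((q / 2 : ℕ) : 𝓞 F) = 1 := by
        have h10 : q = 2 * (q / 2) + 1 := by omega
        have h11 : (q : 𝓞 F) = 2 * ((q / 2 : ℕ) : 𝓞 F) + 1 := by exact_mod_cast congrArg (Nat.cast (R := 𝓞 F)) h10
        rw [h11]
        ring
      apply a6.ne_top
      rw [Ideal.eq_top_iff_one, ← h9]
      exact Ideal.sub_mem _ a7 (Ideal.mul_mem_right _ _ hm)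
    have nat_mem : ∀ p : ℕ, p.Prime → (p : 𝓞 F) ∈ 𝔮 q → p = q := by
      intro p hp hpm
      by_contra hpq
      have hco : Nat.Coprime p q := (Nat.coprime_primes hp a1).2 hpq
      obtain ⟨u, v, huv⟩ := (Nat.isCoprime_iff_coprime.2 hco)
      apply a6.ne_top
      rw [Ideal.eq_top_iff_one]
      have h9 : (1 : 𝓞 F) = (u : 𝓞 F) * (p : 𝓞 F) + (v : 𝓞 F) * (q : 𝓞 F) := by
        have := congrArg (Int.cast (R := 𝓞 F)) huv
        push_cast at this
        exact this.symm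
      rw [h9]
      exact Ideal.add_mem _ (Ideal.mul_mem_left _ _ hpm) (Ideal.mul_mem_left _ _ a7)
    have a10' : Irreducible (rd w.asIdeal (r q)) := ew ▸ a10
    obtain ⟨D', hD'⟩ : ∃ D' : ℕ, D' = ∏ p ∈ J.erase q, p := ⟨_, rfl⟩
    have hDD : D = q * D' := by
      rw [hD, hD']
      exact (Finset.mul_prod_erase J (fun P => P) hq).symm
    have hD'm : (D' : 𝓞 F) ∉ 𝔮 q := by
      intro hd
      rw [hD', Nat.cast_prod] at hd
      haveI := a6
      obtain ⟨p, hp, hpm⟩ := (Ideal.IsPrime.prod_mem_iff).1 hd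
      have hp' := Finset.mem_erase.1 hp
      exact hp'.1 (nat_mem p (hqp p (hJS hp'.2)) hpm)
    have v2 : w.valuation F 2 = 1 := by
      have := val_one (w := w) (a := 2) (by rw [← ew]; exact h2w)
      rwa [two_cast] at this
    have vD' : w.valuation F (D' : F) = 1 := by
      have := val_one (w := w) (a := (D' : 𝓞 F)) (by rw [← ew]; exact hD'm)
      simpa using this
    obtain ⟨𝔓₁, 𝔓₂, e1, e2, e3, e4, e5, e6, e7⟩ :=
      h7 g W F L f θ S 𝔮 r P hg hG hsq hS q hqS (hcQ q hqS)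
    have vq : 𝔓.valuation L (algebraMap F L (q : F)) = WithZero.exp (-1 : ℤ) := by
      rw [map_natCast]
      rcases e7 𝔓 o1 with rfl | rfl
      · exact e5
      · exact e6
    obtain ⟨c1, -, -, -⟩ := h6 g W F L f θ S 𝔮 r P hg hG hsq hS q hqS (hcQ q hqS) 𝔓 o1 v1
    have s1 : Sq1 𝔓 (-1 : L) := by
      have := c1 (-1) (by
        intro hm
        apply a6.ne_top
        rw [Ideal.eq_top_iff_one]
        have := Ideal.neg_mem_iff _ |>.2 hm
        simpa using this)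
      simpa using this
    have s2 : Sq1 𝔓 (algebraMap F L (D' : F)) := by
      have := c1 (D' : 𝓞 F) hD'm
      simpa using this
    have hl := hloc w
    rw [fF_scale hG.mon, hDD, Nat.cast_mul] at hl
    have e8 : (D : L) = algebraMap F L ((q : F) * (D' : F)) := by
      rw [hDD]
      simp
    have e9 : (q : L) = algebraMap F L (q : F) := by simp
    rw [e8] at hne ⊢
    rw [e9]
    refine LOC2 F L (𝓞 F) (𝓞 L) w 𝔓 hL v2 g (fF f) h (r q) (q : F) (D' : F) θ hg (hG.mon.map _)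
      ?_ a8 a9 ?_ ?_ hG.root v1 vq vD' s1 s2 hl hne
    · rw [hG.mon.natDegree_map, hG.deg]
    · exact a10'
    · intro j
      rw [coeff_map, ← map_sub]
      refine (HeightOneSpectrum.valuation_lt_one_iff_mem (K := F) w _).2 ?_
      rw [← ew]
      exact hcQ q hqS j
  · -- the primes over `W`
    intro w hw
    obtain ⟨p, hp, hpW, hpw⟩ := ex_prime w.isPrime W hsq.pos hw
    haveI : Fact p.Prime := ⟨hp⟩
    obtain ⟨δ, hδ⟩ : ∃ δ : ℚ_[p], δ ^ 2 = (D : ℚ_[p]) := by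
      by_cases hp2 : p = 2
      · subst hp2
        exact Pool.Agent.N891.PQ.sq_two D hD8
      · exact sq_odd p hp2 D (hDW.of_dvd hpW)
    obtain ⟨ι, hι, -, -⟩ := Pool.Agent.N498.PQ.cpl F p w hpw
    haveI : CharZero (w.adicCompletion F) :=
      charZero_of_injective_algebraMap (algebraMap F (w.adicCompletion F)).injective
    exact map_locF hG.mon hG.deg hD0 (ι δ) (by rw [← map_pow, hδ, map_natCast]) h (hloc w)
  · -- the real places
    intro σ
    letI : Algebra F ℝ := σ.toAlgebra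
    exact map_locF (E := ℝ) hG.mon hG.deg hD0 (Real.sqrt D) (Real.sq_sqrt (Nat.cast_nonneg D)) h
      (hreal σ)

end main

end Pool.Agent.H18N.LOCW
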