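import Pool.Agent.H18G.TwoxA

/-!
# Hensel's lemma for `s ^ 2 + s = T` with bounded denominators

Project JN (helper18), part LSQ, by helper10.
-/

set_option autoImplicit false
set_option linter.all false

open Polynomial

namespace Pool.Agent.H18N.LSQ

/-- `s ^ 2 + s = T` has a solution if the powers of `T` tend to zero. -/
theorem hens {Λ A : Type} [CommRing Λ] [CommRing A] (j : Λ →+* A) (hj : Function.Injective j)
    (p D : Λ) (T : A) (k : ℕ) (hk : 1 ≤ k) (hD : IsUnit (j D))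
    (sep : ∀ x : Λ, (∀ n, p ^ n ∣ x) → x = 0)
    (cpl : ∀ s : ℕ → Λ, (∀ n, p ^ n ∣ s (n + 1) - s n) → ∃ t, ∀ n, p ^ n ∣ t - s n)
    (hT : ∀ n i : ℕ, ∃ y : Λ, j (p ^ n * y) = j D * T ^ (k * n + i)) :
    ∃ s : A, s ^ 2 + s = T := by
  -- the good elements
  obtain ⟨G, hG⟩ : ∃ G : AddSubgroup A, ∀ x, x ∈ G ↔
      ∀ n i : ℕ, ∃ y : Λ, j (p ^ n * y) = j D * T ^ (k * n + i) * x := by
    refine ⟨{ carrier := {x | ∀ n i : ℕ, ∃ y : Λ, j (p ^ n * y) = j D * T ^ (k * n + i) * x}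
              add_mem' := ?_
              zero_mem' := ?_
              neg_mem' := ?_ }, fun x => Iff.rfl⟩
    · intro x x' hx hx' n i
      obtain ⟨y, hy⟩ := hx n i
      obtain ⟨y', hy'⟩ := hx' n i
      exact ⟨y + y', by rw [mul_add, map_add, hy, hy', mul_add]⟩
    · intro n i
      exact ⟨0, by simp⟩
    · intro x hx n i
      obtain ⟨y, hy⟩ := hx n i
      exact ⟨-y, by rw [mul_neg, map_neg, hy, mul_neg]⟩
  have hG1 : (1 : A) ∈ G := by
    rw [hG]
    intro n i
    obtain ⟨y, hy⟩ := hT n i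
    exact ⟨y, by rw [hy, mul_one]⟩
  have hGT : ∀ x ∈ G, T * x ∈ G := by
    intro x hx
    rw [hG] at hx ⊢
    intro n i
    obtain ⟨y, hy⟩ := hx n (i + 1)
    exact ⟨y, by rw [hy, ← add_assoc, pow_succ]; ring⟩
  have hGp : ∀ r : ℤ[X], aeval T r ∈ G := by
    intro r
    induction r using Polynomial.induction_on' with
    | add a b ha hb => rw [map_add]; exact G.add_mem ha hb
    | monomial n a =>
      rw [aeval_monomial, algebraMap_int_eq, eq_intCast, ← zsmul_eq_mul]
      refine G.zsmul_mem ?_ a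
      induction n with
      | zero => rw [pow_zero]; exact hG1
      | succ n ih => rw [pow_succ']; exact hGT _ ih
  -- the sequence, as polynomials in `T`
  obtain ⟨q, q0, qs⟩ : ∃ q : ℕ → ℤ[X], q 0 = 0 ∧ ∀ n, q (n + 1) = X - q n ^ 2 :=
    ⟨fun n => Nat.rec 0 (fun _ y => X - y ^ 2) n, rfl, fun n => rfl⟩
  have hX : ∀ n, X ∣ q n := by
    intro n
    induction n with
    | zero => rw [q0]; exact dvd_zero _
    | succ n ih =>
      rw [qs]
      exact dvd_sub (dvd_refl _) (dvd_pow ih two_ne_zero)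
  have hd : ∀ n, X ^ (n + 1) ∣ q (n + 1) - q n := by
    intro n
    induction n with
    | zero => rw [qs, q0]; exact ⟨1, by ring⟩
    | succ n ih =>
      have e1 : q (n + 1 + 1) - q (n + 1) = (q (n + 1) - q n) * (-(q (n + 1) + q n)) := by
        rw [qs (n + 1), qs n]; ring
      rw [e1, pow_succ]
      exact mul_dvd_mul ih ((dvd_neg).2 (dvd_add (hX (n + 1)) (hX n)))
  have hdk : ∀ n i, X ^ n ∣ q (n + i) - q n := by
    intro n i
    induction i with
    | zero => rw [add_zero, sub_self]; exact dvd_zero _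
    | succ i ih =>
      have e1 : q (n + (i + 1)) - q n = (q (n + i + 1) - q (n + i)) + (q (n + i) - q n) := by
        rw [← add_assoc]; ring
      rw [e1]
      exact dvd_add ((pow_dvd_pow X (by omega)).trans (hd (n + i))) ih
  have hu : ∀ n, ∃ u : Λ, j u = j D * aeval T (q (k * n)) := by
    intro n
    obtain ⟨y, hy⟩ := (hG _).1 (hGp (q (k * n))) 0 0
    refine ⟨y, ?_⟩
    rw [pow_zero, one_mul, mul_zero, zero_add, pow_zero, mul_one] at hy
    exact hy
  choose u hu using hu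
  have hun : ∀ n, p ^ n ∣ u (n + 1) - u n := by
    intro n
    obtain ⟨r, hr⟩ := hdk (k * n) k
    obtain ⟨y, hy⟩ := (hG _).1 (hGp r) n 0
    refine ⟨y, hj ?_⟩
    rw [hy, map_sub, hu, hu, ← mul_sub, ← map_sub, mul_add, mul_one, hr, map_mul, map_pow, aeval_X,
      add_zero, mul_assoc]
  obtain ⟨s, hs⟩ := cpl u hun
  obtain ⟨v, hv⟩ : ∃ v : Λ, j v = j D * T := by
    obtain ⟨y, hy⟩ := hT 0 1
    exact ⟨y, by rw [pow_zero, one_mul, mul_zero, zero_add, pow_one] at hy; exact hy⟩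
  have h0 : s ^ 2 + D * s - D * v = 0 := by
    apply sep
    intro n
    obtain ⟨r, hr⟩ := hdk (k * n) 1
    obtain ⟨y, hy⟩ := (hG _).1 (hGp r) n 0
    have e1 : u n ^ 2 + D * u n - D * v = -(p ^ n * (D * y)) := by
      apply hj
      have e2 : aeval T (q (k * n + 1)) = T - aeval T (q (k * n)) ^ 2 := by
        rw [qs, map_sub, aeval_X, map_pow]
      have e3 : aeval T (q (k * n + 1)) - aeval T (q (k * n)) = T ^ (k * n) * aeval T r := by
        rw [← map_sub, hr, map_mul, map_pow, aeval_X]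
      have e4 : j (p ^ n * (D * y)) = j D * (j D * T ^ (k * n + 0) * aeval T r) := by
        rw [← hy, map_mul, map_mul, map_mul]; ring
      rw [map_neg, e4, map_sub, map_add, map_pow, map_mul, map_mul, hu, hv, add_zero]
      linear_combination (-(j D * j D)) * e3 + (j D * j D) * e2
    have e5 : s ^ 2 + D * s - D * v = (s - u n) * (s + u n + D) + (u n ^ 2 + D * u n - D * v) := by
      ring
    rw [e5, e1]
    exact dvd_add ((hs n).mul_right _) ((dvd_neg).2 (dvd_mul_right _ _))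
  obtain ⟨d, hd'⟩ := hD
  have hdd : j D * (↑d⁻¹ : A) = 1 := by rw [← hd']; exact Units.mul_inv _
  refine ⟨(↑d⁻¹ : A) * j s, ?_⟩
  have e6 : j s ^ 2 + j D * j s - j D * (j D * T) = 0 := by
    rw [← hv, ← map_pow, ← map_mul, ← map_mul, ← map_add, ← map_sub, h0, map_zero]
  have e7 : (↑d⁻¹ : A) * j s = (↑d⁻¹ : A) ^ 2 * (j D * j s) := by
    linear_combination (-(↑d⁻¹ : A) * j s) * hdd
  have e8 : T = (↑d⁻¹ : A) ^ 2 * (j D * (j D * T)) := by
    linear_combination (-T * (j D * (↑d⁻¹ : A) + 1)) * hdd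
  rw [e7]
  conv_rhs => rw [e8]
  rw [← e7]
  linear_combination ((↑d⁻¹ : A) ^ 2) * e6 + e7

section

variable {O : Type} [CommRing O] [IsDomain O] {π : O} {f : O[X]} {n : ℕ} (hm : f.Monic)
  (hn : f.natDegree = n)

open Pool.Agent.H18G.TWOX

include hm hn in
theorem sepA (sep : ∀ x : O, (∀ n, π ^ n ∣ x) → x = 0) (x : AdjoinRoot f)
    (hx : ∀ n, (algebraMap O (AdjoinRoot f) π) ^ n ∣ x) : x = 0 := by
  apply (bA hm hn).ext_elem
  intro i
  rw [map_zero, Finsupp.zero_apply]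
  apply sep
  intro n
  have h1 := hx n
  rw [← map_pow] at h1
  exact (dvd_coord hm hn).1 h1 i

include hm hn in
theorem cplA (cpl : ∀ s : ℕ → O, (∀ n, π ^ n ∣ s (n + 1) - s n) → ∃ t, ∀ n, π ^ n ∣ t - s n)
    (s : ℕ → AdjoinRoot f)
    (hs : ∀ n, (algebraMap O (AdjoinRoot f) π) ^ n ∣ s (n + 1) - s n) :
      ∃ t, ∀ n, (algebraMap O (AdjoinRoot f) π) ^ n ∣ t - s n := by
  have h1 : ∀ i : Fin n, ∃ t, ∀ m, π ^ m ∣ t - (bA hm hn).repr (s m) i := by
    intro i
    apply cpl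
    intro m
    have h1 := hs m
    rw [← map_pow] at h1
    have h2 := (dvd_coord hm hn).1 h1 i
    rwa [map_sub, Finsupp.sub_apply] at h2
  choose t ht using h1
  refine ⟨∑ i, t i • bA hm hn i, fun m => ?_⟩
  rw [← map_pow, dvd_coord hm hn]
  intro i
  rw [map_sub, Finsupp.sub_apply, Module.Basis.repr_sum_self]
  exact ht i m

end

end Pool.Agent.H18N.LSQ
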