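import Pool.Agent.H18N.Stm
import Pool.Agent.H18N.LsqA
import Pool.Agent.H18G.TWOX
import Pool.Agent.N747.PF.Iso2

/-!
# Local squares at any prime

Project JN (helper18), part LSQ: `S_LSQ`, by helper10.
-/

set_option autoImplicit false
set_option linter.all false

open Polynomial IsDedekindDomain NumberField WithZero
open scoped Classical

noncomputable section

namespace Pool.Agent.H18N.LSQ

open Pool.Agent.N783.PF
open Pool.Agent.H18G (LocS)

section fld

variable {F L : Type} [Field F] [NumberField F] [Field L] [NumberField L] [Algebra F L] {g : ℕ}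
  {f : (𝓞 F)[X]} {θ : L} (h : IsGen g f θ)

include h in
/-- a common denominator for the elements of `𝓞 L` -/
theorem common_den : ∃ D : 𝓞 F, D ≠ 0 ∧ ∀ x : 𝓞 L, ∃ q : (𝓞 F)[X],
    algebraMap F L (D : F) * (x : L) = aeval θ (fF q) := by
  have h1 : ∀ x : L, ∃ D : 𝓞 F, D ≠ 0 ∧ ∃ q : (𝓞 F)[X], algebraMap F L (D : F) * x =
      aeval θ (fF q) := by
    intro x
    obtain ⟨c, hc⟩ := h.gen x
    obtain ⟨d, hd⟩ := IsLocalization.exist_integer_multiples_of_finset (nonZeroDivisors (𝓞 F))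
      (Finset.univ.image c : Finset F)
    have hd1 : ∀ i, ∃ b : 𝓞 F, algebraMap (𝓞 F) F b = algebraMap (𝓞 F) F d * c i := by
      intro i
      obtain ⟨b, hb⟩ := hd (c i) (Finset.mem_image.2 ⟨i, Finset.mem_univ _, rfl⟩)
      exact ⟨b, by rw [hb, Algebra.smul_def]⟩
    choose b hb using hd1
    refine ⟨d, nonZeroDivisors.ne_zero d.2, ∑ i : Fin (2 * g + 1), C (b i) * X ^ (i : ℕ), ?_⟩
    rw [hc, fF, Polynomial.map_sum, map_sum, Finset.mul_sum]
    refine Finset.sum_congr rfl fun i _ => ?_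
    rw [Polynomial.map_mul, Polynomial.map_pow, map_X, map_C, map_mul, map_pow, aeval_X, aeval_C, hb,
      map_mul]
    ring
  obtain ⟨S, hS⟩ := (Module.finite_def (R := ℤ) (M := 𝓞 L)).1 inferInstance
  choose D hD q hq using fun x : 𝓞 L => h1 (x : L)
  refine ⟨∏ x ∈ S, D x, Finset.prod_ne_zero_iff.2 fun x _ => hD x, fun x => ?_⟩
  have hx : x ∈ Submodule.span ℤ (S : Set (𝓞 L)) := by rw [hS]; trivial
  induction hx using Submodule.span_induction with
  | mem x hx =>
    refine ⟨C (∏ y ∈ S.erase x, D y) * q x, ?_⟩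
    rw [← Finset.mul_prod_erase S D (Finset.mem_coe.1 hx)]
    rw [fF, Polynomial.map_mul, map_C, map_mul, aeval_C]
    have := hq x
    rw [fF] at this
    rw [← this]
    have e1 : ((D x * ∏ y ∈ S.erase x, D y : 𝓞 F) : F) = (D x : F) * algebraMap (𝓞 F) F
      (∏ y ∈ S.erase x, D y) := map_mul (algebraMap (𝓞 F) F) _ _
    rw [e1, map_mul]
    ring
  | zero => exact ⟨0, by simp [fF]⟩
  | add x y _ _ hx hy =>
    obtain ⟨q₁, h₁⟩ := hx
    obtain ⟨q₂, h₂⟩ := hy
    refine ⟨q₁ + q₂, ?_⟩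
    rw [fF, Polynomial.map_add, map_add]
    rw [fF] at h₁ h₂
    rw [← h₁, ← h₂]
    push_cast
    ring
  | smul a x _ hx =>
    obtain ⟨q₁, h₁⟩ := hx
    refine ⟨C (a : 𝓞 F) * q₁, ?_⟩
    rw [fF, Polynomial.map_mul, map_C, map_mul, aeval_C]
    rw [fF] at h₁
    rw [← h₁]
    have e1 : ((a • x : 𝓞 L) : L) = (a : L) * (x : L) := by
      rw [zsmul_eq_mul]
      push_cast
      rfl
    rw [e1]
    simp only [map_intCast]
    ring

/-- an integer in all the primes over `w` has a power in `w 𝓞 L` -/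
theorem rad (w : HeightOneSpectrum (𝓞 F)) (z : 𝓞 L)
    (hz : ∀ 𝔓 : HeightOneSpectrum (𝓞 L), Ov w.asIdeal 𝔓 → z ∈ 𝔓.asIdeal) :
    ∃ k : ℕ, 1 ≤ k ∧ z ^ k ∈ w.asIdeal.map (algebraMap (𝓞 F) (𝓞 L)) := by
  have h1 : z ∈ (w.asIdeal.map (algebraMap (𝓞 F) (𝓞 L))).radical := by
    rw [Ideal.radical_eq_sInf, Ideal.mem_sInf]
    rintro J ⟨hJ, hJp⟩
    have hJ0 : J ≠ ⊥ := by
      rintro rfl
      obtain ⟨a, ha, ha0⟩ := Submodule.exists_mem_ne_zero_of_ne_bot w.ne_bot
      have h2 : algebraMap (𝓞 F) (𝓞 L) a ∈ (⊥ : Ideal (𝓞 L)) := hJ (Ideal.mem_map_of_mem _ ha)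
      rw [Ideal.mem_bot, FaithfulSMul.algebraMap_eq_zero_iff] at h2
      exact ha0 h2
    exact hz ⟨J, hJp, hJ0⟩ fun a ha => hJ (Ideal.mem_map_of_mem _ ha)
  obtain ⟨k, hk⟩ := h1
  exact ⟨k + 1, by omega, by rw [pow_succ]; exact Ideal.mul_mem_right _ _ hk⟩

end fld

section core

variable {F L : Type} [Field F] [NumberField F] [Field L] [NumberField L] [Algebra F L] {g : ℕ}
  {f : (𝓞 F)[X]} {θ : L} (hg : IsGen g f θ) {O K : Type} [CommRing O] [IsDomain O]
  [Field K] [Algebra O K] [IsFractionRing O K] [Algebra F K] (iO : 𝓞 F →+* O)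
  (hio : (algebraMap O K).comp iO = (algebraMap F K).comp (algebraMap (𝓞 F) F))

include hio in
theorem root0 : eval₂ ((algebraMap K (AdjoinRoot ((fF f).map (algebraMap F K)))).comp
      (algebraMap O K)) (AdjoinRoot.root ((fF f).map (algebraMap F K))) (f.map iO) = 0 := by
  have hη0 : eval₂ (algebraMap K (AdjoinRoot ((fF f).map (algebraMap F K))))
      (AdjoinRoot.root ((fF f).map (algebraMap F K))) ((fF f).map (algebraMap F K)) = 0 := by
    rw [AdjoinRoot.algebraMap_eq]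
    exact AdjoinRoot.eval₂_root _
  rw [← eval₂_map]
  have e : (f.map iO).map (algebraMap O K) = (fF f).map (algebraMap F K) := by
    rw [fF, Polynomial.map_map, Polynomial.map_map, hio]
  rw [e]
  exact hη0

/-- the map between the completions -/
def jj : AdjoinRoot (f.map iO) →+* AdjoinRoot ((fF f).map (algebraMap F K)) :=
  AdjoinRoot.lift _ _ (root0 iO hio)

theorem jj_alg (c : O) : jj (f := f) iO hio (algebraMap O _ c) = algebraMap K _ (algebraMap O K c) := by
  rw [AdjoinRoot.algebraMap_eq]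
  exact AdjoinRoot.lift_of _

theorem jj_mk (q : (𝓞 F)[X]) : jj (f := f) iO hio (AdjoinRoot.mk _ (q.map iO)) =
    AdjoinRoot.mk _ ((fF q).map (algebraMap F K)) := by
  rw [jj, AdjoinRoot.lift_mk, ← AdjoinRoot.aeval_eq, aeval_def, ← eval₂_map]
  congr 1
  rw [fF, Polynomial.map_map, Polynomial.map_map, hio]

include hg in
theorem jj_inj : Function.Injective (jj (f := f) iO hio) := by
  have hm' : (f.map iO).Monic := hg.mon.map _
  have hn' : (f.map iO).natDegree = 2 * g + 1 := by rw [hg.mon.natDegree_map, hg.deg]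
  have hmK : ((fF f).map (algebraMap F K)).Monic := (Pool.Agent.H18G.TWOX.fF_monic hg).map _
  have hnK : ((fF f).map (algebraMap F K)).natDegree = 2 * g + 1 := by
    rw [(Pool.Agent.H18G.TWOX.fF_monic hg).natDegree_map, Pool.Agent.H18G.TWOX.fF_deg hg]
  rw [injective_iff_map_eq_zero]
  intro x hx
  have h1 : jj (f := f) iO hio x = ∑ i, algebraMap O K ((Pool.Agent.H18G.TWOX.bA hm' hn').repr x i) •
      Pool.Agent.H18G.TWOX.bA hmK hnK i := by
    conv_lhs => rw [← (Pool.Agent.H18G.TWOX.bA hm' hn').sum_repr x]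
    rw [map_sum]
    refine Finset.sum_congr rfl fun i _ => ?_
    rw [Algebra.smul_def, map_mul, jj_alg, Pool.Agent.H18G.TWOX.bA_apply,
      Pool.Agent.H18G.TWOX.bA_apply, map_pow, Algebra.smul_def]
    congr 2
    exact AdjoinRoot.lift_root _
  rw [h1] at hx
  apply (Pool.Agent.H18G.TWOX.bA hm' hn').ext_elem
  intro i
  rw [map_zero, Finsupp.zero_apply]
  apply IsFractionRing.injective O K
  rw [map_zero]
  exact Fintype.linearIndependent_iff.1
    (Pool.Agent.H18G.TWOX.bA hmK hnK).linearIndependent _ hx i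

include hg in
theorem mk_eq {p₁ p₂ : F[X]} (hp : aeval θ p₁ = aeval θ p₂) :
    AdjoinRoot.mk ((fF f).map (algebraMap F K)) (p₁.map (algebraMap F K)) =
      AdjoinRoot.mk _ (p₂.map (algebraMap F K)) := by
  rw [AdjoinRoot.mk_eq_mk, ← Polynomial.map_sub]
  exact Polynomial.map_dvd _ (Pool.Agent.H18G.TWOX.dvd_of_aeval hg (by rw [map_sub, hp, sub_self]))

variable (w : HeightOneSpectrum (𝓞 F)) (π : O)
  (hπ : ∀ (a : 𝓞 F) (n : ℕ), a ∈ w.asIdeal ^ n → π ^ n ∣ iO a)

include hg hπ in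
theorem small {D : 𝓞 F} (hD : ∀ x : 𝓞 L, ∃ q : (𝓞 F)[X],
    algebraMap F L (D : F) * (x : L) = aeval θ (fF q)) (n : ℕ) (x : 𝓞 L)
    (hx : x ∈ (w.asIdeal ^ n).map (algebraMap (𝓞 F) (𝓞 L))) :
    ∀ c : 𝓞 L, ∃ (p : F[X]) (y : AdjoinRoot (f.map iO)),
      aeval θ p = algebraMap F L (D : F) * ((c : L) * (x : L)) ∧
      AdjoinRoot.mk _ (p.map (algebraMap F K)) =
        jj (f := f) iO hio ((algebraMap O _ π) ^ n * y) := by
  induction hx using Submodule.span_induction with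
  | mem x hx =>
    obtain ⟨a, ha, rfl⟩ := hx
    intro c
    obtain ⟨q, hq⟩ := hD c
    obtain ⟨b, hb⟩ := hπ a n ha
    refine ⟨C (a : F) * fF q, algebraMap O _ b * AdjoinRoot.mk _ (q.map iO), ?_, ?_⟩
    · rw [map_mul, aeval_C, ← hq]
      have e1 : ((algebraMap (𝓞 F) (𝓞 L) a : 𝓞 L) : L) = algebraMap F L (a : F) := rfl
      rw [e1]
      ring
    · have hl : AdjoinRoot.mk ((fF f).map (algebraMap F K)) ((C (a : F) * fF q).map
          (algebraMap F K)) = algebraMap K _ (algebraMap O K (iO a)) *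
            AdjoinRoot.mk _ ((fF q).map (algebraMap F K)) := by
        rw [Polynomial.map_mul, map_C, map_mul, AdjoinRoot.mk_C, AdjoinRoot.algebraMap_eq]
        congr 2
        have := congrArg (fun φ : 𝓞 F →+* K => φ a) hio
        exact this.symm
      have hr : jj (f := f) iO hio ((algebraMap O _ π) ^ n * (algebraMap O _ b *
          AdjoinRoot.mk _ (q.map iO))) = (algebraMap K _ (algebraMap O K π)) ^ n *
            (algebraMap K _ (algebraMap O K b) *
              AdjoinRoot.mk _ ((fF q).map (algebraMap F K))) := by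
        rw [map_mul, map_mul, map_pow, jj_alg, jj_alg, jj_mk]
      rw [hl, hr, hb, map_mul (algebraMap O K), map_pow (algebraMap O K),
        map_mul (algebraMap K _), map_pow (algebraMap K _), mul_assoc]
  | zero =>
    intro c
    exact ⟨0, 0, by simp, by simp⟩
  | add x x' _ _ hx hx' =>
    intro c
    obtain ⟨p, y, hp, hy⟩ := hx c
    obtain ⟨p', y', hp', hy'⟩ := hx' c
    refine ⟨p + p', y + y', ?_, ?_⟩
    · rw [map_add, hp, hp']
      push_cast
      ring
    · rw [Polynomial.map_add, map_add, hy, hy', mul_add, map_add]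
  | smul a x _ hx =>
    intro c
    obtain ⟨p, y, hp, hy⟩ := hx (c * a)
    refine ⟨p, y, ?_, hy⟩
    rw [hp, smul_eq_mul]
    push_cast
    ring

include hg hio in
theorem core (w : HeightOneSpectrum (𝓞 F)) (π : O)
    (hπ : ∀ (a : 𝓞 F) (n : ℕ), a ∈ w.asIdeal ^ n → π ^ n ∣ iO a)
    (hu : ∀ a : 𝓞 F, a ∉ w.asIdeal → IsUnit (iO a))
    (sep : ∀ x : O, (∀ n, π ^ n ∣ x) → x = 0)
    (cpl : ∀ s : ℕ → O, (∀ n, π ^ n ∣ s (n + 1) - s n) → ∃ t, ∀ n, π ^ n ∣ t - s n)
    (h : F[X]) (hh : ∀ 𝔓 : HeightOneSpectrum (𝓞 L), Ov w.asIdeal 𝔓 →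
      𝔓.valuation L (aeval θ h - 1) < 𝔓.valuation L 4) : LocS K (fF f) h := by
  have hm' : (f.map iO).Monic := hg.mon.map _
  have hn' : (f.map iO).natDegree = 2 * g + 1 := by rw [hg.mon.natDegree_map, hg.deg]
  have h4 : (4 : L) ≠ 0 := by norm_num
  have h4F : (4 : F) ≠ 0 := by norm_num
  -- the element `t`
  obtain ⟨tp, htp⟩ : ∃ tp : F[X], tp = C (4 : F)⁻¹ * (h - 1) := ⟨_, rfl⟩
  have hh1 : h = 1 + C 4 * tp := by
    rw [htp, ← mul_assoc, ← C_mul, mul_inv_cancel₀ h4F, C_1, one_mul]; ring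
  obtain ⟨t, ht⟩ : ∃ t : L, t = aeval θ tp := ⟨_, rfl⟩
  have ht1 : aeval θ h - 1 = 4 * t := by
    rw [hh1, map_add, map_one, map_mul, aeval_C, map_ofNat, ht]
    ring
  have hv : ∀ 𝔓 : HeightOneSpectrum (𝓞 L), Ov w.asIdeal 𝔓 → 𝔓.valuation L t < 1 := by
    intro 𝔓 h𝔓
    have h5 := hh 𝔓 h𝔓
    rw [ht1, map_mul] at h5
    have h6 : 𝔓.valuation L (4 : L) ≠ 0 := (Valuation.ne_zero_iff _).2 h4
    by_contra hcon
    rw [not_lt] at hcon
    exact absurd h5 (not_lt.2 (le_mul_of_one_le_right' hcon))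
  obtain ⟨m, hmw, z, hz⟩ := Pool.Agent.N747.PF.denw w t fun 𝔓 h𝔓 => (hv 𝔓 h𝔓).le
  obtain ⟨k, hk1, hk⟩ := rad w z (by
    intro 𝔓 h𝔓
    rw [← HeightOneSpectrum.valuation_lt_one_iff_mem (K := L)]
    show 𝔓.valuation L (algebraMap (𝓞 L) L z) < 1
    rw [hz, map_mul]
    exact lt_of_le_of_lt (mul_le_of_le_one_left' (Pool.Agent.N747.PF.val_int 𝔓 m)) (hv 𝔓 h𝔓))
  obtain ⟨D, hD0, hD⟩ := common_den hg
  -- the conclusion
  suffices hs : ∃ s : AdjoinRoot ((fF f).map (algebraMap F K)),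
      s ^ 2 + s = AdjoinRoot.mk _ (tp.map (algebraMap F K)) by
    obtain ⟨s, hs⟩ := hs
    obtain ⟨s', rfl⟩ := AdjoinRoot.mk_surjective s
    refine ⟨1 + 2 * s', ?_⟩
    rw [← AdjoinRoot.mk_eq_zero, map_sub, sub_eq_zero, hh1]
    have e1 : (1 + C 4 * tp : F[X]).map (algebraMap F K) = 1 + 4 * tp.map (algebraMap F K) := by
      rw [Polynomial.map_add, Polynomial.map_one, Polynomial.map_mul, map_C, map_ofNat]
      rfl
    rw [e1, map_add, map_mul, ← hs]
    simp only [map_pow, map_add, map_mul, map_one, map_ofNat]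
    ring
  have hDK : algebraMap O K (iO D) ≠ 0 := by
    have e1 := congrArg (fun φ : 𝓞 F →+* K => φ D) hio
    have e2 : algebraMap O K (iO D) = algebraMap F K (algebraMap (𝓞 F) F D) := e1
    rw [e2, Ne, map_eq_zero, FaithfulSMul.algebraMap_eq_zero_iff]
    exact hD0
  refine hens (jj (f := f) iO hio) (jj_inj hg iO hio) (algebraMap O _ π) (algebraMap O _ (iO D)) _ k
    hk1 ?_ (sepA hm' hn' sep) (cplA hm' hn' cpl) ?_
  · rw [jj_alg]
    exact (isUnit_iff_ne_zero.2 hDK).map _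
  · intro n i
    have h7 : z ^ (k * n + i) ∈ (w.asIdeal ^ n).map (algebraMap (𝓞 F) (𝓞 L)) := by
      rw [pow_add, pow_mul, Ideal.map_pow]
      exact Ideal.mul_mem_right _ _ (Ideal.pow_mem_pow hk n)
    obtain ⟨p, y, hp, hy⟩ := small hg iO hio w π hπ hD n _ h7 1
    obtain ⟨m', hm1⟩ := (hu m hmw).exists_left_inv
    have h8 : aeval θ p = aeval θ (C ((D : F) * (m : F) ^ (k * n + i)) * tp ^ (k * n + i)) := by
      rw [hp, map_mul, aeval_C, map_pow, ← ht, map_mul, map_pow]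
      have e2 : (((1 : 𝓞 L) : L) * ((z ^ (k * n + i) : 𝓞 L) : L)) =
          (algebraMap F L (m : F) * t) ^ (k * n + i) := by
        rw [← hz]
        push_cast
        rw [one_mul]
      rw [e2]
      ring
    have h9 := mk_eq hg (K := K) h8
    have e3 : ∀ c : 𝓞 F, algebraMap F K (c : F) = algebraMap O K (iO c) := fun c =>
      (congrArg (fun φ : 𝓞 F →+* K => φ c) hio).symm
    have hl : AdjoinRoot.mk ((fF f).map (algebraMap F K))
        ((C ((D : F) * (m : F) ^ (k * n + i)) * tp ^ (k * n + i)).map (algebraMap F K)) =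
        algebraMap K _ (algebraMap O K (iO D)) * algebraMap K _ (algebraMap O K (iO m) ^ (k * n + i)) *
          AdjoinRoot.mk _ (tp.map (algebraMap F K)) ^ (k * n + i) := by
      rw [Polynomial.map_mul, map_C, map_mul (AdjoinRoot.mk _), Polynomial.map_pow,
        map_pow (AdjoinRoot.mk _), AdjoinRoot.mk_C, map_mul (algebraMap F K),
        map_pow (algebraMap F K), e3, e3, AdjoinRoot.algebraMap_eq, map_mul (AdjoinRoot.of _)]
    rw [hy, hl] at h9
    refine ⟨y * algebraMap O _ (m' ^ (k * n + i)), ?_⟩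
    rw [← mul_assoc, map_mul (jj iO hio), h9, jj_alg, jj_alg, map_pow (algebraMap O K) m']
    have e4 : algebraMap O K m' * algebraMap O K (iO m) = 1 := by
      rw [← map_mul, hm1, map_one]
    have e5 : (algebraMap K (AdjoinRoot ((fF f).map (algebraMap F K)))
        (algebraMap O K (iO m) ^ (k * n + i))) *
        algebraMap K (AdjoinRoot ((fF f).map (algebraMap F K)))
          (algebraMap O K m' ^ (k * n + i)) = 1 := by
      rw [← map_mul, ← mul_pow, mul_comm, e4, one_pow, map_one]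
    linear_combination ((algebraMap K (AdjoinRoot ((fF f).map (algebraMap F K)))
      (algebraMap O K (iO D))) * (AdjoinRoot.mk ((fF f).map (algebraMap F K))
        (tp.map (algebraMap F K))) ^ (k * n + i)) * e5

end core

theorem t : S_LSQ := by
  intro g F L _ _ _ _ _ f θ hg w h hh
  obtain ⟨ϖ, hϖ⟩ := Pool.Agent.H14P.exists_unif w
  refine core (K := w.adicCompletion F) hg (algebraMap (𝓞 F) (w.adicCompletionIntegers F)) rfl w
    (algebraMap (𝓞 F) (w.adicCompletionIntegers F) ϖ) ?_ ?_ ?_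
    (Pool.Agent.H10PR.cdw_cpl hϖ) h hh
  · intro a n ha
    exact Pool.Agent.H14P.sq_dvd_of_mem hϖ ha
  · intro a ha
    rw [← IsLocalRing.residue_ne_zero_iff_isUnit]
    intro h0
    exact ha ((Pool.Agent.H14P.res_mem hϖ a).1 h0)
  · intro x hx
    by_contra hx0
    obtain ⟨n, b, hb, hb0⟩ := (Pool.Agent.H14P.dv_unif hϖ).fac x hx0
    have h1 := hx (n + 1)
    rw [hb, pow_succ] at h1
    exact hb0 (((Pool.Agent.H14P.dv_unif hϖ).ker b).2
      ((mul_dvd_mul_iff_left (pow_ne_zero n (Pool.Agent.H14P.dv_unif hϖ).prime.ne_zero)).1 h1))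

end Pool.Agent.H18N.LSQ
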