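import Pool.Agent.H18N.Stm
import Pool.Agent.H59W.Base
import Pool.Agent.N426.PF.Par

/-!
Project JN, stub NSW (helper54), after `N426/PF/Par.lean` (part NS): square classes from the norm, for
orders which are maximal outside `W`.
-/

set_option autoImplicit false
set_option linter.all false

open Polynomial IsDedekindDomain WithZero UniqueFactorizationMonoid NumberField
open scoped Classical

namespace Pool.Agent.H18N.NSW

open Pool.Agent.N874.PP (Ev Sq1)
open Pool.Agent.N862.PP (val_eq ev_iff_count ev_mul_sq cn cn_sum cn_pow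
  cn_zero cn_one not_ev_of_exp exists_two sq1_mul_sq)
open Pool.Agent.N426.PF

section ns

variable {R K L O : Type} [CommRing R] [IsDedekindDomain R] [Field K]
  [Algebra R K] [IsFractionRing R K]
  [Field L] [Algebra K L] [Algebra R L] [IsScalarTower R K L] [CommRing O]
  [IsDedekindDomain O] [Algebra O L] [IsFractionRing O L] [Algebra R O]
  [IsScalarTower R O L] [IsIntegralClosure O R L] {g : ℕ} {f : R[X]} {θ : L}

/-- The norm of an integral element. -/
theorem exists_N (h : IsG g K f θ) :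
    ∃ N : O → R, ∀ x, algebraMap R K (N x) = Algebra.norm K (algebraMap O L x) := by
  have hfd := fd h
  have : ∀ x : O, ∃ r : R, algebraMap R K r = Algebra.norm K (algebraMap O L x) := by
    intro x
    have h1 : IsIntegral R (Algebra.norm K (algebraMap O L x)) :=
      Algebra.isIntegral_norm K (isInt x)
    exact IsIntegrallyClosed.isIntegral_iff.mp h1
  choose N hN using this
  exact ⟨N, hN⟩

/-- The integral case. -/
theorem ns_intW (h : IsG g K f θ) {w : R} {𝔭 : Ideal R} (hp : 𝔭.IsPrime) (hp0 : 𝔭 ≠ ⊥)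
    (hw𝔭 : w ∉ 𝔭) {t : O} (htθ : algebraMap O L t = θ)
    (hI : ∀ x : O, ∃ v : Fin (2 * g + 1) → R, algebraMap R L w * algebraMap O L x =
      ∑ i, algebraMap R L (v i) * θ ^ (i : ℕ))
    {𝔓 𝔮 : HeightOneSpectrum O} (hne : 𝔓 ≠ 𝔮) (ov1 : Ov 𝔭 𝔓) (ht : t ∈ 𝔓.asIdeal)
    (hboth : ∀ {w : O}, w ∈ 𝔓.asIdeal → w ∈ 𝔮.asIdeal → w ∈ 𝔭.map (algebraMap R O))
    {y : O} (hy1 : y ∉ 𝔓.asIdeal) (hy2 : y ∉ 𝔮.asIdeal)
    (hn : IsSquare (Algebra.norm K (algebraMap O L y)))
    (hs : Sq1 𝔮 (algebraMap O L y)) : Sq1 𝔓 (algebraMap O L y) := by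
  have hinjK : Function.Injective (algebraMap R K) := IsFractionRing.injective R K
  obtain ⟨N, hN⟩ := exists_N (O := O) h
  have hNmul : ∀ x x' : O, N (x * x') = N x * N x' := by
    intro x x'
    apply hinjK
    rw [map_mul, hN, hN, hN, map_mul, map_mul]
  have hN1 : N 1 = 1 := by
    apply hinjK
    rw [hN, map_one, map_one, map_one]
  -- the coordinates
  choose v hv using hI
  have hco : ∀ (x : O) (i : Fin (2 * g + 1)),
      algebraMap R K (v x i) = algebraMap R K w * co h i (algebraMap O L x) := by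
    intro x i
    have h1 : Crd g θ (v x) (algebraMap R L w * algebraMap O L x) := hv x
    have h2 := crd_co h h1 i
    rw [smul_alg (K := K), map_smul, smul_eq_mul] at h2
    exact h2.symm
  have vadd : ∀ (x x' : O) i, v (x + x') i = v x i + v x' i := by
    intro x x' i
    apply hinjK
    rw [map_add, hco, hco, hco, map_add, map_add, mul_add]
  have vmul : ∀ (r : R) (x : O) i, v (algebraMap R O r * x) i = r * v x i := by
    intro r x i
    apply hinjK
    have e1 : co h i (algebraMap R L r * algebraMap O L x) =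
        algebraMap R K r * co h i (algebraMap O L x) := by
      rw [smul_alg (K := K), map_smul, smul_eq_mul]
    rw [map_mul, hco, hco, map_mul, ← IsScalarTower.algebraMap_apply R O L, e1]
    ring
  have vzero : ∀ i, v 0 i = 0 := by
    intro i
    apply hinjK
    rw [hco, map_zero, map_zero, mul_zero, map_zero]
  have vpow : ∀ (j i : Fin (2 * g + 1)), v (t ^ (j : ℕ)) i = if j = i then w else 0 := by
    intro j i
    apply hinjK
    rw [hco, map_pow, htθ, co_pow]
    split_ifs <;> simp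
  -- the expansion in `O`
  have hinjO : Function.Injective (algebraMap O L) := IsFractionRing.injective O L
  have hexp : ∀ x : O, algebraMap R O w * x = ∑ i, algebraMap R O (v x i) * t ^ (i : ℕ) := by
    intro x
    apply hinjO
    rw [map_mul, ← IsScalarTower.algebraMap_apply, hv x, map_sum]
    refine Finset.sum_congr rfl fun i _ => ?_
    rw [map_mul, map_pow, htθ, ← IsScalarTower.algebraMap_apply]
  -- elements of `𝔭 O`
  have vmem : ∀ x ∈ 𝔭.map (algebraMap R O), ∀ i, v x i ∈ 𝔭 := by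
    have key : ∀ x ∈ 𝔭.map (algebraMap R O), ∀ (z : O) i, v (z * x) i ∈ 𝔭 := by
      intro x hx
      unfold Ideal.map at hx
      induction hx using Submodule.span_induction with
      | mem x hx =>
        obtain ⟨a, ha, rfl⟩ := hx
        intro z i
        rw [mul_comm, vmul]
        exact Ideal.mul_mem_right _ _ ha
      | zero =>
        intro z i
        rw [mul_zero, vzero]
        exact 𝔭.zero_mem
      | add x y _ _ h1 h2 =>
        intro z i
        rw [mul_add, vadd]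
        exact 𝔭.add_mem (h1 z i) (h2 z i)
      | smul y x _ h1 =>
        intro z i
        rw [smul_eq_mul, ← mul_assoc]
        exact h1 (z * y) i
    intro x hx i
    have := key x hx 1 i
    rwa [one_mul] at this
  -- the norm as a determinant
  have hdet : ∀ x : O, w ^ (2 * g + 1) * N x =
      (Matrix.of fun i j : Fin (2 * g + 1) => v (x * t ^ (j : ℕ)) i).det := by
    intro x
    apply hinjK
    rw [map_mul, map_pow, hN, Algebra.norm_eq_matrix_det h.basis, RingHom.map_det]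
    have h1 := Matrix.det_smul (Algebra.leftMulMatrix h.basis (algebraMap O L x))
      (algebraMap R K w)
    rw [Fintype.card_fin] at h1
    rw [← h1]
    congr 1
    ext i j
    rw [Matrix.smul_apply, RingHom.mapMatrix_apply, Matrix.map_apply, Matrix.of_apply, hco,
      Algebra.leftMulMatrix_eq_repr_mul, smul_eq_mul, map_mul (algebraMap O L),
      map_pow (algebraMap O L), htθ, h.basis_apply]
    rfl
  set π := Ideal.Quotient.mk 𝔭 with hπ
  have hπw : π w ≠ 0 := fun h0 => hw𝔭 (Ideal.Quotient.eq_zero_iff_mem.1 h0)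
  have hdom : IsDomain (R ⧸ 𝔭) := Ideal.Quotient.isDomain 𝔭
  have hdet' : ∀ x : O, π w ^ (2 * g + 1) * π (N x) =
      (Matrix.of fun i j : Fin (2 * g + 1) => π (v (x * t ^ (j : ℕ)) i)).det := by
    intro x
    rw [← map_pow, ← map_mul, hdet, RingHom.map_det]
    congr 1
  have norm_congr' : ∀ {a a' : O}, a - a' ∈ 𝔭.map (algebraMap R O) → π (N a) = π (N a') := by
    intro a a' haa
    have e : π w ^ (2 * g + 1) * π (N a) = π w ^ (2 * g + 1) * π (N a') := by
      rw [hdet', hdet']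
      congr 1
      ext i j
      rw [Matrix.of_apply, Matrix.of_apply]
      have e1 : a * t ^ (j : ℕ) = a' * t ^ (j : ℕ) + (a - a') * t ^ (j : ℕ) := by ring
      rw [e1, vadd, map_add]
      have e2 : π (v ((a - a') * t ^ (j : ℕ)) i) = 0 :=
        Ideal.Quotient.eq_zero_iff_mem.2 (vmem _ (Ideal.mul_mem_right _ _ haa) i)
      rw [e2, add_zero]
    exact mul_left_cancel₀ (pow_ne_zero _ hπw) e
  have hm𝔭 : 𝔭.IsMaximal := hp.isMaximal hp0
  obtain ⟨w', iw, hiw, hw'⟩ := hm𝔭.exists_inv hw𝔭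
  have hww : 1 - w' * w ∈ 𝔭 := by
    have e : 1 - w' * w = iw := by rw [← hw']; ring
    rw [e]
    exact hiw
  have hvy1 : 𝔓.valuation L (algebraMap O L y) = 1 := 𝔓.valuation_eq_one_iff_notMem.mpr hy1
  have hvy2 : 𝔮.valuation L (algebraMap O L y) = 1 := 𝔮.valuation_eq_one_iff_notMem.mpr hy2
  -- the norm
  obtain ⟨r, hr⟩ := hn
  rw [← hN] at hr
  have hint : IsIntegral R r := by
    refine IsIntegral.of_pow (n := 2) (by norm_num) ?_
    rw [sq, ← hr]
    exact isIntegral_algebraMap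
  obtain ⟨m, rfl⟩ := IsIntegrallyClosed.isIntegral_iff.mp hint
  rw [← map_mul] at hr
  have hm := IsFractionRing.injective R K hr
  -- the square root at `𝔮`
  obtain ⟨s, hs⟩ := hs
  rw [hvy2] at hs
  have hs1 : 𝔮.valuation L s ≤ 1 := by
    by_contra hgt
    push Not at hgt
    have h3 : 𝔮.valuation L (algebraMap O L y) < 𝔮.valuation L (s ^ 2) := by
      rw [hvy2, map_pow]
      exact one_lt_pow' hgt (by norm_num)
    have h4 : 𝔮.valuation L (algebraMap O L y - s ^ 2) = 𝔮.valuation L (s ^ 2) := by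
      rw [Valuation.map_sub_swap]
      exact Valuation.map_sub_eq_of_lt_left _ h3
    rw [h4] at hs
    exact absurd (hvy2 ▸ h3) (not_lt.mpr hs.le)
  obtain ⟨z, hz⟩ := 𝔮.exists_valuation_sub_lt_of_integer hs1 1
  rw [Units.val_one] at hz
  have hyz : y - z ^ 2 ∈ 𝔮.asIdeal := by
    rw [← 𝔮.valuation_lt_one_iff_mem (K := L)]
    change 𝔮.valuation L (algebraMap O L (y - z ^ 2)) < 1
    have e : algebraMap O L (y - z ^ 2) = (algebraMap O L y - s ^ 2) -
        (algebraMap O L z - s) * (algebraMap O L z + s) := by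
      rw [map_sub, map_pow]
      ring
    rw [e]
    refine Valuation.map_sub_lt _ hs ?_
    rw [map_mul]
    have h5 : 𝔮.valuation L (algebraMap O L z + s) ≤ 1 :=
      Valuation.map_add_le _ (𝔮.valuation_le_one _) hs1
    calc 𝔮.valuation L (algebraMap O L z - s) * 𝔮.valuation L (algebraMap O L z + s)
        ≤ 𝔮.valuation L (algebraMap O L z - s) * 1 := mul_le_mul_right h5 _
      _ = 𝔮.valuation L (algebraMap O L z - s) := mul_one _
      _ < 1 := hz
  -- the idempotents
  have hcop : IsCoprime 𝔓.asIdeal 𝔮.asIdeal := by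
    rw [Ideal.isCoprime_iff_sup_eq]
    exact 𝔓.isMaximal.coprime_of_ne 𝔮.isMaximal fun h => hne (HeightOneSpectrum.ext h)
  obtain ⟨i, hi, j, hj, hij⟩ := Ideal.isCoprime_iff_exists.mp hcop
  -- constant coordinates
  have hrep : ∀ x : O, algebraMap R O w * x - algebraMap R O (v x 0) ∈ 𝔓.asIdeal := by
    intro x
    have h1 : algebraMap R O w * x - algebraMap R O (v x 0) =
        ∑ l ∈ Finset.univ.erase (0 : Fin (2 * g + 1)), algebraMap R O (v x l) * t ^ (l : ℕ) := by
      rw [hexp x, ← Finset.add_sum_erase _ _ (Finset.mem_univ (0 : Fin (2 * g + 1)))]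
      simp
    rw [h1]
    refine Ideal.sum_mem _ fun l hl => ?_
    refine Ideal.mul_mem_left _ _ ?_
    have hl0 : (l : ℕ) ≠ 0 := fun h0 => (Finset.mem_erase.1 hl).1 (Fin.ext (by simpa using h0))
    exact Ideal.pow_mem_of_mem _ ht _ (Nat.pos_of_ne_zero hl0)
  obtain ⟨c, hc⟩ : ∃ c, c = w' * v y 0 := ⟨_, rfl⟩
  have hyc : y - algebraMap R O c ∈ 𝔓.asIdeal := by
    have e : y - algebraMap R O c = algebraMap R O (1 - w' * w) * y +
        algebraMap R O w' * (algebraMap R O w * y - algebraMap R O (v y 0)) := by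
      rw [hc, map_sub, map_mul, map_mul, map_one]
      ring
    rw [e]
    exact Ideal.add_mem _ (Ideal.mul_mem_right _ _ (ov1 _ hww)) (Ideal.mul_mem_left _ _ (hrep y))
  obtain ⟨S, hS⟩ : ∃ S : O, S = z * i + j := ⟨_, rfl⟩
  have hSz : S - z ∈ 𝔮.asIdeal := by
    have e : S - z = (1 - z) * j := by
      rw [hS]
      linear_combination z * hij
    rw [e]
    exact Ideal.mul_mem_left _ _ hj
  have hS1 : S - 1 ∈ 𝔓.asIdeal := by
    have e : S - 1 = (z - 1) * i := by
      rw [hS]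
      linear_combination hij
    rw [e]
    exact Ideal.mul_mem_left _ _ hi
  obtain ⟨e', he'⟩ : ∃ e' : O, e' = 1 + algebraMap R O (c - 1) * j := ⟨_, rfl⟩
  have hw' : y - S ^ 2 * e' ∈ 𝔭.map (algebraMap R O) := by
    refine hboth ?_ ?_
    · have e : y - S ^ 2 * e' = (y - algebraMap R O c) - (S + 1) * (S - 1) * e' +
          algebraMap R O (c - 1) * i := by
        rw [he', map_sub, map_one]
        linear_combination (algebraMap R O c - 1) * (-1) * hij
      rw [e]
      exact Ideal.add_mem _ (Ideal.sub_mem _ hyc (Ideal.mul_mem_right _ _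
        (Ideal.mul_mem_left _ _ hS1))) (Ideal.mul_mem_left _ _ hi)
    · have e : y - S ^ 2 * e' = (y - z ^ 2) - (S + z) * (S - z) -
          S ^ 2 * algebraMap R O (c - 1) * j := by
        rw [he']
        ring
      rw [e]
      exact Ideal.sub_mem _ (Ideal.sub_mem _ hyz (Ideal.mul_mem_left _ _ hSz))
        (Ideal.mul_mem_left _ _ hj)
  -- the inverse of `S`
  have hS2 : S ∉ 𝔮.asIdeal := by
    intro h0
    apply hy2
    have e : y = (y - z ^ 2) + z * (S - (S - z)) := by ring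
    rw [e]
    exact Ideal.add_mem _ hyz (Ideal.mul_mem_left _ _ (Ideal.sub_mem _ h0 hSz))
  obtain ⟨r2, i2, hi2, hr2⟩ := 𝔮.isMaximal.exists_inv hS2
  have hw2 : S * (j + r2 * i) - 1 ∈ 𝔭.map (algebraMap R O) := by
    refine hboth ?_ ?_
    · have e : S * (j + r2 * i) - 1 = (S - 1) * j + (S * r2 - 1) * i := by
        linear_combination hij
      rw [e]
      exact Ideal.add_mem _ (Ideal.mul_mem_right _ _ hS1) (Ideal.mul_mem_left _ _ hi)
    · have e : S * (j + r2 * i) - 1 = (S - S * r2) * j - i2 := by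
        linear_combination (S * r2) * hij + hr2
      rw [e]
      exact Ideal.sub_mem _ (Ideal.mul_mem_left _ _ hj) hi2
  obtain ⟨S', hS'⟩ : ∃ S' : O, S' = j + r2 * i := ⟨_, rfl⟩
  rw [← hS'] at hw2
  -- the norm of `e'`
  have hjt : ∀ l : Fin (2 * g + 1), l ≠ 0 → j * t ^ (l : ℕ) ∈ 𝔭.map (algebraMap R O) := by
    intro l hl
    refine hboth ?_ (Ideal.mul_mem_right _ _ hj)
    have hl0 : (l : ℕ) ≠ 0 := fun h0 => hl (Fin.ext (by simpa using h0))
    exact Ideal.mul_mem_left _ _ (Ideal.pow_mem_of_mem _ ht _ (Nat.pos_of_ne_zero hl0))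
  have hj0 : π (v j 0) = π w := by
    have h1 : algebraMap R O (w - v j 0) ∈ 𝔓.asIdeal := by
      have e : algebraMap R O (w - v j 0) = algebraMap R O w * i +
          (algebraMap R O w * j - algebraMap R O (v j 0)) := by
        rw [map_sub]
        linear_combination (-(algebraMap R O w)) * hij
      rw [e]
      exact Ideal.add_mem _ (Ideal.mul_mem_left _ _ hi) (hrep j)
    rw [ov_iff hp hp0 ov1] at h1
    have h2 : π (w - v j 0) = 0 :=
      Ideal.Quotient.eq_zero_iff_mem.2 h1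
    rw [map_sub, sub_eq_zero] at h2
    exact h2.symm
  have hne' : π (N e') = π c := by
    have hent : ∀ l l' : Fin (2 * g + 1), π (v (e' * t ^ (l' : ℕ)) l) =
        (if l = l' then π w else 0) + π (c - 1) * π (v (j * t ^ (l' : ℕ)) l) := by
      intro l l'
      have e : e' * t ^ (l' : ℕ) = t ^ (l' : ℕ) + algebraMap R O (c - 1) * (j * t ^ (l' : ℕ)) := by
        rw [he']
        ring
      rw [e, vadd, vmul, map_add, map_mul, vpow]
      congr 1
      by_cases hl : l = l'
      · rw [if_pos hl, if_pos hl.symm]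
      · rw [if_neg hl, if_neg (fun h' => hl h'.symm), map_zero]
    have hent' : ∀ l l' : Fin (2 * g + 1), l' ≠ 0 → π (v (e' * t ^ (l' : ℕ)) l) =
        if l = l' then π w else 0 := by
      intro l l' hl'
      have hw := vmem _ (hjt l' hl') l
      rw [hent, hπ, Ideal.Quotient.eq_zero_iff_mem.2 hw, mul_zero, add_zero]
    have hdiag : ∀ l : Fin (2 * g + 1), π (v (e' * t ^ (l : ℕ)) l) =
        π w * (if l = 0 then π c else 1) := by
      intro l
      by_cases hl : l = 0
      · rw [if_pos hl, hent, if_pos rfl, hl]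
        have e : j * t ^ ((0 : Fin (2 * g + 1)) : ℕ) = j := by simp
        rw [e, hj0, map_sub, map_one]
        ring
      · rw [if_neg hl, hent' l l hl, if_pos rfl, mul_one]
    have e2 : π w ^ (2 * g + 1) * π (N e') = π w ^ (2 * g + 1) * π c := by
      rw [hdet', Matrix.det_of_lowerTriangular]
      · have e3 : ∀ l : Fin (2 * g + 1), (Matrix.of fun i j : Fin (2 * g + 1) =>
            π (v (e' * t ^ (j : ℕ)) i)) l l = π w * (if l = 0 then π c else 1) := fun l => hdiag l
        rw [Finset.prod_congr rfl fun l _ => e3 l, Finset.prod_mul_distrib, Finset.prod_const,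
          Finset.card_univ, Fintype.card_fin, Finset.prod_ite_eq']
        simp
      · intro l l' hll
        have hlt : l < l' := OrderDual.toDual_lt_toDual.1 hll
        rw [Matrix.of_apply, hent' l l' (by
          intro h0
          rw [h0] at hlt
          exact absurd hlt (Fin.not_lt_zero l)), if_neg hlt.ne]
    exact mul_left_cancel₀ (pow_ne_zero _ hπw) e2
  -- assembly
  have n1 : π (N y) = π (N S) ^ 2 * π (N e') := by
    rw [norm_congr' (a' := S ^ 2 * e') hw', hNmul, map_mul, sq, hNmul, map_mul, sq]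
  have n2 : π (N S) * π (N S') = 1 := by
    rw [← map_mul, ← hNmul, norm_congr' (a' := 1) hw2, hN1, map_one]
  have n3 : π (c - (N S' * m) ^ 2) = 0 := by
    rw [hne', hm, map_mul] at n1
    rw [map_sub, map_pow, map_mul, sub_eq_zero]
    have e : π c = (π (N S) * π (N S')) ^ 2 * π c := by
      rw [n2]
      ring
    rw [e]
    linear_combination (-(π (N S')) ^ 2) * n1
  have n4 : c - (N S' * m) ^ 2 ∈ 𝔭 := Ideal.Quotient.eq_zero_iff_mem.1 n3
  refine ⟨algebraMap R L (N S' * m), ?_⟩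
  rw [hvy1, ← map_pow, IsScalarTower.algebraMap_apply R O L, ← map_sub]
  refine (𝔓.valuation_lt_one_iff_mem (K := L) _).mpr ?_
  have e8 : y - algebraMap R O ((N S' * m) ^ 2) = (y - algebraMap R O c) +
      algebraMap R O (c - (N S' * m) ^ 2) := by
    rw [map_sub]
    ring
  rw [e8]
  exact Ideal.add_mem _ hyc ((ov_iff hp hp0 ov1 _).2 n4)

end ns

section fin

open Pool.Agent.N783.PF (IsGen fF rd Cg GoodS)
open Pool.Agent.H18N (SqW S_INTW S_EXQW S_NSW)

variable {F L : Type} [Field F] [NumberField F] [Field L] [NumberField L] [Algebra F L] {g W : ℕ}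
  {f : (𝓞 F)[X]} {θ : L}

/-- **NSW.** -/
theorem t (hInt : S_INTW) (hE : S_EXQW) : S_NSW := by
  intro g W F L _ _ _ _ _ f θ S 𝔮 hh P hg h0 hsq hS q hQS hCg x hx hnx hev hs1 𝔓 hov
  have h := toG h0
  obtain ⟨t, ht⟩ := exists_t (O := 𝓞 L) h
  obtain ⟨𝔓₁, 𝔓₂, ov1, ov2, hv1, hv2, hQ1, hQ2, hall⟩ :=
    hE g W F L f θ S 𝔮 hh P hg h0 hsq hS q hQS hCg
  obtain ⟨hqp, hWq, -, -, -, hp, hqm, -⟩ := hS q hQS
  have hW𝔮 : (W : 𝓞 F) ∉ 𝔮 q := Pool.Agent.H59W.W_notMem hp hqp hsq.pos hWq hqm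
  have hI : ∀ x : 𝓞 L, ∃ v : Fin (2 * g + 1) → 𝓞 F,
      algebraMap (𝓞 F) L (W : 𝓞 F) * algebraMap (𝓞 L) L x =
        ∑ i, algebraMap (𝓞 F) L (v i) * θ ^ (i : ℕ) := by
    intro x
    obtain ⟨v, hv⟩ := hInt g W F L f θ h0 hsq _ x.isIntegral_coe
    refine ⟨v, ?_⟩
    rw [map_natCast]
    exact hv
  have hq0 : (q : 𝓞 F) ≠ 0 := Nat.cast_ne_zero.2 hqp.ne_zero
  have hp0 : 𝔮 q ≠ ⊥ := by
    intro h'
    rw [h', Ideal.mem_bot] at hqm
    exact hq0 hqm
  rcases hall 𝔓 hov with h𝔓 | h𝔓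
  swap
  · rw [h𝔓]
    exact hs1 𝔓₂ ov2 hv2
  rw [h𝔓]
  have hne : 𝔓₁ ≠ 𝔓₂ := by
    intro h'
    rw [h', hv2] at hv1
    exact absurd hv1 (lt_irrefl _)
  obtain ⟨hc1, hc2, hset⟩ := fac hp0 hqm hqp.ne_zero hne ov1 ov2 hQ1 hQ2 hall
  have ht1 : t ∈ 𝔓₁.asIdeal := by
    rw [← 𝔓₁.valuation_lt_one_iff_mem (K := L)]
    change 𝔓₁.valuation L (algebraMap (𝓞 L) L t) < 1
    rw [ht]
    exact hv1
  -- the intersection of the two primes
  have hboth : ∀ {w : 𝓞 L}, w ∈ 𝔓₁.asIdeal → w ∈ 𝔓₂.asIdeal →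
      w ∈ (𝔮 q).map (algebraMap (𝓞 F) (𝓞 L)) := by
    intro w h1 h2
    have hI := map_ne (L := L) hp0
    by_cases hw0 : w = 0
    · rw [hw0]
      exact Ideal.zero_mem _
    have hwI : (Ideal.span {w} : Ideal (𝓞 L)) ≠ 0 := by
      rw [Ne, Ideal.zero_eq_bot, Ideal.span_singleton_eq_bot]
      exact hw0
    have hdvd : (𝔮 q).map (algebraMap (𝓞 F) (𝓞 L)) ∣ Ideal.span {w} := by
      rw [dvd_iff_normalizedFactors_le_normalizedFactors hI hwI, Multiset.le_iff_count]
      intro J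
      by_cases hJ : J ∈ normalizedFactors ((𝔮 q).map (algebraMap (𝓞 F) (𝓞 L)))
      · have hJ' := Multiset.mem_toFinset.2 hJ
        rw [hset, Finset.mem_insert, Finset.mem_singleton] at hJ'
        rcases hJ' with rfl | rfl
        · rw [hc1]
          refine Multiset.count_pos.2 ?_
          rw [Ideal.mem_normalizedFactors_iff hwI, Ideal.span_singleton_le_iff_mem]
          exact ⟨𝔓₁.isPrime, h1⟩
        · rw [hc2]
          refine Multiset.count_pos.2 ?_
          rw [Ideal.mem_normalizedFactors_iff hwI, Ideal.span_singleton_le_iff_mem]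
          exact ⟨𝔓₂.isPrime, h2⟩
      · rw [Multiset.count_eq_zero_of_notMem hJ]
        exact Nat.zero_le _
    rw [Ideal.dvd_iff_le, Ideal.span_singleton_le_iff_mem] at hdvd
    exact hdvd
  have hsq2 : Sq1 𝔓₂ x := hs1 𝔓₂ ov2 hv2
  obtain ⟨y1, hy1⟩ := hev 𝔓₁ ov1 hv1
  -- `Sq1` implies `Ev`
  obtain ⟨s, hs⟩ := hsq2
  have hvs : 𝔓₂.valuation L x = 𝔓₂.valuation L s ^ 2 := by
    have h3 : 𝔓₂.valuation L (x - (x - s ^ 2)) = 𝔓₂.valuation L x :=
      Valuation.map_sub_eq_of_lt_left _ hs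
    rw [sub_sub_cancel, map_pow] at h3
    exact h3.symm
  have hvx1 : 𝔓₁.valuation L x ≠ 0 := (Valuation.ne_zero_iff _).mpr hx
  have hvx2 : 𝔓₂.valuation L x ≠ 0 := (Valuation.ne_zero_iff _).mpr hx
  have hy10 : 𝔓₁.valuation L y1 ≠ 0 := by
    intro h'
    rw [h'] at hy1
    exact hvx1 (by rw [hy1]; simp)
  have hs0 : 𝔓₂.valuation L s ≠ 0 := by
    intro h'
    rw [h'] at hvs
    exact hvx2 (by rw [hvs]; simp)
  obtain ⟨β, hβ0, hβ1, hβ2⟩ := exists_two (L := L) hne (log (𝔓₁.valuation L y1))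
    (log (𝔓₂.valuation L s))
  rw [exp_log hy10] at hβ1
  rw [exp_log hs0] at hβ2
  -- `x / β ^ 2` is a unit at both primes
  have hu1 : 𝔓₁.valuation L (x / β ^ 2) = 1 := by
    rw [map_div₀, map_pow, hβ1, ← hy1, div_self hvx1]
  have hu2 : 𝔓₂.valuation L (x / β ^ 2) = 1 := by
    rw [map_div₀, map_pow, hβ2, ← hvs, div_self hvx2]
  obtain ⟨c, z, hc, hz⟩ := exists_den_p (O := 𝓞 L) h ht hp hp0 (x / β ^ 2) (by
    intro 𝔓' hov'
    rcases hall 𝔓' hov' with h' | h'
    · rw [h', hu1]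
    · rw [h', hu2])
  have hc0 : algebraMap (𝓞 F) L c ≠ 0 := by
    intro h'
    have : c = 0 := algL_inj (K := F) (by rw [h', map_zero])
    exact hc (by rw [this]; exact Ideal.zero_mem _)
  have hvc : ∀ 𝔓 : HeightOneSpectrum (𝓞 L), Ov (𝔮 q) 𝔓 →
      𝔓.valuation L (algebraMap (𝓞 F) L c) = 1 := by
    intro 𝔓' hov'
    rw [IsScalarTower.algebraMap_apply (𝓞 F) (𝓞 L) L]
    refine 𝔓'.valuation_eq_one_iff_notMem.mpr ?_
    rw [ov_iff hp hp0 hov']
    exact hc
  -- `y = c ^ 2 x / β ^ 2`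
  have hy : algebraMap (𝓞 L) L (algebraMap (𝓞 F) (𝓞 L) c * z) =
      x * (algebraMap (𝓞 F) L c / β) ^ 2 := by
    rw [map_mul, ← hz, ← IsScalarTower.algebraMap_apply (𝓞 F) (𝓞 L) L]
    field_simp
  have hcβ : algebraMap (𝓞 F) L c / β ≠ 0 := div_ne_zero hc0 hβ0
  rw [← sq1_mul_sq hcβ, ← hy]
  refine ns_intW h hp hp0 hW𝔮 ht hI hne ov1 ht1 hboth ?_ ?_ ?_ ?_
  · rw [← 𝔓₁.valuation_eq_one_iff_notMem (K := L), hy, map_mul, map_pow, map_div₀, hvc 𝔓₁ ov1,
      hβ1, hy1, div_pow, one_pow, mul_one_div, div_self (pow_ne_zero 2 hy10)]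
  · rw [← 𝔓₂.valuation_eq_one_iff_notMem (K := L), hy, map_mul, map_pow, map_div₀, hvc 𝔓₂ ov2,
      hβ2, hvs, div_pow, one_pow, mul_one_div, div_self (pow_ne_zero 2 hs0)]
  · rw [hy, map_mul, map_pow]
    exact hnx.mul (IsSquare.sq _)
  · rw [hy, sq1_mul_sq hcβ]
    exact ⟨s, hs⟩

end fin

end Pool.Agent.H18N.NSW
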