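import Pool.Agent.H18N.Stm
import Pool.Agent.N426.PF.Par

/-!
# Project JN, part PARQW (helper67), after `N426/PF/Par.lean` (helper426)
-/

set_option autoImplicit false
set_option linter.all false

open Polynomial IsDedekindDomain WithZero UniqueFactorizationMonoid NumberField
open scoped Classical

namespace Pool.Agent.H18N.PARQW

open Pool.Agent.N874.PP (Ev Sq1)
open Pool.Agent.N862.PP (val_eq ev_iff_count ev_mul_sq cn cn_sum cn_pow cn_zero cn_one)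
open Pool.Agent.N783.PF (IsGen fF rd Cg GoodS)
open Pool.Agent.N426.PF

variable {F L : Type} [Field F] [NumberField F] [Field L] [NumberField L] [Algebra F L] {g W : ℕ}
  {f : (𝓞 F)[X]} {θ : L}

theorem fin_O : Module.Finite (𝓞 F) (𝓞 L) := IsIntegralClosure.finite (𝓞 F) F L (𝓞 L)

theorem wy (hI : S_INTW) (h0 : IsGen g f θ) (hsq : SqW g W f) {t : 𝓞 L}
    (ht : algebraMap (𝓞 L) L t = θ) (y : 𝓞 L) : ∃ v : Fin (2 * g + 1) → 𝓞 F,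
    (W : 𝓞 L) * y = ∑ i, algebraMap (𝓞 F) (𝓞 L) (v i) * t ^ (i : ℕ) := by
  obtain ⟨v, hv⟩ := hI g W F L f θ h0 hsq (algebraMap (𝓞 L) L y) (RingOfIntegers.isIntegral_coe y)
  refine ⟨v, ?_⟩
  apply IsFractionRing.injective (𝓞 L) L
  rw [map_mul, map_natCast, map_sum, hv]
  refine Finset.sum_congr rfl fun i _ => ?_
  rw [map_mul, map_pow, ht, ← IsScalarTower.algebraMap_apply (𝓞 F) (𝓞 L) L]
  rfl

/-- every element of `𝓞 L` is congruent to an element of `𝓞 F` modulo `𝔓` -/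
theorem res (hI : S_INTW) (h0 : IsGen g f θ) (hsq : SqW g W f) {t : 𝓞 L}
    (ht : algebraMap (𝓞 L) L t = θ) {𝔭 : Ideal (𝓞 F)} (hp : 𝔭.IsPrime) (hp0 : 𝔭 ≠ ⊥)
    (hW : (W : 𝓞 F) ∉ 𝔭) {𝔓 : HeightOneSpectrum (𝓞 L)} (hov : Ov 𝔭 𝔓) {c : 𝓞 F}
    (hc : t - algebraMap (𝓞 F) (𝓞 L) c ∈ 𝔓.asIdeal) (y : 𝓞 L) :
    ∃ r : 𝓞 F, y - algebraMap (𝓞 F) (𝓞 L) r ∈ 𝔓.asIdeal := by
  obtain ⟨v, hv⟩ := wy hI h0 hsq ht y
  have hm : 𝔭.IsMaximal := hp.isMaximal hp0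
  obtain ⟨u, i, hi, hu⟩ := hm.exists_inv hW
  refine ⟨u * ∑ i, v i * c ^ (i : ℕ), ?_⟩
  have h1 : (W : 𝓞 L) * y - algebraMap (𝓞 F) (𝓞 L) (∑ i, v i * c ^ (i : ℕ)) =
      ∑ i, algebraMap (𝓞 F) (𝓞 L) (v i) *
        (t ^ (i : ℕ) - algebraMap (𝓞 F) (𝓞 L) c ^ (i : ℕ)) := by
    rw [hv]
    simp only [mul_sub, Finset.sum_sub_distrib, map_sum, map_mul, map_pow]
  have h2 : (W : 𝓞 L) * y - algebraMap (𝓞 F) (𝓞 L) (∑ i, v i * c ^ (i : ℕ)) ∈ 𝔓.asIdeal := by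
    rw [h1]
    refine Ideal.sum_mem _ fun i _ => Ideal.mul_mem_left _ _ ?_
    exact Ideal.mem_of_dvd _ (sub_dvd_pow_sub_pow _ _ _) hc
  have h3 := hov i hi
  have hu' : algebraMap (𝓞 F) (𝓞 L) u * (W : 𝓞 L) + algebraMap (𝓞 F) (𝓞 L) i = 1 := by
    rw [← map_one (algebraMap (𝓞 F) (𝓞 L)), ← hu, map_add, map_mul, map_natCast]
  have h4 : y - algebraMap (𝓞 F) (𝓞 L) (u * ∑ i, v i * c ^ (i : ℕ)) =
      algebraMap (𝓞 F) (𝓞 L) u *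
        ((W : 𝓞 L) * y - algebraMap (𝓞 F) (𝓞 L) (∑ i, v i * c ^ (i : ℕ))) +
      y * algebraMap (𝓞 F) (𝓞 L) i := by
    rw [map_mul]
    linear_combination (-y) * hu'
  rw [h4]
  exact Ideal.add_mem _ (Ideal.mul_mem_left _ _ h2) (Ideal.mul_mem_left _ _ h3)

theorem finr (h0 : IsGen g f θ) : Module.finrank (𝓞 F) (𝓞 L) = 2 * g + 1 := by
  have h1 := IsFractionRing.finrank_eq (𝓞 F) F (𝓞 L) L
  rw [← h0.rank, h1]

theorem cn_map' (h0 : IsGen g f θ) {𝔭 : Ideal (𝓞 F)} (hpp : 𝔭.IsPrime) (hpb : 𝔭 ≠ ⊥) :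
    cn (𝓞 F) 𝔭 (𝔭.map (algebraMap (𝓞 F) (𝓞 L))) = 2 * g + 1 := by
  have hfin : Module.Finite (𝓞 F) (𝓞 L) := fin_O
  have htf : Module.IsTorsionFree (𝓞 F) (𝓞 L) := tf_O (K := F) (L := L)
  have hirr : Irreducible 𝔭 := (Ideal.prime_of_isPrime hpb hpp).irreducible
  unfold cn
  rw [Ideal.relNorm_algebraMap, finr h0, normalizedFactors_pow, Multiset.count_nsmul,
    normalizedFactors_irreducible hirr, normalize_eq, Multiset.count_singleton_self, mul_one]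

/-- `W` is prime to `q` -/
theorem W_notMem (hW : 0 < W) {q : ℕ} (hq : q.Prime) (hWq : W < q) {𝔭 : Ideal (𝓞 F)}
    (hp : 𝔭.IsPrime) (hqp : (q : 𝓞 F) ∈ 𝔭) : (W : 𝓞 F) ∉ 𝔭 := by
  intro h
  have hcop : Nat.Coprime W q :=
    ((Nat.Prime.coprime_iff_not_dvd hq).2 fun hd => absurd (Nat.le_of_dvd hW hd) (not_le.2 hWq)).symm
  have h1 : IsCoprime (W : ℤ) (q : ℤ) := Nat.isCoprime_iff_coprime.2 hcop
  obtain ⟨a, b, hab⟩ := h1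
  apply hp.ne_top
  rw [Ideal.eq_top_iff_one]
  have e : (1 : 𝓞 F) = (a : 𝓞 F) * (W : 𝓞 F) + (b : 𝓞 F) * (q : 𝓞 F) := by
    have := congrArg (fun z : ℤ => (z : 𝓞 F)) hab
    push_cast at this
    exact this.symm
  rw [e]
  exact Ideal.add_mem _ (Ideal.mul_mem_left _ _ h) (Ideal.mul_mem_left _ _ hqp)

/-- **PARQW.** -/
theorem t (hInt : Pool.Agent.H18N.S_INTW) (hE : Pool.Agent.H18N.S_EXQW) :
    Pool.Agent.H18N.S_PARQW := by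
  intro g W F L _ _ _ _ _ f θ S 𝔮 hh P hg h0 hsq hS q hQS hCg x hx hnx 𝔓 hov hθ
  have h := toG h0
  obtain ⟨t, ht⟩ := exists_t (O := 𝓞 L) h
  have hfin : Module.Finite (𝓞 F) (𝓞 L) := fin_O
  have htf : Module.IsTorsionFree (𝓞 F) (𝓞 L) := tf_O (K := F) (L := L)
  have hfd := fd h
  have hpf := perf (F := F)
  obtain ⟨𝔓₁, 𝔓₂, ov1, ov2, hv1, hv2, hQ1, hQ2, hall⟩ :=
    hE g W F L f θ S 𝔮 hh P hg h0 hsq hS q hQS hCg
  obtain ⟨hqp, hWq, -, -, -, hp, hqm, -⟩ := hS q hQS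
  have hq0 : (q : 𝓞 F) ≠ 0 := Nat.cast_ne_zero.2 hqp.ne_zero
  have hp0 : 𝔮 q ≠ ⊥ := by
    intro h'
    rw [h', Ideal.mem_bot] at hqm
    exact hq0 hqm
  have hWn := W_notMem hsq.pos hqp hWq hp hqm
  have h𝔓 : 𝔓 = 𝔓₁ := by
    rcases hall 𝔓 hov with h' | h'
    · exact h'
    · rw [h', hv2] at hθ
      exact absurd hθ (lt_irrefl _)
  have hne : 𝔓₁ ≠ 𝔓₂ := by
    intro h'
    rw [h', hv2] at hv1
    exact absurd hv1 (lt_irrefl _)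
  obtain ⟨hc1, hc2, hset⟩ := fac hp0 hqm hqp.ne_zero hne ov1 ov2 hQ1 hQ2 hall
  have ht1 : t - algebraMap (𝓞 F) (𝓞 L) 0 ∈ 𝔓₁.asIdeal := by
    rw [map_zero, sub_zero, ← 𝔓₁.valuation_lt_one_iff_mem (K := L)]
    change 𝔓₁.valuation L (algebraMap (𝓞 L) L t) < 1
    rw [ht]
    exact hv1
  have h1 := cn_deg_one hp hp0 ov1 (res hInt h0 hsq ht hp hp0 hWn ov1 ht1)
  have hsum := cn_map' (L := L) h0 hp hp0
  rw [cn_sum _ (map_ne (L := L) hp0), hset,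
    Finset.sum_pair (fun h' => hne (HeightOneSpectrum.ext h')), hc1, hc2, h1] at hsum
  have h2 : cn (𝓞 F) (𝔮 q) 𝔓₂.asIdeal = 2 * g := by omega
  rw [h𝔓]
  refine parity hp hp0 𝔓₁ (by rw [h1]; exact odd_one) hx hnx fun 𝔓' ho hne' => Or.inr ?_
  rcases hall 𝔓' ho with h' | h'
  · exact absurd h' hne'
  · rw [h', h2]
    exact even_two_mul g

end Pool.Agent.H18N.PARQW
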