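import Pool.Agent.H18N.Stm
import Pool.Agent.N426.PF.Par

/-!
# Project JN (helper18), part PARW: the parity at a prime over which `f` has one multiple root

Author: helper69, after `N426/PF/Par.lean` (helper426).
-/

set_option autoImplicit false
set_option linter.all false

open Polynomial IsDedekindDomain Matrix NumberField WithZero
open scoped Classical

namespace Pool.Agent.H18N.PARW

open Pool.Agent.N426.PF (toG exists_t tf_O fd perf cn_deg_one parity ov_iff)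
open Pool.Agent.N783.PF (IsGen fF Ov)

theorem fin_OL (F L : Type) [Field F] [NumberField F] [Field L] [NumberField L] [Algebra F L] :
    Module.Finite (𝓞 F) (𝓞 L) :=
  Module.Finite.of_restrictScalars_finite ℤ (𝓞 F) (𝓞 L)

/-- `u W - 1` is in `𝔭` for some `u`. -/
theorem exists_inv {F : Type} [Field F] [NumberField F] {W : ℕ} {𝔭 : Ideal (𝓞 F)}
    (hp : 𝔭.IsPrime) (hp0 : 𝔭 ≠ ⊥) (hW : (W : 𝓞 F) ∉ 𝔭) :
    ∃ u : 𝓞 F, u * (W : 𝓞 F) - 1 ∈ 𝔭 := by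
  have hm : 𝔭.IsMaximal := hp.isMaximal hp0
  obtain ⟨u, i, hi, h⟩ := hm.exists_inv hW
  refine ⟨u, ?_⟩
  have e : u * (W : 𝓞 F) - 1 = - i := by
    rw [← h]
    ring
  rw [e]
  exact 𝔭.neg_mem hi

/-- All elements are congruent to elements of `𝓞 F` modulo a prime over `𝔭` at which `θ` is. -/
theorem res {F L : Type} [Field F] [NumberField F] [Field L] [NumberField L] [Algebra F L]
    {g W : ℕ} {θ : L} {𝔭 : Ideal (𝓞 F)} (hp : 𝔭.IsPrime) (hp0 : 𝔭 ≠ ⊥) (hW : (W : 𝓞 F) ∉ 𝔭)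
    (hInt : ∀ x : L, IsIntegral ℤ x → ∃ v : Fin (2 * g + 1) → 𝓞 F,
      (W : L) * x = ∑ i, algebraMap F L (v i : F) * θ ^ (i : ℕ)) {t : 𝓞 L}
    (ht : algebraMap (𝓞 L) L t = θ) {𝔓 : HeightOneSpectrum (𝓞 L)} (hov : Ov 𝔭 𝔓) {c : 𝓞 F}
    (hc : t - algebraMap (𝓞 F) (𝓞 L) c ∈ 𝔓.asIdeal) (y : 𝓞 L) :
    ∃ r : 𝓞 F, y - algebraMap (𝓞 F) (𝓞 L) r ∈ 𝔓.asIdeal := by
  obtain ⟨u, hu⟩ := exists_inv hp hp0 hW
  obtain ⟨v, hv⟩ := hInt (algebraMap (𝓞 L) L y) (NumberField.RingOfIntegers.isIntegral_coe y)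
  have hv' : (W : 𝓞 L) * y = ∑ i, algebraMap (𝓞 F) (𝓞 L) (v i) * t ^ (i : ℕ) := by
    apply IsFractionRing.injective (𝓞 L) L
    rw [map_mul, map_natCast, hv, map_sum]
    refine Finset.sum_congr rfl fun i _ => ?_
    rw [map_mul, map_pow, ht]
    congr 1
  have h1 : ((W : 𝓞 L) * y) - algebraMap (𝓞 F) (𝓞 L) (∑ i, v i * c ^ (i : ℕ)) ∈ 𝔓.asIdeal := by
    have e : ((W : 𝓞 L) * y) - algebraMap (𝓞 F) (𝓞 L) (∑ i, v i * c ^ (i : ℕ)) =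
        ∑ i, algebraMap (𝓞 F) (𝓞 L) (v i) * (t ^ (i : ℕ) - algebraMap (𝓞 F) (𝓞 L) c ^ (i : ℕ)) := by
      simp only [mul_sub, Finset.sum_sub_distrib, hv', map_sum, map_mul, map_pow]
    rw [e]
    refine Ideal.sum_mem _ fun i _ => Ideal.mul_mem_left _ _ ?_
    exact Ideal.mem_of_dvd _ (sub_dvd_pow_sub_pow _ _ _) hc
  have h2 : algebraMap (𝓞 F) (𝓞 L) (u * (W : 𝓞 F) - 1) ∈ 𝔓.asIdeal := hov _ hu
  refine ⟨u * ∑ i, v i * c ^ (i : ℕ), ?_⟩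
  have e : y - algebraMap (𝓞 F) (𝓞 L) (u * ∑ i, v i * c ^ (i : ℕ)) =
      algebraMap (𝓞 F) (𝓞 L) u *
        (((W : 𝓞 L) * y) - algebraMap (𝓞 F) (𝓞 L) (∑ i, v i * c ^ (i : ℕ))) -
      y * algebraMap (𝓞 F) (𝓞 L) (u * (W : 𝓞 F) - 1) := by
    rw [map_sub, map_mul, map_mul, map_one, map_natCast]
    ring
  rw [e]
  exact Ideal.sub_mem _ (Ideal.mul_mem_left _ _ h1) (Ideal.mul_mem_left _ _ h2)

/-- **PARW.** -/
theorem t (hI : S_INTW) : S_PARW := by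
  intro g W F L _ _ _ _ _ f θ h0 hsq 𝔭 hp hp0 hW 𝔓₀ c hov hθ x hx hnx hoth
  have h := toG h0
  obtain ⟨t, ht⟩ := exists_t (O := 𝓞 L) h
  have hfin : Module.Finite (𝓞 F) (𝓞 L) := fin_OL F L
  have htf : Module.IsTorsionFree (𝓞 F) (𝓞 L) := tf_O (K := F) (L := L)
  have hfd := fd h
  have hpf := perf (F := F)
  have hc : t - algebraMap (𝓞 F) (𝓞 L) c ∈ 𝔓₀.asIdeal := by
    rw [← 𝔓₀.valuation_lt_one_iff_mem (K := L)]
    change 𝔓₀.valuation L (algebraMap (𝓞 L) L (t - algebraMap (𝓞 F) (𝓞 L) c)) < 1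
    rw [map_sub, ht]
    exact hθ
  have h1 := cn_deg_one hp hp0 hov (res hp hp0 hW (hI g W F L f θ h0 hsq) ht hov hc)
  exact parity hp hp0 𝔓₀ (by rw [h1]; exact odd_one) hx hnx
    fun 𝔓 ho hne => Or.inl (hoth 𝔓 ho hne)

end Pool.Agent.H18N.PARW
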