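import Pool.Agent.H18N.Stm
import Pool.Agent.N459.PF.Ram

/-!
# The primes which divide `f'(θ)`, outside `W` (part RAMW of project JN)

An adaptation of `N459/PF/Ram.lean`.
-/

set_option autoImplicit false
set_option linter.all false

open Polynomial IsDedekindDomain Matrix NumberField
open scoped Classical

namespace Pool.Agent.H18N.RAMW

open Pool.Agent.N783.PF Pool.Agent.N459.PF

/-- The primes outside `W` which divide `f'(θ)`. -/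
theorem t : S_RAMW := by
  intro g W F L _ _ _ _ _ f θ hG hsq 𝔭 h𝔭 h𝔭0 hW 𝔓₀ hOv hlt
  have hsq' : dsc g f ∉ 𝔭 ^ 2 := hsq.out 𝔭 h𝔭 h𝔭0 hW
  have hd : dsc g f ≠ 0 := fun h0 => hsq' (by rw [h0]; exact Ideal.zero_mem _)
  obtain ⟨d, hd1, hd2⟩ := rel hG hd
  obtain ⟨θ', hθ'⟩ : ∃ θ' : 𝓞 L, algebraMap (𝓞 L) L θ' = θ := ⟨⟨θ, theta_int hG⟩, rfl⟩
  haveI h𝔭m : 𝔭.IsMaximal := h𝔭.isMaximal h𝔭0
  have hlo : ∀ 𝔓 : HeightOneSpectrum (𝓞 L), Ov 𝔭 𝔓 → 𝔓.asIdeal.LiesOver 𝔭 := by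
    intro 𝔓 h
    refine ⟨?_⟩
    refine h𝔭m.eq_of_le ?_ fun a ha => h a ha
    exact (Ideal.IsPrime.under (𝓞 F) 𝔓.asIdeal).ne_top
  have hrn : ∀ 𝔓 : HeightOneSpectrum (𝓞 L), Ov 𝔭 𝔓 →
      Ideal.relNorm (𝓞 F) 𝔓.asIdeal = 𝔭 ^ 𝔓.asIdeal.inertiaDeg (𝓞 F) ∧
        0 < 𝔓.asIdeal.inertiaDeg (𝓞 F) := by
    intro 𝔓 h
    haveI := hlo 𝔓 h
    haveI := 𝔓.isMaximal
    exact ⟨Ideal.relNorm_eq_pow_of_isMaximal 𝔓.asIdeal 𝔭, Ideal.inertiaDeg_pos _ _⟩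
  have hmem : ∀ 𝔓 : HeightOneSpectrum (𝓞 L),
      𝔓.valuation L (aeval θ (derivative (fF f))) < 1 ↔ d ∈ 𝔓.asIdeal := by
    intro 𝔓
    rw [← hd1, HeightOneSpectrum.valuation_lt_one_iff_mem]
  have hnot : ∀ (I : Ideal (𝓞 L)) (k : ℕ), d ∈ I → 2 ≤ k → Ideal.relNorm (𝓞 F) I = 𝔭 ^ k →
      False := by
    intro I k h1 h2 h3
    have h4 : Ideal.relNorm (𝓞 F) (Ideal.span {d}) ≤ Ideal.relNorm (𝓞 F) I :=
      Ideal.relNorm_mono _ ((Ideal.span_singleton_le_iff_mem _).2 h1)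
    rw [hd2, h3] at h4
    exact hsq' (Ideal.pow_le_pow_right h2 ((Ideal.span_singleton_le_iff_mem _).1 h4))
  have hd0 : d ∈ 𝔓₀.asIdeal := (hmem 𝔓₀).1 hlt
  obtain ⟨hr0, hp0⟩ := hrn 𝔓₀ hOv
  constructor
  · have hf1 : 𝔓₀.asIdeal.inertiaDeg (𝓞 F) = 1 := by
      by_contra hne
      exact hnot _ _ hd0 (by omega) hr0
    haveI := hlo 𝔓₀ hOv
    haveI := 𝔓₀.isMaximal
    rw [Ideal.inertiaDeg_eq_of_isMaximal 𝔭] at hf1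
    letI : Field (𝓞 F ⧸ 𝔭) := Ideal.Quotient.field 𝔭
    obtain ⟨c, hc⟩ := (Subalgebra.bot_eq_top_of_finrank_eq_one hf1).symm ▸
      (Algebra.mem_top : (Ideal.Quotient.mk 𝔓₀.asIdeal θ') ∈
        (⊤ : Subalgebra (𝓞 F ⧸ 𝔭) (𝓞 L ⧸ 𝔓₀.asIdeal)))
    obtain ⟨c, rfl⟩ := Ideal.Quotient.mk_surjective c
    refine ⟨c, ?_⟩
    have h5 : Ideal.Quotient.mk 𝔓₀.asIdeal (algebraMap (𝓞 F) (𝓞 L) c) =
        Ideal.Quotient.mk 𝔓₀.asIdeal θ' := hc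
    have h6 : θ' - algebraMap (𝓞 F) (𝓞 L) c ∈ 𝔓₀.asIdeal := by
      rw [← Ideal.Quotient.eq]
      exact h5.symm
    have h7 : θ - algebraMap F L (c : F) = algebraMap (𝓞 L) L (θ' - algebraMap (𝓞 F) (𝓞 L) c) := by
      rw [map_sub, hθ']
      rfl
    rw [h7, HeightOneSpectrum.valuation_lt_one_iff_mem]
    exact h6
  · intro 𝔓 h1 h2
    refine le_antisymm ?_ (not_lt.1 fun h3 => ?_)
    · rw [← hd1]
      exact 𝔓.valuation_le_one _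
    · have h4 : d ∈ 𝔓.asIdeal := (hmem 𝔓).1 h3
      obtain ⟨hr1, hp1⟩ := hrn 𝔓 h1
      refine hnot (𝔓.asIdeal * 𝔓₀.asIdeal)
        (𝔓.asIdeal.inertiaDeg (𝓞 F) + 𝔓₀.asIdeal.inertiaDeg (𝓞 F)) ?_ (by omega) ?_
      · haveI := 𝔓.isMaximal
        haveI := 𝔓₀.isMaximal
        have h5 : IsCoprime 𝔓.asIdeal 𝔓₀.asIdeal := by
          rw [Ideal.isCoprime_iff_sup_eq]
          exact Ideal.IsMaximal.coprime_of_ne 𝔓.isMaximal 𝔓₀.isMaximal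
            fun h => h2 (HeightOneSpectrum.ext h)
        rw [← Ideal.inf_eq_mul_of_isCoprime h5]
        exact ⟨h4, hd0⟩
      · rw [map_mul, hr1, hr0, pow_add]

end Pool.Agent.H18N.RAMW
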