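import Pool.Agent.H18N.Stm
import Pool.Agent.H18G.REC2

/-!
# REC2W: the relative form of the reciprocity law near any polynomial (project JN)
-/

set_option autoImplicit false
set_option linter.all false

open Polynomial IsDedekindDomain Matrix NumberField WithZero
open scoped Classical

namespace Pool.Agent.H18N.REC2W

open Pool.Agent.N352.PJ (Mt Typ dd)
open Pool.Agent.N874.PP (Ev Sq1 U0)
open Pool.Agent.N202.M4 (hasse hil IsSymbol)
open Pool.Agent.N783.PQ (LocIm tp Gm sg)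
open Pool.Agent.N874.JM (LocF)
open Pool.Agent.N783.PF
open Pool.Agent.N783.PF.R2 (fF_deg fF_mon norm_eq Gm_det cop Tf_symm Tf_det HV_map HV_uniq pr_eq
  det_inst)
open Pool.Agent.N271.PQ (gram tp_congr vc)
open Pool.Agent.H18G (LocS cnt)
open Pool.Agent.H18G.REC2 (iso_sq_map pm_mul par)

/-- **The relative reciprocity law.** -/
theorem t (h1 : S_HVG) (h2 : S_TRP) (h3 : S_TRR) (h5 : Pool.Agent.H18N.S_ISOW)
    (h6 : Pool.Agent.H18N.S_HQW) : Pool.Agent.H18N.S_REC2W := by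
  intro g W F L _ _ _ _ _ f θ S 𝔮 r P hg hG hsf hS hF 𝔔 h𝔔 h k hih hik hstr
  obtain ⟨hα, hsq, hev⟩ := hih
  obtain ⟨hκ, hsqk, hevk⟩ := hik
  have hακ : aeval θ (h * k) ≠ 0 := by
    rw [map_mul]
    exact mul_ne_zero hα hκ
  have hsqhk : IsSquare (Algebra.norm F (aeval θ (h * k))) := by
    rw [map_mul, map_mul]
    exact hsq.mul hsqk
  have hevhk : ∀ 𝔓 : HeightOneSpectrum (𝓞 L), (W : 𝓞 L) ∉ 𝔓.asIdeal → (∀ q ∈ S, 𝔓 ≠ 𝔔 q) →
      Ev 𝔓 (aeval θ (h * k)) := by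
    intro 𝔓 hW𝔓 h𝔓
    obtain ⟨u, hu⟩ := hev 𝔓 hW𝔓 h𝔓
    obtain ⟨v, hv⟩ := hevk 𝔓 hW𝔓 h𝔓
    exact ⟨u * v, by rw [map_mul (aeval θ), map_mul, map_mul, hu, hv, mul_pow]⟩
  have hα1 : aeval θ (1 : F[X]) ≠ 0 := by
    rw [map_one]
    exact one_ne_zero
  obtain ⟨O, hO⟩ : ∃ O : Mt g F, O = Gm g (fF f) 1 := ⟨_, rfl⟩
  obtain ⟨A, hA⟩ : ∃ A : Mt g F, A = Gm g (fF f) h := ⟨_, rfl⟩
  obtain ⟨B, hB⟩ : ∃ B : Mt g F, B = Gm g (fF f) (h * k) := ⟨_, rfl⟩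
  have hOs : O.IsSymm := by rw [hO]; exact Pool.Agent.N835.PQ.Gm_symm g _ _
  have hAs : A.IsSymm := by rw [hA]; exact Pool.Agent.N835.PQ.Gm_symm g _ _
  have hBs : B.IsSymm := by rw [hB]; exact Pool.Agent.N835.PQ.Gm_symm g _ _
  have hOd : O.det ≠ 0 := by rw [hO]; exact Gm_det hG 1 hα1
  have hAd : A.det ≠ 0 := by rw [hA]; exact Gm_det hG h hα
  have hBd : B.det ≠ 0 := by rw [hB]; exact Gm_det hG _ hακ
  have hOd' : @Matrix.det (Fin (2 * g + 1)) (fun a b => Classical.propDecidable (a = b)) _ F _ O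
      ≠ 0 := ne_of_eq_of_ne (det_inst _ _ _) hOd
  have hAd' : @Matrix.det (Fin (2 * g + 1)) (fun a b => Classical.propDecidable (a = b)) _ F _ A
      ≠ 0 := ne_of_eq_of_ne (det_inst _ _ _) hAd
  have hBd' : @Matrix.det (Fin (2 * g + 1)) (fun a b => Classical.propDecidable (a = b)) _ F _ B
      ≠ 0 := ne_of_eq_of_ne (det_inst _ _ _) hBd
  have hTO : (Tf O).det ≠ 0 := ne_of_eq_of_ne (det_inst _ _ _) (Tf_det hOd')
  have hTA : (Tf A).det ≠ 0 := ne_of_eq_of_ne (det_inst _ _ _) (Tf_det hAd')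
  have hTB : (Tf B).det ≠ 0 := ne_of_eq_of_ne (det_inst _ _ _) (Tf_det hBd')
  have hTOs := Tf_symm hOs
  have hTAs := Tf_symm hAs
  have hTBs := Tf_symm hBs
  -- diagonal forms
  obtain ⟨n, φ⟩ : ∃ n : ℕ, Nonempty (Fin n ≃ Fin (2 * g + 1) × Fin (Module.finrank ℚ F)) :=
    ⟨_, ⟨(Fintype.equivFin _).symm⟩⟩
  obtain ⟨φ⟩ := φ
  obtain ⟨o, U, ho, -, hU⟩ := Pool.Agent.N835.PQ.exists_diag ((Tf O).submatrix φ φ)
    (by rw [Matrix.IsSymm, Matrix.transpose_submatrix, hTOs.eq])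
    (by rw [Matrix.det_submatrix_equiv_self]; exact hTO)
  obtain ⟨a, T, ha, -, hT⟩ := Pool.Agent.N835.PQ.exists_diag ((Tf A).submatrix φ φ)
    (by rw [Matrix.IsSymm, Matrix.transpose_submatrix, hTAs.eq])
    (by rw [Matrix.det_submatrix_equiv_self]; exact hTA)
  obtain ⟨b, R, hb, -, hR⟩ := Pool.Agent.N835.PQ.exists_diag ((Tf B).submatrix φ φ)
    (by rw [Matrix.IsSymm, Matrix.transpose_submatrix, hTBs.eq])
    (by rw [Matrix.det_submatrix_equiv_self]; exact hTB)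
  have hsym := Pool.Agent.N446.M4.sym_
  have hVO : ∀ (E : Type) [Field E] [CharZero E], HV ((Tf O).map (Rat.castHom E))
      (hasse (hil E) (List.ofFn fun i => (o i : E))) := fun E _ _ => HV_map E _ φ ho hU
  have hVA : ∀ (E : Type) [Field E] [CharZero E], HV ((Tf A).map (Rat.castHom E))
      (hasse (hil E) (List.ofFn fun i => (a i : E))) := fun E _ _ => HV_map E _ φ ha hT
  have hVB : ∀ (E : Type) [Field E] [CharZero E], HV ((Tf B).map (Rat.castHom E))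
      (hasse (hil E) (List.ofFn fun i => (b i : E))) := fun E _ _ => HV_map E _ φ hb hR
  have hSp : ∀ q ∈ S, q.Prime := fun q hq => (hS q hq).1
  have hQm : ∀ q ∈ S, (q : 𝓞 L) ∈ (𝔔 q).asIdeal := by
    intro q hq
    have h7 := (h𝔔 q hq).1 (q : 𝓞 F) (hS q hq).2.2.2.2.2.2.1
    rwa [map_natCast] at h7
  set εA : ℕ → ℤ := fun q => if ¬ Ev (𝔔 q) (aeval θ h) ∧ ¬ Sq1 (𝔔 q) (aeval θ h * ((q : L) * θ))
    then -1 else 1 with hεA
  set εB : ℕ → ℤ := fun q => if ¬ Ev (𝔔 q) (aeval θ (h * k)) ∧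
    ¬ Sq1 (𝔔 q) (aeval θ (h * k) * ((q : L) * θ)) then -1 else 1 with hεB
  have hεA' : ∀ q, εA q = 1 ∨ εA q = -1 := by
    intro q
    simp only [hεA]
    split_ifs
    · exact Or.inr rfl
    · exact Or.inl rfl
  have hεB' : ∀ q, εB q = 1 ∨ εB q = -1 := by
    intro q
    simp only [hεB]
    split_ifs
    · exact Or.inr rfl
    · exact Or.inl rfl
  have hT0 : @Matrix.det _ (fun a b => Classical.propDecidable (a = b)) _ ℚ _ (Tf O) ≠ 0 :=
    ne_of_eq_of_ne (det_inst _ _ _) hTO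
  have hT1 : @Matrix.det _ (fun a b => Classical.propDecidable (a = b)) _ ℚ _ (Tf A) ≠ 0 :=
    ne_of_eq_of_ne (det_inst _ _ _) hTA
  have hT2 : @Matrix.det _ (fun a b => Classical.propDecidable (a = b)) _ ℚ _ (Tf B) ≠ 0 :=
    ne_of_eq_of_ne (det_inst _ _ _) hTB
  have hWpos : 0 < W := hsf.pos
  -- a prime which does not divide `W`: `W` is not in the primes over it
  have hnW : ∀ (p : ℕ), p.Prime → ¬ p ∣ W → ∀ (M : Type) [Field M] [NumberField M]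
      (w : HeightOneSpectrum (𝓞 M)), (p : 𝓞 M) ∈ w.asIdeal → (W : 𝓞 M) ∉ w.asIdeal := by
    intro p hp hpW M _ _ w hw hWw
    have hc : IsCoprime (p : ℤ) (W : ℤ) := by
      rw [Nat.isCoprime_iff_coprime]
      exact (Nat.Prime.coprime_iff_not_dvd hp).2 hpW
    obtain ⟨x, y, hxy⟩ := hc
    apply w.isPrime.ne_top
    rw [Ideal.eq_top_iff_one]
    have e : (1 : 𝓞 M) = (x : 𝓞 M) * (p : 𝓞 M) + (y : 𝓞 M) * (W : 𝓞 M) := by
      have := congrArg (fun z : ℤ => (z : 𝓞 M)) hxy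
      simp only [Int.cast_add, Int.cast_mul, Int.cast_natCast, Int.cast_one] at this
      exact this.symm
    rw [e]
    exact Ideal.add_mem _ (Ideal.mul_mem_left _ _ hw) (Ideal.mul_mem_left _ _ hWw)
  -- the primes outside `S` and `W`
  have hodd : ∀ (p : ℕ), p.Prime → p ∉ S → ¬ p ∣ W → ∀ w : HeightOneSpectrum (𝓞 F),
      (p : 𝓞 F) ∈ w.asIdeal → ∀ x : F[X], aeval θ x ≠ 0 → IsSquare (Algebra.norm F (aeval θ x)) →
      (∀ 𝔓 : HeightOneSpectrum (𝓞 L), (W : 𝓞 L) ∉ 𝔓.asIdeal → (∀ q ∈ S, 𝔓 ≠ 𝔔 q) →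
        Ev 𝔓 (aeval θ x)) →
      Apx w O (Gm g (fF f) x) := by
    intro p hp hpS hpW w hw x hx hxsq hxev
    rw [hO]
    refine h5 g W F L f θ hG hsf w (hnW p hp hpW F w hw) x hx hxsq ?_
    intro 𝔓 hov
    have h8 := hov (p : 𝓞 F) hw
    rw [map_natCast] at h8
    refine hxev 𝔓 (hnW p hp hpW L 𝔓 h8) fun q hq he => ?_
    have h7 := hQm q hq
    rw [← he] at h7
    have h9 := pr_eq hp (hSp q hq) h8 h7
    rw [h9] at hpS
    exact hpS hq
  have key := Pool.Agent.N394.PQ.prd n b a hb ha S hSp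
    (by
      have e1 := h3 F (Fin (2 * g + 1)) A B hAs hBs hAd' hBd' (fun σ => by
        rw [hA, hB]
        exact iso_sq_map σ (fF_mon hG) (fF_deg hG) (hstr.real σ)) _ (hVA ℝ)
      exact HV_uniq h1 ℝ Pool.Agent.N835.PQ.symR (Tf B) hTBs hT2 (hVB ℝ) e1)
    (by
      intro p hp hpS
      by_cases hpW : p ∣ W
      · have hapx : ∀ w : HeightOneSpectrum (𝓞 F), (p : 𝓞 F) ∈ w.asIdeal → Apx w A B := by
          intro w hw
          have hw2 : (W : 𝓞 F) ∈ w.asIdeal := by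
            obtain ⟨c, hc⟩ := hpW
            rw [hc, Nat.cast_mul]
            exact Ideal.mul_mem_right _ _ hw
          obtain ⟨T', hT'⟩ := iso_sq_map (h := h) (k := k) (algebraMap F (w.adicCompletion F))
            (fF_mon hG) (fF_deg hG) (hstr.fin w hw2)
          rw [hA, hB]
          exact Pool.Agent.N591.PF.apx w _ _ T' hT'
        have e1 := h2 F p (Fin (2 * g + 1)) A B hAs hBs hAd' hBd' hapx _ (hVA ℚ_[p])
        exact HV_uniq h1 ℚ_[p] (hsym p) (Tf B) hTBs hT2 (hVB ℚ_[p]) e1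
      · have eA := h2 F p (Fin (2 * g + 1)) O A hOs hAs hOd' hAd' (fun w hw => by
          rw [hA]
          exact hodd p hp.out hpS hpW w hw h hα hsq hev) _ (hVO ℚ_[p])
        have eB := h2 F p (Fin (2 * g + 1)) O B hOs hBs hOd' hBd' (fun w hw => by
          rw [hB]
          exact hodd p hp.out hpS hpW w hw (h * k) hακ hsqhk hevhk) _ (hVO ℚ_[p])
        have e1 := HV_uniq h1 ℚ_[p] (hsym p) (Tf A) hTAs hT1 (hVA ℚ_[p]) eA
        have e2 := HV_uniq h1 ℚ_[p] (hsym p) (Tf B) hTBs hT2 (hVB ℚ_[p]) eB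
        rw [e1, e2])
    (fun q => εA q * εB q)
    (by
      intro q hq
      exact pm_mul (hεA' q) (hεB' q))
    (by
      intro q hq hqp
      have hqW : ¬ q ∣ W := fun hd => absurd (Nat.le_of_dvd hWpos hd) (not_le.2 (hS q hq).2.1)
      have hevq : ∀ x : F[X], (∀ 𝔓 : HeightOneSpectrum (𝓞 L), (W : 𝓞 L) ∉ 𝔓.asIdeal →
          (∀ q ∈ S, 𝔓 ≠ 𝔔 q) → Ev 𝔓 (aeval θ x)) → ∀ 𝔓 : HeightOneSpectrum (𝓞 L),
          (q : 𝓞 L) ∈ 𝔓.asIdeal → 𝔓 ≠ 𝔔 q → Ev 𝔓 (aeval θ x) := by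
        intro x hx 𝔓 hov hne
        refine hx 𝔓 (hnW q (hSp q hq) hqW L 𝔓 hov) fun q' hq' he => ?_
        have h7 := hQm q' hq'
        rw [← he] at h7
        have h8 := pr_eq (hSp q hq) (hSp q' hq') hov h7
        subst h8
        exact hne he
      have e1 := h6 g W F L f θ S 𝔮 r P hg hG hsf hS q hq (hF q hq) (𝔔 q) (h𝔔 q hq).1
        (h𝔔 q hq).2 (h * k) hακ (hevq _ hevhk)
      have e2 := h6 g W F L f θ S 𝔮 r P hg hG hsf hS q hq (hF q hq) (𝔔 q) (h𝔔 q hq).1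
        (h𝔔 q hq).2 h hα (hevq _ hev)
      rw [← hB] at e1
      rw [← hA] at e2
      have e3 := HV_uniq h1 ℚ_[q] (hsym q) (Tf B) hTBs hT2 (hVB ℚ_[q]) e1
      have e4 := HV_uniq h1 ℚ_[q] (hsym q) (Tf A) hTAs hT1 (hVA ℚ_[q]) e2
      have e5 : hasse (hil ℚ_[q]) (List.ofFn fun i => (b i : ℚ_[q])) = εB q := e3
      have e6 : hasse (hil ℚ_[q]) (List.ofFn fun i => (a i : ℚ_[q])) = εA q := e4
      rw [e5, e6]
      rcases hεA' q with h7 | h7 <;> rw [h7] <;> ring)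
  unfold cnt
  refine (par (S := S) (fun q => ¬ Ev (𝔔 q) (aeval θ h) ∧ ¬ Sq1 (𝔔 q) (aeval θ h * ((q : L) * θ)))
    (fun q => ¬ Ev (𝔔 q) (aeval θ (h * k)) ∧ ¬ Sq1 (𝔔 q) (aeval θ (h * k) * ((q : L) * θ))) ?_).symm
  exact key

end Pool.Agent.H18N.REC2W
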