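import Pool.Agent.H59W.Base
import Pool.Agent.N783.PF.Rec2

/-!
# RECW: the reciprocity law (project JN)

By helper59, after `N783/PF/Rec2.lean`.
-/

set_option autoImplicit false
set_option linter.all false

open Polynomial IsDedekindDomain Matrix NumberField WithZero
open scoped Classical

namespace Pool.Agent.H18N.RECW

open Pool.Agent.N352.PJ (Mt Typ dd)
open Pool.Agent.N874.PP (Ev Sq1 U0)
open Pool.Agent.N202.M4 (hasse hil IsSymbol)
open Pool.Agent.N783.PQ (LocIm tp Gm sg)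
open Pool.Agent.N874.JM (LocF)
open Pool.Agent.N783.PF
open Pool.Agent.N783.PF.R2 (fF_deg fF_mon norm_eq Gm_det cop Tf_symm Tf_det HV_map HV_uniq pr_eq
  det_inst)
open Pool.Agent.H18G (cnt)
open Pool.Agent.N73.PF (ov_iff)

/-- **The reciprocity law.** -/
theorem t (h1 : S_HVG) (h2 : S_TRP) (h3 : S_TRR) (h4 : S_ISO1) (h5 : S_ISOW) (h6 : S_HQW) :
    S_RECW := by
  intro g W F L _ _ _ _ _ f θ S 𝔮 r P hg hG hsf hS hF 𝔔 h𝔔 h hih hl2 hlR
  obtain ⟨hα, hsq, hev'⟩ := hih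
  have hSp' : ∀ q ∈ S, q.Prime := fun q hq => (hS q hq).1
  have hWq : ∀ q ∈ S, ∀ 𝔓 : HeightOneSpectrum (𝓞 L), (q : 𝓞 L) ∈ 𝔓.asIdeal →
      (W : 𝓞 L) ∉ 𝔓.asIdeal := fun q hq 𝔓 h𝔓 =>
    Pool.Agent.H59W.W_notMem 𝔓.isPrime (hSp' q hq) hsf.pos (hS q hq).2.1 h𝔓
  have hα1 : aeval θ (1 : F[X]) ≠ 0 := by
    rw [map_one]
    exact one_ne_zero
  obtain ⟨A, hA⟩ : ∃ A : Mt g F, A = Gm g (fF f) 1 := ⟨_, rfl⟩
  obtain ⟨B, hB⟩ : ∃ B : Mt g F, B = Gm g (fF f) h := ⟨_, rfl⟩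
  have hAs : A.IsSymm := by rw [hA]; exact Pool.Agent.N835.PQ.Gm_symm g _ _
  have hBs : B.IsSymm := by rw [hB]; exact Pool.Agent.N835.PQ.Gm_symm g _ _
  have hAd : A.det ≠ 0 := by rw [hA]; exact Gm_det hG 1 hα1
  have hBd : B.det ≠ 0 := by rw [hB]; exact Gm_det hG h hα
  have hAd' : @Matrix.det (Fin (2 * g + 1)) (fun a b => Classical.propDecidable (a = b)) _ F _ A
      ≠ 0 := ne_of_eq_of_ne (det_inst _ _ _) hAd
  have hBd' : @Matrix.det (Fin (2 * g + 1)) (fun a b => Classical.propDecidable (a = b)) _ F _ B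
      ≠ 0 := ne_of_eq_of_ne (det_inst _ _ _) hBd
  have hTA : (Tf A).det ≠ 0 := ne_of_eq_of_ne (det_inst _ _ _) (Tf_det hAd')
  have hTB : (Tf B).det ≠ 0 := ne_of_eq_of_ne (det_inst _ _ _) (Tf_det hBd')
  have hTAs := Tf_symm hAs
  have hTBs := Tf_symm hBs
  -- diagonal forms
  obtain ⟨n, φ⟩ : ∃ n : ℕ, Nonempty (Fin n ≃ Fin (2 * g + 1) × Fin (Module.finrank ℚ F)) :=
    ⟨_, ⟨(Fintype.equivFin _).symm⟩⟩
  obtain ⟨φ⟩ := φ
  obtain ⟨a, T, ha, -, hT⟩ := Pool.Agent.N835.PQ.exists_diag ((Tf A).submatrix φ φ)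
    (by rw [Matrix.IsSymm, Matrix.transpose_submatrix, hTAs.eq])
    (by rw [Matrix.det_submatrix_equiv_self]; exact hTA)
  obtain ⟨b, R, hb, -, hR⟩ := Pool.Agent.N835.PQ.exists_diag ((Tf B).submatrix φ φ)
    (by rw [Matrix.IsSymm, Matrix.transpose_submatrix, hTBs.eq])
    (by rw [Matrix.det_submatrix_equiv_self]; exact hTB)
  have hsym := Pool.Agent.N446.M4.sym_
  have hVA : ∀ (E : Type) [Field E] [CharZero E], HV ((Tf A).map (Rat.castHom E))
      (hasse (hil E) (List.ofFn fun i => (a i : E))) := fun E _ _ => HV_map E _ φ ha hT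
  have hVB : ∀ (E : Type) [Field E] [CharZero E], HV ((Tf B).map (Rat.castHom E))
      (hasse (hil E) (List.ofFn fun i => (b i : E))) := fun E _ _ => HV_map E _ φ hb hR
  have hcop := cop hG hα
  have hnorm : IsSquare (Algebra.norm F (AdjoinRoot.mk (fF f) h)) := by
    rw [norm_eq hG]
    exact hsq
  obtain ⟨hisoW, hisoR⟩ := h4 F g f h hG.mon hG.deg hcop hnorm
  rw [← hA, ← hB] at hisoW hisoR
  have hSp : ∀ q ∈ S, q.Prime := fun q hq => (hS q hq).1
  have hQm : ∀ q ∈ S, (q : 𝓞 L) ∈ (𝔔 q).asIdeal := by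
    intro q hq
    have h7 := (h𝔔 q hq).1 (q : 𝓞 F) (hS q hq).2.2.2.2.2.2.1
    rwa [map_natCast] at h7
  set ε : ℕ → ℤ := fun q => if ¬ Ev (𝔔 q) (aeval θ h) ∧ ¬ Sq1 (𝔔 q) (aeval θ h * ((q : L) * θ))
    then -1 else 1 with hε
  have hT1 : @Matrix.det _ (fun a b => Classical.propDecidable (a = b)) _ ℚ _ (Tf A) ≠ 0 :=
    ne_of_eq_of_ne (det_inst _ _ _) hTA
  have hT2 : @Matrix.det _ (fun a b => Classical.propDecidable (a = b)) _ ℚ _ (Tf B) ≠ 0 :=
    ne_of_eq_of_ne (det_inst _ _ _) hTB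
  have key := Pool.Agent.N394.PQ.prd n b a hb ha S hSp
    (by
      have e1 := h3 F (Fin (2 * g + 1)) A B hAs hBs hAd' hBd' (fun σ => hisoR σ (hlR σ)) _ (hVA ℝ)
      exact HV_uniq h1 ℝ Pool.Agent.N835.PQ.symR (Tf B) hTBs hT2 (hVB ℝ) e1)
    (by
      intro p hp hpS
      have hapx : ∀ w : HeightOneSpectrum (𝓞 F), (p : 𝓞 F) ∈ w.asIdeal → Apx w A B := by
        intro w hw
        by_cases hp2 : (W : 𝓞 F) ∈ w.asIdeal
        · apply hisoW
          apply hl2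
          exact hp2
        · rw [hA, hB]
          refine h5 g W F L f θ hG hsf w hp2 h hα hsq ?_
          · intro 𝔓 hov
            have hW𝔓 : (W : 𝓞 L) ∉ 𝔓.asIdeal := by
              intro h7
              apply hp2
              rw [← ov_iff w.isMaximal hov, map_natCast]
              exact h7
            refine hev' 𝔓 hW𝔓 fun q hq he => ?_
            have h7 := hQm q hq
            rw [← he] at h7
            have h8 := hov (p : 𝓞 F) hw
            rw [map_natCast] at h8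
            have h9 := pr_eq hp.out (hSp q hq) h8 h7
            rw [h9] at hpS
            exact hpS hq
      have e1 := h2 F p (Fin (2 * g + 1)) A B hAs hBs hAd' hBd' hapx _ (hVA ℚ_[p])
      exact HV_uniq h1 ℚ_[p] (hsym p) (Tf B) hTBs hT2 (hVB ℚ_[p]) e1)
    ε
    (by
      intro q hq
      simp only [hε]
      split_ifs
      · exact Or.inr rfl
      · exact Or.inl rfl)
    (by
      intro q hq hqp
      have hevq : ∀ 𝔓 : HeightOneSpectrum (𝓞 L), (q : 𝓞 L) ∈ 𝔓.asIdeal → 𝔓 ≠ 𝔔 q →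
          Ev 𝔓 (aeval θ h) := by
        intro 𝔓 hov hne
        refine hev' 𝔓 (hWq q hq 𝔓 hov) fun q' hq' he => ?_
        have h7 := hQm q' hq'
        rw [← he] at h7
        have h8 := pr_eq (hSp q hq) (hSp q' hq') hov h7
        subst h8
        exact hne he
      have hev1 : ∀ 𝔓 : HeightOneSpectrum (𝓞 L), Ev 𝔓 (aeval θ (1 : F[X])) := by
        intro 𝔓
        refine ⟨1, ?_⟩
        rw [map_one, map_one, one_pow]
      have e1 := h6 g W F L f θ S 𝔮 r P hg hG hsf hS q hq (hF q hq) (𝔔 q) (h𝔔 q hq).1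
        (h𝔔 q hq).2 h hα hevq
      have e2 := h6 g W F L f θ S 𝔮 r P hg hG hsf hS q hq (hF q hq) (𝔔 q) (h𝔔 q hq).1
        (h𝔔 q hq).2 1 hα1 (fun 𝔓 _ _ => hev1 𝔓)
      rw [← hB] at e1
      rw [← hA, if_neg (fun hc => hc.1 (hev1 _))] at e2
      have e3 := HV_uniq h1 ℚ_[q] (hsym q) (Tf B) hTBs hT2 (hVB ℚ_[q]) e1
      have e4 := HV_uniq h1 ℚ_[q] (hsym q) (Tf A) hTAs hT1 (hVA ℚ_[q]) e2
      rw [e3, e4, mul_one])
  have hfil : (S.filter fun q => ε q = -1) = S.filter fun q => ¬ Ev (𝔔 q) (aeval θ h) ∧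
      ¬ Sq1 (𝔔 q) (aeval θ h * ((q : L) * θ)) := by
    refine Finset.filter_congr fun q _ => ?_
    simp only [hε]
    split_ifs with h7
    · simp [h7]
    · simp [h7]
  rw [hfil] at key
  unfold cnt
  exact key

end Pool.Agent.H18N.RECW
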