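import Pool.Agent.H18N.Stm
import Pool.Agent.H18G.REGG

/-!
# The regions of bounded height, for the residue classes without a condition at the small primes (S_REGW)
-/

set_option autoImplicit false
set_option linter.all false

open Polynomial NumberField NumberField.InfinitePlace
open Pool.Agent.N352.PJ (dd)
open Pool.Agent.N783.PF
open Pool.Agent.H18G (HtR)
open Pool.Agent.H18G.REGG
open scoped Classical

namespace Pool.Agent.H18N.REGW

theorem t : Pool.Agent.H18N.S_REGW := by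
  intro g F _ _ hg W c hW hc ε hε
  obtain ⟨κ, hκ, hsh⟩ := shell g F
  set d : ℕ := Module.finrank ℚ F with hd
  have hd0 : 0 < d := Module.finrank_pos
  set D : ℕ := d * dd g with hD
  refine ⟨ε / 4 ^ D, by positivity, fun m => ?_⟩
  have hW' : (0 : ℝ) < W := by exact_mod_cast hW
  set η' : ℝ := min 1 (ε * c * ((W : ℝ) ^ d) ^ (2 * g) / (κ * 2 ^ D)) with hη'
  have hη'0 : 0 < η' := lt_min one_pos (by positivity)
  have hη'1 : η' ≤ 1 := min_le_left _ _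
  have hη'2 : κ * η' * 2 ^ D ≤ ε * c * ((W : ℝ) ^ d) ^ (2 * g) := by
    have h1 : η' ≤ ε * c * ((W : ℝ) ^ d) ^ (2 * g) / (κ * 2 ^ D) := min_le_right _ _
    rw [le_div_iff₀ (by positivity)] at h1
    linarith
  have hbb := fun k hk => eta_bound hη'0 hη'1 (2 * g + 1) m k hk
  have hη0 : 0 < η' / (((2 * g + 1 : ℕ) : ℝ) * m + 1) := by positivity
  refine ⟨η' / (((2 * g + 1 : ℕ) : ℝ) * m + 1), hη0, ?_⟩
  set η : ℝ := η' / (((2 * g + 1 : ℕ) : ℝ) * m + 1) with hη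
  intro T f₁ P Pr hT hB
  obtain ⟨B₀, hB₀⟩ := hB
  set Tn : ℕ := ∏ q ∈ T, q with hTn
  have hTn0 : 0 < Tn := Finset.prod_pos fun q hq => (hT q hq).1.pos
  have hTn' : (0 : ℝ) < Tn := by exact_mod_cast hTn0
  have hPn : (((∏ q ∈ T, q ^ (2 * g)) ^ d : ℕ) : ℝ) = ((Tn : ℝ) ^ d) ^ (2 * g) := by
    rw [Finset.prod_pow, ← hTn, ← pow_mul, ← pow_mul, mul_comm d, Nat.cast_pow]
  simp only [hPn] at hB₀
  set Pn : ℝ := ((Tn : ℝ) ^ d) ^ (2 * g) with hPndef
  have hPn0 : 0 < Pn := by positivity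
  have hNd : (((W * Tn : ℕ) : ℝ) ^ d) ^ (2 * g) = ((W : ℝ) ^ d) ^ (2 * g) * Pn := by
    rw [Nat.cast_mul, mul_pow, mul_pow]
  obtain ⟨Y₁, hY₁⟩ := hsh (W * Tn) η' (Nat.mul_pos hW hTn0) hη'0 hη'1
  refine ⟨c / (2 ^ D * Pn * κ), max Y₁ (B₀ + 1), by positivity, fun Y => ⟨htr_fin g F Y, ?_⟩⟩
  intro hY
  have hYB : (B₀ : ℝ) + 1 ≤ Y := (le_max_right _ _).trans hY
  have hY1 : 1 ≤ Y := by
    have : (0 : ℝ) ≤ B₀ := Nat.cast_nonneg _
    linarith
  have hY0 : 0 < Y := zero_lt_one.trans_le hY1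
  obtain ⟨-, hup, -⟩ := hY₁ Y ((le_max_left _ _).trans hY) (fun _ => 0)
  -- the sizes
  set B : ℕ := ⌊Y⌋₊ with hBdef
  have hBle : (B : ℝ) ≤ Y := Nat.floor_le hY0.le
  have hBge : Y ≤ 2 * (B : ℝ) := by
    have h1 : Y < B + 1 := Nat.lt_floor_add_one _
    have h2 : (1 : ℝ) ≤ B := by
      have : 1 ≤ B := Nat.le_floor (by push_cast; linarith)
      exact_mod_cast this
    linarith
  have hBB : B₀ ≤ B := Nat.le_floor (by linarith)
  set B' : ℕ := ⌈Y⌉₊ with hB'def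
  have hB'ge : Y ≤ (B' : ℝ) := Nat.le_ceil _
  have hB'le : (B' : ℝ) ≤ 2 * Y := by
    have : (B' : ℝ) < Y + 1 := Nat.ceil_lt_add_one hY0.le
    linarith
  have hBB' : B₀ ≤ B' := by
    have : (B₀ : ℝ) ≤ B' := by linarith
    exact_mod_cast this
  have hfin := htr_fin g F Y
  have hlow : c * (Y ^ D) / (2 ^ D * Pn) ≤
      ({f : (𝓞 F)[X] | HtR g Y f ∧ BaseW g W f₁ T P f}.ncard : ℝ) := by
    have h1 := (hB₀ B hBB).1
    have h2 : ({f : (𝓞 F)[X] | Ht g B f ∧ BaseW g W f₁ T P f}.ncard : ℝ) ≤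
        ({f : (𝓞 F)[X] | HtR g Y f ∧ BaseW g W f₁ T P f}.ncard : ℝ) := by
      have : {f : (𝓞 F)[X] | Ht g B f ∧ BaseW g W f₁ T P f} ⊆
          {f : (𝓞 F)[X] | HtR g Y f ∧ BaseW g W f₁ T P f} := fun f hf =>
        ⟨htr_mono (Nat.cast_nonneg B) hBle ⟨hf.1.mon, hf.1.deg, hf.1.tr, hf.1.ht⟩, hf.2⟩
      exact_mod_cast Set.ncard_le_ncard this (hfin.subset fun f hf => hf.1)
    refine le_trans ?_ h2
    rw [div_le_iff₀ (by positivity)]
    have h3 : Y ^ D ≤ 2 ^ D * (B : ℝ) ^ D := by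
      rw [← mul_pow]
      exact pow_le_pow_left₀ hY0.le hBge _
    calc c * Y ^ D ≤ c * (2 ^ D * (B : ℝ) ^ D) := mul_le_mul_of_nonneg_left h3 hc.le
      _ = 2 ^ D * (c * (B : ℝ) ^ D) := by ring
      _ ≤ 2 ^ D * (Pn * ({f : (𝓞 F)[X] | Ht g B f ∧ BaseW g W f₁ T P f}.ncard : ℝ)) :=
          mul_le_mul_of_nonneg_left h1 (by positivity)
      _ = _ := by ring
  have hpos : 0 < c * (Y ^ D) / (2 ^ D * Pn) := by positivity
  refine ⟨?_, ?_, ?_, ?_⟩
  · exact_mod_cast hpos.trans_le hlow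
  · refine le_trans ?_ hlow
    calc c / (2 ^ D * Pn * κ) * ({f : (𝓞 F)[X] | HtR g Y f}.ncard : ℝ) ≤
        c / (2 ^ D * Pn * κ) * (κ * Y ^ D) := mul_le_mul_of_nonneg_left hup (by positivity)
      _ = c * Y ^ D / (2 ^ D * Pn) := by field_simp
  · -- the shell
    rcases Set.eq_empty_or_nonempty {f : (𝓞 F)[X] | HtR g Y f ∧ BaseW g W f₁ T P f ∧
        ¬ HtR g (Y / (1 + η) ^ m) f} with he | ⟨f₀, hf₀⟩
    · rw [he, Set.ncard_empty]
      push_cast
      positivity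
    have hshell := (hY₁ Y ((le_max_left _ _).trans hY) (fun j => f₀.coeff j)).2.2
    have hsub : {f : (𝓞 F)[X] | HtR g Y f ∧ BaseW g W f₁ T P f ∧
        ¬ HtR g (Y / (1 + η) ^ m) f} ⊆ {f : (𝓞 F)[X] | HtR g Y f ∧
        (∀ j < 2 * g, f.coeff j - f₀.coeff j ∈ sp F (W * Tn)) ∧ ∃ j < 2 * g,
        ∃ v : InfinitePlace F, (1 - η') * Y ^ (2 * g + 1 - j) < v (f.coeff j : F)} := by
      rintro f ⟨h1, h2, h3⟩
      refine ⟨h1, fun j _ => cls hT ?_ fun q hq => ?_, ?_⟩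
      · have e : f.coeff j - f₀.coeff j = (f.coeff j - f₁.coeff j) - (f₀.coeff j - f₁.coeff j) := by
          ring
        rw [e]
        exact Ideal.sub_mem _ (h2.one j) (hf₀.2.1.one j)
      · have e : f.coeff j - f₀.coeff j =
            (f.coeff j - (P q).coeff j) - (f₀.coeff j - (P q).coeff j) := by
          ring
        rw [e]
        exact Ideal.sub_mem _ (h2.con q hq j) (hf₀.2.1.con q hq j)
      · by_contra hcon
        push Not at hcon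
        refine h3 ⟨h1.mon, h1.deg, h1.tr, fun j hj => (bd_iff' _ _).2 fun v => ?_⟩
        have ht : 0 < (1 + η) ^ m := by positivity
        rcases hj.lt_or_eq with hj | hj
        · have h4 := hcon j hj v
          rw [div_pow, le_div_iff₀ (by positivity)]
          calc v (f.coeff j : F) * ((1 + η) ^ m) ^ (2 * g + 1 - j) ≤
              ((1 - η') * Y ^ (2 * g + 1 - j)) * ((1 + η) ^ m) ^ (2 * g + 1 - j) :=
                mul_le_mul_of_nonneg_right h4 (by positivity)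
            _ = ((1 - η') * ((1 + η) ^ m) ^ (2 * g + 1 - j)) * Y ^ (2 * g + 1 - j) := by ring
            _ ≤ 1 * Y ^ (2 * g + 1 - j) :=
                mul_le_mul_of_nonneg_right (hbb _ (Nat.sub_le _ _)) (by positivity)
            _ = _ := one_mul _
        · rw [hj, h1.tr]
          simp only [map_zero]
          positivity
    have h1 : (({f : (𝓞 F)[X] | HtR g Y f ∧ BaseW g W f₁ T P f ∧
        ¬ HtR g (Y / (1 + η) ^ m) f}.ncard : ℕ) : ℝ) ≤
        κ * η' * Y ^ D / (((W * Tn : ℕ) : ℝ) ^ d) ^ (2 * g) := by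
      refine le_trans ?_ hshell
      exact_mod_cast Set.ncard_le_ncard hsub (hfin.subset fun f hf => hf.1)
    refine h1.trans ?_
    rw [hNd]
    calc κ * η' * Y ^ D / (((W : ℝ) ^ d) ^ (2 * g) * Pn) =
          (κ * η' * 2 ^ D) * (Y ^ D / (((W : ℝ) ^ d) ^ (2 * g) * Pn * 2 ^ D)) := by
          field_simp
      _ ≤ (ε * c * ((W : ℝ) ^ d) ^ (2 * g)) * (Y ^ D / (((W : ℝ) ^ d) ^ (2 * g) * Pn * 2 ^ D)) :=
          mul_le_mul_of_nonneg_right hη'2 (by positivity)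
      _ = ε * (c * (Y ^ D) / (2 ^ D * Pn)) := by
          field_simp
      _ ≤ _ := mul_le_mul_of_nonneg_left hlow hε.le
  · -- the exceptions
    have h1 := (hB₀ B' hBB').2
    have h2 : (({f : (𝓞 F)[X] | HtR g Y f ∧ BaseW g W f₁ T P f ∧ ¬ Pr f}.ncard : ℕ) : ℝ) ≤
        ({f : (𝓞 F)[X] | Ht g B' f ∧ BaseW g W f₁ T P f ∧ ¬ Pr f}.ncard : ℝ) := by
      have hsub : {f : (𝓞 F)[X] | HtR g Y f ∧ BaseW g W f₁ T P f ∧ ¬ Pr f} ⊆
          {f : (𝓞 F)[X] | Ht g B' f ∧ BaseW g W f₁ T P f ∧ ¬ Pr f} := fun f hf => by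
        have h3 := htr_mono hY0.le hB'ge hf.1
        exact ⟨⟨h3.mon, h3.deg, h3.tr, h3.ht⟩, hf.2⟩
      exact_mod_cast Set.ncard_le_ncard hsub ((htr_fin g F B').subset fun f hf =>
        ⟨hf.1.mon, hf.1.deg, hf.1.tr, hf.1.ht⟩)
    refine h2.trans ?_
    have h3 : ({f : (𝓞 F)[X] | Ht g B' f ∧ BaseW g W f₁ T P f ∧ ¬ Pr f}.ncard : ℝ) ≤
        ε / 4 ^ D * (c * (B' : ℝ) ^ D) / Pn := by
      rw [le_div_iff₀ hPn0]
      linarith
    refine h3.trans (le_trans ?_ (mul_le_mul_of_nonneg_left hlow hε.le))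
    have h4 : (B' : ℝ) ^ D ≤ 2 ^ D * Y ^ D := by
      rw [← mul_pow]
      exact pow_le_pow_left₀ (Nat.cast_nonneg _) hB'le _
    have e4 : (4 : ℝ) ^ D = 2 ^ D * 2 ^ D := by
      rw [← mul_pow]
      norm_num
    calc ε / 4 ^ D * (c * (B' : ℝ) ^ D) / Pn ≤ ε / 4 ^ D * (c * (2 ^ D * Y ^ D)) / Pn := by
          refine div_le_div_of_nonneg_right ?_ hPn0.le
          exact mul_le_mul_of_nonneg_left (mul_le_mul_of_nonneg_left h4 hc.le) (by positivity)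
      _ = ε * (c * (Y ^ D) / (2 ^ D * Pn)) := by
          rw [e4]
          field_simp

end Pool.Agent.H18N.REGW
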