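import Pool.Agent.H18N.Stm
import Pool.Agent.N170.PF.Tw
import Pool.Agent.N438.PF.LB

/-!
# Project JN, stub RELS (helper94): from the relaxed Selmer groups to the Selmer groups of the twists

After the last part of `Pool/Agent/H18G/COREG.lean` of helper33.
-/

set_option autoImplicit false
set_option linter.all false

open Polynomial IsDedekindDomain Matrix NumberField WithZero
open scoped Classical

namespace Pool.Agent.H18N.RELS

open Pool.Agent.N874.PP (Ev Sq1 U0)
open Pool.Agent.N783.PQ (LocIm)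
open Pool.Agent.N874.JM (LocF)
open Pool.Agent.N783.PF
open Pool.Agent.H18G (SelLe SelE twf)

/-- The field `L` as a quotient ring (copied from `H68K/PR/Pre.lean`). -/
theorem ex_equiv {F L : Type} [Field F] [Field L] [Algebra F L] [FiniteDimensional F L] {F' : F[X]}
    (hirr : Irreducible F') (hm : F'.Monic) (hd : F'.natDegree = Module.finrank F L) {Θ : L}
    (hroot : aeval Θ F' = 0) : ∃ e : AdjoinRoot F' ≃ₐ[F] L,
      ∀ p : F[X], e (AdjoinRoot.mk F' p) = aeval Θ p := by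
  haveI hfact' : Fact (Irreducible F') := ⟨hirr⟩
  obtain ⟨φ, hφ⟩ : ∃ φ : AdjoinRoot F' →ₐ[F] L, φ = AdjoinRoot.liftAlgHom F' (Algebra.ofId F L) Θ hroot :=
    ⟨_, rfl⟩
  have hφmk : ∀ p : F[X], φ (AdjoinRoot.mk F' p) = aeval Θ p := by
    intro p
    have h1 := AdjoinRoot.liftAlgHom_mk F' (Algebra.ofId F L) Θ hroot p
    rw [Algebra.toRingHom_ofId, ← Polynomial.aeval_def] at h1
    rw [hφ]
    exact h1
  have hφinj : Function.Injective φ := φ.toRingHom.injective
  haveI : FiniteDimensional F (AdjoinRoot F') := hm.finite_adjoinRoot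
  have hrk : Module.finrank F (AdjoinRoot F') = Module.finrank F L := by
    rw [(AdjoinRoot.powerBasis hm.ne_zero).finrank, AdjoinRoot.powerBasis_dim, hd]
  have hφsurj : Function.Surjective φ :=
    (LinearMap.injective_iff_surjective_of_finrank_eq_finrank (f := φ.toLinearMap) hrk).1 hφinj
  exact ⟨AlgEquiv.ofBijective φ ⟨hφinj, hφsurj⟩, fun p => hφmk p⟩

/-- A finite set of representatives. -/
theorem reps {L : Type} [Field L] (R : L → Prop) (n : ℕ)
    (h : ∀ T : Finset L, (∀ x ∈ T, R x) → (∀ x ∈ T, ∀ y ∈ T, IsSquare (x * y) → x = y) →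
      T.card ≤ n) :
    ∃ T : Finset L, T.card ≤ n ∧ (∀ x ∈ T, R x) ∧ ∀ x, R x → ∃ t ∈ T, IsSquare (x * t) := by
  by_contra hcon
  push Not at hcon
  have key : ∀ k : ℕ, ∃ T : Finset L, (∀ x ∈ T, R x) ∧
      (∀ x ∈ T, ∀ y ∈ T, IsSquare (x * y) → x = y) ∧ T.card = k := by
    intro k
    induction k with
    | zero => exact ⟨∅, by simp, by simp, by simp⟩
    | succ k ih =>
      obtain ⟨T, hT1, hT2, hT3⟩ := ih
      obtain ⟨x, hx, hxT⟩ := hcon T (h T hT1 hT2) hT1
      have hxn : x ∉ T := fun hx' => hxT x hx' ⟨x, rfl⟩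
      refine ⟨insert x T, ?_, ?_, ?_⟩
      · intro y hy
        rcases Finset.mem_insert.1 hy with rfl | hy
        · exact hx
        · exact hT1 y hy
      · intro a ha b hb hab
        rcases Finset.mem_insert.1 ha with ha' | ha'
        · rcases Finset.mem_insert.1 hb with hb' | hb'
          · rw [ha', hb']
          · rw [ha'] at hab
            exact absurd hab (hxT b hb')
        · rcases Finset.mem_insert.1 hb with hb' | hb'
          · rw [mul_comm, hb'] at hab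
            exact absurd hab (hxT a ha')
          · exact hT2 a ha' b hb' hab
      · rw [Finset.card_insert_of_notMem hxn, hT3]
  obtain ⟨T, hT1, hT2, hT3⟩ := key (n + 1)
  have := h T hT1 hT2
  omega

/-- **RELS.** -/
theorem t (hLOC : S_LOCW) : S_RELS := by
  intro g W F _ _ f S J 𝔮 r P hg hsq hS hS1 hcon hJS n hrel
  obtain ⟨L, _, _, _, θ, hc, hT⟩ := hrel
  have hqp : ∀ q ∈ S, q.Prime := fun q hq => (hS q hq).1
  have hD0 : Dp J ≠ 0 := by
    rw [Dp, Finset.prod_ne_zero_iff]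
    exact fun q hq => (hqp q (hJS hq)).ne_zero
  have hLOC' := hLOC g W F L f θ S J 𝔮 r P hg hc hsq hS hS1 hcon hJS
  show SelLe n (f.scaleRoots ((Dp J : ℕ) : 𝓞 F))
  obtain ⟨D, hDD⟩ : ∃ D : ℕ, D = Dp J := ⟨_, rfl⟩
  rw [← hDD] at hD0 hLOC' ⊢
  have hD0F : (D : F) ≠ 0 := Nat.cast_ne_zero.2 hD0
  have hm : f.Monic := hc.mon
  have hirr : Irreducible (fF f) := Pool.Agent.N438.PF.irrF hc
  have hmD : (f.scaleRoots (D : 𝓞 F)).Monic := (monic_scaleRoots_iff (D : 𝓞 F)).2 hm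
  have hirrD : Irreducible (fF (f.scaleRoots (D : 𝓞 F))) := by
    rw [Pool.Agent.N170.PF.fF_scale hm]
    exact Pool.Agent.N170.PF.irr_scale hD0F hirr
  obtain ⟨Θ, hΘ⟩ : ∃ Θ : L, Θ = (D : L) * θ := ⟨_, rfl⟩
  have hcomp : ∀ h : F[X], aeval θ (h.comp (C (D : F) * X)) = aeval Θ h := by
    intro h
    rw [aeval_comp, map_mul, aeval_C, aeval_X, hΘ, map_natCast]
  have hroot : aeval Θ (fF (f.scaleRoots (D : 𝓞 F))) = 0 := by
    have e1 := scaleRoots_eval₂_mul (p := fF f) (algebraMap F L) θ (D : F)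
    have e2 : eval₂ (algebraMap F L) θ (fF f) = 0 := by
      rw [← aeval_def]
      exact hc.root
    rw [e2, mul_zero, map_natCast] at e1
    rw [Pool.Agent.N170.PF.fF_scale hm, aeval_def, hΘ]
    exact e1
  haveI : FiniteDimensional F L := Module.finite_of_finrank_pos (by rw [hc.rank]; omega)
  have hmF' : (fF (f.scaleRoots (D : 𝓞 F))).Monic := hmD.map _
  have hdF' : (fF (f.scaleRoots (D : 𝓞 F))).natDegree = Module.finrank F L := by
    rw [fF, hmD.natDegree_map, natDegree_scaleRoots, hc.deg, hc.rank]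
  obtain ⟨e, he⟩ := ex_equiv hirrD hmF' hdF' hroot
  have hdvd : ∀ p : F[X], fF (f.scaleRoots (D : 𝓞 F)) ∣ p ↔ aeval Θ p = 0 := by
    intro p
    rw [← AdjoinRoot.mk_eq_zero, ← he, map_eq_zero_iff _ e.injective]
  rw [← hΘ] at hLOC'
  have hsqf : ∀ p : F[X], IsSquare (aeval Θ p) →
      ∃ s : F[X], fF (f.scaleRoots (D : 𝓞 F)) ∣ p - s ^ 2 := by
    rintro p ⟨y, hy⟩
    obtain ⟨z, hz⟩ := e.surjective y
    obtain ⟨s, rfl⟩ := AdjoinRoot.mk_surjective z
    rw [he] at hz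
    refine ⟨s, ?_⟩
    rw [hdvd, map_sub, map_pow, sub_eq_zero, hz, hy, sq]
  have hnormeq : ∀ p : F[X], Algebra.norm F
      (AdjoinRoot.mk (fF (f.scaleRoots (D : 𝓞 F))) p) = Algebra.norm F (aeval Θ p) := by
    intro p
    rw [← he, Algebra.norm_eq_of_algEquiv]
  -- from the Selmer group to the relaxed Selmer group
  have hconv : ∀ h : F[X], SelE (f.scaleRoots (D : 𝓞 F)) h → InR W J 𝔮 f θ (aeval Θ h) := by
    rintro h ⟨hcop, hnorm, hfin, hreal⟩
    have hne : aeval Θ h ≠ 0 := by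
      intro h0
      obtain ⟨u, v, huv⟩ := hcop
      have := congrArg (aeval Θ) huv
      rw [map_add, map_mul, map_mul, hroot, h0, mul_zero, mul_zero, add_zero, map_one] at this
      exact zero_ne_one this
    rw [hnormeq] at hnorm
    obtain ⟨k1, k2, k3, k4⟩ := hLOC' h hne hnorm hfin hreal
    exact ⟨hne, hnorm, k1, k2, h.comp (C (D : F) * X), hcomp h, k3, k4⟩
  obtain ⟨T, hT1, hT2, hT3⟩ := reps (fun x => InR W J 𝔮 f θ x) n hT
  have hch : ∀ x : L, ∃ p : F[X], aeval Θ p = x := by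
    intro x
    obtain ⟨z, hz⟩ := e.surjective x
    obtain ⟨p, rfl⟩ := AdjoinRoot.mk_surjective z
    rw [he] at hz
    exact ⟨p, hz⟩
  choose pl hpl using hch
  let ε : T ≃ Fin T.card := T.equivFin
  refine ⟨fun i => if hi : (i : ℕ) < T.card then pl (ε.symm ⟨i, hi⟩) else 1, ?_, ?_⟩
  · intro i
    dsimp only
    split_ifs with hi
    · rw [isCoprime_comm, hirrD.coprime_iff_not_dvd, hdvd, hpl]
      exact (hT2 _ (ε.symm ⟨i, hi⟩).2).ne
    · exact isCoprime_one_left
  · intro h hh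
    obtain ⟨t, ht, hst⟩ := hT3 _ (hconv h hh)
    have hlt : ((ε ⟨t, ht⟩ : Fin T.card) : ℕ) < n := lt_of_lt_of_le (ε ⟨t, ht⟩).2 hT1
    refine ⟨⟨(ε ⟨t, ht⟩ : Fin T.card), hlt⟩, ?_⟩
    have h1 : ((ε ⟨t, ht⟩ : Fin T.card) : ℕ) < T.card := (ε ⟨t, ht⟩).2
    simp only [dif_pos h1, Fin.eta, Equiv.symm_apply_apply]
    apply hsqf
    rw [map_mul, hpl]
    exact hst

end Pool.Agent.H18N.RELS
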