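import Pool.Agent.H59W.Base

/-!
# The big prime over `𝔮 q` has square norm (project JN)

By helper59, after the file of project JG.
-/

set_option autoImplicit false
set_option linter.all false

open Polynomial IsDedekindDomain NumberField WithZero
open scoped Classical

namespace Pool.Agent.H18N.RNQW

open Pool.Agent.H68K.PR
open Pool.Agent.N73.PF
open Pool.Agent.N783.PF
open Pool.Agent.H59W

/-- **RNQW.** -/
theorem t (hI : S_INTW) : S_RNQW := by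
  intro g W F L _ _ _ _ _ f θ S 𝔮 r P hg1 hG hsq hS q hqS hcg 𝔓 hov hv
  obtain ⟨hq, hWq, -, h8, -, hprime, hmem𝔮, hm, hdeg, hirr, -, -, -, hcg2, -⟩ := hS q hqS
  have hcg : Cg (𝔮 q) f (X * r q) := by
    intro j
    have h1 := hcg j
    have h2 := hcg2 j
    have h3 : sp F q ≤ 𝔮 q := by
      rw [sp, Ideal.span_singleton_le_iff_mem]
      exact hmem𝔮
    have h4 := (𝔮 q).add_mem (h3 h1) h2
    have h5 : f.coeff j - (P q).coeff j + ((P q).coeff j - (X * r q).coeff j) =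
      f.coeff j - (X * r q).coeff j := by ring
    rwa [h5] at h4
  obtain ⟨𝔭, h𝔭⟩ : ∃ 𝔭 : Ideal (𝓞 F), 𝔭 = 𝔮 q := ⟨_, rfl⟩
  rw [← h𝔭] at hprime hmem𝔮 hirr hcg hov
  have hq0 : (q : 𝓞 F) ≠ 0 := by exact_mod_cast hq.ne_zero
  have hne : 𝔭 ≠ ⊥ := fun h0 => hq0 (by rwa [h0, Ideal.mem_bot] at hmem𝔮)
  have hmax : 𝔭.IsMaximal := hprime.isMaximal hne
  have hW := W_notMem hprime hq hsq.pos hWq hmem𝔮
  obtain ⟨hbd, hbX⟩ := hbar hmax hg1 hm hdeg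
  obtain ⟨t, ht⟩ := theta_ex hG
  have hfb : rd 𝔭 f = X * rd 𝔭 (r q) := by
    rw [map_eq_of_cg hcg, rd, Polynomial.map_mul, Polynomial.map_X]
  obtain ⟨ψ, hψ⟩ := ex_psiW hI hG hsq ht hmax hW (rd 𝔭 (r q))
    (by rw [hfb]; exact ⟨X, X_mul⟩)
  have htn : t ∉ 𝔓.asIdeal := by
    rw [← ht] at hv
    exact 𝔓.valuation_eq_one_iff_notMem.mp hv
  have hker : 𝔓.asIdeal = RingHom.ker ψ :=
    eq_kerW hI hG hsq ht hmax hW hirr hψ hov ((mem_or hG ht hcg hov).resolve_left htn)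
  obtain ⟨c1, c4⟩ := card_adj hmax hne hirr
  have hcard : Nat.card (𝓞 L ⧸ 𝔓.asIdeal) = Nat.card (𝓞 F ⧸ 𝔭) ^ (2 * g) := by
    rw [hker, Nat.card_congr (RingHom.quotientKerEquivOfSurjective (psi_surj hψ)).toEquiv, c1, hbd]
  have hlies : 𝔓.asIdeal.LiesOver 𝔭 := by
    constructor
    ext c
    rw [Ideal.mem_comap]
    exact (ov_iff hmax hov c).symm
  obtain ⟨s, hs⟩ := Ideal.exists_relNorm_eq_pow_of_isPrime 𝔓.asIdeal 𝔭
  have hN : Ideal.absNorm (Ideal.relNorm (𝓞 F) 𝔓.asIdeal) = Ideal.absNorm 𝔓.asIdeal :=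
    Ideal.absNorm_relNorm (𝓞 F) (𝓞 L) 𝔓.asIdeal
  rw [hs, map_pow] at hN
  have e1 : Ideal.absNorm 𝔓.asIdeal = Nat.card (𝓞 L ⧸ 𝔓.asIdeal) := by
    rw [Ideal.absNorm_apply, Submodule.cardQuot_apply]
  have e2 : Ideal.absNorm 𝔭 = Nat.card (𝓞 F ⧸ 𝔭) := by
    rw [Ideal.absNorm_apply, Submodule.cardQuot_apply]
  rw [e1, hcard, ← e2] at hN
  have h1 : 1 < Ideal.absNorm 𝔭 := by
    have h2 : Ideal.absNorm 𝔭 ≠ 0 := by
      rw [Ne, Ideal.absNorm_eq_zero_iff]; exact hne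
    have h3 : Ideal.absNorm 𝔭 ≠ 1 := by
      rw [Ne, Ideal.absNorm_eq_one_iff]; exact hmax.ne_top
    omega
  have h2 : s = 2 * g := Nat.pow_right_injective h1 hN
  exact ⟨𝔭 ^ g, by rw [hs, h2, ← pow_mul, mul_comm]⟩

end Pool.Agent.H18N.RNQW
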