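import Pool.Agent.H18N.Stm
import Pool.Agent.N667.PF.Sqf
import Pool.Agent.N170.PF.Tw

/-!
# Project JN, stub SQFW: good polynomials have a discriminant without square factors outside `W`

Adaptation of `N667/PF/Sqf.lean`.
-/

set_option autoImplicit false
set_option linter.all false

open Polynomial IsDedekindDomain Matrix NumberField
open scoped Classical

namespace Pool.Agent.H18N.SQFW

open Pool.Agent.N783.PF
open Pool.Agent.N667.PF (rd_eq_of_cg cg_mono sp_le two_mem sep_irr sep_mul top_pow)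
open Pool.Agent.N170.PF (LBad.mono)

theorem t (h1 : S_NBR) (h2 : S_LB) (h3 : S_DSC) (h4 : S_GEN) : Pool.Agent.H18N.S_SQFW := by
  intro g F _ _ hg
  obtain ⟨κ, hκ⟩ := h2 g F hg
  refine ⟨max κ 2, ?_⟩
  intro B N W f₁ S 𝔮 h P f hκW hW0 hGS hF hirr hBN hB hnb 𝔭 hp h0 hWp hdsc
  have hmax : 𝔭.IsMaximal := hp.isMaximal h0
  have hdsc1 : dsc g f ∈ 𝔭 := Ideal.pow_le_self two_ne_zero hdsc
  have h2W : 2 ∣ W := (Nat.dvd_factorial (by norm_num) (le_max_right κ 2)).trans hκW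
  have hκ' : κ ≤ W := (le_max_left κ 2).trans ((Nat.self_le_factorial _).trans (Nat.le_of_dvd hW0 hκW))
  have h2p : (2 : 𝓞 F) ∉ 𝔭 := fun h2p => hWp (two_mem h2W h2p)
  have hqp : ∀ q ∈ S, (q : 𝓞 F) ∉ 𝔭 := by
    intro q hq hqp
    obtain ⟨-, -, -, -, -, hqP, hqm, hmon, hdeg, hi, -, -, -, hcg, hoth⟩ := hGS q hq
    refine h3 F g 𝔭 f (P q) hg hp h0 hF.ht.mon hF.ht.deg (cg_mono (sp_le hqp) (hF.con q hq)) ?_ hdsc1
    by_cases he : 𝔭 = 𝔮 q
    · subst he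
      rw [rd_eq_of_cg hcg]
      exact sep_mul hp h0 hg hmon hdeg hi
    · exact sep_irr hp h0 (hoth 𝔭 hp hqp he)
  obtain ⟨hBP, hweak⟩ := hF.wk 𝔭 hp h0 hWp hdsc
  obtain ⟨L, _, _, _, θ, hG⟩ := h4 F g f hF.ht.mon hF.ht.deg hirr
  obtain ⟨Λ, hLat, hin, hI⟩ := h1 g F L f θ 𝔭 hg hp h0 h2p hG hweak
  have hBN' : 2 ^ κ * B ≤ 4 ^ N :=
    (Nat.mul_le_mul_right B (Nat.pow_le_pow_right (by norm_num) (le_max_left κ 2))).trans hBN
  apply hnb
  refine LBad.mono (le_max_left κ 2) ?_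
  refine hκ L f θ B N W S 𝔮 h P hκ' hGS hG hF.ht hBN' hF.con 1 Λ one_ne_zero ?_ hLat ?_
    (Or.inr ⟨rfl, ?_⟩)
  · rw [map_one]
    exact IsSquare.one
  · intro q hq
    obtain ⟨-, -, -, -, -, hqP, hqm, -, -, -, -, -, -, -, -⟩ := hGS q hq
    obtain ⟨s, hs, hs'⟩ : ∃ s ∈ 𝔭, s ∉ 𝔮 q := by
      by_contra hcon
      push Not at hcon
      have hle : 𝔭 ≤ 𝔮 q := hcon
      have he : 𝔭 = 𝔮 q := hmax.eq_of_le hqP.ne_top hle
      exact hqp q hq (he ▸ hqm)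
    refine ⟨algebraMap F L (s : F), hin s hs, s, hs', fun m hm => ⟨0, (𝔮 q).zero_mem, ?_⟩⟩
    have e1 : θ ^ m * (algebraMap F L (s : F)) ^ 2 / 1 = ((s : F) ^ 2) • θ ^ m := by
      rw [Algebra.smul_def, map_pow, div_one, mul_comm]
    rw [e1, map_smul, top_pow hG hm, smul_eq_mul]
    split_ifs <;> simp
  · intro j hj
    by_cases hj0 : j = 0
    · exact Or.inl hj0
    · right
      have hj' : j ∈ 𝔭 := hI j hj
      have hd : Ideal.absNorm 𝔭 ∣ Ideal.absNorm (Ideal.span {j}) :=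
        Ideal.absNorm_dvd_absNorm_of_le ((Ideal.span_singleton_le_iff_mem _).2 hj')
      have hne : Ideal.absNorm (Ideal.span {j}) ≠ 0 := by
        rw [Ne, Ideal.absNorm_eq_zero_iff, Ideal.span_singleton_eq_bot]
        exact hj0
      have hle := Nat.le_of_dvd (Nat.pos_of_ne_zero hne) hd
      exact hBP.trans (Nat.pow_le_pow_left hle 2)

end Pool.Agent.H18N.SQFW
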