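import Mathlib

/-!
# Frobenius elements acting on the roots of a polynomial: algebraic lemmas
-/

set_option autoImplicit false
set_option linter.all false

open Polynomial
open scoped Pointwise

namespace Pool.Agent.H18N.StepA

/-- A finite set stable under the injective map `T`, with `ψ (T x) = ψ x ^ p`: the coefficients of
`∏ (X - ψ x)` are fixed by the Frobenius map. -/
theorem coeff_fixed {B k : Type} [DecidableEq B] [Field k] {p : ℕ} [Fact p.Prime] [CharP k p]
    {T : B → B} (hT : Function.Injective T) (O : Finset B) (hO : ∀ x ∈ O, T x ∈ O) (ψ : B → k)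
    (hψ : ∀ x, ψ (T x) = ψ x ^ p) (n : ℕ) :
    (∏ x ∈ O, (X - C (ψ x))).coeff n ^ p = (∏ x ∈ O, (X - C (ψ x))).coeff n := by
  have h1 : O.image T = O := by
    apply Finset.eq_of_subset_of_card_le
    · intro y hy
      obtain ⟨x, hx, rfl⟩ := Finset.mem_image.1 hy
      exact hO x hx
    · rw [Finset.card_image_of_injective _ hT]
  have h2 : (∏ x ∈ O, (X - C (ψ x))).map (frobenius k p) = ∏ x ∈ O, (X - C (ψ x)) := by
    rw [Polynomial.map_prod]
    conv_rhs => rw [← h1, Finset.prod_image (fun x _ y _ h => hT h)]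
    refine Finset.prod_congr rfl fun x _ => ?_
    rw [Polynomial.map_sub, map_X, map_C, hψ, frobenius_def]
  conv_rhs => rw [← h2]
  rw [coeff_map, frobenius_def]

/-- An irreducible polynomial with a common root divides. -/
theorem irr_dvd {K k : Type} [Field K] [Field k] (j : K →+* k) {P Q : K[X]} (hP : Irreducible P)
    {z : k} (h1 : (P.map j).eval z = 0) (h2 : (Q.map j).eval z = 0) : P ∣ Q := by
  by_contra hcon
  have h3 : IsCoprime P Q := (EuclideanDomain.dvd_or_coprime P Q hP).resolve_left hcon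
  obtain ⟨a, b, hab⟩ := h3
  have h4 := congrArg (fun S : K[X] => (S.map j).eval z) hab
  simp only [Polynomial.map_add, Polynomial.map_mul, eval_add, eval_mul, h1, h2, mul_zero,
    add_zero, Polynomial.map_one, eval_one] at h4
  exact zero_ne_one h4

/-- The main bound: an orbit of the Frobenius element on the roots has at least `deg f` elements. -/
theorem card_orbit {A B k : Type} [CommRing A] [CommRing B] [DecidableEq B] [Field k] {p : ℕ}
    [Fact p.Prime] [CharP k p] [Algebra A B] (ψ : B →+* k) {T : B → B}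
    (hT : Function.Injective T) (hψ : ∀ x, ψ (T x) = ψ x ^ p)
    (hfix : ∀ c : k, c ^ p = c → ∃ m : ℤ, (m : k) = c)
    {f : A[X]} (hf : f.Monic)
    (hI : (RingHom.ker (ψ.comp (algebraMap A B))).IsMaximal)
    (hirr : Irreducible (f.map (Ideal.Quotient.mk (RingHom.ker (ψ.comp (algebraMap A B))))))
    (O : Finset B) (hO : ∀ x ∈ O, T x ∈ O) {u : B} (hu : u ∈ O) (hfu : aeval u f = 0) :
    f.natDegree ≤ O.card := by
  set 𝔭 := RingHom.ker (ψ.comp (algebraMap A B)) with h𝔭
  letI : Field (A ⧸ 𝔭) := Ideal.Quotient.field 𝔭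
  let j : A ⧸ 𝔭 →+* k := Ideal.Quotient.lift 𝔭 (ψ.comp (algebraMap A B)) (fun a ha => ha)
  have hj : j.comp (Ideal.Quotient.mk 𝔭) = ψ.comp (algebraMap A B) := by
    ext a
    rfl
  -- the product
  have hlift : (∏ x ∈ O, (X - C (ψ x))) ∈ Polynomial.lifts j := by
    rw [Polynomial.lifts_iff_coeff_lifts]
    intro n
    obtain ⟨m, hm⟩ := hfix _ (coeff_fixed hT O hO ψ hψ n)
    refine ⟨(m : A ⧸ 𝔭), ?_⟩
    rw [map_intCast, hm]
  obtain ⟨Q, hQ, hQd, hQm⟩ := Polynomial.lifts_and_natDegree_eq_and_monic hlift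
    (monic_prod_of_monic _ _ fun x _ => monic_X_sub_C (ψ x))
  have hd : f.map (Ideal.Quotient.mk 𝔭) ∣ Q := by
    refine irr_dvd j hirr (z := ψ u) ?_ ?_
    · rw [Polynomial.map_map, hj, ← Polynomial.map_map, eval_map, Polynomial.eval₂_hom,
        eval_map, ← aeval_def, hfu, map_zero]
    · rw [hQ, eval_prod]
      refine Finset.prod_eq_zero hu ?_
      simp
  have h1 := Polynomial.natDegree_le_of_dvd hd hQm.ne_zero
  have h2 : (∏ x ∈ O, (X - C (ψ x))).natDegree = O.card := by
    rw [natDegree_prod_of_monic _ _ fun x _ => monic_X_sub_C (ψ x)]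
    simp
  have h3 : (f.map (Ideal.Quotient.mk 𝔭)).natDegree = f.natDegree := by
    haveI : Nontrivial (A ⧸ 𝔭) := inferInstance
    exact hf.natDegree_map _
  rw [h3, hQd, h2] at h1
  exact h1

/-- Transitivity for the square. -/
theorem sq_trans {G X : Type} [Group G] [Finite G] [MulAction G X] {T : G} {u : X} {g : ℕ}
    (hc : Nat.card (MulAction.orbit (Subgroup.zpowers T) u) = 2 * g + 1) {v : X}
    (hv : v ∈ MulAction.orbit (Subgroup.zpowers T) u) : ∃ k : ℕ, (T * T) ^ k • u = v := by
  classical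
  have h1 : T ^ (2 * g + 1) • u = u := by
    rw [MulAction.pow_smul_eq_iff_minimalPeriod_dvd]
    haveI : Finite (MulAction.orbit (Subgroup.zpowers T) u) :=
      (Set.finite_range fun m : Subgroup.zpowers T => m • u).to_subtype
    letI : Fintype (MulAction.orbit (Subgroup.zpowers T) u) := Fintype.ofFinite _
    rw [MulAction.minimalPeriod_eq_card, ← Nat.card_eq_fintype_card, hc]
  obtain ⟨⟨s, hs⟩, hv⟩ := hv
  change s • u = v at hv
  have hs2 : s ∈ Submonoid.powers T := mem_powers_iff_mem_zpowers.2 hs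
  obtain ⟨k, rfl⟩ := hs2
  refine ⟨k * (g + 1), ?_⟩
  have h2 : ∀ m : ℕ, (T ^ (2 * g + 1)) ^ m • u = u := by
    intro m
    induction m with
    | zero => simp
    | succ m ih => rw [pow_succ, mul_smul, h1, ih]
  have e : (T * T) ^ (k * (g + 1)) = T ^ k * (T ^ (2 * g + 1)) ^ k := by
    rw [← pow_two, ← pow_mul, ← pow_mul, ← pow_add]
    congr 1
    ring
  rw [e, mul_smul, h2, hv]

/-- Irreducibility modulo the prime `l`. -/
theorem irr_of_trans {A B k : Type} [CommRing A] [CommRing B] [DecidableEq B] [Field k]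
    [IsAlgClosed k] {l : ℕ} [Fact l.Prime] [CharP k l] [Algebra A B] (ψ : B →+* k) {T : B → B}
    (hψ : ∀ x, ψ (T x) = ψ x ^ l) (hTA : ∀ a : A, T (algebraMap A B a) = algebraMap A B a)
    {f : A[X]} (hf : f.Monic) {R : Finset B} (hR : f.map (algebraMap A B) = ∏ x ∈ R, (X - C x))
    (hf0 : f.natDegree ≠ 0) (hinj : Set.InjOn ψ R) (htr : ∀ u ∈ R, ∀ v ∈ R, ∃ k : ℕ, T^[k] u = v)
    (I : Ideal A) (hI : I.IsMaximal) (hker : ∀ a : A, ψ (algebraMap A B a) = 0 ↔ a ∈ I) :
    Irreducible (f.map (Ideal.Quotient.mk I)) := by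
  classical
  letI : Field (A ⧸ I) := Ideal.Quotient.field I
  let j : A ⧸ I →+* k := Ideal.Quotient.lift I (ψ.comp (algebraMap A B)) (fun a ha => (hker a).2 ha)
  have hj : j.comp (Ideal.Quotient.mk I) = ψ.comp (algebraMap A B) := by
    ext a
    rfl
  have hjl : ∀ c : A ⧸ I, j c ^ l = j c := by
    intro c
    obtain ⟨a, rfl⟩ := Ideal.Quotient.mk_surjective c
    change ψ (algebraMap A B a) ^ l = ψ (algebraMap A B a)
    rw [← hψ, hTA]
  have hmon : (f.map (Ideal.Quotient.mk I)).Monic := hf.map _
  have hdeg : (f.map (Ideal.Quotient.mk I)).natDegree = f.natDegree := hf.natDegree_map _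
  have hprod : (f.map (Ideal.Quotient.mk I)).map j = ∏ x ∈ R, (X - C (ψ x)) := by
    rw [Polynomial.map_map, hj, ← Polynomial.map_map, hR, Polynomial.map_prod]
    refine Finset.prod_congr rfl fun x _ => ?_
    rw [Polynomial.map_sub, map_X, map_C]
  have hcard : R.card = f.natDegree := by
    have h1 := congrArg natDegree hprod
    rw [natDegree_map, hdeg, natDegree_prod_of_monic _ _ fun x _ => monic_X_sub_C (ψ x)] at h1
    simpa using h1.symm
  rw [hmon.irreducible_iff_natDegree]
  · constructor
    · intro h1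
      rw [h1, natDegree_one] at hdeg
      exact hf0 hdeg.symm
    intro a b ha hb hab
    by_cases ha0 : a.natDegree = 0
    · exact Or.inl ha0
    right
    -- a root of `a`
    obtain ⟨z, hz⟩ := IsAlgClosed.exists_root (a.map j) (by
      rw [degree_map]
      intro h
      exact ha0 (natDegree_eq_of_degree_eq_some h))
    have hz2 : (∏ x ∈ R, (X - C (ψ x))).eval z = 0 := by
      rw [← hprod, ← hab, Polynomial.map_mul, eval_mul, hz.eq_zero, zero_mul]
    rw [eval_prod, Finset.prod_eq_zero_iff] at hz2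
    obtain ⟨u, hu, hzu⟩ := hz2
    have hzu' : z = ψ u := by
      simpa [sub_eq_zero] using hzu
    have hstep : ∀ x : B, (a.map j).eval (ψ x) = 0 → (a.map j).eval (ψ (T x)) = 0 := by
      intro x hx
      have h1 : (a.map j).map (frobenius k l) = a.map j := by
        ext n
        rw [coeff_map, coeff_map, frobenius_def, hjl]
      rw [hψ, ← h1, ← frobenius_def (p := l), eval_map, Polynomial.eval₂_hom, hx, map_zero]
    have hall : ∀ v ∈ R, (a.map j).eval (ψ v) = 0 := by
      intro v hv
      obtain ⟨n, rfl⟩ := htr u hu v hv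
      clear hv
      induction n with
      | zero => rw [Function.iterate_zero, id, ← hzu']; exact hz
      | succ n ih => rw [Function.iterate_succ_apply']; exact hstep _ ih
    have h2 : (R.image ψ).card ≤ (a.map j).natDegree := by
      have hne : a.map j ≠ 0 := (ha.map j).ne_zero
      refine le_trans ?_ (Polynomial.card_roots' (a.map j))
      refine le_trans ?_ (Multiset.toFinset_card_le _)
      apply Finset.card_le_card
      intro y hy
      obtain ⟨v, hv, rfl⟩ := Finset.mem_image.1 hy
      rw [Multiset.mem_toFinset, mem_roots hne]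
      exact hall v hv
    rw [Finset.card_image_of_injOn hinj, hcard, natDegree_map] at h2
    have h3 := congrArg natDegree hab
    rw [ha.natDegree_mul hb, hdeg] at h3
    omega

end Pool.Agent.H18N.StepA
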