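import Pool.Agent.H14F.Frob
import Pool.Agent.H18N.StepA

/-!
# Frobenius elements at a prime which splits completely in `F`
-/

set_option autoImplicit false
set_option linter.all false

open Polynomial IsDedekindDomain NumberField
open scoped Classical Pointwise

namespace Pool.Agent.H18N.StepA

open Pool.Agent.W401.Cheb (HasFrob)
open Pool.Agent.H14F

section

variable {F : Type} [Field F] [NumberField F]

theorem primes_over {p : ℕ} (hp : p.Prime) (h : ∀ 𝔭 : Ideal (𝓞 F), 𝔭.IsPrime → (p : 𝓞 F) ∈ 𝔭 →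
      (p : 𝓞 F) ∉ 𝔭 ^ 2 ∧ Ideal.absNorm 𝔭 = p) :
    ∃ s : Finset (Ideal (𝓞 F)), s.card = Module.finrank ℚ F ∧
      ∀ 𝔭 ∈ s, 𝔭.IsPrime ∧ (p : 𝓞 F) ∈ 𝔭 := by
  set I : Ideal (𝓞 F) := Ideal.span {(p : 𝓞 F)} with hI
  have hI0 : I ≠ ⊥ := by
    rw [hI, Ne, Ideal.span_singleton_eq_bot, Nat.cast_eq_zero]
    exact hp.ne_zero
  set s := UniqueFactorizationMonoid.normalizedFactors I with hs
  have hprod : s.prod = I := by
    have := UniqueFactorizationMonoid.prod_normalizedFactors (a := I) hI0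
    rwa [associated_iff_eq] at this
  have hmem : ∀ 𝔭 ∈ s, 𝔭.IsPrime ∧ (p : 𝓞 F) ∈ 𝔭 := by
    intro 𝔭 h𝔭
    have h1 := UniqueFactorizationMonoid.prime_of_normalized_factor 𝔭 h𝔭
    refine ⟨Ideal.isPrime_of_prime h1, ?_⟩
    have h2 := UniqueFactorizationMonoid.dvd_of_mem_normalizedFactors h𝔭
    exact Ideal.le_of_dvd h2 (Ideal.mem_span_singleton_self _)
  have hnd : s.Nodup := by
    rw [Multiset.nodup_iff_count_le_one]
    intro 𝔭
    by_contra hc
    have h1 : Multiset.replicate 2 𝔭 ≤ s := Multiset.le_count_iff_replicate_le.1 (by omega)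
    have h2 : 𝔭 ^ 2 ∣ I := by
      rw [← hprod]
      have h3 := Multiset.prod_dvd_prod_of_le h1
      rwa [Multiset.prod_replicate] at h3
    have h𝔭 : 𝔭 ∈ s := Multiset.mem_of_le h1 (by simp)
    obtain ⟨h4, h5⟩ := hmem 𝔭 h𝔭
    exact (h 𝔭 h4 h5).1 (Ideal.le_of_dvd h2 (Ideal.mem_span_singleton_self _))
  have hcard : s.card = Module.finrank ℚ F := by
    have h1 : Ideal.absNorm I = p ^ Module.finrank ℤ (𝓞 F) := Ideal.absNorm_span_natCast p
    have h2 : Ideal.absNorm I = p ^ s.card := by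
      rw [← hprod, map_multiset_prod]
      have h3 : s.map Ideal.absNorm = Multiset.replicate s.card p := by
        rw [Multiset.eq_replicate]
        refine ⟨Multiset.card_map _ _, fun m hm => ?_⟩
        obtain ⟨𝔭, h𝔭, rfl⟩ := Multiset.mem_map.1 hm
        obtain ⟨h4, h5⟩ := hmem 𝔭 h𝔭
        exact (h 𝔭 h4 h5).2
      rw [h3, Multiset.prod_replicate]
    rw [RingOfIntegers.rank] at h1
    exact Nat.pow_right_injective hp.two_le (h2.symm.trans h1)
  refine ⟨s.toFinset, ?_, fun 𝔭 h𝔭 => hmem 𝔭 (Multiset.mem_toFinset.1 h𝔭)⟩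
  rw [Multiset.toFinset_card_of_nodup hnd, hcard]

variable {N : Type} [Field N] [NumberField N] [IsGalois ℚ N] [Algebra F N] {p : ℕ} [Fact p.Prime]

/-- The Frobenius element fixes the conjugates of `F`. -/
theorem frob_fix (h : ∀ 𝔭 : Ideal (𝓞 F), 𝔭.IsPrime → (p : 𝓞 F) ∈ 𝔭 →
      (p : 𝓞 F) ∉ 𝔭 ^ 2 ∧ Ideal.absNorm 𝔭 = p) {φ : 𝓞 N →+* AlgebraicClosure (ZMod p)}
    {g : Gal(N/ℚ)} (hg : HasFrob p φ g) (σ : Gal(N/ℚ)) (a : F) :
    g (σ (algebraMap F N a)) = σ (algebraMap F N a) := by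
  obtain ⟨s, hs, hs2⟩ := primes_over (F := F) (Fact.out : p.Prime) h
  let K : (F →ₐ[ℚ] N) → Ideal (𝓞 F) := fun ι =>
    RingHom.ker (φ.comp (RingOfIntegers.mapRingHom (ι : F →+* N)))
  have hK : ∀ (ι : F →ₐ[ℚ] N) (b : 𝓞 F), b ∈ K ι ↔
      φ (RingOfIntegers.mapRingHom (ι : F →+* N) b) = 0 := fun ι b => Iff.rfl
  haveI : Finite (F →ₐ[ℚ] N) := inferInstance
  letI : Fintype (F →ₐ[ℚ] N) := Fintype.ofFinite _
  have hsub : s ⊆ Finset.univ.image K := by
    intro 𝔭 h𝔭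
    obtain ⟨hpr, hp⟩ := hs2 𝔭 h𝔭
    have hne : 𝔭 ≠ ⊥ := by
      rintro rfl
      rw [Ideal.mem_bot, Nat.cast_eq_zero] at hp
      exact (Fact.out : p.Prime).ne_zero hp
    obtain ⟨P, hP⟩ := exists_above (Ω := N) (⟨𝔭, hpr, hne⟩ : HeightOneSpectrum (𝓞 F))
    have hPp : (p : 𝓞 N) ∈ P.asIdeal := by
      rw [← nat_mem_under (L := F), hP]
      exact hp
    obtain ⟨ψ, hψ⟩ := hom_above P hPp
    obtain ⟨τ, hτ⟩ := hom_trans φ ψ
    rw [Finset.mem_image]
    refine ⟨(τ.toAlgHom.comp ((algebraMap F N).toRatAlgHom)), Finset.mem_univ _, ?_⟩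
    ext b
    rw [hK]
    have e : RingOfIntegers.mapRingHom
        ((τ.toAlgHom.comp ((algebraMap F N).toRatAlgHom) : F →ₐ[ℚ] N) : F →+* N) b =
        τ • algebraMap (𝓞 F) (𝓞 N) b := by
      apply RingOfIntegers.ext
      rfl
    rw [e, ← hτ, hψ, ← mem_under, hP]
  have hinj : Function.Injective K := by
    have h1 := Finset.card_le_card hsub
    rw [hs] at h1
    have h2 := card_algHom_le_finrank ℚ F N
    rw [Nat.card_eq_fintype_card] at h2
    have h3 : (Finset.univ.image K).card = (Finset.univ : Finset (F →ₐ[ℚ] N)).card := by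
      refine le_antisymm Finset.card_image_le ?_
      rw [Finset.card_univ]
      exact h2.trans h1
    rw [Finset.card_image_iff] at h3
    rwa [Finset.coe_univ, Set.injOn_univ] at h3
  let ι : F →ₐ[ℚ] N := σ.toAlgHom.comp ((algebraMap F N).toRatAlgHom)
  have h4 : K (g.toAlgHom.comp ι) = K ι := by
    ext b
    rw [hK, hK]
    have e : RingOfIntegers.mapRingHom ((g.toAlgHom.comp ι : F →ₐ[ℚ] N) : F →+* N) b =
        g • RingOfIntegers.mapRingHom (ι : F →+* N) b := by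
      apply RingOfIntegers.ext
      rfl
    rw [e, hg, pow_eq_zero_iff (Fact.out : p.Prime).ne_zero]
  have h5 := congrArg (fun κ : F →ₐ[ℚ] N => κ a) (hinj h4)
  exact h5

end

end Pool.Agent.H18N.StepA
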