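import Pool.Agent.H14F.Lam3
import Pool.Agent.H18N.StepB

/-!
# The automorphism and its Frobenius primes
-/

set_option autoImplicit false
set_option linter.all false

open Polynomial IsDedekindDomain NumberField
open scoped Classical Pointwise

namespace Pool.Agent.H18N.StepA

open Pool.Agent.W401.Cheb (HasFrob)
open Pool.Agent.H14F

section

variable {F N : Type} [Field F] [NumberField F] [Field N] [NumberField N] [IsGalois ℚ N]
  [Algebra F N]

/-- the roots of `f` in the integers of `N` -/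
noncomputable abbrev Rt (N : Type) [Field N] [NumberField N] [Algebra F N] (f : (𝓞 F)[X]) :
    Finset (𝓞 N) := (f.map (algebraMap (𝓞 F) (𝓞 N))).roots.toFinset

theorem mem_Rt {f : (𝓞 F)[X]} (hf : f.Monic) {u : 𝓞 N} : u ∈ Rt N f ↔ aeval u f = 0 := by
  rw [Multiset.mem_toFinset, mem_roots (hf.map _).ne_zero, IsRoot.def, eval_map, ← aeval_def]

theorem card_Rt {f : (𝓞 F)[X]} (hf : f.Monic) : (Rt N f).card ≤ f.natDegree := by
  refine (Multiset.toFinset_card_le _).trans ?_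
  refine (Polynomial.card_roots' _).trans ?_
  rw [hf.natDegree_map]

theorem prod_Rt {f : (𝓞 F)[X]} (hf : f.Monic) (h : (Rt N f).card = f.natDegree) :
    f.map (algebraMap (𝓞 F) (𝓞 N)) = ∏ x ∈ Rt N f, (X - C x) := by
  have h1 : (f.map (algebraMap (𝓞 F) (𝓞 N))).roots.card = f.natDegree := by
    apply le_antisymm
    · refine (Polynomial.card_roots' _).trans ?_
      rw [hf.natDegree_map]
    · rw [← h]
      exact Multiset.toFinset_card_le _
  have h2 : (f.map (algebraMap (𝓞 F) (𝓞 N))).roots.Nodup := by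
    rw [← Multiset.toFinset_card_eq_card_iff_nodup, h1]
    exact h
  have h3 := prod_multiset_X_sub_C_of_monic_of_roots_card_eq (hf.map (algebraMap (𝓞 F) (𝓞 N)))
    (by rw [h1, hf.natDegree_map])
  conv_lhs => rw [← h3]
  rw [Finset.prod_eq_multiset_prod, Multiset.toFinset_val, h2.dedup]

theorem smul_Rt {f : (𝓞 F)[X]} (hf : f.Monic) {T : Gal(N/ℚ)}
    (hT : ∀ a : 𝓞 F, T • algebraMap (𝓞 F) (𝓞 N) a = algebraMap (𝓞 F) (𝓞 N) a) {u : 𝓞 N}
    (hu : u ∈ Rt N f) : T • u ∈ Rt N f := by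
  rw [mem_Rt hf] at hu ⊢
  have h1 := Polynomial.hom_eval₂ f (algebraMap (𝓞 F) (𝓞 N))
    (MulSemiringAction.toRingHom Gal(N/ℚ) (𝓞 N) T) u
  have h2 : (MulSemiringAction.toRingHom Gal(N/ℚ) (𝓞 N) T).comp (algebraMap (𝓞 F) (𝓞 N)) =
      algebraMap (𝓞 F) (𝓞 N) := by
    ext a
    exact congrArg (fun z : 𝓞 N => (z : N)) (hT a)
  rw [h2, ← aeval_def, hu, map_zero] at h1
  rw [aeval_def]
  exact h1.symm

theorem orbit_eq {p : ℕ} [Fact p.Prime] {f : (𝓞 F)[X]} (hf : f.Monic)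
    (hp : ∀ 𝔭 : Ideal (𝓞 F), 𝔭.IsPrime → (p : 𝓞 F) ∈ 𝔭 →
      Irreducible (f.map (Ideal.Quotient.mk 𝔭)))
    {ψ : 𝓞 N →+* AlgebraicClosure (ZMod p)} {T : Gal(N/ℚ)} (hψ : HasFrob p ψ T)
    (hT : ∀ a : 𝓞 F, T • algebraMap (𝓞 F) (𝓞 N) a = algebraMap (𝓞 F) (𝓞 N) a) {u : 𝓞 N}
    (hu : u ∈ Rt N f) : MulAction.orbit (Subgroup.zpowers T) u = ↑(Rt N f) ∧
      (Rt N f).card = f.natDegree := by
  have hfin : (MulAction.orbit (Subgroup.zpowers T) u).Finite :=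
    Set.finite_range fun m : Subgroup.zpowers T => m • u
  have hsub : hfin.toFinset ⊆ Rt N f := by
    intro x hx
    rw [Set.Finite.mem_toFinset] at hx
    obtain ⟨⟨s, hs⟩, hx⟩ := hx
    change s • u = x at hx
    have hs2 : s ∈ Submonoid.powers T := mem_powers_iff_mem_zpowers.2 hs
    obtain ⟨k, rfl⟩ := hs2
    rw [← hx]
    clear hx hs
    induction k with
    | zero => simpa using hu
    | succ k ih =>
      change T ^ (k + 1) • u ∈ _
      rw [pow_succ', mul_smul]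
      exact smul_Rt hf hT ih
  have hpk : (p : 𝓞 F) ∈ RingHom.ker (ψ.comp (algebraMap (𝓞 F) (𝓞 N))) := by
    rw [RingHom.mem_ker, map_natCast]
    exact CharP.cast_eq_zero _ p
  have hpr : (RingHom.ker (ψ.comp (algebraMap (𝓞 F) (𝓞 N)))).IsPrime := RingHom.ker_isPrime _
  have hne : RingHom.ker (ψ.comp (algebraMap (𝓞 F) (𝓞 N))) ≠ ⊥ := by
    intro h1
    rw [h1, Ideal.mem_bot, Nat.cast_eq_zero] at hpk
    exact (Fact.out : p.Prime).ne_zero hpk
  have h1 : f.natDegree ≤ hfin.toFinset.card := by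
    refine card_orbit (A := 𝓞 F) ψ (T := fun x => T • x) (MulAction.injective T) hψ ?_ hf
      (hpr.isMaximal hne) (hp _ hpr hpk) hfin.toFinset ?_ (u := u) ?_ ((mem_Rt hf).1 hu)
    · intro c hc
      obtain ⟨m, hm⟩ := _root_.W54.ChTor.frob_fixed p c hc
      obtain ⟨m, rfl⟩ := ZMod.intCast_surjective m
      exact ⟨m, by rw [← hm, map_intCast]⟩
    · intro x hx
      rw [Set.Finite.mem_toFinset] at hx ⊢
      obtain ⟨⟨s, hs⟩, rfl⟩ := hx
      refine ⟨⟨T * s, Subgroup.mul_mem _ (Subgroup.mem_zpowers T) hs⟩, ?_⟩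
      exact mul_smul T s u
    · rw [Set.Finite.mem_toFinset]
      exact MulAction.mem_orbit_self u
  have h2 := card_Rt (N := N) hf
  have h3 : hfin.toFinset = Rt N f := Finset.eq_of_subset_of_card_le hsub (h2.trans h1)
  refine ⟨?_, le_antisymm h2 (by rw [← h3]; exact h1)⟩
  rw [← h3, Set.Finite.coe_toFinset]

/-- `h` fixes the conjugates of `F` and acts transitively on the roots of the conjugates. -/
structure CycN (f : (𝓞 F)[X]) (h : Gal(N/ℚ)) : Prop where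
  fix : ∀ (σ : Gal(N/ℚ)) (a : F), h (σ (algebraMap F N a)) = σ (algebraMap F N a)
  tr : ∀ (σ : Gal(N/ℚ)), ∀ u ∈ Rt N f, ∀ v ∈ Rt N f, ∃ k : ℕ, (σ⁻¹ * h * σ) ^ k • u = v
  card : (Rt N f).card = f.natDegree

theorem conj_fix {h σ : Gal(N/ℚ)}
    (hf : ∀ a : F, h (σ (algebraMap F N a)) = σ (algebraMap F N a)) (a : 𝓞 F) :
    (σ⁻¹ * h * σ) • algebraMap (𝓞 F) (𝓞 N) a = algebraMap (𝓞 F) (𝓞 N) a := by
  rw [mul_smul, mul_smul, inv_smul_eq_iff]
  apply RingOfIntegers.ext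
  rw [smulc, smulc]
  exact hf (a : F)

theorem exists_cycN {p : ℕ} [Fact p.Prime] {f : (𝓞 F)[X]} (hf : f.Monic) {g₀ : ℕ}
    (hd : f.natDegree = 2 * g₀ + 1)
    (hp : ∀ 𝔭 : Ideal (𝓞 F), 𝔭.IsPrime → (p : 𝓞 F) ∈ 𝔭 →
      Irreducible (f.map (Ideal.Quotient.mk 𝔭)))
    (hfx : ∀ (φ : 𝓞 N →+* AlgebraicClosure (ZMod p)) (g : Gal(N/ℚ)), HasFrob p φ g →
      ∀ (σ : Gal(N/ℚ)) (a : F), g (σ (algebraMap F N a)) = σ (algebraMap F N a))
    (hne : (Rt N f).Nonempty) :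
    ∃ h : Gal(N/ℚ), CycN f h ∧ ∀ (r : N) (n : ℤ), r ^ 2 = (n : N) → h r = r := by
  obtain ⟨φ⟩ := exists_hom_p N p
  obtain ⟨g, hg⟩ := exists_frob φ
  have hfix := hfx φ g hg
  have key : ∀ (σ : Gal(N/ℚ)), ∀ u ∈ Rt N f,
      MulAction.orbit (Subgroup.zpowers (σ⁻¹ * g * σ)) u = ↑(Rt N f) ∧
      (Rt N f).card = f.natDegree := by
    intro σ u hu
    refine orbit_eq hf hp
      (ψ := φ.comp (MulSemiringAction.toRingHom Gal(N/ℚ) (𝓞 N) σ)) ?_ (conj_fix (hfix σ)) hu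
    intro x
    change φ (σ • ((σ⁻¹ * g * σ) • x)) = φ (σ • x) ^ p
    rw [mul_smul, mul_smul, smul_inv_smul, hg]
  obtain ⟨u₀, hu₀⟩ := hne
  refine ⟨g * g, ⟨?_, ?_, (key 1 u₀ hu₀).2⟩, ?_⟩
  · intro σ a
    rw [AlgEquiv.mul_apply, hfix, hfix]
  · intro σ u hu v hv
    obtain ⟨h1, h2⟩ := key σ u hu
    have h3 : Nat.card (MulAction.orbit (Subgroup.zpowers (σ⁻¹ * g * σ)) u) = 2 * g₀ + 1 := by
      rw [h1, ← hd, ← h2, Nat.card_coe_set_eq, Set.ncard_coe_finset]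
    obtain ⟨k, hk⟩ := sq_trans h3 (v := v) (by rw [h1]; exact hv)
    refine ⟨k, ?_⟩
    rw [← hk]
    congr 2
    group
  · intro r n hr
    have h1 : (g r - r) * (g r + r) = 0 := by
      have h2 : g r ^ 2 = r ^ 2 := by
        rw [← map_pow, hr, map_intCast]
      linear_combination h2
    rw [AlgEquiv.mul_apply]
    rcases mul_eq_zero.1 h1 with h | h
    · rw [sub_eq_zero.1 h, sub_eq_zero.1 h]
    · rw [eq_neg_of_add_eq_zero_left h, map_neg, eq_neg_of_add_eq_zero_left h, neg_neg]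

/-- the product of the differences of the roots -/
noncomputable def dsc (N : Type) [Field N] [NumberField N] [Algebra F N] (f : (𝓞 F)[X]) : 𝓞 N :=
  ∏ x ∈ Rt N f, ∏ y ∈ (Rt N f).erase x, (x - y)

theorem dsc_ne (f : (𝓞 F)[X]) : dsc N f ≠ 0 := by
  unfold dsc
  refine Finset.prod_ne_zero_iff.2 fun x _ => Finset.prod_ne_zero_iff.2 fun y hy => ?_
  rw [sub_ne_zero]
  exact (Finset.ne_of_mem_erase hy).symm

theorem irr_frob {f : (𝓞 F)[X]} (hf : f.Monic) (hd : f.natDegree ≠ 0) {h : Gal(N/ℚ)}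
    (hh : CycN f h) {l : ℕ} [Fact l.Prime]
    {φ : 𝓞 N →+* AlgebraicClosure (ZMod l)} (hφ : HasFrob l φ h)
    (hl : ¬ l ∣ (Algebra.norm ℤ (dsc N f)).natAbs) (v : HeightOneSpectrum (𝓞 F))
    (hv : (l : 𝓞 F) ∈ v.asIdeal) : Irreducible (f.map (Ideal.Quotient.mk v.asIdeal)) := by
  obtain ⟨Q, hQ⟩ := exists_above (Ω := N) v
  have hQl : (l : 𝓞 N) ∈ Q.asIdeal := by
    rw [← nat_mem_under (L := F), hQ]
    exact hv
  obtain ⟨ψ, hψ⟩ := hom_above Q hQl
  obtain ⟨σ, hσ⟩ := hom_trans φ ψ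
  refine irr_of_trans (B := 𝓞 N) (l := l) ψ (T := fun x => (σ⁻¹ * h * σ) • x) ?_
    (conj_fix (hh.fix σ)) hf (prod_Rt hf hh.card) hd ?_ ?_ v.asIdeal v.isMaximal ?_
  · intro x
    rw [hσ, hσ, mul_smul, mul_smul, smul_inv_smul, hφ]
  · intro x hx y hy hxy
    by_contra hne
    have h1 : ψ (dsc N f) = 0 := by
      have h2 : (x - y) ∣ dsc N f := by
        unfold dsc
        refine dvd_trans ?_ (Finset.dvd_prod_of_mem _ hx)
        exact Finset.dvd_prod_of_mem (fun y : 𝓞 N => x - y)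
          (Finset.mem_erase.2 ⟨fun h => hne h.symm, hy⟩)
      obtain ⟨w, hw⟩ := h2
      rw [hw, map_mul, map_sub, hxy, sub_self, zero_mul]
    have h2 := _root_.W54.ChTor.norm_mem (L := N) (dsc N f) ψ h1
    rw [CharP.cast_eq_zero_iff _ l] at h2
    exact hl h2
  · intro u hu w hw
    obtain ⟨k, hk⟩ := hh.tr σ u hu w hw
    refine ⟨k, ?_⟩
    rw [smul_iterate]
    exact hk
  · intro a
    rw [hψ, ← mem_under, hQ]

end

end Pool.Agent.H18N.StepA
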