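import Pool.Agent.H18N.StmA
import Pool.Agent.H18N.StepC

/-!
# STEPW: infinitely many primes `l` such that adjoining `√l` preserves admissibility
-/

set_option autoImplicit false
set_option linter.all false

open Polynomial IsDedekindDomain NumberField
open scoped Classical Pointwise IntermediateField

namespace Pool.Agent.H18N.STEPW

open Pool.Agent.N783.PF
open Pool.Agent.W401.Cheb (HasFrob)
open Pool.Agent.H14F (Tot Unr exists_gal_split splits_root inf_frob sq_of_frob mod_eight mem_under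
  nat_mem_under tot_quad tot_quad2 normal_quad deg_quad real_quad fix_of_inertia pm eq_one_of)
open Pool.Agent.H18N.StepA

section

variable {F : Type} [Field F] [NumberField F]

/-- The polynomial which has to split in the big field. -/
noncomputable def Pl (f : (𝓞 F)[X]) (T : Finset ℕ) : F[X] := (f.map (algebraMap (𝓞 F) F)) *
    ((X ^ 2 - C (-1)) * ((X ^ 2 - C 2) * ∏ q ∈ T, (X ^ 2 - C (q : F))))

/-- The primes. -/
def Ls (f : (𝓞 F)[X]) (T : Finset ℕ) : Set ℕ :=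
  {l : ℕ | l.Prime ∧ l % 8 = 1 ∧ (∀ v : HeightOneSpectrum (𝓞 F), (l : 𝓞 F) ∈ v.asIdeal →
      Irreducible (f.map (Ideal.Quotient.mk v.asIdeal))) ∧
      ∀ q ∈ T, ∃ m : ℤ, (q : ℤ) ∣ m ^ 2 - (l : ℤ)}

/-- Infinitely many primes. -/
theorem infinite_l {f : (𝓞 F)[X]} (hf : f.Monic) {g₀ : ℕ} (hd : f.natDegree = 2 * g₀ + 1)
    {p : ℕ} [Fact p.Prime]
    (hp : ∀ 𝔭 : Ideal (𝓞 F), 𝔭.IsPrime → (p : 𝓞 F) ∈ 𝔭 →
      Irreducible (f.map (Ideal.Quotient.mk 𝔭)))
    (T : Finset ℕ) (hT : ∀ q ∈ T, q.Prime ∧ q ≠ 2) {N : Type} [Field N] [NumberField N]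
    [IsGalois ℚ N] [Algebra F N]
    (hfx : ∀ (φ : 𝓞 N →+* AlgebraicClosure (ZMod p)) (g : Gal(N/ℚ)), HasFrob p φ g →
      ∀ (σ : Gal(N/ℚ)) (a : F), g (σ (algebraMap F N a)) = σ (algebraMap F N a))
    (hsp : ((Pl f T).map (algebraMap F N)).Splits) : (Ls f T).Infinite := by
  have m2 : ∀ c : F, (X ^ 2 - C c : F[X]).Monic := fun c => by monicity!
  have d2 : ∀ c : F, (X ^ 2 - C c : F[X]).degree = 2 := fun c => by compute_degree!
  have m3 : (f.map (algebraMap (𝓞 F) F)).Monic := hf.map _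
  have hP : Pl f T ≠ 0 := mul_ne_zero m3.ne_zero (mul_ne_zero (m2 _).ne_zero
    (mul_ne_zero (m2 _).ne_zero (Finset.prod_ne_zero_iff.2 fun q _ => (m2 _).ne_zero)))
  have sq : ∀ c : F, (X ^ 2 - C c : F[X]) ∣ Pl f T → ∃ r : N, r ^ 2 = algebraMap F N c := by
    intro c hc
    obtain ⟨r, hr⟩ := splits_root hP hsp hc (by rw [d2]; decide)
    refine ⟨r, ?_⟩
    rw [map_sub, map_pow, aeval_X, aeval_C] at hr
    exact sub_eq_zero.1 hr
  obtain ⟨i, hi⟩ := sq (-1) (dvd_mul_of_dvd_right (dvd_mul_right _ _) _)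
  obtain ⟨s, hs2⟩ := sq 2 (dvd_mul_of_dvd_right (dvd_mul_of_dvd_right (dvd_mul_right _ _) _) _)
  have hr : ∀ q ∈ T, ∃ r : N, r ^ 2 = ((q : ℤ) : N) := by
    intro q hq
    obtain ⟨r, hr⟩ := sq (q : F) (dvd_mul_of_dvd_right (dvd_mul_of_dvd_right
      (dvd_mul_of_dvd_right (Finset.dvd_prod_of_mem (fun q : ℕ => (X ^ 2 - C (q : F) : F[X])) hq)
        _) _) _)
    exact ⟨r, by rw [hr, map_natCast]; simp⟩
  -- a root
  have hne : (Rt N f).Nonempty := by
    obtain ⟨r, hr⟩ := splits_root hP hsp (dvd_mul_right (f.map (algebraMap (𝓞 F) F)) _) (by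
      intro h0
      have h1 : (f.map (algebraMap (𝓞 F) F)).natDegree = 0 :=
        natDegree_eq_zero_iff_degree_le_zero.2 h0.le
      rw [hf.natDegree_map, hd] at h1
      omega)
    rw [aeval_map_algebraMap] at hr
    have h1 : IsIntegral (𝓞 F) r := ⟨f, hf, hr⟩
    have h2 : IsIntegral ℤ r := isIntegral_trans (R := ℤ) (A := 𝓞 F) r h1
    obtain ⟨ρ, hρ⟩ : ∃ ρ : 𝓞 N, algebraMap (𝓞 N) N ρ = r := ⟨⟨r, h2⟩, rfl⟩
    refine ⟨ρ, (mem_Rt hf).2 ?_⟩
    apply FaithfulSMul.algebraMap_injective (𝓞 N) N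
    rw [map_zero, ← Polynomial.aeval_algebraMap_apply, hρ]
    exact hr
  obtain ⟨g, hg, hgr⟩ := exists_cycN (N := N) hf hd hp hfx hne
  rw [Set.infinite_iff_exists_gt]
  intro B₁
  obtain ⟨l, hl, hlB, ⟨φ, hφ⟩, -⟩ := inf_frob N g
    (max (max B₁ 2) (Algebra.norm ℤ (dsc N f)).natAbs)
  have h1 : max B₁ 2 < l := (le_max_left _ _).trans_lt hlB
  have h2 : B₁ < l := (le_max_left _ _).trans_lt h1
  have h3 : 2 < l := (le_max_right _ _).trans_lt h1
  have h4 : (Algebra.norm ℤ (dsc N f)).natAbs < l := (le_max_right _ _).trans_lt hlB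
  have hdv : ¬ l ∣ (Algebra.norm ℤ (dsc N f)).natAbs := by
    intro h5
    have h6 : 0 < (Algebra.norm ℤ (dsc N f)).natAbs := by
      rw [Int.natAbs_pos, ne_eq, Algebra.norm_eq_zero_iff]
      exact dsc_ne f
    exact absurd (Nat.le_of_dvd h6 h5) (not_le.2 h4)
  have hi' : i ^ 2 = ((-1 : ℤ) : N) := by
    rw [hi, map_neg, map_one]
    push_cast
    ring
  have hs2' : s ^ 2 = ((2 : ℤ) : N) := by
    rw [hs2, map_ofNat]
    push_cast
    ring
  have hl8 := mod_eight (by omega) (sq_of_frob hφ hs2' (hgr _ _ hs2'))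
    (sq_of_frob hφ hi' (hgr _ _ hi'))
  refine ⟨l, ⟨hl.out, hl8, fun v hv => irr_frob hf (by omega) hg hφ hdv v hv, ?_⟩, h2⟩
  intro q hq
  obtain ⟨r, hr⟩ := hr q hq
  have h5 := sq_of_frob hφ hr (hgr _ _ hr)
  have hl4 : l % 4 = 1 := by omega
  haveI : Fact q.Prime := ⟨(hT q hq).1⟩
  have h6 : IsSquare ((q : ℕ) : ZMod l) := by exact_mod_cast h5
  rw [ZMod.exists_sq_eq_prime_iff_of_mod_four_eq_one hl4 (hT q hq).2] at h6
  obtain ⟨n, hn⟩ := h6
  obtain ⟨n, rfl⟩ := ZMod.intCast_surjective n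
  refine ⟨n, (ZMod.intCast_zmod_eq_zero_iff_dvd _ q).1 ?_⟩
  push_cast
  rw [hn]
  ring

/-- Quadratic extensions of admissible fields. -/
theorem adm_quad {M M' : Type} [Field M] [NumberField M] [Field M']
    [NumberField M'] [Algebra F M] [Algebra M M'] [Algebra F M'] [IsScalarTower F M M']
    {D : ℕ} (hD : 0 < D) (hD2 : 2 ∣ D) {f : (𝓞 F)[X]} {l : ℕ} (hlp : l.Prime) (hl8 : l % 8 = 1)
    (hlD : ¬ l ∣ D)
    (hirr : ∀ v : HeightOneSpectrum (𝓞 F), (l : 𝓞 F) ∈ v.asIdeal →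
      Irreducible (f.map (Ideal.Quotient.mk v.asIdeal)))
    (hq : ∀ q : ℕ, q.Prime → q ≠ 2 → q ∣ D → ∃ m : ℤ, (q : ℤ) ∣ m ^ 2 - (l : ℤ))
    {x : M'} (hx : x ^ 2 = (l : M')) (htop : M⟮x⟯ = ⊤) (h : AdmW F M D f) : AdmW F M' D f := by
  haveI := h.galois
  obtain ⟨n, hn⟩ := h.deg
  have uu : ∀ w' : HeightOneSpectrum (𝓞 M'),
      (w'.under (𝓞 M)).under (𝓞 F) = w'.under (𝓞 F) := by
    intro w'
    ext a
    rw [mem_under, mem_under, mem_under]
    have e : algebraMap (𝓞 M) (𝓞 M') (algebraMap (𝓞 F) (𝓞 M) a) = algebraMap (𝓞 F) (𝓞 M') a := by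
      apply RingOfIntegers.ext
      show algebraMap M M' (algebraMap F M (a : F)) = algebraMap F M' (a : F)
      rw [← IsScalarTower.algebraMap_apply F M M']
    rw [e]
  -- a prime factor of `D`
  have hfac : ∀ w' : HeightOneSpectrum (𝓞 M'), (D : 𝓞 M') ∈ w'.asIdeal →
      ∃ q : ℕ, q.Prime ∧ q ∣ D ∧ (q : 𝓞 M') ∈ w'.asIdeal := by
    intro w'
    have key : ∀ n : ℕ, 0 < n → (n : 𝓞 M') ∈ w'.asIdeal →
        ∃ q : ℕ, q.Prime ∧ q ∣ n ∧ (q : 𝓞 M') ∈ w'.asIdeal := by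
      intro n
      induction n using Nat.strong_induction_on with
      | _ n ih =>
        intro hn0 hn
        have hn1 : n ≠ 1 := by
          rintro rfl
          rw [Nat.cast_one] at hn
          exact w'.isPrime.ne_top ((Ideal.eq_top_iff_one _).2 hn)
        obtain ⟨q, hq, m, hm⟩ := Nat.exists_prime_and_dvd hn1
        have hm0 : 0 < m := Nat.pos_of_ne_zero (by rintro rfl; omega)
        rw [hm, Nat.cast_mul] at hn
        rcases w'.isPrime.mem_or_mem hn with h1 | h1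
        · exact ⟨q, hq, ⟨m, hm⟩, h1⟩
        · have hlt : m < n := by
            rw [hm]
            exact lt_mul_of_one_lt_left hm0 hq.one_lt
          obtain ⟨q', a1, a2, a3⟩ := ih m hlt hm0 h1
          exact ⟨q', a1, a2.trans ⟨q, by rw [hm, mul_comm]⟩, a3⟩
    exact key D hD
  have hsplit : ∀ w' : HeightOneSpectrum (𝓞 M'), (D : 𝓞 M') ∈ w'.asIdeal → Tot F w' := by
    intro w' hw'
    have h3 : Tot F (w'.under (𝓞 M)) := by
      refine h.split _ ?_
      rw [nat_mem_under]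
      exact hw'
    by_cases h2 : (2 : 𝓞 M') ∈ w'.asIdeal
    · exact tot_quad2 hl8 hx htop h3 h2
    obtain ⟨q, hqp, hqD, hqw⟩ := hfac w' hw'
    have hq2 : q ≠ 2 := by
      rintro rfl
      exact h2 (by exact_mod_cast hqw)
    obtain ⟨m, c, hc⟩ := hq q hqp hq2 hqD
    refine tot_quad hx htop h3 h2 ?_ ⟨m, ?_⟩
    · intro h5
      have hne : l ≠ q := by
        rintro rfl
        exact hlD hqD
      obtain ⟨a, b, hab⟩ := Nat.isCoprime_iff_coprime.2 ((Nat.coprime_primes hlp hqp).2 hne)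
      apply w'.isPrime.ne_top
      rw [Ideal.eq_top_iff_one]
      have h3 : ((a : 𝓞 M') * (l : 𝓞 M') + (b : 𝓞 M') * (q : 𝓞 M')) = 1 := by
        exact_mod_cast congrArg (Int.cast : ℤ → 𝓞 M') hab
      rw [← h3]
      exact Ideal.add_mem _ (Ideal.mul_mem_left _ _ h5) (Ideal.mul_mem_left _ _ hqw)
    · have e : (m : 𝓞 M') ^ 2 - (l : 𝓞 M') = (q : 𝓞 M') * (c : 𝓞 M') := by
        exact_mod_cast congrArg (Int.cast : ℤ → 𝓞 M') hc
      rw [e]
      exact Ideal.mul_mem_right _ _ hqw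
  refine ⟨normal_quad hx htop, deg_quad hx htop hn, hsplit, ?_, ?_⟩
  · intro σ
    obtain ⟨ρ, rfl⟩ := h.real σ
    obtain ⟨ρ', hρ'⟩ := real_quad hx htop ρ
    refine ⟨ρ', ?_⟩
    rw [← hρ', RingHom.comp_assoc, ← IsScalarTower.algebraMap_eq F M M']
  · intro w' hw'
    by_cases hl : (l : 𝓞 M') ∈ w'.asIdeal
    · rw [← nat_mem_under (L := F)] at hl
      exact hirr _ hl
    have h2 : (2 : 𝓞 M') ∉ w'.asIdeal := by
      intro h2
      refine hw' (hsplit w' ?_).unr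
      obtain ⟨k, hk⟩ := hD2
      rw [hk]
      push_cast
      exact Ideal.mul_mem_right _ _ h2
    have h3 : ¬ Unr F (w'.under (𝓞 M)) := by
      intro h3
      apply hw'
      unfold Unr
      rw [eq_bot_iff]
      intro σ hσ
      rw [Subgroup.mem_bot]
      have hfix := fix_of_inertia h3 hσ
      rcases pm hx σ with h4 | h4
      · exact eq_one_of htop hfix h4
      · exfalso
        have hxi : IsIntegral ℤ x := by
          have h1 : IsIntegral ℤ (x ^ 2) := by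
            rw [hx]
            exact isIntegral_natCast _
          exact h1.of_pow (by norm_num)
        obtain ⟨ξ, hξ⟩ : ∃ ξ : 𝓞 M', (ξ : M') = x := ⟨⟨x, hxi⟩, rfl⟩
        have hξ2 : ξ ^ 2 = (l : 𝓞 M') := by
          apply RingOfIntegers.ext
          exact (map_pow (algebraMap (𝓞 M') M') ξ 2).trans ((congrArg (· ^ 2) hξ).trans
            (hx.trans (map_natCast (algebraMap (𝓞 M') M') l).symm))
        have hσξ : σ • ξ = -ξ := by
          apply RingOfIntegers.ext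
          rw [Pool.Agent.H14U.smul_coe, hξ, h4, ← hξ]
          simp
        have h5 : σ • ξ - ξ ∈ w'.asIdeal := hσ ξ
        rw [hσξ] at h5
        have h6 : (2 : 𝓞 M') * ξ ∈ w'.asIdeal := by
          have e : (2 : 𝓞 M') * ξ = -(-ξ - ξ) := by ring
          rw [e]
          exact Ideal.neg_mem_iff _ |>.2 h5
        apply hl
        rw [← hξ2, pow_two]
        exact Ideal.mul_mem_left _ _ ((w'.isPrime.mem_or_mem h6).resolve_left h2)
    have h4 := h.ram _ h3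
    rw [uu] at h4
    exact h4

end

theorem step_of {g D : ℕ} {F : Type} [Field F] [NumberField F] {f : (𝓞 F)[X]}
    (hD : 0 < D) (hD2 : 2 ∣ D) (h1 : (Ls f (D.primeFactors.erase 2)).Infinite) :
    {l : ℕ | l.Prime ∧ ∀ (M M' : Type) [Field M] [NumberField M] [Field M'] [NumberField M']
    [Algebra F M] [Algebra M M'] [Algebra F M'] [IsScalarTower F M M'] (x : M'),
    x ^ 2 = (l : M') → M⟮x⟯ = ⊤ → AdmW F M D f → AdmW F M' D f}.Infinite := by
  have hfin : {l : ℕ | l ∣ D}.Finite := (Set.finite_Iic D).subset fun l hl => Nat.le_of_dvd hD hl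
  refine (h1.diff hfin).mono ?_
  rintro l ⟨⟨hl, hl8, hli, hlq⟩, hlD⟩
  refine ⟨hl, ?_⟩
  intro M M' _ _ _ _ _ _ _ _ x hx htop hadm
  refine adm_quad hD hD2 hl hl8 hlD hli ?_ hx htop hadm
  intro q hq hq2 hqD
  exact hlq q (Finset.mem_erase.2 ⟨hq2, Nat.mem_primeFactors.2 ⟨hq, hqD, hD.ne'⟩⟩)

theorem t : Pool.Agent.H18N.S_STEPW := by
  intro g D F _ _ f hg hD hD2 hf hd hp
  refine step_of (g := g) hD hD2 ?_
  obtain ⟨p, ⟨_, N₀, _, _, _, _, hs⟩, hp⟩ := hp
  obtain ⟨N, _, _, _, _, hsp⟩ := exists_gal_split N₀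
    ((Pl f (D.primeFactors.erase 2)).map (algebraMap F N₀))
  letI : Algebra F N := ((algebraMap N₀ N).comp (algebraMap F N₀)).toAlgebra
  haveI : IsScalarTower F N₀ N := IsScalarTower.of_algebraMap_eq fun _ => rfl
  refine infinite_l hf hd (p := p) hp (D.primeFactors.erase 2) (fun q hq => by
    rw [Finset.mem_erase] at hq
    exact ⟨Nat.prime_of_mem_primeFactors hq.2, hq.1⟩) (N := N) ?_ ?_
  · intro φ g' hg' σ a
    have h1 : σ (algebraMap F N a) = algebraMap N₀ N (σ.restrictNormal N₀ (algebraMap F N₀ a)) := by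
      rw [σ.restrictNormal_commutes, ← IsScalarTower.algebraMap_apply F N₀ N]
    rw [h1]
    exact hs.fix hg' _
  · rw [Polynomial.map_map] at hsp
    exact hsp

/-- The version with a condition on the norms. -/
theorem t' (g D : ℕ) (F : Type) [Field F] [NumberField F] (f : (𝓞 F)[X]) (hg : 1 ≤ g)
    (hD : 0 < D) (hD2 : 2 ∣ D) (hf : f.Monic) (hd : f.natDegree = 2 * g + 1)
    (hp : ∃ p : ℕ, p.Prime ∧ (∀ 𝔭 : Ideal (𝓞 F), 𝔭.IsPrime → (p : 𝓞 F) ∈ 𝔭 →
    (p : 𝓞 F) ∉ 𝔭 ^ 2 ∧ Ideal.absNorm 𝔭 = p ∧ Irreducible (rd 𝔭 f))) :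
  {l : ℕ | l.Prime ∧ ∀ (M M' : Type) [Field M] [NumberField M] [Field M'] [NumberField M']
    [Algebra F M] [Algebra M M'] [Algebra F M'] [IsScalarTower F M M'] (x : M'),
    x ^ 2 = (l : M') → M⟮x⟯ = ⊤ → AdmW F M D f → AdmW F M' D f}.Infinite := by
  refine step_of (g := g) hD hD2 ?_
  obtain ⟨p, hpp, hp⟩ := hp
  haveI : Fact p.Prime := ⟨hpp⟩
  obtain ⟨N, _, _, _, _, hsp⟩ := exists_gal_split F (Pl f (D.primeFactors.erase 2))
  exact infinite_l hf hd (p := p) (fun 𝔭 h1 h2 => (hp 𝔭 h1 h2).2.2) (D.primeFactors.erase 2)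
    (fun q hq => by
    rw [Finset.mem_erase] at hq
    exact ⟨Nat.prime_of_mem_primeFactors hq.2, hq.1⟩) (N := N)
    (fun φ g' hg' σ a => frob_fix (F := F) (N := N)
      (fun 𝔭 h1 h2 => ⟨(hp 𝔭 h1 h2).1, (hp 𝔭 h1 h2).2.1⟩) hg' σ a) hsp

end Pool.Agent.H18N.STEPW
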