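import Pool.Agent.H18N.Stm
import Pool.Agent.H33PR.Uni

/-!
# Project JN, stub UNIW (helper33): square classes of square norm with even valuations outside a
# finite set of primes and the primes over `W`

After `Pool/Agent/H33PR/Uni.lean`.
-/

set_option autoImplicit false
set_option linter.all false

open Finset IsDedekindDomain NumberField
open scoped nonZeroDivisors symmDiff

namespace Pool.Agent.H18N.UNIW

open Pool.Agent.N874.PP (Ev)
open Pool.Agent.H33PR (units_sq exists_gen rel_unique unit_sq sq_int intNorm_ne coe_intNorm cls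
  cls_prod prod_ne ev_of_span grp card_two prod_symm exists_key exists_fiber WW)

/-! ### Group theory -/

section group

variable {G : Type} [CommGroup G] {ι : Type} [DecidableEq ι]

/-- The group generated by the squares and the `g t`, `t ∈ S`. -/
def HH (S : Finset ι) (g : ι → G) : Subgroup G where
  carrier := {x | ∃ (b : G) (c : Finset ι), c ⊆ S ∧ x = b ^ 2 * ∏ t ∈ c, g t}
  mul_mem' := by
    rintro _ _ ⟨b, c, hc, rfl⟩ ⟨b', c', hc', rfl⟩
    refine ⟨b * b' * ∏ t ∈ c ∩ c', g t, c ∆ c', ?_, ?_⟩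
    · rw [symmDiff_def]
      exact union_subset (sdiff_subset.trans hc) (sdiff_subset.trans hc')
    · have h := prod_symm g c c'
      calc b ^ 2 * (∏ t ∈ c, g t) * (b' ^ 2 * ∏ t ∈ c', g t)
          = b ^ 2 * b' ^ 2 * ((∏ t ∈ c, g t) * ∏ t ∈ c', g t) := by
            simp only [mul_assoc, mul_comm, mul_left_comm]
        _ = (b * b' * ∏ t ∈ c ∩ c', g t) ^ 2 * ∏ t ∈ c ∆ c', g t := by
            rw [h, mul_pow, mul_pow]
            simp only [mul_assoc]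
  one_mem' := ⟨1, ∅, empty_subset _, by simp⟩
  inv_mem' := by
    rintro x ⟨b, c, hc, hx⟩
    refine ⟨b * x⁻¹, c, hc, ?_⟩
    rw [mul_pow, mul_right_comm, ← hx, inv_pow, pow_two, mul_inv, mul_inv_cancel_left]

theorem card_le [Finite G] (S : Finset ι) (g : ι → G) :
    Nat.card {p : G × S.powerset // p.1 ^ 2 * ∏ t ∈ p.2.1, g t = 1} ≤
      2 ^ S.card * Nat.card (G ⧸ HH S g) := by
  classical
  set Sq := (powMonoidHom 2 : G →* G).range with hSq
  have hmem : ∀ x : G, x ∈ Sq ↔ ∃ y : G, y ^ 2 = x := fun x => Iff.rfl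
  set K := S.powerset.filter fun c => ∏ t ∈ c, g t ∈ Sq with hK
  -- the relations
  have h1 : Nat.card {p : G × S.powerset // p.1 ^ 2 * ∏ t ∈ p.2.1, g t = 1} ≤
      K.card * Nat.card {x : G // x ^ 2 = 1} := by
    have h2 : ∀ c : K, ∃ y : G, y ^ 2 = ∏ t ∈ c.1, g t := fun c =>
      (hmem _).1 (mem_filter.1 c.2).2
    choose y hy using h2
    have h3 : K.card = Nat.card K := by rw [Nat.card_eq_fintype_card, Fintype.card_coe]
    rw [h3, ← Nat.card_prod]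
    have hc : ∀ p : {p : G × S.powerset // p.1 ^ 2 * ∏ t ∈ p.2.1, g t = 1}, p.1.2.1 ∈ K := by
      intro p
      rw [hK, mem_filter]
      refine ⟨p.1.2.2, ?_⟩
      rw [hmem]
      refine ⟨p.1.1⁻¹, ?_⟩
      rw [inv_pow, inv_eq_iff_mul_eq_one]
      exact p.2
    refine Nat.card_le_card_of_injective
      (fun p : {p : G × S.powerset // p.1 ^ 2 * ∏ t ∈ p.2.1, g t = 1} =>
        ((⟨p.1.2.1, hc p⟩, ⟨p.1.1 * y ⟨p.1.2.1, hc p⟩, ?_⟩) : K × {x : G // x ^ 2 = 1})) ?_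
    · rw [mul_pow, hy]
      exact p.2
    · rintro ⟨⟨x, c⟩, hp⟩ ⟨⟨x', c'⟩, hp'⟩ h
      have h4 : c.1 = c'.1 := congrArg (fun q => (Prod.fst q).1) h
      have h5 : c = c' := Subtype.ext h4
      subst h5
      have h6 := congrArg (fun q => (Prod.snd q).1) h
      have h7 : x = x' := mul_right_cancel h6
      subst h7
      rfl
  -- the cosets
  have h2 : K.card * Nat.card (G ⧸ Sq) ≤ 2 ^ S.card * Nat.card (G ⧸ HH S g) := by
    have hex : ∀ q : G ⧸ Sq, ∃ c : Finset ι, c ⊆ S ∧ ∃ b : G, q.out =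
        ((q.out : G) : G ⧸ HH S g).out * (b ^ 2 * ∏ t ∈ c, g t) := by
      intro q
      have h3 : ((((q.out : G) : G ⧸ HH S g).out : G) : G ⧸ HH S g) = ((q.out : G) : G ⧸ HH S g) :=
        Quotient.out_eq' _
      rw [QuotientGroup.eq] at h3
      obtain ⟨b, c, hc, hb⟩ := h3
      refine ⟨c, hc, b, ?_⟩
      rw [← hb, mul_inv_cancel_left]
    choose c hcS b hb using hex
    have h3 : K.card = Nat.card K := by rw [Nat.card_eq_fintype_card, Fintype.card_coe]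
    have h4 : 2 ^ S.card = Nat.card S.powerset := by
      rw [Nat.card_eq_fintype_card, Fintype.card_coe, card_powerset]
    rw [h3, h4, ← Nat.card_prod, ← Nat.card_prod]
    have hsub : ∀ p : K × (G ⧸ Sq), p.1.1 ∆ c p.2 ∈ S.powerset := by
      intro p
      rw [mem_powerset, symmDiff_def]
      exact union_subset (sdiff_subset.trans (mem_powerset.1 (mem_filter.1 p.1.2).1))
        (sdiff_subset.trans (hcS _))
    refine Nat.card_le_card_of_injective (fun p : K × (G ⧸ Sq) =>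
      ((⟨p.1.1 ∆ c p.2, hsub p⟩, ((p.2.out : G) : G ⧸ HH S g)) : S.powerset × (G ⧸ HH S g))) ?_
    have hq : ∀ p : K × (G ⧸ Sq), p.2 = (((((p.2.out : G) : G ⧸ HH S g).out : G)) : G ⧸ Sq) *
        ((∏ t ∈ p.1.1 ∆ c p.2, g t : G) : G ⧸ Sq) := by
      intro p
      have k1 : ((p.2.out : G) : G ⧸ Sq) = p.2 := Quotient.out_eq' _
      have k2 := congrArg (fun x : G => (x : G ⧸ Sq)) (hb p.2)
      simp only [QuotientGroup.mk_mul] at k2
      have k3 : ∀ y : G, ((y ^ 2 : G) : G ⧸ Sq) = 1 := fun y =>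
        (QuotientGroup.eq_one_iff _).2 ⟨y, rfl⟩
      have k4 : ((∏ t ∈ p.1.1, g t : G) : G ⧸ Sq) = 1 :=
        (QuotientGroup.eq_one_iff _).2 (mem_filter.1 p.1.2).2
      have k5 := congrArg (fun x : G => (x : G ⧸ Sq)) (prod_symm g p.1.1 (c p.2))
      simp only [QuotientGroup.mk_mul] at k5
      rw [k4, k3, one_mul, one_mul] at k5
      rw [k3, one_mul, k1] at k2
      rw [← k5]
      exact k2
    rintro ⟨k, q⟩ ⟨k', q'⟩ h
    have e1 : k.1 ∆ c q = k'.1 ∆ c q' := congrArg (fun x => (Prod.fst x).1) h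
    have e2 : ((q.out : G) : G ⧸ HH S g) = ((q'.out : G) : G ⧸ HH S g) := congrArg Prod.snd h
    have e3 : q = q' := by
      have h5 := hq (k, q)
      have h6 := hq (k', q')
      simp only at h5 h6
      rw [e1, e2] at h5
      exact h5.trans h6.symm
    subst e3
    have e4 : k.1 = k'.1 := symmDiff_left_injective (c q) e1
    rw [Subtype.ext e4]
  rw [card_two] at h2
  exact h1.trans h2

end group

/-! ### Ideals -/

section dec

lemma prod_symm' {M : Type*} [CommMonoid M] {ι : Type*} [DecidableEq ι] (g : ι → M)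
    (c c' : Finset ι) :
    (∏ t ∈ c, g t) * ∏ t ∈ c', g t = (∏ t ∈ c ∩ c', g t) ^ 2 * ∏ t ∈ c ∆ c', g t := by
  have h1 : ∏ t ∈ c, g t = (∏ t ∈ c \ c', g t) * ∏ t ∈ c ∩ c', g t := by
    rw [← prod_union (disjoint_sdiff_inter c c'), sdiff_union_inter]
  have h2 : ∏ t ∈ c', g t = (∏ t ∈ c' \ c, g t) * ∏ t ∈ c ∩ c', g t := by
    rw [inter_comm, ← prod_union (disjoint_sdiff_inter c' c), sdiff_union_inter]
  have h3 : ∏ t ∈ c ∆ c', g t = (∏ t ∈ c \ c', g t) * ∏ t ∈ c' \ c, g t := by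
    rw [symmDiff_def]
    exact prod_union disjoint_sdiff_sdiff
  rw [h1, h2, h3, pow_two]
  exact (by
    intro a b d
    rw [mul_mul_mul_comm, mul_comm] : ∀ a b d : M, (a * d) * (b * d) = d * d * (a * b)) _ _ _

variable {O : Type} [CommRing O] [IsDedekindDomain O]

/-- A square times a product of different primes in `S`. -/
def Dec (S : Finset (HeightOneSpectrum O)) (J : Ideal O) : Prop :=
  ∃ (𝔡 : Ideal O) (c : Finset (HeightOneSpectrum O)), 𝔡 ≠ 0 ∧ c ⊆ S ∧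
    J = 𝔡 ^ 2 * ∏ t ∈ c, t.asIdeal

variable {S : Finset (HeightOneSpectrum O)}

theorem Dec.one : Dec S (1 : Ideal O) :=
  ⟨1, ∅, one_ne_zero, empty_subset _, by rw [prod_empty, one_pow, mul_one]⟩

theorem Dec.sq {I : Ideal O} (h : I ≠ 0) : Dec S (I ^ 2) :=
  ⟨I, ∅, h, empty_subset _, by rw [prod_empty, mul_one]⟩

theorem Dec.prime {t : HeightOneSpectrum O} (h : t ∈ S) : Dec S t.asIdeal :=
  ⟨1, {t}, one_ne_zero, singleton_subset_iff.2 h, by rw [prod_singleton, one_pow, one_mul]⟩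

theorem Dec.mul {J J' : Ideal O} (h : Dec S J) (h' : Dec S J') : Dec S (J * J') := by
  classical
  obtain ⟨𝔡, c, h1, h2, rfl⟩ := h
  obtain ⟨𝔡', c', h1', h2', rfl⟩ := h'
  refine ⟨𝔡 * 𝔡' * ∏ t ∈ c ∩ c', t.asIdeal, c ∆ c', mul_ne_zero (mul_ne_zero h1 h1') (prod_ne _),
    ?_, ?_⟩
  · rw [symmDiff_def]
    exact union_subset (sdiff_subset.trans h2) (sdiff_subset.trans h2')
  · have h := prod_symm' (fun t : HeightOneSpectrum O => t.asIdeal) c c'
    calc 𝔡 ^ 2 * (∏ t ∈ c, t.asIdeal) * (𝔡' ^ 2 * ∏ t ∈ c', t.asIdeal)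
        = 𝔡 ^ 2 * 𝔡' ^ 2 * ((∏ t ∈ c, t.asIdeal) * ∏ t ∈ c', t.asIdeal) := by ring
      _ = _ := by
        rw [h]
        ring

theorem dec_of (J : Ideal O) : J ≠ 0 → (∀ w : HeightOneSpectrum O, w.asIdeal ∣ J → w ∈ S) →
    Dec S J := by
  refine UniqueFactorizationMonoid.induction_on_prime J ?_ ?_ ?_
  · intro h
    exact absurd rfl h
  · intro x hx _ _
    have : x = 1 := by
      rw [Ideal.one_eq_top]
      exact Ideal.isUnit_iff.1 hx
    rw [this]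
    exact Dec.one
  · intro a p ha hp ih _ hw
    have h1 : (⟨p, Ideal.isPrime_of_prime hp, hp.ne_zero⟩ : HeightOneSpectrum O) ∈ S :=
      hw _ (dvd_mul_right _ _)
    exact (Dec.prime h1).mul (ih ha fun w hwa => hw w (hwa.mul_left _))

end dec

section nf

variable {F L : Type} [Field F] [NumberField F] [Field L] [NumberField L] [Algebra F L]

theorem dec_relNorm {W : ℕ} {S : Finset (HeightOneSpectrum (𝓞 F))}
    (hS : ∀ w, w ∈ S ↔ (W : 𝓞 F) ∈ w.asIdeal) (t : HeightOneSpectrum (𝓞 L))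
    (ht : (W : 𝓞 L) ∈ t.asIdeal) : Dec S (Ideal.relNorm (𝓞 F) t.asIdeal) := by
  refine dec_of _ ?_ ?_
  · rw [Ideal.zero_eq_bot, Ne, Ideal.relNorm_eq_bot_iff]
    exact t.ne_bot
  · intro w hw
    rw [hS]
    have h1 : t.asIdeal ∣ Ideal.map (algebraMap (𝓞 F) (𝓞 L)) (Ideal.span {(W : 𝓞 F)}) := by
      rw [Ideal.dvd_iff_le, Ideal.map_span, Set.image_singleton, map_natCast,
        Ideal.span_singleton_le_iff_mem]
      exact ht
    have h2 : Ideal.relNorm (𝓞 F) t.asIdeal ∣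
        Ideal.relNorm (𝓞 F) (Ideal.map (algebraMap (𝓞 F) (𝓞 L)) (Ideal.span {(W : 𝓞 F)})) :=
      map_dvd (Ideal.relNorm (𝓞 F)) h1
    rw [Ideal.relNorm_algebraMap] at h2
    have h3 : w.asIdeal ∣ Ideal.span {(W : 𝓞 F)} := w.prime.dvd_of_dvd_pow (hw.trans h2)
    exact Ideal.dvd_span_singleton.1 h3

/-- classes of `F` stay different -/
lemma class_inj (hodd : Odd (Module.finrank F L)) (S : Finset (HeightOneSpectrum (𝓞 F)))
    (T : Finset (HeightOneSpectrum (𝓞 L)))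
    (hT : ∀ c ⊆ T, Dec S (Ideal.relNorm (𝓞 F) (∏ t ∈ c, t.asIdeal)))
    [DecidableEq (HeightOneSpectrum (𝓞 F))] :
    2 ^ T.card * Nat.card (ClassGroup (𝓞 F) ⧸ HH S (cls : HeightOneSpectrum (𝓞 F) → _)) ≤
      Nat.card (WW T) := by
  classical
  set H := HH S (cls : HeightOneSpectrum (𝓞 F) → ClassGroup (𝓞 F)) with hH
  have hrep : ∀ q : ClassGroup (𝓞 F) ⧸ H, ∃ 𝔞 : (Ideal (𝓞 F))⁰,
      ((ClassGroup.mk0 𝔞 : ClassGroup (𝓞 F)) : ClassGroup (𝓞 F) ⧸ H) = q := by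
    intro q
    obtain ⟨g, rfl⟩ := QuotientGroup.mk_surjective q
    obtain ⟨𝔞, rfl⟩ := ClassGroup.mk0_surjective g
    exact ⟨𝔞, rfl⟩
  choose rep hrep' using hrep
  have hne : ∀ q, ((rep q : Ideal (𝓞 F)).map (algebraMap (𝓞 F) (𝓞 L))) ≠ 0 := by
    intro q h
    have h1 := nonZeroDivisors.coe_ne_zero (rep q)
    rw [Ideal.zero_eq_bot, Ideal.map_eq_bot_iff_of_injective
      (FaithfulSMul.algebraMap_injective (𝓞 F) (𝓞 L))] at h
    exact h1 h
  refine grp T cls (fun q : ClassGroup (𝓞 F) ⧸ H => ClassGroup.mk0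
    ⟨(rep q : Ideal (𝓞 F)).map (algebraMap (𝓞 F) (𝓞 L)),
      mem_nonZeroDivisors_of_ne_zero (hne q)⟩) ?_
  rintro q q' ⟨b, c, hcT, h⟩
  obtain ⟨𝔟, rfl⟩ := ClassGroup.mk0_surjective b
  rw [cls_prod, ← map_pow, ← map_mul, ← map_mul, ClassGroup.mk0_eq_mk0_iff] at h
  obtain ⟨x, y, hx, hy, hxy⟩ := h
  obtain ⟨𝔡, c', hd0, hc', hpr⟩ := hT c hcT
  have h1 := congrArg (Ideal.relNorm (𝓞 F)) hxy
  simp only [Submonoid.coe_mul, SubmonoidClass.coe_pow, map_mul, map_pow, Ideal.relNorm_singleton,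
    Ideal.relNorm_algebraMap, hpr] at h1
  have hfin : Module.finrank (𝓞 F) (𝓞 L) = Module.finrank F L := by
    exact (IsFractionRing.finrank_eq (𝓞 F) F (𝓞 L) L).symm
  rw [hfin] at h1
  have hB : Ideal.relNorm (𝓞 F) (𝔟 : Ideal (𝓞 L)) ≠ 0 := by
    intro h0
    rw [Ideal.zero_eq_bot, Ideal.relNorm_eq_bot_iff] at h0
    exact nonZeroDivisors.coe_ne_zero 𝔟 h0
  set 𝔡' : (Ideal (𝓞 F))⁰ := ⟨Ideal.relNorm (𝓞 F) (𝔟 : Ideal (𝓞 L)) * 𝔡,
    mem_nonZeroDivisors_of_ne_zero (mul_ne_zero hB hd0)⟩ with h𝔡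
  set P : (Ideal (𝓞 F))⁰ := ⟨∏ t ∈ c', t.asIdeal, mem_nonZeroDivisors_of_ne_zero (prod_ne c')⟩ with hP
  have h2 : ClassGroup.mk0 ((rep q) ^ Module.finrank F L) =
      ClassGroup.mk0 ((rep q') ^ Module.finrank F L * 𝔡' ^ 2 * P) := by
    rw [ClassGroup.mk0_eq_mk0_iff]
    refine ⟨Algebra.intNorm (𝓞 F) (𝓞 L) x, Algebra.intNorm (𝓞 F) (𝓞 L) y, intNorm_ne hx,
      intNorm_ne hy, ?_⟩
    rw [Submonoid.coe_mul, Submonoid.coe_mul, SubmonoidClass.coe_pow, SubmonoidClass.coe_pow,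
      SubmonoidClass.coe_pow, h1, h𝔡, hP]
    simp only [mul_pow, mul_assoc]
  rw [map_mul, map_mul, map_pow, map_pow, map_pow] at h2
  have hP1 : ((ClassGroup.mk0 P : ClassGroup (𝓞 F)) : ClassGroup (𝓞 F) ⧸ H) = 1 := by
    rw [QuotientGroup.eq_one_iff]
    refine ⟨1, c', hc', ?_⟩
    rw [cls_prod, one_pow, one_mul]
  have hsq : ∀ g : ClassGroup (𝓞 F) ⧸ H, g ^ 2 = 1 := by
    intro g
    obtain ⟨g, rfl⟩ := QuotientGroup.mk_surjective g
    rw [← QuotientGroup.mk_pow, QuotientGroup.eq_one_iff]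
    exact ⟨g, ∅, empty_subset _, by simp⟩
  have h3 := congrArg (fun g : ClassGroup (𝓞 F) => (g : ClassGroup (𝓞 F) ⧸ H)) h2
  simp only [QuotientGroup.mk_mul, QuotientGroup.mk_pow, hsq, mul_one, hrep', hP1] at h3
  obtain ⟨k, hk⟩ := hodd
  rw [hk, pow_succ, pow_succ, pow_mul, pow_mul] at h3
  have h4 : q ^ 2 = 1 := hsq q
  have h5 : q' ^ 2 = 1 := hsq q'
  rw [h4, h5, one_pow, one_mul, one_mul] at h3
  exact h3

end nf

theorem fin_over {K : Type} [Field K] [NumberField K] {W : ℕ} (hW : 0 < W) :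
    {w : HeightOneSpectrum (𝓞 K) | (W : 𝓞 K) ∈ w.asIdeal}.Finite := by
  have h0 : Ideal.span {(W : 𝓞 K)} ≠ 0 := by
    rw [Ideal.zero_eq_bot, Ne, Ideal.span_singleton_eq_bot]
    exact Nat.cast_ne_zero.2 hW.ne'
  refine (Ideal.finite_factors h0).subset fun w hw => ?_
  exact Ideal.dvd_span_singleton.2 hw

theorem aux (F L : Type) [Field F] [NumberField F] [Field L] [NumberField L] [Algebra F L]
    (hodd : Odd (Module.finrank F L)) (S : Finset (HeightOneSpectrum (𝓞 F)))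
    (T : Finset (HeightOneSpectrum (𝓞 L)))
    (hT : ∀ c ⊆ T, Dec S (Ideal.relNorm (𝓞 F) (∏ t ∈ c, t.asIdeal))) :
    ∃ A : Finset L, 2 ^ (T.card + Fintype.card (InfinitePlace L)) ≤
      A.card * 2 ^ (Fintype.card (InfinitePlace F) + S.card) ∧
    (∀ α ∈ A, α ≠ 0 ∧ IsSquare (Algebra.norm F α) ∧ ∀ 𝔓 ∉ T, Ev 𝔓 α) ∧
    ∀ α ∈ A, ∀ β ∈ A, IsSquare (α * β) → α = β := by
  classical
  obtain ⟨RL, hRL, -, hRL'⟩ := units_sq L
  obtain ⟨RF, hRF, hRFs, -⟩ := units_sq F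
  have hgen : ∀ w : WW T,
      ∃ (a : 𝓞 L) (𝔟 : (Ideal (𝓞 L))⁰), a ≠ 0 ∧ ClassGroup.mk0 𝔟 = w.1.1 ∧
        Ideal.span {a} = (𝔟 : Ideal (𝓞 L)) ^ 2 * ∏ t ∈ w.1.2.1, t.asIdeal :=
    fun w => exists_gen _ _ w.2
  choose a 𝔟 ha hb hab using hgen
  have : Fintype (WW T) := Fintype.ofFinite _
  let v : RL × WW T → 𝓞 L := fun z => ((z.1 : (𝓞 L)ˣ) : 𝓞 L) * a z.2
  have hv0 : ∀ z, v z ≠ 0 := fun z => mul_ne_zero (Units.ne_zero _) (ha _)
  -- distinct modulo squares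
  have hdist : ∀ z z' : RL × WW T, (∃ x : 𝓞 L, x ^ 2 = v z * v z') → z = z' := by
    rintro ⟨u, w⟩ ⟨u', w'⟩ ⟨x, hx⟩
    have hx' : x ^ 2 = ((u.1 * u'.1 : (𝓞 L)ˣ) : 𝓞 L) * (a w * a w') := by
      rw [hx, Units.val_mul]
      simp only [v]
      ring
    obtain ⟨h1, h2⟩ := rel_unique w.2 (hb w) (hb w') (hab w) (hab w') hx'
    have hw : w = w' := Subtype.ext (Prod.ext h1 (Subtype.ext h2))
    subst hw
    obtain ⟨s, hs⟩ := unit_sq (ha w) hx'
    have hu : u = u' := Subtype.ext (hRL' _ u.2 _ u'.2 ⟨s, hs⟩)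
    rw [hu]
  -- the norms
  let n : RL × WW T → 𝓞 F := fun z => Algebra.intNorm (𝓞 F) (𝓞 L) (v z)
  have hn0 : ∀ z, n z ≠ 0 := fun z => intNorm_ne (hv0 z)
  have hdec : ∀ z : RL × WW T, ∃ (𝔡 : Ideal (𝓞 F)) (c : Finset (HeightOneSpectrum (𝓞 F))), 𝔡 ≠ 0 ∧
      c ⊆ S ∧ Ideal.relNorm (𝓞 F) (∏ t ∈ z.2.1.2.1, t.asIdeal) = 𝔡 ^ 2 * ∏ t ∈ c, t.asIdeal :=
    fun z => hT _ (mem_powerset.1 z.2.1.2.2)
  choose 𝔡 cc hd0 hcc hdc using hdec
  let 𝔠 : RL × WW T → Ideal (𝓞 F) := fun z =>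
    Ideal.relNorm (𝓞 F) (𝔟 z.2 : Ideal (𝓞 L)) * 𝔡 z
  have h𝔠 : ∀ z, Ideal.span {n z} = 𝔠 z ^ 2 * ∏ t ∈ cc z, t.asIdeal := by
    intro z
    have h1 : Ideal.span {v z} = Ideal.span {a z.2} :=
      Ideal.span_singleton_mul_left_unit (Units.isUnit _) _
    have h2 : Ideal.span {n z} = Ideal.relNorm (𝓞 F) (Ideal.span {v z}) :=
      (Ideal.relNorm_singleton (𝓞 F) (v z)).symm
    rw [h2, h1, hab, map_mul, map_pow, hdc, mul_pow, mul_assoc]
  have h𝔠0 : ∀ z, 𝔠 z ≠ 0 := by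
    intro z h0
    have h1 := h𝔠 z
    rw [h0, zero_pow two_ne_zero, zero_mul, Ideal.zero_eq_bot, Ideal.span_singleton_eq_bot] at h1
    exact hn0 z h1
  have hγ : ∀ z, (ClassGroup.mk0 ⟨𝔠 z, mem_nonZeroDivisors_of_ne_zero (h𝔠0 z)⟩) ^ 2 *
      ∏ t ∈ cc z, cls t = 1 := by
    intro z
    rw [cls_prod, ← map_pow, ← map_mul]
    have h1 := (ClassGroup.mk0_eq_one_iff (I := 𝔠 z ^ 2 * ∏ t ∈ cc z, t.asIdeal)
      (mem_nonZeroDivisors_of_ne_zero (mul_ne_zero (pow_ne_zero 2 (h𝔠0 z)) (prod_ne _)))).2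
        ⟨⟨n z, (h𝔠 z).symm⟩⟩
    exact h1
  let f : RL × WW T → WW S := fun z => ⟨(_, ⟨cc z, mem_powerset.2 (hcc z)⟩), hγ z⟩
  have hrel : ∀ z z0, f z = f z0 → ∃ r : RF, ∃ x y : 𝓞 F, x ≠ 0 ∧ y ≠ 0 ∧
      x ^ 2 * n z = ((r : (𝓞 F)ˣ) : 𝓞 F) * (y ^ 2 * n z0) := by
    intro z z0 h
    have h1 := congrArg (fun w => (Subtype.val w).1) h
    have h1' : cc z = cc z0 := congrArg (fun w => (Subtype.val w).2.1) h
    simp only [f] at h1
    rw [ClassGroup.mk0_eq_mk0_iff] at h1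
    obtain ⟨x, y, hx, hy, hxy⟩ := h1
    have h2 : Ideal.span {y ^ 2 * n z0} = Ideal.span {x ^ 2 * n z} := by
      rw [← Ideal.span_singleton_mul_span_singleton, ← Ideal.span_singleton_mul_span_singleton,
        ← Ideal.span_singleton_pow, ← Ideal.span_singleton_pow, h𝔠, h𝔠, ← mul_assoc, ← mul_assoc,
        ← mul_pow, ← mul_pow, h1']
      exact congrArg (fun J : Ideal (𝓞 F) => J ^ 2 * ∏ t ∈ cc z0, t.asIdeal) hxy.symm
    rw [Ideal.span_singleton_eq_span_singleton] at h2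
    obtain ⟨u, hu⟩ := h2
    obtain ⟨r, hr, s, hs⟩ := hRFs u
    refine ⟨⟨r, hr⟩, x, (s : 𝓞 F) * y, hx, mul_ne_zero (Units.ne_zero _) hy, ?_⟩
    rw [← hu, hs, Units.val_mul, Units.val_pow_eq_pow_val]
    ring
  have hRFne : Nonempty RF := by
    have h1 : 0 < RF.card := by rw [hRF]; positivity
    obtain ⟨r, hr⟩ := card_pos.1 h1
    exact ⟨⟨r, hr⟩⟩
  have hRLne : Nonempty RL := by
    have h1 : 0 < RL.card := by rw [hRL]; positivity
    obtain ⟨r, hr⟩ := card_pos.1 h1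
    exact ⟨⟨r, hr⟩⟩
  have hcls := class_inj (F := F) hodd S T hT
  have hupp : Nat.card (WW S) ≤ 2 ^ S.card *
      Nat.card (ClassGroup (𝓞 F) ⧸ HH S (cls : HeightOneSpectrum (𝓞 F) → _)) :=
    card_le S (cls : HeightOneSpectrum (𝓞 F) → ClassGroup (𝓞 F))
  have hC : 0 < Nat.card (ClassGroup (𝓞 F) ⧸ HH S (cls : HeightOneSpectrum (𝓞 F) → _)) :=
    Nat.card_pos
  have hWne : Nonempty (WW T) := by
    have h1 : 0 < Nat.card (WW T) := lt_of_lt_of_le (by positivity) hcls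
    exact (Nat.card_pos_iff.1 h1).1
  let g : RL × WW T → RL × WW T → RF := fun z0 z =>
    if h : ∃ r : RF, ∃ x y : 𝓞 F, x ≠ 0 ∧ y ≠ 0 ∧
      x ^ 2 * n z = ((r : (𝓞 F)ˣ) : 𝓞 F) * (y ^ 2 * n z0) then h.choose
    else Classical.arbitrary RF
  have hg : ∀ z0 z, f z = f z0 → ∃ x y : 𝓞 F, x ≠ 0 ∧ y ≠ 0 ∧
      x ^ 2 * n z = ((g z0 z : (𝓞 F)ˣ) : 𝓞 F) * (y ^ 2 * n z0) := by
    intro z0 z h
    have h1 := hrel z z0 h
    simp only [g, dif_pos h1]
    exact h1.choose_spec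
  obtain ⟨FF, hFF⟩ := exists_key f g
    (fun z z' => IsSquare (Algebra.norm F (v z : L) * Algebra.norm F (v z' : L))) (by
      intro z0 z z' h h' hgg
      obtain ⟨x, y, hx, hy, e⟩ := hg z0 z h
      obtain ⟨x', y', hx', hy', e'⟩ := hg z0 z' h'
      rw [← hgg] at e'
      have e1 : ((x : F)) ^ 2 * (n z : F) = (((g z0 z : (𝓞 F)ˣ) : 𝓞 F) : F) *
          ((y : F) ^ 2 * (n z0 : F)) := by exact_mod_cast congrArg (algebraMap (𝓞 F) F) e
      have e2 : ((x' : F)) ^ 2 * (n z' : F) = (((g z0 z : (𝓞 F)ˣ) : 𝓞 F) : F) *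
          ((y' : F) ^ 2 * (n z0 : F)) := by exact_mod_cast congrArg (algebraMap (𝓞 F) F) e'
      have hxF : (x : F) ≠ 0 := fun h0 => hx (RingOfIntegers.ext h0)
      have hxF' : (x' : F) ≠ 0 := fun h0 => hx' (RingOfIntegers.ext h0)
      show IsSquare (Algebra.norm F (v z : L) * Algebra.norm F (v z' : L))
      rw [← coe_intNorm, ← coe_intNorm]
      refine ⟨(((g z0 z : (𝓞 F)ˣ) : 𝓞 F) : F) * (y : F) * (y' : F) * (n z0 : F) /
        ((x : F) * (x' : F)), ?_⟩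
      have e3 : (n z : F) = (((g z0 z : (𝓞 F)ˣ) : 𝓞 F) : F) *
          ((y : F) ^ 2 * (n z0 : F)) / (x : F) ^ 2 := by
        rw [← e1]; field_simp
      have e4 : (n z' : F) = (((g z0 z : (𝓞 F)ˣ) : 𝓞 F) : F) *
          ((y' : F) ^ 2 * (n z0 : F)) / (x' : F) ^ 2 := by
        rw [← e2]; field_simp
      change (n z : F) * (n z' : F) = _
      rw [e3, e4]
      field_simp)
  have : Fintype (WW S) := Fintype.ofFinite _
  obtain ⟨x0, hx0⟩ := exists_fiber FF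
  set Z0 := univ.filter fun z => FF z = x0 with hZ0
  have e1 : Fintype.card (WW T) = Nat.card (WW T) := Nat.card_eq_fintype_card.symm
  have e2 : Fintype.card (WW S) = Nat.card (WW S) := Nat.card_eq_fintype_card.symm
  rw [Fintype.card_prod, Fintype.card_prod, Fintype.card_coe, Fintype.card_coe, hRL, hRF, e1,
    e2] at hx0
  have hbig : 2 ^ (T.card + Fintype.card (InfinitePlace L)) ≤
      Z0.card * 2 ^ (Fintype.card (InfinitePlace F) + S.card) := by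
    set Q := Nat.card (ClassGroup (𝓞 F) ⧸ HH S (cls : HeightOneSpectrum (𝓞 F) → _)) with hQ
    have h1 : (2 ^ (T.card + Fintype.card (InfinitePlace L))) * Q ≤
        (Z0.card * 2 ^ (Fintype.card (InfinitePlace F) + S.card)) * Q := by
      calc (2 ^ (T.card + Fintype.card (InfinitePlace L))) * Q
          = 2 ^ Fintype.card (InfinitePlace L) * (2 ^ T.card * Q) := by ring
        _ ≤ 2 ^ Fintype.card (InfinitePlace L) * Nat.card (WW T) := Nat.mul_le_mul_left _ hcls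
        _ ≤ Z0.card * (Nat.card (WW S) * 2 ^ Fintype.card (InfinitePlace F)) := hx0
        _ ≤ Z0.card * ((2 ^ S.card * Q) * 2 ^ Fintype.card (InfinitePlace F)) :=
            Nat.mul_le_mul_left _ (Nat.mul_le_mul_right _ hupp)
        _ = _ := by ring
    exact Nat.le_of_mul_le_mul_right h1 hC
  have hZne : Z0.Nonempty := by
    rw [← card_pos]
    by_contra h0
    have h1 : Z0.card = 0 := by omega
    rw [h1, zero_mul] at hbig
    have h2 : 0 < 2 ^ (T.card + Fintype.card (InfinitePlace L)) := by positivity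
    omega
  obtain ⟨z0, hz0⟩ := hZne
  have hz0' : FF z0 = x0 := (mem_filter.1 hz0).2
  have hvL : ∀ z, (v z : L) ≠ 0 := fun z h0 => hv0 z (RingOfIntegers.ext h0)
  -- the products with `v z0`
  have hdist' : ∀ z z' : RL × WW T, IsSquare (((v z : L) * (v z0 : L)) * ((v z' : L) * (v z0 : L))) →
      z = z' := by
    rintro z z' ⟨y, hy⟩
    have h1 : (y / (v z0 : L)) ^ 2 = ((v z * v z' : 𝓞 L) : L) := by
      have h2 : ((v z * v z' : 𝓞 L) : L) = (v z : L) * (v z' : L) := rfl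
      rw [h2, div_pow, pow_two y, ← hy]
      have := hvL z0
      field_simp
    obtain ⟨x, -, hx⟩ := sq_int h1
    exact hdist z z' ⟨x, hx⟩
  refine ⟨Z0.image fun z => (v z : L) * (v z0 : L), ?_, ?_, ?_⟩
  · rw [card_image_of_injective]
    · exact hbig
    · intro z z' h
      apply hdist'
      exact ⟨(v z : L) * (v z0 : L), by rw [show (v z' : L) * (v z0 : L) = _ from h.symm]⟩
  · intro α hα
    obtain ⟨z, hz, rfl⟩ := mem_image.1 hα
    refine ⟨mul_ne_zero (hvL _) (hvL _), ?_, ?_⟩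
    · rw [map_mul]
      exact hFF z z0 ((mem_filter.1 hz).2.trans hz0'.symm)
    · intro 𝔓 h𝔓
      have hev : ∀ z, Ev 𝔓 (v z : L) := by
        intro z
        have h1 : Ideal.span {v z} = (𝔟 z.2 : Ideal (𝓞 L)) ^ 2 * ∏ t ∈ z.2.1.2.1, t.asIdeal := by
          rw [← hab]
          exact Ideal.span_singleton_mul_left_unit (Units.isUnit _) _
        exact ev_of_span L 𝔓 (hv0 z) (nonZeroDivisors.coe_ne_zero (𝔟 z.2)) _ h1
          fun hmem => h𝔓 (mem_powerset.1 z.2.1.2.2 hmem)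
      obtain ⟨y, hy⟩ := hev z
      obtain ⟨y', hy'⟩ := hev z0
      exact ⟨y * y', by rw [map_mul, map_mul, hy, hy', mul_pow]⟩
  · intro α hα β hβ h
    obtain ⟨z, hz, rfl⟩ := mem_image.1 hα
    obtain ⟨z', hz', rfl⟩ := mem_image.1 hβ
    rw [hdist' z z' h]

/-- **UNIW.** -/
theorem t : Pool.Agent.H18N.S_UNIW := by
  classical
  intro F L _ _ _ _ _ hodd W hW T hT
  obtain ⟨S, hS⟩ : ∃ S : Finset (HeightOneSpectrum (𝓞 F)), ∀ w, w ∈ S ↔ (W : 𝓞 F) ∈ w.asIdeal :=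
    ⟨(fin_over (K := F) hW).toFinset, fun w => by simp⟩
  obtain ⟨SL, hSL⟩ : ∃ S : Finset (HeightOneSpectrum (𝓞 L)), ∀ w, w ∈ S ↔ (W : 𝓞 L) ∈ w.asIdeal :=
    ⟨(fin_over (K := L) hW).toFinset, fun w => by simp⟩
  have c1 : Nat.card {w : HeightOneSpectrum (𝓞 F) // (W : 𝓞 F) ∈ w.asIdeal} = S.card := by
    rw [Nat.card_congr (Equiv.subtypeEquivRight fun w => (hS w).symm), Nat.card_eq_fintype_card,
      Fintype.card_coe]
  have c2 : Nat.card {w : HeightOneSpectrum (𝓞 L) // (W : 𝓞 L) ∈ w.asIdeal} = SL.card := by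
    rw [Nat.card_congr (Equiv.subtypeEquivRight fun w => (hSL w).symm), Nat.card_eq_fintype_card,
      Fintype.card_coe]
  have hdisj : Disjoint T SL := by
    rw [disjoint_left]
    intro w h1 h2
    exact (hT w h1).1 ((hSL w).1 h2)
  have hdec : ∀ c ⊆ T ∪ SL, Dec S (Ideal.relNorm (𝓞 F) (∏ t ∈ c, t.asIdeal)) := by
    intro c hc
    rw [map_prod]
    refine prod_induction (fun t : HeightOneSpectrum (𝓞 L) => Ideal.relNorm (𝓞 F) t.asIdeal)
      (Dec S) (fun _ _ => Dec.mul) Dec.one fun t ht => ?_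
    rcases mem_union.1 (hc ht) with h | h
    · obtain ⟨I, hI⟩ := (hT t h).2
      rw [hI]
      refine Dec.sq ?_
      rintro rfl
      rw [zero_pow two_ne_zero, Ideal.zero_eq_bot, Ideal.relNorm_eq_bot_iff] at hI
      exact t.ne_bot hI
    · exact dec_relNorm hS t ((hSL t).1 h)
  obtain ⟨A, h1, h2, h3⟩ := aux F L hodd S (T ∪ SL) hdec
  refine ⟨A, ?_, ?_, h3⟩
  · rw [c1, c2]
    rw [card_union_of_disjoint hdisj] at h1
    convert h1 using 2
    ring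
  · intro α hα
    obtain ⟨k1, k2, k3⟩ := h2 α hα
    refine ⟨k1, k2, fun 𝔓 h𝔓 hw => k3 𝔓 fun h => ?_⟩
    rcases mem_union.1 h with h | h
    · exact h𝔓 h
    · exact hw ((hSL 𝔓).1 h)

end Pool.Agent.H18N.UNIW
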