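import Pool.Agent.N783.PF.Final
import Pool.Agent.H68K.PR.FinalT
import Pool.Agent.H10PR.Eul
import Pool.Agent.H42PR.Lin2
import Pool.Agent.H42PR.Bin
import Pool.Agent.H18G.LIN5
import Pool.Agent.H18G.REALX
import Pool.Agent.H18G.CMPG
import Pool.Agent.H18G.CQNG
import Pool.Agent.H18N.INTW
import Pool.Agent.H18N.EXQW
import Pool.Agent.H18N.CSQW
import Pool.Agent.H18N.RAMW
import Pool.Agent.H18N.PARW
import Pool.Agent.H18N.PARQW
import Pool.Agent.H18N.RNQW
import Pool.Agent.H18N.ISOW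
import Pool.Agent.H18N.ISO3
import Pool.Agent.H18N.HQW
import Pool.Agent.H18N.RECW
import Pool.Agent.H18N.REC2W
import Pool.Agent.H18N.LOCW
import Pool.Agent.H18N.UNIW
import Pool.Agent.H18N.LSQ
import Pool.Agent.H18N.LCT
import Pool.Agent.H18N.BIGW
import Pool.Agent.H18N.COREW
import Pool.Agent.H18N.LBTW
import Pool.Agent.H18N.BALW
import Pool.Agent.H18N.FAMNW
import Pool.Agent.H18N.SQFW
import Pool.Agent.H18N.REGW
import Pool.Agent.H18N.DSJW
import Pool.Agent.H18N.LOCX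
import Pool.Agent.H18N.NSW
import Pool.Agent.H18N.FAMD
import Pool.Agent.H18N.RELS
import Pool.Agent.H18N.ADMW
import Pool.Agent.H18N.EXVW
import Pool.Agent.H18N.STEPW

/-!
# Assembly of project JN (helper18, helper68): the law in every class
-/

set_option autoImplicit false
set_option linter.all false

open Polynomial IsDedekindDomain NumberField
open scoped Classical

namespace Pool.Agent.H18N

open Pool.Agent.N783.PF (S_TRP S_TRR)

theorem a_EXQW : S_EXQW := EXQW.t INTW.t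
theorem a_CSQW : S_CSQW := CSQW.t INTW.t
theorem a_PARW : S_PARW := PARW.t INTW.t
theorem a_PARQW : S_PARQW := PARQW.t INTW.t a_EXQW
theorem a_RNQW : S_RNQW := RNQW.t INTW.t
theorem a_ISOW : S_ISOW := ISOW.t INTW.t
theorem a_HQW : S_HQW := HQW.t Pool.Agent.N783.PF.tfq INTW.t a_EXQW a_CSQW

theorem a_TRP : S_TRP :=
  Pool.Agent.N935.PF.TRP.trp Pool.Agent.N286.PF.hvg Pool.Agent.N286.PF.hvc
theorem a_TRR : S_TRR := Pool.Agent.N783.PF.R2.trr Pool.Agent.N286.PF.hvg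

theorem a_RECW : S_RECW :=
  RECW.t Pool.Agent.N286.PF.hvg a_TRP a_TRR Pool.Agent.N591.PF.iso1 a_ISOW a_HQW

theorem a_REC2W : S_REC2W := REC2W.t Pool.Agent.N286.PF.hvg a_TRP a_TRR a_ISOW a_HQW

theorem a_LOCW : S_LOCW :=
  LOCW.t a_PARW a_PARQW RAMW.t a_CSQW a_EXQW Pool.Agent.N459.PF.lie

theorem a_LOCX : S_LOCX := LOCX.t LCT.t

theorem a_BIGW : S_BIGW := BIGW.t UNIW.t a_RNQW a_LOCX Pool.Agent.H18G.REALX.t

theorem a_NSW : S_NSW := NSW.t INTW.t a_EXQW

theorem a_COREW : S_COREW :=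
  COREW.t Pool.Agent.H18G.LIN5.t a_BIGW a_REC2W a_EXQW a_NSW a_RECW

theorem a_LBTW : S_LBTW := LBTW.t Pool.Agent.N707.PF.MAJ.maj Pool.Agent.N482.PF.sq INTW.t

theorem a_SQFW : S_SQFW :=
  SQFW.t Pool.Agent.N225.PF.nbr Pool.Agent.N783.PF.lb Pool.Agent.N352.PF.dscT
    Pool.Agent.N667.PF.gen

theorem a_BALW : S_BALW :=
  BALW.t (Pool.Agent.H68K.PR.law4 Pool.Agent.H68K.PR.mixT Pool.Agent.H42PR.Lin2.lin2)
    Pool.Agent.H42PR.Lin2.lin2 Pool.Agent.H42PR.Bin.bin a_COREW a_LBTW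
    Pool.Agent.H18G.CQNG.t FAMD.t Pool.Agent.N783.PF.bad a_SQFW Pool.Agent.N667.PF.gen
    Pool.Agent.N490.PF.pts

theorem a_FAMNW (hE : S_EXVW) : S_FAMNW :=
  FAMNW.t a_BALW hE REGW.t Pool.Agent.H18G.CMPG.t DSJW.t Pool.Agent.H10PR.eul

/-- The law of the relaxed Selmer groups in every class. -/
theorem famn : S_FAMNW := a_FAMNW EXVW.t

/-- From the relaxed Selmer group to the Selmer group of the twist. -/
theorem rels : S_RELS := RELS.t a_LOCW

/-- All admissible extensions. -/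
theorem admw : S_ADMW := ADMW.t

/-- Infinitely many admissible quadratic steps. -/
theorem stepw : S_STEPW := STEPW.t

end Pool.Agent.H18N
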