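import Pool.Agent.H18N.CLSWa

/-!
# Project JN, part CLSX (helper72): tools
-/

set_option autoImplicit false
set_option linter.all false

open Polynomial NumberField IsDedekindDomain
open scoped Classical

namespace Pool.Agent.H18N.CLSXa

open Pool.Agent.N783.PF Pool.Agent.H18N.CLSWa

section ring

variable {R : Type*} [CommRing R]

/-- the separable trinomial -/
noncomputable def tri (n : ℕ) (a : ℤ) (R : Type*) [CommRing R] : R[X] :=
  X ^ n + C ((a : ℤ) : R) * X + 1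

theorem tri_coeff {n : ℕ} (hn : 3 ≤ n) (a : ℤ) (j : ℕ) : (tri n a R).coeff j =
    (if j = n then 1 else 0) + (if j = 1 then ((a : ℤ) : R) else 0) + (if j = 0 then 1 else 0) := by
  unfold tri
  rw [coeff_add, coeff_add, coeff_X_pow, coeff_C_mul, coeff_X, coeff_one]
  congr 2
  by_cases h : j = 1
  · subst h; simp
  · rw [if_neg (Ne.symm h), if_neg h, mul_zero]

theorem tri_map {S : Type*} [CommRing S] (φ : R →+* S) (n : ℕ) (a : ℤ) :
    (tri n a R).map φ = tri n a S := by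
  unfold tri
  simp

theorem unit_of_coprime {q m : ℤ} (h : IsCoprime m q) (hq : ((q : ℤ) : R) = 0) :
    IsUnit ((m : ℤ) : R) := by
  obtain ⟨x, y, hxy⟩ := h
  have h1 : ((x : ℤ) : R) * ((m : ℤ) : R) = 1 := by
    have h2 := congrArg (fun z : ℤ => (z : R)) hxy
    push_cast at h2
    rw [hq, mul_zero, add_zero] at h2
    exact h2
  exact IsUnit.of_mul_eq_one_right _ h1

/-- separable, the degree prime to the characteristic -/
theorem tri_sep1 {n : ℕ} {q a : ℤ} (hn : 1 ≤ n) (hq : ((q : ℤ) : R) = 0) (hqn : IsCoprime (n : ℤ) q)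
    (ha : q ∣ a) : (tri n a R).Separable := by
  have ha0 : ((a : ℤ) : R) = 0 := by
    obtain ⟨c, hc⟩ := ha
    rw [hc, Int.cast_mul, hq, zero_mul]
  have hu : IsUnit (((n : ℤ)) : R) := unit_of_coprime hqn hq
  obtain ⟨m, rfl⟩ : ∃ m, n = m + 1 := ⟨n - 1, by omega⟩
  have e1 : tri (m + 1) a R = X ^ (m + 1) + 1 := by
    unfold tri
    rw [ha0, C_0, zero_mul, add_zero]
  have e2 : derivative (tri (m + 1) a R) = C (((m + 1 : ℕ) : ℤ) : R) * X ^ m := by
    rw [e1]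
    simp
  obtain ⟨v, hv⟩ := hu
  refine ⟨1, -C ((v⁻¹ : Rˣ) : R) * X, ?_⟩
  rw [e2, e1, ← hv, one_mul]
  have h3 : C ((v⁻¹ : Rˣ) : R) * C ((v : Rˣ) : R) = 1 := by
    rw [← C_mul, Units.inv_mul, C_1]
  calc (X ^ (m + 1) + 1 : R[X]) + -C ((v⁻¹ : Rˣ) : R) * X * (C ((v : Rˣ) : R) * X ^ m)
      = X ^ (m + 1) + 1 - (C ((v⁻¹ : Rˣ) : R) * C ((v : Rˣ) : R)) * X ^ (m + 1) := by ring
    _ = 1 := by rw [h3]; ring

/-- separable, the degree divisible by the characteristic -/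
theorem tri_sep2 {n : ℕ} {q a : ℤ} (hq : ((q : ℤ) : R) = 0) (hqn : q ∣ (n : ℤ))
    (ha : IsCoprime a q) : (tri n a R).Separable := by
  have hn0 : (n : R) = 0 := by
    obtain ⟨c, hc⟩ := hqn
    have := congrArg (fun z : ℤ => (z : R)) hc
    push_cast at this
    rw [this, hq, zero_mul]
  have hu : IsUnit (((a : ℤ)) : R) := unit_of_coprime ha hq
  have e2 : derivative (tri n a R) = C ((a : ℤ) : R) := by
    unfold tri
    rw [derivative_add, derivative_add, derivative_X_pow, derivative_C_mul, derivative_X,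
      derivative_one, hn0, C_0, zero_mul, zero_add, mul_one, add_zero]
  rw [Polynomial.Separable, e2]
  exact (isCoprime_one_right (R := R[X])).of_isCoprime_of_dvd_right (hu.map C).dvd

end ring

/-- the coefficient `a` -/
theorem exists_a (n B : ℕ) : ∃ a : ℤ, ∀ q : ℕ, q.Prime → q ≤ B →
    ((¬ q ∣ n → (q : ℤ) ∣ a) ∧ (q ∣ n → IsCoprime a (q : ℤ))) := by
  refine ⟨((∏ q ∈ (Finset.range (B + 1)).filter (fun q => q.Prime ∧ ¬ q ∣ n), q : ℕ) : ℤ), ?_⟩
  intro q hq hqB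
  constructor
  · intro h
    have h1 : q ∣ ∏ q ∈ (Finset.range (B + 1)).filter (fun q => q.Prime ∧ ¬ q ∣ n), q :=
      Finset.dvd_prod_of_mem (fun q : ℕ => q)
        (Finset.mem_filter.2 ⟨Finset.mem_range.2 (by omega), hq, h⟩)
    exact Int.natCast_dvd_natCast.2 h1
  · intro h
    rw [Nat.isCoprime_iff_coprime]
    apply Nat.Coprime.prod_left
    intro l hl
    obtain ⟨_, hl1, hl2⟩ := Finset.mem_filter.1 hl
    exact (Nat.coprime_primes hl1 hq).2 fun h1 => hl2 (h1 ▸ h)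

/-- the product of the small primes outside `N` -/
theorem exists_N (N B : ℕ) : ∃ N' : ℕ, Nat.Coprime N N' ∧ (∀ q : ℕ, q.Prime → q ≤ B → ¬ q ∣ N → q ∣ N') ∧
    ∀ p : ℕ, p.Prime → B < p → Nat.Coprime N' p := by
  refine ⟨∏ q ∈ (Finset.range (B + 1)).filter (fun q => q.Prime ∧ ¬ q ∣ N), q, ?_, ?_, ?_⟩
  · apply Nat.Coprime.prod_right
    intro l hl
    obtain ⟨_, hl1, hl2⟩ := Finset.mem_filter.1 hl
    exact ((Nat.Prime.coprime_iff_not_dvd hl1).2 hl2).symm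
  · intro q hq hqB h
    exact Finset.dvd_prod_of_mem (fun q : ℕ => q)
      (Finset.mem_filter.2 ⟨Finset.mem_range.2 (by omega), hq, h⟩)
  · intro p hp hpB
    apply Nat.Coprime.prod_left
    intro l hl
    obtain ⟨h0, hl1, hl2⟩ := Finset.mem_filter.1 hl
    have := Finset.mem_range.1 h0
    exact (Nat.coprime_primes hl1 hp).2 (by omega)

/-- the Chinese remainder theorem -/
theorem exists_uv {N N' p : ℕ} (h1 : Nat.Coprime N N') (h2 : Nat.Coprime N p)
    (h3 : Nat.Coprime N' p) : ∃ u v : ℤ, (N : ℤ) ∣ u ∧ (p : ℤ) ∣ u ∧ (N' : ℤ) ∣ u - 1 ∧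
      (N : ℤ) ∣ v ∧ (N' : ℤ) ∣ v ∧ (p : ℤ) ∣ v - 1 := by
  obtain ⟨a, b, hab⟩ := Nat.isCoprime_iff_coprime.2 (Nat.Coprime.mul_left h1 h3.symm)
  obtain ⟨a', b', hab'⟩ := Nat.isCoprime_iff_coprime.2 (Nat.Coprime.mul_left h2 h3)
  push_cast at hab hab'
  refine ⟨a * (N * p), a' * (N * N'), ⟨a * p, by ring⟩, ⟨a * N, by ring⟩, ⟨-b, by linarith⟩,
    ⟨a' * N', by ring⟩, ⟨a' * N, by ring⟩, ⟨-b', by linarith⟩⟩

/-- a prime factor in a prime ideal -/
theorem exists_prime_mem {R : Type*} [CommRing R] {𝔭 : Ideal R} (hp : 𝔭.IsPrime) (m : ℕ)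
    (hm : m ≠ 0) (h : (m : R) ∈ 𝔭) : ∃ q : ℕ, q.Prime ∧ q ∣ m ∧ (q : R) ∈ 𝔭 := by
  induction m using Nat.recOnMul with
  | zero => exact absurd rfl hm
  | one =>
    exfalso
    apply hp.ne_top
    rw [Ideal.eq_top_iff_one]
    simpa using h
  | prime q hq => exact ⟨q, hq, dvd_rfl, h⟩
  | mul a b ha hb =>
    rw [Nat.cast_mul] at h
    have ha0 : a ≠ 0 := fun h0 => hm (by rw [h0, zero_mul])
    have hb0 : b ≠ 0 := fun h0 => hm (by rw [h0, mul_zero])
    rcases hp.mem_or_mem h with h1 | h1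
    · obtain ⟨q, h2, h3, h4⟩ := ha ha0 h1
      exact ⟨q, h2, h3.mul_right _, h4⟩
    · obtain ⟨q, h2, h3, h4⟩ := hb hb0 h1
      exact ⟨q, h2, h3.mul_left _, h4⟩

/-- the exponent -/
theorem not_mem_pow (F : Type) [Field F] [NumberField F] (d : 𝓞 F) (hd : d ≠ 0) :
    ∃ e : ℕ, 1 ≤ e ∧ ∀ 𝔮 : Ideal (𝓞 F), 𝔮.IsPrime → 𝔮 ≠ ⊥ → d ∉ 𝔮 ^ e := by
  refine ⟨Ideal.absNorm (Ideal.span {d}) + 1, by omega, ?_⟩
  intro 𝔮 hq hq0 h
  have h1 : Ideal.absNorm (𝔮 ^ (Ideal.absNorm (Ideal.span {d}) + 1)) ∣ Ideal.absNorm (Ideal.span {d}) :=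
    Ideal.absNorm_dvd_absNorm_of_le ((Ideal.span_singleton_le_iff_mem _).2 h)
  have hM0 : 0 < Ideal.absNorm (Ideal.span {d}) := by
    refine Nat.pos_of_ne_zero fun h => ?_
    rw [Ideal.absNorm_eq_zero_iff, Ideal.span_singleton_eq_bot] at h
    exact hd h
  have h2 := Nat.le_of_dvd hM0 h1
  rw [map_pow] at h2
  have h3 : 2 ≤ Ideal.absNorm 𝔮 := by
    have h4 : Ideal.absNorm 𝔮 ≠ 0 := fun h => hq0 (Ideal.absNorm_eq_zero_iff.1 h)
    have h5 : Ideal.absNorm 𝔮 ≠ 1 := fun h => hq.ne_top (Ideal.absNorm_eq_one_iff.1 h)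
    omega
  have h4 : 2 ^ (Ideal.absNorm (Ideal.span {d}) + 1) ≤
      Ideal.absNorm 𝔮 ^ (Ideal.absNorm (Ideal.span {d}) + 1) := Nat.pow_le_pow_left h3 _
  have h5 : Ideal.absNorm (Ideal.span {d}) + 1 < 2 ^ (Ideal.absNorm (Ideal.span {d}) + 1) :=
    Nat.lt_two_pow_self
  omega

/-- an integer divisible by `q` is zero modulo `𝔭` -/
theorem mk_zero {R : Type*} [CommRing R] {𝔭 : Ideal R} {q : ℕ} (hq : (q : R) ∈ 𝔭) {x : ℤ}
    (hx : (q : ℤ) ∣ x) : Ideal.Quotient.mk 𝔭 (x : R) = 0 := by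
  obtain ⟨c, rfl⟩ := hx
  rw [Ideal.Quotient.eq_zero_iff_mem]
  push_cast
  exact Ideal.mul_mem_right _ _ hq

theorem mk_one {R : Type*} [CommRing R] {𝔭 : Ideal R} {q : ℕ} (hq : (q : R) ∈ 𝔭) {x : ℤ}
    (hx : (q : ℤ) ∣ x - 1) : Ideal.Quotient.mk 𝔭 (x : R) = 1 := by
  have h := mk_zero hq hx
  push_cast at h
  rwa [map_sub, map_one, sub_eq_zero] at h

/-- the combination of the three polynomials -/
theorem comb {F : Type} [Field F] [NumberField F] (n : ℕ) (u v : ℤ) (f₀ r₂ r₃ : (𝓞 F)[X])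
    (hn : 1 ≤ n) (h₀ : f₀.Monic ∧ f₀.natDegree = n ∧ f₀.coeff (n - 1) = 0)
    (h₂ : r₂.Monic ∧ r₂.natDegree = n ∧ r₂.coeff (n - 1) = 0)
    (h₃ : r₃.Monic ∧ r₃.natDegree = n ∧ r₃.coeff (n - 1) = 0) :
    ∃ f₁ : (𝓞 F)[X], f₁.Monic ∧ f₁.natDegree = n ∧ f₁.coeff (n - 1) = 0 ∧
      f₁ = f₀ + C (u : 𝓞 F) * (r₂ - f₀) + C (v : 𝓞 F) * (r₃ - f₀) := by
  refine ⟨_, ?_, ?_, ?_, rfl⟩
  all_goals
    have hc : ∀ j, (f₀ + C (u : 𝓞 F) * (r₂ - f₀) + C (v : 𝓞 F) * (r₃ - f₀)).coeff j =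
      f₀.coeff j + u * (r₂.coeff j - f₀.coeff j) + v * (r₃.coeff j - f₀.coeff j) := by
      intro j
      rw [coeff_add, coeff_add, coeff_C_mul, coeff_C_mul, coeff_sub, coeff_sub]
    have e0 : f₀.coeff n = 1 := by have := h₀.1.coeff_natDegree; rwa [h₀.2.1] at this
    have e2 : r₂.coeff n = 1 := by have := h₂.1.coeff_natDegree; rwa [h₂.2.1] at this
    have e3 : r₃.coeff n = 1 := by have := h₃.1.coeff_natDegree; rwa [h₃.2.1] at this
    have hn1 : (f₀ + C (u : 𝓞 F) * (r₂ - f₀) + C (v : 𝓞 F) * (r₃ - f₀)).coeff n = 1 := by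
      rw [hc, e0, e2, e3]
      ring
    have hle : (f₀ + C (u : 𝓞 F) * (r₂ - f₀) + C (v : 𝓞 F) * (r₃ - f₀)).natDegree ≤ n := by
      rw [natDegree_le_iff_coeff_eq_zero]
      intro j hj
      rw [hc, coeff_eq_zero_of_natDegree_lt (by rw [h₀.2.1]; exact hj),
        coeff_eq_zero_of_natDegree_lt (by rw [h₂.2.1]; exact hj),
        coeff_eq_zero_of_natDegree_lt (by rw [h₃.2.1]; exact hj)]
      ring
  · exact monic_of_natDegree_le_of_coeff_eq_one n hle hn1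
  · exact natDegree_eq_of_le_of_coeff_ne_zero hle (by rw [hn1]; exact one_ne_zero)
  · rw [hc, h₀.2.2, h₂.2.2, h₃.2.2]
    ring

theorem tri_props {R : Type*} [CommRing R] [Nontrivial R] {n : ℕ} (hn : 3 ≤ n) (a : ℤ) :
    (tri n a R).Monic ∧ (tri n a R).natDegree = n ∧ (tri n a R).coeff (n - 1) = 0 := by
  have h1 : (tri n a R).coeff n = 1 := by
    rw [tri_coeff hn, if_pos rfl, if_neg (by omega), if_neg (by omega)]
    ring
  have hle : (tri n a R).natDegree ≤ n := by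
    rw [natDegree_le_iff_coeff_eq_zero]
    intro j hj
    rw [tri_coeff hn, if_neg (by omega), if_neg (by omega), if_neg (by omega)]
    ring
  refine ⟨monic_of_natDegree_le_of_coeff_eq_one n hle h1,
    natDegree_eq_of_le_of_coeff_ne_zero hle (by rw [h1]; exact one_ne_zero), ?_⟩
  rw [tri_coeff hn, if_neg (by omega), if_neg (by omega), if_neg (by omega)]
  ring

/-- the lift of a polynomial modulo `p` -/
theorem lift {R : Type*} [CommRing R] [Nontrivial R] {p : ℕ} [Fact p.Prime] {n : ℕ} (hn : 1 ≤ n)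
    (r : (ZMod p)[X]) (hr1 : r.Monic) (hr3 : r.natDegree = n) (hr4 : r.coeff (n - 1) = 0) :
    ∃ s : R[X], s.Monic ∧ s.natDegree = n ∧ s.coeff (n - 1) = 0 ∧
      ∀ (k : Type) [CommRing k] (φ : R →+* k) (ψ : ZMod p →+* k), s.map φ = r.map ψ := by
  have hcn : r.coeff n = 1 := by have := hr1.coeff_natDegree; rwa [hr3] at this
  have hco : ∀ j, (X ^ n + ∑ i ∈ Finset.range (n - 1), C (((r.coeff i).val : ℕ) : R) * X ^ i :
      R[X]).coeff j = (if j = n then 1 else 0) +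
        (if j < n - 1 then (((r.coeff j).val : ℕ) : R) else 0) := by
    intro j
    rw [coeff_add, coeff_X_pow, finset_sum_coeff]
    congr 1
    simp only [coeff_C_mul_X_pow]
    rw [Finset.sum_ite_eq]
    simp only [Finset.mem_range]
  have h1 : (X ^ n + ∑ i ∈ Finset.range (n - 1), C (((r.coeff i).val : ℕ) : R) * X ^ i :
      R[X]).coeff n = 1 := by
    rw [hco, if_pos rfl, if_neg (by omega), add_zero]
  have hle : (X ^ n + ∑ i ∈ Finset.range (n - 1), C (((r.coeff i).val : ℕ) : R) * X ^ i :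
      R[X]).natDegree ≤ n := by
    rw [natDegree_le_iff_coeff_eq_zero]
    intro j hj
    rw [hco, if_neg (by omega), if_neg (by omega), add_zero]
  refine ⟨_, monic_of_natDegree_le_of_coeff_eq_one n hle h1,
    natDegree_eq_of_le_of_coeff_ne_zero hle (by rw [h1]; exact one_ne_zero), ?_, ?_⟩
  · rw [hco, if_neg (by omega), if_neg (by omega), add_zero]
  · intro k _ φ ψ
    ext j
    rw [coeff_map, coeff_map, hco, map_add]
    rcases lt_trichotomy j (n - 1) with h | h | h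
    · rw [if_neg (by omega), if_pos h, map_zero, zero_add, map_natCast]
      conv_rhs => rw [← ZMod.natCast_zmod_val (r.coeff j)]
      rw [map_natCast]
    · rw [if_neg (by omega), if_neg (by omega), map_zero, zero_add, h, hr4, map_zero]
    · rw [if_neg (by omega : ¬ j < n - 1), map_zero, add_zero]
      by_cases hj : j = n
      · rw [if_pos hj, map_one, hj, hcn, map_one]
      · rw [if_neg hj, map_zero, coeff_eq_zero_of_natDegree_lt (by omega : r.natDegree < j),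
          map_zero]

end Pool.Agent.H18N.CLSXa
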