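import Pool.Agent.H18N.StmA
import Pool.Agent.H18N.CLSXa

/-!
# Project JN, part CLSX (helper72): every residue class contains a good class, irreducible modulo all
primes over a prime number which splits completely
-/

set_option autoImplicit false
set_option linter.all false

open Polynomial NumberField IsDedekindDomain
open scoped Classical

namespace Pool.Agent.H18N.CLSX

open Pool.Agent.N783.PF Pool.Agent.H18N.CLSWa Pool.Agent.H18N.CLSXa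
open Pool.Agent.H14F (SplP exists_splP Spl)

/-- the residue fields are prime fields -/
theorem res_int {F : Type} [Field F] [NumberField F] {p : ℕ} (hp : SplP F p) (𝔭 : Ideal (𝓞 F))
    (h𝔭 : 𝔭.IsPrime) (hm : (p : 𝓞 F) ∈ 𝔭) (x : 𝓞 F) : ∃ m : ℤ, x - (m : 𝓞 F) ∈ 𝔭 := by
  obtain ⟨ip, N₀, _, _, _, _, hs⟩ := hp
  have hbot : 𝔭 ≠ ⊥ := by
    rintro rfl
    rw [Ideal.mem_bot] at hm
    exact ip.out.ne_zero (by exact_mod_cast hm)
  let w : HeightOneSpectrum (𝓞 F) := ⟨𝔭, h𝔭, hbot⟩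
  obtain ⟨Q, hQ⟩ := Pool.Agent.H14F.exists_above (Ω := N₀) w
  have hQp : (p : 𝓞 N₀) ∈ Q.asIdeal := by
    rw [← Pool.Agent.H14F.nat_mem_under (L := F), hQ]
    exact hm
  obtain ⟨φ, hφ⟩ := Pool.Agent.H14F.hom_above Q hQp
  have mem : ∀ y : 𝓞 F, φ (algebraMap (𝓞 F) (𝓞 N₀) y) = 0 ↔ y ∈ w.asIdeal := by
    intro y
    rw [hφ, ← Pool.Agent.H14F.mem_under, hQ]
  obtain ⟨m, hm1⟩ := _root_.W54.ChTor.frob_fixed p _ (hs.frob φ (algebraMap (𝓞 F) (𝓞 N₀) x))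
  obtain ⟨m, rfl⟩ := ZMod.intCast_surjective m
  rw [map_intCast] at hm1
  refine ⟨m, ?_⟩
  show x - (m : 𝓞 F) ∈ w.asIdeal
  rw [← mem, map_sub, map_sub, map_intCast, map_intCast, hm1, sub_self]

theorem t : Pool.Agent.H18N.S_CLSX := by
  intro g K N F _ _ f₀ hg hN hm hd ht
  obtain ⟨p, hpB, hsp⟩ := exists_splP F (N * (2 * g + 1) + K + 2)
  have hp : p.Prime := hsp.choose.out
  haveI : Fact p.Prime := ⟨hp⟩
  have hNle : N ≤ N * (2 * g + 1) := Nat.le_mul_of_pos_right N (by omega)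
  have hgle : 2 * g + 1 ≤ N * (2 * g + 1) := Nat.le_mul_of_pos_left _ hN
  have hNp : Nat.Coprime N p := (Nat.coprime_comm.1 ((Nat.Prime.coprime_iff_not_dvd hp).2 fun h => by
    have h1 := Nat.le_of_dvd hN h
    omega))
  have hgp : Nat.Coprime (2 * g + 1) p := (Nat.coprime_comm.1 ((Nat.Prime.coprime_iff_not_dvd hp).2 fun h => by
    have h1 := Nat.le_of_dvd (by omega) h
    omega))
  obtain ⟨a, ha⟩ := exists_a (2 * g + 1) (K + 2)
  obtain ⟨N', hN1, hN2, hN3⟩ := exists_N N (K + 2)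
  obtain ⟨u, v, hu1, hu2, hu3, hv1, hv2, hv3⟩ := exists_uv hN1 hNp (hN3 p hp (by omega))
  have hn0 : ((2 * g + 1 : ℕ) : ZMod p) ≠ 0 := by
    intro h
    rw [ZMod.natCast_eq_zero_iff] at h
    exact hp.one_lt.ne' (Nat.dvd_one.1 (hgp ▸ Nat.dvd_gcd h dvd_rfl))
  obtain ⟨r, hr1, hr2, hr3, hr4⟩ := Pool.Agent.N738.PJ.exists_irr0 (ZMod p) (2 * g + 1) (by omega) hn0
  obtain ⟨s, hs1, hs2, hs3, hs4⟩ := lift (R := 𝓞 F) (by omega : 1 ≤ 2 * g + 1) r hr1 hr3 hr4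
  have htri := tri_props (R := 𝓞 F) (n := 2 * g + 1) (by omega) a
  obtain ⟨f₁, h1, h2, h3, hf⟩ := comb (F := F) (2 * g + 1) u v f₀ (tri (2 * g + 1) a (𝓞 F)) s (by omega)
    ⟨hm, hd, by simpa using ht⟩ htri ⟨hs1, hs2, hs3⟩
  have h3' : f₁.coeff (2 * g) = 0 := by simpa using h3
  -- the reductions
  have red : ∀ 𝔭 : Ideal (𝓞 F), rd 𝔭 f₁ = rd 𝔭 f₀ +
      C (Ideal.Quotient.mk 𝔭 (u : 𝓞 F)) * (rd 𝔭 (tri (2 * g + 1) a (𝓞 F)) - rd 𝔭 f₀) +
      C (Ideal.Quotient.mk 𝔭 (v : 𝓞 F)) * (rd 𝔭 s - rd 𝔭 f₀) := by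
    intro 𝔭
    rw [hf]
    simp only [rd, Polynomial.map_add, Polynomial.map_mul, Polynomial.map_sub, map_C]
  have cgN : Cg (sp F N) f₁ f₀ := by
    intro j
    rw [← Ideal.Quotient.eq_zero_iff_mem, map_sub]
    have hNm : (N : 𝓞 F) ∈ sp F N := Ideal.mem_span_singleton_self _
    have h4 := congrArg (fun P => P.coeff j) (red (sp F N))
    simp only [mk_zero hNm hu1, mk_zero hNm hv1, C_0, zero_mul, add_zero] at h4
    rw [coeff_map, coeff_map] at h4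
    rw [h4, sub_self]
  have small : ∀ 𝔭 : Ideal (𝓞 F), 𝔭.IsPrime → (N : 𝓞 F) ∉ 𝔭 → ∀ q : ℕ, q.Prime → q ≤ K + 2 →
      (q : 𝓞 F) ∈ 𝔭 → (rd 𝔭 f₁).Separable := by
    intro 𝔭 h𝔭 hN𝔭 q hq hqK hq𝔭
    have hqN : ¬ q ∣ N := by
      intro h
      obtain ⟨c, hc⟩ := h
      apply hN𝔭
      rw [hc, Nat.cast_mul]
      exact Ideal.mul_mem_right _ _ hq𝔭
    have hqN' : (q : ℤ) ∣ (N' : ℤ) := Int.natCast_dvd_natCast.2 (hN2 q hq hqK hqN)
    have h4 := red 𝔭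
    rw [mk_one hq𝔭 (hqN'.trans hu3), mk_zero hq𝔭 (hqN'.trans hv2), C_0, zero_mul, add_zero, C_1,
      one_mul, add_sub_cancel] at h4
    rw [h4, rd, tri_map]
    have hq0 : (((q : ℤ) : ℤ) : 𝓞 F ⧸ 𝔭) = 0 := by
      have := Ideal.Quotient.eq_zero_iff_mem.2 hq𝔭
      rw [map_natCast] at this
      simpa using this
    by_cases hqn : q ∣ 2 * g + 1
    · exact tri_sep2 hq0 (Int.natCast_dvd_natCast.2 hqn) ((ha q hq hqK).2 hqn)
    · refine tri_sep1 (by omega) hq0 ?_ ((ha q hq hqK).1 hqn)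
      rw [Nat.isCoprime_iff_coprime]
      exact ((Nat.Prime.coprime_iff_not_dvd hq).2 hqn).symm
  have irr : ∀ 𝔭 : Ideal (𝓞 F), 𝔭.IsPrime → (p : 𝓞 F) ∈ 𝔭 →
      Irreducible (rd 𝔭 f₁) ∧ (rd 𝔭 f₁).Separable ∧ dsc g f₁ ≠ 0 := by
    intro 𝔭 h𝔭 hp𝔭
    have hbot : 𝔭 ≠ ⊥ := by
      rintro rfl
      rw [Ideal.mem_bot] at hp𝔭
      exact hp.ne_zero (by exact_mod_cast hp𝔭)
    haveI : 𝔭.IsMaximal := h𝔭.isMaximal hbot
    letI : Field (𝓞 F ⧸ 𝔭) := Ideal.Quotient.field 𝔭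
    have hfin : Finite (𝓞 F ⧸ 𝔭) := Ideal.finiteQuotientOfFreeOfNeBot 𝔭 hbot
    have hp0 : ((p : ℕ) : 𝓞 F ⧸ 𝔭) = 0 := by
      have h1 := Ideal.Quotient.eq_zero_iff_mem.2 hp𝔭
      rwa [map_natCast] at h1
    haveI : CharP (𝓞 F ⧸ 𝔭) p := (CharP.charP_iff_prime_eq_zero hp).2 hp0
    let ψ : ZMod p →+* 𝓞 F ⧸ 𝔭 := ZMod.castHom (dvd_refl p) (𝓞 F ⧸ 𝔭)
    have hψ : Function.Bijective ψ := by
      refine ⟨ψ.injective, fun y => ?_⟩
      obtain ⟨x, rfl⟩ := Ideal.Quotient.mk_surjective y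
      obtain ⟨m, hm⟩ := res_int hsp 𝔭 h𝔭 hp𝔭 x
      refine ⟨(m : ZMod p), ?_⟩
      rw [map_intCast]
      rw [← Ideal.Quotient.eq_zero_iff_mem, map_sub, map_intCast, sub_eq_zero] at hm
      exact hm.symm
    have h4 := red 𝔭
    rw [mk_zero hp𝔭 hu2, mk_one hp𝔭 hv3, C_0, zero_mul, add_zero, C_1, one_mul, add_sub_cancel] at h4
    have h5 : rd 𝔭 f₁ = r.map ψ := h4.trans (hs4 _ (Ideal.Quotient.mk 𝔭) ψ)
    have h6 : Irreducible (rd 𝔭 f₁) := by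
      rw [h5]
      have h7 : Irreducible (Polynomial.mapEquiv (RingEquiv.ofBijective ψ hψ) r) :=
        (MulEquiv.irreducible_iff (Polynomial.mapEquiv (RingEquiv.ofBijective ψ hψ))).mpr hr2
      exact h7
    have hsep : (rd 𝔭 f₁).Separable := PerfectField.separable_of_irreducible h6
    refine ⟨h6, hsep, ?_⟩
    intro h
    have hmon : (rd 𝔭 f₁).Monic := h1.map _
    have hdeg : (rd 𝔭 f₁).natDegree = 2 * g + 1 := by rw [rd, h1.natDegree_map, h2]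
    have h7 := dsc_field g (rd 𝔭 f₁) hmon hdeg hsep
    apply h7
    rw [rd, derivative_map, resultant_map_map]
    have h8 : f₁.resultant (derivative f₁) (2 * g + 1) (2 * g) = 0 := h
    rw [h8, map_zero]
  obtain ⟨𝔭, hmax, hp𝔭⟩ := exists_over F p hp
  obtain ⟨i1, i2, i3⟩ := irr 𝔭 hmax.isPrime hp𝔭
  obtain ⟨e, he1, he⟩ := not_mem_pow F (dsc g f₁) i3
  have hw0 : 0 < 2 * N * p * K.factorial := by
    have := Nat.factorial_pos K
    have := hp.pos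
    positivity
  have dd : ∀ x : ℕ, x ∣ 2 * N * p * K.factorial → x ∣ (2 * N * p * K.factorial) ^ e :=
    fun x hx => hx.trans (dvd_pow_self _ (by omega))
  have hpW : p ∣ (2 * N * p * K.factorial) ^ e := dd _ ⟨2 * N * K.factorial, by ring⟩
  refine ⟨(2 * N * p * K.factorial) ^ e, f₁, dd _ ⟨2 * p * K.factorial, by ring⟩,
    dd _ ⟨2 * N * p, by ring⟩, cgN, ⟨h1, h2, h3', by positivity, dd _ ⟨N * p * K.factorial, by ring⟩,
      ⟨𝔭, hmax.isPrime, ?_, i1⟩, ?_⟩, ?_, p, hpW, hsp, fun 𝔭 h𝔭 hp𝔭 => (irr 𝔭 h𝔭 hp𝔭).1⟩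
  · obtain ⟨c, hc⟩ := hpW
    rw [hc, Nat.cast_mul]
    exact Ideal.mul_mem_right _ _ hp𝔭
  · intro 𝔮 hq hq0 hW
    refine ⟨e, he 𝔮 hq hq0, ?_⟩
    rw [Nat.cast_pow] at hW ⊢
    exact Ideal.pow_mem_pow (hq.mem_of_pow_mem e hW) e
  · intro 𝔮 hq hW hN𝔮
    rw [Nat.cast_pow] at hW
    obtain ⟨q, q1, q2, q3⟩ := exists_prime_mem hq _ hw0.ne' (hq.mem_of_pow_mem e hW)
    by_cases hqp : q = p
    · rw [hqp] at q3
      exact (irr 𝔮 hq q3).2.1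
    · refine small 𝔮 hq hN𝔮 q q1 ?_ q3
      have hqN : ¬ q ∣ N := by
        intro h
        obtain ⟨c, hc⟩ := h
        apply hN𝔮
        rw [hc, Nat.cast_mul]
        exact Ideal.mul_mem_right _ _ q3
      rcases (Nat.Prime.dvd_mul q1).1 q2 with h | h
      · rcases (Nat.Prime.dvd_mul q1).1 h with h | h
        · rcases (Nat.Prime.dvd_mul q1).1 h with h | h
          · have := Nat.le_of_dvd (by norm_num) h
            omega
          · exact absurd h hqN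
        · exact absurd ((Nat.prime_dvd_prime_iff_eq q1 hp).1 h) hqp
      · have := (Nat.Prime.dvd_factorial q1).1 h
        omega

end Pool.Agent.H18N.CLSX
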