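import Pool.Agent.H18N.StmA
import Pool.Agent.H18N.INTW
import Pool.Agent.H18N.EXQW
import Pool.Agent.H18N.CSQW
import Pool.Agent.H18N.PARW
import Pool.Agent.H18N.PARQW
import Pool.Agent.H18N.RAMW
import Pool.Agent.H68K.PR.TowC

/-!
# Project JN, part ADMW: admissible extensions, the local conditions

After `H14F/Base.lean`, `H14F/Top.lean`, `H14F/Two.lean` of helper14 (all primes over `W` in place of the
primes over two). Author: helper93.
-/

set_option autoImplicit false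
set_option linter.all false

open Polynomial IsDedekindDomain NumberField UniqueFactorizationMonoid
open scoped Classical Pointwise

namespace Pool.Agent.H18N.ADMW

open Pool.Agent.N783.PF
open Pool.Agent.N783.PQ (LocIm)
open Pool.Agent.N874.JM (LocF)
open Pool.Agent.N874.PP (Ev Sq1 U0)
open Pool.Agent.N692.PMTOW (im sup_top normal_of_top)
open Pool.Agent.H14F
open Pool.Agent.H14U (res res_apply)

theorem intw : S_INTW := Pool.Agent.H18N.INTW.t
theorem exqw : S_EXQW := Pool.Agent.H18N.EXQW.t intw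
theorem csqw : S_CSQW := Pool.Agent.H18N.CSQW.t intw
theorem parw : S_PARW := Pool.Agent.H18N.PARW.t intw
theorem parqw : S_PARQW := Pool.Agent.H18N.PARQW.t intw exqw
theorem ramw : S_RAMW := Pool.Agent.H18N.RAMW.t

/-! ### Primes modulo which `f` is irreducible -/

section pin

open Pool.Agent.N862.PP (cn cn_sum)
open Pool.Agent.N426.PF (toG exists_t fd tf_O perf map_ne mem_nf cn_irr parity)

/-- As `Pool.Agent.N426.PF.pin`; no condition on the discriminant is needed. -/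
theorem pin {F L : Type} [Field F] [NumberField F] [Field L] [NumberField L] [Algebra F L] {g : ℕ}
    {f : (𝓞 F)[X]} {θ : L} (h0 : IsGen g f θ) {𝔭 : Ideal (𝓞 F)} (hp : 𝔭.IsPrime) (hp0 : 𝔭 ≠ ⊥)
    (hf : Irreducible (rd 𝔭 f)) {x : L} (hx : x ≠ 0) (hnx : IsSquare (Algebra.norm F x))
    (𝔓 : HeightOneSpectrum (𝓞 L)) (hov : Ov 𝔭 𝔓) : Ev 𝔓 x := by
  have h := toG h0
  obtain ⟨t, ht⟩ := exists_t (O := 𝓞 L) h
  have hfin : Module.Finite (𝓞 F) (𝓞 L) := Pool.Agent.H18N.PARQW.fin_O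
  have htf : Module.IsTorsionFree (𝓞 F) (𝓞 L) := tf_O (K := F) (L := L)
  have hfd := fd h
  have hI := map_ne (L := L) hp0
  have hsum := Pool.Agent.H18N.PARQW.cn_map' h0 hp hp0
  rw [cn_sum _ hI] at hsum
  have hterm : ∀ 𝔔 : HeightOneSpectrum (𝓞 L), Ov 𝔭 𝔔 →
      𝔔.asIdeal ∈ (normalizedFactors (𝔭.map (algebraMap (𝓞 F) (𝓞 L)))).toFinset ∧
      cn (𝓞 F) 𝔭 𝔔.asIdeal ≤ (normalizedFactors (𝔭.map (algebraMap (𝓞 F) (𝓞 L)))).count
        𝔔.asIdeal * cn (𝓞 F) 𝔭 𝔔.asIdeal := by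
    intro 𝔔 h𝔔
    have h1 := (mem_nf hI 𝔔).2 h𝔔
    refine ⟨Multiset.mem_toFinset.2 h1, ?_⟩
    exact Nat.le_mul_of_pos_left _ (Multiset.count_pos.2 h1)
  have hle : ∀ 𝔔 : HeightOneSpectrum (𝓞 L), Ov 𝔭 𝔔 → cn (𝓞 F) 𝔭 𝔔.asIdeal = 2 * g + 1 := by
    intro 𝔔 h𝔔
    obtain ⟨h1, h2⟩ := hterm 𝔔 h𝔔
    have h3 := Finset.single_le_sum (f := fun J => (normalizedFactors (𝔭.map
      (algebraMap (𝓞 F) (𝓞 L)))).count J * cn (𝓞 F) 𝔭 J) (fun i _ => Nat.zero_le _) h1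
    rw [hsum] at h3
    have h4 := cn_irr h0 ht hp hp0 hf h𝔔
    omega
  refine parity hp hp0 𝔓 (by rw [hle 𝔓 hov]; exact ⟨g, rfl⟩) hx hnx fun 𝔔 ho hne => ?_
  exfalso
  obtain ⟨h1, h2⟩ := hterm 𝔓 hov
  obtain ⟨h3, h4⟩ := hterm 𝔔 ho
  have hne' : 𝔔.asIdeal ≠ 𝔓.asIdeal := fun h' => hne (HeightOneSpectrum.ext h')
  have h5 : ∑ J ∈ {𝔔.asIdeal, 𝔓.asIdeal}, (normalizedFactors (𝔭.map
      (algebraMap (𝓞 F) (𝓞 L)))).count J * cn (𝓞 F) 𝔭 J ≤
      ∑ J ∈ (normalizedFactors (𝔭.map (algebraMap (𝓞 F) (𝓞 L)))).toFinset, (normalizedFactors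
        (𝔭.map (algebraMap (𝓞 F) (𝓞 L)))).count J * cn (𝓞 F) 𝔭 J := by
    refine Finset.sum_le_sum_of_subset ?_
    intro J hJ
    rw [Finset.mem_insert, Finset.mem_singleton] at hJ
    rcases hJ with rfl | rfl
    · exact h3
    · exact h1
  rw [Finset.sum_pair hne', hsum] at h5
  rw [hle 𝔓 hov] at h2 h5
  rw [hle 𝔔 ho] at h4 h5
  omega

end pin

/-! ### The data -/

/-- The data over `F` and `L`. -/
structure Dt {F L : Type} [Field F] [NumberField F] [Field L] [NumberField L] [Algebra F L]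
    (g W : ℕ) (f : (𝓞 F)[X]) (θ : L) (S J : Finset ℕ) (𝔮 : ℕ → Ideal (𝓞 F))
    (r P : ℕ → (𝓞 F)[X]) : Prop where
  hg : 1 ≤ g
  gen : IsGen g f θ
  sqw : SqW g W f
  gs : GoodS g W S 𝔮 r P
  one : ∀ q ∈ S, q ≡ 1 [MOD W]
  con : ∀ q ∈ S, Cg (sp F q) f (P q)
  sub : J ⊆ S

section

variable {F L M Ω : Type} [Field F] [NumberField F] [Field L] [NumberField L] [Field M]
  [NumberField M] [Field Ω] [NumberField Ω] [Algebra F L] [Algebra F M] [Algebra L Ω]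
  [Algebra M Ω] [Algebra F Ω] [IsScalarTower F L Ω] [IsScalarTower F M Ω] [IsGalois F M]

variable {g W : ℕ} {f : (𝓞 F)[X]} {θ : L} {S J : Finset ℕ} {𝔮 : ℕ → Ideal (𝓞 F)}
  {r P : ℕ → (𝓞 F)[X]}

theorem Dt.cq (D : Dt g W f θ S J 𝔮 r P) : ∀ q ∈ S, Cg (𝔮 q) f (X * r q) := by
  intro q hq j
  obtain ⟨-, -, -, -, -, -, a2, -, -, -, -, -, -, a3, -⟩ := D.gs q hq
  have b1 := Pool.Agent.N78.PF.sp_le (F := F) a2 (D.con q hq j)
  have b2 := a3 j
  have := Ideal.add_mem _ b1 b2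
  simpa using this

theorem Dt.ne_bot (D : Dt g W f θ S J 𝔮 r P) : ∀ q ∈ S, 𝔮 q ≠ ⊥ := by
  intro q hq h0
  obtain ⟨a1, -, -, -, -, -, a2, -⟩ := D.gs q hq
  rw [h0, Ideal.mem_bot] at a2
  exact a1.ne_zero (by exact_mod_cast a2)

theorem Dt.eight (D : Dt g W f θ S J 𝔮 r P) : Dp J % 8 = 1 := by
  have : ∀ T : Finset ℕ, T ⊆ S → (∏ q ∈ T, q) % 8 = 1 := by
    intro T
    induction T using Finset.induction_on with
    | empty => intro _; rfl
    | insert a T ha ih =>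
      intro hT
      rw [Finset.prod_insert ha, Nat.mul_mod, ih fun x hx => hT (Finset.mem_insert_of_mem hx),
        (D.gs a (hT (Finset.mem_insert_self _ _))).2.2.2.1]
  exact this J D.sub

theorem Dt.modW (D : Dt g W f θ S J 𝔮 r P) : Dp J ≡ 1 [MOD W] := by
  have : ∀ T : Finset ℕ, T ⊆ S → (∏ q ∈ T, q) ≡ 1 [MOD W] := by
    intro T
    induction T using Finset.induction_on with
    | empty => intro _; rfl
    | insert a T ha ih =>
      intro hT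
      rw [Finset.prod_insert ha]
      exact (D.one a (hT (Finset.mem_insert_self _ _))).mul
        (ih fun x hx => hT (Finset.mem_insert_of_mem hx))
  exact this J D.sub

theorem Dt.dp_ne (D : Dt g W f θ S J 𝔮 r P) : Dp J ≠ 0 := by
  rw [Dp, Finset.prod_ne_zero_iff]
  exact fun q hq => ((D.gs q (D.sub hq)).1).ne_zero

/-- the primes over `q` in `J` -/
theorem Dt.evq (D : Dt g W f θ S J 𝔮 r P) {x : L} (hx : x ≠ 0)
    (hN : IsSquare (Algebra.norm F x)) {𝔓 : HeightOneSpectrum (𝓞 L)} {q : ℕ} (hq : q ∈ J)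
    (hqw : (q : 𝓞 F) ∈ (𝔓.under (𝓞 F)).asIdeal) (h𝔓 : Ov (𝔮 q) 𝔓 → 𝔓.valuation L θ ≠ 1) :
    Ev 𝔓 x := by
  have hqS := D.sub hq
  by_cases cw : (𝔓.under (𝓞 F)).asIdeal = 𝔮 q
  · have o1 : Ov (𝔮 q) 𝔓 := by
      rw [← cw]
      exact fun a ha => ha
    have v1 : 𝔓.valuation L θ < 1 :=
      lt_of_le_of_ne (Pool.Agent.N78.PF.val_theta D.gen 𝔓) (h𝔓 o1)
    exact parqw g W F L f θ S 𝔮 r P D.hg D.gen D.sqw D.gs q hqS (D.cq q hqS) _ hx hN 𝔓 o1 v1
  · have e1 := Pool.Agent.N78.PF.rd_eq (Pool.Agent.N78.PF.sp_le hqw) (D.con q hqS)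
    obtain ⟨-, -, -, -, -, -, -, -, -, -, -, -, -, -, a1⟩ := D.gs q hqS
    exact pin D.gen (𝔓.under (𝓞 F)).isPrime (𝔓.under (𝓞 F)).ne_bot
      (by rw [e1]; exact a1 _ (𝔓.under (𝓞 F)).isPrime hqw cw) hx hN 𝔓 (fun a ha => ha)

theorem two_of_W (D : Dt g W f θ S J 𝔮 r P) {R : Type} [CommRing R] {I : Ideal R}
    (h : (2 : R) ∈ I) : (W : R) ∈ I := by
  obtain ⟨k, hk⟩ := D.sqw.two
  rw [hk]
  push_cast
  exact Ideal.mul_mem_right _ _ h

theorem base (D : Dt g W f θ S J 𝔮 r P) (htop : im F M Ω ⊔ im F L Ω = ⊤)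
    (hq : ∀ q ∈ J, ∀ w : HeightOneSpectrum (𝓞 M), Ov (𝔮 q) w → Tot F w)
    (hram : ∀ w : HeightOneSpectrum (𝓞 M), ¬ Unr F w →
      Irreducible (rd (w.under (𝓞 F)).asIdeal f)) {x : L} (hx : x ≠ 0)
    (hN : IsSquare (Algebra.norm F x))
    (hC : Cnd J 𝔮 (algebraMap L Ω θ) (algebraMap L Ω (aeval θ (derivative (fF f))))
      (algebraMap L Ω x)) :
    (∀ 𝔓 : HeightOneSpectrum (𝓞 L), (W : 𝓞 L) ∉ 𝔓.asIdeal →
      (∀ q ∈ J, Ov (𝔮 q) 𝔓 → 𝔓.valuation L θ ≠ 1) → Ev 𝔓 x) ∧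
    ∀ q ∈ J, ∀ 𝔓 : HeightOneSpectrum (𝓞 L), Ov (𝔮 q) 𝔓 → 𝔓.valuation L θ = 1 →
      U0 𝔓 ((q : L) * θ) x := by
  haveI : Normal L Ω := normal_of_top (K := F) (L := L) (M := M) (Ω := Ω) htop
  haveI : IsGalois L Ω := {}
  refine ⟨fun 𝔓 hW h𝔓 => ?_, fun q hqJ 𝔓 h1 h2 => ?_⟩
  · have hW' : (W : 𝓞 F) ∉ (𝔓.under (𝓞 F)).asIdeal := by
      rw [nat_mem_under]
      exact hW
    have c2 : (2 : 𝓞 F) ∉ (𝔓.under (𝓞 F)).asIdeal := fun h => hW' (two_of_W D h)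
    by_cases cq : ∃ q ∈ J, (q : 𝓞 F) ∈ (𝔓.under (𝓞 F)).asIdeal
    · obtain ⟨q, hqJ, hqw⟩ := cq
      exact D.evq hx hN hqJ hqw (h𝔓 q hqJ)
    push Not at cq
    by_cases cr : ∃ w : HeightOneSpectrum (𝓞 M), w.under (𝓞 F) = 𝔓.under (𝓞 F) ∧ ¬ Unr F w
    · obtain ⟨w, hw, hr⟩ := cr
      have h3 := hram w hr
      rw [hw] at h3
      exact pin D.gen (𝔓.under (𝓞 F)).isPrime (𝔓.under (𝓞 F)).ne_bot h3
        hx hN 𝔓 (fun a ha => ha)
    push Not at cr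
    have key : ∀ 𝔓₁ : HeightOneSpectrum (𝓞 L), 𝔓₁.under (𝓞 F) = 𝔓.under (𝓞 F) →
        𝔓₁.valuation L (aeval θ (derivative (fF f))) = 1 → Ev 𝔓₁ x := by
      intro 𝔓₁ hu hv1
      obtain ⟨𝔓', h𝔓'⟩ := exists_above (Ω := Ω) 𝔓₁
      have hw : (𝔓'.under (𝓞 M)).under (𝓞 F) = 𝔓.under (𝓞 F) := by
        rw [← under_under (L := L), h𝔓', hu]
      have hun := unr_comp htop (cr _ hw)
      have hval := unr_val hun
      rw [h𝔓'] at hval
      rw [← ev_down hval]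
      refine hC.ev 𝔓' ?_ ?_ (by rw [hval]; exact hv1)
      · intro h
        apply c2
        rw [← hu, ← h𝔓']
        have e2 := nat_mem_under (L := L) 𝔓' 2
        have e3 := nat_mem_under (L := F) (𝔓'.under (𝓞 L)) 2
        rw [Nat.cast_ofNat, Nat.cast_ofNat] at e2 e3
        rw [e3, e2]
        exact h
      · intro q hqJ h
        apply cq q hqJ
        rw [← hu, ← h𝔓', nat_mem_under (L := F), nat_mem_under (L := L)]
        exact h
    by_cases cu : 𝔓.valuation L (aeval θ (derivative (fF f))) = 1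
    · exact key 𝔓 rfl cu
    · have v1 : 𝔓.valuation L (aeval θ (derivative (fF f))) < 1 :=
        lt_of_le_of_ne (Pool.Agent.N78.PF.val_der D.gen 𝔓) cu
      obtain ⟨⟨c, hc⟩, hother⟩ := ramw g W F L f θ D.gen D.sqw _ (𝔓.under (𝓞 F)).isPrime
        (𝔓.under (𝓞 F)).ne_bot hW' 𝔓 (fun a ha => ha) v1
      refine parw g W F L f θ D.gen D.sqw _ (𝔓.under (𝓞 F)).isPrime (𝔓.under (𝓞 F)).ne_bot hW' 𝔓 c
        (fun a ha => ha) hc _ hx hN ?_
      intro 𝔓₁ o1 n1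
      refine key 𝔓₁ ?_ (hother 𝔓₁ o1 n1)
      ext1
      exact (Pool.Agent.N78.PF.eq_of_ov (𝔓.under (𝓞 F)).isPrime (𝔓.under (𝓞 F)).ne_bot o1
        (w := 𝔓₁.under (𝓞 F)) (fun a => Iff.rfl)).symm
  · obtain ⟨𝔓', h𝔓'⟩ := exists_above (Ω := Ω) 𝔓
    have hw : Ov (𝔮 q) (𝔓'.under (𝓞 M)) := by
      intro a ha
      have h3 := h1 a ha
      have h4 : a ∈ (𝔓.under (𝓞 F)).asIdeal := h3
      rw [← h𝔓', under_under (M := M)] at h4
      exact h4
    have htot := tot_comp htop (hq q hqJ _ hw)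
    have hval := unr_val htot.unr
    rw [h𝔓'] at hval
    have hd := tot_dens htot
    have hQ' : Ov (𝔮 q) 𝔓' := by
      intro a ha
      have h3 := hw a ha
      have e : algebraMap (𝓞 F) (𝓞 Ω) a = algebraMap (𝓞 M) (𝓞 Ω) (algebraMap (𝓞 F) (𝓞 M) a) := by
        apply RingOfIntegers.ext
        show algebraMap F Ω (a : F) = algebraMap M Ω (algebraMap F M (a : F))
        rw [← IsScalarTower.algebraMap_apply F M Ω]
      rw [e]
      exact h3
    have h3 := hC.u0 q hqJ 𝔓' hQ' (by rw [hval]; exact h2)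
    refine ⟨fun h4 => sq_down hval hd (h3.1 ((ev_down hval x).2 h4)), fun h4 => ?_⟩
    have h5 := h3.2 fun h6 => h4 ((ev_down hval x).1 h6)
    have e : algebraMap L Ω x * ((q : Ω) * algebraMap L Ω θ) =
        algebraMap L Ω (x * ((q : L) * θ)) := by
      rw [map_mul, map_mul, map_natCast]
    rw [e] at h5
    exact sq_down hval hd h5

/-! ### The conditions over the extension -/

theorem top_cnd (D : Dt g W f θ S J 𝔮 r P) (htop : im F M Ω ⊔ im F L Ω = ⊤)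
    (hq : ∀ q ∈ J, ∀ w : HeightOneSpectrum (𝓞 M), Ov (𝔮 q) w → Tot F w)
    (hG : IsGen g (up M f) (algebraMap L Ω θ)) {h : M[X]}
    (hne : aeval ((Dp J : Ω) * algebraMap L Ω θ) h ≠ 0)
    (hloc : ∀ w : HeightOneSpectrum (𝓞 M),
      LocF (w.adicCompletion M) (fF ((up M f).scaleRoots ((Dp J : ℕ) : 𝓞 M))) h) :
    Cnd J 𝔮 (algebraMap L Ω θ) (algebraMap L Ω (aeval θ (derivative (fF f))))
      (aeval ((Dp J : Ω) * algebraMap L Ω θ) h) := by
  haveI : Normal L Ω := normal_of_top (K := F) (L := L) (M := M) (Ω := Ω) htop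
  haveI : IsGalois L Ω := {}
  obtain ⟨E, hE⟩ : ∃ E : ℕ, E = Dp J := ⟨_, rfl⟩
  rw [← hE] at hne hloc ⊢
  have hder : algebraMap L Ω (aeval θ (derivative (fF f))) =
      aeval (algebraMap L Ω θ) (derivative (fF (up M f))) := by
    have e1 : derivative (fF (up M f)) = (derivative (fF f)).map (algebraMap F M) := by
      rw [fF_up, derivative_map]
    rw [e1, aeval_map_algebraMap, aeval_algebraMap_apply]
  refine ⟨fun 𝔓 h2 hJ h3 => ?_, fun q hqJ 𝔓 o1 v1 => ?_⟩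
  · have hL := lies_under (L := M) 𝔓
    have h2' : (2 : 𝓞 M) ∉ (𝔓.under (𝓞 M)).asIdeal := by
      have e2 := nat_mem_under (L := M) 𝔓 2
      rw [Nat.cast_ofNat, Nat.cast_ofNat] at e2
      rw [e2]
      exact h2
    have hE' : (E : 𝓞 M) ∉ (𝔓.under (𝓞 M)).asIdeal := by
      rw [nat_mem_under, hE, Dp, Nat.cast_prod]
      intro hd
      haveI := 𝔓.isPrime
      obtain ⟨q, hq, hqw⟩ := (Ideal.IsPrime.prod_mem_iff).1 hd
      exact hJ q hq hqw
    rw [hder] at h3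
    exact Pool.Agent.N78.PF.ev_unit hG hL h2' hE' h h3 (hloc _) hne
  · have hqS := D.sub hqJ
    obtain ⟨o2, o3⟩ := ov_under (L := L) (M := M) o1
    have htot := hq q hqJ _ o2
    have htot' := tot_comp htop htot
    have hval := unr_val htot'.unr
    obtain ⟨a1, a2, a3, a4, a5, a6, a7, a8, a9, a10, a11, a12, a13, a14, a15⟩ := D.gs q hqS
    have hL := lies_under (L := M) 𝔓
    haveI : Finite (𝓞 M ⧸ (𝔓.under (𝓞 M)).asIdeal) :=
      Ideal.finiteQuotientOfFreeOfNeBot _ (𝔓.under (𝓞 M)).ne_bot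
    haveI : Finite (𝓞 Ω ⧸ 𝔓.asIdeal) := Ideal.finiteQuotientOfFreeOfNeBot _ 𝔓.ne_bot
    have eq1 : 𝔮 q = ((𝔓.under (𝓞 M)).under (𝓞 F)).asIdeal := eq_of_ov' a6 (D.ne_bot q hqS) o2
    -- natural numbers
    have nat_mem : ∀ p : ℕ, p.Prime → p ≠ q → (p : 𝓞 M) ∉ (𝔓.under (𝓞 M)).asIdeal := by
      intro p hp hpq hpm
      have hpm' : (p : 𝓞 F) ∈ 𝔮 q := by
        rw [eq1, nat_mem_under]
        exact hpm
      have hco : Nat.Coprime p q := (Nat.coprime_primes hp a1).2 hpq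
      obtain ⟨u, v, huv⟩ := (Nat.isCoprime_iff_coprime.2 hco)
      apply a6.ne_top
      rw [Ideal.eq_top_iff_one]
      have h9 : (1 : 𝓞 F) = (u : 𝓞 F) * (p : 𝓞 F) + (v : 𝓞 F) * (q : 𝓞 F) := by
        have := congrArg (Int.cast (R := 𝓞 F)) huv
        push_cast at this
        exact this.symm
      rw [h9]
      exact Ideal.add_mem _ (Ideal.mul_mem_left _ _ hpm') (Ideal.mul_mem_left _ _ a7)
    obtain ⟨E', hE'⟩ : ∃ E' : ℕ, E' = ∏ p ∈ J.erase q, p := ⟨_, rfl⟩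
    have hDD : E = q * E' := by
      rw [hE, hE']
      exact (Finset.mul_prod_erase J (fun P => P) hqJ).symm
    have hE'm : (E' : 𝓞 M) ∉ (𝔓.under (𝓞 M)).asIdeal := by
      intro hd
      rw [hE', Nat.cast_prod] at hd
      haveI := (𝔓.under (𝓞 M)).isPrime
      obtain ⟨p, hp, hpm⟩ := (Ideal.IsPrime.prod_mem_iff).1 hd
      have hp' := Finset.mem_erase.1 hp
      exact nat_mem p ((D.gs p (D.sub hp'.2)).1) hp'.1 hpm
    have v2 : (𝔓.under (𝓞 M)).valuation M 2 = 1 := by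
      have h2w := nat_mem 2 Nat.prime_two (by omega)
      rw [Nat.cast_ofNat] at h2w
      have := Pool.Agent.N78.PF.val_one h2w
      rwa [Pool.Agent.N78.PF.two_cast] at this
    have vE' : (𝔓.under (𝓞 M)).valuation M (E' : M) = 1 := by
      have := Pool.Agent.N78.PF.val_one hE'm
      simpa using this
    -- the prime of `L`
    have v1' : (𝔓.under (𝓞 L)).valuation L θ = 1 := by rw [← hval]; exact v1
    obtain ⟨𝔓₁, 𝔓₂, e1, e2, e3, e4, e5, e6, e7⟩ :=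
      exqw g W F L f θ S 𝔮 r P D.hg D.gen D.sqw D.gs q hqS (D.cq q hqS)
    have vq : 𝔓.valuation Ω (algebraMap M Ω (q : M)) = WithZero.exp (-1 : ℤ) := by
      rw [map_natCast, ← map_natCast (algebraMap L Ω) q, hval]
      rcases e7 (𝔓.under (𝓞 L)) o3 with h | h
      · rw [h]; exact e5
      · rw [h]; exact e6
    obtain ⟨c1, -, -, -⟩ :=
      csqw g W F L f θ S 𝔮 r P D.hg D.gen D.sqw D.gs q hqS (D.cq q hqS) (𝔓.under (𝓞 L)) o3 v1'
    have s1 : Sq1 𝔓 (-1 : Ω) := by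
      have := c1 (-1) (by
        intro hm
        apply a6.ne_top
        rw [Ideal.eq_top_iff_one]
        have := Ideal.neg_mem_iff _ |>.2 hm
        simpa using this)
      have h5 := sq_up hval this
      simpa using h5
    have s2 : Sq1 𝔓 (algebraMap M Ω (E' : M)) := by
      have hE'm' : (E' : 𝓞 F) ∉ 𝔮 q := by
        rw [eq1, nat_mem_under]
        exact hE'm
      have h5 := sq_up hval (c1 (E' : 𝓞 F) hE'm')
      rw [map_natCast]
      simpa using h5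
    have hirr : Irreducible (((r q).map (algebraMap (𝓞 F) (𝓞 M))).map
        (Ideal.Quotient.mk (𝔓.under (𝓞 M)).asIdeal)) := by
      refine irr_mod (tot_res htot) ?_
      rw [← eq1]
      exact a10
    have hl := hloc (𝔓.under (𝓞 M))
    have hmon := up_monic (M := M) D.gen.mon
    rw [Pool.Agent.N78.PF.fF_scale hmon, hDD, Nat.cast_mul] at hl
    have e8 : (E : Ω) = algebraMap M Ω ((q : M) * (E' : M)) := by
      rw [hDD]
      simp
    have e9 : (q : Ω) = algebraMap M Ω (q : M) := by simp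
    rw [e8] at hne ⊢
    rw [e9]
    refine Pool.Agent.N78.PF.LOC2 M Ω (𝓞 M) (𝓞 Ω) (𝔓.under (𝓞 M)) 𝔓 hL v2 g (fF (up M f)) h
      ((r q).map (algebraMap (𝓞 F) (𝓞 M))) (q : M) (E' : M) (algebraMap L Ω θ) D.hg (hmon.map _)
      ?_ (a8.map _) ?_ hirr ?_ hG.root v1 vq vE' s1 s2 hl hne
    · rw [hmon.natDegree_map, up_deg D.gen.mon, D.gen.deg]
    · rw [a8.natDegree_map, a9]
    · intro j
      rw [coeff_map, ← map_sub]
      refine (HeightOneSpectrum.valuation_lt_one_iff_mem (K := M) (𝔓.under (𝓞 M)) _).2 ?_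
      have e10 : (up M f).coeff j - (X * (r q).map (algebraMap (𝓞 F) (𝓞 M))).coeff j =
          algebraMap (𝓞 F) (𝓞 M) (f.coeff j - (X * r q).coeff j) := by
        rw [map_sub, up, coeff_map, ← coeff_map (algebraMap (𝓞 F) (𝓞 M)) (p := X * r q),
          Polynomial.map_mul, map_X]
      rw [e10, ← mem_under, ← eq1]
      exact D.cq q hqS j

end

end Pool.Agent.H18N.ADMW
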