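import Pool.Agent.N783.PF.Def
import Pool.Agent.N738.PJ.Exs

/-!
# Project JN, part CLSW (helper45): every residue class contains a good class, tools
-/

set_option autoImplicit false
set_option linter.all false

open Polynomial NumberField IsDedekindDomain
open scoped Classical

namespace Pool.Agent.H18N.CLSWa

open Pool.Agent.N783.PF

/-- a prime ideal over a prime number -/
theorem exists_over (F : Type) [Field F] [NumberField F] (l : ℕ) (hl : l.Prime) :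
    ∃ 𝔭 : Ideal (𝓞 F), 𝔭.IsMaximal ∧ (l : 𝓞 F) ∈ 𝔭 := by
  have hne : Ideal.span {(l : 𝓞 F)} ≠ ⊤ := by
    intro h
    have h1 : Ideal.absNorm (Ideal.span {(l : 𝓞 F)}) = 1 := by
      rw [h]
      exact Ideal.absNorm_top
    rw [Ideal.absNorm_span_singleton] at h1
    have h2 : Algebra.norm ℤ ((l : ℕ) : 𝓞 F) = (l : ℤ) ^ Fintype.card
        (Module.Free.ChooseBasisIndex ℤ (𝓞 F)) := by
      have := Algebra.norm_algebraMap_of_basis (RingOfIntegers.basis F) (l : ℤ)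
      simpa using this
    rw [h2, Int.natAbs_pow, Int.natAbs_natCast] at h1
    have h3 : Fintype.card (Module.Free.ChooseBasisIndex ℤ (𝓞 F)) ≠ 0 := by
      rw [← Module.finrank_eq_card_basis (RingOfIntegers.basis F), RingOfIntegers.rank]
      exact Module.finrank_pos.ne'
    rcases Nat.pow_eq_one.1 h1 with h4 | h4
    · exact hl.one_lt.ne' h4
    · exact h3 h4
  obtain ⟨𝔭, h1, h2⟩ := Ideal.exists_le_maximal _ hne
  exact ⟨𝔭, h1, h2 (Ideal.mem_span_singleton_self _)⟩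

/-- Resultant with the formal degrees of a separable monic polynomial over a field. -/
theorem dsc_field {k : Type*} [Field k] (g : ℕ) (f : k[X]) (hm : f.Monic)
    (hd : f.natDegree = 2 * g + 1) (hs : f.Separable) :
    f.resultant (derivative f) (2 * g + 1) (2 * g) ≠ 0 := by
  obtain ⟨j, hj⟩ : ∃ j, 2 * g = (derivative f).natDegree + j := by
    have := natDegree_derivative_le f
    exact ⟨2 * g - (derivative f).natDegree, by omega⟩
  have h4 : f.resultant (derivative f) (2 * g + 1) (2 * g) =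
      f.resultant (derivative f) (2 * g + 1) ((derivative f).natDegree + j) := by rw [← hj]
  rw [h4, resultant_add_right_deg _ _ _ _ _ le_rfl]
  have h5 : f.coeff (2 * g + 1) = 1 := by rw [← hd]; exact hm.coeff_natDegree
  rw [h5, one_pow, one_mul, ← hd]
  exact resultant_ne_zero _ _ hs

/-- a coprime integer is not in the ideal -/
theorem not_mem_of_coprime {F : Type} [Field F] [NumberField F] {𝔭 : Ideal (𝓞 F)} (hp : 𝔭 ≠ ⊤)
    {l m : ℕ} (hl : (l : 𝓞 F) ∈ 𝔭) (h : Nat.Coprime m l) : (m : 𝓞 F) ∉ 𝔭 := by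
  intro hm
  apply hp
  rw [Ideal.eq_top_iff_one]
  have h1 := (Nat.isCoprime_iff_coprime.2 h)
  obtain ⟨a, b, hab⟩ := h1
  have h2 : ((a : ℤ) : 𝓞 F) * (m : 𝓞 F) + ((b : ℤ) : 𝓞 F) * (l : 𝓞 F) = 1 := by
    have := congrArg (fun z : ℤ => (z : 𝓞 F)) hab
    push_cast at this
    exact this
  rw [← h2]
  exact 𝔭.add_mem (𝔭.mul_mem_left _ hm) (𝔭.mul_mem_left _ hl)

/-- the polynomial -/
theorem exists_poly (g N : ℕ) (F : Type) [Field F] [NumberField F] (f₀ : (𝓞 F)[X]) (hg : 1 ≤ g)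
    (hN : 0 < N) (hm : f₀.Monic) (hd : f₀.natDegree = 2 * g + 1) (ht : f₀.coeff (2 * g) = 0) :
    ∃ (l : ℕ) (𝔭 : Ideal (𝓞 F)) (f₁ : (𝓞 F)[X]), l.Prime ∧ 𝔭.IsPrime ∧ (l : 𝓞 F) ∈ 𝔭 ∧
      f₁.Monic ∧ f₁.natDegree = 2 * g + 1 ∧ f₁.coeff (2 * g) = 0 ∧ Cg (sp F N) f₁ f₀ ∧
      Irreducible (rd 𝔭 f₁) ∧ dsc g f₁ ≠ 0 := by
  obtain ⟨l, hlb, hl⟩ := Nat.exists_infinite_primes (N * (2 * g + 1) + 1)
  obtain ⟨𝔭, hmax, hl𝔭⟩ := exists_over F l hl
  have hprime : 𝔭.IsPrime := hmax.isPrime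
  have hlN : Nat.Coprime N l := by
    refine (Nat.coprime_comm.1 ((Nat.Prime.coprime_iff_not_dvd hl).2 fun h => ?_))
    have h1 := Nat.le_of_dvd hN h
    have h2 : N ≤ N * (2 * g + 1) := Nat.le_mul_of_pos_right N (by omega)
    omega
  have hlg : Nat.Coprime (2 * g + 1) l := by
    refine (Nat.coprime_comm.1 ((Nat.Prime.coprime_iff_not_dvd hl).2 fun h => ?_))
    have h1 := Nat.le_of_dvd (by omega) h
    have h2 : 2 * g + 1 ≤ N * (2 * g + 1) := Nat.le_mul_of_pos_left _ hN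
    omega
  have hbot : 𝔭 ≠ ⊥ := by
    rintro rfl
    rw [Ideal.mem_bot] at hl𝔭
    exact hl.ne_zero (by exact_mod_cast hl𝔭)
  letI : Field (𝓞 F ⧸ 𝔭) := Ideal.Quotient.field 𝔭
  have hfin : Finite (𝓞 F ⧸ 𝔭) := Ideal.finiteQuotientOfFreeOfNeBot 𝔭 hbot
  have hn0 : ((2 * g + 1 : ℕ) : 𝓞 F ⧸ 𝔭) ≠ 0 := by
    intro h
    apply not_mem_of_coprime hmax.ne_top hl𝔭 hlg
    rw [← Ideal.Quotient.eq_zero_iff_mem, map_natCast]
    exact h
  obtain ⟨r, hr1, hr2, hr3, hr4⟩ := Pool.Agent.N738.PJ.exists_irr0 (𝓞 F ⧸ 𝔭) (2 * g + 1) (by omega) hn0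
  have hr4' : r.coeff (2 * g) = 0 := by simpa using hr4
  have hsur : ∀ y : 𝓞 F ⧸ 𝔭, ∃ x, Ideal.Quotient.mk 𝔭 x = y := Ideal.Quotient.mk_surjective
  choose s hs using hsur
  obtain ⟨a, b, hab⟩ := Nat.isCoprime_iff_coprime.2 hlN
  have hab' : ((a : ℤ) : 𝓞 F) * (N : 𝓞 F) + ((b : ℤ) : 𝓞 F) * (l : 𝓞 F) = 1 := by
    have := congrArg (fun z : ℤ => (z : 𝓞 F)) hab
    push_cast at this
    exact this
  set u : 𝓞 F := ((a : ℤ) : 𝓞 F) * (N : 𝓞 F) with hu
  have hu1 : Ideal.Quotient.mk 𝔭 u = 1 := by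
    have h1 : u = 1 - ((b : ℤ) : 𝓞 F) * (l : 𝓞 F) := by rw [← hab']; ring
    rw [h1, map_sub, map_one, map_mul, Ideal.Quotient.eq_zero_iff_mem.2 hl𝔭, mul_zero, sub_zero]
  set D : (𝓞 F)[X] := ∑ i ∈ Finset.range (2 * g), C (s (r.coeff i) - f₀.coeff i) * X ^ i with hD
  have hDd : D.degree < ((2 * g : ℕ) : WithBot ℕ) := by
    rw [hD]
    refine lt_of_le_of_lt (degree_sum_le _ _) ?_
    rw [Finset.sup_lt_iff (WithBot.bot_lt_coe _)]
    intro i hi
    refine lt_of_le_of_lt (degree_C_mul_X_pow_le _ _) ?_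
    exact_mod_cast Finset.mem_range.mp hi
  have hDc : ∀ j, j < 2 * g → D.coeff j = s (r.coeff j) - f₀.coeff j := by
    intro j hj
    rw [hD, finset_sum_coeff]
    simp only [coeff_C_mul_X_pow]
    rw [Finset.sum_ite_eq, if_pos (Finset.mem_range.2 hj)]
  have hDc' : ∀ j, 2 * g ≤ j → D.coeff j = 0 := fun j hj =>
    coeff_eq_zero_of_degree_lt (hDd.trans_le (by exact_mod_cast hj))
  have huD : (C u * D).degree < f₀.degree := by
    have h1 : (C u * D).degree ≤ D.degree := by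
      refine (degree_mul_le _ _).trans ?_
      calc (C u).degree + D.degree ≤ 0 + D.degree := by gcongr; exact degree_C_le
        _ = D.degree := zero_add _
    refine (h1.trans_lt hDd).trans ?_
    rw [degree_eq_natDegree hm.ne_zero, hd]
    exact_mod_cast Nat.lt_succ_self _
  have hmon : (f₀ + C u * D).Monic := hm.add_of_left huD
  have hdeg : (f₀ + C u * D).natDegree = 2 * g + 1 := by
    rw [natDegree_add_eq_left_of_degree_lt huD, hd]
  have hmap : rd 𝔭 (f₀ + C u * D) = r := by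
    ext j
    rw [coeff_map, coeff_add, coeff_C_mul, map_add, map_mul, hu1, one_mul, ← map_add]
    rcases lt_or_ge j (2 * g) with hj | hj
    · rw [hDc j hj]
      have : f₀.coeff j + (s (r.coeff j) - f₀.coeff j) = s (r.coeff j) := by ring
      rw [this, hs]
    · rw [hDc' j hj, add_zero]
      rcases hj.eq_or_lt with rfl | hj
      · rw [ht, map_zero, hr4']
      · rcases (Nat.succ_le_of_lt hj).eq_or_lt with hj | hj
        · have e1 : f₀.coeff j = 1 := by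
            have := hm.coeff_natDegree
            rwa [hd, show 2 * g + 1 = j from hj] at this
          have e2 : r.coeff j = 1 := by
            have := hr1.coeff_natDegree
            rwa [hr3, show 2 * g + 1 = j from hj] at this
          rw [e1, e2, map_one]
        · rw [coeff_eq_zero_of_natDegree_lt (by omega : f₀.natDegree < j), map_zero,
            coeff_eq_zero_of_natDegree_lt (by omega : r.natDegree < j)]
  refine ⟨l, 𝔭, f₀ + C u * D, hl, hprime, hl𝔭, hmon, hdeg, ?_, ?_, ?_, ?_⟩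
  · rw [coeff_add, coeff_C_mul, hDc' _ le_rfl, mul_zero, add_zero, ht]
  · intro j
    rw [coeff_add, coeff_C_mul, add_sub_cancel_left, hu]
    have : ((a : ℤ) : 𝓞 F) * (N : 𝓞 F) * D.coeff j = (((a : ℤ) : 𝓞 F) * D.coeff j) * (N : 𝓞 F) := by ring
    rw [this]
    exact Ideal.mul_mem_left _ _ (Ideal.mem_span_singleton_self _)
  · rw [hmap]
    exact hr2
  · intro h
    have hsep : r.Separable := PerfectField.separable_of_irreducible hr2
    have h3 := dsc_field g r hr1 hr3 hsep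
    apply h3
    rw [← hmap, rd, derivative_map, resultant_map_map]
    have h4 : (f₀ + C u * D).resultant (derivative (f₀ + C u * D)) (2 * g + 1) (2 * g) = 0 := h
    rw [h4, map_zero]

/-- the modulus -/
theorem exists_mod (g K N l : ℕ) (F : Type) [Field F] [NumberField F] (d : 𝓞 F) (hd : d ≠ 0)
    (hN : 0 < N) (hl : 0 < l) : ∃ W : ℕ, 0 < W ∧ 2 ∣ W ∧ N ∣ W ∧ l ∣ W ∧ K.factorial ∣ W ∧
      ∀ 𝔮 : Ideal (𝓞 F), 𝔮.IsPrime → 𝔮 ≠ ⊥ → (W : 𝓞 F) ∈ 𝔮 → ∃ k : ℕ, d ∉ 𝔮 ^ k ∧ (W : 𝓞 F) ∈ 𝔮 ^ k := by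
  set M : ℕ := Ideal.absNorm (Ideal.span {d}) with hM
  have hM0 : 0 < M := by
    rw [hM]
    refine Nat.pos_of_ne_zero fun h => ?_
    rw [Ideal.absNorm_eq_zero_iff, Ideal.span_singleton_eq_bot] at h
    exact hd h
  set w : ℕ := 2 * N * l * K.factorial * M with hw
  have hw0 : 0 < w := by
    have := Nat.factorial_pos K
    positivity
  have d2 : 2 ∣ w := ⟨N * l * K.factorial * M, by rw [hw]; ring⟩
  have dN : N ∣ w := ⟨2 * l * K.factorial * M, by rw [hw]; ring⟩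
  have dl : l ∣ w := ⟨2 * N * K.factorial * M, by rw [hw]; ring⟩
  have dK : K.factorial ∣ w := ⟨2 * N * l * M, by rw [hw]; ring⟩
  have dM : M ∣ w := ⟨2 * N * l * K.factorial, by rw [hw]; ring⟩
  have dd : ∀ x : ℕ, x ∣ w → x ∣ w ^ 2 := fun x hx => hx.trans (dvd_pow_self w two_ne_zero)
  refine ⟨w ^ 2, by positivity, dd _ d2, dd _ dN, dd _ dl, dd _ dK, ?_⟩
  intro 𝔮 hq hq0 hW
  have hwq : (w : 𝓞 F) ∈ 𝔮 := by
    rw [Nat.cast_pow] at hW
    exact hq.mem_of_pow_mem 2 hW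
  have hex : ∃ k : ℕ, d ∉ 𝔮 ^ k := by
    by_contra hcon
    push_neg at hcon
    have h1 : d ∈ ⨅ k : ℕ, 𝔮 ^ k := by
      rw [Ideal.mem_iInf]
      exact hcon
    rw [Ideal.iInf_pow_eq_bot_of_isDomain 𝔮 hq.ne_top] at h1
    exact hd h1
  set k := Nat.find hex with hk
  have hk1 : d ∉ 𝔮 ^ k := Nat.find_spec hex
  have hk0 : k ≠ 0 := by
    intro h
    rw [h, pow_zero, Ideal.one_eq_top] at hk1
    exact hk1 Submodule.mem_top
  obtain ⟨m, hm⟩ := Nat.exists_eq_succ_of_ne_zero hk0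
  have hdm : d ∈ 𝔮 ^ m := by
    by_contra h
    have := Nat.find_min' hex h
    omega
  have hMm : (M : 𝓞 F) ∈ 𝔮 ^ m := by
    have h1 : (M : 𝓞 F) ∈ Ideal.span {d} := Ideal.absNorm_mem _
    exact (Ideal.span_le.2 (Set.singleton_subset_iff.2 hdm)) h1
  have hwm : (w : 𝓞 F) ∈ 𝔮 ^ m := by
    obtain ⟨c, hc⟩ := dM
    rw [hc, Nat.cast_mul]
    exact Ideal.mul_mem_right _ _ hMm
  refine ⟨k, hk1, ?_⟩
  rw [hm, Nat.succ_eq_add_one, pow_succ, Nat.cast_pow, pow_two]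
  exact Ideal.mul_mem_mul hwm hwq

end Pool.Agent.H18N.CLSWa
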