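import Pool.Agent.H18N.Stm
import Pool.Agent.H18N.CLSWa

/-!
# Project JN, part CLSW (helper45): every residue class contains a good class
-/

set_option autoImplicit false
set_option linter.all false

open Polynomial NumberField IsDedekindDomain
open scoped Classical

namespace Pool.Agent.H18N.CLSW

open Pool.Agent.N783.PF Pool.Agent.H18N.CLSWa

theorem t : Pool.Agent.H18N.S_CLSW := by
  intro g K N F _ _ f₀ hg hN hm hd ht
  obtain ⟨l, 𝔭, f₁, hl, hp, hlp, h1, h2, h3, h4, h5, h6⟩ := exists_poly g N F f₀ hg hN hm hd ht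
  obtain ⟨W, w0, w2, wN, wl, wK, hW⟩ := exists_mod g K N l F (dsc g f₁) h6 hN hl.pos
  refine ⟨W, f₁, wN, wK, h4, ⟨h1, h2, h3, w0, w2, ⟨𝔭, hp, ?_, h5⟩, hW⟩⟩
  obtain ⟨c, hc⟩ := wl
  rw [hc, Nat.cast_mul]
  exact Ideal.mul_mem_right _ _ hlp

end Pool.Agent.H18N.CLSW
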