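import Pool.Agent.H18G.Stm
import Pool.Agent.H68K.PR.AdmK
import Pool.Agent.H18X.Adm

/-!
# Project JN: from the bound for the explicit Selmer group to the rank and the Tate-Shafarevich group
-/

set_option autoImplicit false
set_option linter.all false

open Polynomial IsDedekindDomain NumberField
open scoped Classical

namespace Pool.Agent.H18N.EC

open Pool.Agent.N783.PF
open Pool.Agent.H68K.PR
open Pool.Agent.H18G (SelLe SelE)

variable {F : Type} [Field F] [NumberField F]

theorem fF_cub {f : (𝓞 F)[X]} (hm : f.Monic) (hd : f.natDegree = 3) (htr : f.coeff 2 = 0) :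
    fF f = X ^ 3 + C (f.coeff 1 : F) * X + C (f.coeff 0 : F) := by
  ext n
  rw [fF, coeff_map]
  have h0 : (X ^ 3 + C (f.coeff 1 : F) * X + C (f.coeff 0 : F) : F[X]).coeff n =
      (if n = 3 then 1 else 0) + (if n = 1 then (f.coeff 1 : F) else 0) +
        (if n = 0 then (f.coeff 0 : F) else 0) := by
    rw [coeff_add, coeff_add, coeff_X_pow, coeff_C_mul, coeff_X, coeff_C]
    congr 2
    by_cases h : n = 1
    · rw [if_pos h, if_pos h.symm, mul_one]
    · rw [if_neg h, if_neg (fun h' => h h'.symm), mul_zero]
  rw [h0]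
  rcases Nat.lt_or_ge n 4 with h | h
  · interval_cases n
    · simp
    · simp
    · simp [htr]
    · have h3 : f.coeff 3 = 1 := by rw [← hd]; exact hm
      simp [h3]
  · rw [coeff_eq_zero_of_natDegree_lt (by omega), if_neg (by omega), if_neg (by omega),
      if_neg (by omega), map_zero]
    ring

theorem gdle {f : (𝓞 F)[X]} (hm : f.Monic) (hd : f.natDegree = 3) (htr : f.coeff 2 = 0)
    (hirr : Irreducible (fF f)) {n : ℕ} (h : SelLe n f) :
    ∃ m ≤ n, Gd m (f.coeff 1, f.coeff 0) := by
  have hf := fF_cub hm hd htr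
  obtain ⟨L, _, _, _, θ, hgen⟩ := Pool.Agent.N667.PF.gen F 1 f hm hd hirr
  have hirr' : Irreducible (X ^ 3 + C (f.coeff 1 : F) * X + C (f.coeff 0 : F) : F[X]) := by
    rw [← hf]
    exact hirr
  have hroot : aeval θ (X ^ 3 + C (f.coeff 1 : F) * X + C (f.coeff 0 : F) : F[X]) = 0 := by
    rw [← hf]
    exact hgen.root
  have d : Dic (f.coeff 1 : F) (f.coeff 0 : F) θ := dic hirr' hgen.rank hroot
  obtain ⟨r, hr, hh⟩ := h
  have hatm : AtM (fun x : L => ∃ p : F[X], aeval θ p = x ∧ SelH (f.coeff 1 : F) (f.coeff 0 : F) p)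
      n := by
    intro T hT hT2
    have h1 : ∀ x : L, ∃ i : Option (Fin n), x ∈ T → ∃ j, i = some j ∧
        IsSquare (x * aeval θ (r j)) := by
      intro x
      by_cases hx : x ∈ T
      · obtain ⟨hx0, p, hp, hs⟩ := hT x hx
        have hE : SelE f p := by
          refine ⟨?_, ?_, ?_, ?_⟩
          · rw [hf]
            exact hs.cop
          · rw [hf]
            exact hs.nrm
          · intro w
            rw [hf]
            exact Pool.Agent.N521.QM.ploc_locF (hs.fin w)
          · intro σ
            letI := σ.toAlgebra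
            have h3 : Pool.Agent.N874.JM.LocF ℝ (X ^ 3 + C (f.coeff 1 : F) * X + C (f.coeff 0 : F) : F[X]) p :=
              Pool.Agent.N521.QM.ploc_locF (hs.real σ)
            rw [← hf] at h3
            exact h3
        obtain ⟨i, s, hi⟩ := hh p hE
        refine ⟨some i, fun _ => ⟨i, rfl, ?_⟩⟩
        rw [← hp, ← map_mul, ← d.sq, ← hf]
        exact ⟨s, hi⟩
      · exact ⟨none, fun h => absurd h hx⟩
    choose ι hι using h1
    have h2 : T.card ≤ (Finset.univ.image (some : Fin n → Option (Fin n))).card := by
      refine Finset.card_le_card_of_injOn ι (fun x hx => ?_) ?_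
      · obtain ⟨j, hj, -⟩ := hι x hx
        rw [hj]
        simp
      · intro x hx y hy hxy
        obtain ⟨j, hj, s, hs⟩ := hι x hx
        obtain ⟨j', hj', t, ht⟩ := hι y hy
        rw [hj, hj'] at hxy
        rw [← Option.some.inj hxy] at ht
        refine hT2 x hx y hy ?_
        have h3 : aeval θ (r j) ≠ 0 := by
          intro h0
          obtain ⟨u, v, huv⟩ := hr j
          have h4 := congrArg (aeval θ) huv
          rw [map_add, map_mul, map_mul, h0, hgen.root, mul_zero, mul_zero, add_zero, map_one] at h4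
          exact zero_ne_one h4
        refine ⟨s * t / aeval θ (r j), ?_⟩
        field_simp
        have h4 : (x * aeval θ (r j)) * (y * aeval θ (r j)) = (s * s) * (t * t) := by
          rw [hs, ht]
        linear_combination h4
    refine h2.trans (Finset.card_image_le.trans ?_)
    rw [Finset.card_univ, Fintype.card_fin]
  obtain ⟨m, hm1, hm2⟩ := seln_of_atm d hatm
  exact ⟨m, hm1, hirr', hm2⟩

end Pool.Agent.H18N.EC
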