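import Pool.Agent.H18N.Near
import Pool.Agent.H18N.Gdle
import Pool.Agent.H93PR.Count3a
import Pool.Agent.H18X.Law
import Pool.Agent.H14X.Admx

/-!
# Project JN: near every elliptic curve
-/

set_option autoImplicit false
set_option linter.all false

open Polynomial IsDedekindDomain NumberField
open scoped Classical Pointwise IntermediateField

namespace Pool.Agent.H18N.EC

open Pool.Agent.N783.PF
open Pool.Agent.H14F (Tot Unr)
open Pool.Agent.H18G (twf HtR SelLe)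
open Pool.Agent.H68K.PR (pr2 Gd)
open Pool.Agent.H93PR
open Pool.Agent.H18X (FamM)
open Pool.Agent.H18N.Per

/-- The extension `M` of `F` is admissible for the curve `y ^ 2 = x ^ 3 + a x + b`, `p = (a, b)`, in a
family with modulus `N`. -/
structure AdmP (F M : Type) [Field F] [NumberField F] [Field M] [NumberField M] [Algebra F M]
    (N : ℕ) (p : 𝓞 F × 𝓞 F) : Prop where
  galois : IsGalois F M
  deg : ∃ n : ℕ, Module.finrank F M = 2 ^ n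
  split : ∀ w : HeightOneSpectrum (𝓞 M), (N : 𝓞 M) ∈ w.asIdeal → Tot F w
  real : ∀ σ : F →+* ℝ, ∃ ρ : M →+* ℝ, ρ.comp (algebraMap F M) = σ
  ram : ∀ w : HeightOneSpectrum (𝓞 M), ¬ Unr F w →
    ∀ z : 𝓞 F, z ^ 3 + p.1 * z + p.2 ∉ (w.under (𝓞 F)).asIdeal

variable {F : Type} [Field F] [NumberField F]

theorem adm_iff {M : Type} [Field M] [NumberField M] [Algebra F M] (N : ℕ) (p : 𝓞 F × 𝓞 F) :
    AdmP F M N p ↔ AdmW F M N (pl p) := by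
  constructor
  · rintro ⟨h1, h2, h3, h4, h5⟩
    refine ⟨h1, h2, h3, h4, fun w hw => ?_⟩
    refine Pool.Agent.H14F.irr_of_noroot (pl_mon p) (pl_nd p) (pl2 p) ?_
    rw [pl1, pl0]
    exact h5 w hw
  · rintro ⟨h1, h2, h3, h4, h5⟩
    refine ⟨h1, h2, h3, h4, fun w hw z hz => ?_⟩
    have h6 := h5 w hw
    haveI : (w.under (𝓞 F)).asIdeal.IsMaximal := (w.under (𝓞 F)).isMaximal
    letI : Field (𝓞 F ⧸ (w.under (𝓞 F)).asIdeal) := Ideal.Quotient.field _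
    have hr : (rd (w.under (𝓞 F)).asIdeal (pl p)).IsRoot (Ideal.Quotient.mk _ z) := by
      rw [IsRoot.def, eval_map, eval₂_at_apply, Ideal.Quotient.eq_zero_iff_mem,
        Pool.Agent.H14F.eval_cub (pl_mon p) (pl_nd p) (pl2 p), pl1, pl0]
      exact hz
    have h7 := degree_eq_one_of_irreducible_of_root h6 hr
    have h8 : (rd (w.under (𝓞 F)).asIdeal (pl p)).natDegree = 3 := by
      rw [(pl_mon p).natDegree_map, pl_nd]
    rw [natDegree_eq_of_degree_eq_some (n := 1) (by exact_mod_cast h7)] at h8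
    omega

/-- The height is at most `Y ^ 6`. -/
def HP (Y : ℝ) (p : 𝓞 F × 𝓞 F) : Prop := Bd (p.1 : F) (Y ^ 2) ∧ Bd (p.2 : F) (Y ^ 3)

theorem htr_pl {Y : ℝ} (hY : 0 ≤ Y) (p : 𝓞 F × 𝓞 F) : HtR 1 Y (pl p) ↔ HP Y p := by
  constructor
  · intro h
    have h1 := h.ht 1 (by norm_num)
    have h0 := h.ht 0 (by norm_num)
    rw [pl1] at h1
    rw [pl0] at h0
    exact ⟨h1, h0⟩
  · rintro ⟨h1, h0⟩
    refine ⟨pl_mon p, pl_nd p, pl2 p, fun j hj => ?_⟩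
    interval_cases j
    · rw [pl0]
      exact h0
    · rw [pl1]
      exact h1
    · rw [pl2]
      intro σ
      have e : ((0 : 𝓞 F) : F) = 0 := map_zero _
      rw [e, map_zero, norm_zero]
      positivity

theorem htr_cub {Y : ℝ} {f : (𝓞 F)[X]} (h : HtR 1 Y f) : pl (f.coeff 1, f.coeff 0) = f :=
  pl_of ⟨h.mon, h.deg, h.tr⟩

/-- Counting pairs and polynomials. -/
theorem count {Y : ℝ} (hY : 0 ≤ Y) (A : (𝓞 F)[X] → Prop) (B : 𝓞 F × 𝓞 F → Prop)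
    (hAB : ∀ p, A (pl p) ↔ B p) :
    {f : (𝓞 F)[X] | HtR 1 Y f ∧ A f}.ncard = {p : 𝓞 F × 𝓞 F | HP Y p ∧ B p}.ncard := by
  have h1 : {f : (𝓞 F)[X] | HtR 1 Y f ∧ A f} = pl '' {p : 𝓞 F × 𝓞 F | HP Y p ∧ B p} := by
    ext f
    constructor
    · rintro ⟨h1, h2⟩
      refine ⟨(f.coeff 1, f.coeff 0), ?_, htr_cub h1⟩
      have e := htr_cub h1
      refine ⟨(htr_pl hY _).1 (by rw [e]; exact h1), (hAB _).1 (by rw [e]; exact h2)⟩
    · rintro ⟨p, ⟨h1, h2⟩, rfl⟩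
      exact ⟨(htr_pl hY _).2 h1, (hAB _).2 h2⟩
  rw [h1, Set.ncard_image_of_injective _ pl_inj]

theorem infm_iff (M : ℕ) (R : Set (𝓞 F)[X]) (p : 𝓞 F × 𝓞 F) :
    InFm 1 M R (pl p) ↔ p ∈ FamM M {p | pl p ∈ R} := by
  have hd : dsc 1 (pl p) = 4 * p.1 ^ 3 + 27 * p.2 ^ 2 := by
    rw [dsc_cub (cub_pl p), pl1, pl0]
  constructor
  · rintro ⟨-, -, -, h1, h2, h3⟩
    rw [hd] at h2 h3
    exact ⟨h1, h2, h3⟩
  · rintro ⟨h1, h2, h3⟩
    refine ⟨pl_mon p, pl_nd p, pl2 p, h1, ?_, ?_⟩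
    · rw [hd]
      exact h2
    · rw [hd]
      exact h3

/-- The bound over all admissible fields. -/
def GdA (N k : ℕ) (p : 𝓞 F × 𝓞 F) : Prop :=
  ∀ (M : Type) [Field M] [NumberField M] [Algebra F M], AdmP F M N p →
    ∃ m ≤ 2 ^ (k * Module.finrank F M), Gd m (algebraMap (𝓞 F) (𝓞 M) p.1, algebraMap (𝓞 F) (𝓞 M) p.2)

theorem gda_of {N k : ℕ} {p : 𝓞 F × 𝓞 F} (h : BdA F N k (pl p)) : GdA N k p := by
  intro M _ _ _ hM
  obtain ⟨h1, h2⟩ := h M ((adm_iff N p).1 hM)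
  have h3 := gdle (f := (pl p).map (algebraMap (𝓞 F) (𝓞 M))) ((pl_mon p).map _)
    (by rw [(pl_mon p).natDegree_map, pl_nd]) (by rw [coeff_map, pl2, map_zero]) h1 h2
  obtain ⟨m, hm, hG⟩ := h3
  refine ⟨m, hm, ?_⟩
  rw [coeff_map, coeff_map, pl1, pl0] at hG
  exact hG

/-- Near every elliptic curve. -/
theorem near (hF : S_FAMNW) (hC : S_CLSX) (hA : S_ADMW) (hS : S_STEPW) (F : Type)
    [Field F] [NumberField F] (n : ℕ) (hn : 0 < n) (p₀ : 𝓞 F × 𝓞 F)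
    (hmin : ∀ v : HeightOneSpectrum (𝓞 F), ¬ (p₀.1 ∈ v.asIdeal ^ 4 ∧ p₀.2 ∈ v.asIdeal ^ 6))
    (ε : ℝ) (hε : 0 < ε) :
    ∃ (N : ℕ) (R : Set (𝓞 F × 𝓞 F)), 0 < N ∧
      (∀ p p' : 𝓞 F × 𝓞 F, p ∈ R → (N : 𝓞 F) ∣ p'.1 - p.1 → (N : 𝓞 F) ∣ p'.2 - p.2 → p' ∈ R) ∧
      (∀ p ∈ R, (n : 𝓞 F) ∣ p.1 - p₀.1 ∧ (n : 𝓞 F) ∣ p.2 - p₀.2) ∧
      (∀ p ∈ FamM N R, ∀ v : HeightOneSpectrum (𝓞 F), ¬ (p.1 ∈ v.asIdeal ^ 4 ∧ p.2 ∈ v.asIdeal ^ 6)) ∧
      (∀ p ∈ FamM N R, {l : ℕ | l.Prime ∧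
        ∀ (M M' : Type) [Field M] [NumberField M] [Field M'] [NumberField M']
        [Algebra F M] [Algebra M M'] [Algebra F M'] [IsScalarTower F M M'] (x : M'),
        x ^ 2 = (l : M') → M⟮x⟯ = ⊤ → AdmP F M N p → AdmP F M' N p}.Infinite) ∧
      ∃ (c Y₀ : ℝ), 0 < c ∧ 0 < Y₀ ∧ ∀ Y : ℝ, Y₀ ≤ Y → {p : 𝓞 F × 𝓞 F | HP Y p}.Finite ∧
      0 < {p : 𝓞 F × 𝓞 F | HP Y p ∧ p ∈ FamM N R}.ncard ∧
      c * ({p : 𝓞 F × 𝓞 F | HP Y p}.ncard : ℝ) ≤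
        ({p : 𝓞 F × 𝓞 F | HP Y p ∧ p ∈ FamM N R}.ncard : ℝ) ∧
      ∀ k : ℕ, ({p : 𝓞 F × 𝓞 F | HP Y p ∧ p ∈ FamM N R ∧ ¬ GdA N k p}.ncard : ℝ) ≤
        (1 - ∑ j ∈ Finset.range (k + 1), pr2 j + ε) *
          ({p : 𝓞 F × 𝓞 F | HP Y p ∧ p ∈ FamM N R}.ncard : ℝ) := by
  obtain ⟨M, R, hM, hR, hcg, hfam, c, Y₀, hc, h⟩ := Pool.Agent.H18N.Per.near hF hC hA hS 1 F le_rfl
    n hn (pl p₀) (pl_mon _) (pl_nd _) (pl2 _) (by
      intro 𝔭 hp hnp hall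
      have h0 : 𝔭 ≠ ⊥ := by
        rintro rfl
        rw [Ideal.mem_bot] at hnp
        exact hn.ne' (by exact_mod_cast hnp)
      refine hmin ⟨𝔭, hp, h0⟩ ⟨?_, ?_⟩
      · have := hall 1 (by norm_num)
        rw [pl1] at this
        exact this
      · have := hall 0 (by norm_num)
        rw [pl0] at this
        exact this) ε hε
  have hin : ∀ p, p ∈ FamM M {p | pl p ∈ R} ↔ InFm 1 M R (pl p) := fun p => (infm_iff M R p).symm
  refine ⟨M, {p | pl p ∈ R}, hM, fun p p' hp h1 h2 => ?_, fun p hp => ?_, fun p hp v => ?_,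
    fun p hp => ?_, c, max 1 Y₀, hc, lt_of_lt_of_le one_pos (le_max_left _ _), fun Y hY => ?_⟩
  · refine hR _ _ hp ((cg_iff (cub_pl _) (cub_pl _)).2 ⟨?_, ?_⟩)
    · rw [pl1, pl1]
      exact Ideal.mem_span_singleton.2 h1
    · rw [pl0, pl0]
      exact Ideal.mem_span_singleton.2 h2
  · have h1 := (cg_iff (cub_pl _) (cub_pl _)).1 (hcg _ hp)
    rw [pl1, pl1, pl0, pl0] at h1
    exact ⟨Ideal.mem_span_singleton.1 h1.1, Ideal.mem_span_singleton.1 h1.2⟩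
  · rintro ⟨h1, h2⟩
    refine (hfam _ ((hin p).1 hp)).1 v.asIdeal v.isPrime v.ne_bot fun j hj => ?_
    interval_cases j
    · rw [pl0]
      exact h2
    · rw [pl1]
      exact h1
    · rw [pl2]
      exact zero_mem _
  · refine ((hfam _ ((hin p).1 hp)).2.2).mono ?_
    rintro l ⟨hl, h⟩
    exact ⟨hl, fun M₁ M' _ _ _ _ _ _ _ _ x hx htop hM₁ =>
      (adm_iff M p).2 (h M₁ M' x hx htop ((adm_iff M p).1 hM₁))⟩
  · have hY0 : 0 ≤ Y := zero_le_one.trans ((le_max_left _ _).trans hY)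
    obtain ⟨h1, h2⟩ := h Y
    obtain ⟨h3, h4, h5⟩ := h2 ((le_max_right _ _).trans hY)
    have e0 : {f : (𝓞 F)[X] | HtR 1 Y f}.ncard = {p : 𝓞 F × 𝓞 F | HP Y p}.ncard := by
      have := count (F := F) hY0 (fun _ => True) (fun _ => True) (fun _ => Iff.rfl)
      simpa using this
    have e1 := count hY0 (fun f => InFm 1 M R f) (fun p => p ∈ FamM M {p | pl p ∈ R})
      (fun p => infm_iff M R p)
    have hfin : {p : 𝓞 F × 𝓞 F | HP Y p}.Finite := by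
      refine Set.Finite.of_finite_image (f := pl) (h1.subset ?_) pl_inj.injOn
      rintro f ⟨p, hp, rfl⟩
      exact (htr_pl hY0 p).2 hp
    refine ⟨hfin, ?_, ?_, fun k => ?_⟩
    · rw [← e1]
      exact h3
    · rw [← e0, ← e1]
      exact h4
    · rw [← e1]
      refine le_trans ?_ (h5 k)
      have e2 := count hY0 (fun f => InFm 1 M R f ∧ ¬ BdA F M k f)
        (fun p => p ∈ FamM M {p | pl p ∈ R} ∧ ¬ BdA F M k (pl p))
        (fun p => and_congr (infm_iff M R p) Iff.rfl)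
      rw [e2]
      have hsub : {p : 𝓞 F × 𝓞 F | HP Y p ∧ p ∈ FamM M {p | pl p ∈ R} ∧ ¬ GdA M k p} ⊆
          {p : 𝓞 F × 𝓞 F | HP Y p ∧ p ∈ FamM M {p | pl p ∈ R} ∧ ¬ BdA F M k (pl p)} := by
        rintro p ⟨a1, a2, a3⟩
        exact ⟨a1, a2, fun a4 => a3 (gda_of a4)⟩
      exact_mod_cast Set.ncard_le_ncard hsub (hfin.subset fun p hp => hp.1)

end Pool.Agent.H18N.EC
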