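import Pool.Agent.H18N.LSQ

/-!
# The local square classes of square norm at any prime

Project JN (helper18), part LOCX: `S_LOCX` from `S_LCT`, by helper10.
-/

set_option autoImplicit false
set_option linter.all false

open Polynomial IsDedekindDomain NumberField WithZero
open scoped Classical

noncomputable section

namespace Pool.Agent.H18N.LOCX

open Pool.Agent.N783.PF
open Pool.Agent.H18G (LocS)
open Pool.Agent.H18G.TWOX (fF_monic fF_deg exists_poly dvd_of_aeval bA bA_apply norm_map)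
open Pool.Agent.H10PR (maximal)

section emb

variable {F L : Type} [Field F] [NumberField F] [Field L] [NumberField L] [Algebra F L] {g : ℕ}
  {f : (𝓞 F)[X]} {θ : L} (hg : IsGen g f θ) (K : Type) [Field K] [Algebra F K]

/-- the embedding -/
def em (α : L) : AdjoinRoot ((fF f).map (algebraMap F K)) :=
  AdjoinRoot.mk _ ((exists_poly hg α).choose.map (algebraMap F K))

theorem em_eq {α : L} {p : F[X]} (hp : aeval θ p = α) :
    em hg K α = AdjoinRoot.mk _ (p.map (algebraMap F K)) :=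
  Pool.Agent.H18N.LSQ.mk_eq hg ((exists_poly hg α).choose_spec.trans hp.symm)

/-- the embedding as a homomorphism -/
def emb : L →+* AdjoinRoot ((fF f).map (algebraMap F K)) where
  toFun := em hg K
  map_one' := by rw [em_eq hg K (p := 1) (by rw [map_one]), Polynomial.map_one, map_one]
  map_zero' := by rw [em_eq hg K (p := 0) (by rw [map_zero]), Polynomial.map_zero, map_zero]
  map_mul' α β := by
    obtain ⟨p, hp⟩ := exists_poly hg α
    obtain ⟨q, hq⟩ := exists_poly hg β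
    rw [em_eq hg K hp, em_eq hg K hq, em_eq hg K (p := p * q) (by rw [map_mul, hp, hq]),
      Polynomial.map_mul, map_mul]
  map_add' α β := by
    obtain ⟨p, hp⟩ := exists_poly hg α
    obtain ⟨q, hq⟩ := exists_poly hg β
    rw [em_eq hg K hp, em_eq hg K hq, em_eq hg K (p := p + q) (by rw [map_add, hp, hq]),
      Polynomial.map_add, map_add]

theorem emb_aeval (p : F[X]) :
    emb hg K (aeval θ p) = AdjoinRoot.mk _ (p.map (algebraMap F K)) := em_eq hg K rfl

theorem emb_norm (α : L) : Algebra.norm K (emb hg K α) = algebraMap F K (Algebra.norm F α) := by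
  have hmK : ((fF f).map (algebraMap F K)).Monic := (fF_monic hg).map _
  have hnK : ((fF f).map (algebraMap F K)).natDegree = 2 * g + 1 := by
    rw [(fF_monic hg).natDegree_map, fF_deg hg]
  refine norm_map (algebraMap F K) (emb hg K) hg.basis (bA hmK hnK) ?_ ?_ α
  · intro k
    have h1 : hg.basis k = aeval θ (X ^ (k : ℕ) : F[X]) := by
      rw [hg.basis_apply, map_pow, aeval_X]
    rw [h1, emb_aeval, bA_apply, Polynomial.map_pow, map_X, map_pow, AdjoinRoot.mk_X]
  · intro c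
    have h1 : algebraMap F L c = aeval θ (C c : F[X]) := by rw [aeval_C]
    rw [h1, emb_aeval, map_C, AdjoinRoot.mk_C, AdjoinRoot.algebraMap_eq]

/-- `LocS` does not depend on the polynomial -/
theorem locS_iff {h : F[X]} : LocS K (fF f) h ↔ ∃ s, emb hg K (aeval θ h) = s ^ 2 := by
  constructor
  · rintro ⟨s, hs⟩
    refine ⟨AdjoinRoot.mk _ s, ?_⟩
    rw [emb_aeval, ← map_pow, AdjoinRoot.mk_eq_mk]
    exact hs
  · rintro ⟨s, hs⟩
    obtain ⟨s', rfl⟩ := AdjoinRoot.mk_surjective s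
    refine ⟨s', ?_⟩
    rw [emb_aeval, ← map_pow, AdjoinRoot.mk_eq_mk] at hs
    exact hs

end emb

section rel

variable {F L : Type} [Field F] [NumberField F] [Field L] [NumberField L] [Algebra F L]
  (w : HeightOneSpectrum (𝓞 F))

/-- `x` is close to 1 at all the primes over `w` -/
def Near (x : L) : Prop := ∀ 𝔓 : HeightOneSpectrum (𝓞 L), Ov w.asIdeal 𝔓 →
  𝔓.valuation L (x - 1) < 𝔓.valuation L 4

/-- the same square class up to elements close to 1 -/
def Rel (x y : L) : Prop := ∃ z : L, z ≠ 0 ∧ Near w (x * y * z ^ 2)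

theorem val4 (𝔓 : HeightOneSpectrum (𝓞 L)) : 𝔓.valuation L (4 : L) ≤ 1 := by
  have h1 : 𝔓.valuation L (algebraMap (𝓞 L) L 4) ≤ 1 := 𝔓.valuation_le_one (K := L) (4 : 𝓞 L)
  rwa [map_ofNat (algebraMap (𝓞 L) L)] at h1

theorem val4' (𝔓 : HeightOneSpectrum (𝓞 L)) : 0 < 𝔓.valuation L (4 : L) := by
  rw [zero_lt_iff, Valuation.ne_zero_iff]
  norm_num

theorem Near.mul {x y : L} (hx : Near w x) (hy : Near w y) : Near w (x * y) := by
  intro 𝔓 h𝔓
  have h1 := hx 𝔓 h𝔓
  have h2 := hy 𝔓 h𝔓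
  have e : x * y - 1 = (x - 1) * (y - 1) + ((x - 1) + (y - 1)) := by ring
  rw [e]
  refine lt_of_le_of_lt (Valuation.map_add _ _ _) (max_lt ?_ ?_)
  · rw [map_mul]
    exact lt_of_le_of_lt (mul_le_of_le_one_right' ((h2.le).trans (val4 𝔓))) h1
  · exact lt_of_le_of_lt (Valuation.map_add _ _ _) (max_lt h1 h2)

theorem near_one : Near w (1 : L) := by
  intro 𝔓 h𝔓
  rw [sub_self, map_zero]
  exact val4' 𝔓

theorem Rel.refl {x : L} (hx : x ≠ 0) : Rel w x x := by
  refine ⟨x⁻¹, inv_ne_zero hx, ?_⟩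
  have e : x * x * x⁻¹ ^ 2 = 1 := by field_simp
  rw [e]
  exact near_one w

theorem Rel.symm {x y : L} (h : Rel w x y) : Rel w y x := by
  obtain ⟨z, hz, h1⟩ := h
  exact ⟨z, hz, by rw [mul_comm y x]; exact h1⟩

theorem Rel.mul {x y x' y' : L} (h : Rel w x y) (h' : Rel w x' y') : Rel w (x * x') (y * y') := by
  obtain ⟨z, hz, h1⟩ := h
  obtain ⟨z', hz', h1'⟩ := h'
  refine ⟨z * z', mul_ne_zero hz hz', ?_⟩
  have e : x * x' * (y * y') * (z * z') ^ 2 = (x * y * z ^ 2) * (x' * y' * z' ^ 2) := by ring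
  rw [e]
  exact h1.mul w h1'

theorem Rel.cancel {x y t : L} (ht : t ≠ 0) (h : Rel w (x * t) (y * t)) : Rel w x y := by
  obtain ⟨z, hz, h1⟩ := h
  refine ⟨t * z, mul_ne_zero ht hz, ?_⟩
  have e : x * y * (t * z) ^ 2 = x * t * (y * t) * z ^ 2 := by ring
  rw [e]
  exact h1

end rel

/-- approximation of the square root -/
theorem approx {F : Type} [Field F] [NumberField F] (w : HeightOneSpectrum (𝓞 F)) (a : F)
    (ha : a ≠ 0) (b : w.adicCompletion F) (hb : algebraMap F (w.adicCompletion F) a = b ^ 2) :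
    ∃ y : F, y ≠ 0 ∧ w.valuation F (a * y ^ 2 - 1) < w.valuation F 4 := by
  have hb0 : b ≠ 0 := by
    rintro rfl
    rw [zero_pow two_ne_zero, map_eq_zero] at hb
    exact ha hb
  have h4 : 0 < w.valuation F (4 : F) := val4' w
  -- density
  have hvb : Valued.v b ≠ 0 := (Valuation.ne_zero_iff _).2 hb0
  obtain ⟨y, hy⟩ : ∃ y : F, Valued.v (b⁻¹ - algebraMap F (w.adicCompletion F) y) <
      w.valuation F 4 * (Valued.v b)⁻¹ := by
    obtain ⟨n, hn⟩ : ∃ n : ℕ, (exp (-(n : ℤ)) : ℤᵐ⁰) < w.valuation F 4 * (Valued.v b)⁻¹ := by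
      have hpos : w.valuation F 4 * (Valued.v b)⁻¹ ≠ 0 := mul_ne_zero h4.ne' (inv_ne_zero hvb)
      obtain ⟨k, hk⟩ : ∃ k : ℤ, w.valuation F 4 * (Valued.v b)⁻¹ = exp k :=
        ⟨_, (exp_log hpos).symm⟩
      refine ⟨(-k).toNat + 1, ?_⟩
      rw [hk, exp_lt_exp]
      omega
    have h1 : (fun z => b⁻¹ - z) ⁻¹' {y : w.adicCompletion F | Valued.v y ≤ exp (-(n : ℤ))} ∈
        nhds (b⁻¹ : w.adicCompletion F) := by
      have h5 : Filter.Tendsto (fun z : w.adicCompletion F => b⁻¹ - z)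
          (nhds b⁻¹) (nhds (b⁻¹ - b⁻¹)) := tendsto_const_nhds.sub Filter.tendsto_id
      rw [sub_self] at h5
      exact h5 ((Pool.Agent.H14F.mem_nhds_iff w _).2 ⟨n, le_rfl⟩)
    obtain ⟨_, hy, s, rfl⟩ := mem_closure_iff_nhds.1
      (HeightOneSpectrum.denseRange_algebraMap F w b⁻¹) _ h1
    exact ⟨s, lt_of_le_of_lt hy hn⟩
  have h1 : Valued.v (b * algebraMap F (w.adicCompletion F) y - 1) < w.valuation F 4 := by
    have e : b * algebraMap F (w.adicCompletion F) y - 1 =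
        -(b * (b⁻¹ - algebraMap F (w.adicCompletion F) y)) := by
      rw [mul_sub, mul_inv_cancel₀ hb0]; ring
    rw [e, Valuation.map_neg, map_mul, mul_comm]
    have := (mul_lt_mul_iff_left₀ (zero_lt_iff.2 hvb)).2 hy
    rwa [mul_assoc, inv_mul_cancel₀ hvb, mul_one] at this
  have h41 : w.valuation F (4 : F) ≤ 1 := val4 w
  refine ⟨y, ?_, ?_⟩
  · rintro rfl
    rw [map_zero, mul_zero, zero_sub, Valuation.map_neg, map_one] at h1
    exact absurd h1 (not_lt.2 h41)
  · rw [← Pool.Agent.H14P.val_F, map_sub, map_mul, map_pow, map_one, hb]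
    have e : b ^ 2 * algebraMap F (w.adicCompletion F) y ^ 2 - 1 =
        (b * algebraMap F (w.adicCompletion F) y - 1) *
          ((b * algebraMap F (w.adicCompletion F) y - 1) + 2) := by ring
    rw [e, map_mul]
    refine lt_of_le_of_lt (mul_le_of_le_one_right' ?_) h1
    refine (Valuation.map_add _ _ _).trans (max_le (h1.le.trans h41) ?_)
    have h2 : Valued.v ((2 : w.adicCompletion F)) = w.valuation F (2 : F) := by
      have h2 := Pool.Agent.H14P.val_F w (2 : F)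
      rwa [map_ofNat (algebraMap F (w.adicCompletion F))] at h2
    rw [h2]
    have h3 : w.valuation F (algebraMap (𝓞 F) F 2) ≤ 1 := w.valuation_le_one (K := F) (2 : 𝓞 F)
    rwa [map_ofNat (algebraMap (𝓞 F) F)] at h3

theorem t (hC : S_LCT) : S_LOCX := by
  intro g F L _ _ _ _ _ f θ hg1 hg w e he
  obtain ⟨CL, hCL, hCL0, hCL1, hCL2⟩ := hC F L w e he
  obtain ⟨CF, hCF, hCF0, hCF1, hCF2⟩ := hC F F w e he
  have hfr : Module.finrank F L = 2 * g + 1 := hg.rank
  -- the primes of `F` over `w`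
  have hov : ∀ 𝔓 : HeightOneSpectrum (𝓞 F), Ov (F := F) (L := F) w.asIdeal 𝔓 ↔ 𝔓 = w := by
    intro 𝔓
    constructor
    · intro h
      have h1 : w.asIdeal ≤ 𝔓.asIdeal := fun a ha => h a ha
      have h2 := w.isMaximal.eq_of_le 𝔓.isPrime.ne_top h1
      exact HeightOneSpectrum.ext h2.symm
    · rintro rfl
      exact fun a ha => ha
  have hcard : Nat.card {𝔓 : HeightOneSpectrum (𝓞 F) // Ov (F := F) (L := F) w.asIdeal 𝔓} = 1 := by
    rw [Nat.card_eq_one_iff_unique]
    exact ⟨⟨fun a b => Subtype.ext (((hov _).1 a.2).trans ((hov _).1 b.2).symm)⟩,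
      ⟨⟨w, (hov w).2 rfl⟩⟩⟩
  rw [hcard, Module.finrank_self, one_mul, pow_one] at hCF
  have hq : 0 < Ideal.absNorm w.asIdeal := by
    rw [Nat.pos_iff_ne_zero, Ne, Ideal.absNorm_eq_zero_iff]
    exact w.ne_bot
  have hmax : ∀ S : Finset L, (∀ x ∈ S, x ∈ {α : L | α ≠ 0 ∧ IsSquare (Algebra.norm F α)}) →
      (∀ x ∈ S, ∀ y ∈ S, Rel w x y → x = y) → 4 * S.card ≤
        4 ^ Nat.card {𝔓 : HeightOneSpectrum (𝓞 L) // Ov w.asIdeal 𝔓} *
          Ideal.absNorm w.asIdeal ^ (2 * g * e) := by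
    intro S hS hS'
    -- the map
    have hex : ∀ z : L × F, ∃ c' : L, z ∈ S ×ˢ CF → c' ∈ CL ∧ Rel w (z.1 * algebraMap F L z.2) c' := by
      intro z
      by_cases hz : z ∈ S ×ˢ CF
      · rw [Finset.mem_product] at hz
        obtain ⟨c', hc', y, hy, h1⟩ := hCL1 (z.1 * algebraMap F L z.2)
          (mul_ne_zero (hS _ hz.1).1 (by rw [Ne, map_eq_zero]; exact hCF0 _ hz.2))
        exact ⟨c', fun _ => ⟨hc', y, hy, h1⟩⟩
      · exact ⟨0, fun h => absurd h hz⟩
    choose φ hφ using hex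
    have hinj : Set.InjOn φ (S ×ˢ CF : Finset (L × F)) := by
      intro z hz z' hz' hzz
      obtain ⟨h1, h2⟩ := hφ z hz
      obtain ⟨h1', h2'⟩ := hφ z' hz'
      rw [← hzz] at h2'
      rw [Finset.mem_coe, Finset.mem_product] at hz hz'
      obtain ⟨hz0, hzn⟩ := hS _ hz.1
      obtain ⟨hz0', hzn'⟩ := hS _ hz'.1
      have hc0 := hCF0 _ hz.2
      have hc0' := hCF0 _ hz'.2
      have hφ0 : φ z ≠ 0 := hCL0 _ h1
      -- the product is close to a square
      have h3 : Rel w (z.1 * algebraMap F L z.2) (z'.1 * algebraMap F L z'.2) := by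
        obtain ⟨y, hy, hy1⟩ := h2
        obtain ⟨y', hy', hy1'⟩ := h2'
        refine ⟨φ z * y * y', mul_ne_zero (mul_ne_zero hφ0 hy) hy', ?_⟩
        have e1 : z.1 * algebraMap F L z.2 * (z'.1 * algebraMap F L z'.2) * (φ z * y * y') ^ 2 =
            (z.1 * algebraMap F L z.2 * φ z * y ^ 2) *
              (z'.1 * algebraMap F L z'.2 * φ z * y' ^ 2) := by ring
        rw [e1]
        exact hy1.mul w hy1'
      -- the norm
      obtain ⟨y, hy, hy1⟩ := h3
      obtain ⟨p, hp⟩ := exists_poly hg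
        (z.1 * algebraMap F L z.2 * (z'.1 * algebraMap F L z'.2) * y ^ 2)
      obtain ⟨s, hs⟩ := (locS_iff hg (w.adicCompletion F)).1
        (Pool.Agent.H18N.LSQ.t g F L f θ hg w p (by
          intro 𝔓 h𝔓
          rw [hp]
          exact hy1 𝔓 h𝔓))
      have h4 := congrArg (Algebra.norm (w.adicCompletion F)) hs
      rw [emb_norm, hp, map_pow] at h4
      obtain ⟨n₁, hn₁⟩ := hzn
      obtain ⟨n₂, hn₂⟩ := hzn'
      have hn1 : n₁ ≠ 0 := by
        rintro rfl
        rw [mul_zero, Algebra.norm_eq_zero_iff] at hn₁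
        exact hz0 hn₁
      have hn2 : n₂ ≠ 0 := by
        rintro rfl
        rw [mul_zero, Algebra.norm_eq_zero_iff] at hn₂
        exact hz0' hn₂
      have hny : Algebra.norm F y ≠ 0 := by
        rw [Ne, Algebra.norm_eq_zero_iff]
        exact hy
      have h5 : Algebra.norm F (z.1 * algebraMap F L z.2 * (z'.1 * algebraMap F L z'.2) * y ^ 2) =
          (z.2 * z'.2) * (n₁ * n₂ * (z.2 * z'.2) ^ g * Algebra.norm F y) ^ 2 := by
        rw [map_mul, map_mul, map_mul, map_mul, map_pow, Algebra.norm_algebraMap,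
          Algebra.norm_algebraMap, hfr, hn₁, hn₂]
        ring
      have hq0 : n₁ * n₂ * (z.2 * z'.2) ^ g * Algebra.norm F y ≠ 0 :=
        mul_ne_zero (mul_ne_zero (mul_ne_zero hn1 hn2) (pow_ne_zero _ (mul_ne_zero hc0 hc0'))) hny
      obtain ⟨y₀, hy₀, hy₀'⟩ := approx w (z.2 * z'.2) (mul_ne_zero hc0 hc0')
        (Algebra.norm (w.adicCompletion F) s / algebraMap F (w.adicCompletion F)
          (n₁ * n₂ * (z.2 * z'.2) ^ g * Algebra.norm F y)) (by
          rw [div_pow, ← h4, h5, eq_div_iff (pow_ne_zero 2 (by rw [Ne, map_eq_zero]; exact hq0)),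
            ← map_pow, ← map_mul])
      have h6 : z'.2 = z.2 := by
        refine hCF2 _ hz'.2 _ hz.2 ⟨y₀, hy₀, fun 𝔓 h𝔓 => ?_⟩
        rw [(hov 𝔓).1 h𝔓]
        exact hy₀'
      have h7 : z.1 = z'.1 := by
        apply hS' _ hz.1 _ hz'.1
        refine Rel.cancel w (t := algebraMap F L z.2) (by rw [Ne, map_eq_zero]; exact hc0) ?_
        conv_rhs => rw [← h6]
        exact ⟨y, hy, hy1⟩
      exact Prod.ext h7 h6.symm
    have h8 := Finset.card_le_card_of_injOn φ (fun z hz => (hφ z hz).1) hinj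
    rw [Finset.card_product, hCF, hCL, hfr] at h8
    have e1 : Ideal.absNorm w.asIdeal ^ ((2 * g + 1) * e) =
        Ideal.absNorm w.asIdeal ^ (2 * g * e) * Ideal.absNorm w.asIdeal ^ e := by
      rw [← pow_add]; congr 1; ring
    rw [e1] at h8
    have h9 : (4 * S.card) * Ideal.absNorm w.asIdeal ^ e ≤
        (4 ^ Nat.card {𝔓 : HeightOneSpectrum (𝓞 L) // Ov w.asIdeal 𝔓} *
          Ideal.absNorm w.asIdeal ^ (2 * g * e)) * Ideal.absNorm w.asIdeal ^ e := by
      calc (4 * S.card) * Ideal.absNorm w.asIdeal ^ e =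
          S.card * (4 * Ideal.absNorm w.asIdeal ^ e) := by ring
        _ ≤ _ := h8
        _ = _ := by ring
    exact Nat.le_of_mul_le_mul_right h9 (pow_pos hq e)
  obtain ⟨C, hC1, hC2, hC3⟩ := maximal {α : L | α ≠ 0 ∧ IsSquare (Algebra.norm F α)} (Rel w)
    ((4 ^ Nat.card {𝔓 : HeightOneSpectrum (𝓞 L) // Ov w.asIdeal 𝔓} *
          Ideal.absNorm w.asIdeal ^ (2 * g * e)) / 4)
    (fun x hx => Rel.refl w hx.1) (fun x y h => h.symm) (by
      intro S hS hS'
      rw [Nat.le_div_iff_mul_le (by norm_num), mul_comm]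
      exact hmax S hS hS')
  refine ⟨C, ?_, hC2, ?_⟩
  · rw [Nat.le_div_iff_mul_le (by norm_num), mul_comm] at hC1
    exact hC1
  · intro α hα0 hα
    obtain ⟨c, hc, y, hy, hy1⟩ := hC3 α ⟨hα0, hα⟩
    refine ⟨c, hc, fun h hh => ?_⟩
    obtain ⟨p, hp⟩ := exists_poly hg (α * c * y ^ 2)
    obtain ⟨s, hs⟩ := (locS_iff hg (w.adicCompletion F)).1
      (Pool.Agent.H18N.LSQ.t g F L f θ hg w p (by
        intro 𝔓 h𝔓
        rw [hp]
        exact hy1 𝔓 h𝔓))
    rw [locS_iff hg (w.adicCompletion F), hh]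
    refine ⟨s * emb hg (w.adicCompletion F) y⁻¹, ?_⟩
    rw [mul_pow, ← hs, hp, ← map_pow, ← map_mul]
    congr 1
    field_simp

end Pool.Agent.H18N.LOCX
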