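import Pool.Agent.H18N.Per
import Pool.Agent.N547.PF.Min

/-!
# Project JN: the members of the family are minimal (after helper547)
-/

set_option autoImplicit false
set_option linter.all false

open Polynomial IsDedekindDomain NumberField
open scoped Classical

namespace Pool.Agent.H18N.Per

open Pool.Agent.N783.PF
open Pool.Agent.H18G (twf)

variable {F : Type} [Field F] [NumberField F]

/-- The twists are minimal outside `W`. -/
theorem min_out {g W : ℕ} {S J : Finset ℕ}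
    {𝔮 : ℕ → Ideal (𝓞 F)} {r P : ℕ → (𝓞 F)[X]} {f : (𝓞 F)[X]} (hg : 1 ≤ g) (hS : GoodS g W S 𝔮 r P)
    (hsq : SqW g W f) (hm : f.Monic) (hd : f.natDegree = 2 * g + 1)
    (hc : ∀ q ∈ S, Cg (sp F q) f (P q)) (hJ : J ⊆ S) (𝔭 : Ideal (𝓞 F)) (hp : 𝔭.IsPrime) (h0 : 𝔭 ≠ ⊥)
    (hWp : (W : 𝓞 F) ∉ 𝔭) :
    ¬ ∀ j ≤ 2 * g, (twf J f).coeff j ∈ 𝔭 ^ (2 * (2 * g + 1 - j)) := by
  intro hall
  haveI := hp
  set D : ℕ := Dp J with hD
  have hall' : ∀ j ≤ 2 * g, f.coeff j * (D : 𝓞 F) ^ (2 * g + 1 - j) ∈ 𝔭 ^ (2 * (2 * g + 1 - j)) := by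
    intro j hj
    have := hall j hj
    rwa [coeff_scaleRoots, hd] at this
  by_cases hD1 : (D : 𝓞 F) ∈ 𝔭
  · -- one of the primes is in `𝔭`
    have h1 : ∃ q ∈ J, (q : 𝓞 F) ∈ 𝔭 := by
      rw [hD, Dp, Nat.cast_prod] at hD1
      exact (hp.prod_mem_iff).1 hD1
    obtain ⟨q, hqJ, hq𝔭⟩ := h1
    have hqS := hJ hqJ
    obtain ⟨hqp, hWq, hgq, hq8, hq2, h𝔮p, hq𝔮, hrm, hrd, hri, hPm, hPd, hPc, hPr, hPi⟩ := hS q hqS
    have hD' : (D : 𝓞 F) = (q : 𝓞 F) * (∏ q' ∈ J.erase q, (q' : 𝓞 F)) := by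
      rw [Finset.mul_prod_erase J (fun q' => (q' : 𝓞 F)) hqJ, hD, Dp, Nat.cast_prod]
    have hrest : (∏ q' ∈ J.erase q, (q' : 𝓞 F)) ∉ 𝔭 := by
      rw [hp.prod_mem_iff]
      rintro ⟨q', hq', hq'𝔭⟩
      rw [Finset.mem_erase] at hq'
      have hq'p := (hS q' (hJ hq'.2)).1
      have hcop : Nat.Coprime q q' := (Nat.coprime_primes hqp hq'p).2 (Ne.symm hq'.1)
      have h2 : IsCoprime (q : ℤ) (q' : ℤ) := Nat.isCoprime_iff_coprime.2 hcop
      obtain ⟨a, b, hab⟩ := h2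
      apply hp.ne_top
      rw [Ideal.eq_top_iff_one]
      have h3 : ((a : 𝓞 F) * (q : 𝓞 F) + (b : 𝓞 F) * (q' : 𝓞 F)) = 1 := by exact_mod_cast congrArg (Int.cast : ℤ → 𝓞 F) hab
      rw [← h3]
      exact 𝔭.add_mem (𝔭.mul_mem_left _ hq𝔭) (𝔭.mul_mem_left _ hq'𝔭)
    have hD2 : (D : 𝓞 F) ∉ 𝔭 ^ 2 := by
      intro h
      rw [hD', mul_comm] at h
      rcases Ideal.IsPrime.mul_mem_pow 𝔭 h with h' | h'
      · exact hrest h'
      · exact hq2 𝔭 hp h'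
    have hco : ∀ j < 2 * g + 1, f.coeff j ∈ 𝔭 := by
      intro j hj
      have h2 := hall' j (by omega)
      by_contra hcon
      rcases Ideal.IsPrime.mul_mem_pow 𝔭 h2 with h' | h'
      · exact hcon h'
      · apply hD2
        rw [pow_mul, ← Ideal.span_singleton_le_iff_mem, ← Ideal.span_singleton_pow,
          ← Ideal.dvd_iff_le, UniqueFactorizationMonoid.pow_dvd_pow_iff_dvd (by omega), Ideal.dvd_iff_le,
          Ideal.span_singleton_le_iff_mem] at h'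
        exact h'
    have hf : rd 𝔭 f = X ^ (2 * g + 1) := Pool.Agent.N547.PF.map_eq_X_pow _ f _ hm hd fun j hj =>
      Ideal.Quotient.eq_zero_iff_mem.2 (hco j hj)
    have hle : sp F q ≤ 𝔭 := by rwa [sp, Ideal.span_singleton_le_iff_mem]
    have hfP : rd 𝔭 f = rd 𝔭 (P q) := by
      ext j
      rw [coeff_map, coeff_map]
      exact (Ideal.Quotient.mk_eq_mk_iff_sub_mem _ _).mpr (hle (hc q hqS j))
    haveI : Nontrivial (𝓞 F ⧸ 𝔭) := Ideal.Quotient.nontrivial_iff.mpr hp.ne_top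
    haveI : IsDomain (𝓞 F ⧸ 𝔭) := Ideal.Quotient.isDomain 𝔭
    by_cases h𝔭 : 𝔭 = 𝔮 q
    · have h3 : rd 𝔭 (P q) = X * rd 𝔭 (r q) := by
        rw [rd, rd, ← map_X (Ideal.Quotient.mk 𝔭), ← Polynomial.map_mul]
        ext j
        rw [coeff_map, coeff_map]
        exact (Ideal.Quotient.mk_eq_mk_iff_sub_mem _ _).mpr (h𝔭 ▸ hPr j)
      have h4 : rd 𝔭 (r q) = X ^ (2 * g) := by
        have h5 : (X : (𝓞 F ⧸ 𝔭)[X]) * rd 𝔭 (r q) = X * X ^ (2 * g) := by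
          rw [← h3, ← hfP, hf, pow_succ, mul_comm]
        exact mul_left_cancel₀ X_ne_zero h5
      rw [← h𝔭, h4] at hri
      exact not_irreducible_pow (by omega) hri
    · have h6 := hPi 𝔭 hp hq𝔭 h𝔭
      rw [← hfP, hf] at h6
      exact not_irreducible_pow (by omega) h6
  · -- `D` is a unit modulo `𝔭`
    have hco : ∀ j < 2 * g + 1, f.coeff j ∈ 𝔭 ^ 2 := by
      intro j hj
      have h2 := hall' j (by omega)
      have h3 : (D : 𝓞 F) ^ (2 * g + 1 - j) ∉ 𝔭 := fun h => hD1 (hp.mem_of_pow_mem _ h)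
      rw [mul_comm (f.coeff j)] at h2
      rcases Ideal.IsPrime.mul_mem_pow 𝔭 h2 with h' | h'
      · exact absurd h' h3
      · exact Ideal.pow_le_pow_right (by omega) h'
    have hf : f.map (Ideal.Quotient.mk (𝔭 ^ 2)) = X ^ (2 * g + 1) := Pool.Agent.N547.PF.map_eq_X_pow _ f _ hm hd
      fun j hj => Ideal.Quotient.eq_zero_iff_mem.2 (hco j hj)
    apply hsq.out 𝔭 hp h0 hWp
    rw [← Ideal.Quotient.eq_zero_iff_mem, dsc, ← resultant_map_map, ← derivative_map, hf,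
      resultant_X_pow_left]
    · rw [derivative_X_pow, coeff_C_mul, coeff_X_pow, if_neg (by omega), mul_zero,
        zero_pow (by omega)]
    · rw [derivative_X_pow]
      refine (natDegree_C_mul_le _ _).trans ?_
      refine (natDegree_X_pow_le _).trans (by omega)


/-- The members of the family are minimal, if `f₀` is so at the primes over `n`. -/
theorem min_fml {g W n : ℕ} (hg : 1 ≤ g) (hn : 0 < n) {f₀ f₁ : (𝓞 F)[X]} (hW : GoodW g W f₁)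
    (hN : n ^ (2 * (2 * g + 1)) ∣ W) (h0 : Cg (sp F (n ^ (2 * (2 * g + 1)))) f₁ f₀)
    (hmin : ∀ 𝔭 : Ideal (𝓞 F), 𝔭.IsPrime → (n : 𝓞 F) ∈ 𝔭 →
      ¬ ∀ j ≤ 2 * g, f₀.coeff j ∈ 𝔭 ^ (2 * (2 * g + 1 - j)))
    (hsep : ∀ 𝔭 : Ideal (𝓞 F), 𝔭.IsPrime → (W : 𝓞 F) ∈ 𝔭 →
      ((n ^ (2 * (2 * g + 1)) : ℕ) : 𝓞 F) ∉ 𝔭 → (rd 𝔭 f₁).Separable)
    {T : Finset ℕ} {𝔮 : ℕ → Ideal (𝓞 F)} {r P : ℕ → (𝓞 F)[X]} {𝒥 : Finset (Finset ℕ)}
    (hT : GoodS g W T 𝔮 r P) (hT1 : ∀ q ∈ T, q ≡ 1 [MOD W]) (hJ : ∀ J ∈ 𝒥, J ⊆ T)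
    {h : (𝓞 F)[X]} (hh : h ∈ FmlW g W f₁ T P 𝒥) : Min g h := by
  have hcg : Cg (sp F W) h f₁ := by
    have h1 := (fml_iff hg hW hT hJ h).2 hh
    exact rr_cg hT1 hJ hW.mon h1.mem
  have hin := (fml_iff hg hW hT hJ h).2 hh
  intro 𝔭 hp h𝔭 hall
  by_cases hWp : (W : 𝓞 F) ∈ 𝔭
  · by_cases hnp : (n : 𝓞 F) ∈ 𝔭
    · refine hmin 𝔭 hp hnp fun j hj => ?_
      have e1 : h.coeff j - f₀.coeff j ∈ sp F (n ^ (2 * (2 * g + 1))) :=
        (cg_trans (cg_mono (sp_le hN) hcg) h0) j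
      have e2 : sp F (n ^ (2 * (2 * g + 1))) ≤ 𝔭 ^ (2 * (2 * g + 1 - j)) := by
        rw [Ideal.span_singleton_le_iff_mem]
        push_cast
        exact Ideal.pow_le_pow_right (by omega) (Ideal.pow_mem_pow hnp _)
      have e3 := (𝔭 ^ (2 * (2 * g + 1 - j))).sub_mem (hall j hj) (e2 e1)
      rwa [sub_sub_cancel] at e3
    · have hs := hsep 𝔭 hp hWp (fun h' => hnp (by
        push_cast at h'
        exact hp.mem_of_pow_mem _ h'))
      have e1 : rd 𝔭 h = rd 𝔭 f₁ := by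
        ext j
        rw [coeff_map, coeff_map]
        exact Ideal.Quotient.eq.2 ((cg_mono ((Ideal.span_singleton_le_iff_mem _).2 hWp) hcg) j)
      rw [← e1] at hs
      have e2 : rd 𝔭 h = X ^ (2 * g + 1) := Pool.Agent.N547.PF.map_eq_X_pow _ h _ hin.mon hin.deg
        fun j hj => Ideal.Quotient.eq_zero_iff_mem.2
          (Ideal.pow_le_self (by omega) (hall j (by omega)))
      haveI : Nontrivial (𝓞 F ⧸ 𝔭) := Ideal.Quotient.nontrivial_iff.mpr hp.ne_top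
      rw [e2] at hs
      have h3 := hs.squarefree
      have h4 := h3 X (by
        rw [← pow_two]
        exact pow_dvd_pow _ (by omega))
      exact not_isUnit_X h4
  · obtain ⟨J, hJJ, f, hb, rfl⟩ := hh
    exact min_out hg hT hb.sqf hb.mon hb.deg hb.con (hJ J hJJ) 𝔭 hp h𝔭 hWp hall

end Pool.Agent.H18N.Per

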