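import Pool.Agent.H18N.Stm
import Pool.Agent.H14F.Adm
import Pool.Agent.H14F.Lam3

/-!
# Project JN, second part: all admissible extensions at once
-/

set_option autoImplicit false
set_option linter.all false

open Polynomial IsDedekindDomain NumberField
open scoped Classical Pointwise IntermediateField

namespace Pool.Agent.H18N

open Pool.Agent.N783.PF
open Pool.Agent.H14F (Tot Unr)
open Pool.Agent.H18G (SelLe twf)

/-- The extension `M / F` is Galois of 2-power degree, all primes over `D` and the real places split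
completely, and `f` is irreducible modulo the ramified primes. -/
structure AdmW (F M : Type) [Field F] [NumberField F] [Field M] [NumberField M] [Algebra F M]
    (D : ℕ) (f : (𝓞 F)[X]) : Prop where
  galois : IsGalois F M
  deg : ∃ n : ℕ, Module.finrank F M = 2 ^ n
  split : ∀ w : HeightOneSpectrum (𝓞 M), (D : 𝓞 M) ∈ w.asIdeal → Tot F w
  real : ∀ σ : F →+* ℝ, ∃ ρ : M →+* ℝ, ρ.comp (algebraMap F M) = σ
  ram : ∀ w : HeightOneSpectrum (𝓞 M), ¬ Unr F w → Irreducible (rd (w.under (𝓞 F)).asIdeal f)

/-- ADMW (`H68K/PR/AdmK.lean` and `H14F`, `H14P/AdmH.lean`, for all `g`): the bound over `F` for the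
relaxed Selmer group gives a bound over all admissible `M`. The predicate for the descent is the analogue
over `M` of `InR`; as all primes over `W` and over the `q` in `J` split completely, a class of `L` which
has it over `M` is in `InR`. (No converse: the step back to `SelH` in `AdmK` is not needed, because the
hypothesis is on `RelLe`.) `f` is irreducible over `M` because it is so modulo a prime over `W`. May assume
`S_LOCW`-like statements over `M` and the statements on the field `L`. -/
def S_ADMW : Prop := ∀ (g W : ℕ) (F M : Type) [Field F] [NumberField F] [Field M] [NumberField M]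
  [Algebra F M] (f f₁ : (𝓞 F)[X]) (S J : Finset ℕ) (𝔮 : ℕ → Ideal (𝓞 F))
  (r P : ℕ → (𝓞 F)[X]), 1 ≤ g → GoodW g W f₁ → Cg (sp F W) f f₁ → SqW g W f →
  GoodS g W S 𝔮 r P → (∀ q ∈ S, q ≡ 1 [MOD W]) → (∀ q ∈ S, Cg (sp F q) f (P q)) → J ⊆ S →
  AdmW F M (W * Dp J) f → ∀ n : ℕ, RelLe g W 𝔮 n J f →
  SelLe (n ^ Module.finrank F M) (twf J (f.map (algebraMap (𝓞 F) (𝓞 M))))

/-- STEPW (`H14F/Lam3.lean` and the files it uses; `Pool.Agent.H14F.exists_splP`): infinitely many primes
`l` such that `M(√l)` is admissible whenever `M` is. Let `p` be a prime factor of `W` which splits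
completely in `F`, `f` irreducible modulo all primes over `p`. An element `τ` of a decomposition group over
`p` of the Galois group of a normal field which contains the roots of the conjugates of `f` and the square
roots of `-1`, `2` and of the prime factors of `D` acts as a cycle of length `2 g + 1` on the roots of every
conjugate of `f` and trivially on the conjugates of `F`; the same holds for its square, which in addition
fixes the square roots. Chebotarev for `τ ^ 2`: `l = 1` modulo 8, `l` is a square modulo the prime factors of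
`D`, and `f` is irreducible modulo all primes over `l`. -/
def S_STEPW : Prop := ∀ (g D : ℕ) (F : Type) [Field F] [NumberField F] (f : (𝓞 F)[X]), 1 ≤ g →
  0 < D → 2 ∣ D → f.Monic → f.natDegree = 2 * g + 1 →
  (∃ p : ℕ, Pool.Agent.H14F.SplP F p ∧ ∀ 𝔭 : Ideal (𝓞 F), 𝔭.IsPrime → (p : 𝓞 F) ∈ 𝔭 →
    Irreducible (rd 𝔭 f)) →
  {l : ℕ | l.Prime ∧ ∀ (M M' : Type) [Field M] [NumberField M] [Field M'] [NumberField M']
    [Algebra F M] [Algebra M M'] [Algebra F M'] [IsScalarTower F M M'] (x : M'),
    x ^ 2 = (l : M') → M⟮x⟯ = ⊤ → AdmW F M D f → AdmW F M' D f}.Infinite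

/-- CLSX: as `S_CLSW` (`H18N/CLSW.lean`), with a prime factor `p` of `W` which splits completely in `F`
and such that `f₁` is irreducible modulo all primes over `p` (`Pool.Agent.H14F.exists_splP`; take it in
place of `ℓ`). -/
def S_CLSX : Prop := ∀ (g K N : ℕ) (F : Type) [Field F] [NumberField F] (f₀ : (𝓞 F)[X]), 1 ≤ g →
  0 < N → f₀.Monic → f₀.natDegree = 2 * g + 1 → f₀.coeff (2 * g) = 0 →
  ∃ (W : ℕ) (f₁ : (𝓞 F)[X]), N ∣ W ∧ K.factorial ∣ W ∧ Cg (sp F N) f₁ f₀ ∧ GoodW g W f₁ ∧
    (∀ 𝔭 : Ideal (𝓞 F), 𝔭.IsPrime → (W : 𝓞 F) ∈ 𝔭 → (N : 𝓞 F) ∉ 𝔭 → (rd 𝔭 f₁).Separable) ∧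
    ∃ p : ℕ, p ∣ W ∧ Pool.Agent.H14F.SplP F p ∧ ∀ 𝔭 : Ideal (𝓞 F), 𝔭.IsPrime → (p : 𝓞 F) ∈ 𝔭 →
      Irreducible (rd 𝔭 f₁)

end Pool.Agent.H18N
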