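import Pool.Agent.H18N.Minw
import Pool.Agent.H18N.StmA
import Pool.Agent.H14F.Pass
import Pool.Agent.H14P.AdmH

/-!
# Project JN: near every curve, all genera
-/

set_option autoImplicit false
set_option linter.all false

open Polynomial IsDedekindDomain NumberField
open scoped Classical Pointwise IntermediateField

namespace Pool.Agent.H18N.Per

open Pool.Agent.N783.PF
open Pool.Agent.H14F (Tot Unr)
open Pool.Agent.H18G (twf HtR SelLe)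
open Pool.Agent.H68K.PR (pr2)

/-- The prime numbers `l` such that `M(√l)` is admissible whenever `M` is. -/
def StepW (F : Type) [Field F] [NumberField F] (D : ℕ) (f : (𝓞 F)[X]) : Set ℕ := {l : ℕ | l.Prime ∧
  ∀ (M M' : Type) [Field M] [NumberField M] [Field M'] [NumberField M']
    [Algebra F M] [Algebra M M'] [Algebra F M'] [IsScalarTower F M M'] (x : M'),
    x ^ 2 = (l : M') → M⟮x⟯ = ⊤ → AdmW F M D f → AdmW F M' D f}

/-- The bound over all admissible fields. -/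
def BdA (F : Type) [Field F] [NumberField F] (D k : ℕ) (f : (𝓞 F)[X]) : Prop :=
  ∀ (M : Type) [Field M] [NumberField M] [Algebra F M], AdmW F M D f →
    Irreducible (fF (f.map (algebraMap (𝓞 F) (𝓞 M)))) ∧
    SelLe (2 ^ (k * Module.finrank F M)) (f.map (algebraMap (𝓞 F) (𝓞 M)))

theorem cg_irr {F : Type} [Field F] [NumberField F] {I : Ideal (𝓞 F)} {f f' : (𝓞 F)[X]}
    (h : Cg I f f') : rd I f = rd I f' := by
  ext j
  rw [coeff_map, coeff_map]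
  exact Ideal.Quotient.eq.2 (h j)

/-- Irreducibility over the admissible fields. -/
theorem irr_up {g W D : ℕ} {F M : Type} [Field F] [NumberField F] [Field M] [NumberField M]
    [Algebra F M] {f f₁ : (𝓞 F)[X]} (hW : GoodW g W f₁) (hc : Cg (sp F W) f f₁) (hm : f.Monic)
    (hM : AdmW F M D f) (hWD : W ∣ D) : Irreducible (fF (f.map (algebraMap (𝓞 F) (𝓞 M)))) := by
  obtain ⟨𝔭, hp, hWp, hirr⟩ := hW.irr
  have h0 : 𝔭 ≠ ⊥ := by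
    rintro rfl
    rw [Ideal.mem_bot] at hWp
    exact hW.pos.ne' (by exact_mod_cast hWp)
  haveI := hM.galois
  haveI hmax : 𝔭.IsMaximal := hp.isMaximal h0
  have hker : RingHom.ker (algebraMap (𝓞 F) (𝓞 M)) ≤ 𝔭 := by
    have hinj : Function.Injective (algebraMap (𝓞 F) (𝓞 M)) := FaithfulSMul.algebraMap_injective _ _
    rw [(RingHom.injective_iff_ker_eq_bot _).1 hinj]
    exact bot_le
  obtain ⟨Q, hQ, hQ'⟩ := Ideal.exists_ideal_over_maximal_of_isIntegral (S := 𝓞 M) 𝔭 hker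
  have hWQ : (W : 𝓞 M) ∈ Q := by
    have h1 : (W : 𝓞 F) ∈ Q.comap (algebraMap (𝓞 F) (𝓞 M)) := by rw [hQ']; exact hWp
    simpa using h1
  have hQ0 : Q ≠ ⊥ := by
    rintro rfl
    rw [Ideal.mem_bot] at hWQ
    exact hW.pos.ne' (by exact_mod_cast hWQ)
  set w : HeightOneSpectrum (𝓞 M) := ⟨Q, hQ.isPrime, hQ0⟩ with hw
  have hDw : (D : 𝓞 M) ∈ w.asIdeal := by
    obtain ⟨c, rfl⟩ := hWD
    rw [Nat.cast_mul]
    exact Ideal.mul_mem_right _ _ hWQ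
  have hund : (w.under (𝓞 F)).asIdeal = 𝔭 := hQ'
  refine Pool.Agent.H14F.irr_of_mod (hm.map _) (w := w) ?_
  refine Pool.Agent.H14F.irr_mod (Pool.Agent.H14F.tot_res (hM.split w hDw)) ?_
  rw [hund]
  have h2 : rd 𝔭 f = rd 𝔭 f₁ := cg_irr (cg_mono ((Ideal.span_singleton_le_iff_mem _).2 hWp) hc)
  show Irreducible (rd 𝔭 f)
  rw [h2]
  exact hirr

theorem twf_map {F M : Type} [Field F] [NumberField F] [Field M] [NumberField M] [Algebra F M]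
    {f : (𝓞 F)[X]} (hm : f.Monic) (J : Finset ℕ) :
    (twf J f).map (algebraMap (𝓞 F) (𝓞 M)) = twf J (f.map (algebraMap (𝓞 F) (𝓞 M))) := by
  ext1 j
  rw [coeff_map, coeff_scaleRoots, coeff_scaleRoots, coeff_map, hm.natDegree_map, map_mul, map_pow,
    map_natCast]

/-- From the relaxed Selmer group over `F` to all admissible fields. -/
theorem bda_of {g W : ℕ} (hA : S_ADMW) (hg : 1 ≤ g) {F : Type} [Field F] [NumberField F]
    {f₁ : (𝓞 F)[X]} (hW : GoodW g W f₁) {T : Finset ℕ} {𝔮 : ℕ → Ideal (𝓞 F)}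
    {r P : ℕ → (𝓞 F)[X]} {𝒥 : Finset (Finset ℕ)} (hT : GoodS g W T 𝔮 r P)
    (hT1 : ∀ q ∈ T, q ≡ 1 [MOD W]) (hJ : ∀ J ∈ 𝒥, J ⊆ T) {k : ℕ} {h : (𝓞 F)[X]}
    (hh : h ∈ FmlR g W f₁ T P 𝔮 𝒥 (2 ^ k)) : BdA F (md g W T) k h := by
  intro M _ _ _ hM
  obtain ⟨J, hJJ, f, hb, rfl, hrel⟩ := hh
  have hmem : twf J f ∈ FmlW g W f₁ T P 𝒥 := ⟨J, hJJ, f, hb, rfl⟩
  have hin := (fml_iff hg hW hT hJ _).2 hmem
  have hcg : Cg (sp F W) (twf J f) f₁ := rr_cg hT1 hJ hW.mon hin.mem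
  have hTp : ∀ q ∈ T, 0 < q := fun q hq => (hT q hq).1.pos
  refine ⟨irr_up hW hcg hin.mon hM (Dvd.intro _ rfl), ?_⟩
  rw [twf_map hb.mon, pow_mul]
  have hDJ : Dp J ∣ ∏ q ∈ T, q := Finset.prod_dvd_prod_of_subset _ _ _ (hJ J hJJ)
  have hdv : W * Dp J ∣ md g W T := by
    rw [md]
    exact Nat.mul_dvd_mul_left W (hDJ.trans (dvd_pow_self _ (by omega)))
  refine hA g W F M f f₁ T J 𝔮 r P hg hW hb.one hb.sqf hT hT1 hb.con (hJ J hJJ) ?_ (2 ^ k) hrel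
  refine ⟨hM.galois, hM.deg, fun w hw => ?_, hM.real, fun w hw => ?_⟩
  · refine hM.split w ?_
    obtain ⟨c, hc⟩ := hdv
    rw [hc, Nat.cast_mul]
    exact Ideal.mul_mem_right _ _ hw
  · have h1 := hM.ram w hw
    haveI : (w.under (𝓞 F)).asIdeal.IsMaximal := (w.under (𝓞 F)).isMaximal
    letI : Field (𝓞 F ⧸ (w.under (𝓞 F)).asIdeal) := Ideal.Quotient.field _
    rw [Pool.Agent.H14P.rd_scale hb.mon] at h1
    refine (Pool.Agent.H14P.irr_unscale (hb.mon.map _) ?_ h1).2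
    rw [hb.mon.natDegree_map, hb.deg]
    omega

/-- Near every curve: the law (upper bounds), all genera. -/
theorem near (hF : S_FAMNW) (hC : S_CLSX) (hA : S_ADMW) (hS : S_STEPW) (g : ℕ) (F : Type)
    [Field F] [NumberField F] (hg : 1 ≤ g) (n : ℕ) (hn : 0 < n) (f₀ : (𝓞 F)[X]) (hm : f₀.Monic)
    (hd : f₀.natDegree = 2 * g + 1) (ht : f₀.coeff (2 * g) = 0)
    (hmin : ∀ 𝔭 : Ideal (𝓞 F), 𝔭.IsPrime → (n : 𝓞 F) ∈ 𝔭 →
      ¬ ∀ j ≤ 2 * g, f₀.coeff j ∈ 𝔭 ^ (2 * (2 * g + 1 - j)))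
    (ε : ℝ) (hε : 0 < ε) :
    ∃ (M : ℕ) (R : Set (𝓞 F)[X]), 0 < M ∧ PerR M R ∧ (∀ f ∈ R, Cg (sp F n) f f₀) ∧
      (∀ f, InFm g M R f → Min g f ∧ Irreducible (fF f) ∧ (StepW F M f).Infinite) ∧
      ∃ (c Y₀ : ℝ), 0 < c ∧ ∀ Y : ℝ, {f : (𝓞 F)[X] | HtR g Y f}.Finite ∧
      (Y₀ ≤ Y → 0 < {f : (𝓞 F)[X] | HtR g Y f ∧ InFm g M R f}.ncard ∧
      c * ({f : (𝓞 F)[X] | HtR g Y f}.ncard : ℝ) ≤
        ({f : (𝓞 F)[X] | HtR g Y f ∧ InFm g M R f}.ncard : ℝ) ∧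
      ∀ k : ℕ, ({f : (𝓞 F)[X] | HtR g Y f ∧ InFm g M R f ∧ ¬ BdA F M k f}.ncard : ℝ) ≤
        (1 - ∑ j ∈ Finset.range (k + 1), pr2 j + ε) *
          ({f : (𝓞 F)[X] | HtR g Y f ∧ InFm g M R f}.ncard : ℝ)) := by
  obtain ⟨K, hK⟩ := hF g F hg
  have hN : 0 < n ^ (2 * (2 * g + 1)) := pow_pos hn _
  obtain ⟨W, f₁, hNW, hKW, hcg, hW, hsep, p, hpW, hpS, hpI⟩ :=
    hC g K (n ^ (2 * (2 * g + 1))) F f₀ hg hN hm hd ht
  obtain ⟨T, 𝔮, r, P, 𝒥, hT, hT1, hJ, c, Y₀, hc, h⟩ := hK W f₁ hKW hW ε hε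
  have hTp : ∀ q ∈ T, 0 < q := fun q hq => (hT q hq).1.pos
  have hM0 : 0 < md g W T := Nat.mul_pos hW.pos (pow_pos (Finset.prod_pos hTp) _)
  have hnW : n ∣ W := (dvd_pow_self n (by omega)).trans hNW
  have hfi : ∀ f, InFm g (md g W T) (RR g W f₁ T P 𝒥 (md g W T)) f ↔ f ∈ FmlW g W f₁ T P 𝒥 :=
    fml_iff hg hW hT hJ
  refine ⟨md g W T, RR g W f₁ T P 𝒥 (md g W T), hM0, per_rr _ _ _ _ _ _ _, fun f hf => ?_,
    fun f hf => ⟨?_, ?_, ?_⟩, c, Y₀, hc, fun Y => ?_⟩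
  · exact cg_trans (cg_mono (sp_le hnW) (rr_cg hT1 hJ hW.mon hf))
      (cg_mono (sp_le (dvd_pow_self n (by omega))) hcg)
  · exact min_fml hg hn hW hNW hcg hmin hsep hT hT1 hJ ((hfi f).1 hf)
  · have hcf : Cg (sp F W) f f₁ := rr_cg hT1 hJ hW.mon hf.mem
    obtain ⟨𝔭, hp, hWp, hirr⟩ := hW.irr
    have h0 : 𝔭 ≠ ⊥ := by
      rintro rfl
      rw [Ideal.mem_bot] at hWp
      exact hW.pos.ne' (by exact_mod_cast hWp)
    refine Pool.Agent.H14F.irr_of_mod hf.mon (w := ⟨𝔭, hp, h0⟩) ?_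
    show Irreducible (rd 𝔭 f)
    rw [cg_irr (cg_mono ((Ideal.span_singleton_le_iff_mem _).2 hWp) hcf)]
    exact hirr
  · have hcf : Cg (sp F W) f f₁ := rr_cg hT1 hJ hW.mon hf.mem
    refine hS g (md g W T) F f hg hM0 (hW.two.trans (Dvd.intro _ rfl)) hf.mon hf.deg
      ⟨p, hpS, fun 𝔭 hp hpp => ?_⟩
    have hWp : (W : 𝓞 F) ∈ 𝔭 := by
      obtain ⟨e, rfl⟩ := hpW
      rw [Nat.cast_mul]
      exact Ideal.mul_mem_right _ _ hpp
    rw [cg_irr (cg_mono ((Ideal.span_singleton_le_iff_mem _).2 hWp) hcf)]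
    exact hpI 𝔭 hp hpp
  · obtain ⟨h1, h2⟩ := h Y
    refine ⟨h1, fun hY => ?_⟩
    obtain ⟨h3, h4, h5⟩ := h2 hY
    simp only [hfi]
    refine ⟨h3, h4, fun k => ?_⟩
    refine le_trans ?_ (h5 k)
    have hsub : {f : (𝓞 F)[X] | HtR g Y f ∧ f ∈ FmlW g W f₁ T P 𝒥 ∧ ¬ BdA F (md g W T) k f} ⊆
        {f : (𝓞 F)[X] | HtR g Y f ∧ f ∈ FmlW g W f₁ T P 𝒥 ∧
          f ∉ FmlR g W f₁ T P 𝔮 𝒥 (2 ^ k)} := by
      rintro f ⟨a1, a2, a3⟩
      exact ⟨a1, a2, fun a4 => a3 (bda_of hA hg hW hT hT1 hJ a4)⟩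
    exact_mod_cast Set.ncard_le_ncard hsub (h1.subset fun f hf => hf.1)

end Pool.Agent.H18N.Per
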