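import Pool.Agent.H18N.DSJW
import Pool.Agent.H18N.CLSWa

/-!
# Project JN: the family of the twists is given by congruences
-/

set_option autoImplicit false
set_option linter.all false

open Polynomial IsDedekindDomain NumberField
open scoped Classical

namespace Pool.Agent.H18N.Per

open Pool.Agent.N783.PF
open Pool.Agent.H18G (twf HtR SelLe)

variable {F : Type} [Field F] [NumberField F]

/-- The family given by congruences modulo `M`: `f` is in `R` and its discriminant is not divisible by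
the square of a prime outside `M`. -/
structure InFm (g M : ℕ) (R : Set (𝓞 F)[X]) (f : (𝓞 F)[X]) : Prop where
  mon : f.Monic
  deg : f.natDegree = 2 * g + 1
  tr : f.coeff (2 * g) = 0
  mem : f ∈ R
  ne : dsc g f ≠ 0
  sqf : ∀ v : HeightOneSpectrum (𝓞 F), (M : 𝓞 F) ∉ v.asIdeal → dsc g f ∉ v.asIdeal ^ 2

/-- `R` is a union of residue classes modulo `M`. -/
def PerR (M : ℕ) (R : Set (𝓞 F)[X]) : Prop := ∀ f f', f ∈ R → Cg (sp F M) f' f → f' ∈ R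

theorem cg_refl (I : Ideal (𝓞 F)) (f : (𝓞 F)[X]) : Cg I f f := fun j => by
  rw [sub_self]
  exact I.zero_mem

theorem cg_symm {I : Ideal (𝓞 F)} {f f' : (𝓞 F)[X]} (h : Cg I f f') : Cg I f' f := fun j => by
  rw [← neg_sub]
  exact I.neg_mem (h j)

theorem cg_trans {I : Ideal (𝓞 F)} {f f' f'' : (𝓞 F)[X]} (h : Cg I f f') (h' : Cg I f' f'') :
    Cg I f f'' := fun j => by
  have := I.add_mem (h j) (h' j)
  rwa [sub_add_sub_cancel] at this

theorem cg_mono {I J : Ideal (𝓞 F)} (hIJ : I ≤ J) {f f' : (𝓞 F)[X]} (h : Cg I f f') : Cg J f f' :=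
  fun j => hIJ (h j)

theorem sp_le {m n : ℕ} (h : m ∣ n) : sp F n ≤ sp F m := by
  rw [Ideal.span_singleton_le_span_singleton]
  exact_mod_cast (Nat.cast_dvd_cast h : (m : 𝓞 F) ∣ (n : 𝓞 F))

theorem dsc_cg {g : ℕ} {I : Ideal (𝓞 F)} {f f' : (𝓞 F)[X]} (h : Cg I f f') :
    dsc g f - dsc g f' ∈ I := by
  have h1 : rd I f = rd I f' := by
    ext j
    rw [coeff_map, coeff_map]
    exact Ideal.Quotient.eq.2 (h j)
  rw [← Ideal.Quotient.eq]
  unfold dsc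
  rw [← resultant_map_map, ← resultant_map_map, ← derivative_map, ← derivative_map]
  show (rd I f).resultant (derivative (rd I f)) _ _ = (rd I f').resultant (derivative (rd I f')) _ _
  rw [h1]

theorem dsc_not_mem_of_sep {g : ℕ} {𝔭 : Ideal (𝓞 F)} (hp : 𝔭.IsPrime) (h0 : 𝔭 ≠ ⊥) {f : (𝓞 F)[X]}
    (hm : f.Monic) (hd : f.natDegree = 2 * g + 1) (hs : (rd 𝔭 f).Separable) : dsc g f ∉ 𝔭 := by
  have hmax : 𝔭.IsMaximal := hp.isMaximal h0
  letI : Field (𝓞 F ⧸ 𝔭) := Ideal.Quotient.field 𝔭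
  intro h
  have h1 : Ideal.Quotient.mk 𝔭 (dsc g f) = 0 := Ideal.Quotient.eq_zero_iff_mem.2 h
  unfold dsc at h1
  rw [← resultant_map_map, ← derivative_map] at h1
  exact Pool.Agent.H18N.CLSWa.dsc_field g (rd 𝔭 f) (hm.map _) (by rw [hm.natDegree_map]; exact hd) hs h1

theorem sep_q {g W : ℕ} (hg : 1 ≤ g) {T : Finset ℕ} {𝔮 : ℕ → Ideal (𝓞 F)} {r P : ℕ → (𝓞 F)[X]}
    (hT : GoodS g W T 𝔮 r P) {q : ℕ} (hq : q ∈ T) {𝔭 : Ideal (𝓞 F)} (hp : 𝔭.IsPrime)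
    (hqp : (q : 𝓞 F) ∈ 𝔭) : (rd 𝔭 (P q)).Separable := by
  obtain ⟨h1, -, -, -, -, h6, h7, h8, h9, h10, h11, h12, -, h14, h15⟩ := hT q hq
  have h0 : 𝔭 ≠ ⊥ := by
    rintro rfl
    rw [Ideal.mem_bot] at hqp
    exact h1.ne_zero (by exact_mod_cast hqp)
  have hmax : 𝔭.IsMaximal := hp.isMaximal h0
  letI : Field (𝓞 F ⧸ 𝔭) := Ideal.Quotient.field 𝔭
  haveI : Finite (𝓞 F ⧸ 𝔭) := Ideal.finiteQuotientOfFreeOfNeBot 𝔭 h0
  by_cases hpq : 𝔭 = 𝔮 q
  · subst hpq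
    have e1 : rd (𝔮 q) (P q) = X * rd (𝔮 q) (r q) := by
      have : rd (𝔮 q) (P q) = rd (𝔮 q) (X * r q) := by
        ext j
        rw [coeff_map, coeff_map]
        exact Ideal.Quotient.eq.2 (h14 j)
      rw [this, rd, Polynomial.map_mul, map_X]
    rw [e1]
    have h16 : (rd (𝔮 q) (r q)).Separable := PerfectField.separable_of_irreducible h10
    have h17 : (rd (𝔮 q) (r q)).natDegree = 2 * g := by rw [h8.natDegree_map]; exact h9
    refine Separable.mul separable_X h16 ?_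
    refine ((h10.coprime_iff_not_dvd (n := X)).2 fun h => ?_).symm
    have h18 := Polynomial.natDegree_le_of_dvd h X_ne_zero
    rw [h17, natDegree_X] at h18
    omega
  · exact PerfectField.separable_of_irreducible (h15 𝔭 hp hqp hpq)

theorem dsc_tw {g : ℕ} {f : (𝓞 F)[X]} (hf : f.natDegree = 2 * g + 1) (r : 𝓞 F) :
    dsc g (f.scaleRoots r) = r ^ ((2 * g + 1) * (2 * g)) * dsc g f :=
  Pool.Agent.H18N.DSJW.dsc_scaleRoots hf r

theorem sp_prime_not {g W : ℕ} {T : Finset ℕ} {𝔮 : ℕ → Ideal (𝓞 F)} {r P : ℕ → (𝓞 F)[X]}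
    (hW : 0 < W) (hT : GoodS g W T 𝔮 r P) {q : ℕ} (hq : q ∈ T) {𝔭 : Ideal (𝓞 F)} (hp : 𝔭.IsPrime)
    (hqp : (q : 𝓞 F) ∈ 𝔭) : (W : 𝓞 F) ∉ 𝔭 := by
  obtain ⟨h1, h2, -⟩ := hT q hq
  refine Pool.Agent.H18N.CLSWa.not_mem_of_coprime hp.ne_top hqp ?_
  exact (Nat.coprime_comm.1 ((Nat.Prime.coprime_iff_not_dvd h1).2 fun h => absurd (Nat.le_of_dvd hW h)
    (by omega)))

theorem prod_mem {T : Finset ℕ} {𝔭 : Ideal (𝓞 F)} (hp : 𝔭.IsPrime)
    (h : ((∏ q ∈ T, q : ℕ) : 𝓞 F) ∈ 𝔭) : ∃ q ∈ T, (q : 𝓞 F) ∈ 𝔭 := by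
  push_cast at h
  exact (Ideal.IsPrime.prod_mem_iff (hp := hp)).1 h

theorem dp_one {W : ℕ} {J : Finset ℕ} (h : ∀ q ∈ J, q ≡ 1 [MOD W]) : Dp J ≡ 1 [MOD W] := by
  induction J using Finset.induction_on with
  | empty => simpa using Nat.ModEq.refl 1
  | insert a s ha ih =>
    have h1 : Dp (insert a s) = a * Dp s := Finset.prod_insert ha
    rw [h1]
    have := (h a (Finset.mem_insert_self _ _)).mul (ih fun q hq => h q (Finset.mem_insert_of_mem hq))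
    simpa using this

/-- The residue classes. -/
def RR (g W : ℕ) (f₁ : (𝓞 F)[X]) (T : Finset ℕ) (P : ℕ → (𝓞 F)[X]) (𝒥 : Finset (Finset ℕ)) (M : ℕ) :
    Set (𝓞 F)[X] :=
  {h | ∃ J ∈ 𝒥, ∃ f : (𝓞 F)[X], f.Monic ∧ f.natDegree = 2 * g + 1 ∧ f.coeff (2 * g) = 0 ∧
    Cg (sp F W) f f₁ ∧ (∀ q ∈ T, Cg (sp F q) f (P q)) ∧ Cg (sp F M) h (twf J f)}

theorem per_rr (g W : ℕ) (f₁ : (𝓞 F)[X]) (T : Finset ℕ) (P : ℕ → (𝓞 F)[X]) (𝒥 : Finset (Finset ℕ))
    (M : ℕ) : PerR M (RR g W f₁ T P 𝒥 M) := by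
  rintro f f' ⟨J, hJ, k, h1, h2, h3, h4, h5, h6⟩ h
  exact ⟨J, hJ, k, h1, h2, h3, h4, h5, cg_trans h h6⟩

/-- The modulus. -/
def md (g W : ℕ) (T : Finset ℕ) : ℕ := W * (∏ q ∈ T, q) ^ (2 * g + 2)

theorem rr_cg {g W : ℕ} {f₁ : (𝓞 F)[X]} {T : Finset ℕ} {P : ℕ → (𝓞 F)[X]} {𝒥 : Finset (Finset ℕ)}
    (hT1 : ∀ q ∈ T, q ≡ 1 [MOD W]) (hJ : ∀ J ∈ 𝒥, J ⊆ T) (hf1 : f₁.Monic)
    {f : (𝓞 F)[X]} (hf : f ∈ RR g W f₁ T P 𝒥 (md g W T)) : Cg (sp F W) f f₁ := by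
  obtain ⟨J, hJ', k, h1, h2, h3, h4, h5, h6⟩ := hf
  refine cg_trans (cg_mono (sp_le (Dvd.intro _ rfl)) h6) (cg_trans (fun j => ?_) h4)
  have e1 : Dp J ≡ 1 [MOD W] := dp_one fun q hq => hT1 q (hJ J hJ' hq)
  have e2 : ((Dp J : ℕ) : 𝓞 F) - 1 ∈ sp F W := by
    rw [Ideal.mem_span_singleton]
    have := (Nat.modEq_iff_dvd.1 e1.symm)
    obtain ⟨c, hc⟩ := this
    refine ⟨(c : 𝓞 F), ?_⟩
    have h7 := congrArg (fun z : ℤ => (z : 𝓞 F)) hc
    push_cast at h7 ⊢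
    exact h7
  rw [coeff_scaleRoots]
  have e3 : Ideal.Quotient.mk (sp F W) ((Dp J : ℕ) : 𝓞 F) = 1 := by
    rw [← map_one (Ideal.Quotient.mk (sp F W))]
    exact Ideal.Quotient.eq.2 e2
  rw [← Ideal.Quotient.eq, map_mul, map_pow, e3, one_pow, mul_one]

theorem sq_out {g M : ℕ} {f : (𝓞 F)[X]} (hf : f.natDegree = 2 * g + 1) {d : ℕ}
    {𝔭 : Ideal (𝓞 F)} (hp : 𝔭.IsPrime) (hd : (d : 𝓞 F) ∉ 𝔭) :
    dsc g (f.scaleRoots (d : 𝓞 F)) ∈ 𝔭 ^ 2 ↔ dsc g f ∈ 𝔭 ^ 2 := by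
  rw [dsc_tw hf]
  constructor
  · intro h
    refine Pool.Agent.H18N.DSJW.cg_pow_mem hp (fun h' => hd ?_) h
    exact hp.mem_of_pow_mem _ h'
  · intro h
    exact Ideal.mul_mem_left _ _ h

/-- The discriminant of a member of the base family. -/
theorem sqw_of {g W : ℕ} (hg : 1 ≤ g) {f₁ : (𝓞 F)[X]} (hW : GoodW g W f₁) {T : Finset ℕ}
    {𝔮 : ℕ → Ideal (𝓞 F)} {r P : ℕ → (𝓞 F)[X]} (hT : GoodS g W T 𝔮 r P) {f : (𝓞 F)[X]}
    (hm : f.Monic) (hd : f.natDegree = 2 * g + 1) (h1 : Cg (sp F W) f f₁)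
    (h2 : ∀ q ∈ T, Cg (sp F q) f (P q))
    (h3 : ∀ 𝔭 : Ideal (𝓞 F), 𝔭.IsPrime → 𝔭 ≠ ⊥ → (W : 𝓞 F) ∉ 𝔭 →
      ((∏ q ∈ T, q : ℕ) : 𝓞 F) ∉ 𝔭 → dsc g f ∉ 𝔭 ^ 2) : SqW g W f := by
  refine ⟨hW.pos, hW.two, fun 𝔭 hp h0 hWp => ?_, fun 𝔭 hp h0 hWp => ?_⟩
  · by_cases hq : ((∏ q ∈ T, q : ℕ) : 𝓞 F) ∈ 𝔭
    · obtain ⟨q, hqT, hqp⟩ := prod_mem hp hq
      intro h
      obtain ⟨-, -, -, -, -, -, -, -, -, -, h11, h12, -⟩ := hT q hqT
      have h4 := dsc_not_mem_of_sep hp h0 h11 h12 (sep_q hg hT hqT hp hqp)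
      apply h4
      have h5 : dsc g f - dsc g (P q) ∈ 𝔭 :=
        dsc_cg (cg_mono ((Ideal.span_singleton_le_iff_mem _).2 hqp) (h2 q hqT))
      have h6 : dsc g f ∈ 𝔭 := Ideal.pow_le_self two_ne_zero h
      have := 𝔭.sub_mem h6 h5
      rwa [sub_sub_cancel] at this
    · exact h3 𝔭 hp h0 hWp hq
  · obtain ⟨k, hk1, hk2⟩ := hW.inn 𝔭 hp h0 hWp
    refine ⟨k, fun h => hk1 ?_, hk2⟩
    have h5 : dsc g f - dsc g f₁ ∈ 𝔭 ^ k :=
      dsc_cg (cg_mono ((Ideal.span_singleton_le_iff_mem _).2 hk2) h1)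
    have := (𝔭 ^ k).sub_mem h h5
    rwa [sub_sub_cancel] at this

/-- The family given by congruences is the family of the twists. -/
theorem fml_iff {g W : ℕ} (hg : 1 ≤ g) {f₁ : (𝓞 F)[X]} (hW : GoodW g W f₁) {T : Finset ℕ}
    {𝔮 : ℕ → Ideal (𝓞 F)} {r P : ℕ → (𝓞 F)[X]} {𝒥 : Finset (Finset ℕ)} (hT : GoodS g W T 𝔮 r P)
    (hJ : ∀ J ∈ 𝒥, J ⊆ T) (h : (𝓞 F)[X]) :
    InFm g (md g W T) (RR g W f₁ T P 𝒥 (md g W T)) h ↔ h ∈ FmlW g W f₁ T P 𝒥 := by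
  have hTp : ∀ q ∈ T, 0 < q := fun q hq => (hT q hq).1.pos
  set D : ℕ := ∏ q ∈ T, q with hD
  have hD0 : 0 < D := Finset.prod_pos hTp
  have hMW : ∀ v : HeightOneSpectrum (𝓞 F), ((md g W T : ℕ) : 𝓞 F) ∉ v.asIdeal ↔
      (W : 𝓞 F) ∉ v.asIdeal ∧ (D : 𝓞 F) ∉ v.asIdeal := by
    intro v
    have := v.isPrime
    rw [md, ← hD]
    push_cast
    rw [v.isPrime.mul_mem_iff_mem_or_mem, not_or, v.isPrime.pow_mem_iff_mem _ (by omega)]
  constructor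
  · rintro ⟨h1, h2, h3, ⟨J, hJJ, f₂, k1, k2, k3, k4, k5, k6⟩, h5, h6⟩
    have hDJ : Dp J ∣ D := Finset.prod_dvd_prod_of_subset _ _ _ (hJ J hJJ)
    have hDJ0 : 0 < Dp J := Finset.prod_pos fun q hq => hTp q (hJ J hJJ hq)
    obtain ⟨E, hE⟩ := hDJ
    -- the coefficients
    have hc : ∀ j : ℕ, ∃ c : 𝓞 F, (j ≤ 2 * g → h.coeff j = c * ((Dp J : ℕ) : 𝓞 F) ^ (2 * g + 1 - j)) ∧
        (j ≤ 2 * g → c - f₂.coeff j ∈ sp F (W * D)) := by
      intro j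
      by_cases hj : j ≤ 2 * g
      · have e1 := k6 j
        rw [coeff_scaleRoots, k2] at e1
        obtain ⟨x, hx⟩ := Ideal.mem_span_singleton.1 e1
        have e2 : md g W T = Dp J ^ (2 * g + 1 - j) * (Dp J ^ (j + 1) * E ^ (2 * g + 2) * W) := by
          rw [md, ← hD, hE]
          have : 2 * g + 2 = (2 * g + 1 - j) + (j + 1) := by omega
          rw [mul_pow]
          nth_rewrite 1 [this]
          rw [pow_add]
          ring
        have e3 : W * D ∣ Dp J ^ (j + 1) * E ^ (2 * g + 2) * W := by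
          rw [hE]
          refine ⟨Dp J ^ j * E ^ (2 * g + 1), ?_⟩
          rw [pow_succ, pow_succ E]
          ring
        refine ⟨f₂.coeff j + ((Dp J ^ (j + 1) * E ^ (2 * g + 2) * W : ℕ) : 𝓞 F) * x, fun _ => ?_,
          fun _ => ?_⟩
        · have e4 : h.coeff j = f₂.coeff j * ((Dp J : ℕ) : 𝓞 F) ^ (2 * g + 1 - j) +
              ((md g W T : ℕ) : 𝓞 F) * x := by
            rw [← hx]
            ring
          rw [e4, e2]
          push_cast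
          ring
        · rw [add_sub_cancel_left]
          refine Ideal.mul_mem_right _ _ ?_
          rw [Ideal.mem_span_singleton]
          exact_mod_cast (Nat.cast_dvd_cast e3 : ((W * D : ℕ) : 𝓞 F) ∣ _)
      · exact ⟨0, fun h => absurd h hj, fun h => absurd h hj⟩
    choose c hc1 hc2 using hc
    set f : (𝓞 F)[X] := X ^ (2 * g + 1) + ∑ j ∈ Finset.range (2 * g + 1), C (c j) * X ^ j with hf
    have hlow : (∑ j ∈ Finset.range (2 * g + 1), C (c j) * X ^ j).degree < ((2 * g + 1 : ℕ) : WithBot ℕ) := by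
      refine (degree_sum_le _ _).trans_lt ?_
      rw [Finset.sup_lt_iff (WithBot.bot_lt_coe _)]
      intro j hj
      exact (degree_C_mul_X_pow_le _ _).trans_lt (by exact_mod_cast Finset.mem_range.1 hj)
    have hfm : f.Monic := monic_X_pow_add hlow
    have hfd : f.natDegree = 2 * g + 1 := by
      rw [hf]
      refine natDegree_eq_of_degree_eq_some ?_
      rw [degree_add_eq_left_of_degree_lt (by rw [degree_X_pow]; exact hlow), degree_X_pow]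
    have hfc : ∀ j ≤ 2 * g, f.coeff j = c j := by
      intro j hj
      rw [hf, coeff_add, coeff_X_pow, if_neg (by omega), zero_add, finset_sum_coeff]
      simp only [coeff_C_mul, coeff_X_pow, mul_ite, mul_one, mul_zero]
      rw [Finset.sum_ite_eq, if_pos (Finset.mem_range.2 (by omega))]
    have hft : f.coeff (2 * g) = 0 := by
      rw [hfc _ le_rfl]
      have e1 := hc1 (2 * g) le_rfl
      rw [h3] at e1
      have e2 : (((Dp J : ℕ) : 𝓞 F)) ^ (2 * g + 1 - 2 * g) ≠ 0 :=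
        pow_ne_zero _ (by exact_mod_cast hDJ0.ne')
      exact (mul_eq_zero.1 e1.symm).resolve_right e2
    have hcg : Cg (sp F (W * D)) f f₂ := by
      intro j
      rcases le_or_gt j (2 * g) with hj | hj
      · rw [hfc j hj]
        exact hc2 j hj
      · have e1 : f.coeff j = f₂.coeff j := by
          rcases eq_or_lt_of_le (Nat.succ_le_of_lt hj) with h7 | h7
          · have h8 : j = 2 * g + 1 := h7.symm
            rw [h8]
            have a1 : f.coeff (2 * g + 1) = 1 := by rw [← hfd]; exact hfm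
            have a2 : f₂.coeff (2 * g + 1) = 1 := by rw [← k2]; exact k1
            rw [a1, a2]
          · rw [coeff_eq_zero_of_natDegree_lt (by omega), coeff_eq_zero_of_natDegree_lt (by omega)]
        rw [e1, sub_self]
        exact zero_mem _
    have hh : h = twf J f := by
      ext1 j
      rw [coeff_scaleRoots, hfd]
      rcases le_or_gt j (2 * g) with hj | hj
      · rw [hfc j hj]
        exact hc1 j hj
      · rcases eq_or_lt_of_le (Nat.succ_le_of_lt hj) with h7 | h7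
        · have h8 : j = 2 * g + 1 := h7.symm
          rw [h8, Nat.sub_self, pow_zero, mul_one]
          have a1 : f.coeff (2 * g + 1) = 1 := by rw [← hfd]; exact hfm
          have a2 : h.coeff (2 * g + 1) = 1 := by rw [← h2]; exact h1
          rw [a1, a2]
        · rw [coeff_eq_zero_of_natDegree_lt (by omega), coeff_eq_zero_of_natDegree_lt (by omega),
            zero_mul]
    have hW1 : Cg (sp F W) f f₁ := cg_trans (cg_mono (sp_le (Dvd.intro _ rfl)) hcg) k4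
    have hQ1 : ∀ q ∈ T, Cg (sp F q) f (P q) := fun q hq =>
      cg_trans (cg_mono (sp_le (Dvd.dvd.mul_left (Finset.dvd_prod_of_mem _ hq) _)) hcg) (k5 q hq)
    refine ⟨J, hJJ, f, ⟨hfm, hfd, hft, hW1, hQ1, sqw_of hg hW hT hfm hfd hW1 hQ1 ?_⟩, hh⟩
    intro 𝔭 hp h0 hWp hDp h7
    rw [← hD] at hDp
    refine h6 ⟨𝔭, hp, h0⟩ ((hMW _).2 ⟨hWp, hDp⟩) ?_
    rw [hh]
    exact (sq_out (M := 0) hfd hp (fun h8 => hDp (by
      rw [hE, Nat.cast_mul]
      exact Ideal.mul_mem_right _ _ h8))).2 h7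
  · rintro ⟨J, hJJ, f, hb, rfl⟩
    have hDJ : Dp J ∣ D := Finset.prod_dvd_prod_of_subset _ _ _ (hJ J hJJ)
    have hDJ0 : 0 < Dp J := Finset.prod_pos fun q hq => hTp q (hJ J hJJ hq)
    have h0 : dsc g f ≠ 0 := by
      obtain ⟨𝔭, hp, hWp, -⟩ := hW.irr
      intro h
      have hne : 𝔭 ≠ ⊥ := by
        rintro rfl
        rw [Ideal.mem_bot] at hWp
        exact hW.pos.ne' (by exact_mod_cast hWp)
      obtain ⟨k, hk, -⟩ := hb.sqf.inn 𝔭 hp hne hWp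
      apply hk
      rw [h]
      exact zero_mem _
    refine ⟨?_, ?_, ?_, ⟨J, hJJ, f, hb.mon, hb.deg, hb.tr, hb.one, hb.con, cg_refl _ _⟩, ?_, ?_⟩
    · exact (monic_scaleRoots_iff _).2 hb.mon
    · rw [natDegree_scaleRoots]
      exact hb.deg
    · rw [coeff_scaleRoots, hb.tr, zero_mul]
    · rw [dsc_tw hb.deg]
      exact mul_ne_zero (pow_ne_zero _ (by exact_mod_cast hDJ0.ne')) h0
    · intro v hv h7
      obtain ⟨h8, h9⟩ := (hMW v).1 hv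
      refine hb.sqf.out v.asIdeal v.isPrime v.ne_bot h8 ((sq_out (M := 0) hb.deg v.isPrime fun h10 => h9 ?_).1 h7)
      obtain ⟨E, hE⟩ := hDJ
      rw [hE, Nat.cast_mul]
      exact Ideal.mul_mem_right _ _ h10

end Pool.Agent.H18N.Per
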