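import Pool.Agent.H18N.Stm
import Pool.Agent.H18G.REGG
import Pool.Agent.H18G.CMPG

/-!
# The boxes with weights: `|coeff j| ≤ ω j * Y ^ (2 g + 1 - j)` (helper82)

The versions `S_REGV` of `S_REGW` and `S_CMPV` of `S_CMPG` for the boxes with positive weights `ω j`
(for `g = 1` and the weights `27 ^ (-1/2)`, `4 ^ (-1/3)` this is the naive height
`max (4 |A| ^ 3) (27 B ^ 2)`). After `H18N/REGW.lean`, `H18G/REGG.lean`.
-/

set_option autoImplicit false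
set_option linter.all false

open Polynomial NumberField NumberField.InfinitePlace
open Pool.Agent.N352.PJ (dd)
open Pool.Agent.N783.PF
open Pool.Agent.H18G (HtR)
open Pool.Agent.H18G.REGG
open scoped Classical

namespace Pool.Agent.H18N

/-- The polynomials of height at most `Y`, for the weights `ω`. -/
structure HtV {F : Type} [Field F] [NumberField F] (g : ℕ) (ω : ℕ → ℝ) (Y : ℝ) (f : (𝓞 F)[X]) :
    Prop where
  mon : f.Monic
  deg : f.natDegree = 2 * g + 1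
  tr : f.coeff (2 * g) = 0
  ht : ∀ j ≤ 2 * g, Bd (f.coeff j : F) (ω j * Y ^ (2 * g + 1 - j))

/-- REGV: `S_REGW` for the boxes with weights. -/
def S_REGV : Prop := ∀ (g : ℕ) (ω : ℕ → ℝ) (F : Type) [Field F] [NumberField F], 1 ≤ g →
  (∀ j, 0 < ω j) →
  ∀ (W : ℕ) (c : ℝ), 0 < W → 0 < c → ∀ ε : ℝ, 0 < ε → ∃ δ : ℝ, 0 < δ ∧ ∀ m : ℕ, ∃ η : ℝ, 0 < η ∧
  ∀ (T : Finset ℕ) (f₁ : (𝓞 F)[X]) (P : ℕ → (𝓞 F)[X]) (Pr : (𝓞 F)[X] → Prop),
    (∀ q ∈ T, q.Prime ∧ Nat.Coprime W q) →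
    (∃ B₀ : ℕ, ∀ B ≥ B₀,
      c * (B : ℝ) ^ (Module.finrank ℚ F * dd g) ≤
        (((∏ q ∈ T, q ^ (2 * g)) ^ Module.finrank ℚ F : ℕ) : ℝ) *
        ({f : (𝓞 F)[X] | Ht g B f ∧ BaseW g W f₁ T P f}.ncard : ℝ) ∧
      (((∏ q ∈ T, q ^ (2 * g)) ^ Module.finrank ℚ F : ℕ) : ℝ) *
        ({f : (𝓞 F)[X] | Ht g B f ∧ BaseW g W f₁ T P f ∧ ¬ Pr f}.ncard : ℝ) ≤
        δ * (c * (B : ℝ) ^ (Module.finrank ℚ F * dd g))) →
    ∃ (c' Y₀ : ℝ), 0 < c' ∧ ∀ Y : ℝ, {f : (𝓞 F)[X] | HtV g ω Y f}.Finite ∧ (Y₀ ≤ Y →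
    0 < {f : (𝓞 F)[X] | HtV g ω Y f ∧ BaseW g W f₁ T P f}.ncard ∧
    c' * ({f : (𝓞 F)[X] | HtV g ω Y f}.ncard : ℝ) ≤
      ({f : (𝓞 F)[X] | HtV g ω Y f ∧ BaseW g W f₁ T P f}.ncard : ℝ) ∧
    ({f : (𝓞 F)[X] | HtV g ω Y f ∧ BaseW g W f₁ T P f ∧ ¬ HtV g ω (Y / (1 + η) ^ m) f}.ncard : ℝ) ≤
      ε * ({f : (𝓞 F)[X] | HtV g ω Y f ∧ BaseW g W f₁ T P f}.ncard : ℝ) ∧
    ({f : (𝓞 F)[X] | HtV g ω Y f ∧ BaseW g W f₁ T P f ∧ ¬ Pr f}.ncard : ℝ) ≤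
      ε * ({f : (𝓞 F)[X] | HtV g ω Y f ∧ BaseW g W f₁ T P f}.ncard : ℝ))

/-- CMPV: `S_CMPG` for the boxes with weights. -/
def S_CMPV : Prop := ∀ (g : ℕ) (ω : ℕ → ℝ) (F : Type) [Field F] [NumberField F],
  (∀ j, 0 < ω j) → ∀ d : ℝ, 0 < d →
  ∃ (C Y₀ : ℝ), 0 < C ∧ ∀ Y ≥ Y₀, {f : (𝓞 F)[X] | HtV g ω Y f}.Finite ∧
    ({f : (𝓞 F)[X] | HtV g ω Y f}.ncard : ℝ) ≤ C * ({f : (𝓞 F)[X] | HtV g ω (Y / d) f}.ncard : ℝ)

namespace REGV

theorem wts (n : ℕ) (ω : ℕ → ℝ) (hω : ∀ j, 0 < ω j) : ∃ a b : ℝ, 0 < a ∧ a ≤ 1 ∧ 1 ≤ b ∧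
    ∀ j ≤ n, a ≤ ω j ∧ ω j ≤ b := by
  induction n with
  | zero =>
    refine ⟨min 1 (ω 0), max 1 (ω 0), lt_min one_pos (hω 0), min_le_left _ _, le_max_left _ _,
      fun j hj => ?_⟩
    obtain rfl : j = 0 := by omega
    exact ⟨min_le_right _ _, le_max_right _ _⟩
  | succ n ih =>
    obtain ⟨a, b, h1, h2, h3, h4⟩ := ih
    refine ⟨min a (ω (n + 1)), max b (ω (n + 1)), lt_min h1 (hω _), (min_le_left _ _).trans h2,
      h3.trans (le_max_left _ _), fun j hj => ?_⟩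
    rcases Nat.lt_or_ge j (n + 1) with h | h
    · exact ⟨(min_le_left _ _).trans (h4 j (by omega)).1, (h4 j (by omega)).2.trans (le_max_left _ _)⟩
    · obtain rfl : j = n + 1 := by omega
      exact ⟨min_le_right _ _, le_max_right _ _⟩

section fld

variable {F : Type} [Field F] [NumberField F]

theorem htv_of {g : ℕ} {ω : ℕ → ℝ} {a Y : ℝ} (ha : 0 < a) (ha1 : a ≤ 1)
    (haω : ∀ j ≤ 2 * g, a ≤ ω j) (hY : 0 ≤ Y) {f : (𝓞 F)[X]} (hf : HtR g (a * Y) f) :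
    HtV g ω Y f :=
  ⟨hf.mon, hf.deg, hf.tr, fun j hj σ => (hf.ht j hj σ).trans (by
    rw [mul_pow]
    refine mul_le_mul_of_nonneg_right ?_ (by positivity)
    exact (pow_le_of_le_one ha.le ha1 (by omega)).trans (haω j hj))⟩

theorem htr_of {g : ℕ} {ω : ℕ → ℝ} {b Y : ℝ} (hb : 1 ≤ b)
    (hbω : ∀ j ≤ 2 * g, ω j ≤ b) (hY : 0 ≤ Y) {f : (𝓞 F)[X]} (hf : HtV g ω Y f) :
    HtR g (b * Y) f :=
  ⟨hf.mon, hf.deg, hf.tr, fun j hj σ => (hf.ht j hj σ).trans (by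
    rw [mul_pow]
    refine mul_le_mul_of_nonneg_right ?_ (by positivity)
    exact (hbω j hj).trans (le_self_pow₀ hb (by omega)))⟩

theorem htv_mono {g : ℕ} {ω : ℕ → ℝ} (hω : ∀ j, 0 < ω j) {Y Y' : ℝ} (h0 : 0 ≤ Y) (h : Y ≤ Y')
    {f : (𝓞 F)[X]} (hf : HtV g ω Y f) : HtV g ω Y' f :=
  ⟨hf.mon, hf.deg, hf.tr, fun j hj σ => (hf.ht j hj σ).trans
    (mul_le_mul_of_nonneg_left (pow_le_pow_left₀ h0 h _) (hω j).le)⟩

theorem htv_abs {g : ℕ} {ω : ℕ → ℝ} (hω : ∀ j, 0 < ω j) {Y : ℝ} {f : (𝓞 F)[X]} (hf : HtV g ω Y f) :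
    HtV g ω |Y| f :=
  ⟨hf.mon, hf.deg, hf.tr, fun j hj σ => (hf.ht j hj σ).trans
    (mul_le_mul_of_nonneg_left (by rw [← abs_pow]; exact le_abs_self _) (hω j).le)⟩

theorem htv_fin (g : ℕ) (ω : ℕ → ℝ) (hω : ∀ j, 0 < ω j) (F : Type) [Field F] [NumberField F]
    (Y : ℝ) : {f : (𝓞 F)[X] | HtV g ω Y f}.Finite := by
  obtain ⟨a, b, ha, ha1, hb, hab⟩ := wts (2 * g) ω hω
  exact (htr_fin g F (b * |Y|)).subset fun f hf =>
    htr_of hb (fun j hj => (hab j hj).2) (abs_nonneg _) (htv_abs hω hf)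

/-- the volume of a box -/
theorem vol' (r : ℝ) : ∏ v : InfinitePlace F, r ^ v.mult = r ^ Module.finrank ℚ F := by
  rw [Finset.prod_pow_eq_pow_sum, InfinitePlace.sum_mult_eq]

end fld

/-- the thin shell -/
theorem shellV (g : ℕ) (ω : ℕ → ℝ) (hω : ∀ j, 0 < ω j) (F : Type) [Field F] [NumberField F] :
    ∃ κ : ℝ, 0 < κ ∧ ∀ (N : ℕ) (η : ℝ), 0 < N → 0 < η → η ≤ 1 → ∃ Y₀ : ℝ, ∀ Y ≥ Y₀, ∀ a : ℕ → 𝓞 F,
      ({f : (𝓞 F)[X] | HtV g ω Y f}.ncard : ℝ) ≤ κ * Y ^ (Module.finrank ℚ F * dd g) ∧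
      ({f : (𝓞 F)[X] | HtV g ω Y f ∧ (∀ j < 2 * g, f.coeff j - a j ∈ sp F N) ∧ ∃ j < 2 * g,
        ∃ v : InfinitePlace F, (1 - η) * (ω j * Y ^ (2 * g + 1 - j)) < v (f.coeff j : F)}.ncard : ℝ) ≤
      κ * η * Y ^ (Module.finrank ℚ F * dd g) / ((N : ℝ) ^ Module.finrank ℚ F) ^ (2 * g) := by
  obtain ⟨κ, hκ, h⟩ := Pool.Agent.H18PR.shl F
  obtain ⟨κ₀, hκ₀, hall⟩ := shell g F
  obtain ⟨a₀, b₀, ha₀, ha1, hb₀, hab⟩ := wts (2 * g) ω hω
  set d : ℕ := Module.finrank ℚ F with hd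
  have hd0 : 0 < d := Module.finrank_pos
  refine ⟨κ₀ * b₀ ^ (d * dd g) + (2 * g + 1) * (κ * b₀ ^ d) ^ (2 * g), by positivity,
    fun N η hN hη hη1 => ?_⟩
  obtain ⟨V₀, hV⟩ := h N η hN hη hη1
  obtain ⟨Y₁, hY₁⟩ := hall 1 1 one_pos one_pos le_rfl
  refine ⟨max 1 (max (|V₀| / a₀ ^ d) Y₁), fun Y hY a => ?_⟩
  have hY1 : 1 ≤ Y := (le_max_left _ _).trans hY
  have hY0 : 0 < Y := zero_lt_one.trans_le hY1
  have hYV : |V₀| / a₀ ^ d ≤ Y := (le_max_left _ _).trans ((le_max_right _ _).trans hY)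
  have hYV1 : Y₁ ≤ Y := (le_max_right _ _).trans ((le_max_right _ _).trans hY)
  have hfin := htv_fin g ω hω F Y
  have hE0 : (0 : ℝ) ≤ Y ^ (d * dd g) := by positivity
  constructor
  · -- all
    have h1 := (hY₁ (b₀ * Y) (hYV1.trans (le_mul_of_one_le_left hY0.le hb₀)) (fun _ => 0)).2.1
    have h2 : (({f : (𝓞 F)[X] | HtV g ω Y f}.ncard : ℕ) : ℝ) ≤
        ({f : (𝓞 F)[X] | HtR g (b₀ * Y) f}.ncard : ℝ) := by
      have hsub : {f : (𝓞 F)[X] | HtV g ω Y f} ⊆ {f : (𝓞 F)[X] | HtR g (b₀ * Y) f} := fun f hf =>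
        htr_of hb₀ (fun j hj => (hab j hj).2) hY0.le hf
      exact_mod_cast Set.ncard_le_ncard hsub (htr_fin g F _)
    refine (h2.trans h1).trans ?_
    rw [mul_pow, add_mul]
    have h3 : (0 : ℝ) ≤ (2 * g + 1) * (κ * b₀ ^ d) ^ (2 * g) * Y ^ (d * dd g) := by positivity
    linarith
  · have key : ∀ j : Fin (2 * g), V₀ ≤ (ω j * Y ^ (2 * g + 1 - (j : ℕ))) ^ d := by
      intro j
      have h1 : |V₀| ≤ Y * a₀ ^ d := (div_le_iff₀ (by positivity)).1 hYV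
      have h2 : a₀ ^ d ≤ ω j ^ d := pow_le_pow_left₀ ha₀.le (hab j j.2.le).1 _
      have h3 : Y ≤ Y ^ ((2 * g + 1 - (j : ℕ)) * d) :=
        le_self_pow₀ hY1 (Nat.mul_ne_zero (by have := j.2; omega) hd0.ne')
      calc V₀ ≤ |V₀| := le_abs_self _
        _ ≤ Y * a₀ ^ d := h1
        _ ≤ Y ^ ((2 * g + 1 - (j : ℕ)) * d) * ω j ^ d := mul_le_mul h3 h2 (by positivity) (by positivity)
        _ = _ := by rw [mul_pow, ← pow_mul, mul_comm]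
    have hprod : ∏ j : Fin (2 * g), (κ * (ω j * Y ^ (2 * g + 1 - (j : ℕ))) ^ d / (N : ℝ) ^ d) ≤
        (κ * b₀ ^ d) ^ (2 * g) * Y ^ (d * dd g) / ((N : ℝ) ^ d) ^ (2 * g) := by
      have h1 : ∏ j : Fin (2 * g), (κ * (ω j * Y ^ (2 * g + 1 - (j : ℕ))) ^ d / (N : ℝ) ^ d) ≤
          ∏ j : Fin (2 * g), ((κ * b₀ ^ d) * Y ^ ((2 * g + 1 - (j : ℕ)) * d) / (N : ℝ) ^ d) := by
        refine Finset.prod_le_prod (fun j _ => ?_) fun j _ => ?_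
        · have := hω j
          positivity
        · refine div_le_div_of_nonneg_right ?_ (by positivity)
          rw [mul_pow, ← pow_mul, mul_assoc]
          refine mul_le_mul_of_nonneg_left ?_ hκ.le
          exact mul_le_mul_of_nonneg_right
            (pow_le_pow_left₀ (hω j).le (hab j j.2.le).2 _) (by positivity)
      refine h1.trans (le_of_eq ?_)
      rw [Finset.prod_div_distrib, Finset.prod_mul_distrib, Finset.prod_const, Finset.prod_const,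
        Finset.card_univ, Fintype.card_fin, Finset.prod_pow_eq_pow_sum, ← Finset.sum_mul, sum_exp,
        mul_comm (dd g)]
    have hbd : ∀ {f : (𝓞 F)[X]}, HtV g ω Y f → ∀ j : Fin (2 * g), ∀ v : InfinitePlace F,
        v (f.coeff j : F) ≤ ω j * Y ^ (2 * g + 1 - (j : ℕ)) := fun hf j =>
      (bd_iff' _ _).1 (hf.ht j j.2.le)
    -- the shell
    have hNd : (0 : ℝ) < (N : ℝ) ^ d := pow_pos (by exact_mod_cast hN) _
    set S : Fin (2 * g) → Set (𝓞 F)[X] := fun i => {f : (𝓞 F)[X] | HtV g ω Y f ∧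
      (∀ j < 2 * g, f.coeff j - a j ∈ sp F N) ∧
        ∃ v : InfinitePlace F, (1 - η) * (ω i * Y ^ (2 * g + 1 - (i : ℕ))) < v (f.coeff i : F)} with hS
    have hSf : ∀ i, (S i).Finite := fun i => hfin.subset fun f hf => hf.1
    have hSc : ∀ i, ((S i).ncard : ℝ) ≤
        η * ((κ * b₀ ^ d) ^ (2 * g) * Y ^ (d * dd g) / ((N : ℝ) ^ d) ^ (2 * g)) := by
      intro i
      set A : Fin (2 * g) → Set (𝓞 F) := fun j => {x : 𝓞 F | x - a j ∈ sp F N ∧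
        ∀ v : InfinitePlace F, v (x : F) ≤ ω j * Y ^ (2 * g + 1 - (j : ℕ))} with hA
      set A' : Fin (2 * g) → Set (𝓞 F) := fun j => {x : 𝓞 F | x - a j ∈ sp F N ∧
        (∀ v : InfinitePlace F, v (x : F) ≤ ω j * Y ^ (2 * g + 1 - (j : ℕ))) ∧
        ∃ v : InfinitePlace F, (1 - η) * (ω j * Y ^ (2 * g + 1 - (j : ℕ))) < v (x : F)} with hA'
      have hVj := fun j : Fin (2 * g) => hV (fun _ => ω j * Y ^ (2 * g + 1 - (j : ℕ)))
        (fun _ => by have := hω j; positivity) (by rw [vol']; exact key j) (a j)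
      have hAf : ∀ j, (A j).Finite := fun j => (hVj j).1
      have hA'f : ∀ j, (A' j).Finite := fun j => (hAf j).subset fun x hx => ⟨hx.1, hx.2.1⟩
      have h1 := (cnt_pi (2 * g) (fun j => if j = i then A' j else A j)
        (fun j => by split_ifs; exacts [hA'f j, hAf j]) (S i)
        (fun f hf f' hf' h => inj_of hf.1.mon hf.1.deg hf.1.tr hf'.1.mon hf'.1.deg hf'.1.tr h)
        (fun f hf j => by
          split_ifs with hji
          · subst hji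
            exact ⟨hf.2.1 j j.2, hbd hf.1 j, hf.2.2⟩
          · exact ⟨hf.2.1 j j.2, hbd hf.1 j⟩)).2
      refine h1.trans ?_
      calc ∏ j : Fin (2 * g), (((if j = i then A' j else A j).ncard : ℕ) : ℝ) ≤
          ∏ j : Fin (2 * g), ((if j = i then η else 1) *
            (κ * (ω j * Y ^ (2 * g + 1 - (j : ℕ))) ^ d / (N : ℝ) ^ d)) := by
            refine Finset.prod_le_prod (fun j _ => Nat.cast_nonneg _) fun j _ => ?_
            obtain ⟨-, h2, h3⟩ := hVj j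
            rw [vol'] at h2 h3
            split_ifs
            · refine h3.trans (le_of_eq ?_)
              ring
            · rw [one_mul]
              exact h2
        _ = η * ∏ j : Fin (2 * g), (κ * (ω j * Y ^ (2 * g + 1 - (j : ℕ))) ^ d / (N : ℝ) ^ d) := by
            rw [Finset.prod_mul_distrib, Finset.prod_ite_eq' Finset.univ i,
              if_pos (Finset.mem_univ i)]
        _ ≤ _ := mul_le_mul_of_nonneg_left hprod hη.le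
    have hsub : {f : (𝓞 F)[X] | HtV g ω Y f ∧ (∀ j < 2 * g, f.coeff j - a j ∈ sp F N) ∧ ∃ j < 2 * g,
        ∃ v : InfinitePlace F, (1 - η) * (ω j * Y ^ (2 * g + 1 - j)) < v (f.coeff j : F)} ⊆
        ⋃ i, S i := by
      rintro f ⟨h1, h2, j, hj, v, h3⟩
      exact Set.mem_iUnion.2 ⟨⟨j, hj⟩, h1, h2, v, h3⟩
    have h1 := (Set.ncard_le_ncard hsub (Set.finite_iUnion hSf)).trans
      (Set.ncard_iUnion_le_of_fintype S)
    have h2 : (({f : (𝓞 F)[X] | HtV g ω Y f ∧ (∀ j < 2 * g, f.coeff j - a j ∈ sp F N) ∧ ∃ j < 2 * g,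
        ∃ v : InfinitePlace F, (1 - η) * (ω j * Y ^ (2 * g + 1 - j)) < v (f.coeff j : F)}.ncard : ℕ)
        : ℝ) ≤ ∑ i, ((S i).ncard : ℝ) := by exact_mod_cast h1
    refine h2.trans ((Finset.sum_le_sum fun i _ => hSc i).trans ?_)
    rw [Finset.sum_const, Finset.card_univ, Fintype.card_fin, nsmul_eq_mul]
    have h3 : 0 ≤ η * ((κ * b₀ ^ d) ^ (2 * g) * Y ^ (d * dd g) / ((N : ℝ) ^ d) ^ (2 * g)) := by
      positivity
    have h4 : 0 ≤ κ₀ * b₀ ^ (d * dd g) * η * Y ^ (d * dd g) / ((N : ℝ) ^ d) ^ (2 * g) := by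
      positivity
    calc ((2 * g : ℕ) : ℝ) *
          (η * ((κ * b₀ ^ d) ^ (2 * g) * Y ^ (d * dd g) / ((N : ℝ) ^ d) ^ (2 * g))) ≤
        (2 * g + 1) * (η * ((κ * b₀ ^ d) ^ (2 * g) * Y ^ (d * dd g) / ((N : ℝ) ^ d) ^ (2 * g))) := by
          refine mul_le_mul_of_nonneg_right ?_ h3
          push_cast
          linarith
      _ ≤ κ₀ * b₀ ^ (d * dd g) * η * Y ^ (d * dd g) / ((N : ℝ) ^ d) ^ (2 * g) +
          (2 * g + 1) * (η * ((κ * b₀ ^ d) ^ (2 * g) * Y ^ (d * dd g) / ((N : ℝ) ^ d) ^ (2 * g))) :=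
          le_add_of_nonneg_left h4
      _ = _ := by ring

theorem t : S_REGV := by
  intro g ω F _ _ hg hω W c hW hc ε hε
  obtain ⟨κ, hκ, hsh⟩ := shellV g ω hω F
  obtain ⟨a₀, b₀, ha₀, ha1, hb₀, hab⟩ := wts (2 * g) ω hω
  have hb₀0 : 0 < b₀ := zero_lt_one.trans_le hb₀
  set d : ℕ := Module.finrank ℚ F with hd
  have hd0 : 0 < d := Module.finrank_pos
  set D : ℕ := d * dd g with hD
  refine ⟨ε * a₀ ^ D / (4 ^ D * b₀ ^ D), by positivity, fun m => ?_⟩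
  have hW' : (0 : ℝ) < W := by exact_mod_cast hW
  set η' : ℝ := min 1 (ε * c * a₀ ^ D * ((W : ℝ) ^ d) ^ (2 * g) / (κ * 2 ^ D)) with hη'
  have hη'0 : 0 < η' := lt_min one_pos (by positivity)
  have hη'1 : η' ≤ 1 := min_le_left _ _
  have hη'2 : κ * η' * 2 ^ D ≤ ε * c * a₀ ^ D * ((W : ℝ) ^ d) ^ (2 * g) := by
    have h1 : η' ≤ ε * c * a₀ ^ D * ((W : ℝ) ^ d) ^ (2 * g) / (κ * 2 ^ D) := min_le_right _ _
    rw [le_div_iff₀ (by positivity)] at h1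
    linarith
  have hbb := fun k hk => eta_bound hη'0 hη'1 (2 * g + 1) m k hk
  have hη0 : 0 < η' / (((2 * g + 1 : ℕ) : ℝ) * m + 1) := by positivity
  refine ⟨η' / (((2 * g + 1 : ℕ) : ℝ) * m + 1), hη0, ?_⟩
  set η : ℝ := η' / (((2 * g + 1 : ℕ) : ℝ) * m + 1) with hη
  intro T f₁ P Pr hT hB
  obtain ⟨B₀, hB₀⟩ := hB
  set Tn : ℕ := ∏ q ∈ T, q with hTn
  have hTn0 : 0 < Tn := Finset.prod_pos fun q hq => (hT q hq).1.pos
  have hTn' : (0 : ℝ) < Tn := by exact_mod_cast hTn0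
  have hPn : (((∏ q ∈ T, q ^ (2 * g)) ^ d : ℕ) : ℝ) = ((Tn : ℝ) ^ d) ^ (2 * g) := by
    rw [Finset.prod_pow, ← hTn, ← pow_mul, ← pow_mul, mul_comm d, Nat.cast_pow]
  simp only [hPn] at hB₀
  set Pn : ℝ := ((Tn : ℝ) ^ d) ^ (2 * g) with hPndef
  have hPn0 : 0 < Pn := by positivity
  have hNd : (((W * Tn : ℕ) : ℝ) ^ d) ^ (2 * g) = ((W : ℝ) ^ d) ^ (2 * g) * Pn := by
    rw [Nat.cast_mul, mul_pow, mul_pow]
  obtain ⟨Y₁, hY₁⟩ := hsh (W * Tn) η' (Nat.mul_pos hW hTn0) hη'0 hη'1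
  refine ⟨c * a₀ ^ D / (2 ^ D * Pn * κ), max Y₁ ((B₀ + 1) / a₀), by positivity,
    fun Y => ⟨htv_fin g ω hω F Y, ?_⟩⟩
  intro hY
  have hYB : (B₀ : ℝ) + 1 ≤ a₀ * Y := by
    have h1 : ((B₀ : ℝ) + 1) / a₀ ≤ Y := (le_max_right _ _).trans hY
    rw [div_le_iff₀ ha₀] at h1
    linarith
  have hZ1 : 1 ≤ a₀ * Y := by
    have : (0 : ℝ) ≤ B₀ := Nat.cast_nonneg _
    linarith
  have hZ0 : 0 < a₀ * Y := zero_lt_one.trans_le hZ1
  have hY0 : 0 < Y := pos_of_mul_pos_right hZ0 ha₀.le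
  have hY1 : 1 ≤ Y := by nlinarith
  obtain ⟨hup, -⟩ := hY₁ Y ((le_max_left _ _).trans hY) (fun _ => 0)
  -- the sizes
  set B : ℕ := ⌊a₀ * Y⌋₊ with hBdef
  have hBle : (B : ℝ) ≤ a₀ * Y := Nat.floor_le hZ0.le
  have hBge : a₀ * Y ≤ 2 * (B : ℝ) := by
    have h1 : a₀ * Y < B + 1 := Nat.lt_floor_add_one _
    have h2 : (1 : ℝ) ≤ B := by
      have : 1 ≤ B := Nat.le_floor (by push_cast; linarith)
      exact_mod_cast this
    linarith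
  have hBB : B₀ ≤ B := Nat.le_floor (by linarith)
  have hbY1 : 1 ≤ b₀ * Y := one_le_mul_of_one_le_of_one_le hb₀ hY1
  have hbY0 : 0 < b₀ * Y := zero_lt_one.trans_le hbY1
  set B' : ℕ := ⌈b₀ * Y⌉₊ with hB'def
  have hB'ge : b₀ * Y ≤ (B' : ℝ) := Nat.le_ceil _
  have hB'le : (B' : ℝ) ≤ 2 * (b₀ * Y) := by
    have : (B' : ℝ) < b₀ * Y + 1 := Nat.ceil_lt_add_one hbY0.le
    linarith
  have hBB' : B₀ ≤ B' := by
    have h1 : a₀ * Y ≤ b₀ * Y := mul_le_mul_of_nonneg_right (ha1.trans hb₀) hY0.le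
    have : (B₀ : ℝ) ≤ B' := by linarith
    exact_mod_cast this
  have hfin := htv_fin g ω hω F Y
  have hlow : c * a₀ ^ D * (Y ^ D) / (2 ^ D * Pn) ≤
      ({f : (𝓞 F)[X] | HtV g ω Y f ∧ BaseW g W f₁ T P f}.ncard : ℝ) := by
    have h1 := (hB₀ B hBB).1
    have h2 : ({f : (𝓞 F)[X] | Ht g B f ∧ BaseW g W f₁ T P f}.ncard : ℝ) ≤
        ({f : (𝓞 F)[X] | HtV g ω Y f ∧ BaseW g W f₁ T P f}.ncard : ℝ) := by
      have : {f : (𝓞 F)[X] | Ht g B f ∧ BaseW g W f₁ T P f} ⊆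
          {f : (𝓞 F)[X] | HtV g ω Y f ∧ BaseW g W f₁ T P f} := fun f hf =>
        ⟨htv_of ha₀ ha1 (fun j hj => (hab j hj).1) hY0.le
          (htr_mono (Nat.cast_nonneg B) hBle ⟨hf.1.mon, hf.1.deg, hf.1.tr, hf.1.ht⟩), hf.2⟩
      exact_mod_cast Set.ncard_le_ncard this (hfin.subset fun f hf => hf.1)
    refine le_trans ?_ h2
    rw [div_le_iff₀ (by positivity)]
    have h3 : a₀ ^ D * Y ^ D ≤ 2 ^ D * (B : ℝ) ^ D := by
      rw [← mul_pow, ← mul_pow]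
      exact pow_le_pow_left₀ hZ0.le hBge _
    calc c * a₀ ^ D * Y ^ D = c * (a₀ ^ D * Y ^ D) := by ring
      _ ≤ c * (2 ^ D * (B : ℝ) ^ D) := mul_le_mul_of_nonneg_left h3 hc.le
      _ = 2 ^ D * (c * (B : ℝ) ^ D) := by ring
      _ ≤ 2 ^ D * (Pn * ({f : (𝓞 F)[X] | Ht g B f ∧ BaseW g W f₁ T P f}.ncard : ℝ)) :=
          mul_le_mul_of_nonneg_left h1 (by positivity)
      _ = _ := by ring
  have hpos : 0 < c * a₀ ^ D * (Y ^ D) / (2 ^ D * Pn) := by positivity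
  refine ⟨?_, ?_, ?_, ?_⟩
  · exact_mod_cast hpos.trans_le hlow
  · refine le_trans ?_ hlow
    calc c * a₀ ^ D / (2 ^ D * Pn * κ) * ({f : (𝓞 F)[X] | HtV g ω Y f}.ncard : ℝ) ≤
        c * a₀ ^ D / (2 ^ D * Pn * κ) * (κ * Y ^ D) := mul_le_mul_of_nonneg_left hup (by positivity)
      _ = c * a₀ ^ D * Y ^ D / (2 ^ D * Pn) := by field_simp
  · -- the shell
    rcases Set.eq_empty_or_nonempty {f : (𝓞 F)[X] | HtV g ω Y f ∧ BaseW g W f₁ T P f ∧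
        ¬ HtV g ω (Y / (1 + η) ^ m) f} with he | ⟨f₀, hf₀⟩
    · rw [he, Set.ncard_empty]
      push_cast
      positivity
    have hshell := (hY₁ Y ((le_max_left _ _).trans hY) (fun j => f₀.coeff j)).2
    have hsub : {f : (𝓞 F)[X] | HtV g ω Y f ∧ BaseW g W f₁ T P f ∧
        ¬ HtV g ω (Y / (1 + η) ^ m) f} ⊆ {f : (𝓞 F)[X] | HtV g ω Y f ∧
        (∀ j < 2 * g, f.coeff j - f₀.coeff j ∈ sp F (W * Tn)) ∧ ∃ j < 2 * g,
        ∃ v : InfinitePlace F, (1 - η') * (ω j * Y ^ (2 * g + 1 - j)) < v (f.coeff j : F)} := by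
      rintro f ⟨h1, h2, h3⟩
      refine ⟨h1, fun j _ => cls hT ?_ fun q hq => ?_, ?_⟩
      · have e : f.coeff j - f₀.coeff j = (f.coeff j - f₁.coeff j) - (f₀.coeff j - f₁.coeff j) := by
          ring
        rw [e]
        exact Ideal.sub_mem _ (h2.one j) (hf₀.2.1.one j)
      · have e : f.coeff j - f₀.coeff j =
            (f.coeff j - (P q).coeff j) - (f₀.coeff j - (P q).coeff j) := by
          ring
        rw [e]
        exact Ideal.sub_mem _ (h2.con q hq j) (hf₀.2.1.con q hq j)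
      · by_contra hcon
        push Not at hcon
        refine h3 ⟨h1.mon, h1.deg, h1.tr, fun j hj => (bd_iff' _ _).2 fun v => ?_⟩
        have ht : 0 < (1 + η) ^ m := by positivity
        have hωj := hω j
        rcases hj.lt_or_eq with hj | hj
        · have h4 := hcon j hj v
          rw [div_pow, mul_div_assoc', le_div_iff₀ (by positivity)]
          calc v (f.coeff j : F) * ((1 + η) ^ m) ^ (2 * g + 1 - j) ≤
              ((1 - η') * (ω j * Y ^ (2 * g + 1 - j))) * ((1 + η) ^ m) ^ (2 * g + 1 - j) :=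
                mul_le_mul_of_nonneg_right h4 (by positivity)
            _ = ((1 - η') * ((1 + η) ^ m) ^ (2 * g + 1 - j)) * (ω j * Y ^ (2 * g + 1 - j)) := by ring
            _ ≤ 1 * (ω j * Y ^ (2 * g + 1 - j)) :=
                mul_le_mul_of_nonneg_right (hbb _ (Nat.sub_le _ _)) (by positivity)
            _ = _ := one_mul _
        · rw [hj] at hωj ⊢
          rw [h1.tr]
          simp only [map_zero]
          positivity
    have h1 : (({f : (𝓞 F)[X] | HtV g ω Y f ∧ BaseW g W f₁ T P f ∧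
        ¬ HtV g ω (Y / (1 + η) ^ m) f}.ncard : ℕ) : ℝ) ≤
        κ * η' * Y ^ D / (((W * Tn : ℕ) : ℝ) ^ d) ^ (2 * g) := by
      refine le_trans ?_ hshell
      exact_mod_cast Set.ncard_le_ncard hsub (hfin.subset fun f hf => hf.1)
    refine h1.trans ?_
    rw [hNd]
    calc κ * η' * Y ^ D / (((W : ℝ) ^ d) ^ (2 * g) * Pn) =
          (κ * η' * 2 ^ D) * (Y ^ D / (((W : ℝ) ^ d) ^ (2 * g) * Pn * 2 ^ D)) := by
          field_simp
      _ ≤ (ε * c * a₀ ^ D * ((W : ℝ) ^ d) ^ (2 * g)) *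
          (Y ^ D / (((W : ℝ) ^ d) ^ (2 * g) * Pn * 2 ^ D)) :=
          mul_le_mul_of_nonneg_right hη'2 (by positivity)
      _ = ε * (c * a₀ ^ D * (Y ^ D) / (2 ^ D * Pn)) := by
          field_simp
      _ ≤ _ := mul_le_mul_of_nonneg_left hlow hε.le
  · -- the exceptions
    have h1 := (hB₀ B' hBB').2
    have h2 : (({f : (𝓞 F)[X] | HtV g ω Y f ∧ BaseW g W f₁ T P f ∧ ¬ Pr f}.ncard : ℕ) : ℝ) ≤
        ({f : (𝓞 F)[X] | Ht g B' f ∧ BaseW g W f₁ T P f ∧ ¬ Pr f}.ncard : ℝ) := by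
      have hsub : {f : (𝓞 F)[X] | HtV g ω Y f ∧ BaseW g W f₁ T P f ∧ ¬ Pr f} ⊆
          {f : (𝓞 F)[X] | Ht g B' f ∧ BaseW g W f₁ T P f ∧ ¬ Pr f} := fun f hf => by
        have h3 := htr_mono hbY0.le hB'ge (htr_of hb₀ (fun j hj => (hab j hj).2) hY0.le hf.1)
        exact ⟨⟨h3.mon, h3.deg, h3.tr, h3.ht⟩, hf.2⟩
      exact_mod_cast Set.ncard_le_ncard hsub ((htr_fin g F B').subset fun f hf =>
        ⟨hf.1.mon, hf.1.deg, hf.1.tr, hf.1.ht⟩)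
    refine h2.trans ?_
    have h3 : ({f : (𝓞 F)[X] | Ht g B' f ∧ BaseW g W f₁ T P f ∧ ¬ Pr f}.ncard : ℝ) ≤
        ε * a₀ ^ D / (4 ^ D * b₀ ^ D) * (c * (B' : ℝ) ^ D) / Pn := by
      rw [le_div_iff₀ hPn0]
      linarith
    refine h3.trans (le_trans ?_ (mul_le_mul_of_nonneg_left hlow hε.le))
    have h4 : (B' : ℝ) ^ D ≤ 2 ^ D * (b₀ ^ D * Y ^ D) := by
      rw [← mul_pow, ← mul_pow]
      exact pow_le_pow_left₀ (Nat.cast_nonneg _) hB'le _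
    have e4 : (4 : ℝ) ^ D = 2 ^ D * 2 ^ D := by
      rw [← mul_pow]
      norm_num
    calc ε * a₀ ^ D / (4 ^ D * b₀ ^ D) * (c * (B' : ℝ) ^ D) / Pn ≤
          ε * a₀ ^ D / (4 ^ D * b₀ ^ D) * (c * (2 ^ D * (b₀ ^ D * Y ^ D))) / Pn := by
          refine div_le_div_of_nonneg_right ?_ hPn0.le
          exact mul_le_mul_of_nonneg_left (mul_le_mul_of_nonneg_left h4 hc.le) (by positivity)
      _ = ε * (c * a₀ ^ D * (Y ^ D) / (2 ^ D * Pn)) := by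
          rw [e4]
          field_simp

theorem cmp : S_CMPV := by
  intro g ω F _ _ hω d hd
  obtain ⟨a₀, b₀, ha₀, ha1, hb₀, hab⟩ := wts (2 * g) ω hω
  have hb₀0 : 0 < b₀ := zero_lt_one.trans_le hb₀
  obtain ⟨C, Y₀, hC, h⟩ := Pool.Agent.H18G.CMPG.t g F (b₀ * d / a₀) (by positivity)
  refine ⟨C, max 0 (Y₀ / b₀), hC, fun Y hY => ⟨htv_fin g ω hω F Y, ?_⟩⟩
  have hY0 : 0 ≤ Y := (le_max_left _ _).trans hY
  have hY1 : Y₀ ≤ b₀ * Y := by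
    have h1 : Y₀ / b₀ ≤ Y := (le_max_right _ _).trans hY
    rw [div_le_iff₀ hb₀0] at h1
    linarith
  obtain ⟨h1, h2⟩ := h (b₀ * Y) hY1
  have e : b₀ * Y / (b₀ * d / a₀) = a₀ * (Y / d) := by field_simp
  rw [e] at h2
  have h3 : (({f : (𝓞 F)[X] | HtV g ω Y f}.ncard : ℕ) : ℝ) ≤
      ({f : (𝓞 F)[X] | HtR g (b₀ * Y) f}.ncard : ℝ) := by
    have hsub : {f : (𝓞 F)[X] | HtV g ω Y f} ⊆ {f : (𝓞 F)[X] | HtR g (b₀ * Y) f} := fun f hf =>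
      htr_of hb₀ (fun j hj => (hab j hj).2) hY0 hf
    exact_mod_cast Set.ncard_le_ncard hsub (htr_fin g F _)
  have h4 : (({f : (𝓞 F)[X] | HtR g (a₀ * (Y / d)) f}.ncard : ℕ) : ℝ) ≤
      ({f : (𝓞 F)[X] | HtV g ω (Y / d) f}.ncard : ℝ) := by
    have hsub : {f : (𝓞 F)[X] | HtR g (a₀ * (Y / d)) f} ⊆ {f : (𝓞 F)[X] | HtV g ω (Y / d) f} :=
      fun f hf => htv_of ha₀ ha1 (fun j hj => (hab j hj).1) (by positivity) hf
    exact_mod_cast Set.ncard_le_ncard hsub (htv_fin g ω hω F _)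
  exact h3.trans (h2.trans (mul_le_mul_of_nonneg_left h4 hC.le))

end REGV

end Pool.Agent.H18N
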