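import Pool.Agent.H18G.Stm

/-!
# Project JN: near EVERY hyperelliptic curve `y ^ 2 = f(x)` (odd degree) over every number field.
# Statements of the parts.

As project JG (`H18G/Stm.lean`), but `f` runs over ANY residue class modulo `N`: no condition at 2 and at
the small primes. Only the primes over `W` are special: there `𝓞 F [θ]` need not be the maximal order
(`SqW`), no valuation is required to be even (`InPW`), and `K` consists of the classes which are squares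
over the completions at ALL primes over `W` and at the real places (`StrW`). The twists are by primes
`q = 1` modulo `W`, so that the twisting factor is a local square at all primes over `W`.

In all the adaptations: `SqF g f` becomes `SqW g W f` and `S_INT` becomes `S_INTW` (`W x` is in
`𝓞 F [θ]` for integral `x`), which is as good at a prime `𝔭` which does not contain `W`: if `c W = 1`
modulo `𝔭 ^ k` then `x = c (W x)` modulo `𝔭 ^ k 𝓞 L`.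
-/

set_option autoImplicit false
set_option linter.all false

open Polynomial IsDedekindDomain Matrix NumberField WithZero
open scoped Classical

namespace Pool.Agent.H18N

open Pool.Agent.N352.PJ (Mt Typ dd)
open Pool.Agent.N874.PP (Ev Sq1 U0)
open Pool.Agent.N783.PQ (LocIm Gm)
open Pool.Agent.N874.JM (LocF)
open Pool.Agent.N783.PF
open Pool.Agent.H68K.PR (LJ pr2 pr2par)
open Pool.Agent.H18G (LocS SelLe SelE twf cnt Law2 HtR)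

section fld

variable {F : Type} [Field F] [NumberField F]

/-- The discriminant of `f` is squarefree outside `W`, and at the primes over `W` it has a smaller
valuation than `W`. -/
structure SqW (g W : ℕ) (f : (𝓞 F)[X]) : Prop where
  pos : 0 < W
  two : 2 ∣ W
  out : ∀ 𝔭 : Ideal (𝓞 F), 𝔭.IsPrime → 𝔭 ≠ ⊥ → (W : 𝓞 F) ∉ 𝔭 → dsc g f ∉ 𝔭 ^ 2
  inn : ∀ 𝔭 : Ideal (𝓞 F), 𝔭.IsPrime → 𝔭 ≠ ⊥ → (W : 𝓞 F) ∈ 𝔭 →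
    ∃ k : ℕ, dsc g f ∉ 𝔭 ^ k ∧ (W : 𝓞 F) ∈ 𝔭 ^ k

/-- The residue class of `f₁` modulo `W`. -/
structure GoodW (g W : ℕ) (f₁ : (𝓞 F)[X]) : Prop where
  mon : f₁.Monic
  deg : f₁.natDegree = 2 * g + 1
  tr : f₁.coeff (2 * g) = 0
  pos : 0 < W
  two : 2 ∣ W
  irr : ∃ 𝔭 : Ideal (𝓞 F), 𝔭.IsPrime ∧ (W : 𝓞 F) ∈ 𝔭 ∧ Irreducible (rd 𝔭 f₁)
  inn : ∀ 𝔭 : Ideal (𝓞 F), 𝔭.IsPrime → 𝔭 ≠ ⊥ → (W : 𝓞 F) ∈ 𝔭 →
    ∃ k : ℕ, dsc g f₁ ∉ 𝔭 ^ k ∧ (W : 𝓞 F) ∈ 𝔭 ^ k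

/-- As `Fam`, with a condition on the primes outside `W` only. -/
structure FamW (g B W : ℕ) (f₁ : (𝓞 F)[X]) (S : Finset ℕ) (A : ℕ → (𝓞 F)[X]) (f : (𝓞 F)[X]) :
    Prop where
  ht : Ht g B f
  one : Cg (sp F W) f f₁
  con : ∀ q ∈ S, Cg (sp F q) f (A q)
  wk : ∀ 𝔭 : Ideal (𝓞 F), 𝔭.IsPrime → 𝔭 ≠ ⊥ → (W : 𝓞 F) ∉ 𝔭 → dsc g f ∈ 𝔭 ^ 2 →
    B ^ Module.finrank ℚ F ≤ Ideal.absNorm 𝔭 ^ 2 ∧ Weak 𝔭 f

end fld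

/-! ### The field `L` -/

/-- INTW (`N31/PF/Int.lean`): `W x` is in `𝓞 F [θ]`. The coordinates `c i` of `x` are integral at the
primes outside `W` (`out`), and at the primes over `W` their product with `dsc g f`, hence with `W`, is
integral (`dsc g f * x` is in `𝓞 F [θ]`). -/
def S_INTW : Prop := ∀ (g W : ℕ) (F L : Type) [Field F] [NumberField F] [Field L] [NumberField L]
  [Algebra F L] (f : (𝓞 F)[X]) (θ : L), IsGen g f θ → SqW g W f →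
  ∀ x : L, IsIntegral ℤ x → ∃ v : Fin (2 * g + 1) → 𝓞 F,
    (W : L) * x = ∑ i, algebraMap F L (v i : F) * θ ^ (i : ℕ)

/-- EXQW (`N73/PF/Exq.lean`). May assume `S_INTW`. -/
def S_EXQW : Prop := ∀ (g W : ℕ) (F L : Type) [Field F] [NumberField F] [Field L] [NumberField L]
  [Algebra F L] (f : (𝓞 F)[X]) (θ : L) (S : Finset ℕ) (𝔮 : ℕ → Ideal (𝓞 F))
  (h P : ℕ → (𝓞 F)[X]), 1 ≤ g → IsGen g f θ → SqW g W f → GoodS g W S 𝔮 h P →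
  ∀ q ∈ S, Cg (𝔮 q) f (X * h q) → ∃ 𝔓₁ 𝔓₂ : HeightOneSpectrum (𝓞 L), Ov (𝔮 q) 𝔓₁ ∧
    Ov (𝔮 q) 𝔓₂ ∧ 𝔓₁.valuation L θ < 1 ∧ 𝔓₂.valuation L θ = 1 ∧
    𝔓₁.valuation L (q : L) = WithZero.exp (-1 : ℤ) ∧
    𝔓₂.valuation L (q : L) = WithZero.exp (-1 : ℤ) ∧
    ∀ 𝔓 : HeightOneSpectrum (𝓞 L), Ov (𝔮 q) 𝔓 → 𝔓 = 𝔓₁ ∨ 𝔓 = 𝔓₂

/-- CSQW (`N73/PF/Exq.lean`). May assume `S_INTW`. -/
def S_CSQW : Prop := ∀ (g W : ℕ) (F L : Type) [Field F] [NumberField F] [Field L] [NumberField L]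
  [Algebra F L] (f : (𝓞 F)[X]) (θ : L) (S : Finset ℕ) (𝔮 : ℕ → Ideal (𝓞 F))
  (h P : ℕ → (𝓞 F)[X]), 1 ≤ g → IsGen g f θ → SqW g W f → GoodS g W S 𝔮 h P →
  ∀ q ∈ S, Cg (𝔮 q) f (X * h q) →
  ∀ 𝔓 : HeightOneSpectrum (𝓞 L), Ov (𝔮 q) 𝔓 → 𝔓.valuation L θ = 1 →
    (∀ c : 𝓞 F, c ∉ 𝔮 q → Sq1 𝔓 (algebraMap F L (c : F))) ∧
    (∃ m : ℕ, Nat.card (𝓞 L ⧸ 𝔓.asIdeal) = q ^ (2 * m)) ∧
    𝔓.valuation L (aeval θ (derivative (fF f))) = 1 ∧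
    ¬ Sq1 𝔓 (θ * aeval θ (derivative (fF f)))

/-- RAMW (`N459/PF/Ram.lean`). May assume `S_INTW`. -/
def S_RAMW : Prop := ∀ (g W : ℕ) (F L : Type) [Field F] [NumberField F] [Field L] [NumberField L]
  [Algebra F L] (f : (𝓞 F)[X]) (θ : L), IsGen g f θ → SqW g W f →
  ∀ 𝔭 : Ideal (𝓞 F), 𝔭.IsPrime → 𝔭 ≠ ⊥ → (W : 𝓞 F) ∉ 𝔭 →
  ∀ 𝔓₀ : HeightOneSpectrum (𝓞 L), Ov 𝔭 𝔓₀ →
    𝔓₀.valuation L (aeval θ (derivative (fF f))) < 1 →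
    (∃ c : 𝓞 F, 𝔓₀.valuation L (θ - algebraMap F L (c : F)) < 1) ∧
    ∀ 𝔓 : HeightOneSpectrum (𝓞 L), Ov 𝔭 𝔓 → 𝔓 ≠ 𝔓₀ →
      𝔓.valuation L (aeval θ (derivative (fF f))) = 1

/-- PARW (`N426/PF/Par.lean`). May assume `S_INTW`. -/
def S_PARW : Prop := ∀ (g W : ℕ) (F L : Type) [Field F] [NumberField F] [Field L] [NumberField L]
  [Algebra F L] (f : (𝓞 F)[X]) (θ : L), IsGen g f θ → SqW g W f →
  ∀ 𝔭 : Ideal (𝓞 F), 𝔭.IsPrime → 𝔭 ≠ ⊥ → (W : 𝓞 F) ∉ 𝔭 →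
  ∀ (𝔓₀ : HeightOneSpectrum (𝓞 L)) (c : 𝓞 F), Ov 𝔭 𝔓₀ →
    𝔓₀.valuation L (θ - algebraMap F L (c : F)) < 1 → ∀ x : L, x ≠ 0 →
    IsSquare (Algebra.norm F x) →
    (∀ 𝔓 : HeightOneSpectrum (𝓞 L), Ov 𝔭 𝔓 → 𝔓 ≠ 𝔓₀ → Ev 𝔓 x) → Ev 𝔓₀ x

/-- PARQW (`N426/PF/Par.lean`). May assume `S_INTW`, `S_EXQW`. -/
def S_PARQW : Prop := ∀ (g W : ℕ) (F L : Type) [Field F] [NumberField F] [Field L] [NumberField L]
  [Algebra F L] (f : (𝓞 F)[X]) (θ : L) (S : Finset ℕ) (𝔮 : ℕ → Ideal (𝓞 F))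
  (h P : ℕ → (𝓞 F)[X]), 1 ≤ g → IsGen g f θ → SqW g W f → GoodS g W S 𝔮 h P →
  ∀ q ∈ S, Cg (𝔮 q) f (X * h q) → ∀ x : L, x ≠ 0 → IsSquare (Algebra.norm F x) →
    ∀ 𝔓 : HeightOneSpectrum (𝓞 L), Ov (𝔮 q) 𝔓 → 𝔓.valuation L θ < 1 → Ev 𝔓 x

/-- NSW (`N426/PF/Par.lean`). May assume `S_INTW`, `S_EXQW`. -/
def S_NSW : Prop := ∀ (g W : ℕ) (F L : Type) [Field F] [NumberField F] [Field L] [NumberField L]
  [Algebra F L] (f : (𝓞 F)[X]) (θ : L) (S : Finset ℕ) (𝔮 : ℕ → Ideal (𝓞 F))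
  (h P : ℕ → (𝓞 F)[X]), 1 ≤ g → IsGen g f θ → SqW g W f → GoodS g W S 𝔮 h P →
  ∀ q ∈ S, Cg (𝔮 q) f (X * h q) → ∀ x : L, x ≠ 0 → IsSquare (Algebra.norm F x) →
    (∀ 𝔓 : HeightOneSpectrum (𝓞 L), Ov (𝔮 q) 𝔓 → 𝔓.valuation L θ < 1 → Ev 𝔓 x) →
    (∀ 𝔓 : HeightOneSpectrum (𝓞 L), Ov (𝔮 q) 𝔓 → 𝔓.valuation L θ = 1 → Sq1 𝔓 x) →
    ∀ 𝔓 : HeightOneSpectrum (𝓞 L), Ov (𝔮 q) 𝔓 → Sq1 𝔓 x

/-- RNQW (`H18PR/Rnq.lean`, `H18G/RNQG.lean`). May assume `S_INTW`. -/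
def S_RNQW : Prop := ∀ (g W : ℕ) (F L : Type) [Field F] [NumberField F] [Field L] [NumberField L]
  [Algebra F L] (f : (𝓞 F)[X]) (θ : L) (S : Finset ℕ) (𝔮 : ℕ → Ideal (𝓞 F))
  (r P : ℕ → (𝓞 F)[X]), 1 ≤ g → IsGen g f θ → SqW g W f → GoodS g W S 𝔮 r P →
  ∀ q ∈ S, Cg (sp F q) f (P q) → ∀ 𝔔 : HeightOneSpectrum (𝓞 L), Ov (𝔮 q) 𝔔 →
  𝔔.valuation L θ = 1 → ∃ I : Ideal (𝓞 F), Ideal.relNorm (𝓞 F) 𝔔.asIdeal = I ^ 2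

/-! ### The reciprocity law -/

/-- ISOW (`N747/PF/Iso2.lean`). May assume `S_INTW` and the other statements on the field `L`. -/
def S_ISOW : Prop := ∀ (g W : ℕ) (F L : Type) [Field F] [NumberField F] [Field L] [NumberField L]
  [Algebra F L] (f : (𝓞 F)[X]) (θ : L), IsGen g f θ → SqW g W f →
  ∀ w : HeightOneSpectrum (𝓞 F), (W : 𝓞 F) ∉ w.asIdeal → ∀ h : F[X], aeval θ h ≠ 0 →
  IsSquare (Algebra.norm F (aeval θ h)) →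
  (∀ 𝔓 : HeightOneSpectrum (𝓞 L), Ov w.asIdeal 𝔓 → Ev 𝔓 (aeval θ h)) →
  Apx w (Gm g (fF f) 1) (Gm g (fF f) h)

/-- ISO3 (as in `H18G/REC2.lean`): a class which is a local square at `w` does not change the form at
`w`. -/
def S_ISO3 : Prop := ∀ (g : ℕ) (F : Type) [Field F] [NumberField F] (f : (𝓞 F)[X]), f.Monic →
  f.natDegree = 2 * g + 1 → ∀ h k : F[X], IsCoprime h (fF f) → IsCoprime k (fF f) →
  (∀ w : HeightOneSpectrum (𝓞 F), LocS (w.adicCompletion F) (fF f) k →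
    Apx w (Gm g (fF f) h) (Gm g (fF f) (h * k))) ∧
  ∀ σ : F →+* ℝ, (∃ s : ℝ[X], (fF f).map σ ∣ k.map σ - s ^ 2) →
    ∃ T : Mt g ℝ, T * (Gm g (fF f) h).map σ * Tᵀ = (Gm g (fF f) (h * k)).map σ

/-- HQW (`N849/PF/Hq.lean`). May assume `S_INTW`, `S_CSQW`, `S_EXQW`, `S_FFD`, `S_TFQ`. -/
def S_HQW : Prop := ∀ (g W : ℕ) (F L : Type) [Field F] [NumberField F] [Field L] [NumberField L]
  [Algebra F L] (f : (𝓞 F)[X]) (θ : L) (S : Finset ℕ) (𝔮 : ℕ → Ideal (𝓞 F))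
  (r P : ℕ → (𝓞 F)[X]), 1 ≤ g → IsGen g f θ → SqW g W f → GoodS g W S 𝔮 r P →
  ∀ q ∈ S, ∀ [Fact q.Prime], Cg (sp F q) f (P q) →
  ∀ 𝔔 : HeightOneSpectrum (𝓞 L), Ov (𝔮 q) 𝔔 → 𝔔.valuation L θ = 1 →
  ∀ h : F[X], aeval θ h ≠ 0 →
  (∀ 𝔓 : HeightOneSpectrum (𝓞 L), (q : 𝓞 L) ∈ 𝔓.asIdeal → 𝔓 ≠ 𝔔 → Ev 𝔓 (aeval θ h)) →
  HV ((Tf (Gm g (fF f) h)).map (Rat.castHom ℚ_[q]))
    (if ¬ Ev 𝔔 (aeval θ h) ∧ ¬ Sq1 𝔔 (aeval θ h * (q * θ)) then -1 else 1)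

/-- `h(θ)` is a square over the completions at the primes over `W` and over the real numbers. -/
structure StrW {F : Type} [Field F] [NumberField F] (W : ℕ) (f : (𝓞 F)[X]) (h : F[X]) : Prop where
  fin : ∀ w : HeightOneSpectrum (𝓞 F), (W : 𝓞 F) ∈ w.asIdeal →
    LocS (w.adicCompletion F) (fF f) h
  real : ∀ σ : F →+* ℝ, ∃ s : ℝ[X], (fF f).map σ ∣ h.map σ - s ^ 2

/-- The same for an element of `L`. -/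
def IsStrW {F L : Type} [Field F] [NumberField F] [Field L] [NumberField L] [Algebra F L] (W : ℕ)
    (f : (𝓞 F)[X]) (θ α : L) : Prop := ∃ h : F[X], aeval θ h = α ∧ StrW W f h

/-- The group `M⁺`. -/
structure InPW (F : Type) {L : Type} [Field F] [NumberField F] [Field L] [NumberField L] [Algebra F L]
    (W : ℕ) (S : Finset ℕ) (𝔔 : ℕ → HeightOneSpectrum (𝓞 L)) (α : L) : Prop where
  ne : α ≠ 0
  nsq : IsSquare (Algebra.norm F α)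
  ev : ∀ 𝔓 : HeightOneSpectrum (𝓞 L), (W : 𝓞 L) ∉ 𝔓.asIdeal → (∀ q ∈ S, 𝔓 ≠ 𝔔 q) → Ev 𝔓 α

/-- RECW (`N783/PF/Rec2.lean`; at the primes over `W` by `S_ISO1`, outside `W` by `S_ISOW`, at `q` by
`S_HQW`). -/
def S_RECW : Prop := ∀ (g W : ℕ) (F L : Type) [Field F] [NumberField F] [Field L] [NumberField L]
  [Algebra F L] (f : (𝓞 F)[X]) (θ : L) (S : Finset ℕ) (𝔮 : ℕ → Ideal (𝓞 F))
  (r P : ℕ → (𝓞 F)[X]), 1 ≤ g → IsGen g f θ → SqW g W f → GoodS g W S 𝔮 r P →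
  (∀ q ∈ S, Cg (sp F q) f (P q)) →
  ∀ 𝔔 : ℕ → HeightOneSpectrum (𝓞 L), (∀ q ∈ S, Ov (𝔮 q) (𝔔 q) ∧ (𝔔 q).valuation L θ = 1) →
  ∀ h : F[X], InPW F W S 𝔔 (aeval θ h) →
    (∀ w : HeightOneSpectrum (𝓞 F), (W : 𝓞 F) ∈ w.asIdeal →
      LocF (w.adicCompletion F) (fF f) h) →
    (∀ σ : F →+* ℝ, LocIm ℝ ((fF f).map σ) (h.map σ)) →
    Even (cnt (F := F) S 𝔔 θ (aeval θ h))

/-- REC2W (as `S_REC2`, file `H18G/REC2.lean`). -/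
def S_REC2W : Prop := ∀ (g W : ℕ) (F L : Type) [Field F] [NumberField F] [Field L] [NumberField L]
  [Algebra F L] (f : (𝓞 F)[X]) (θ : L) (S : Finset ℕ) (𝔮 : ℕ → Ideal (𝓞 F))
  (r P : ℕ → (𝓞 F)[X]), 1 ≤ g → IsGen g f θ → SqW g W f → GoodS g W S 𝔮 r P →
  (∀ q ∈ S, Cg (sp F q) f (P q)) →
  ∀ 𝔔 : ℕ → HeightOneSpectrum (𝓞 L), (∀ q ∈ S, Ov (𝔮 q) (𝔔 q) ∧ (𝔔 q).valuation L θ = 1) →
  ∀ h k : F[X], InPW F W S 𝔔 (aeval θ h) → InPW F W S 𝔔 (aeval θ k) → StrW W f k →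
    (Even (cnt (F := F) S 𝔔 θ (aeval θ (h * k))) ↔ Even (cnt (F := F) S 𝔔 θ (aeval θ h)))

/-- LOCW (`N78/PF/Loc.lean`). Consequences of the local conditions for the twist by `Dp J`; nothing is
said on the valuations over `W`. `Dp J` is `1` modulo `8` and modulo `W`, so it is a square at the primes
over `W`. May assume the statements on the field `L`. -/
def S_LOCW : Prop := ∀ (g W : ℕ) (F L : Type) [Field F] [NumberField F] [Field L] [NumberField L]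
  [Algebra F L] (f : (𝓞 F)[X]) (θ : L) (S J : Finset ℕ) (𝔮 : ℕ → Ideal (𝓞 F))
  (r P : ℕ → (𝓞 F)[X]), 1 ≤ g → IsGen g f θ → SqW g W f → GoodS g W S 𝔮 r P →
  (∀ q ∈ S, q ≡ 1 [MOD W]) → (∀ q ∈ S, Cg (sp F q) f (P q)) → J ⊆ S →
  ∀ h : F[X], aeval ((Dp J : L) * θ) h ≠ 0 → IsSquare (Algebra.norm F (aeval ((Dp J : L) * θ) h)) →
    (∀ w : HeightOneSpectrum (𝓞 F),
      LocF (w.adicCompletion F) (fF (f.scaleRoots ((Dp J : ℕ) : 𝓞 F))) h) →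
    (∀ σ : F →+* ℝ, LocIm ℝ ((fF (f.scaleRoots ((Dp J : ℕ) : 𝓞 F))).map σ) (h.map σ)) →
    (∀ 𝔓 : HeightOneSpectrum (𝓞 L), (W : 𝓞 L) ∉ 𝔓.asIdeal →
      (∀ q ∈ J, Ov (𝔮 q) 𝔓 → 𝔓.valuation L θ ≠ 1) → Ev 𝔓 (aeval ((Dp J : L) * θ) h)) ∧
    (∀ q ∈ J, ∀ 𝔓 : HeightOneSpectrum (𝓞 L), Ov (𝔮 q) 𝔓 → 𝔓.valuation L θ = 1 →
      U0 𝔓 ((q : L) * θ) (aeval ((Dp J : L) * θ) h)) ∧
    (∀ w : HeightOneSpectrum (𝓞 F), (W : 𝓞 F) ∈ w.asIdeal →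
      LocF (w.adicCompletion F) (fF f) (h.comp (C ((Dp J : ℕ) : F) * X))) ∧
    ∀ σ : F →+* ℝ, LocIm ℝ ((fF f).map σ) ((h.comp (C ((Dp J : ℕ) : F) * X)).map σ)

/-! ### The orders -/

/-- UNIW (`H33PR/Uni.lean`): `A` is the group of the classes of square norm with even valuations outside
`T` and the primes over `W`. `|Cl[2]| = |Cl / 2|`; the norm maps `Cl(L) / (2, T, primes over W)` onto
`Cl(F) / (2, primes over W)`. -/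
def S_UNIW : Prop := ∀ (F L : Type) [Field F] [NumberField F] [Field L] [NumberField L] [Algebra F L],
  Odd (Module.finrank F L) → ∀ (W : ℕ), 0 < W → ∀ T : Finset (HeightOneSpectrum (𝓞 L)),
  (∀ 𝔔 ∈ T, (W : 𝓞 L) ∉ 𝔔.asIdeal ∧ ∃ I : Ideal (𝓞 F), Ideal.relNorm (𝓞 F) 𝔔.asIdeal = I ^ 2) →
  ∃ A : Finset L, 2 ^ (T.card + Fintype.card (InfinitePlace L) +
      Nat.card {𝔓 : HeightOneSpectrum (𝓞 L) // (W : 𝓞 L) ∈ 𝔓.asIdeal}) ≤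
      A.card * 2 ^ (Fintype.card (InfinitePlace F) +
        Nat.card {w : HeightOneSpectrum (𝓞 F) // (W : 𝓞 F) ∈ w.asIdeal}) ∧
    (∀ α ∈ A, α ≠ 0 ∧ IsSquare (Algebra.norm F α) ∧
      ∀ 𝔓 ∉ T, (W : 𝓞 L) ∉ 𝔓.asIdeal → Ev 𝔓 α) ∧
    ∀ α ∈ A, ∀ β ∈ A, IsSquare (α * β) → α = β

/-- LSQ: `h(θ)` is a local square at `w` if it is close to 1 at all the primes over `w` (Hensel for
`y ^ 2 + y = t` with `t` topologically nilpotent in `F_w[x] / (f)`; the powers of an element `t` of `L`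
with all valuations over `w` less than 1 tend to zero in `F_w[x] / (f)`, also in the coordinates
`1, θ, ...`: `W ^ k (t / π) ^ n ...`). -/
def S_LSQ : Prop := ∀ (g : ℕ) (F L : Type) [Field F] [NumberField F] [Field L] [NumberField L]
  [Algebra F L] (f : (𝓞 F)[X]) (θ : L), IsGen g f θ → ∀ w : HeightOneSpectrum (𝓞 F),
  ∀ h : F[X], (∀ 𝔓 : HeightOneSpectrum (𝓞 L), Ov w.asIdeal 𝔓 →
    𝔓.valuation L (aeval θ h - 1) < 𝔓.valuation L 4) → LocS (w.adicCompletion F) (fF f) h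

/-- LCT: the number of the classes of all nonzero elements of `L` modulo squares and modulo the elements
close to 1 at the primes over `w`: `4 ^ n N(w) ^ ((2 g + 1) e)`, where `n` is the number of the primes
over `w` and `w ^ e` exactly divides 2. (For one prime `𝔓` with `v(2) = E`: the valuation modulo 2, and
the units modulo `𝔓 ^ (2 E + 1)` modulo squares, which are as many as the elements of order 2 of the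
units modulo `𝔓 ^ (2 E + 1)`, namely `2 N(𝔓) ^ E`; in the case `E = 0` also `2`. Then approximation, and
`∑ f(𝔓) E(𝔓) = (2 g + 1) e` times the residue degree of `w`.) `K / M` is `L / F` or `F / F`. -/
def S_LCT : Prop := ∀ (F L : Type) [Field F] [NumberField F] [Field L] [NumberField L] [Algebra F L]
  (w : HeightOneSpectrum (𝓞 F)) (e : ℕ), w.valuation F (2 : F) = WithZero.exp (-(e : ℤ)) →
  ∃ C : Finset L, C.card = 4 ^ Nat.card {𝔓 : HeightOneSpectrum (𝓞 L) // Ov w.asIdeal 𝔓} *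
      Ideal.absNorm w.asIdeal ^ (Module.finrank F L * e) ∧ (∀ c ∈ C, c ≠ 0) ∧
    (∀ α : L, α ≠ 0 → ∃ c ∈ C, ∃ y : L, y ≠ 0 ∧ ∀ 𝔓 : HeightOneSpectrum (𝓞 L), Ov w.asIdeal 𝔓 →
      𝔓.valuation L (α * c * y ^ 2 - 1) < 𝔓.valuation L 4) ∧
    ∀ c ∈ C, ∀ d ∈ C, (∃ y : L, y ≠ 0 ∧ ∀ 𝔓 : HeightOneSpectrum (𝓞 L), Ov w.asIdeal 𝔓 →
      𝔓.valuation L (d * c * y ^ 2 - 1) < 𝔓.valuation L 4) → c = d

/-- LOCX: the index of the local squares at `w` in the classes of square norm. From `S_LSQ` and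
`S_LCT` (for `L / F` and for `F / F`): if `c`, `d` are different in `C` for `F / F` then the products of a
class of square norm with `c` and `d` are different (the norm of `c` is `c ^ (2 g + 1)`), so there are at
most `|C(L)| / |C(F)|` of them. -/
def S_LOCX : Prop := ∀ (g : ℕ) (F L : Type) [Field F] [NumberField F] [Field L] [NumberField L]
  [Algebra F L] (f : (𝓞 F)[X]) (θ : L), 1 ≤ g → IsGen g f θ →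
  ∀ (w : HeightOneSpectrum (𝓞 F)) (e : ℕ), w.valuation F (2 : F) = WithZero.exp (-(e : ℤ)) →
  ∃ C : Finset L, 4 * C.card ≤ 4 ^ Nat.card {𝔓 : HeightOneSpectrum (𝓞 L) // Ov w.asIdeal 𝔓} *
      Ideal.absNorm w.asIdeal ^ (2 * g * e) ∧
    (∀ c ∈ C, c ≠ 0 ∧ IsSquare (Algebra.norm F c)) ∧
    ∀ α : L, α ≠ 0 → IsSquare (Algebra.norm F α) → ∃ c ∈ C, ∀ h : F[X], aeval θ h = α * c →
      LocS (w.adicCompletion F) (fF f) h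

/-- BIGW (`H18G/BIGG.lean`). From `S_UNIW`, `S_RNQW`, `S_LOCX`, `S_REALX`;
`a = r_L + n_L - r_F - n_F` where `n_L` is the number of the primes of `L` over `W`. -/
def S_BIGW : Prop := ∀ (g W : ℕ) (F L : Type) [Field F] [NumberField F] [Field L] [NumberField L]
  [Algebra F L] (f : (𝓞 F)[X]) (θ : L) (S : Finset ℕ) (𝔮 : ℕ → Ideal (𝓞 F))
  (r P : ℕ → (𝓞 F)[X]), 1 ≤ g → IsGen g f θ → SqW g W f → GoodS g W S 𝔮 r P →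
  (∀ q ∈ S, Cg (sp F q) f (P q)) →
  ∀ 𝔔 : ℕ → HeightOneSpectrum (𝓞 L), (∀ q ∈ S, Ov (𝔮 q) (𝔔 q) ∧ (𝔔 q).valuation L θ = 1) →
  ∃ (a : ℕ) (A C : Finset L), 2 ^ (S.card + a) ≤ A.card ∧ (∀ α ∈ A, InPW F W S 𝔔 α) ∧
    (∀ α ∈ A, ∀ β ∈ A, IsSquare (α * β) → α = β) ∧ C.card ≤ 2 ^ (2 * a) ∧
    ∀ α : L, InPW F W S 𝔔 α → ∃ β ∈ C, InPW F W S 𝔔 β ∧ IsStrW W f θ (α * β)

/-! ### The core -/

/-- The relaxed 2-Selmer group of the twist by `Dp J`, as a group of elements of `L` modulo squares: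
the conditions which follow from the local conditions by `S_LOCW`. -/
structure InR {F L : Type} [Field F] [NumberField F] [Field L] [NumberField L] [Algebra F L] (W : ℕ)
    (J : Finset ℕ) (𝔮 : ℕ → Ideal (𝓞 F)) (f : (𝓞 F)[X]) (θ α : L) : Prop where
  ne : α ≠ 0
  nsq : IsSquare (Algebra.norm F α)
  ev : ∀ 𝔓 : HeightOneSpectrum (𝓞 L), (W : 𝓞 L) ∉ 𝔓.asIdeal →
    (∀ q ∈ J, Ov (𝔮 q) 𝔓 → 𝔓.valuation L θ ≠ 1) → Ev 𝔓 α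
  u0 : ∀ q ∈ J, ∀ 𝔓 : HeightOneSpectrum (𝓞 L), Ov (𝔮 q) 𝔓 → 𝔓.valuation L θ = 1 →
    U0 𝔓 ((q : L) * θ) α
  loc : ∃ h : F[X], aeval θ h = α ∧
    (∀ w : HeightOneSpectrum (𝓞 F), (W : 𝓞 F) ∈ w.asIdeal → LocF (w.adicCompletion F) (fF f) h) ∧
    ∀ σ : F →+* ℝ, LocIm ℝ ((fF f).map σ) (h.map σ)

/-- The relaxed 2-Selmer group of the twist by `Dp J` has at most `n` elements. -/
def RelLe {F : Type} [Field F] [NumberField F] (g W : ℕ) (𝔮 : ℕ → Ideal (𝓞 F)) (n : ℕ)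
    (J : Finset ℕ) (f : (𝓞 F)[X]) : Prop :=
  ∃ (L : Type) (_ : Field L) (_ : NumberField L) (_ : Algebra F L) (θ : L), IsGen g f θ ∧
    ∀ T : Finset L, (∀ x ∈ T, InR W J 𝔮 f θ x) → (∀ x ∈ T, ∀ y ∈ T, IsSquare (x * y) → x = y) →
      T.card ≤ n

/-- COREW (`H18G/COREG.lean`; shorter, because the step from the Selmer group of the twist to `InR` is
in `S_RELS`). From `S_LIN5`, `S_BIGW`, `S_REC2W`, `S_EXQW`, `S_NSW`, `S_RECW`. -/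
def S_COREW : Prop := ∀ (g W : ℕ) (F L : Type) [Field F] [NumberField F] [Field L]
  [NumberField L] [Algebra F L] (f : (𝓞 F)[X]) (θ : L) (S : Finset ℕ) (𝔮 : ℕ → Ideal (𝓞 F))
  (r P : ℕ → (𝓞 F)[X]), 1 ≤ g → IsGen g f θ → SqW g W f → GoodS g W S 𝔮 r P →
  (∀ q ∈ S, Cg (sp F q) f (P q)) →
  (∀ α : L, α ≠ 0 → IsSquare (Algebra.norm F α) →
    (∀ 𝔓 : HeightOneSpectrum (𝓞 L), (W : 𝓞 L) ∉ 𝔓.asIdeal → Ev 𝔓 α) →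
    (∀ q ∈ S, ∀ 𝔓 : HeightOneSpectrum (𝓞 L), Ov (𝔮 q) 𝔓 → Sq1 𝔓 α) → IsSquare α) →
  ∃ Λ : AddSubgroup (S → ZMod 2 × ZMod 2), (∀ l ∈ Λ, ∑ q, (l q).1 * (l q).2 = 0) ∧
    2 ^ S.card ≤ Nat.card Λ ∧
    (∀ J : Finset S, RelLe g W 𝔮 (Nat.card (LJ Λ J)) (J.map (Function.Embedding.subtype _)) f) ∧
    ∀ (J : Finset S), ∀ l ∈ LJ Λ J, l ≠ 0 → ∃ α : L, α ≠ 0 ∧ IsSquare (Algebra.norm F α) ∧
      ¬ IsSquare α ∧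
      (∀ 𝔓 : HeightOneSpectrum (𝓞 L), (W : 𝓞 L) ∉ 𝔓.asIdeal →
        (∀ q : S, q ∈ J → l q ≠ 0 → Ov (𝔮 q) 𝔓 → 𝔓.valuation L θ ≠ 1) → Ev 𝔓 α) ∧
      (∀ q : S, l q = 0 → ∀ 𝔓 : HeightOneSpectrum (𝓞 L), Ov (𝔮 q) 𝔓 → Sq1 𝔓 α) ∧
      ∀ q : S, q ∉ J → l q ≠ 0 → ∃ 𝔓 : HeightOneSpectrum (𝓞 L), Ov (𝔮 q) 𝔓 ∧ ¬ Sq1 𝔓 α

/-- RELS (the last part of `H18G/COREG.lean`). From `S_LOCW`. -/
def S_RELS : Prop := ∀ (g W : ℕ) (F : Type) [Field F] [NumberField F]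
  (f : (𝓞 F)[X]) (S J : Finset ℕ) (𝔮 : ℕ → Ideal (𝓞 F))
  (r P : ℕ → (𝓞 F)[X]), 1 ≤ g → SqW g W f → GoodS g W S 𝔮 r P →
  (∀ q ∈ S, q ≡ 1 [MOD W]) → (∀ q ∈ S, Cg (sp F q) f (P q)) → J ⊆ S →
  ∀ n : ℕ, RelLe g W 𝔮 n J f → SelLe n (twf J f)

section fld

variable {F : Type} [Field F] [NumberField F]

/-- As `Law2` of `H18G/Stm.lean`, for the relaxed Selmer groups: the law for the twists by the products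
of `i` primes in `S`, and for the twists by such products times one element of `R`. -/
def LawW (g W : ℕ) (𝔮 : ℕ → Ideal (𝓞 F)) (S R : Finset ℕ) (m₀ m : ℕ) (ε : ℝ) (f : (𝓞 F)[X]) :
    Prop :=
  ∃ e : Finset ℕ → ℕ, (∀ J ⊆ S ∪ R, RelLe g W 𝔮 (2 ^ e J) J f) ∧
    ∀ i, m₀ ≤ i → i ≤ m → ∀ k : ℕ,
      |(((S.powersetCard i).filter fun J => e J = k).card : ℝ) / (S.card.choose i : ℝ) -
        pr2par (e ∅ + i) k| ≤ ε ∧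
      ∀ r ∈ R, |(((S.powersetCard i).filter fun J => e (insert r J) = k).card : ℝ) /
        (S.card.choose i : ℝ) - pr2par (e ∅ + 1 + i) k| ≤ ε

end fld

/-! ### Counting -/

/-- LBTW (`H18G/LBTG.lean`). The lattice is `Λ = {x | x ^ 2 / (W α) is integral}`, with the form
`x y / α`: `x y / α` is `W` times an integral element, so it is in `𝓞 F [θ]`; `D₁ = W ^ 2 * ∏ q ∈ Q, q`
(see `sdD`, `tvD`, `sq1D` in `H68K/PR/ChiD.lean`, `DistD.lean`; `DVec` with `s = W`). From `S_MAJ`,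
`S_SQ`, `S_INTW`. -/
def S_LBTW : Prop := ∀ (g : ℕ) (F : Type) [Field F] [NumberField F], 1 ≤ g → ∃ κ β : ℕ,
  ∀ (L : Type) [Field L] [NumberField L] [Algebra F L] (f : (𝓞 F)[X]) (θ : L) (B N W l : ℕ)
  (S Q Z U : Finset ℕ) (𝔮 : ℕ → Ideal (𝓞 F)) (h P : ℕ → (𝓞 F)[X]), κ ≤ W → GoodS g W S 𝔮 h P →
  IsGen g f θ → SqW g W f → Ht g B f → 2 ^ (κ + β * l) * B ≤ 4 ^ N →
  (∀ q ∈ S, Cg (sp F q) f (P q)) → Q ⊆ S → Z ⊆ S \ Q → U ⊆ S \ Q → W ^ 2 * ∏ q ∈ Q, q ≤ 2 ^ l →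
  ∀ α : L, α ≠ 0 → IsSquare (Algebra.norm F α) → ¬ IsSquare α →
  (∀ 𝔓 : HeightOneSpectrum (𝓞 L), (W : 𝓞 L) ∉ 𝔓.asIdeal →
    (∀ q ∈ Q, Ov (𝔮 q) 𝔓 → 𝔓.valuation L θ ≠ 1) → Ev 𝔓 α) →
  (∀ q ∈ Z, ∀ 𝔓 : HeightOneSpectrum (𝓞 L), Ov (𝔮 q) 𝔓 → Sq1 𝔓 α) →
  (∀ q ∈ U, ∃ 𝔓 : HeightOneSpectrum (𝓞 L), Ov (𝔮 q) 𝔓 ∧ ¬ Sq1 𝔓 α) →
  Pool.Agent.H33PR.LBT g N (κ + β * l) (S \ Q) Z U 𝔮 P f

/-- FAMD (`N951/PF/Fam.lean`, `H18X/FamS.lean`): many `f` in every residue class. -/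
def S_FAMD : Prop := ∀ (F : Type) [Field F] [NumberField F] (g : ℕ), 1 ≤ g → ∃ K : ℕ,
  ∀ W : ℕ, 0 < W → K.factorial ∣ W → ∃ c : ℝ, 0 < c ∧ ∀ f₁ : (𝓞 F)[X], f₁.Monic →
  f₁.natDegree = 2 * g + 1 → f₁.coeff (2 * g) = 0 →
  ∀ (S : Finset ℕ) (𝔮 : ℕ → Ideal (𝓞 F)) (h P : ℕ → (𝓞 F)[X]),
    GoodS g W S 𝔮 h P → ∃ B₀ : ℕ, ∀ B ≥ B₀,
    c * (B : ℝ) ^ (Module.finrank ℚ F * dd g) ≤
      (((∏ q ∈ S, q ^ (2 * g)) ^ Module.finrank ℚ F : ℕ) : ℝ) *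
      ({f : (𝓞 F)[X] | FamW g B W f₁ S P f}.ncard : ℝ)

/-- SQFW (`N667/PF/Sqf.lean`). -/
def S_SQFW : Prop := ∀ (g : ℕ) (F : Type) [Field F] [NumberField F], 1 ≤ g → ∃ κ : ℕ,
  ∀ (B N W : ℕ) (f₁ : (𝓞 F)[X]) (S : Finset ℕ) (𝔮 : ℕ → Ideal (𝓞 F)) (h P : ℕ → (𝓞 F)[X])
  (f : (𝓞 F)[X]), κ.factorial ∣ W → 0 < W → GoodS g W S 𝔮 h P → FamW g B W f₁ S P f →
  Irreducible (fF f) → 2 ^ κ * B ≤ 4 ^ N → 1 ≤ B → ¬ LBad g N κ S 𝔮 P f →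
  ∀ 𝔭 : Ideal (𝓞 F), 𝔭.IsPrime → 𝔭 ≠ ⊥ → (W : 𝓞 F) ∉ 𝔭 → dsc g f ∉ 𝔭 ^ 2

/-- CLSW: every residue class modulo `N` contains a class as in `GoodW`, separable modulo the primes which
do not divide `N`. Take a prime `ℓ` not dividing `2 N (2 g + 1)`, larger than `K`; by `N823/PF/Gf.lean`
there is a monic polynomial with trace zero, separable modulo all primes over `2 K! ℓ`, which is
irreducible modulo a prime over `ℓ` (a change of it modulo `ℓ`), and `f₁` congruent to `f₀` modulo `N` and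
to it modulo the other primes. It is irreducible over `F`, so `d = dsc g f₁` is not zero.
`W = (2 N ℓ K!) ^ e` with `e` larger than the exponents in `d` of the primes over `2 N ℓ K!`. -/
def S_CLSW : Prop := ∀ (g K N : ℕ) (F : Type) [Field F] [NumberField F] (f₀ : (𝓞 F)[X]), 1 ≤ g →
  0 < N → f₀.Monic → f₀.natDegree = 2 * g + 1 → f₀.coeff (2 * g) = 0 →
  ∃ (W : ℕ) (f₁ : (𝓞 F)[X]), N ∣ W ∧ K.factorial ∣ W ∧ Cg (sp F N) f₁ f₀ ∧ GoodW g W f₁ ∧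
    ∀ 𝔭 : Ideal (𝓞 F), 𝔭.IsPrime → (W : 𝓞 F) ∈ 𝔭 → (N : 𝓞 F) ∉ 𝔭 → (rd 𝔭 f₁).Separable

section fld

variable {F : Type} [Field F] [NumberField F]

/-- The base family. -/
structure BaseW (g W : ℕ) (f₁ : (𝓞 F)[X]) (T : Finset ℕ) (P : ℕ → (𝓞 F)[X]) (f : (𝓞 F)[X]) :
    Prop where
  mon : f.Monic
  deg : f.natDegree = 2 * g + 1
  tr : f.coeff (2 * g) = 0
  one : Cg (sp F W) f f₁
  con : ∀ q ∈ T, Cg (sp F q) f (P q)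
  sqf : SqW g W f

/-- The family of the twists. -/
def FmlW (g W : ℕ) (f₁ : (𝓞 F)[X]) (T : Finset ℕ) (P : ℕ → (𝓞 F)[X])
    (𝒥 : Finset (Finset ℕ)) : Set (𝓞 F)[X] :=
  {h | ∃ J ∈ 𝒥, ∃ f, BaseW g W f₁ T P f ∧ h = twf J f}

/-- The members of the family with a relaxed Selmer group of order at most `n`. -/
def FmlR (g W : ℕ) (f₁ : (𝓞 F)[X]) (T : Finset ℕ) (P : ℕ → (𝓞 F)[X]) (𝔮 : ℕ → Ideal (𝓞 F))
    (𝒥 : Finset (Finset ℕ)) (n : ℕ) : Set (𝓞 F)[X] :=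
  {h | ∃ J ∈ 𝒥, ∃ f, BaseW g W f₁ T P f ∧ h = twf J f ∧ RelLe g W 𝔮 n J f}

end fld

/-- BALW (`H18G/BALG.lean`). `S_SQFW` gives `SqW.out`, and `SqW.inn` follows from `GoodW.inn`, as
`dsc g f` and `dsc g f₁` are congruent modulo `W`; `f` is irreducible by `GoodW.irr`. -/
def S_BALW : Prop := ∀ (g : ℕ) (F : Type) [Field F] [NumberField F], 1 ≤ g → ∃ K : ℕ,
  ∀ (W : ℕ) (f₁ : (𝓞 F)[X]), K.factorial ∣ W → GoodW g W f₁ → ∃ c : ℝ, 0 < c ∧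
  ∀ (ε δ : ℝ), 0 < ε → 0 < δ → ∃ m₀ : ℕ, ∀ m ≥ m₀, ∃ n₀ : ℕ,
  ∀ (S R : Finset ℕ) (𝔮 : ℕ → Ideal (𝓞 F)) (h P : ℕ → (𝓞 F)[X]), Disjoint S R →
    GoodS g W (S ∪ R) 𝔮 h P → (∀ q ∈ S ∪ R, q ≡ 1 [MOD W]) → n₀ ≤ S.card →
    (∀ q ∈ S ∪ R, q ≤ S.card ^ 8) → ∃ B₀ : ℕ, ∀ B ≥ B₀,
    c * (B : ℝ) ^ (Module.finrank ℚ F * dd g) ≤
      (((∏ q ∈ S ∪ R, q ^ (2 * g)) ^ Module.finrank ℚ F : ℕ) : ℝ) *
      ({f : (𝓞 F)[X] | Ht g B f ∧ BaseW g W f₁ (S ∪ R) P f}.ncard : ℝ) ∧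
    (((∏ q ∈ S ∪ R, q ^ (2 * g)) ^ Module.finrank ℚ F : ℕ) : ℝ) *
      ({f : (𝓞 F)[X] | Ht g B f ∧ BaseW g W f₁ (S ∪ R) P f ∧ ¬ LawW g W 𝔮 S R m₀ m ε f}.ncard : ℝ) ≤
      δ * (c * (B : ℝ) ^ (Module.finrank ℚ F * dd g))

/-- EXVW (`H18PR/Exv.lean`, `H18G/EXVG.lean`), with primes `1` modulo `8 W`. -/
def S_EXVW : Prop := ∀ (g : ℕ) (F : Type) [Field F] [NumberField F], 1 ≤ g →
  ∀ (W i m : ℕ) (η : ℝ), 0 < W → 0 < η →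
  ∃ (S R : Finset ℕ) (𝔮 : ℕ → Ideal (𝓞 F)) (h P : ℕ → (𝓞 F)[X]) (Q : ℕ), Disjoint S R ∧
    GoodS g W (S ∪ R) 𝔮 h P ∧ (∀ q ∈ S ∪ R, q ≡ 1 [MOD W]) ∧ m ≤ S.card ∧
    (∀ q ∈ S ∪ R, q ≤ S.card ^ 8) ∧ 0 < Q ∧
    (∀ q ∈ S, Q ≤ q ∧ (q : ℝ) ≤ (1 + η) * Q) ∧
    (∀ q ∈ R, Q ^ 2 ≤ q ∧ (q : ℝ) ≤ (1 + η) * Q ^ 2) ∧
    S.card.choose (i + 2) = R.card * S.card.choose i

/-- REGW (`H18G/REGG.lean`), for `BaseW`. -/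
def S_REGW : Prop := ∀ (g : ℕ) (F : Type) [Field F] [NumberField F], 1 ≤ g →
  ∀ (W : ℕ) (c : ℝ), 0 < W → 0 < c → ∀ ε : ℝ, 0 < ε → ∃ δ : ℝ, 0 < δ ∧ ∀ m : ℕ, ∃ η : ℝ, 0 < η ∧
  ∀ (T : Finset ℕ) (f₁ : (𝓞 F)[X]) (P : ℕ → (𝓞 F)[X]) (Pr : (𝓞 F)[X] → Prop),
    (∀ q ∈ T, q.Prime ∧ Nat.Coprime W q) →
    (∃ B₀ : ℕ, ∀ B ≥ B₀,
      c * (B : ℝ) ^ (Module.finrank ℚ F * dd g) ≤
        (((∏ q ∈ T, q ^ (2 * g)) ^ Module.finrank ℚ F : ℕ) : ℝ) *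
        ({f : (𝓞 F)[X] | Ht g B f ∧ BaseW g W f₁ T P f}.ncard : ℝ) ∧
      (((∏ q ∈ T, q ^ (2 * g)) ^ Module.finrank ℚ F : ℕ) : ℝ) *
        ({f : (𝓞 F)[X] | Ht g B f ∧ BaseW g W f₁ T P f ∧ ¬ Pr f}.ncard : ℝ) ≤
        δ * (c * (B : ℝ) ^ (Module.finrank ℚ F * dd g))) →
    ∃ (c' Y₀ : ℝ), 0 < c' ∧ ∀ Y : ℝ, {f : (𝓞 F)[X] | HtR g Y f}.Finite ∧ (Y₀ ≤ Y →
    0 < {f : (𝓞 F)[X] | HtR g Y f ∧ BaseW g W f₁ T P f}.ncard ∧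
    c' * ({f : (𝓞 F)[X] | HtR g Y f}.ncard : ℝ) ≤
      ({f : (𝓞 F)[X] | HtR g Y f ∧ BaseW g W f₁ T P f}.ncard : ℝ) ∧
    ({f : (𝓞 F)[X] | HtR g Y f ∧ BaseW g W f₁ T P f ∧ ¬ HtR g (Y / (1 + η) ^ m) f}.ncard : ℝ) ≤
      ε * ({f : (𝓞 F)[X] | HtR g Y f ∧ BaseW g W f₁ T P f}.ncard : ℝ) ∧
    ({f : (𝓞 F)[X] | HtR g Y f ∧ BaseW g W f₁ T P f ∧ ¬ Pr f}.ncard : ℝ) ≤
      ε * ({f : (𝓞 F)[X] | HtR g Y f ∧ BaseW g W f₁ T P f}.ncard : ℝ))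

/-- DSJW (`H18G/DSJG.lean`): `d` and `d'` are squarefree and prime to `W`. -/
def S_DSJW : Prop := ∀ (g W : ℕ) (F : Type) [Field F] [NumberField F] (f f' : (𝓞 F)[X])
  (d d' : ℕ), 1 ≤ g → 0 < d → 0 < d' → Nat.Coprime W d → Nat.Coprime W d' → f.Monic → f'.Monic →
  f.natDegree = 2 * g + 1 → f'.natDegree = 2 * g + 1 → SqW g W f → SqW g W f' →
  f.scaleRoots (d : 𝓞 F) = f'.scaleRoots (d' : 𝓞 F) → d = d' ∧ f = f'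

/-- FAMNW (`H18G/FAMG.lean`): the law (upper bounds) in every class as in `GoodW`. From `S_BALW`,
`S_EXVW`, `S_REGW`, `S_CMPG`, `S_DSJW` and `S_EUL`. -/
def S_FAMNW : Prop := ∀ (g : ℕ) (F : Type) [Field F] [NumberField F], 1 ≤ g → ∃ K : ℕ,
  ∀ (W : ℕ) (f₁ : (𝓞 F)[X]), K.factorial ∣ W → GoodW g W f₁ → ∀ ε : ℝ, 0 < ε →
  ∃ (T : Finset ℕ) (𝔮 : ℕ → Ideal (𝓞 F)) (r P : ℕ → (𝓞 F)[X]) (𝒥 : Finset (Finset ℕ)),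
    GoodS g W T 𝔮 r P ∧ (∀ q ∈ T, q ≡ 1 [MOD W]) ∧
    (∀ J ∈ 𝒥, J ⊆ T) ∧ ∃ (c Y₀ : ℝ), 0 < c ∧ ∀ Y : ℝ, {f : (𝓞 F)[X] | HtR g Y f}.Finite ∧
    (Y₀ ≤ Y → 0 < {f : (𝓞 F)[X] | HtR g Y f ∧ f ∈ FmlW g W f₁ T P 𝒥}.ncard ∧
    c * ({f : (𝓞 F)[X] | HtR g Y f}.ncard : ℝ) ≤
      ({f : (𝓞 F)[X] | HtR g Y f ∧ f ∈ FmlW g W f₁ T P 𝒥}.ncard : ℝ) ∧
    ∀ k : ℕ, ({f : (𝓞 F)[X] | HtR g Y f ∧ f ∈ FmlW g W f₁ T P 𝒥 ∧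
        f ∉ FmlR g W f₁ T P 𝔮 𝒥 (2 ^ k)}.ncard : ℝ) ≤
      (1 - ∑ j ∈ Finset.range (k + 1), pr2 j + ε) *
        ({f : (𝓞 F)[X] | HtR g Y f ∧ f ∈ FmlW g W f₁ T P 𝒥}.ncard : ℝ))

end Pool.Agent.H18N
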