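import Pool.Agent.H18N.Near
import Pool.Agent.H18N.FAMNW

/-!
# Project JN: the law for the random twists of nearly all curves of the base family, all genera, every class
-/

set_option autoImplicit false
set_option linter.all false

open Polynomial IsDedekindDomain NumberField
open scoped Classical Pointwise IntermediateField

namespace Pool.Agent.H18N.Per

open Pool.Agent.N783.PF
open Pool.Agent.N352.PJ (dd)
open Pool.Agent.H14F (Tot Unr)
open Pool.Agent.H18G (twf HtR SelLe)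
open Pool.Agent.H68K.PR (pr2 pr2par S_EUL)

/-- The law for the twists of `f` by the products of `i` primes in `S`. -/
def Qn (F : Type) [Field F] [NumberField F] (M : ℕ) (S : Finset ℕ) (m₀ m : ℕ) (ε : ℝ)
    (f : (𝓞 F)[X]) : Prop :=
  ∃ t : ℕ, ∀ i, m₀ ≤ i → i ≤ m → ∀ k : ℕ,
    (∑ j ∈ Finset.range (k + 1), pr2par (t + i) j - ε) * (S.card.choose i : ℝ) ≤
      (((S.powersetCard i).filter fun J => BdA F M k (twf J f)).card : ℝ)

theorem base_iff {F : Type} [Field F] [NumberField F] {g W : ℕ} {f₁ : (𝓞 F)[X]} {T : Finset ℕ}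
    {P : ℕ → (𝓞 F)[X]} (f : (𝓞 F)[X]) : f ∈ FmlW g W f₁ T P {∅} ↔ BaseW g W f₁ T P f := by
  have e : ∀ f : (𝓞 F)[X], twf ∅ f = f := by
    intro f
    show f.scaleRoots (((∏ q ∈ (∅ : Finset ℕ), q : ℕ) : ℕ) : 𝓞 F) = f
    rw [Finset.prod_empty, Nat.cast_one, scaleRoots_one]
  constructor
  · rintro ⟨J, hJ, f', hb, rfl⟩
    rw [Finset.mem_singleton] at hJ
    subst hJ
    rw [e]
    exact hb
  · intro h
    exact ⟨∅, Finset.mem_singleton_self _, f, h, (e f).symm⟩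

theorem par_le {t k : ℕ} (hp : ∀ k, 0 < pr2 k) : 0 ≤ pr2par t k ∧ pr2par t k ≤ 2 * pr2 k := by
  unfold pr2par
  split_ifs
  · exact ⟨by linarith [hp k], le_rfl⟩
  · exact ⟨le_rfl, by linarith [hp k]⟩

/-- From the law for the relaxed groups to the counting statement. -/
theorem qn_of (hA : S_ADMW) (hEUL : S_EUL) {g W : ℕ} (hg : 1 ≤ g) {F : Type} [Field F]
    [NumberField F] {f₁ : (𝓞 F)[X]} (hW : GoodW g W f₁) {S : Finset ℕ} {𝔮 : ℕ → Ideal (𝓞 F)}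
    {r P : ℕ → (𝓞 F)[X]} (hT : GoodS g W S 𝔮 r P) (hT1 : ∀ q ∈ S, q ≡ 1 [MOD W]) {m₀ m : ℕ}
    {ε ε₂ : ℝ} {k₀ : ℕ} (hk₀ : 1 - ε / 4 ≤ ∑ j ∈ Finset.range (k₀ + 1), pr2 j) (hε₂ : 0 ≤ ε₂)
    (hε₂' : (k₀ + 1) * ε₂ ≤ ε / 2) (hm : m ≤ S.card) {f : (𝓞 F)[X]} (hb : BaseW g W f₁ S P f)
    (hL : LawW g W 𝔮 S ∅ m₀ m ε₂ f) : Qn F (md g W S) S m₀ m ε f := by
  obtain ⟨e, he1, he2⟩ := hL
  have hp := hEUL.1
  refine ⟨e ∅, fun i hi1 hi2 k => ?_⟩
  have hC : (0 : ℝ) < (S.card.choose i : ℝ) := by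
    exact_mod_cast Nat.choose_pos (hi2.trans hm)
  -- the members with `e J ≤ k`
  have hsub : ((S.powersetCard i).filter fun J => e J ≤ k) ⊆
      ((S.powersetCard i).filter fun J => BdA F (md g W S) k (twf J f)) := by
    intro J hJ
    rw [Finset.mem_filter, Finset.mem_powersetCard] at hJ ⊢
    refine ⟨hJ.1, ?_⟩
    refine bda_of hA hg hW hT hT1 (𝒥 := S.powerset) (fun J' hJ' => Finset.mem_powerset.1 hJ') ?_
    refine ⟨J, Finset.mem_powerset.2 hJ.1.1, f, hb, rfl, ?_⟩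
    exact Pool.Agent.H18N.FAMNW.relLe_mono (Nat.pow_le_pow_right two_pos hJ.2)
      (he1 J (hJ.1.1.trans Finset.subset_union_left))
  -- the sum over the values
  have hsum : ∀ l : ℕ, (((S.powersetCard i).filter fun J => e J ≤ l).card : ℝ) =
      ∑ j ∈ Finset.range (l + 1), (((S.powersetCard i).filter fun J => e J = j).card : ℝ) := by
    intro l
    have h1 : ((S.powersetCard i).filter fun J => e J ≤ l) =
        (Finset.range (l + 1)).biUnion fun j => (S.powersetCard i).filter fun J => e J = j := by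
      ext J
      simp only [Finset.mem_filter, Finset.mem_biUnion, Finset.mem_range]
      constructor
      · rintro ⟨h1, h2⟩
        exact ⟨e J, by omega, h1, rfl⟩
      · rintro ⟨j, h1, h2, h3⟩
        exact ⟨h2, by omega⟩
    rw [h1, Finset.card_biUnion, Nat.cast_sum]
    intro a _ b _ hab
    rw [Function.onFun, Finset.disjoint_left]
    intro J hJ hJ'
    rw [Finset.mem_filter] at hJ hJ'
    exact hab (hJ.2.symm.trans hJ'.2)
  have hlow : ∀ l : ℕ, (∑ j ∈ Finset.range (l + 1), pr2par (e ∅ + i) j - (l + 1) * ε₂) *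
      (S.card.choose i : ℝ) ≤ (((S.powersetCard i).filter fun J => e J ≤ l).card : ℝ) := by
    intro l
    rw [hsum]
    have h1 : ∀ j, (pr2par (e ∅ + i) j - ε₂) * (S.card.choose i : ℝ) ≤
        (((S.powersetCard i).filter fun J => e J = j).card : ℝ) := by
      intro j
      have h2 := (abs_le.1 ((he2 i hi1 hi2 j).1)).1
      have h3 : pr2par (e ∅ + i) j - ε₂ ≤
          (((S.powersetCard i).filter fun J => e J = j).card : ℝ) / (S.card.choose i : ℝ) := by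
        linarith
      rwa [le_div_iff₀ hC] at h3
    calc (∑ j ∈ Finset.range (l + 1), pr2par (e ∅ + i) j - (l + 1) * ε₂) *
          (S.card.choose i : ℝ) =
        ∑ j ∈ Finset.range (l + 1), (pr2par (e ∅ + i) j - ε₂) * (S.card.choose i : ℝ) := by
          rw [← Finset.sum_mul, Finset.sum_sub_distrib, Finset.sum_const, Finset.card_range,
            nsmul_eq_mul]
          push_cast
          ring
      _ ≤ _ := Finset.sum_le_sum fun j _ => h1 j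
  have hcard : (((S.powersetCard i).filter fun J => e J ≤ k).card : ℝ) ≤
      (((S.powersetCard i).filter fun J => BdA F (md g W S) k (twf J f)).card : ℝ) := by
    exact_mod_cast Finset.card_le_card hsub
  refine le_trans ?_ hcard
  rcases le_or_gt k k₀ with hk | hk
  · refine le_trans ?_ (hlow k)
    refine mul_le_mul_of_nonneg_right ?_ hC.le
    have h1 : ((k : ℝ) + 1) * ε₂ ≤ (k₀ + 1) * ε₂ := by
      refine mul_le_mul_of_nonneg_right ?_ hε₂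
      have : (k : ℝ) ≤ k₀ := by exact_mod_cast hk
      linarith
    have h2 : 0 ≤ (k₀ + 1) * ε₂ := by positivity
    linarith
  · have h1 : ((S.powersetCard i).filter fun J => e J ≤ k₀) ⊆
        ((S.powersetCard i).filter fun J => e J ≤ k) := by
      intro J hJ
      rw [Finset.mem_filter] at hJ ⊢
      exact ⟨hJ.1, by omega⟩
    have h2 : (((S.powersetCard i).filter fun J => e J ≤ k₀).card : ℝ) ≤
        (((S.powersetCard i).filter fun J => e J ≤ k).card : ℝ) := by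
      exact_mod_cast Finset.card_le_card h1
    refine le_trans ?_ ((hlow k₀).trans h2)
    refine mul_le_mul_of_nonneg_right ?_ hC.le
    -- the tail
    have h3 : ∑ j ∈ Finset.range (k + 1), pr2 j ≤ 1 :=
      sum_le_hasSum _ (fun j _ => (hp j).le) hEUL.2.1
    have h4 : Finset.range (k₀ + 1) ⊆ Finset.range (k + 1) :=
      Finset.range_subset_range.2 (by omega)
    have h5 : ∑ j ∈ Finset.range (k + 1), pr2par (e ∅ + i) j =
        ∑ j ∈ Finset.range (k + 1) \ Finset.range (k₀ + 1), pr2par (e ∅ + i) j +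
        ∑ j ∈ Finset.range (k₀ + 1), pr2par (e ∅ + i) j := (Finset.sum_sdiff h4).symm
    have h6 : ∑ j ∈ Finset.range (k + 1), pr2 j =
        ∑ j ∈ Finset.range (k + 1) \ Finset.range (k₀ + 1), pr2 j +
        ∑ j ∈ Finset.range (k₀ + 1), pr2 j := (Finset.sum_sdiff h4).symm
    have h7 : ∑ j ∈ Finset.range (k + 1) \ Finset.range (k₀ + 1), pr2par (e ∅ + i) j ≤
        2 * ∑ j ∈ Finset.range (k + 1) \ Finset.range (k₀ + 1), pr2 j := by
      rw [Finset.mul_sum]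
      exact Finset.sum_le_sum fun j _ => (par_le hp).2
    linarith

/-- The law for the random twists near every curve, all genera. -/
theorem quench (hB : S_BALW) (hE : S_EXVW) (hR : S_REGW) (hC : S_CLSX) (hA : S_ADMW)
    (hS : S_STEPW) (hEUL : S_EUL) (g : ℕ) (F : Type) [Field F] [NumberField F] (hg : 1 ≤ g)
    (n : ℕ) (hn : 0 < n) (f₀ : (𝓞 F)[X]) (hm : f₀.Monic)
    (hd : f₀.natDegree = 2 * g + 1) (ht : f₀.coeff (2 * g) = 0)
    (hmin : ∀ 𝔭 : Ideal (𝓞 F), 𝔭.IsPrime → (n : 𝓞 F) ∈ 𝔭 →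
      ¬ ∀ j ≤ 2 * g, f₀.coeff j ∈ 𝔭 ^ (2 * (2 * g + 1 - j)))
    (ε : ℝ) (hε : 0 < ε) :
    ∃ m₀ : ℕ, ∀ m ≥ m₀, ∃ (M : ℕ) (R : Set (𝓞 F)[X]) (S : Finset ℕ), 0 < M ∧ PerR M R ∧
      (∀ f ∈ R, Cg (sp F n) f f₀) ∧ m ≤ S.card ∧ (∀ q ∈ S, q.Prime ∧ q ∣ M) ∧
      (∀ f, InFm g M R f → ∀ J ⊆ S, Cg (sp F n) (twf J f) f₀ ∧ Min g (twf J f) ∧
        Irreducible (fF (twf J f)) ∧ (StepW F M (twf J f)).Infinite) ∧
      ∃ (c Y₀ : ℝ), 0 < c ∧ ∀ Y : ℝ, {f : (𝓞 F)[X] | HtR g Y f}.Finite ∧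
      (Y₀ ≤ Y → 0 < {f : (𝓞 F)[X] | HtR g Y f ∧ InFm g M R f}.ncard ∧
      c * ({f : (𝓞 F)[X] | HtR g Y f}.ncard : ℝ) ≤
        ({f : (𝓞 F)[X] | HtR g Y f ∧ InFm g M R f}.ncard : ℝ) ∧
      ({f : (𝓞 F)[X] | HtR g Y f ∧ InFm g M R f ∧ ¬ Qn F M S m₀ m ε f}.ncard : ℝ) ≤
        ε * ({f : (𝓞 F)[X] | HtR g Y f ∧ InFm g M R f}.ncard : ℝ)) := by
  obtain ⟨K, hK⟩ := hB g F hg
  have hN : 0 < n ^ (2 * (2 * g + 1)) := pow_pos hn _
  obtain ⟨W, f₁, hNW, hKW, hcg, hW, hsep, p, hpW, hpS, hpI⟩ :=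
    hC g K (n ^ (2 * (2 * g + 1))) F f₀ hg hN hm hd ht
  obtain ⟨cW, hcW, hBal⟩ := hK W f₁ hKW hW
  have hW0 : 0 < W := hW.pos
  -- the constants
  obtain ⟨k₀, hk₀⟩ : ∃ k₀ : ℕ, 1 - ε / 4 ≤ ∑ j ∈ Finset.range (k₀ + 1), pr2 j := by
    have h7 := hEUL.2.1.tendsto_sum_nat
    have h8 := (h7.eventually (eventually_ge_nhds (show 1 - ε / 4 < 1 by linarith))).exists
    obtain ⟨l, hl⟩ := h8
    refine ⟨l, hl.trans ?_⟩
    exact Finset.sum_le_sum_of_subset_of_nonneg (Finset.range_subset_range.2 (by omega))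
      fun j _ _ => (hEUL.1 j).le
  obtain ⟨ε₂, hε₂⟩ : ∃ ε₂ : ℝ, ε₂ = ε / (2 * (k₀ + 1)) := ⟨_, rfl⟩
  have hε₂0 : 0 < ε₂ := by rw [hε₂]; positivity
  have hε₂1 : (k₀ + 1) * ε₂ ≤ ε / 2 := by
    rw [hε₂]
    apply le_of_eq
    field_simp
  obtain ⟨δ₀, hδ₀, hRg⟩ := hR g F hg W cW hW0 hcW ε hε
  obtain ⟨m₀, hm₀⟩ := hBal ε₂ δ₀ hε₂0 hδ₀
  refine ⟨m₀, fun m hmm => ?_⟩
  obtain ⟨n₀, hn₀⟩ := hm₀ m hmm
  obtain ⟨η, hη, hreg⟩ := hRg m
  obtain ⟨S, R', 𝔮, r, P, Q, -, hGS, hmodW, hcard, hcube, -, -, -, -⟩ :=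
    hE g F hg W m₀ (max n₀ m) 1 hW0 one_pos
  have hSsub : S ⊆ S ∪ R' := Finset.subset_union_left
  have hT : GoodS g W S 𝔮 r P := fun q hq => hGS q (hSsub hq)
  have hT1 : ∀ q ∈ S, q ≡ 1 [MOD W] := fun q hq => hmodW q (hSsub hq)
  have hmS : m ≤ S.card := (le_max_right _ _).trans hcard
  have hbox := hn₀ S ∅ 𝔮 r P (Finset.disjoint_empty_right _)
    (by rw [Finset.union_empty]; exact hT) (by rw [Finset.union_empty]; exact hT1)
    ((le_max_left _ _).trans hcard)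
    (by rw [Finset.union_empty]; exact fun q hq => hcube q (hSsub hq))
  rw [Finset.union_empty] at hbox
  have hcop : ∀ q ∈ S, q.Prime ∧ Nat.Coprime W q := by
    intro q hq
    refine ⟨(hT q hq).1, Nat.Coprime.symm ?_⟩
    rw [Nat.Prime.coprime_iff_not_dvd (hT q hq).1]
    intro hd
    exact absurd (Nat.le_of_dvd hW0 hd) (not_le.2 (hT q hq).2.1)
  obtain ⟨c, Y₀, hc, hY⟩ := hreg S f₁ P (LawW g W 𝔮 S ∅ m₀ m ε₂) hcop hbox
  have hTp : ∀ q ∈ S, 0 < q := fun q hq => (hT q hq).1.pos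
  have hM0 : 0 < md g W S := Nat.mul_pos hW.pos (pow_pos (Finset.prod_pos hTp) _)
  have hnW : n ∣ W := (dvd_pow_self n (by omega)).trans hNW
  have h𝒥 : ∀ J ∈ ({∅} : Finset (Finset ℕ)), J ⊆ S := by
    intro J hJ
    rw [Finset.mem_singleton.1 hJ]
    exact Finset.empty_subset _
  have hfi : ∀ f, InFm g (md g W S) (RR g W f₁ S P {∅} (md g W S)) f ↔ BaseW g W f₁ S P f :=
    fun f => (fml_iff hg hW hT h𝒥 f).trans (base_iff f)
  have hpow : ∀ J ∈ S.powerset, J ⊆ S := fun J hJ => Finset.mem_powerset.1 hJ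
  refine ⟨md g W S, RR g W f₁ S P {∅} (md g W S), S, hM0, per_rr _ _ _ _ _ _ _, fun f hf => ?_,
    hmS, fun q hq => ⟨(hT q hq).1, ?_⟩, fun f hf J hJ => ?_, c, Y₀, hc, fun Y => ?_⟩
  · exact cg_trans (cg_mono (sp_le hnW) (rr_cg hT1 h𝒥 hW.mon hf))
      (cg_mono (sp_le (dvd_pow_self n (by omega))) hcg)
  · rw [md]
    exact Dvd.dvd.mul_left ((Finset.dvd_prod_of_mem (fun q => q) hq).trans
      (dvd_pow_self _ (by omega))) _
  · have hb := (hfi f).1 hf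
    have hmem : twf J f ∈ FmlW g W f₁ S P S.powerset :=
      ⟨J, Finset.mem_powerset.2 hJ, f, hb, rfl⟩
    have hin := (fml_iff hg hW hT hpow _).2 hmem
    have hcf : Cg (sp F W) (twf J f) f₁ := rr_cg hT1 hpow hW.mon hin.mem
    refine ⟨cg_trans (cg_mono (sp_le hnW) hcf) (cg_mono (sp_le (dvd_pow_self n (by omega))) hcg),
      min_fml hg hn hW hNW hcg hmin hsep hT hT1 hpow hmem, ?_, ?_⟩
    · obtain ⟨𝔭, hp, hWp, hirr⟩ := hW.irr
      have h0 : 𝔭 ≠ ⊥ := by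
        rintro rfl
        rw [Ideal.mem_bot] at hWp
        exact hW.pos.ne' (by exact_mod_cast hWp)
      refine Pool.Agent.H14F.irr_of_mod hin.mon (w := ⟨𝔭, hp, h0⟩) ?_
      show Irreducible (rd 𝔭 (twf J f))
      rw [cg_irr (cg_mono ((Ideal.span_singleton_le_iff_mem _).2 hWp) hcf)]
      exact hirr
    · refine hS g (md g W S) F (twf J f) hg hM0 (hW.two.trans (Dvd.intro _ rfl)) hin.mon hin.deg
        ⟨p, hpS, fun 𝔭 hp hpp => ?_⟩
      have hWp : (W : 𝓞 F) ∈ 𝔭 := by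
        obtain ⟨e, rfl⟩ := hpW
        rw [Nat.cast_mul]
        exact Ideal.mul_mem_right _ _ hpp
      rw [cg_irr (cg_mono ((Ideal.span_singleton_le_iff_mem _).2 hWp) hcf)]
      exact hpI 𝔭 hp hpp
  · obtain ⟨h1, h2⟩ := hY Y
    refine ⟨h1, fun hYY => ?_⟩
    obtain ⟨h3, h4, -, h5⟩ := h2 hYY
    simp only [hfi]
    refine ⟨h3, h4, le_trans ?_ h5⟩
    have hsub : {f : (𝓞 F)[X] | HtR g Y f ∧ BaseW g W f₁ S P f ∧ ¬ Qn F (md g W S) S m₀ m ε f} ⊆
        {f : (𝓞 F)[X] | HtR g Y f ∧ BaseW g W f₁ S P f ∧ ¬ LawW g W 𝔮 S ∅ m₀ m ε₂ f} := by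
      rintro f ⟨a1, a2, a3⟩
      exact ⟨a1, a2, fun a4 => a3 (qn_of hA hEUL hg hW hT hT1 hk₀ hε₂0.le hε₂1 hmS a2 a4)⟩
    exact_mod_cast Set.ncard_le_ncard hsub (h1.subset fun f hf => hf.1)

end Pool.Agent.H18N.Per
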