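import Pool.Agent.H82.NR.Fam
import Pool.Agent.H18N.Near

/-!
# Project JN: the ranks of the random twists of nearly all curves of the base family, for the naive height
# over the rational numbers
-/

set_option autoImplicit false
set_option linter.all false

open Polynomial NumberField IsDedekindDomain
open scoped Classical

namespace Pool.Agent.H18N.TwV

open Pool.Agent.N783.PF
open Pool.Agent.H18N
open Pool.Agent.H18N.Per
open Pool.Agent.H18G (twf SelLe)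
open Pool.Agent.H68K.PR (pr2 pr2par Gd S_EUL)
open Pool.Agent.H93PR.QR (Fm Pq Pq_prime Pq_ne io)
open Pool.Agent.H82.NR

theorem par_le {t k : ℕ} (hp : ∀ k, 0 < pr2 k) : 0 ≤ pr2par t k ∧ pr2par t k ≤ 2 * pr2 k := by
  unfold pr2par
  split_ifs
  · exact ⟨by linarith [hp k], le_rfl⟩
  · exact ⟨le_rfl, by linarith [hp k]⟩

/-- From the law for the relaxed groups to the counting statement. -/
theorem qn_gen (hEUL : S_EUL) {g W : ℕ} {F : Type} [Field F]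
    [NumberField F] {S : Finset ℕ} {𝔮 : ℕ → Ideal (𝓞 F)} {m₀ m : ℕ}
    {ε ε₂ : ℝ} {k₀ : ℕ} (hk₀ : 1 - ε / 4 ≤ ∑ j ∈ Finset.range (k₀ + 1), pr2 j) (hε₂ : 0 ≤ ε₂)
    (hε₂' : (k₀ + 1) * ε₂ ≤ ε / 2) (hm : m ≤ S.card) {f : (𝓞 F)[X]}
    (hL : LawW g W 𝔮 S ∅ m₀ m ε₂ f) (Pk : ℕ → Finset ℕ → Prop)
    (hP : ∀ J ⊆ S, ∀ k, RelLe g W 𝔮 (2 ^ k) J f → Pk k J) :
    ∃ t : ℕ, ∀ i, m₀ ≤ i → i ≤ m → ∀ k : ℕ,
      (∑ j ∈ Finset.range (k + 1), pr2par (t + i) j - ε) * (S.card.choose i : ℝ) ≤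
        (((S.powersetCard i).filter fun J => Pk k J).card : ℝ) := by
  obtain ⟨e, he1, he2⟩ := hL
  have hp := hEUL.1
  refine ⟨e ∅, fun i hi1 hi2 k => ?_⟩
  have hC : (0 : ℝ) < (S.card.choose i : ℝ) := by
    exact_mod_cast Nat.choose_pos (hi2.trans hm)
  -- the members with `e J ≤ k`
  have hsub : ((S.powersetCard i).filter fun J => e J ≤ k) ⊆
      ((S.powersetCard i).filter fun J => Pk k J) := by
    intro J hJ
    rw [Finset.mem_filter, Finset.mem_powersetCard] at hJ ⊢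
    refine ⟨hJ.1, hP J hJ.1.1 k ?_⟩
    exact Pool.Agent.H18N.FAMNW.relLe_mono (Nat.pow_le_pow_right two_pos hJ.2)
      (he1 J (hJ.1.1.trans Finset.subset_union_left))
  -- the sum over the values
  have hsum : ∀ l : ℕ, (((S.powersetCard i).filter fun J => e J ≤ l).card : ℝ) =
      ∑ j ∈ Finset.range (l + 1), (((S.powersetCard i).filter fun J => e J = j).card : ℝ) := by
    intro l
    have h1 : ((S.powersetCard i).filter fun J => e J ≤ l) =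
        (Finset.range (l + 1)).biUnion fun j => (S.powersetCard i).filter fun J => e J = j := by
      ext J
      simp only [Finset.mem_filter, Finset.mem_biUnion, Finset.mem_range]
      constructor
      · rintro ⟨h1, h2⟩
        exact ⟨e J, by omega, h1, rfl⟩
      · rintro ⟨j, h1, h2, h3⟩
        exact ⟨h2, by omega⟩
    rw [h1, Finset.card_biUnion, Nat.cast_sum]
    intro a _ b _ hab
    rw [Function.onFun, Finset.disjoint_left]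
    intro J hJ hJ'
    rw [Finset.mem_filter] at hJ hJ'
    exact hab (hJ.2.symm.trans hJ'.2)
  have hlow : ∀ l : ℕ, (∑ j ∈ Finset.range (l + 1), pr2par (e ∅ + i) j - (l + 1) * ε₂) *
      (S.card.choose i : ℝ) ≤ (((S.powersetCard i).filter fun J => e J ≤ l).card : ℝ) := by
    intro l
    rw [hsum]
    have h1 : ∀ j, (pr2par (e ∅ + i) j - ε₂) * (S.card.choose i : ℝ) ≤
        (((S.powersetCard i).filter fun J => e J = j).card : ℝ) := by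
      intro j
      have h2 := (abs_le.1 ((he2 i hi1 hi2 j).1)).1
      have h3 : pr2par (e ∅ + i) j - ε₂ ≤
          (((S.powersetCard i).filter fun J => e J = j).card : ℝ) / (S.card.choose i : ℝ) := by
        linarith
      rwa [le_div_iff₀ hC] at h3
    calc (∑ j ∈ Finset.range (l + 1), pr2par (e ∅ + i) j - (l + 1) * ε₂) *
          (S.card.choose i : ℝ) =
        ∑ j ∈ Finset.range (l + 1), (pr2par (e ∅ + i) j - ε₂) * (S.card.choose i : ℝ) := by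
          rw [← Finset.sum_mul, Finset.sum_sub_distrib, Finset.sum_const, Finset.card_range,
            nsmul_eq_mul]
          push_cast
          ring
      _ ≤ _ := Finset.sum_le_sum fun j _ => h1 j
  have hcard : (((S.powersetCard i).filter fun J => e J ≤ k).card : ℝ) ≤
      (((S.powersetCard i).filter fun J => Pk k J).card : ℝ) := by
    exact_mod_cast Finset.card_le_card hsub
  refine le_trans ?_ hcard
  rcases le_or_gt k k₀ with hk | hk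
  · refine le_trans ?_ (hlow k)
    refine mul_le_mul_of_nonneg_right ?_ hC.le
    have h1 : ((k : ℝ) + 1) * ε₂ ≤ (k₀ + 1) * ε₂ := by
      refine mul_le_mul_of_nonneg_right ?_ hε₂
      have : (k : ℝ) ≤ k₀ := by exact_mod_cast hk
      linarith
    have h2 : 0 ≤ (k₀ + 1) * ε₂ := by positivity
    linarith
  · have h1 : ((S.powersetCard i).filter fun J => e J ≤ k₀) ⊆
        ((S.powersetCard i).filter fun J => e J ≤ k) := by
      intro J hJ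
      rw [Finset.mem_filter] at hJ ⊢
      exact ⟨hJ.1, by omega⟩
    have h2 : (((S.powersetCard i).filter fun J => e J ≤ k₀).card : ℝ) ≤
        (((S.powersetCard i).filter fun J => e J ≤ k).card : ℝ) := by
      exact_mod_cast Finset.card_le_card h1
    refine le_trans ?_ ((hlow k₀).trans h2)
    refine mul_le_mul_of_nonneg_right ?_ hC.le
    -- the tail
    have h3 : ∑ j ∈ Finset.range (k + 1), pr2 j ≤ 1 :=
      sum_le_hasSum _ (fun j _ => (hp j).le) hEUL.2.1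
    have h4 : Finset.range (k₀ + 1) ⊆ Finset.range (k + 1) :=
      Finset.range_subset_range.2 (by omega)
    have h5 : ∑ j ∈ Finset.range (k + 1), pr2par (e ∅ + i) j =
        ∑ j ∈ Finset.range (k + 1) \ Finset.range (k₀ + 1), pr2par (e ∅ + i) j +
        ∑ j ∈ Finset.range (k₀ + 1), pr2par (e ∅ + i) j := (Finset.sum_sdiff h4).symm
    have h6 : ∑ j ∈ Finset.range (k + 1), pr2 j =
        ∑ j ∈ Finset.range (k + 1) \ Finset.range (k₀ + 1), pr2 j +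
        ∑ j ∈ Finset.range (k₀ + 1), pr2 j := (Finset.sum_sdiff h4).symm
    have h7 : ∑ j ∈ Finset.range (k + 1) \ Finset.range (k₀ + 1), pr2par (e ∅ + i) j ≤
        2 * ∑ j ∈ Finset.range (k + 1) \ Finset.range (k₀ + 1), pr2 j := by
      rw [Finset.mul_sum]
      exact Finset.sum_le_sum fun j _ => (par_le hp).2
    linarith

/-- the twist by `∏_{q ∈ J} q` -/
def tw (J : Finset ℕ) (c : ℤ × ℤ) : ℤ × ℤ :=
  (c.1 * (∏ q ∈ J, (q : ℤ)) ^ 2, c.2 * (∏ q ∈ J, (q : ℤ)) ^ 3)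

theorem twf_pol (J : Finset ℕ) (c : ℤ × ℤ) : twf J (pol c) = pol (tw J c) := by
  have hd : (twf J (pol c)).natDegree = 3 := by
    show ((pol c).scaleRoots (((∏ q ∈ J, q : ℕ) : ℕ) : 𝓞 ℚ)).natDegree = 3
    rw [natDegree_scaleRoots, pol_deg]
  have hc : ∀ i, (twf J (pol c)).coeff i = (pol c).coeff i * ((∏ q ∈ J, q : ℕ) : 𝓞 ℚ) ^ (3 - i) := by
    intro i
    show ((pol c).scaleRoots (((∏ q ∈ J, q : ℕ) : ℕ) : 𝓞 ℚ)).coeff i = _
    rw [coeff_scaleRoots, pol_deg]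
  refine ext_cub ((monic_scaleRoots_iff _).2 (pol_mon c)) hd ?_ (pol_mon _) (pol_deg _) (pol_c2 _)
    ?_ ?_
  · rw [hc, pol_c2, zero_mul]
  · rw [hc, pol_c0, pol_c0, tw]
    push_cast
    ring
  · rw [hc, pol_c1, pol_c1, tw]
    push_cast
    ring

/-- The bound for the Selmer group of the twist. -/
def Pz (c : ℤ × ℤ) (k : ℕ) (J : Finset ℕ) : Prop := ∃ n ≤ 2 ^ k, Gd n (io (tw J c))

/-- The law for the random twists. -/
def Qz (S : Finset ℕ) (m₀ m : ℕ) (ε : ℝ) (c : ℤ × ℤ) : Prop :=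
  ∃ t : ℕ, ∀ i, m₀ ≤ i → i ≤ m → ∀ k : ℕ,
    (∑ j ∈ Finset.range (k + 1), pr2par (t + i) j - ε) * (S.card.choose i : ℝ) ≤
      (((S.powersetCard i).filter fun J => Pz c k J).card : ℝ)

/-- **The family.** -/
theorem twv (c₀ : ℤ × ℤ)
    (hmin : ∀ q : ℕ, q.Prime → ¬ ((q : ℤ) ^ 4 ∣ c₀.1 ∧ (q : ℤ) ^ 6 ∣ c₀.2))
    (N : ℕ) (hN : 0 < N) (ε : ℝ) (hε : 0 < ε) : ∃ m₀ : ℕ, ∀ m ≥ m₀,
    ∃ (S : Finset ℕ) (M : ℕ) (R : Set (ℤ × ℤ)), m ≤ S.card ∧ 0 < M ∧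
    (∀ q ∈ S, q.Prime ∧ q ∣ M) ∧
    (∀ c c' : ℤ × ℤ, c ∈ R → (M : ℤ) ∣ c'.1 - c.1 → (M : ℤ) ∣ c'.2 - c.2 → c' ∈ R) ∧
    (∀ c ∈ Fm M R, ∀ J ⊆ S,
      ((N : ℤ) ∣ (tw J c).1 - c₀.1 ∧ (N : ℤ) ∣ (tw J c).2 - c₀.2) ∧
      ∀ q : ℕ, q.Prime → ¬ ((q : ℤ) ^ 4 ∣ (tw J c).1 ∧ (q : ℤ) ^ 6 ∣ (tw J c).2)) ∧
    ∃ (δ X₀ : ℝ), 0 < δ ∧ 0 < X₀ ∧ ∀ X : ℝ, X₀ ≤ X →
    0 < {c : ℤ × ℤ | (Pool.Agent.H93PR.QR.height c : ℝ) ≤ X ∧ c ∈ Fm M R}.ncard ∧
    δ * ({c : ℤ × ℤ | (Pool.Agent.H93PR.QR.height c : ℝ) ≤ X}.ncard : ℝ) ≤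
      ({c : ℤ × ℤ | (Pool.Agent.H93PR.QR.height c : ℝ) ≤ X ∧ c ∈ Fm M R}.ncard : ℝ) ∧
    ({c : ℤ × ℤ | (Pool.Agent.H93PR.QR.height c : ℝ) ≤ X ∧ c ∈ Fm M R ∧
        ¬ Qz S m₀ m ε c}.ncard : ℝ) ≤
      ε * ({c : ℤ × ℤ | (Pool.Agent.H93PR.QR.height c : ℝ) ≤ X ∧ c ∈ Fm M R}.ncard : ℝ) := by
  have hEUL : S_EUL := Pool.Agent.H10PR.eul
  obtain ⟨K, hK⟩ := a_BALW 1 ℚ le_rfl
  obtain ⟨W, f₁, hNW, hKW, hf₁, hW, hsep, -⟩ := CLSX.t 1 K (N ^ (2 * (2 * 1 + 1))) ℚ (pol c₀) le_rfl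
    (pow_pos hN _) (pol_mon c₀) (pol_deg c₀) (pol_c2 c₀)
  obtain ⟨cW, hcW, hBal⟩ := hK W f₁ hKW hW
  have hW0 : 0 < W := hW.pos
  -- the constants
  obtain ⟨k₀, hk₀⟩ : ∃ k₀ : ℕ, 1 - ε / 4 ≤ ∑ j ∈ Finset.range (k₀ + 1), pr2 j := by
    have h7 := hEUL.2.1.tendsto_sum_nat
    have h8 := (h7.eventually (eventually_ge_nhds (show 1 - ε / 4 < 1 by linarith))).exists
    obtain ⟨l, hl⟩ := h8
    refine ⟨l, hl.trans ?_⟩
    exact Finset.sum_le_sum_of_subset_of_nonneg (Finset.range_subset_range.2 (by omega))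
      fun j _ _ => (hEUL.1 j).le
  obtain ⟨ε₂, hε₂⟩ : ∃ ε₂ : ℝ, ε₂ = ε / (2 * (k₀ + 1)) := ⟨_, rfl⟩
  have hε₂0 : 0 < ε₂ := by rw [hε₂]; positivity
  have hε₂1 : (k₀ + 1) * ε₂ ≤ ε / 2 := by
    rw [hε₂]
    apply le_of_eq
    field_simp
  obtain ⟨δ₀, hδ₀, hRg⟩ := REGV.t 1 ωn ℚ le_rfl ωn_pos W cW hW0 hcW ε hε
  obtain ⟨m₀, hm₀⟩ := hBal ε₂ δ₀ hε₂0 hδ₀
  refine ⟨m₀, fun m hmm => ?_⟩
  obtain ⟨n₀, hn₀⟩ := hm₀ m hmm
  obtain ⟨η, hη, hreg⟩ := hRg m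
  obtain ⟨S, R', 𝔮, r, P, Q, -, hGS, hmodW, hcard, hcube, -, -, -, -⟩ :=
    EXVW.t 1 ℚ le_rfl W m₀ (max n₀ m) 1 hW0 one_pos
  have hSsub : S ⊆ S ∪ R' := Finset.subset_union_left
  have hT : GoodS 1 W S 𝔮 r P := fun q hq => hGS q (hSsub hq)
  have hT1 : ∀ q ∈ S, q ≡ 1 [MOD W] := fun q hq => hmodW q (hSsub hq)
  have hmS : m ≤ S.card := (le_max_right _ _).trans hcard
  have hbox := hn₀ S ∅ 𝔮 r P (Finset.disjoint_empty_right _)
    (by rw [Finset.union_empty]; exact hT) (by rw [Finset.union_empty]; exact hT1)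
    ((le_max_left _ _).trans hcard)
    (by rw [Finset.union_empty]; exact fun q hq => hcube q (hSsub hq))
  rw [Finset.union_empty] at hbox
  have hcop : ∀ q ∈ S, q.Prime ∧ Nat.Coprime W q := by
    intro q hq
    refine ⟨(hT q hq).1, Nat.Coprime.symm ?_⟩
    rw [Nat.Prime.coprime_iff_not_dvd (hT q hq).1]
    intro hd
    exact absurd (Nat.le_of_dvd hW0 hd) (not_le.2 (hT q hq).2.1)
  obtain ⟨c, Y₀, hc, hY⟩ := hreg S f₁ P (LawW 1 W 𝔮 S ∅ m₀ m ε₂) hcop hbox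
  have hTp : ∀ q ∈ S, 0 < q := fun q hq => (hT q hq).1.pos
  have h𝒥 : ∀ J ∈ ({∅} : Finset (Finset ℕ)), J ⊆ S := by
    intro J hJ
    rw [Finset.mem_singleton.1 hJ]
    exact Finset.empty_subset _
  have hpow : ∀ J ∈ S.powerset, J ⊆ S := fun J hJ => Finset.mem_powerset.1 hJ
  obtain ⟨M, hM⟩ : ∃ M : ℕ, M = md 1 W S := ⟨_, rfl⟩
  obtain ⟨R, hR⟩ : ∃ R : Set (ℤ × ℤ), R = {c | pol c ∈ RR 1 W f₁ S P {∅} M} := ⟨_, rfl⟩
  have e0' : ∀ f : (𝓞 ℚ)[X], twf ∅ f = f := by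
    intro f
    show f.scaleRoots (((∏ q ∈ (∅ : Finset ℕ), q : ℕ) : ℕ) : 𝓞 ℚ) = f
    rw [Finset.prod_empty, Nat.cast_one, scaleRoots_one]
  have hbase : ∀ f : (𝓞 ℚ)[X], f ∈ FmlW 1 W f₁ S P {∅} ↔ BaseW 1 W f₁ S P f := by
    intro f
    constructor
    · rintro ⟨J, hJ, f', hb, rfl⟩
      rw [Finset.mem_singleton] at hJ
      subst hJ
      rw [e0']
      exact hb
    · intro h
      exact ⟨∅, Finset.mem_singleton_self _, f, h, (e0' f).symm⟩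
  have hfm : ∀ c : ℤ × ℤ, c ∈ Fm M R ↔ BaseW 1 W f₁ S P (pol c) := by
    intro c
    rw [hR, hM]
    exact (fm_iff' hW hT h𝒥 c).trans (hbase _)
  have hNW' : N ∣ W := (Dvd.intro_left (N ^ 5) (by ring)).trans hNW
  have hN6 : N ∣ N ^ (2 * (2 * 1 + 1)) := Dvd.intro_left (N ^ 5) (by ring)
  refine ⟨S, M, R, hmS, ?_, fun q hq => ⟨(hT q hq).1, ?_⟩, ?_, fun c hc J hJ => ?_, c,
    (max Y₀ 1) ^ 6, hc, by positivity, ?_⟩
  · rw [hM]
    exact md_pos hW.pos hTp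
  · rw [hM, md]
    exact Dvd.dvd.mul_left ((Finset.dvd_prod_of_mem (fun q => q) hq).trans
      (dvd_pow_self _ (by omega))) _
  · intro c c' hc h1 h2
    rw [hR] at hc ⊢
    exact per_rr 1 W f₁ S P {∅} M (pol c) (pol c') hc (cg_pol.2 ⟨h1, h2⟩)
  · have hb := (hfm c).1 hc
    have hmem : twf J (pol c) ∈ FmlW 1 W f₁ S P S.powerset :=
      ⟨J, Finset.mem_powerset.2 hJ, pol c, hb, rfl⟩
    have hin := (fml_iff le_rfl hW hT hpow _).2 hmem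
    have hcf : Cg (sp ℚ W) (twf J (pol c)) f₁ := rr_cg hT1 hpow hW.mon hin.mem
    have h2 : Cg (sp ℚ N) (twf J (pol c)) (pol c₀) :=
      cg_trans (cg_mono (sp_le hNW') hcf) (cg_mono (sp_le hN6) hf₁)
    rw [twf_pol] at h2
    refine ⟨cg_pol.1 h2, fun q hq hq' => ?_⟩
    have h1 := min_fml le_rfl hN hW hNW hf₁ (fun 𝔭 hp hN𝔭 hall => by
      have h0 : 𝔭 ≠ ⊥ := by
        rintro rfl
        rw [Ideal.mem_bot] at hN𝔭
        exact hN.ne' (by exact_mod_cast hN𝔭)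
      obtain ⟨q, hq, rfl⟩ := Pool.Agent.H93PR.QR.exists_Pq hp h0
      exact hmin q hq (min_iff.1 hall)) hsep hT hT1 hpow hmem
    rw [twf_pol] at h1
    exact h1 (Pq q) (Pq_prime hq) (Pq_ne hq) (min_iff.2 hq')
  · intro X hX
    have hZ : (1 : ℝ) ≤ max Y₀ 1 := le_max_right _ _
    have hX0 : 0 < X := lt_of_lt_of_le (by positivity) hX
    have hYY : Y₀ ≤ (X ^ ((1 : ℝ) / 12)) ^ 2 :=
      (le_max_left Y₀ 1).trans (root12 (zero_le_one.trans hZ) hX)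
    obtain ⟨a1, a2, -, a3⟩ := (hY ((X ^ ((1 : ℝ) / 12)) ^ 2)).2 hYY
    have e0 : {f : (𝓞 ℚ)[X] | HtV 1 ωn ((X ^ ((1 : ℝ) / 12)) ^ 2) f}.ncard =
        {c : ℤ × ℤ | (Pool.Agent.H93PR.QR.height c : ℝ) ≤ X}.ncard := by
      have := ncard_pol hX0 fun _ => True
      simpa only [and_true] using this
    have e1 : {f : (𝓞 ℚ)[X] | HtV 1 ωn ((X ^ ((1 : ℝ) / 12)) ^ 2) f ∧
        BaseW 1 W f₁ S P f}.ncard =
        {c : ℤ × ℤ | (Pool.Agent.H93PR.QR.height c : ℝ) ≤ X ∧ c ∈ Fm M R}.ncard := by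
      rw [ncard_pol hX0 (fun f => BaseW 1 W f₁ S P f)]
      simp only [hfm]
    rw [e1] at a1 a2 a3
    rw [e0] at a2
    refine ⟨a1, a2, le_trans ?_ a3⟩
    rw [ncard_pol hX0 (fun f => BaseW 1 W f₁ S P f ∧ ¬ LawW 1 W 𝔮 S ∅ m₀ m ε₂ f)]
    have hsub : {c : ℤ × ℤ | (Pool.Agent.H93PR.QR.height c : ℝ) ≤ X ∧ c ∈ Fm M R ∧
        ¬ Qz S m₀ m ε c} ⊆ {c : ℤ × ℤ | (Pool.Agent.H93PR.QR.height c : ℝ) ≤ X ∧
        BaseW 1 W f₁ S P (pol c) ∧ ¬ LawW 1 W 𝔮 S ∅ m₀ m ε₂ (pol c)} := by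
      rintro c ⟨h1, h2, h3⟩
      refine ⟨h1, (hfm c).1 h2, fun h4 => h3 ?_⟩
      refine qn_gen hEUL hk₀ hε₂0.le hε₂1 hmS h4 (Pz c) fun J hJ k hr => ?_
      refine gd_of hW hT hT1 (𝒥 := S.powerset) hpow (c := tw J c) ?_
      exact ⟨J, Finset.mem_powerset.2 hJ, pol c, (hfm c).1 h2, (twf_pol J c).symm, hr⟩
    exact_mod_cast Set.ncard_le_ncard hsub
      ((Pool.Agent.H93PR.QR.height_finite X).subset fun c hc => hc.1)

end Pool.Agent.H18N.TwV
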